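import Pool.Agent.ADM.Defs
import Pool.Agent.AD.Tlat

/-!
# ADM-AllT

The parts of a polynomial consisting of the words that contain exactly the letters `0, 1` (exactly the letter `0`).

PLAN.  Apply successively the operators `g ↦ g - (X l ↦ 0) g` for `l = 0, 1` and then the substitution `X l ↦ 0` for `l ≥ 2`
(for allO: `l = 0` and `l ≥ 1`); `I` is closed under them.  A smooth way: write `g = ∑_{w ∈ s} cf w g • mon w` (`eq_sum_cf`,
T3a.lean); all operations map `mon w` to `mon w` or `0`.  See the proof of `ADN.cubic` (Pool/Agent/ADN/Cubic.lean), which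
contains such an argument.
-/

namespace ADM

open AD ADN

/-- the coefficient as a linear map -/
private noncomputable def altL (w : List ℕ) : P →ₗ[ℤ] ℤ where
  toFun := cf w
  map_add' := cf_add w
  map_smul' n f := by
    rw [cf_smul]
    rfl

private theorem alt_sub (w : List ℕ) (f g : P) : cf w (f - g) = cf w f - cf w g :=
  map_sub (altL w) f g

/-- a linear map evaluated on the monomials -/
private theorem alt_lin (T : P →ₗ[ℤ] P) (w v : List ℕ) (c : List ℕ → ℤ)
    (h : ∀ u, cf w (T (mon u)) = if u = v then c u else 0) (f : P) :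
    cf w (T f) = cf v f * c v := by
  obtain ⟨s, hs1, hs2⟩ := eq_sum_cf f
  have e1 : cf w (T f) = ∑ u ∈ s, cf u f * (if u = v then c u else 0) := by
    conv_lhs => rw [hs2]
    have e2 : cf w (T (∑ u ∈ s, cf u f • mon u)) = altL w (T (∑ u ∈ s, cf u f • mon u)) := rfl
    rw [e2, map_sum, map_sum]
    refine Finset.sum_congr rfl fun u _ => ?_
    rw [map_smul]
    show cf w (cf u f • T (mon u)) = _
    rw [cf_smul, h]
  rw [e1]
  by_cases hv : v ∈ s
  · rw [Finset.sum_eq_single_of_mem v hv fun u _ huv => by rw [if_neg huv, mul_zero], if_pos rfl]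
  · rw [hs1 v hv, zero_mul]
    refine Finset.sum_eq_zero fun u hu => ?_
    rw [if_neg (fun h' : u = v => hv (h' ▸ hu)), mul_zero]

/-- the substitution killing the variables outside `A` -/
private noncomputable def altK (A : ℕ → Prop) [DecidablePred A] : P →ₐ[ℤ] P :=
  FreeAlgebra.lift ℤ fun v => if A v then X v else 0

private theorem alt_aug_X (i : ℕ) : aug (X i) = 0 := by
  unfold aug
  rw [FreeAlgebra.lift_ι_apply]

private theorem altK_subst (A : ℕ → Prop) [DecidablePred A] : IsSubst (altK A) := by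
  intro i
  unfold altK
  rw [FreeAlgebra.lift_ι_apply]
  by_cases h : A i
  · rw [if_pos h, alt_aug_X]
  · rw [if_neg h, map_zero]

private theorem altK_mon (A : ℕ → Prop) [DecidablePred A] (u : List ℕ) :
    altK A (mon u) = if ∀ a ∈ u, A a then mon u else 0 := by
  induction u with
  | nil =>
    rw [if_pos (fun a ha => absurd ha List.not_mem_nil)]
    unfold mon
    rw [List.map_nil, List.prod_nil, map_one]
  | cons b u ih =>
    have e : mon (b :: u) = X b * mon u := by
      unfold mon
      rw [List.map_cons, List.prod_cons]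
    have e2 : altK A (X b) = if A b then X b else 0 := by
      unfold altK
      rw [FreeAlgebra.lift_ι_apply]
    rw [e, map_mul, ih, e2]
    by_cases hb : A b
    · by_cases hu : ∀ a ∈ u, A a
      · rw [if_pos hb, if_pos hu, if_pos (List.forall_mem_cons.2 ⟨hb, hu⟩)]
      · rw [if_neg hu, mul_zero, if_neg (fun h => hu (List.forall_mem_cons.1 h).2)]
    · rw [if_neg hb, zero_mul, if_neg (fun h => hb (List.forall_mem_cons.1 h).1)]

private theorem altK_cf (A : ℕ → Prop) [DecidablePred A] (u : List ℕ) (f : P) :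
    cf u (altK A f) = if ∀ a ∈ u, A a then cf u f else 0 := by
  have h := alt_lin (altK A).toLinearMap u u (fun v => if ∀ a ∈ v, A a then 1 else 0) (fun v => by
    show cf u (altK A (mon v)) = _
    rw [altK_mon]
    by_cases hv : ∀ a ∈ v, A a
    · rw [if_pos hv, cf_mon]
      by_cases huv : v = u
      · rw [if_pos huv, if_pos huv, if_pos hv]
      · rw [if_neg huv, if_neg huv]
    · have e : cf u (0 : P) = 0 := map_zero (altL u)
      rw [if_neg hv, e]
      by_cases huv : v = u
      · rw [if_pos huv, if_neg hv]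
      · rw [if_neg huv]) f
  refine (show cf u (altK A f) = _ from h).trans ?_
  by_cases hu : ∀ a ∈ u, A a
  · rw [if_pos hu, if_pos hu, mul_one]
  · rw [if_neg hu, if_neg hu, mul_zero]

/-- the part in which all words contain the letter `l` -/
private noncomputable def altD (l : ℕ) (f : P) : P := f - altK (fun v => v ≠ l) f

private theorem altD_cf (l : ℕ) (f : P) (u : List ℕ) :
    cf u (altD l f) = if l ∈ u then cf u f else 0 := by
  unfold altD
  rw [alt_sub, altK_cf]
  by_cases h : l ∈ u
  · rw [if_pos h, if_neg (fun h' => h' l h rfl), sub_zero]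
  · rw [if_neg h, if_pos (fun a ha (hal : a = l) => h (hal ▸ ha)), sub_self]

private theorem altD_mem {I : Submodule ℤ P} (hI : IsT I) (l : ℕ) {f : P} (hf : f ∈ I) :
    altD l f ∈ I :=
  I.sub_mem hf (hI.subst _ (altK_subst _) f hf)

theorem allT {I : Submodule ℤ P} (hI : IsT I) {g : P} (hg : g ∈ I) :
    ∃ G : List (Fin 2) →₀ ℤ, (∀ w ∈ G.support, ∀ i, i ∈ w) ∧
      (G.sum fun w c => c • mon (w.map Fin.val)) ∈ I ∧
      ∀ w : List (Fin 2), (∀ i, i ∈ w) → G w = cf (w.map Fin.val) g := by
  classical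
  obtain ⟨f, hf⟩ : ∃ f : P, f = altD 0 (altD 1 (altK (fun v => v < 2) g)) := ⟨_, rfl⟩
  have hfI : f ∈ I := by
    rw [hf]
    exact altD_mem hI _ (altD_mem hI _ (hI.subst _ (altK_subst _) _ hg))
  have hcf : ∀ u, cf u f = if 0 ∈ u then (if 1 ∈ u then
      (if ∀ a ∈ u, a < 2 then cf u g else 0) else 0) else 0 := by
    intro u
    rw [hf, altD_cf, altD_cf, altK_cf]
  have hne : ∀ u, cf u f ≠ 0 → 0 ∈ u ∧ 1 ∈ u ∧ ∀ a ∈ u, a < 2 := by
    intro u hu
    rw [hcf] at hu
    by_cases h0 : 0 ∈ u
    · by_cases h1 : 1 ∈ u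
      · by_cases h3 : ∀ a ∈ u, a < 2
        · exact ⟨h0, h1, h3⟩
        · rw [if_pos h0, if_pos h1, if_neg h3] at hu
          exact absurd rfl hu
      · rw [if_pos h0, if_neg h1] at hu
        exact absurd rfl hu
    · rw [if_neg h0] at hu
      exact absurd rfl hu
  obtain ⟨s, hs1, hs2⟩ := eq_sum_cf f
  have hinj : Function.Injective (List.map (Fin.val : Fin 2 → ℕ)) :=
    List.map_injective_iff.2 Fin.val_injective
  refine ⟨Finsupp.onFinset (s.preimage (List.map Fin.val) hinj.injOn)
    (fun v => cf (v.map Fin.val) f) (fun v hv => ?_), fun v hv i => ?_, ?_, fun v hv => ?_⟩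
  · rw [Finset.mem_preimage]
    by_contra h'
    exact hv (hs1 _ h')
  · rw [Finsupp.mem_support_iff] at hv
    obtain ⟨h0, h1, _⟩ := hne _ hv
    have key : i.val ∈ v.map Fin.val := by
      have hi := i.2
      obtain ⟨k, hk⟩ : ∃ k, k = i.val := ⟨_, rfl⟩
      rw [← hk] at hi ⊢
      interval_cases k
      · exact h0
      · exact h1
    obtain ⟨j, hj, hji⟩ := List.mem_map.1 key
    rwa [Fin.val_injective hji] at hj
  · rw [Finsupp.onFinset_sum _ (fun v => by rw [zero_smul])]
    have e := Finset.sum_preimage (List.map (Fin.val : Fin 2 → ℕ)) s hinj.injOn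
      (fun u => cf u f • mon u) (fun u _ hu => by
        by_cases h0 : cf u f = 0
        · rw [h0, zero_smul]
        · exfalso
          apply hu
          obtain ⟨_, _, h3⟩ := hne u h0
          refine ⟨u.map fun a => if h : a < 2 then ⟨a, h⟩ else 0, ?_⟩
          rw [List.map_map]
          conv_rhs => rw [← List.map_id u]
          refine List.map_congr_left fun a ha => ?_
          show ((if h : a < 2 then (⟨a, h⟩ : Fin 2) else 0 : Fin 2) : ℕ) = a
          rw [dif_pos (h3 a ha)])
    rw [e, ← hs2]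
    exact hfI
  · show cf (v.map Fin.val) f = cf (v.map Fin.val) g
    have m0 : 0 ∈ v.map (Fin.val : Fin 2 → ℕ) := List.mem_map.2 ⟨0, hv 0, rfl⟩
    have m1 : 1 ∈ v.map (Fin.val : Fin 2 → ℕ) := List.mem_map.2 ⟨1, hv 1, rfl⟩
    have m2 : ∀ a ∈ v.map (Fin.val : Fin 2 → ℕ), a < 2 := fun a ha => by
      obtain ⟨j, _, hj⟩ := List.mem_map.1 ha
      rw [← hj]
      exact j.2
    rw [hcf, if_pos m0, if_pos m1, if_pos m2]

theorem allO {I : Submodule ℤ P} (hI : IsT I) {g : P} (hg : g ∈ I) :
    ∃ c : ℕ →₀ ℤ, c 0 = 0 ∧ (c.sum fun k z => z • mon (List.replicate k 0)) ∈ I ∧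
      ∀ k, 1 ≤ k → c k = cf (List.replicate k 0) g := by
  classical
  obtain ⟨f, hf⟩ : ∃ f : P, f = altD 0 (altK (fun v => v < 1) g) := ⟨_, rfl⟩
  have hfI : f ∈ I := by
    rw [hf]
    exact altD_mem hI _ (hI.subst _ (altK_subst _) _ hg)
  have hcf : ∀ u, cf u f = if 0 ∈ u then
      (if ∀ a ∈ u, a < 1 then cf u g else 0) else 0 := by
    intro u
    rw [hf, altD_cf, altK_cf]
  have hne : ∀ u, cf u f ≠ 0 → ∀ a ∈ u, a < 1 := by
    intro u hu
    rw [hcf] at hu
    by_cases h0 : 0 ∈ u
    · by_cases h3 : ∀ a ∈ u, a < 1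
      · exact h3
      · rw [if_pos h0, if_neg h3] at hu
        exact absurd rfl hu
    · rw [if_neg h0] at hu
      exact absurd rfl hu
  obtain ⟨s, hs1, hs2⟩ := eq_sum_cf f
  have hinj : Function.Injective (fun k : ℕ => List.replicate k (0 : ℕ)) := by
    intro a b h
    have := congrArg List.length h
    simpa using this
  refine ⟨Finsupp.onFinset (s.preimage (fun k : ℕ => List.replicate k (0 : ℕ)) hinj.injOn)
    (fun k => cf (List.replicate k 0) f) (fun k hk => ?_), ?_, ?_, fun k hk => ?_⟩
  · rw [Finset.mem_preimage]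
    by_contra h'
    exact hk (hs1 _ h')
  · show cf (List.replicate 0 0) f = 0
    rw [hcf, if_neg (by simp)]
  · rw [Finsupp.onFinset_sum _ (fun v => by rw [zero_smul])]
    have e := Finset.sum_preimage (fun k : ℕ => List.replicate k (0 : ℕ)) s hinj.injOn
      (fun u => cf u f • mon u) (fun u _ hu => by
        by_cases h0 : cf u f = 0
        · rw [h0, zero_smul]
        · exfalso
          apply hu
          have h3 := hne u h0
          refine ⟨u.length, ?_⟩
          symm
          exact List.eq_replicate_iff.2 ⟨rfl, fun a ha => by have := h3 a ha; omega⟩)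
    rw [e, ← hs2]
    exact hfI
  · show cf (List.replicate k 0) f = cf (List.replicate k 0) g
    rw [hcf, if_pos (List.mem_replicate.2 ⟨by omega, rfl⟩), if_pos (fun a ha => by
      rw [(List.mem_replicate.1 ha).2]; exact Nat.zero_lt_one)]

end ADM
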