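import Pool.Agent.ADM.Defs
import Pool.Agent.AD.Tlat

/-!
# ADM-LarT

PLAN.  `Lar L` (Defs) is the largest T-ideal contained in `L`.
* isT_Lar: `mul_right`: `u * φ (f * g) * v = u * φ f * (φ g * v)`; `mul_left` the same; `subst`: `φ (ψ f) = (φ.comp ψ) f` and
  `φ.comp ψ` is a substitution without constant terms (`aug (φ h) = 0` if `aug h = 0`; see `AD.isT_Pp`, whose
  proof contains `aug (φ f) = aug f`; also `AD.kill_aug_subst`).
* Lar_le: take `φ = AlgHom.id`, `u = v = 1`.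
* Lar_inf: pointwise.
-/

namespace ADM

open AD ADN

private theorem LarT_mem {L : Submodule ℤ P} {f : P} :
    f ∈ Lar L ↔ f ∈ Pp ∧ ∀ φ : P →ₐ[ℤ] P, IsSubst φ → ∀ u v : P, u * φ f * v ∈ L := Iff.rfl

theorem isT_Lar (L : Submodule ℤ P) : IsT (Lar L) := by
  refine ⟨fun f hf => hf.1, ?_, ?_, ?_⟩
  · intro f hf g
    rw [LarT_mem] at hf ⊢
    refine ⟨isT_Pp.mul_right f hf.1 g, fun φ hφ u v => ?_⟩
    have h := hf.2 φ hφ u (φ g * v)
    have e : u * φ (f * g) * v = u * φ f * (φ g * v) := by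
      rw [map_mul]; simp only [mul_assoc]
    rw [e]
    exact h
  · intro f hf g
    rw [LarT_mem] at hf ⊢
    refine ⟨isT_Pp.mul_left f hf.1 g, fun φ hφ u v => ?_⟩
    have h := hf.2 φ hφ (u * φ g) v
    have e : u * φ (g * f) * v = u * φ g * φ f * v := by
      rw [map_mul]; simp only [mul_assoc]
    rw [e]
    exact h
  · intro φ hφ f hf
    rw [LarT_mem] at hf ⊢
    refine ⟨isT_Pp.subst φ hφ f hf.1, fun ψ hψ u v => ?_⟩
    have h := hf.2 (ψ.comp φ) (fun i => ?_) u v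
    · exact h
    · have h1 : φ (X i) ∈ Pp := hφ i
      exact isT_Pp.subst ψ hψ (φ (X i)) h1

theorem Lar_le (L : Submodule ℤ P) : Lar L ≤ L := by
  intro f hf
  have h := (LarT_mem.1 hf).2 (AlgHom.id ℤ P) (fun i => by simp [aug, X]) 1 1
  simpa using h

theorem Lar_inf (L L' : Submodule ℤ P) : Lar (L ⊓ L') = Lar L ⊓ Lar L' := by
  ext f
  rw [Submodule.mem_inf, LarT_mem, LarT_mem, LarT_mem]
  constructor
  · intro h
    exact ⟨⟨h.1, fun φ hφ u v => (h.2 φ hφ u v).1⟩, ⟨h.1, fun φ hφ u v => (h.2 φ hφ u v).2⟩⟩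
  · intro h
    exact ⟨h.1.1, fun φ hφ u v => ⟨h.1.2 φ hφ u v, h.2.2 φ hφ u v⟩⟩

theorem Lar_mono {L L' : Submodule ℤ P} (h : L ≤ L') : Lar L ≤ Lar L' := by
  intro f hf
  rw [LarT_mem] at hf ⊢
  exact ⟨hf.1, fun φ hφ u v => h (hf.2 φ hφ u v)⟩

theorem le_Lar {T L : Submodule ℤ P} (hT : IsT T) (h : T ≤ L) : T ≤ Lar L := by
  intro f hf
  rw [LarT_mem]
  exact ⟨hT.le hf, fun φ hφ u v => h (hT.mul_right _ (hT.mul_left _ (hT.subst φ hφ f hf) u) v)⟩

end ADM
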