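import Pool.Agent.ADM.Defs
import Pool.Agent.ADM.LarT

/-!
# ADM-OpE

An element of `I` outside `OT p` gives elements of `I` whose coefficient at `x_0 ^ p x_1` is prime to `p`.

If `p` divides all coefficients at `x_0 ^ p x_1` of elements of `I`, then by the substitutions `x_0 ↦ x_0 ^ p`,
`x_0 ↔ x_1` and `x_0 ↦ x_0 + x_1, x_1 ↦ λ x_0`, `λ ∈ ℤ`, it divides the coefficient at `x_0 x_1` and `cofB p`, so
that `I ≤ OT p`.
-/

namespace ADM

open AD ADN

private theorem cf_sum {ι : Type} (W : List ℕ) (s : Finset ι) (f : ι → P) :
    cf W (∑ i ∈ s, f i) = ∑ i ∈ s, cf W (f i) := by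
  classical
  have h0 : cf W (0 : P) = 0 := by
    have := cf_smul W 0 (0 : P)
    rwa [zero_smul, zero_mul] at this
  induction s using Finset.induction_on with
  | empty => rw [Finset.sum_empty, Finset.sum_empty, h0]
  | insert a s ha ih => rw [Finset.sum_insert ha, Finset.sum_insert ha, cf_add, ih]

private theorem cf_alg (W : List ℕ) (ψ : P →ₐ[ℤ] P) (c : List ℕ → ℤ)
    (h : ∀ w, cf W (ψ (mon w)) = c w) (g : P) (s : Finset (List ℕ))
    (hg : g = ∑ w ∈ s, cf w g • mon w) : cf W (ψ g) = ∑ w ∈ s, cf w g * c w := by
  conv_lhs => rw [hg]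
  rw [map_sum, cf_sum]
  apply Finset.sum_congr rfl
  intro w _
  rw [map_smul, cf_smul, h]

private theorem cf_alg_one (W w₀ : List ℕ) (ψ : P →ₐ[ℤ] P)
    (h : ∀ w, cf W (ψ (mon w)) = if w = w₀ then 1 else 0) (g : P) : cf W (ψ g) = cf w₀ g := by
  classical
  obtain ⟨s, hs, hg⟩ := eq_sum_cf g
  rw [cf_alg W ψ _ h g s hg]
  simp only [mul_ite, mul_one, mul_zero]
  rw [Finset.sum_ite_eq']
  split_ifs with h1
  · rfl
  · exact (hs _ h1).symm

private theorem mon_cons (a : ℕ) (w : List ℕ) : mon (a :: w) = X a * mon w := by
  simp [mon]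

private theorem mon_nil : mon [] = 1 := by
  simp [mon]

private theorem mon_append (v w : List ℕ) : mon (v ++ w) = mon v * mon w := by
  simp [mon]

private theorem mon_replicate (n a : ℕ) : mon (List.replicate n a) = X a ^ n := by
  simp [mon]

private theorem cf_X_mul_nil (b : ℕ) (h : P) : cf [] (X b * h) = 0 := by
  obtain ⟨s, _, hg⟩ := eq_sum_cf h
  rw [hg, Finset.mul_sum, cf_sum]
  apply Finset.sum_eq_zero
  intro u _
  rw [mul_smul_comm, cf_smul, ← mon_cons, cf_mon, if_neg (List.cons_ne_nil _ _), mul_zero]

private theorem cf_X_mul_cons (b a : ℕ) (W : List ℕ) (h : P) :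
    cf (a :: W) (X b * h) = if b = a then cf W h else 0 := by
  classical
  obtain ⟨s, hs, hg⟩ := eq_sum_cf h
  have h1 : cf (a :: W) (X b * h) = ∑ u ∈ s, cf u h * (if b :: u = a :: W then 1 else 0) := by
    conv_lhs => rw [hg]
    rw [Finset.mul_sum, cf_sum]
    apply Finset.sum_congr rfl
    intro u _
    rw [mul_smul_comm, cf_smul, ← mon_cons, cf_mon]
  rw [h1]
  by_cases hab : b = a
  · subst hab
    rw [if_pos rfl]
    have h2 : ∀ u : List ℕ, (b :: u = b :: W) ↔ u = W := fun u => by simp
    simp only [h2, mul_ite, mul_one, mul_zero]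
    rw [Finset.sum_ite_eq']
    split_ifs with h3
    · rfl
    · exact (hs _ h3).symm
  · rw [if_neg hab]
    apply Finset.sum_eq_zero
    intro u _
    rw [if_neg (fun h3 => hab (List.cons.inj h3).1), mul_zero]

/-! ### first substitution -/

private def ex0 (p : ℕ) (w : List ℕ) : List ℕ :=
  w.flatMap fun i => if i = 0 then List.replicate p 0 else [i]

private noncomputable def psi0 (p : ℕ) : P →ₐ[ℤ] P :=
  FreeAlgebra.lift ℤ fun i => if i = 0 then X 0 ^ p else X i

private theorem psi0_mon (p : ℕ) (w : List ℕ) : psi0 p (mon w) = mon (ex0 p w) := by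
  induction w with
  | nil =>
    rw [mon_nil, map_one]
    simp [ex0, mon_nil]
  | cons a w ih =>
    have h1 : ex0 p (a :: w) = (if a = 0 then List.replicate p 0 else [a]) ++ ex0 p w := by
      simp [ex0]
    rw [mon_cons, map_mul, ih, h1, mon_append]
    congr 1
    unfold psi0
    rw [FreeAlgebra.lift_ι_apply]
    split_ifs with h2
    · rw [mon_replicate]
    · rw [mon_cons, mon_nil, mul_one]

private theorem ex0_iff {p : ℕ} (hp : 1 ≤ p) (w : List ℕ) :
    ex0 p w = List.replicate p 0 ++ [1] ↔ w = [0, 1] := by
  obtain ⟨q, rfl⟩ : ∃ q, p = q + 1 := ⟨p - 1, by omega⟩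
  have hc : ∀ a v, ex0 (q + 1) (a :: v) =
      (if a = 0 then List.replicate (q + 1) 0 else [a]) ++ ex0 (q + 1) v := fun a v => by
    simp [ex0]
  have hn : ex0 (q + 1) [] = [] := rfl
  have h1 : ∀ v, ex0 (q + 1) v = [] → v = [] := by
    intro v hv
    cases v with
    | nil => rfl
    | cons a v =>
      rw [hc] at hv
      split_ifs at hv
      · simp [List.replicate_succ] at hv
      · simp at hv
  have h2 : ∀ v, ex0 (q + 1) v = [1] → v = [1] := by
    intro v hv
    cases v with
    | nil => rw [hn] at hv; exact absurd hv (by simp)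
    | cons a v =>
      rw [hc] at hv
      split_ifs at hv with h3
      · rw [List.replicate_succ, List.cons_append] at hv
        exact absurd (List.cons.inj hv).1 (by norm_num)
      · rw [List.singleton_append] at hv
        obtain ⟨h4, h5⟩ := List.cons.inj hv
        rw [h4, h1 v h5]
  constructor
  · intro h
    cases w with
    | nil =>
      rw [hn] at h
      simp at h
    | cons a v =>
      rw [hc] at h
      split_ifs at h with h3
      · have h4 := List.append_cancel_left h
        rw [h3, h2 v h4]
      · have h4 : a :: ex0 (q + 1) v = 0 :: (List.replicate q 0 ++ [1]) := h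
        exact absurd (List.cons.inj h4).1 h3
  · rintro rfl
    rw [hc, hc, hn]
    simp

private theorem step_one {I : Submodule ℤ P} (hI : IsT I) {p : ℕ} (hp : p.Prime)
    (h : ∀ g ∈ I, (p : ℤ) ∣ cf (List.replicate p 0 ++ [1]) g) {g : P} (hg : g ∈ I) :
    (p : ℤ) ∣ cf [0, 1] g := by
  have hs : IsSubst (psi0 p) := by
    intro i
    unfold psi0
    rw [FreeAlgebra.lift_ι_apply]
    split_ifs with h1
    · rw [map_pow]
      have h2 : aug (X 0) = 0 := by
        unfold aug
        rw [FreeAlgebra.lift_ι_apply]
      rw [h2, zero_pow hp.ne_zero]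
    · unfold aug
      rw [FreeAlgebra.lift_ι_apply]
  have h1 := h _ (hI.subst _ hs g hg)
  rwa [cf_alg_one (List.replicate p 0 ++ [1]) [0, 1] (psi0 p) (fun w => by
    rw [psi0_mon, cf_mon]
    simp only [ex0_iff hp.one_lt.le]) g] at h1

/-! ### exchange of two letters -/

private def sw (i : ℕ) : ℕ := if i = 0 then 1 else if i = 1 then 0 else i

private theorem sw_sw (i : ℕ) : sw (sw i) = i := by
  by_cases h0 : i = 0
  · subst h0
    rfl
  · by_cases h1 : i = 1
    · subst h1
      rfl
    · have h2 : sw i = i := by
        unfold sw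
        rw [if_neg h0, if_neg h1]
      rw [h2, h2]

private noncomputable def psiS : P →ₐ[ℤ] P := FreeAlgebra.lift ℤ fun i => X (sw i)

private theorem psiS_mon (w : List ℕ) : psiS (mon w) = mon (w.map sw) := by
  induction w with
  | nil => rw [mon_nil, map_one, List.map_nil, mon_nil]
  | cons a w ih =>
    rw [mon_cons, map_mul, ih, List.map_cons, mon_cons]
    congr 1
    unfold psiS
    rw [FreeAlgebra.lift_ι_apply]

private theorem step_swap {I : Submodule ℤ P} (hI : IsT I) {p : ℕ}
    (h : ∀ g ∈ I, (p : ℤ) ∣ cf (List.replicate p 0 ++ [1]) g) {g : P} (hg : g ∈ I) :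
    (p : ℤ) ∣ cf (List.replicate p 1 ++ [0]) g := by
  have hs : IsSubst psiS := by
    intro i
    unfold psiS aug
    rw [FreeAlgebra.lift_ι_apply, FreeAlgebra.lift_ι_apply]
  have h1 := h _ (hI.subst _ hs g hg)
  have hmm : ∀ v : List ℕ, (v.map sw).map sw = v := by
    intro v
    rw [List.map_map]
    have : sw ∘ sw = id := funext sw_sw
    rw [this, List.map_id]
  rwa [cf_alg_one (List.replicate p 0 ++ [1]) (List.replicate p 1 ++ [0]) psiS (fun w => by
    rw [psiS_mon, cf_mon]
    have h2 : (w.map sw = List.replicate p 0 ++ [1]) ↔ w = List.replicate p 1 ++ [0] := by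
      have h3 : (List.replicate p 1 ++ [0]).map sw = List.replicate p 0 ++ [1] := by
        simp [sw]
      constructor
      · intro h4
        rw [← h3] at h4
        have h5 := congrArg (List.map sw) h4
        rwa [hmm, hmm] at h5
      · rintro rfl
        exact h3
    simp only [h2]) g] at h1

/-! ### third substitution -/

private noncomputable def psiL (l : ℤ) : P →ₐ[ℤ] P :=
  FreeAlgebra.lift ℤ fun i => if i = 0 then X 0 + X 1 else if i = 1 then l • X 0 else 0

private def Good (p : ℕ) (w : List ℕ) : Prop :=
  ∃ v, w = v ++ [0] ∧ v.length = p ∧ ∀ a ∈ v, a = 0 ∨ a = 1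

private theorem psiL_X (l : ℤ) (i : ℕ) :
    psiL l (X i) = if i = 0 then X 0 + X 1 else if i = 1 then l • X 0 else 0 := by
  unfold psiL
  rw [FreeAlgebra.lift_ι_apply]

private theorem cf_zero (W : List ℕ) : cf W (0 : P) = 0 := by
  have := cf_smul W 0 (0 : P)
  rwa [zero_smul, zero_mul] at this

private theorem psiL_nil (l : ℤ) (w : List ℕ) :
    cf [] (psiL l (mon w)) = if w = [] then 1 else 0 := by
  cases w with
  | nil => rw [mon_nil, map_one, ← mon_nil, cf_mon]
  | cons c w =>
    rw [if_neg (List.cons_ne_nil _ _), mon_cons, map_mul, psiL_X]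
    split_ifs
    · rw [add_mul, cf_add, cf_X_mul_nil, cf_X_mul_nil, add_zero]
    · rw [smul_mul_assoc, cf_smul, cf_X_mul_nil, mul_zero]
    · rw [zero_mul, cf_zero]

private theorem psiL_mon (l : ℤ) (p : ℕ) (w : List ℕ) :
    cf (List.replicate p 0 ++ [1]) (psiL l (mon w)) =
      (open Classical in if Good p w then l ^ w.count 1 else 0) := by
  classical
  induction p generalizing w with
  | zero =>
    have hG : Good 0 w ↔ w = [0] := by
      constructor
      · rintro ⟨v, h1, h2, _⟩
        rw [List.length_eq_zero_iff] at h2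
        rw [h1, h2, List.nil_append]
      · rintro rfl
        exact ⟨[], rfl, rfl, fun a ha => absurd ha (List.not_mem_nil)⟩
    rw [List.replicate_zero, List.nil_append]
    cases w with
    | nil =>
      rw [mon_nil, map_one, ← mon_nil, cf_mon, if_neg (by simp), if_neg]
      rw [hG]
      simp
    | cons c w =>
      rw [mon_cons, map_mul, psiL_X]
      by_cases hc : c = 0
      · subst hc
        rw [if_pos rfl, add_mul, cf_add, cf_X_mul_cons, cf_X_mul_cons, if_neg (by norm_num),
          if_pos rfl, zero_add, psiL_nil]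
        by_cases hw : w = []
        · subst hw
          rw [if_pos rfl, if_pos (hG.2 rfl)]
          simp
        · rw [if_neg hw, if_neg]
          rw [hG]
          intro h
          exact hw (List.cons.inj h).2
      · rw [if_neg hc]
        have hn : ¬ Good 0 (c :: w) := by
          rw [hG]
          intro h
          exact hc (List.cons.inj h).1
        rw [if_neg hn]
        split_ifs
        · rw [smul_mul_assoc, cf_smul, cf_X_mul_cons, if_neg (by norm_num), mul_zero]
        · rw [zero_mul, cf_zero]
  | succ p ih =>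
    rw [List.replicate_succ, List.cons_append]
    cases w with
    | nil =>
      rw [mon_nil, map_one, ← mon_nil, cf_mon, if_neg (by simp), if_neg]
      rintro ⟨v, h1, _⟩
      simp at h1
    | cons c w =>
      have hG : Good (p + 1) (c :: w) ↔ (c = 0 ∨ c = 1) ∧ Good p w := by
        constructor
        · rintro ⟨v, h1, h2, h3⟩
          cases v with
          | nil => simp at h2
          | cons d v =>
            rw [List.cons_append] at h1
            obtain ⟨h4, h5⟩ := List.cons.inj h1
            refine ⟨?_, v, h5, by simpa using h2, fun a ha => h3 a (List.mem_cons_of_mem _ ha)⟩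
            rw [h4]
            exact h3 d List.mem_cons_self
        · rintro ⟨h0, v, h1, h2, h3⟩
          refine ⟨c :: v, by rw [h1, List.cons_append], by rw [List.length_cons, h2], ?_⟩
          intro a ha
          rcases List.mem_cons.1 ha with rfl | ha
          · exact h0
          · exact h3 a ha
      rw [mon_cons, map_mul, psiL_X]
      by_cases hc : c = 0
      · subst hc
        rw [if_pos rfl, add_mul, cf_add, cf_X_mul_cons, cf_X_mul_cons, if_pos rfl,
          if_neg (by norm_num), add_zero, ih]
        have h1 : (0 :: w).count 1 = w.count 1 := by simp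
        rw [h1]
        simp only [hG, true_or, true_and]
      · by_cases hc1 : c = 1
        · subst hc1
          rw [if_neg hc, if_pos rfl, smul_mul_assoc, cf_smul, cf_X_mul_cons, if_pos rfl, ih]
          have h1 : (1 :: w).count 1 = w.count 1 + 1 := by simp
          rw [h1, pow_succ']
          simp only [hG, or_true, true_and, mul_ite, mul_zero]
        · rw [if_neg hc, if_neg hc1, zero_mul, cf_zero, if_neg]
          rw [hG]
          rintro ⟨h1 | h1, _⟩
          · exact hc h1
          · exact hc1 h1

private theorem one_letter (v : List ℕ) (h : ∀ a ∈ v, a = 0 ∨ a = 1) (h1 : v.count 1 = 1) :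
    ∃ j < v.length, v ++ [0] = w01 j (v.length - j) := by
  induction v with
  | nil => simp at h1
  | cons a v ih =>
    have hv : ∀ b ∈ v, b = 0 ∨ b = 1 := fun b hb => h b (List.mem_cons_of_mem _ hb)
    rcases h a List.mem_cons_self with rfl | rfl
    · have h2 : v.count 1 = 1 := by simpa using h1
      obtain ⟨j, hj, h3⟩ := ih hv h2
      refine ⟨j + 1, by rw [List.length_cons]; omega, ?_⟩
      have h4 : (0 :: v).length - (j + 1) = v.length - j := by rw [List.length_cons]; omega
      rw [h4, List.cons_append, h3]
      rfl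
    · have h2 : v.count 1 = 0 := by simpa using h1
      refine ⟨0, by rw [List.length_cons]; omega, ?_⟩
      have h3 : v = List.replicate v.length 0 := by
        rw [List.eq_replicate_iff]
        refine ⟨rfl, fun b hb => ?_⟩
        rcases hv b hb with h4 | h4
        · exact h4
        · subst h4
          exact absurd hb (List.count_eq_zero.1 h2)
      have h4 : (1 :: v).length - 0 = v.length + 1 := by rw [List.length_cons]; omega
      rw [h4]
      unfold w01
      rw [List.replicate_zero, List.nil_append, List.cons_append, List.replicate_succ']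
      rw [← h3]

private theorem w01_good {p j : ℕ} (hj : j < p) : Good p (w01 j (p - j)) ∧
    (w01 j (p - j)).count 1 = 1 := by
  constructor
  · refine ⟨List.replicate j 0 ++ 1 :: List.replicate (p - j - 1) 0, ?_, ?_, ?_⟩
    · unfold w01
      rw [List.append_assoc, List.cons_append, ← List.replicate_succ']
      congr 3
      omega
    · simp
      omega
    · intro a ha
      rcases List.mem_append.1 ha with h1 | h1
      · exact Or.inl (List.eq_of_mem_replicate h1)
      · rcases List.mem_cons.1 h1 with h2 | h2
        · exact Or.inr h2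
        · exact Or.inl (List.eq_of_mem_replicate h2)
  · unfold w01
    rw [List.count_append, List.count_cons_self, List.count_replicate, List.count_replicate]
    simp

private theorem w01_inj {j k a b : ℕ} (h : w01 j a = w01 k b) : j = k := by
  induction j generalizing k with
  | zero =>
    cases k with
    | zero => rfl
    | succ k =>
      unfold w01 at h
      rw [List.replicate_zero, List.nil_append, List.replicate_succ, List.cons_append] at h
      exact absurd (List.cons.inj h).1 (by norm_num)
  | succ j ih =>
    cases k with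
    | zero =>
      unfold w01 at h
      rw [List.replicate_zero, List.nil_append, List.replicate_succ, List.cons_append] at h
      exact absurd (List.cons.inj h).1 (by norm_num)
    | succ k =>
      unfold w01 at h
      rw [List.replicate_succ, List.cons_append, List.replicate_succ, List.cons_append] at h
      rw [ih (k := k) (List.cons.inj h).2]

private def rr (p k : ℕ) : ℕ := if k = p then 1 else k

private theorem step_two {I : Submodule ℤ P} (hI : IsT I) {p : ℕ} (hp : p.Prime)
    (h : ∀ g ∈ I, (p : ℤ) ∣ cf (List.replicate p 0 ++ [1]) g) {g : P} (hg : g ∈ I) :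
    (p : ℤ) ∣ cofB p g := by
  classical
  have : Fact p.Prime := ⟨hp⟩
  have hp2 : 2 ≤ p := hp.two_le
  obtain ⟨s, hs, hgs⟩ := eq_sum_cf g
  set t := s.filter (Good p) with ht
  have hcount : ∀ w ∈ t, w.count 1 ≤ p := by
    intro w hw
    obtain ⟨v, h1, h2, _⟩ := (Finset.mem_filter.1 hw).2
    rw [h1, List.count_append]
    have h3 : List.count 1 [0] = 0 := by simp
    rw [h3, add_zero, ← h2]
    exact List.count_le_length
  -- the values
  have hval : ∀ l : ℤ, (p : ℤ) ∣ ∑ w ∈ t, cf w g * l ^ w.count 1 := by
    intro l
    have hsub : IsSubst (psiL l) := by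
      intro i
      rw [psiL_X]
      have hx : ∀ j, aug (X j) = 0 := fun j => by
        unfold aug
        rw [FreeAlgebra.lift_ι_apply]
      split_ifs
      · rw [map_add, hx, hx, add_zero]
      · rw [map_smul, hx, smul_zero]
      · rw [map_zero]
    have h1 := h _ (hI.subst _ hsub g hg)
    rw [cf_alg _ (psiL l) _ (psiL_mon l p) g s hgs] at h1
    simp only [mul_ite, mul_zero] at h1
    rw [← Finset.sum_filter] at h1
    exact h1
  -- the polynomial
  let Q : Polynomial (ZMod p) :=
    ∑ w ∈ t, Polynomial.C ((cf w g : ℤ) : ZMod p) * Polynomial.X ^ rr p (w.count 1)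
  have hQdeg : Q.degree < (p : ℕ) := by
    apply lt_of_le_of_lt (Polynomial.degree_sum_le _ _)
    rw [Finset.sup_lt_iff (by exact_mod_cast WithBot.bot_lt_coe p)]
    intro w hw
    refine lt_of_le_of_lt (Polynomial.degree_C_mul_X_pow_le _ _) ?_
    have h1 := hcount w hw
    have h2 : rr p (w.count 1) < p := by
      unfold rr
      split_ifs with h3
      · omega
      · omega
    exact_mod_cast h2
  have hQeval : ∀ x : ZMod p, Q.eval x = 0 := by
    intro x
    have h1 := hval (x.val : ℤ)
    rw [← ZMod.intCast_zmod_eq_zero_iff_dvd] at h1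
    have h2 : (((x.val : ℤ)) : ZMod p) = x := by
      rw [Int.cast_natCast, ZMod.natCast_zmod_val]
    rw [Polynomial.eval_finsetSum, ← h1]
    push_cast
    apply Finset.sum_congr rfl
    intro w _
    rw [Polynomial.eval_mul, Polynomial.eval_C, Polynomial.eval_pow, Polynomial.eval_X]
    have h3 : ((x.val : ℕ) : ZMod p) = x := ZMod.natCast_zmod_val x
    rw [h3]
    congr 1
    unfold rr
    split_ifs with h4
    · rw [h4, pow_one, ZMod.pow_card]
    · rfl
  have hQ : Q = 0 := by
    apply Polynomial.eq_zero_of_degree_lt_of_eval_finset_eq_zero (s := (Finset.univ : Finset (ZMod p)))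
    · rw [Finset.card_univ, ZMod.card]
      exact hQdeg
    · intro x _
      exact hQeval x
  have hQ1 : Q.coeff 1 = 0 := by rw [hQ, Polynomial.coeff_zero]
  have hQ1' : Q.coeff 1 = ((∑ w ∈ t.filter (fun w => rr p (w.count 1) = 1), cf w g : ℤ) : ZMod p) := by
    show (∑ w ∈ t, Polynomial.C ((cf w g : ℤ) : ZMod p) *
      Polynomial.X ^ rr p (w.count 1)).coeff 1 = _
    rw [Polynomial.finsetSum_coeff]
    push_cast
    conv_rhs => rw [Finset.sum_filter]
    apply Finset.sum_congr rfl
    intro w _
    rw [Polynomial.coeff_C_mul, Polynomial.coeff_X_pow]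
    by_cases h1 : rr p (w.count 1) = 1
    · rw [if_pos h1, if_pos h1.symm, mul_one]
    · rw [if_neg h1, if_neg (Ne.symm h1), mul_zero]
  rw [hQ1] at hQ1'
  have hdvd := (ZMod.intCast_zmod_eq_zero_iff_dvd _ p).1 hQ1'.symm
  -- identification of the words
  have hT : ∑ w ∈ t.filter (fun w => rr p (w.count 1) = 1), cf w g =
      ∑ w ∈ (Finset.range p).image (fun j => w01 j (p - j)) ∪ {List.replicate p 1 ++ [0]},
        cf w g := by
    apply Finset.sum_subset
    · intro w hw
      obtain ⟨h1, h2⟩ := Finset.mem_filter.1 hw
      obtain ⟨v, h3, h4, h5⟩ := (Finset.mem_filter.1 h1).2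
      have h6 : w.count 1 = v.count 1 := by
        rw [h3, List.count_append]
        simp
      rw [h6] at h2
      rw [Finset.mem_union]
      unfold rr at h2
      split_ifs at h2 with h7
      · right
        rw [Finset.mem_singleton, h3]
        congr 1
        rw [List.eq_replicate_iff]
        refine ⟨h4, fun b hb => ?_⟩
        rw [← h4, List.count_eq_length] at h7
        exact (h7 b hb).symm
      · left
        obtain ⟨j, hj, h8⟩ := one_letter v h5 h2
        rw [Finset.mem_image]
        refine ⟨j, Finset.mem_range.2 (by omega), ?_⟩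
        rw [h3, h8, h4]
    · intro w hw hnot
      by_contra hne
      apply hnot
      have hws : w ∈ s := by
        by_contra h1
        exact hne (hs w h1)
      rw [Finset.mem_filter, ht, Finset.mem_filter]
      rcases Finset.mem_union.1 hw with h1 | h1
      · obtain ⟨j, hj, rfl⟩ := Finset.mem_image.1 h1
        have h2 := w01_good (Finset.mem_range.1 hj)
        refine ⟨⟨hws, h2.1⟩, ?_⟩
        rw [h2.2]
        unfold rr
        split_ifs <;> omega
      · rw [Finset.mem_singleton] at h1
        subst h1
        refine ⟨⟨hws, List.replicate p 1, rfl, List.length_replicate, fun a ha =>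
          Or.inr (List.eq_of_mem_replicate ha)⟩, ?_⟩
        rw [List.count_append, List.count_replicate_self]
        unfold rr
        simp
  have hdis : Disjoint ((Finset.range p).image (fun j => w01 j (p - j)))
      ({List.replicate p 1 ++ [0]} : Finset (List ℕ)) := by
    rw [Finset.disjoint_singleton_right, Finset.mem_image]
    rintro ⟨j, hj, h1⟩
    have h2 := (w01_good (Finset.mem_range.1 hj)).2
    rw [h1, List.count_append, List.count_replicate_self] at h2
    simp at h2
    omega
  rw [hT, Finset.sum_union hdis, Finset.sum_image (fun j _ k _ hjk => w01_inj hjk),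
    Finset.sum_singleton] at hdvd
  have h1 := step_swap hI h hg
  have h2 : (p : ℤ) ∣ ∑ j ∈ Finset.range p, cf (w01 j (p - j)) g :=
    (dvd_add_left h1).1 hdvd
  unfold cofB
  rw [Finset.sum_range_succ, Nat.sub_self]
  exact dvd_add h2 (h g hg)

theorem opE {I : Submodule ℤ P} (hI : IsT I) {p : ℕ} (hp : p.Prime) {f : P} (hf : f ∈ I) (h : f ∉ OT p) :
    ∃ g ∈ I, ¬ (p : ℤ) ∣ cf (List.replicate p 0 ++ [1]) g := by
  by_contra hno
  push Not at hno
  apply h
  have h1 : I ≤ LamO p 1 0 ⊓ LamO p 0 1 := by
    intro g hg
    refine ⟨?_, ?_⟩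
    · show (p : ℤ) ∣ 1 * cf [0, 1] g + 0 * cofB p g
      rw [one_mul, zero_mul, add_zero]
      exact step_one hI hp hno hg
    · show (p : ℤ) ∣ 0 * cf [0, 1] g + 1 * cofB p g
      rw [one_mul, zero_mul, zero_add]
      exact step_two hI hp hno hg
  exact le_Lar hI h1 hf

end ADM
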