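import Pool.Agent.ADM.Defs
import Pool.Agent.ADM.LarT

/-!
# ADM-OpER

Mirror image of OpE.

PLAN.  Suppose that `p ∣ cf (1 :: replicate p 0) g` for all `g ∈ I`.
1. `p ∣ cf [1,0] g` for all `g ∈ I`, hence (exchange `X 0` and `X 1`) `p ∣ cf [0,1] g`: the substitution `X 0 ↦ X 0 ^ p` (others fixed) maps
   `mon w` to `mon` of the word in which every `0` is replaced by `p` letters `0`, and this word is `1 :: replicate p 0` iff `w = [1,0]`.
2. `p ∣ cofB p g` for all `g ∈ I`: for `λ : ℤ` let `φ_λ : X 0 ↦ X 0 + X 1, X 1 ↦ λ • X 0, X l ↦ 0 (l ≥ 2)`.  For a word `w` (in the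
   letters 0, 1; words with other letters are mapped to 0), `φ_λ (mon w)` is homogeneous of degree `w.length` and its
   coefficient at `1 :: replicate p 0` is `λ ^ k` if `w = 0 :: w'`, `w'.length = p`, `k = w'.count 1`, and 0 otherwise.  So
   `cf (1 :: replicate p 0) (φ_λ g) = ∑_{k ≤ p} S k * λ ^ k`, `S k = ∑_{w' of length p with k letters 1} cf (0 :: w') g`.
   This is `≡ 0` for all `λ`, so (a polynomial `S 0 + (S 1 + S p) λ + ∑_{2 ≤ k < p} S k λ ^ k` of degree `< p` over `ZMod p` with `p` zeros;
   `λ ^ p ≡ λ`) `S 1 + S p ≡ 0`.  `S p = cf (0 :: replicate p 1) g` is `cf (1 :: replicate p 0)` of `g` with `X 0` and `X 1` exchanged,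
   so `≡ 0`.  Hence `S 1 ≡ 0`, and `cofB p g = cf (1 :: replicate p 0) g + S 1` (`w01 j (p - j)` for `j > 0` are the words `0 :: w'` with
   one letter 1 in `w'`).
3. If `f ∉ OT p = Lar (LamO p 1 0 ⊓ LamO p 0 1)`, `f ∈ I ≤ Pp`, there are `φ, u, v` with `g = u * φ f * v ∈ I` and not both
   `p ∣ cf [0,1] g` and `p ∣ cofB p g`: contradiction.
For the coefficient computations write `g = ∑ cf w g • mon w` (`eq_sum_cf`, T3a.lean).
-/

namespace ADM

open AD ADN

private theorem oer_mon_cons (l : ℕ) (w : List ℕ) : mon (l :: w) = X l * mon w := by simp [mon]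

private theorem oer_mon_nil : mon [] = 1 := by simp [mon]

private noncomputable def oerL (W : List ℕ) : P →ₗ[ℤ] ℤ where
  toFun := cf W
  map_add' := cf_add W
  map_smul' := fun c f => by rw [cf_smul]; rfl

private theorem oer_expand (A : P →ₗ[ℤ] ℤ) (f : P) (s : Finset (List ℕ))
    (hf : f = ∑ w ∈ s, cf w f • mon w) : A f = ∑ w ∈ s, cf w f * A (mon w) := by
  conv_lhs => rw [hf]
  rw [map_sum]
  exact Finset.sum_congr rfl fun w _ => by rw [map_smul, smul_eq_mul]

private theorem oer_ext {A B : P →ₗ[ℤ] ℤ} (h : ∀ w, A (mon w) = B (mon w)) (f : P) : A f = B f := by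
  obtain ⟨s, _, hf⟩ := eq_sum_cf f
  rw [oer_expand A f s hf, oer_expand B f s hf]
  exact Finset.sum_congr rfl fun w _ => by rw [h]

private theorem oer_cons (l c : ℕ) (W : List ℕ) (f : P) :
    cf (c :: W) (X l * f) = if l = c then cf W f else 0 := by
  by_cases h : l = c
  · subst h
    rw [if_pos rfl]
    refine oer_ext (A := (oerL (l :: W)).comp (LinearMap.mulLeft ℤ (X l))) (B := oerL W)
      (fun w => ?_) f
    show cf (l :: W) (X l * mon w) = cf W (mon w)
    rw [← oer_mon_cons, cf_mon, cf_mon]
    simp
  · rw [if_neg h]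
    refine oer_ext (A := (oerL (c :: W)).comp (LinearMap.mulLeft ℤ (X l))) (B := 0)
      (fun w => ?_) f
    show cf (c :: W) (X l * mon w) = 0
    rw [← oer_mon_cons, cf_mon, if_neg]
    intro hh
    exact h (List.cons.inj hh).1

private theorem oer_nil (l : ℕ) (f : P) : cf [] (X l * f) = 0 := by
  rw [cf_nil, map_mul]
  simp [aug]

private theorem oer_one (c : ℕ) (W : List ℕ) : cf (c :: W) (1 : P) = 0 := by
  rw [← oer_mon_nil, cf_mon, if_neg]
  simp

private theorem oer_one' : cf [] (1 : P) = 1 := by
  rw [← oer_mon_nil, cf_mon, if_pos rfl]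

/-! linear substitutions -/

private noncomputable def oerS (a b : ℕ → ℤ) : P →ₐ[ℤ] P :=
  FreeAlgebra.lift ℤ (fun l => a l • X 0 + b l • X 1)

private theorem oerS_subst (a b : ℕ → ℤ) : IsSubst (oerS a b) := by
  intro i
  simp [oerS, aug]

private theorem oerS_nil (a b : ℕ → ℤ) : oerS a b (mon []) = 1 := by
  rw [oer_mon_nil, map_one]

private theorem oerS_cons (a b : ℕ → ℤ) (l : ℕ) (w : List ℕ) : oerS a b (mon (l :: w)) =
    a l • (X 0 * oerS a b (mon w)) + b l • (X 1 * oerS a b (mon w)) := by
  rw [oer_mon_cons, map_mul]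
  have h : oerS a b (X l) = a l • X 0 + b l • X 1 := by
    unfold oerS
    rw [FreeAlgebra.lift_ι_apply]
  rw [h, add_mul, smul_mul_assoc, smul_mul_assoc]

private theorem oerS_zero (a b : ℕ → ℤ) (l : ℕ) (w W : List ℕ) :
    cf (0 :: W) (oerS a b (mon (l :: w))) = a l * cf W (oerS a b (mon w)) := by
  rw [oerS_cons, cf_add, cf_smul, cf_smul, oer_cons, oer_cons]
  simp

private theorem oerS_onec (a b : ℕ → ℤ) (l : ℕ) (w W : List ℕ) :
    cf (1 :: W) (oerS a b (mon (l :: w))) = b l * cf W (oerS a b (mon w)) := by
  rw [oerS_cons, cf_add, cf_smul, cf_smul, oer_cons, oer_cons]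
  simp

private theorem oerS_nilc (a b : ℕ → ℤ) (l : ℕ) (w : List ℕ) :
    cf [] (oerS a b (mon (l :: w))) = 0 := by
  rw [oerS_cons, cf_add, cf_smul, cf_smul, oer_nil, oer_nil]
  simp

private theorem oerS_rep (a b : ℕ → ℤ) (n : ℕ) (w : List ℕ) :
    cf (List.replicate n 0) (oerS a b (mon w)) = if w.length = n then (w.map a).prod else 0 := by
  induction n generalizing w with
  | zero =>
    cases w with
    | nil => rw [oerS_nil, List.replicate_zero, oer_one']; simp
    | cons l w => rw [List.replicate_zero, oerS_nilc]; simp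
  | succ n ih =>
    cases w with
    | nil => rw [oerS_nil, List.replicate_succ, oer_one]; simp
    | cons l w =>
      rw [List.replicate_succ, oerS_zero, ih]
      simp only [List.length_cons, Nat.add_right_cancel_iff, List.map_cons, List.prod_cons]
      split_ifs <;> simp

/-! the exchange of the two letters -/

private def oerSw (l : ℕ) : ℕ := if l = 0 then 1 else if l = 1 then 0 else l

private noncomputable def oerX : P →ₐ[ℤ] P :=
  oerS (fun l => if l = 1 then 1 else 0) (fun l => if l = 0 then 1 else 0)

private theorem oerX_mon (W : List ℕ) (hW : ∀ l ∈ W, l = 0 ∨ l = 1) (w : List ℕ) :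
    cf W (oerX (mon w)) = if w = W.map oerSw then 1 else 0 := by
  induction W generalizing w with
  | nil =>
    cases w with
    | nil => unfold oerX; rw [oerS_nil, oer_one']; simp
    | cons l w => unfold oerX; rw [oerS_nilc]; simp
  | cons c W ih =>
    have hc := hW c (by simp)
    have hW' : ∀ l ∈ W, l = 0 ∨ l = 1 := fun l hl => hW l (List.mem_cons_of_mem _ hl)
    cases w with
    | nil => unfold oerX; rw [oerS_nil, oer_one]; simp
    | cons l w =>
      have ih' := ih hW' w
      unfold oerX at ih' ⊢
      rcases hc with rfl | rfl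
      · rw [oerS_zero, ih']
        by_cases hl : l = 1 <;> by_cases hw : w = W.map oerSw <;> simp [hl, hw, oerSw]
      · rw [oerS_onec, ih']
        by_cases hl : l = 0 <;> by_cases hw : w = W.map oerSw <;> simp [hl, hw, oerSw]

private theorem oerX_cf (W : List ℕ) (hW : ∀ l ∈ W, l = 0 ∨ l = 1) (f : P) :
    cf W (oerX f) = cf (W.map oerSw) f := by
  refine oer_ext (A := (oerL W).comp oerX.toLinearMap) (B := oerL (W.map oerSw)) (fun w => ?_) f
  show cf W (oerX (mon w)) = cf (W.map oerSw) (mon w)
  rw [oerX_mon W hW, cf_mon]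

/-! the substitution `X 0 ↦ X 0 ^ p` -/

private noncomputable def oerQ (p : ℕ) : P →ₐ[ℤ] P :=
  FreeAlgebra.lift ℤ (fun l => if l = 0 then X 0 ^ p else X l)

private theorem oerQ_subst {p : ℕ} (hp : p ≠ 0) : IsSubst (oerQ p) := by
  intro i
  unfold oerQ
  rw [FreeAlgebra.lift_ι_apply]
  split_ifs
  · simp [aug, hp]
  · simp [aug]

private theorem oerQ_cons0 (p : ℕ) (w : List ℕ) : oerQ p (mon (0 :: w)) = X 0 ^ p * oerQ p (mon w) := by
  rw [oer_mon_cons, map_mul]
  congr 1
  unfold oerQ
  rw [FreeAlgebra.lift_ι_apply, if_pos rfl]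

private theorem oerQ_cons (p : ℕ) {l : ℕ} (hl : l ≠ 0) (w : List ℕ) :
    oerQ p (mon (l :: w)) = X l * oerQ p (mon w) := by
  rw [oer_mon_cons, map_mul]
  congr 1
  unfold oerQ
  rw [FreeAlgebra.lift_ι_apply, if_neg hl]

private theorem oer_pow (n : ℕ) (f : P) : cf (List.replicate n 0) (X 0 ^ n * f) = cf [] f := by
  induction n with
  | zero => simp
  | succ n ih =>
    rw [List.replicate_succ, pow_succ', mul_assoc, oer_cons, if_pos rfl, ih]

private theorem oerQ_mon {p : ℕ} (hp : p ≠ 0) (w : List ℕ) :
    cf (1 :: List.replicate p 0) (oerQ p (mon w)) = if w = [1, 0] then 1 else 0 := by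
  obtain ⟨q, rfl⟩ : ∃ q, p = q + 1 := ⟨p - 1, by omega⟩
  cases w with
  | nil => rw [oer_mon_nil, map_one, oer_one]; simp
  | cons l w =>
    by_cases hl : l = 0
    · subst hl
      rw [oerQ_cons0, pow_succ', mul_assoc, oer_cons]
      simp
    · rw [oerQ_cons _ hl, oer_cons]
      by_cases hl1 : l = 1
      · subst hl1
        rw [if_pos rfl]
        cases w with
        | nil => rw [oer_mon_nil, map_one, List.replicate_succ, oer_one]; simp
        | cons m w =>
          by_cases hm : m = 0
          · subst hm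
            rw [oerQ_cons0, oer_pow]
            cases w with
            | nil => rw [oer_mon_nil, map_one, oer_one']; simp
            | cons k w =>
              by_cases hk : k = 0
              · subst hk
                rw [oerQ_cons0, pow_succ', mul_assoc, oer_nil]
                simp
              · rw [oerQ_cons _ hk, oer_nil]
                simp
          · rw [oerQ_cons _ hm, List.replicate_succ, oer_cons, if_neg hm]
            simp [hm]
      · rw [if_neg hl1]
        simp [hl1]

private theorem oerQ_cf {p : ℕ} (hp : p ≠ 0) (f : P) :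
    cf (1 :: List.replicate p 0) (oerQ p f) = cf [1, 0] f := by
  refine oer_ext (A := (oerL (1 :: List.replicate p 0)).comp (oerQ p).toLinearMap)
    (B := oerL [1, 0]) (fun w => ?_) f
  show cf (1 :: List.replicate p 0) (oerQ p (mon w)) = cf [1, 0] (mon w)
  rw [oerQ_mon hp, cf_mon]

/-! power sums -/

private theorem oer_sum {p : ℕ} [Fact p.Prime] {k : ℕ} (hk : k ≤ p) :
    ∑ x : ZMod p, x ^ (p - 2) * x ^ k = if k = 1 ∨ k = p then -1 else 0 := by
  have hp2 : 2 ≤ p := (Fact.out : p.Prime).two_le
  have hshift : ∀ (x : ZMod p) (i : ℕ), 0 < i → x ^ ((p - 1) + i) = x ^ i := by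
    intro x i hi
    by_cases hx : x = 0
    · subst hx
      rw [zero_pow (by omega), zero_pow (by omega)]
    · rw [pow_add, ZMod.pow_card_sub_one_eq_one hx, one_mul]
  have hone : ∑ x : ZMod p, x ^ (p - 1) = -1 := by
    have h1 : ∀ x : ZMod p, x ^ (p - 1) = 1 - (if x = 0 then 1 else 0) := by
      intro x
      by_cases hx : x = 0
      · subst hx
        rw [zero_pow (by omega), if_pos rfl, sub_self]
      · rw [ZMod.pow_card_sub_one_eq_one hx, if_neg hx, sub_zero]
    rw [Finset.sum_congr rfl fun x _ => h1 x, Finset.sum_sub_distrib]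
    simp
  have hlt : ∀ i, i < p - 1 → ∑ x : ZMod p, x ^ i = 0 := by
    intro i hi
    have := FiniteField.sum_pow_lt_card_sub_one (ZMod p) i (by rw [ZMod.card]; exact hi)
    exact this
  have e : ∀ x : ZMod p, x ^ (p - 2) * x ^ k = x ^ (p - 2 + k) := fun x => by rw [pow_add]
  rw [Finset.sum_congr rfl fun x _ => e x]
  rcases Nat.eq_zero_or_pos k with rfl | hk0
  · rw [if_neg (by omega), add_zero]
    exact hlt _ (by omega)
  · rcases Nat.lt_or_ge 1 k with h1 | h1
    · have e2 : p - 2 + k = (p - 1) + (k - 1) := by omega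
      rw [e2, Finset.sum_congr rfl fun x _ => hshift x (k - 1) (by omega)]
      rcases Nat.lt_or_ge k p with h2 | h2
      · rw [if_neg (by omega)]
        exact hlt _ (by omega)
      · have h3 : k = p := le_antisymm hk h2
        subst h3
        rw [if_pos (Or.inr rfl)]
        exact hone
    · have h3 : k = 1 := by omega
      subst h3
      rw [if_pos (Or.inl rfl)]
      have e2 : p - 2 + 1 = p - 1 := by omega
      rw [e2]
      exact hone

/-! words with one letter 1 -/

private def oerC (n : ℕ) (w : List ℕ) : Prop :=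
  w.length = n ∧ (∀ l ∈ w, l = 0 ∨ l = 1) ∧ w.count 1 = 1

private theorem oer_words (n : ℕ) (w : List ℕ) [Decidable (oerC n w)] :
    (∑ j ∈ Finset.range n, if w = w01 j (n - 1 - j) then (1 : ℤ) else 0) =
      if oerC n w then 1 else 0 := by
  induction n generalizing w with
  | zero =>
    rw [Finset.range_zero, Finset.sum_empty, if_neg]
    rintro ⟨h1, -, h3⟩
    have : w = [] := List.length_eq_zero_iff.mp h1
    subst this
    simp at h3
  | succ m ih =>
    cases w with
    | nil =>
      rw [if_neg (by rintro ⟨h1, -, -⟩; simp at h1)]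
      refine Finset.sum_eq_zero fun j _ => ?_
      rw [if_neg]
      intro h
      have := congrArg List.length h
      simp [w01] at this
    | cons l w =>
      classical
      rw [Finset.sum_range_succ']
      have e1 : ∀ j ∈ Finset.range m, (if l :: w = w01 (j + 1) (m + 1 - 1 - (j + 1)) then (1 : ℤ) else 0) =
          if l = 0 then (if w = w01 j (m - 1 - j) then 1 else 0) else 0 := by
        intro j _
        have h1 : w01 (j + 1) (m + 1 - 1 - (j + 1)) = 0 :: w01 j (m - 1 - j) := by
          have h2 : m + 1 - 1 - (j + 1) = m - 1 - j := by omega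
          rw [h2]
          rfl
        rw [h1]
        by_cases hl : l = 0
        · subst hl; simp
        · rw [if_neg hl, if_neg]
          intro h
          exact hl (List.cons.inj h).1
      rw [Finset.sum_congr rfl e1]
      have h0 : w01 0 (m + 1 - 1 - 0) = 1 :: List.replicate m 0 := rfl
      rw [h0]
      by_cases hl : l = 0
      · subst hl
        simp only [if_true]
        rw [ih w, if_neg (c := 0 :: w = 1 :: List.replicate m 0) (by simp), add_zero]
        have h1 : oerC (m + 1) (0 :: w) ↔ oerC m w := by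
          unfold oerC
          simp
        by_cases hc : oerC m w
        · rw [if_pos hc, if_pos (h1.mpr hc)]
        · rw [if_neg hc, if_neg (fun h => hc (h1.mp h))]
      · simp only [if_neg hl, Finset.sum_const_zero, zero_add]
        by_cases hl1 : l = 1
        · subst hl1
          have h1 : oerC (m + 1) (1 :: w) ↔ w = List.replicate m 0 := by
            unfold oerC
            rw [List.eq_replicate_iff, List.count_cons_self, List.length_cons]
            constructor
            · rintro ⟨a1, a2, a3⟩
              refine ⟨by omega, fun b hb => ?_⟩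
              have a4 : List.count 1 w = 0 := by omega
              rcases a2 b (List.mem_cons_of_mem _ hb) with h | h
              · exact h
              · subst h
                exact absurd hb (List.count_eq_zero.mp a4)
            · rintro ⟨a1, a2⟩
              refine ⟨by omega, ?_, ?_⟩
              · intro b hb
                rcases List.mem_cons.mp hb with h | h
                · exact Or.inr h
                · exact Or.inl (a2 b h)
              · have : List.count 1 w = 0 := by
                  rw [List.count_eq_zero]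
                  intro h
                  have := a2 1 h
                  omega
                omega
          by_cases hw : w = List.replicate m 0
          · rw [if_pos (h1.mpr hw), if_pos (by rw [hw])]
          · rw [if_neg (fun h => hw (h1.mp h)), if_neg]
            intro h
            exact hw (List.cons.inj h).2
        · rw [if_neg, if_neg]
          · rintro ⟨-, h2, -⟩
            rcases h2 l (by simp) with h | h
            · exact hl h
            · exact hl1 h
          · intro h
            exact hl1 (List.cons.inj h).1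

/-- values of the letters -/
private def oerA (z : ℤ) (l : ℕ) : ℤ := if l = 0 then 1 else if l = 1 then z else 0

private theorem oer_prod_pos {p : ℕ} [Fact p.Prime] (x : ZMod p) (w : List ℕ)
    (hw : ∀ l ∈ w, l = 0 ∨ l = 1) :
    (((w.map (oerA ((x.val : ℕ) : ℤ))).prod : ℤ) : ZMod p) = x ^ (w.count 1) := by
  induction w with
  | nil => simp
  | cons l w ih =>
    have ih' := ih fun m hm => hw m (List.mem_cons_of_mem _ hm)
    rw [List.map_cons, List.prod_cons, Int.cast_mul, ih']
    rcases hw l (by simp) with h0 | h1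
    · subst h0
      simp [oerA]
    · subst h1
      rw [List.count_cons_self, pow_succ]
      have : ((oerA ((x.val : ℕ) : ℤ) 1 : ℤ) : ZMod p) = x := by
        show ((((x.val : ℕ) : ℤ)) : ZMod p) = x
        rw [Int.cast_natCast, ZMod.natCast_zmod_val]
      rw [this, mul_comm]

private theorem oer_prod_neg {p : ℕ} [Fact p.Prime] (x : ZMod p) (w : List ℕ)
    (hw : ¬ ∀ l ∈ w, l = 0 ∨ l = 1) :
    (((w.map (oerA ((x.val : ℕ) : ℤ))).prod : ℤ) : ZMod p) = 0 := by
  induction w with
  | nil => exact absurd (by simp) hw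
  | cons l w ih =>
    rw [List.map_cons, List.prod_cons, Int.cast_mul]
    by_cases h2 : ∀ l ∈ w, l = 0 ∨ l = 1
    · have h3 : ¬ (l = 0 ∨ l = 1) := by
        intro h
        apply hw
        intro m hm
        rcases List.mem_cons.mp hm with h4 | h4
        · rw [h4]; exact h
        · exact h2 m h4
      push Not at h3
      simp [oerA, h3.1, h3.2]
    · rw [ih h2, mul_zero]

private theorem oer_val {p : ℕ} [Fact p.Prime] (w : List ℕ) :
    ∑ x : ZMod p, x ^ (p - 2) * (((cf (1 :: List.replicate p 0)
      (oerS (oerA ((x.val : ℕ) : ℤ)) (fun l => if l = 0 then 1 else 0) (mon w)) : ℤ)) : ZMod p) =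
    -(((∑ j ∈ Finset.range p, if w = 0 :: w01 j (p - 1 - j) then (1 : ℤ) else 0) +
      (if w = 0 :: List.replicate p 1 then 1 else 0) : ℤ) : ZMod p) := by
  classical
  have hp2 : 2 ≤ p := (Fact.out : p.Prime).two_le
  cases w with
  | nil =>
    simp only [oerS_nil, oer_one]
    simp
  | cons l w =>
    by_cases hl : l = 0
    · subst hl
      have e1 : ∀ x : ZMod p, x ^ (p - 2) * (((cf (1 :: List.replicate p 0)
          (oerS (oerA ((x.val : ℕ) : ℤ)) (fun l => if l = 0 then 1 else 0) (mon (0 :: w))) : ℤ)) : ZMod p) =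
          if w.length = p ∧ ∀ l ∈ w, l = 0 ∨ l = 1 then x ^ (p - 2) * x ^ (w.count 1) else 0 := by
        intro x
        rw [oerS_onec, oerS_rep, if_pos rfl, one_mul]
        by_cases h1 : w.length = p
        · rw [if_pos h1]
          by_cases h2 : ∀ l ∈ w, l = 0 ∨ l = 1
          · rw [oer_prod_pos x w h2, if_pos ⟨h1, h2⟩]
          · rw [oer_prod_neg x w h2, if_neg (fun h => h2 h.2), mul_zero]
        · rw [if_neg h1, if_neg (fun h => h1 h.1), Int.cast_zero, mul_zero]
      rw [Finset.sum_congr rfl fun x _ => e1 x]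
      have e2 : (∑ j ∈ Finset.range p, if (0 : ℕ) :: w = 0 :: w01 j (p - 1 - j) then (1 : ℤ) else 0) =
          if oerC p w then 1 else 0 := by
        rw [← oer_words p w]
        refine Finset.sum_congr rfl fun j _ => ?_
        simp
      rw [e2]
      have e3 : ((0 : ℕ) :: w = 0 :: List.replicate p 1) ↔
          (w.length = p ∧ (∀ l ∈ w, l = 0 ∨ l = 1) ∧ w.count 1 = p) := by
        rw [List.cons_inj_right, List.eq_replicate_iff]
        constructor
        · rintro ⟨a1, a2⟩
          refine ⟨a1, fun b hb => Or.inr (a2 b hb), ?_⟩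
          rw [← a1]
          exact List.count_eq_length.mpr fun b hb => (a2 b hb).symm
        · rintro ⟨a1, -, a3⟩
          refine ⟨a1, fun b hb => ?_⟩
          rw [← a1] at a3
          exact (List.count_eq_length.mp a3 b hb).symm
      by_cases h1 : w.length = p ∧ ∀ l ∈ w, l = 0 ∨ l = 1
      · have hcl : w.count 1 ≤ p := by
          rw [← h1.1]
          exact List.count_le_length
        simp only [if_pos h1]
        rw [oer_sum hcl]
        by_cases h2 : w.count 1 = 1
        · have hC : oerC p w := ⟨h1.1, h1.2, h2⟩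
          rw [if_pos (Or.inl h2), if_pos hC, if_neg]
          · simp
          · intro h
            have := (e3.mp h).2.2
            omega
        · have h3 : ¬ oerC p w := fun h => h2 h.2.2
          rw [if_neg h3]
          by_cases h4 : w.count 1 = p
          · rw [if_pos (Or.inr h4), if_pos (e3.mpr ⟨h1.1, h1.2, h4⟩)]
            simp
          · rw [if_neg (by tauto), if_neg (fun h => h4 (e3.mp h).2.2)]
            simp
      · simp only [if_neg h1]
        rw [if_neg (fun h : oerC p w => h1 ⟨h.1, h.2.1⟩),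
          if_neg (fun h => h1 ⟨(e3.mp h).1, (e3.mp h).2.1⟩)]
        simp
    · have e1 : ∀ x : ZMod p, x ^ (p - 2) * (((cf (1 :: List.replicate p 0)
          (oerS (oerA ((x.val : ℕ) : ℤ)) (fun l => if l = 0 then 1 else 0) (mon (l :: w))) : ℤ)) : ZMod p) = 0 := by
        intro x
        rw [oerS_onec, if_neg hl]
        simp
      rw [Finset.sum_congr rfl fun x _ => e1 x]
      have e2 : ∀ W : List ℕ, ¬ (l :: w = 0 :: W) := fun W h => hl (List.cons.inj h).1
      simp [hl]

theorem opER {I : Submodule ℤ P} (hI : IsT I) {p : ℕ} (hp : p.Prime) {f : P} (hf : f ∈ I) (h : f ∉ OT p) :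
    ∃ g ∈ I, ¬ (p : ℤ) ∣ cf (1 :: List.replicate p 0) g := by
  classical
  by_contra hcon
  push Not at hcon
  apply h
  have : Fact p.Prime := ⟨hp⟩
  have hp2 : 2 ≤ p := hp.two_le
  have key : I ≤ LamO p 1 0 ⊓ LamO p 0 1 := by
    intro g hg
    have hx : oerX g ∈ I := hI.subst _ (oerS_subst _ _) g hg
    have h01 : (p : ℤ) ∣ cf [0, 1] g := by
      have h1 := hcon _ (hI.subst _ (oerQ_subst (by omega : p ≠ 0)) _ hx)
      rw [oerQ_cf (by omega), oerX_cf _ (by simp)] at h1
      exact h1
    have hSp : (p : ℤ) ∣ cf (0 :: List.replicate p 1) g := by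
      have h1 := hcon _ hx
      rw [oerX_cf _ (by
        intro l hl
        rcases List.mem_cons.mp hl with h | h
        · exact Or.inr h
        · exact Or.inl (List.mem_replicate.mp h).2)] at h1
      simpa [oerSw] using h1
    have hA : (p : ℤ) ∣ cf (1 :: List.replicate p 0) g := hcon g hg
    obtain ⟨s, -, hs⟩ := eq_sum_cf g
    have hcfW : ∀ W : List ℕ, cf W g = ∑ w ∈ s, cf w g * (if w = W then 1 else 0) := by
      intro W
      have := oer_expand (oerL W) g s hs
      refine this.trans (Finset.sum_congr rfl fun w _ => ?_)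
      show cf w g * cf W (mon w) = _
      rw [cf_mon]
    have hsum : ∑ x : ZMod p, x ^ (p - 2) * (((cf (1 :: List.replicate p 0)
        (oerS (oerA ((x.val : ℕ) : ℤ)) (fun l => if l = 0 then 1 else 0) g) : ℤ)) : ZMod p) = 0 := by
      refine Finset.sum_eq_zero fun x _ => ?_
      have h1 := hcon _ (hI.subst _ (oerS_subst (oerA ((x.val : ℕ) : ℤ)) (fun l => if l = 0 then 1 else 0)) g hg)
      rw [(ZMod.intCast_zmod_eq_zero_iff_dvd _ p).mpr h1, mul_zero]
    have hexp : ∀ x : ZMod p, (((cf (1 :: List.replicate p 0)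
        (oerS (oerA ((x.val : ℕ) : ℤ)) (fun l => if l = 0 then 1 else 0) g) : ℤ)) : ZMod p) =
        ∑ w ∈ s, ((cf w g : ℤ) : ZMod p) * (((cf (1 :: List.replicate p 0)
        (oerS (oerA ((x.val : ℕ) : ℤ)) (fun l => if l = 0 then 1 else 0) (mon w)) : ℤ)) : ZMod p) := by
      intro x
      have := oer_expand ((oerL (1 :: List.replicate p 0)).comp
        (oerS (oerA ((x.val : ℕ) : ℤ)) (fun l => if l = 0 then 1 else 0)).toLinearMap) g s hs
      have h2 : cf (1 :: List.replicate p 0)
          (oerS (oerA ((x.val : ℕ) : ℤ)) (fun l => if l = 0 then 1 else 0) g) =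
          ∑ w ∈ s, cf w g * cf (1 :: List.replicate p 0)
          (oerS (oerA ((x.val : ℕ) : ℤ)) (fun l => if l = 0 then 1 else 0) (mon w)) := this
      rw [h2, Int.cast_sum]
      exact Finset.sum_congr rfl fun w _ => by rw [Int.cast_mul]
    have hS : (((∑ j ∈ Finset.range p, cf (0 :: w01 j (p - 1 - j)) g) +
        cf (0 :: List.replicate p 1) g : ℤ) : ZMod p) = 0 := by
      have h1 : ((∑ j ∈ Finset.range p, cf (0 :: w01 j (p - 1 - j)) g) +
          cf (0 :: List.replicate p 1) g : ℤ) = ∑ w ∈ s, cf w g *
          ((∑ j ∈ Finset.range p, if w = 0 :: w01 j (p - 1 - j) then (1 : ℤ) else 0) +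
          (if w = 0 :: List.replicate p 1 then 1 else 0)) := by
        simp only [mul_add, Finset.sum_add_distrib]
        congr 1
        · simp only [Finset.mul_sum]
          rw [Finset.sum_comm]
          exact Finset.sum_congr rfl fun j _ => hcfW _
        · exact hcfW _
      rw [h1, Int.cast_sum]
      have h2 : ∀ w ∈ s, ((cf w g * ((∑ j ∈ Finset.range p, if w = 0 :: w01 j (p - 1 - j) then (1 : ℤ) else 0) +
          (if w = 0 :: List.replicate p 1 then 1 else 0)) : ℤ) : ZMod p) =
          -(∑ x : ZMod p, x ^ (p - 2) * (((cf w g : ℤ) : ZMod p) * (((cf (1 :: List.replicate p 0)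
            (oerS (oerA ((x.val : ℕ) : ℤ)) (fun l => if l = 0 then 1 else 0) (mon w)) : ℤ)) : ZMod p))) := by
        intro w _
        have h3 := oer_val (p := p) w
        rw [Int.cast_mul]
        have h4 : ∑ x : ZMod p, x ^ (p - 2) * (((cf w g : ℤ) : ZMod p) * (((cf (1 :: List.replicate p 0)
            (oerS (oerA ((x.val : ℕ) : ℤ)) (fun l => if l = 0 then 1 else 0) (mon w)) : ℤ)) : ZMod p)) =
            ((cf w g : ℤ) : ZMod p) * ∑ x : ZMod p, x ^ (p - 2) * (((cf (1 :: List.replicate p 0)
            (oerS (oerA ((x.val : ℕ) : ℤ)) (fun l => if l = 0 then 1 else 0) (mon w)) : ℤ)) : ZMod p) := by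
          rw [Finset.mul_sum]
          exact Finset.sum_congr rfl fun x _ => by ring
        rw [h4, h3]
        ring
      rw [Finset.sum_congr rfl h2, Finset.sum_neg_distrib, Finset.sum_comm]
      have h5 : ∑ x : ZMod p, ∑ w ∈ s, x ^ (p - 2) * (((cf w g : ℤ) : ZMod p) * (((cf (1 :: List.replicate p 0)
            (oerS (oerA ((x.val : ℕ) : ℤ)) (fun l => if l = 0 then 1 else 0) (mon w)) : ℤ)) : ZMod p)) = 0 := by
        rw [← hsum]
        refine Finset.sum_congr rfl fun x _ => ?_
        rw [hexp x, Finset.mul_sum]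
      rw [h5, neg_zero]
    have hS' : (p : ℤ) ∣ ∑ j ∈ Finset.range p, cf (0 :: w01 j (p - 1 - j)) g := by
      have h1 := (ZMod.intCast_zmod_eq_zero_iff_dvd _ p).mp hS
      exact (dvd_add_left hSp).mp h1
    have hB : (p : ℤ) ∣ cofB p g := by
      unfold cofB
      rw [Finset.sum_range_succ']
      refine dvd_add ?_ hA
      have e : ∀ j ∈ Finset.range p, cf (w01 (j + 1) (p - (j + 1))) g = cf (0 :: w01 j (p - 1 - j)) g := by
        intro j _
        have h2 : p - (j + 1) = p - 1 - j := by omega
        rw [h2]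
        rfl
      rw [Finset.sum_congr rfl e]
      exact hS'
    refine ⟨?_, ?_⟩
    · show (p : ℤ) ∣ 1 * cf [0, 1] g + 0 * cofB p g
      rw [one_mul, zero_mul, add_zero]
      exact h01
    · show (p : ℤ) ∣ 0 * cf [0, 1] g + 1 * cofB p g
      rw [one_mul, zero_mul, zero_add]
      exact hB
  exact le_Lar hI key hf

end ADM
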