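import Pool.Agent.ADM.Defs
import Pool.Agent.ADN.FgeT

/-!
# ADM-CfMul

Coefficients of products.
-/

namespace ADM

open AD ADN

private theorem cfm_append (u v : List ℕ) : mon (u ++ v) = mon u * mon v := by
  unfold mon
  rw [List.map_append, List.prod_append]

private theorem cfm_nil : mon [] = (1 : P) := by simp [mon]

private theorem cfm_zero (w : List ℕ) : cf w (0 : P) = 0 := by
  have h := cf_smul w 0 0
  rwa [zero_smul, zero_mul] at h

/-- linear induction over the words -/
private theorem cfm_ind {p : P → Prop} (hmon : ∀ w, p (mon w)) (h0 : p 0)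
    (hadd : ∀ f g, p f → p g → p (f + g)) (hsmul : ∀ (c : ℤ) f, p f → p (c • f)) (f : P) : p f := by
  classical
  obtain ⟨s, _, hs⟩ := eq_sum_cf f
  rw [hs]
  have key : ∀ t : Finset (List ℕ), p (∑ w ∈ t, cf w f • mon w) := by
    intro t
    induction t using Finset.induction_on with
    | empty => simpa using h0
    | insert a t ha ih =>
      rw [Finset.sum_insert ha]
      exact hadd _ _ (hsmul _ _ (hmon a)) ih
  exact key s

private theorem cfm_base (w u v : List ℕ) : cf w (mon u * mon v) =
    ∑ i ∈ Finset.range (w.length + 1), cf (w.take i) (mon u) * cf (w.drop i) (mon v) := by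
  rw [← cfm_append, cf_mon]
  by_cases h : u ++ v = w
  · subst h
    rw [if_pos rfl, Finset.sum_eq_single u.length]
    · rw [List.take_left', List.drop_left', cf_mon, cf_mon, if_pos rfl, if_pos rfl, mul_one]
      · rfl
      · rfl
    · intro i hi hne
      rw [cf_mon, if_neg, zero_mul]
      intro hc
      apply hne
      have hl := congrArg List.length hc
      rw [List.length_take] at hl
      rw [Finset.mem_range] at hi
      omega
    · intro hc
      exfalso
      apply hc
      rw [Finset.mem_range, List.length_append]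
      omega
  · rw [if_neg h]
    symm
    refine Finset.sum_eq_zero fun i _ => ?_
    rw [cf_mon, cf_mon]
    by_cases h1 : u = w.take i
    · by_cases h2 : v = w.drop i
      · exfalso
        apply h
        rw [h1, h2, List.take_append_drop]
      · rw [if_neg h2, mul_zero]
    · rw [if_neg h1, zero_mul]

theorem cf_mul (w : List ℕ) (f g : P) :
    cf w (f * g) = ∑ i ∈ Finset.range (w.length + 1), cf (w.take i) f * cf (w.drop i) g := by
  refine cfm_ind (p := fun f => cf w (f * g) =
    ∑ i ∈ Finset.range (w.length + 1), cf (w.take i) f * cf (w.drop i) g) ?_ ?_ ?_ ?_ f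
  · intro u
    refine cfm_ind (p := fun g => cf w (mon u * g) =
      ∑ i ∈ Finset.range (w.length + 1), cf (w.take i) (mon u) * cf (w.drop i) g) ?_ ?_ ?_ ?_ g
    · exact cfm_base w u
    · simp only [mul_zero, cfm_zero, Finset.sum_const_zero]
    · intro g h hg hh
      simp only [mul_add, cf_add, Finset.sum_add_distrib] at hg hh ⊢
      rw [hg, hh]
    · intro c g hg
      simp only [mul_smul_comm, cf_smul] at hg ⊢
      rw [hg, Finset.mul_sum]
      exact Finset.sum_congr rfl fun i _ => by ring
  · simp only [zero_mul, cfm_zero, Finset.sum_const_zero]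
  · intro f h hf hh
    simp only [add_mul, cf_add, Finset.sum_add_distrib] at hf hh ⊢
    rw [hf, hh]
  · intro c f hf
    simp only [smul_mul_assoc, cf_smul] at hf ⊢
    rw [hf, Finset.mul_sum]
    exact Finset.sum_congr rfl fun i _ => by ring

theorem cf_one (w : List ℕ) : cf w (1 : P) = if w = [] then 1 else 0 := by
  rw [← cfm_nil, cf_mon]
  by_cases h : w = []
  · rw [if_pos h, if_pos h.symm]
  · rw [if_neg h, if_neg (Ne.symm h)]

theorem cf_Fge {n : ℕ} {f : P} (hf : f ∈ Fge n) {w : List ℕ} (hw : w.length < n) : cf w f = 0 := by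
  unfold Fge at hf
  induction hf using Submodule.span_induction with
  | mem x hx =>
    obtain ⟨u, hu, rfl⟩ := hx
    rw [cf_mon, if_neg]
    rintro rfl
    omega
  | zero => exact cfm_zero w
  | add x y _ _ hx hy => rw [cf_add, hx, hy, add_zero]
  | smul a x _ hx => rw [cf_smul, hx, mul_zero]

theorem Fge_subst {n : ℕ} (hn : 1 ≤ n) {f : P} (hf : f ∈ Fge n) {φ : P →ₐ[ℤ] P} (hφ : IsSubst φ) (u v : P) :
    u * φ f * v ∈ Fge n := by
  have h := isT_Fge n hn
  exact h.mul_right _ (h.mul_left _ (h.subst φ hφ f hf) u) v

/-- `f` has only words of length at least `w.length` -/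
theorem cf_sandwich {f : P} {w : List ℕ} (hf : f ∈ Fge w.length) (u v : P) :
    cf w (u * f * v) = aug u * cf w f * aug v := by
  have h1 : ∀ w' : List ℕ, w'.length < w.length → cf w' (u * f) = 0 := by
    intro w' hw'
    rw [cf_mul]
    refine Finset.sum_eq_zero fun i _ => ?_
    rw [cf_Fge hf (w := w'.drop i) (by rw [List.length_drop]; omega), mul_zero]
  have h2 : cf w (u * f) = aug u * cf w f := by
    rw [cf_mul, Finset.sum_eq_single 0]
    · rw [List.take_zero, List.drop_zero, cf_nil]
    · intro i hi hne
      rw [Finset.mem_range] at hi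
      rw [cf_Fge hf (w := w.drop i) (by rw [List.length_drop]; omega), mul_zero]
    · intro hc
      exfalso
      exact hc (Finset.mem_range.2 (Nat.succ_pos _))
  rw [cf_mul, Finset.sum_eq_single w.length]
  · rw [List.take_length, List.drop_length, cf_nil, h2]
  · intro i hi hne
    rw [Finset.mem_range] at hi
    rw [h1 (w.take i) (by rw [List.length_take]; omega), zero_mul]
  · intro hc
    exfalso
    exact hc (Finset.mem_range.2 (Nat.lt_succ_self _))

private theorem cfm_Pp {f : P} (hf : f ∈ Pp) : cf [] f = 0 := by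
  rw [cf_nil]
  exact (trans_aug_Pp f).1 hf

/-- product of two polynomials without constant term -/
theorem cf_two {f g : P} (hf : f ∈ Pp) (hg : g ∈ Pp) (a b : ℕ) :
    cf [a, b] (f * g) = cf [a] f * cf [b] g := by
  rw [cf_mul]
  simp [Finset.sum_range_succ, cfm_Pp hf, cfm_Pp hg]

/-- product of three polynomials without constant term -/
theorem cf_three {f g h : P} (hf : f ∈ Pp) (hg : g ∈ Pp) (hh : h ∈ Pp) (a b c : ℕ) :
    cf [a, b, c] (f * g * h) = cf [a] f * cf [b] g * cf [c] h := by
  have h1 : cf [a] (f * g) = 0 := by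
    rw [cf_mul]
    simp [Finset.sum_range_succ, cfm_Pp hf, cfm_Pp hg]
  have h0 : cf [] (f * g) = 0 := by
    rw [cf_mul]
    simp [cfm_Pp hf]
  rw [cf_mul]
  simp [Finset.sum_range_succ, cfm_Pp hh, h0, h1, cf_two hf hg]

end ADM
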