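import Pool.Agent.ADM.Defs
import Pool.Agent.ADM.LarT
import Pool.Agent.ADM.CfMul

/-!
# ADM-OpCom

`cofB` is a coefficient of the commutative image.

PLAN.  `com : P →ₐ[ℤ] MvPolynomial ℕ ℤ` (AD/Defs.lean) is the commutative image.
* cofB_com: both sides are additive and commute with integer multiples, so by `eq_sum_cf` (T3a.lean) it is enough to treat
  `f = mon w`: `com (mon w) = monomial (counts of the letters of w) 1`; `cofB p (mon w)` is the number of `j ≤ p` with
  `w = w01 j (p - j)` (the words `w01 j (p - j)` are different for different `j`), i.e. 1 if `w` contains exactly `p` letters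
  0, exactly one letter 1 and no other letters, and 0 otherwise.
* cofB_sandwich: all words `w01 j (p - j)` have length `p + 1`: `cf_sandwich` for every summand of `cofB`.
* com_mem: `com (u * φ (X 0 * X 1 - X 1 * X 0) * v) = 0` by commutativity, so `cofB = 0` by cofB_com.
* deg_mem: `X 0 ^ p * X 1 - X 0 * X 1 ^ p ∈ Fge (p + 1) ≤ Fge 3` (`X 0 ^ p * X 1 = mon (replicate p 0 ++ [1])`, `Fge_anti`), so
  `u * φ f * v ∈ Fge 3` (`Fge_subst`), and its coefficient at `[0, 1]` is 0 (`cf_Fge`).
-/

namespace ADM

open AD ADN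

private noncomputable def ocCnt (w : List ℕ) : ℕ →₀ ℕ := (w.map fun i => Finsupp.single i 1).sum

private theorem oc_cnt_apply (w : List ℕ) (a : ℕ) : ocCnt w a = w.count a := by
  induction w with
  | nil => simp [ocCnt]
  | cons b w ih =>
    have h : ocCnt (b :: w) = Finsupp.single b 1 + ocCnt w := by simp [ocCnt]
    rw [h, Finsupp.add_apply, ih, List.count_cons, Finsupp.single_apply, add_comm]
    simp

private theorem oc_com_mon (w : List ℕ) : com (mon w) = MvPolynomial.monomial (ocCnt w) 1 := by
  induction w with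
  | nil =>
    have h : mon [] = 1 := by simp [mon]
    have h' : ocCnt [] = 0 := by simp [ocCnt]
    rw [h, map_one, h']
    rfl
  | cons b w ih =>
    have h : mon (b :: w) = X b * mon w := by simp [mon]
    have h' : ocCnt (b :: w) = Finsupp.single b 1 + ocCnt w := by simp [ocCnt]
    have h2 : com (X b) = MvPolynomial.monomial (Finsupp.single b 1) 1 := by
      unfold com
      rw [FreeAlgebra.lift_ι_apply]
      rfl
    rw [h, map_mul, ih, h2, h', MvPolynomial.monomial_mul, one_mul]

private theorem oc_count0 (j k : ℕ) : (w01 j k).count 0 = j + k := by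
  simp [w01, List.count_append]

private theorem oc_count (j k a : ℕ) (ha : a ≠ 0) : (w01 j k).count a = if a = 1 then 1 else 0 := by
  have h0 : ∀ n, (List.replicate n 0).count a = 0 := fun n => by
    rw [List.count_replicate]
    simp [Ne.symm ha]
  unfold w01
  rw [List.count_append, List.count_cons, h0, h0]
  by_cases h : a = 1
  · simp [h]
  · have h1 : ¬ (1 = a) := fun h' => h h'.symm
    simp [h, h1]

private theorem oc_cnt_w01 {p j : ℕ} (hj : j ≤ p) :
    ocCnt (w01 j (p - j)) = Finsupp.single 0 p + Finsupp.single 1 1 := by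
  ext a
  rw [oc_cnt_apply, Finsupp.add_apply, Finsupp.single_apply, Finsupp.single_apply]
  by_cases ha : a = 0
  · rw [ha, oc_count0]
    simp
    omega
  · rw [oc_count j (p - j) a ha]
    have h1 : ¬ (0 = a) := fun h' => ha h'.symm
    rw [if_neg h1, zero_add]
    simp only [eq_comm]

private theorem oc_repl {s : List ℕ} (h1 : s.count 1 = 0) (h2 : ∀ a, 2 ≤ a → s.count a = 0) :
    s = List.replicate s.length 0 := by
  rw [List.eq_replicate_iff]
  refine ⟨rfl, fun a ha => ?_⟩
  by_contra h
  have h3 : s.count a = 0 := by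
    rcases Nat.lt_or_ge a 2 with h4 | h4
    · have : a = 1 := by omega
      rw [this]
      exact h1
    · exact h2 a h4
  exact (List.count_eq_zero.1 h3) ha

private theorem oc_ex {p : ℕ} {w : List ℕ} (h : ocCnt w = Finsupp.single 0 p + Finsupp.single 1 1) :
    ∃ j, j ≤ p ∧ w = w01 j (p - j) := by
  have hc : ∀ a, w.count a = (Finsupp.single 0 p + Finsupp.single 1 1 : ℕ →₀ ℕ) a := fun a => by
    rw [← h, oc_cnt_apply]
  have c0 : w.count 0 = p := by
    rw [hc, Finsupp.add_apply]
    simp
  have c1 : w.count 1 = 1 := by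
    rw [hc, Finsupp.add_apply]
    simp
  have c2 : ∀ a, 2 ≤ a → w.count a = 0 := fun a ha => by
    rw [hc, Finsupp.add_apply, Finsupp.single_apply, Finsupp.single_apply, if_neg (by omega),
      if_neg (by omega), add_zero]
  have hm : 1 ∈ w := List.count_pos_iff.1 (by omega)
  obtain ⟨s, t, hst⟩ := List.append_of_mem hm
  have e1 : s.count 1 + (t.count 1 + 1) = 1 := by
    have h3 := c1
    rw [hst, List.count_append, List.count_cons] at h3
    simpa using h3
  have e2 : ∀ a, 2 ≤ a → s.count a = 0 ∧ t.count a = 0 := fun a ha => by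
    have := c2 a ha
    rw [hst, List.count_append, List.count_cons] at this
    omega
  have hs := oc_repl (s := s) (by omega) fun a ha => (e2 a ha).1
  have ht := oc_repl (s := t) (by omega) fun a ha => (e2 a ha).2
  have hw : w = w01 s.length t.length := by
    rw [hst]
    unfold w01
    rw [← hs, ← ht]
  have hp : s.length + t.length = p := by
    rw [← c0, hw, oc_count0]
  refine ⟨s.length, by omega, ?_⟩
  have e3 : p - s.length = t.length := by omega
  rw [e3]
  exact hw

private theorem oc_inj {j k j' k' : ℕ} (h : w01 j k = w01 j' k') : j = j' := by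
  have hi : ∀ j k, (w01 j k).idxOf 1 = j := fun j k => by
    have hn : (1 : ℕ) ∉ List.replicate j 0 := fun hm => by
      have := (List.mem_replicate.1 hm).2
      omega
    unfold w01
    rw [List.idxOf_append_of_notMem hn]
    simp
  rw [← hi j k, h, hi]

private theorem oc_mon (p : ℕ) (w : List ℕ) :
    cofB p (mon w) = MvPolynomial.coeff (Finsupp.single 0 p + Finsupp.single 1 1) (com (mon w)) := by
  rw [oc_com_mon, MvPolynomial.coeff_monomial]
  unfold cofB
  simp only [cf_mon]
  by_cases h : ocCnt w = Finsupp.single 0 p + Finsupp.single 1 1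
  · rw [if_pos h]
    obtain ⟨j, hj, hw⟩ := oc_ex h
    rw [Finset.sum_eq_single j]
    · rw [if_pos hw]
    · intro i _ hij
      rw [if_neg]
      intro h'
      rw [hw] at h'
      exact hij (oc_inj h').symm
    · intro h'
      exact absurd (Finset.mem_range.2 (Nat.lt_succ_of_le hj)) h'
  · rw [if_neg h]
    refine Finset.sum_eq_zero fun j hj => ?_
    rw [if_neg]
    intro h'
    apply h
    rw [h']
    exact oc_cnt_w01 (Nat.lt_succ_iff.1 (Finset.mem_range.1 hj))

private theorem oc_sum (p : ℕ) (s : Finset (List ℕ)) (c : List ℕ → ℤ) :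
    cofB p (∑ w ∈ s, c w • mon w) = ∑ w ∈ s, c w * cofB p (mon w) := by
  classical
  induction s using Finset.induction_on with
  | empty =>
    rw [Finset.sum_empty, Finset.sum_empty]
    have h := cofB_smul p 0 (0 : P)
    rwa [zero_smul, zero_mul] at h
  | insert a s ha ih => rw [Finset.sum_insert ha, Finset.sum_insert ha, cofB_add, cofB_smul, ih]

theorem cofB_com (p : ℕ) (f : P) :
    cofB p f = MvPolynomial.coeff (Finsupp.single 0 p + Finsupp.single 1 1) (com f) := by
  obtain ⟨s, _, hf⟩ := eq_sum_cf f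
  rw [hf, oc_sum, map_sum, MvPolynomial.coeff_sum]
  refine Finset.sum_congr rfl fun w _ => ?_
  rw [map_smul, MvPolynomial.coeff_smul, oc_mon, smul_eq_mul]

theorem cofB_sandwich {p : ℕ} {f : P} (hf : f ∈ Fge (p + 1)) (u v : P) :
    cofB p (u * f * v) = aug u * cofB p f * aug v := by
  unfold cofB
  rw [Finset.mul_sum, Finset.sum_mul]
  refine Finset.sum_congr rfl fun j hj => ?_
  have hl : (w01 j (p - j)).length = p + 1 := by
    have := Finset.mem_range.1 hj
    simp [w01]
    omega
  exact cf_sandwich (by rw [hl]; exact hf) u v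

theorem com_mem (p : ℕ) : X 0 * X 1 - X 1 * X 0 ∈ Lar (LamO p 0 1) := by
  refine ⟨?_, fun φ hφ u v => ?_⟩
  · show aug (X 0 * X 1 - X 1 * X 0) = 0
    rw [map_sub, map_mul, map_mul, mul_comm, sub_self]
  · show (p : ℤ) ∣ 0 * cf [0, 1] (u * φ (X 0 * X 1 - X 1 * X 0) * v) +
      1 * cofB p (u * φ (X 0 * X 1 - X 1 * X 0) * v)
    have h : com (u * φ (X 0 * X 1 - X 1 * X 0) * v) = 0 := by
      rw [map_mul, map_mul, map_sub, map_mul, map_mul, map_sub, map_mul, map_mul]
      ring
    rw [cofB_com, h, MvPolynomial.coeff_zero, zero_mul, mul_zero, add_zero]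
    exact dvd_zero _

theorem deg_mem {p : ℕ} (hp : 2 ≤ p) : X 0 ^ p * X 1 - X 0 * X 1 ^ p ∈ Lar (LamO p 1 0) := by
  have h0 : ∀ n, (X 0 : P) ^ n = mon (List.replicate n 0) := fun n => by
    simp [mon]
  have h1 : ∀ n, (X 1 : P) ^ n = mon (List.replicate n 1) := fun n => by
    simp [mon]
  have hm : (X 0 ^ p * X 1 - X 0 * X 1 ^ p : P) ∈ Fge 3 := by
    refine Submodule.sub_mem _ ?_ ?_
    · refine Submodule.subset_span ⟨List.replicate p 0 ++ [1], ?_, ?_⟩
      · simp
        omega
      · simp [mon]
    · refine Submodule.subset_span ⟨0 :: List.replicate p 1, ?_, ?_⟩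
      · simp
        omega
      · simp [mon]
  refine ⟨?_, fun φ hφ u v => ?_⟩
  · exact (isT_Fge 3 (by norm_num)).le hm
  · show (p : ℤ) ∣ 1 * cf [0, 1] (u * φ (X 0 ^ p * X 1 - X 0 * X 1 ^ p) * v) +
      0 * cofB p (u * φ (X 0 ^ p * X 1 - X 0 * X 1 ^ p) * v)
    rw [cf_Fge (Fge_subst (by norm_num) hm hφ u v) (by simp), mul_zero, zero_mul, add_zero]
    exact dvd_zero _

end ADM
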