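import Pool.Agent.ADM.Defs
import Pool.Agent.ADM.OpCom

/-!
# ADM-OpC

The diagonal element.

PLAN.  Let `D = X 0 ^ p * X 1 - X 0 * X 1 ^ p` and `f = (X 0 * X 1 - X 1 * X 0) - D`.  `f ∈ Pp` is clear.  Let `φ` be a
substitution, `u v : P`, `a = φ (X 0)`, `b = φ (X 1)` (in `Pp`), `a_i = cf [i] a`, `b_i = cf [i] b`, `u₀ = aug u`, `v₀ = aug v`.
* `cf [0,1] (u * φ f * v) = u₀ * (a_0 * b_1 - b_0 * a_1) * v₀`: the commutator part by `cf_sandwich` (it is in `Fge 2`) and
  `cf_two`; `u * φ D * v ∈ Fge 3` gives 0 (`cf_Fge`).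
* `cofB p (u * φ f * v) = - u₀ * (cofB p (a ^ p * b) - cofB p (a * b ^ p)) * v₀`: `cofB` of the commutator part is 0
  (`com_mem`, with `Lar_le` or directly by `cofB_com`), and `cofB_sandwich` for `φ D ∈ Fge (p + 1)`.
* `cofB p (a ^ p * b) ≡ a_0 * b_1` and `cofB p (a * b ^ p) ≡ a_1 * b_0` modulo `p`: by `cofB_com`,
  `cofB p (a ^ p * b) = coeff (p·e_0 + e_1) (A ^ p * B)` with `A = com a`, `B = com b`; map to `MvPolynomial ℕ (ZMod p)`
  (`MvPolynomial.map (Int.castRingHom (ZMod p))`, `AD.comp p`), where `A ^ p = MvPolynomial.expand p A`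
  (`MvPolynomial.expand_zmod`); so `A ^ p = ∑ A_m X^(p m)` and in the product with `B` the coefficient of `x_0^p x_1` comes from
  `m = 0` (`A_0 = 0`) and `m = e_0` (`a_0 b_1`).
Hence `cf [0,1] + cofB ≡ 0`.
-/

namespace ADM

open AD ADN

open MvPolynomial in
private theorem opc_cc_comp (p : ℕ) (g : P) : constantCoeff (comp p g) = ((aug g : ℤ) : ZMod p) := by
  have h : (((constantCoeff : MvPolynomial ℕ (ZMod p) →+* ZMod p).toIntAlgHom).comp (comp p))
      = ((Int.castRingHom (ZMod p)).toIntAlgHom).comp aug := by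
    apply FreeAlgebra.hom_ext
    funext i
    change constantCoeff (comp p (FreeAlgebra.ι ℤ i)) = ((aug (FreeAlgebra.ι ℤ i) : ℤ) : ZMod p)
    simp [comp, aug]
  exact DFunLike.congr_fun h g

private theorem opc_comp_com (p : ℕ) (g : P) :
    comp p g = MvPolynomial.map (Int.castRingHom (ZMod p)) (com g) := by
  have h : comp p = ((MvPolynomial.map (Int.castRingHom (ZMod p)) :
      MvPolynomial ℕ ℤ →+* MvPolynomial ℕ (ZMod p)).toIntAlgHom).comp com := by
    apply FreeAlgebra.hom_ext
    funext i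
    change comp p (FreeAlgebra.ι ℤ i) = MvPolynomial.map (Int.castRingHom (ZMod p)) (com (FreeAlgebra.ι ℤ i))
    simp [comp, com]
  exact DFunLike.congr_fun h g

open MvPolynomial in
private theorem opc_com_mon (w : List ℕ) (i : ℕ) :
    MvPolynomial.coeff (Finsupp.single i 1) (com (mon w)) = if w = [i] then 1 else 0 := by
  classical
  cases w with
  | nil =>
    have h : com (mon []) = 1 := by simp [mon]
    rw [h, MvPolynomial.coeff_one, if_neg, if_neg]
    · simp
    · intro h
      have h2 := DFunLike.congr_fun h i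
      simp at h2
  | cons a w =>
    cases w with
    | nil =>
      have h : com (mon [a]) = MvPolynomial.X a := by simp [mon, com]
      rw [h, MvPolynomial.coeff_X]
      by_cases hai : a = i
      · subst hai
        simp
      · rw [if_neg, if_neg]
        · simpa using hai
        · intro h2
          have h3 := DFunLike.congr_fun h2 a
          rw [Finsupp.single_eq_same, Finsupp.single_apply, if_neg (fun h => hai h.symm)] at h3
          omega
    | cons b w =>
      have h : com (mon (a :: b :: w)) = MvPolynomial.X a * (MvPolynomial.X b * com (mon w)) := by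
        simp [mon, com]
      rw [h, if_neg (by simp), MvPolynomial.coeff_X_mul']
      split_ifs with h1
      · rw [MvPolynomial.coeff_X_mul', if_neg]
        intro h2
        have hai : a = i := by
          by_contra hne
          rw [Finsupp.mem_support_iff, Finsupp.single_apply, if_neg (fun h => hne h.symm)] at h1
          exact h1 rfl
        subst hai
        rw [tsub_self] at h2
        simp at h2
      · rfl

private theorem opc_coeff_com (i : ℕ) (f : P) :
    MvPolynomial.coeff (Finsupp.single i 1) (com f) = cf [i] f := by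
  classical
  obtain ⟨s, hs, hf⟩ := eq_sum_cf f
  have h : MvPolynomial.coeff (Finsupp.single i 1) (com f) =
      ∑ w ∈ s, cf w f * (if w = [i] then 1 else 0) := by
    conv_lhs => rw [hf]
    rw [map_sum, MvPolynomial.coeff_sum]
    refine Finset.sum_congr rfl fun w _ => ?_
    rw [map_smul, MvPolynomial.coeff_smul, opc_com_mon, smul_eq_mul]
  rw [h]
  simp only [mul_ite, mul_one, mul_zero]
  rw [Finset.sum_ite_eq']
  split_ifs with h1
  · rfl
  · exact (hs [i] h1).symm

open MvPolynomial in
private theorem opc_coeff_pow (p : ℕ) [Fact p.Prime] (w : MvPolynomial ℕ (ZMod p))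
    (hw : constantCoeff w = 0) (m : ℕ →₀ ℕ) (hm : coeff m (w ^ p) ≠ 0) :
    ∃ m' : ℕ →₀ ℕ, m = p • m' ∧ 1 ≤ Finsupp.degree m' := by
  have hp : p ≠ 0 := (Fact.out : p.Prime).ne_zero
  rw [← expand_zmod] at hm
  have hd : ∀ i, p ∣ m i := by
    intro i
    by_contra h
    exact hm (coeff_expand_of_not_dvd _ h)
  choose c hc using hd
  have hmm : m = p • Finsupp.ofSupportFinite c (by
      apply m.support.finite_toSet.subset
      intro i hi
      simp only [Finset.mem_coe, Finsupp.mem_support_iff]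
      rw [hc i]
      exact mul_ne_zero hp hi) := by
    ext i
    rw [Finsupp.smul_apply, smul_eq_mul, hc i]
    rfl
  refine ⟨_, hmm, ?_⟩
  rw [Nat.one_le_iff_ne_zero]
  intro h0
  rw [Finsupp.degree_eq_zero_iff] at h0
  rw [hmm, h0, smul_zero] at hm
  have : coeff 0 (expand p w) = coeff 0 w := coeff_expand_zero _ hp w
  rw [this] at hm
  exact hm hw

open MvPolynomial in
private theorem opc_slot (p : ℕ) [Fact p.Prime] (w v : MvPolynomial ℕ (ZMod p))
    (hw : constantCoeff w = 0) :
    coeff (Finsupp.single 0 p + Finsupp.single 1 1) (v * w ^ p) =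
      coeff (Finsupp.single 1 1) v * coeff (Finsupp.single 0 1) w := by
  classical
  have hp : 2 ≤ p := (Fact.out : p.Prime).two_le
  rw [coeff_mul, Finset.sum_eq_single (Finsupp.single 1 1, Finsupp.single 0 p)]
  · have h1 : coeff (p • Finsupp.single 0 1) (expand p w) = coeff (Finsupp.single 0 1) w :=
      coeff_expand_smul _ (by omega) w _
    rw [Finsupp.smul_single, smul_eq_mul, mul_one, expand_zmod] at h1
    rw [h1]
  · rintro ⟨u, y⟩ huy hne
    rw [Finset.HasAntidiagonal.mem_antidiagonal] at huy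
    simp only at huy ⊢
    by_contra h
    have hy := right_ne_zero_of_mul h
    obtain ⟨m', hm', hdeg⟩ := opc_coeff_pow p w hw y hy
    have hy1 : y 1 = 0 := by
      have h3 := DFunLike.congr_fun huy 1
      rw [Finsupp.add_apply, Finsupp.add_apply, Finsupp.single_apply, if_neg (by norm_num),
        Finsupp.single_eq_same, zero_add] at h3
      have h4 : y 1 = p * m' 1 := by rw [hm']; rfl
      by_contra h5
      have h6 : 1 ≤ m' 1 := by
        rw [Nat.one_le_iff_ne_zero]
        intro h7
        rw [h7, mul_zero] at h4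
        exact h5 h4
      nlinarith
    have hyi : ∀ i, 2 ≤ i → y i = 0 := by
      intro i hi
      have h3 := DFunLike.congr_fun huy i
      rw [Finsupp.add_apply, Finsupp.add_apply, Finsupp.single_apply, if_neg (by omega),
        Finsupp.single_apply, if_neg (by omega)] at h3
      omega
    have hy0 : y 0 ≤ p := by
      have h3 := DFunLike.congr_fun huy 0
      rw [Finsupp.add_apply, Finsupp.add_apply, Finsupp.single_eq_same,
        Finsupp.single_apply, if_neg (by norm_num)] at h3
      omega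
    have hm0 : m' = Finsupp.single 0 (m' 0) := by
      ext i
      rw [Finsupp.single_apply]
      split_ifs with h0
      · rw [h0]
      · have h4 : y i = p * m' i := by rw [hm']; rfl
        have h5 : y i = 0 := by
          rcases Nat.lt_or_ge i 2 with h6 | h6
          · have h7 : i = 1 := by omega
            rw [h7]
            exact hy1
          · exact hyi i h6
        rw [h5] at h4
        rcases mul_eq_zero.1 h4.symm with h6 | h6
        · omega
        · exact h6
    have hm1 : m' 0 = 1 := by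
      have h4 : y 0 = p * m' 0 := by rw [hm']; rfl
      have h5 : m' 0 ≤ 1 := by
        by_contra h6
        have h7 : 2 ≤ m' 0 := by omega
        have h8 : p * 2 ≤ p * m' 0 := Nat.mul_le_mul_left _ h7
        omega
      rw [hm0, Finsupp.degree_single] at hdeg
      omega
    have hy2 : y = Finsupp.single 0 p := by
      rw [hm', hm0, hm1, Finsupp.smul_single, smul_eq_mul, mul_one]
    have hu : u = Finsupp.single 1 1 := by
      rw [hy2, add_comm] at huy
      exact add_left_cancel huy
    apply hne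
    rw [hu, hy2]
  · intro h
    exfalso
    apply h
    rw [Finset.HasAntidiagonal.mem_antidiagonal, add_comm]

private theorem opc_cof {p : ℕ} [Fact p.Prime] (a b : P) (ha : aug a = 0) :
    ((cofB p (b * a ^ p) : ℤ) : ZMod p) = ((cf [1] b * cf [0] a : ℤ) : ZMod p) := by
  rw [cofB_com]
  have h1 : ((MvPolynomial.coeff (Finsupp.single 0 p + Finsupp.single 1 1) (com (b * a ^ p)) : ℤ) : ZMod p) =
      MvPolynomial.coeff (Finsupp.single 0 p + Finsupp.single 1 1) (comp p (b * a ^ p)) := by
    rw [opc_comp_com, MvPolynomial.coeff_map]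
    rfl
  rw [h1, map_mul, map_pow, opc_slot]
  · rw [opc_comp_com, opc_comp_com, MvPolynomial.coeff_map, MvPolynomial.coeff_map, opc_coeff_com, opc_coeff_com]
    push_cast
    rfl
  · rw [opc_cc_comp, ha, Int.cast_zero]

private theorem opc_cof' {p : ℕ} (a b : P) : cofB p (a ^ p * b) = cofB p (b * a ^ p) := by
  rw [cofB_com, cofB_com, map_mul, map_mul, mul_comm]

theorem opC {p : ℕ} (hp : p.Prime) :
    (X 0 * X 1 - X 1 * X 0) - (X 0 ^ p * X 1 - X 0 * X 1 ^ p) ∈ Lar (LamO p 1 1) := by
  have : Fact p.Prime := ⟨hp⟩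
  have hp2 : 2 ≤ p := hp.two_le
  refine ⟨?_, ?_⟩
  · show aug _ = 0
    simp [aug]
  · intro φ hφ u v
    have hC := (com_mem p).2 φ hφ u v
    have hD := (deg_mem hp2).2 φ hφ u v
    have hC' : (p : ℤ) ∣ 0 * cf [0, 1] (u * φ (X 0 * X 1 - X 1 * X 0) * v) +
      1 * cofB p (u * φ (X 0 * X 1 - X 1 * X 0) * v) := hC
    have hD' : (p : ℤ) ∣ 1 * cf [0, 1] (u * φ (X 0 ^ p * X 1 - X 0 * X 1 ^ p) * v) +
      0 * cofB p (u * φ (X 0 ^ p * X 1 - X 0 * X 1 ^ p) * v) := hD
    set a := φ (X 0) with ha
    set b := φ (X 1) with hb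
    have ha0 : aug a = 0 := hφ 0
    have hb0 : aug b = 0 := hφ 1
    -- the commutator
    have hF2 : φ (X 0 * X 1 - X 1 * X 0) ∈ Fge 2 := by
      have h1 : X 0 * X 1 - X 1 * X 0 ∈ Fge 2 := by
        have e : X 0 * X 1 - X 1 * X 0 = mon [0, 1] - mon [1, 0] := by simp [mon]
        rw [e]
        exact Submodule.sub_mem _ (Submodule.subset_span ⟨_, le_rfl, rfl⟩)
          (Submodule.subset_span ⟨_, le_rfl, rfl⟩)
      have h2 := Fge_subst (by norm_num) h1 hφ 1 1
      rwa [one_mul, mul_one] at h2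
    have hFp : φ (X 0 ^ p * X 1 - X 0 * X 1 ^ p) ∈ Fge (p + 1) := by
      have h1 : X 0 ^ p * X 1 - X 0 * X 1 ^ p ∈ Fge (p + 1) := by
        have e : X 0 ^ p * X 1 - X 0 * X 1 ^ p = mon (List.replicate p 0 ++ [1]) - mon (0 :: List.replicate p 1) := by
          simp [mon]
        rw [e]
        exact Submodule.sub_mem _ (Submodule.subset_span ⟨_, by simp, rfl⟩)
          (Submodule.subset_span ⟨_, by simp, rfl⟩)
      have h2 := Fge_subst (by omega) h1 hφ 1 1
      rwa [one_mul, mul_one] at h2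
    have e1 : cf [0, 1] (u * φ (X 0 * X 1 - X 1 * X 0) * v) =
        aug u * (cf [0] a * cf [1] b - cf [0] b * cf [1] a) * aug v := by
      rw [cf_sandwich (w := [0, 1]) hF2]
      have e2 : φ (X 0 * X 1 - X 1 * X 0) = a * b + (-1 : ℤ) • (b * a) := by
        rw [map_sub, map_mul, map_mul, ← ha, ← hb, neg_smul, one_smul, sub_eq_add_neg]
      rw [e2, cf_add, cf_smul, cf_two ha0 hb0, cf_two hb0 ha0]
      ring
    have e3 : cofB p (u * φ (X 0 ^ p * X 1 - X 0 * X 1 ^ p) * v) =
        aug u * (cofB p (a ^ p * b) - cofB p (a * b ^ p)) * aug v := by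
      rw [cofB_sandwich hFp]
      have e2 : φ (X 0 ^ p * X 1 - X 0 * X 1 ^ p) = a ^ p * b + (-1 : ℤ) • (a * b ^ p) := by
        rw [map_sub, map_mul, map_mul, map_pow, map_pow, ← ha, ← hb, neg_smul, one_smul, sub_eq_add_neg]
      rw [e2, cofB_add, cofB_smul]
      ring
    have e4 : (p : ℤ) ∣ (cf [0] a * cf [1] b - cf [0] b * cf [1] a) -
        (cofB p (a ^ p * b) - cofB p (a * b ^ p)) := by
      rw [← ZMod.intCast_zmod_eq_zero_iff_dvd]
      push_cast
      rw [opc_cof', opc_cof a b ha0, opc_cof b a hb0]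
      push_cast
      ring
    show (p : ℤ) ∣ 1 * cf [0, 1] _ + 1 * cofB p _
    have e5 : u * φ ((X 0 * X 1 - X 1 * X 0) - (X 0 ^ p * X 1 - X 0 * X 1 ^ p)) * v =
        u * φ (X 0 * X 1 - X 1 * X 0) * v + (-1 : ℤ) • (u * φ (X 0 ^ p * X 1 - X 0 * X 1 ^ p) * v) := by
      rw [map_sub, mul_sub, sub_mul, neg_smul, one_smul, sub_eq_add_neg]
    rw [e5, cf_add, cf_smul, cofB_add, cofB_smul]
    have e6 : 1 * (cf [0, 1] (u * φ (X 0 * X 1 - X 1 * X 0) * v) +
        -1 * cf [0, 1] (u * φ (X 0 ^ p * X 1 - X 0 * X 1 ^ p) * v)) +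
        1 * (cofB p (u * φ (X 0 * X 1 - X 1 * X 0) * v) +
        -1 * cofB p (u * φ (X 0 ^ p * X 1 - X 0 * X 1 ^ p) * v)) =
        (0 * cf [0, 1] (u * φ (X 0 * X 1 - X 1 * X 0) * v) +
          1 * cofB p (u * φ (X 0 * X 1 - X 1 * X 0) * v)) -
        (1 * cf [0, 1] (u * φ (X 0 ^ p * X 1 - X 0 * X 1 ^ p) * v) +
          0 * cofB p (u * φ (X 0 ^ p * X 1 - X 0 * X 1 ^ p) * v)) +
        aug u * ((cf [0] a * cf [1] b - cf [0] b * cf [1] a) -
          (cofB p (a ^ p * b) - cofB p (a * b ^ p))) * aug v := by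
      rw [e1, e3]
      ring
    rw [e6]
    exact dvd_add (dvd_sub hC' hD') (Dvd.dvd.mul_right (Dvd.dvd.mul_left e4 _) _)

end ADM
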