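import Pool.Agent.ADM.Defs
import Pool.Agent.ADM.OpCom
import Pool.Agent.ADM.OpC

/-!
# ADM-OpN

The lattice above `OT p` is not distributive.

PLAN.  `Z = Lar (LamO p 1 0)`, `Z' = Lar (LamO p 0 1)`, `Z'' = Lar (LamO p 1 1)`.  Two of the three linear conditions
`p ∣ cf [0,1] f`, `p ∣ cofB p f`, `p ∣ cf [0,1] f + cofB p f` imply the third, so the intersections of two of the submodules
`LamO p 1 0`, `LamO p 0 1`, `LamO p 1 1` are equal, and by `Lar_inf`: `Z ⊓ Z' = Z ⊓ Z'' = OT p`, and `OT p ≤ Z, Z', Z''`.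
If `DistOn TI (OT p)` then `Z ⊓ (Z' ⊔ Z'') = (Z ⊓ Z') ⊔ (Z ⊓ Z'') = OT p`.  The element `D = X 0 ^ p * X 1 - X 0 * X 1 ^ p` is in `Z`
(`deg_mem`) and `D = (X 0 * X 1 - X 1 * X 0) - ((X 0 * X 1 - X 1 * X 0) - D) ∈ Z' ⊔ Z''` (`com_mem`, `opC`), so `D ∈ OT p`
and `p ∣ cofB p D = 1` (`Lar_le`; `cofB p (X 0 ^ p * X 1) = 1`, `cofB p (X 0 * X 1 ^ p) = 0` because `p ≥ 2`), a contradiction.
oT_nil: `mon w` with `p + 2 ≤ w.length`: `u * φ (mon w) * v ∈ Fge (p + 2)`, so all coefficients at the words `[0,1]` and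
`w01 j (p - j)` (length `p + 1`) are 0 (`cf_Fge`).
-/

namespace ADM

open AD ADN

theorem oT_isT (p : ℕ) : IsT (OT p) := isT_Lar _

theorem oT_nil {p : ℕ} (hp : p.Prime) : NilAt (OT p) (p + 2) := by
  refine nilAt_of_le (le_Lar (isT_Fge _ (by omega)) fun f hf => ?_)
  have h1 : cf [0, 1] f = 0 := cf_Fge hf (by
    have := hp.two_le
    simp only [List.length_cons, List.length_nil]
    omega)
  have h2 : cofB p f = 0 := by
    unfold cofB
    refine Finset.sum_eq_zero fun j hj => cf_Fge hf ?_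
    rw [Finset.mem_range] at hj
    simp only [w01, List.length_append, List.length_cons, List.length_replicate]
    omega
  refine ⟨?_, ?_⟩
  · show (p : ℤ) ∣ 1 * cf [0, 1] f + 0 * cofB p f
    rw [h1, h2]
    simp
  · show (p : ℤ) ∣ 0 * cf [0, 1] f + 1 * cofB p f
    rw [h1, h2]
    simp

private theorem opn_com_X (i : ℕ) : com (X i) = MvPolynomial.X i := by
  unfold com
  rw [FreeAlgebra.lift_ι_apply]

private theorem opn_cofB {p : ℕ} (hp : p.Prime) : cofB p (X 0 ^ p * X 1 - X 0 * X 1 ^ p) = 1 := by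
  classical
  rw [cofB_com, map_sub, map_mul, map_mul, map_pow, map_pow, opn_com_X, opn_com_X]
  rw [MvPolynomial.X_pow_eq_monomial, MvPolynomial.X_pow_eq_monomial, MvPolynomial.X,
    MvPolynomial.X, MvPolynomial.monomial_mul, MvPolynomial.monomial_mul, MvPolynomial.coeff_sub,
    MvPolynomial.coeff_monomial, MvPolynomial.coeff_monomial, if_pos rfl, if_neg, mul_one, sub_zero]
  intro h
  have h1 := DFunLike.congr_fun h 0
  simp at h1
  exact hp.one_lt.ne h1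

private theorem opn_inf (p : ℕ) : LamO p 1 0 ⊓ LamO p 1 1 = LamO p 1 0 ⊓ LamO p 0 1 := by
  ext f
  constructor
  · rintro ⟨h1, h2⟩
    refine ⟨h1, ?_⟩
    have e1 : (p : ℤ) ∣ 1 * cf [0, 1] f + 0 * cofB p f := h1
    have e2 : (p : ℤ) ∣ 1 * cf [0, 1] f + 1 * cofB p f := h2
    show (p : ℤ) ∣ 0 * cf [0, 1] f + 1 * cofB p f
    have e3 := dvd_sub e2 e1
    have e4 : 1 * cf [0, 1] f + 1 * cofB p f - (1 * cf [0, 1] f + 0 * cofB p f) =
        0 * cf [0, 1] f + 1 * cofB p f := by ring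
    rwa [e4] at e3
  · rintro ⟨h1, h2⟩
    refine ⟨h1, ?_⟩
    have e1 : (p : ℤ) ∣ 1 * cf [0, 1] f + 0 * cofB p f := h1
    have e2 : (p : ℤ) ∣ 0 * cf [0, 1] f + 1 * cofB p f := h2
    show (p : ℤ) ∣ 1 * cf [0, 1] f + 1 * cofB p f
    have e3 := dvd_add e1 e2
    have e4 : 1 * cf [0, 1] f + 0 * cofB p f + (0 * cf [0, 1] f + 1 * cofB p f) =
        1 * cf [0, 1] f + 1 * cofB p f := by ring
    rwa [e4] at e3

theorem oT_not_dist {p : ℕ} (hp : p.Prime) : ¬ DistOn TI (OT p) := by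
  intro hD
  have i1 : Lar (LamO p 1 0) ⊓ Lar (LamO p 0 1) = OT p := (Lar_inf _ _).symm
  have i2 : Lar (LamO p 1 0) ⊓ Lar (LamO p 1 1) = OT p := by
    rw [← Lar_inf, opn_inf]
    rfl
  have l1 : OT p ≤ Lar (LamO p 1 0) := i1 ▸ inf_le_left
  have l2 : OT p ≤ Lar (LamO p 0 1) := i1 ▸ inf_le_right
  have l3 : OT p ≤ Lar (LamO p 1 1) := i2 ▸ inf_le_right
  have h := hD _ (isT_Lar (LamO p 1 0)) _ (isT_Lar (LamO p 0 1)) _ (isT_Lar (LamO p 1 1)) l1 l2 l3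
  rw [i1, i2, sup_idem] at h
  have d1 : X 0 ^ p * X 1 - X 0 * X 1 ^ p ∈ Lar (LamO p 1 0) := deg_mem hp.two_le
  have d2 : X 0 ^ p * X 1 - X 0 * X 1 ^ p ∈ Lar (LamO p 0 1) ⊔ Lar (LamO p 1 1) := by
    have e : X 0 ^ p * X 1 - X 0 * X 1 ^ p = (X 0 * X 1 - X 1 * X 0) -
        ((X 0 * X 1 - X 1 * X 0) - (X 0 ^ p * X 1 - X 0 * X 1 ^ p)) := by abel
    rw [e]
    exact Submodule.sub_mem _ (Submodule.mem_sup_left (com_mem p))
      (Submodule.mem_sup_right (opC hp))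
  have d3 : X 0 ^ p * X 1 - X 0 * X 1 ^ p ∈ OT p := by
    rw [← h]
    exact ⟨d1, d2⟩
  have d4 : (p : ℤ) ∣ 0 * cf [0, 1] (X 0 ^ p * X 1 - X 0 * X 1 ^ p) +
      1 * cofB p (X 0 ^ p * X 1 - X 0 * X 1 ^ p) := (Lar_le _ d3).2
  rw [opn_cofB hp, zero_mul, zero_add, mul_one] at d4
  have d5 := Int.eq_one_of_dvd_one (by omega) d4
  exact hp.one_lt.ne' (by exact_mod_cast d5)

end ADM
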