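import Pool.Agent.ADM.Defs
import Pool.Agent.ADM.LarT
import Pool.Agent.ADM.CfMul

/-!
# ADM-RowZ

Four memberships.

PLAN.  All polynomials `f` are differences of two words in `Pp` (`mon_mem_Pp`, Div.lean).  Let `φ` be a substitution,
`h i = φ (X i) ∈ Pp`.  `φ (mon [i,j,k]) = h i * h j * h k ∈ Fge 3` (`Pp = Fge 1`; or: `mon [i,j,k] ∈ Fge 3` and `Fge_subst`).  By
`cf_sandwich` and `cf_three`: `cf [a,b,c] (u * φ (mon [i,j,k]) * v) = aug u * (cf [a] (h i) * cf [b] (h j) * cf [c] (h k)) * aug v`.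
So every entry of row 0 of `u * φ (mon [0,1,2] - mon [0,2,1]) * v` is 0 (`h 1` and `h 2` are exchanged, and the entry is
symmetric in the second and third letter): `row f 0 l = 0` for `l = 0, 1, 2` (ring).  The other three are the same: row 1
is invariant under exchanging the first and the third letter, row 2 under exchanging the first and the second.
-/

namespace ADM

open AD ADN

private theorem rz_sub (w : List ℕ) (f g : P) : cf w (f - g) = cf w f - cf w g := by
  have h : f - g = f + (-1 : ℤ) • g := by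
    rw [neg_smul, one_smul, sub_eq_add_neg]
  rw [h, cf_add, cf_smul]
  ring

private theorem rz_entry {φ : P →ₐ[ℤ] P} (hφ : IsSubst φ) (u v : P) (i j k a b c : ℕ) :
    cf [a, b, c] (u * φ (mon [i, j, k]) * v) =
      aug u * (cf [a] (φ (X i)) * cf [b] (φ (X j)) * cf [c] (φ (X k))) * aug v := by
  have h1 : mon [i, j, k] ∈ Fge 3 := Submodule.subset_span ⟨[i, j, k], le_rfl, rfl⟩
  have h2 : φ (mon [i, j, k]) ∈ Fge 3 := by
    have h := Fge_subst (by norm_num : 1 ≤ 3) h1 hφ 1 1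
    rwa [one_mul, mul_one] at h
  have h3 : φ (mon [i, j, k]) = φ (X i) * φ (X j) * φ (X k) := by
    simp [mon, mul_assoc]
  have hX : ∀ i, φ (X i) ∈ Pp := fun i => (trans_aug_Pp _).2 (hφ i)
  rw [cf_sandwich (w := [a, b, c]) h2 u v, h3, cf_three (hX i) (hX j) (hX k)]

private theorem rz_mem (p : ℕ) (r : Fin 3) (i j k i' j' k' : ℕ)
    (h : ∀ φ : P →ₐ[ℤ] P, IsSubst φ → ∀ (u v : P) (l : Fin 3),
      row (u * φ (mon [i, j, k]) * v - u * φ (mon [i', j', k']) * v) r l = 0) :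
    mon [i, j, k] - mon [i', j', k'] ∈ Lar (Lam p r) := by
  have hP : ∀ a b c : ℕ, mon [a, b, c] ∈ Pp := by
    intro a b c
    rw [trans_aug_Pp]
    simp [mon, aug]
  refine ⟨Pp.sub_mem (hP i j k) (hP i' j' k'), ?_⟩
  intro φ hφ u v
  rw [map_sub, mul_sub, sub_mul]
  intro l l'
  rw [h φ hφ u v l, h φ hφ u v l', sub_zero]
  exact dvd_zero _

theorem rowZ0 (p : ℕ) : mon [0, 1, 2] - mon [0, 2, 1] ∈ Lar (Lam p 0) := by
  apply rz_mem
  intro φ hφ u v l
  fin_cases l <;> simp only [row, Matrix.cons_val, rz_sub, rz_entry hφ, Fin.mk_one, Fin.zero_eta,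
    Fin.reduceFinMk] <;> ring

theorem rowZ1 (p : ℕ) : mon [0, 1, 2] - mon [2, 1, 0] ∈ Lar (Lam p 1) := by
  apply rz_mem
  intro φ hφ u v l
  fin_cases l <;> simp only [row, Matrix.cons_val, rz_sub, rz_entry hφ, Fin.mk_one, Fin.zero_eta,
    Fin.reduceFinMk] <;> ring

theorem rowZ1' (p : ℕ) : mon [1, 2, 0] - mon [0, 2, 1] ∈ Lar (Lam p 1) := by
  apply rz_mem
  intro φ hφ u v l
  fin_cases l <;> simp only [row, Matrix.cons_val, rz_sub, rz_entry hφ, Fin.mk_one, Fin.zero_eta,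
    Fin.reduceFinMk] <;> ring

theorem rowZ2 (p : ℕ) : mon [2, 1, 0] - mon [1, 2, 0] ∈ Lar (Lam p 2) := by
  apply rz_mem
  intro φ hφ u v l
  fin_cases l <;> simp only [row, Matrix.cons_val, rz_sub, rz_entry hφ, Fin.mk_one, Fin.zero_eta,
    Fin.reduceFinMk] <;> ring

end ADM
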