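import Pool.Agent.ADM.Defs
import Pool.Agent.ADM.LarT
import Pool.Agent.ADM.RowZ

/-!
# ADM-RowN: the lattice above `RowT p` is not distributive
-/

namespace ADM

open AD ADN

private theorem rn_row_Fge {f : P} (hf : f ∈ Fge 4) (i l : Fin 3) : row f i l = 0 := by
  have h : ∀ a b c : ℕ, cf [a, b, c] f = 0 := fun a b c => cf_Fge hf (by simp)
  fin_cases i <;> fin_cases l <;> simp [row, h]

private theorem rn_mem_Fge {f : P} (hf : f ∈ Fge 4) (p : ℕ) (i : Fin 3) : f ∈ Lam p i := by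
  intro l l'
  rw [rn_row_Fge hf, rn_row_Fge hf, sub_zero]
  exact dvd_zero _

private theorem rn_sum (f : P) (l : Fin 3) : row f 0 l + row f 1 l + row f 2 l =
    cf [0, 1, 2] f + cf [0, 2, 1] f + cf [1, 0, 2] f + cf [1, 2, 0] f + cf [2, 0, 1] f +
      cf [2, 1, 0] f := by
  fin_cases l <;> simp [row] <;> ring

private theorem rn_third (p : ℕ) {i j k : Fin 3}
    (h : ∀ f l, row f i l + row f j l + row f k l = row f 0 l + row f 1 l + row f 2 l) {f : P}
    (h1 : f ∈ Lam p i) (h2 : f ∈ Lam p j) : f ∈ Lam p k := by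
  intro l l'
  have a1 := h1 l l'
  have a2 := h2 l l'
  have e : row f k l - row f k l' =
      -(row f i l - row f i l') - (row f j l - row f j l') := by
    have b1 := h f l
    have b2 := h f l'
    rw [rn_sum] at b1 b2
    linarith
  rw [e]
  exact dvd_sub ((dvd_neg (a := (p : ℤ))).2 a1) a2

private theorem rn_g (p : ℕ) (hp : p.Prime) : mon [0, 1, 2] - mon [0, 2, 1] ∉ Lam p 1 := by
  intro h
  have h1 := h 1 0
  have hs : ∀ (w : List ℕ) (f g : P), cf w (f - g) = cf w f - cf w g := by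
    intro w f g
    have e : f - g = f + (-1 : ℤ) • g := by
      rw [neg_smul, one_smul, sub_eq_add_neg]
    rw [e, cf_add, cf_smul]
    ring
  have e1 : row (mon [0, 1, 2] - mon [0, 2, 1]) 1 1 = 1 := by
    simp [row, hs, cf_mon]
  have e0 : row (mon [0, 1, 2] - mon [0, 2, 1]) 1 0 = 0 := by
    simp [row, hs, cf_mon]
  rw [e1, e0, sub_zero] at h1
  have h2 : p ∣ 1 := by exact_mod_cast h1
  exact hp.one_lt.ne' (Nat.dvd_one.1 h2)

theorem rowT_isT (p : ℕ) : IsT (RowT p) := isT_Lar _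

theorem rowT_nil (p : ℕ) : NilAt (RowT p) 4 := by
  intro w hw
  have hw0 : w ≠ [] := by
    rintro rfl
    simp at hw
  refine ⟨mon_mem_Pp hw0, ?_⟩
  intro φ hφ u v
  have h1 : mon w ∈ Fge 4 := Submodule.subset_span ⟨w, hw, rfl⟩
  have h2 := Fge_subst (by norm_num) h1 hφ u v
  exact Submodule.mem_inf.2 ⟨rn_mem_Fge h2 p 0, rn_mem_Fge h2 p 1⟩

theorem rowT_not_dist (p : ℕ) (hp : p.Prime) : ¬ DistOn TI (RowT p) := by
  intro h
  have e01 : Lar (Lam p 0) ⊓ Lar (Lam p 1) = RowT p := (Lar_inf _ _).symm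
  have e02 : Lar (Lam p 0) ⊓ Lar (Lam p 2) = RowT p := by
    rw [← Lar_inf]
    unfold RowT
    congr 1
    ext f
    constructor
    · intro hf
      have hf' := Submodule.mem_inf.1 hf
      exact Submodule.mem_inf.2 ⟨hf'.1, rn_third p (fun f l => by ring) hf'.1 hf'.2⟩
    · intro hf
      have hf' := Submodule.mem_inf.1 hf
      exact Submodule.mem_inf.2 ⟨hf'.1, rn_third p (fun f l => by ring) hf'.1 hf'.2⟩
  have l0 : RowT p ≤ Lar (Lam p 0) := by
    rw [← e01]
    exact inf_le_left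
  have l1 : RowT p ≤ Lar (Lam p 1) := by
    rw [← e01]
    exact inf_le_right
  have l2 : RowT p ≤ Lar (Lam p 2) := by
    rw [← e02]
    exact inf_le_right
  have h1 := h _ (isT_Lar (Lam p 0)) _ (isT_Lar (Lam p 1)) _ (isT_Lar (Lam p 2)) l0 l1 l2
  rw [e01, e02, sup_idem] at h1
  have hg : mon [0, 1, 2] - mon [0, 2, 1] ∈ Lar (Lam p 1) ⊔ Lar (Lam p 2) := by
    have e : mon [0, 1, 2] - mon [0, 2, 1] = ((mon [0, 1, 2] - mon [2, 1, 0]) +
        (mon [1, 2, 0] - mon [0, 2, 1])) + (mon [2, 1, 0] - mon [1, 2, 0]) := by abel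
    rw [e]
    exact Submodule.add_mem_sup (Submodule.add_mem _ (rowZ1 p) (rowZ1' p)) (rowZ2 p)
  have hg2 : mon [0, 1, 2] - mon [0, 2, 1] ∈ RowT p := by
    rw [← h1]
    exact Submodule.mem_inf.2 ⟨rowZ0 p, hg⟩
  exact rn_g p hp (Lar_le _ (l1 hg2))

end ADM
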