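import Pool.Agent.ADM.Defs
import Pool.Agent.AD.NilU

/-!
# ADM-TuE

An element of a T-ideal `I` outside `TU`: after a renaming of the letters one of the coefficients at `x_0`, `x_0 x_0`,
`x_0 x_1 + x_1 x_0` of an element of `I` is not divisible by `4`, `2`, `2`.
-/

namespace ADM

open AD ADN

private noncomputable def tuE_cf (w : List ℕ) : P →ₗ[ℤ] ℤ where
  toFun := cf w
  map_add' := cf_add w
  map_smul' := fun n f => by
    rw [cf_smul]
    rfl

private theorem tuE_ext (L₁ L₂ : P →ₗ[ℤ] ℤ) (h : ∀ w, L₁ (mon w) = L₂ (mon w)) (f : P) :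
    L₁ f = L₂ f := by
  obtain ⟨s, -, hs⟩ := eq_sum_cf f
  rw [hs, map_sum, map_sum]
  refine Finset.sum_congr rfl fun w _ => ?_
  rw [map_smul, map_smul, h]

private noncomputable def tuE_md (w : List ℕ) : ℕ →₀ ℕ := (w.map (fun i => Finsupp.single i 1)).sum

private theorem tuE_com (w : List ℕ) : com (mon w) = MvPolynomial.monomial (tuE_md w) 1 := by
  induction w with
  | nil => simp [mon, tuE_md]
  | cons a w ih =>
    have h : mon (a :: w) = X a * mon w := by simp [mon]
    have h2 : com (X a) = MvPolynomial.X a := by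
      unfold com
      exact FreeAlgebra.lift_ι_apply _ _
    rw [h, map_mul, ih, h2, MvPolynomial.X, MvPolynomial.monomial_mul, one_mul]
    rfl

private theorem tuE_deg (w : List ℕ) : (tuE_md w).degree = w.length := by
  induction w with
  | nil => simp [tuE_md]
  | cons a w ih =>
    have h : tuE_md (a :: w) = Finsupp.single a 1 + tuE_md w := rfl
    rw [h, map_add, ih]
    simp
    omega

private theorem tuE_one (i : ℕ) (w : List ℕ) : tuE_md w = Finsupp.single i 1 ↔ w = [i] := by
  constructor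
  · intro h
    have h1 : w.length = 1 := by
      rw [← tuE_deg, h]
      simp
    obtain ⟨a, rfl⟩ := List.length_eq_one_iff.1 h1
    have h2 : Finsupp.single a 1 = (Finsupp.single i 1 : ℕ →₀ ℕ) := by
      rw [← h]
      simp [tuE_md]
    rw [Finsupp.single_left_injective (by norm_num : (1 : ℕ) ≠ 0) h2]
  · rintro rfl
    simp [tuE_md]

private theorem tuE_two (i j : ℕ) (w : List ℕ) :
    tuE_md w = Finsupp.single i 1 + Finsupp.single j 1 ↔ w = [i, j] ∨ w = [j, i] := by
  constructor
  · intro h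
    have h1 : w.length = 2 := by
      rw [← tuE_deg, h, map_add]
      simp
    obtain ⟨a, b, rfl⟩ := List.length_eq_two.1 h1
    have h2 : Finsupp.single a 1 + Finsupp.single b 1 =
        (Finsupp.single i 1 + Finsupp.single j 1 : ℕ →₀ ℕ) := by
      rw [← h]
      simp [tuE_md]
    have ha := DFunLike.congr_fun h2 a
    simp only [Finsupp.add_apply, Finsupp.single_apply] at ha
    have h3 : (a = i ∧ b = j) ∨ (a = j ∧ b = i) := by
      by_cases h4 : a = i
      · left
        refine ⟨h4, ?_⟩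
        subst h4
        have h5 : (Finsupp.single b 1 : ℕ →₀ ℕ) = Finsupp.single j 1 := add_left_cancel h2
        exact Finsupp.single_left_injective (by norm_num : (1 : ℕ) ≠ 0) h5
      · right
        have h5 : a = j := by
          by_contra h6
          rw [if_pos trivial, if_neg (Ne.symm h4), if_neg (Ne.symm h6)] at ha
          omega
        refine ⟨h5, ?_⟩
        subst h5
        rw [add_comm] at h2
        have h6 : (Finsupp.single b 1 : ℕ →₀ ℕ) = Finsupp.single i 1 := add_right_cancel h2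
        exact Finsupp.single_left_injective (by norm_num : (1 : ℕ) ≠ 0) h6
    rcases h3 with ⟨rfl, rfl⟩ | ⟨rfl, rfl⟩
    · left; rfl
    · right; rfl
  · rintro (rfl | rfl)
    · simp [tuE_md]
    · simp [tuE_md, add_comm]

private theorem tuE_c1 (i : ℕ) (f : P) :
    MvPolynomial.coeff (Finsupp.single i 1) (com f) = cf [i] f := by
  refine tuE_ext ((MvPolynomial.lcoeff ℤ (Finsupp.single i 1)).comp com.toLinearMap) (tuE_cf [i])
    (fun w => ?_) f
  show MvPolynomial.coeff (Finsupp.single i 1) (com (mon w)) = cf [i] (mon w)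
  rw [tuE_com, MvPolynomial.coeff_monomial, cf_mon]
  simp only [tuE_one]

private theorem tuE_c2 (i : ℕ) (f : P) :
    MvPolynomial.coeff (Finsupp.single i 1 + Finsupp.single i 1) (com f) = cf [i, i] f := by
  refine tuE_ext ((MvPolynomial.lcoeff ℤ (Finsupp.single i 1 + Finsupp.single i 1)).comp
    com.toLinearMap) (tuE_cf [i, i]) (fun w => ?_) f
  show MvPolynomial.coeff (Finsupp.single i 1 + Finsupp.single i 1) (com (mon w)) = cf [i, i] (mon w)
  rw [tuE_com, MvPolynomial.coeff_monomial, cf_mon]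
  simp only [tuE_two, or_self]

private theorem tuE_c3 {i j : ℕ} (hij : i ≠ j) (f : P) :
    MvPolynomial.coeff (Finsupp.single i 1 + Finsupp.single j 1) (com f) =
      cf [i, j] f + cf [j, i] f := by
  refine tuE_ext ((MvPolynomial.lcoeff ℤ (Finsupp.single i 1 + Finsupp.single j 1)).comp
    com.toLinearMap) (tuE_cf [i, j] + tuE_cf [j, i]) (fun w => ?_) f
  show MvPolynomial.coeff (Finsupp.single i 1 + Finsupp.single j 1) (com (mon w)) =
    cf [i, j] (mon w) + cf [j, i] (mon w)
  rw [tuE_com, MvPolynomial.coeff_monomial, cf_mon, cf_mon]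
  simp only [tuE_two]
  by_cases h1 : w = [i, j]
  · have h2 : w ≠ [j, i] := by
      rw [h1]
      intro h
      exact hij (List.cons.inj h).1
    simp [h1, hij]
  · by_cases h2 : w = [j, i]
    · simp [h2, Ne.symm hij]
    · simp [h1, h2]

private noncomputable def tuE_ren (ρ : Equiv.Perm ℕ) : P →ₐ[ℤ] P :=
  FreeAlgebra.lift ℤ (fun l => X (ρ l))

private theorem tuE_ren_subst (ρ : Equiv.Perm ℕ) : IsSubst (tuE_ren ρ) := by
  intro i
  simp [tuE_ren, aug, FreeAlgebra.lift_ι_apply]

private theorem tuE_ren_mon (ρ : Equiv.Perm ℕ) (w : List ℕ) :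
    tuE_ren ρ (mon w) = mon (w.map ρ) := by
  induction w with
  | nil => simp [mon]
  | cons a w ih =>
    have h : mon (a :: w) = X a * mon w := by simp [mon]
    have h2 : mon ((a :: w).map ρ) = X (ρ a) * mon (w.map ρ) := by simp [mon]
    have h3 : tuE_ren ρ (X a) = X (ρ a) := by
      unfold tuE_ren
      exact FreeAlgebra.lift_ι_apply _ _
    rw [h, map_mul, ih, h2, h3]

private theorem tuE_ren_cf (ρ : Equiv.Perm ℕ) (w : List ℕ) (f : P) :
    cf (w.map ρ) (tuE_ren ρ f) = cf w f := by
  refine tuE_ext ((tuE_cf (w.map ρ)).comp (tuE_ren ρ).toLinearMap) (tuE_cf w) (fun u => ?_) f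
  show cf (w.map ρ) (tuE_ren ρ (mon u)) = cf w (mon u)
  rw [tuE_ren_mon, cf_mon, cf_mon]
  have h : u.map ρ = w.map ρ ↔ u = w := (List.map_injective_iff.2 ρ.injective).eq_iff
  simp only [h]

theorem tuE {I : Submodule ℤ P} (hI : IsT I) {f : P} (hf : f ∈ I) (h : f ∉ TU) :
    (∃ g ∈ I, ¬ (4 : ℤ) ∣ cf [0] g) ∨ (∃ g ∈ I, ¬ (2 : ℤ) ∣ cf [0, 0] g) ∨
      ∃ g ∈ I, ¬ (2 : ℤ) ∣ cf [0, 1] g + cf [1, 0] g := by
  by_contra hc
  push Not at hc
  obtain ⟨h1, h2, h3⟩ := hc
  apply h
  rw [mem_TU_iff]
  refine ⟨hI.le hf, fun i => ?_, fun i j => ?_⟩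
  · rw [tuE_c1]
    have h4 := h1 _ (hI.subst _ (tuE_ren_subst (Equiv.swap i 0)) f hf)
    have h5 := tuE_ren_cf (Equiv.swap i 0) [i] f
    simp only [List.map_cons, List.map_nil, Equiv.swap_apply_left] at h5
    rwa [h5] at h4
  · by_cases hij : i = j
    · subst hij
      rw [tuE_c2]
      have h4 := h2 _ (hI.subst _ (tuE_ren_subst (Equiv.swap i 0)) f hf)
      have h5 := tuE_ren_cf (Equiv.swap i 0) [i, i] f
      simp only [List.map_cons, List.map_nil, Equiv.swap_apply_left] at h5
      rwa [h5] at h4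
    · rw [tuE_c3 hij]
      obtain ⟨ρ, hρ0, hρ1⟩ : ∃ ρ : Equiv.Perm ℕ, ρ i = 0 ∧ ρ j = 1 := by
        have hj' : Equiv.swap i 0 j ≠ 0 := by
          intro h6
          have h7 : Equiv.swap i 0 j = Equiv.swap i 0 i := by
            rw [h6, Equiv.swap_apply_left]
          exact hij ((Equiv.swap i 0).injective h7).symm
        refine ⟨(Equiv.swap i 0).trans (Equiv.swap (Equiv.swap i 0 j) 1), ?_, ?_⟩
        · rw [Equiv.trans_apply, Equiv.swap_apply_left,
            Equiv.swap_apply_of_ne_of_ne (Ne.symm hj') (by norm_num)]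
        · rw [Equiv.trans_apply, Equiv.swap_apply_left]
      have h4 := h3 _ (hI.subst _ (tuE_ren_subst ρ) f hf)
      have h5 := tuE_ren_cf ρ [i, j] f
      have h6 := tuE_ren_cf ρ [j, i] f
      simp only [List.map_cons, List.map_nil, hρ0, hρ1] at h5 h6
      rwa [h5, h6] at h4

end ADM
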