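import Pool.Agent.ADM.Defs

/-!
# ADM-TypesL: linear algebra modulo `p`: at most one of the types L, R, T, M occurs
-/

namespace ADM

open AD ADN

private theorem tl_perm {Rl : (List (Fin 3) →₀ ℤ) → Prop}
    (hperm : ∀ (ρ : Equiv.Perm (Fin 3)) G, Rl G → Rl (G.mapDomain (List.map ρ)))
    {G : List (Fin 3) →₀ ℤ} (hG : Rl G) (ρ : Equiv.Perm (Fin 3)) :
    ∃ G', Rl G' ∧ ∀ w, G' w = G (w.map ρ) := by
  refine ⟨_, hperm ρ.symm G hG, fun w => ?_⟩
  have hinj : Function.Injective (List.map (ρ.symm : Fin 3 → Fin 3)) :=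
    List.map_injective_iff.2 ρ.symm.injective
  have h := Finsupp.mapDomain_apply hinj G (w.map ρ)
  have e : List.map ρ.symm (w.map ρ) = w := by
    rw [List.map_map]
    have e2 : (ρ.symm ∘ ρ : Fin 3 → Fin 3) = id := by
      funext i
      simp
    rw [e2, List.map_id]
  rw [e] at h
  exact h

private theorem tl_off {Rl : (List (Fin 3) →₀ ℤ) → Prop} {p : ℕ} (hp : p.Prime)
    (hadd : ∀ G G', Rl G → Rl G' → Rl (G + G')) (hsmul : ∀ (z : ℤ) G, Rl G → Rl (z • G))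
    (hperm : ∀ (ρ : Equiv.Perm (Fin 3)) G, Rl G → Rl (G.mapDomain (List.map ρ)))
    {G : List (Fin 3) →₀ ℤ} (hG : Rl G) {w : List (Fin 3)} (hw : ¬ Off Rl p w)
    (ρ ρ' : Equiv.Perm (Fin 3)) {v u v' u' : List (Fin 3)} (e1 : [0, 1, 2].map ρ = v)
    (e2 : w.map ρ = u) (e3 : [0, 1, 2].map ρ' = v') (e4 : w.map ρ' = u') {a b c d : ℤ}
    (ha : G v = a) (hb : G u = b) (hc : G v' = c) (hd : G u' = d) :
    (a : ZMod p) * d - b * c = 0 := by
  by_contra hne
  apply hw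
  have h0 : ¬ (p : ℤ) ∣ a * d - b * c := by
    intro h
    apply hne
    have h' := (ZMod.intCast_zmod_eq_zero_iff_dvd (a * d - b * c) p).2 h
    push_cast at h'
    exact h'
  have hcop : IsCoprime (p : ℤ) (a * d - b * c) :=
    (Nat.prime_iff_prime_int.1 hp).coprime_iff_not_dvd.2 h0
  obtain ⟨y, x, hxy⟩ := hcop
  obtain ⟨G1, hG1, g1⟩ := tl_perm hperm hG ρ
  obtain ⟨G2, hG2, g2⟩ := tl_perm hperm hG ρ'
  refine ⟨(x * d) • G1 + (-(x * b)) • G2, hadd _ _ (hsmul _ _ hG1) (hsmul _ _ hG2), ?_, ?_⟩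
  · rw [Finsupp.add_apply, Finsupp.smul_apply, Finsupp.smul_apply, g1, g2, e1, e3, ha, hc,
      smul_eq_mul, smul_eq_mul]
    refine ⟨-y, ?_⟩
    linarith
  · rw [Finsupp.add_apply, Finsupp.smul_apply, Finsupp.smul_apply, g1, g2, e2, e4, hb, hd,
      smul_eq_mul, smul_eq_mul]
    have e : x * d * b + -(x * b) * d = 0 := by ring
    rw [e]
    exact dvd_zero _

private def tlL {K : Type*} [Field K] (s₁ s₂ s₃ : K) : Prop := s₁ * (s₂ + s₃) = 0 ∧ s₂ ^ 2 = s₃ ^ 2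
private def tlR {K : Type*} [Field K] (s₁ s₂ s₃ : K) : Prop := s₃ * (s₁ + s₂) = 0 ∧ s₁ ^ 2 = s₂ ^ 2
private def tlM {K : Type*} [Field K] (s₁ s₂ s₃ : K) : Prop := s₂ * (s₃ - s₁) = 0 ∧ s₁ ^ 2 = s₃ ^ 2
private def tlT {K : Type*} [Field K] (s₁ s₂ s₃ : K) : Prop :=
  s₃ ^ 2 = -(s₁ * s₂) ∧ s₁ ^ 2 = -(s₂ * s₃) ∧ s₂ ^ 2 = s₁ * s₃
private def tlC {K : Type*} [Field K] (s₁ s₂ s₃ : K) : Prop := s₁ + s₂ = 0 ∧ s₃ - s₁ = 0 ∧ s₂ + s₃ = 0

private theorem tl_zero {K : Type*} [Field K] {s₁ s₂ s₃ : K} (h1 : s₁ = 0) (h2 : s₂ = 0)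
    (h3 : s₃ = 0) : tlC s₁ s₂ s₃ := by
  subst h1 h2 h3
  exact ⟨by simp, by simp, by simp⟩

private theorem tl_sq {K : Type*} [Field K] {x : K} (h : x ^ 2 = 0) : x = 0 :=
  pow_eq_zero_iff (two_ne_zero) |>.1 h

private theorem tl_LR {K : Type*} [Field K] {s₁ s₂ s₃ : K} (hL : tlL s₁ s₂ s₃)
    (hR : tlR s₁ s₂ s₃) : tlC s₁ s₂ s₃ := by
  obtain ⟨a, b⟩ := hL
  obtain ⟨c, d⟩ := hR
  rcases mul_eq_zero.1 a with h | h
  · have h2 : s₂ = 0 := tl_sq (by rw [← d, h]; ring)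
    exact tl_zero h h2 (tl_sq (by rw [← b, h2]; ring))
  · rcases mul_eq_zero.1 c with h' | h'
    · have h2 : s₂ = 0 := by linear_combination h - h'
      exact tl_zero (tl_sq (by rw [d, h2]; ring)) h2 h'
    · exact ⟨h', by linear_combination h - h', h⟩

private theorem tl_LM {K : Type*} [Field K] {s₁ s₂ s₃ : K} (hL : tlL s₁ s₂ s₃)
    (hR : tlM s₁ s₂ s₃) : tlC s₁ s₂ s₃ := by
  obtain ⟨a, b⟩ := hL
  obtain ⟨c, d⟩ := hR
  rcases mul_eq_zero.1 a with h | h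
  · have h2 : s₃ = 0 := tl_sq (by rw [← d, h]; ring)
    exact tl_zero h (tl_sq (by rw [b, h2]; ring)) h2
  · rcases mul_eq_zero.1 c with h' | h'
    · have h2 : s₃ = 0 := by linear_combination h - h'
      exact tl_zero (tl_sq (by rw [d, h2]; ring)) h' h2
    · exact ⟨by linear_combination h - h', h', h⟩

private theorem tl_LT {K : Type*} [Field K] {s₁ s₂ s₃ : K} (hL : tlL s₁ s₂ s₃)
    (hR : tlT s₁ s₂ s₃) : tlC s₁ s₂ s₃ := by
  obtain ⟨a, b⟩ := hL
  obtain ⟨c, d, e⟩ := hR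
  rcases mul_eq_zero.1 a with h | h
  · have h2 : s₃ = 0 := tl_sq (by rw [c, h]; ring)
    exact tl_zero h (tl_sq (by rw [b, h2]; ring)) h2
  · have h3 : s₂ * (s₁ + s₂) = 0 := by
      have h4 : s₃ = -s₂ := by linear_combination h
      rw [h4] at c
      linear_combination c
    rcases mul_eq_zero.1 h3 with h' | h'
    · have h2 : s₃ = 0 := by linear_combination h - h'
      exact tl_zero (tl_sq (by rw [d, h2]; ring)) h' h2
    · exact ⟨h', by linear_combination h - h', h⟩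

private theorem tl_RM {K : Type*} [Field K] {s₁ s₂ s₃ : K} (hL : tlR s₁ s₂ s₃)
    (hR : tlM s₁ s₂ s₃) : tlC s₁ s₂ s₃ := by
  obtain ⟨a, b⟩ := hL
  obtain ⟨c, d⟩ := hR
  rcases mul_eq_zero.1 a with h | h
  · have h2 : s₁ = 0 := tl_sq (by rw [d, h]; ring)
    exact tl_zero h2 (tl_sq (by rw [← b, h2]; ring)) h
  · rcases mul_eq_zero.1 c with h' | h'
    · have h2 : s₁ = 0 := by linear_combination h - h'
      exact tl_zero h2 h' (tl_sq (by rw [← d, h2]; ring))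
    · exact ⟨h, h', by linear_combination h + h'⟩

private theorem tl_RT {K : Type*} [Field K] {s₁ s₂ s₃ : K} (hL : tlR s₁ s₂ s₃)
    (hR : tlT s₁ s₂ s₃) : tlC s₁ s₂ s₃ := by
  obtain ⟨a, b⟩ := hL
  obtain ⟨c, d, e⟩ := hR
  rcases mul_eq_zero.1 a with h | h
  · exact tl_zero (tl_sq (by rw [d, h]; ring)) (tl_sq (by rw [e, h]; ring)) h
  · have h3 : s₁ * (s₃ - s₁) = 0 := by
      have h4 : s₂ = -s₁ := by linear_combination h
      rw [h4] at e
      linear_combination -e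
    rcases mul_eq_zero.1 h3 with h' | h'
    · have h2 : s₂ = 0 := by linear_combination h - h'
      exact tl_zero h' h2 (tl_sq (by rw [c, h2]; ring))
    · exact ⟨h, h', by linear_combination h + h'⟩

private theorem tl_MT {K : Type*} [Field K] {s₁ s₂ s₃ : K} (hL : tlM s₁ s₂ s₃)
    (hR : tlT s₁ s₂ s₃) : tlC s₁ s₂ s₃ := by
  obtain ⟨a, b⟩ := hL
  obtain ⟨c, d, e⟩ := hR
  rcases mul_eq_zero.1 a with h | h
  · exact tl_zero (tl_sq (by rw [d, h]; ring)) h (tl_sq (by rw [c, h]; ring))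
  · have h3 : s₁ * (s₁ + s₂) = 0 := by
      have h4 : s₃ = s₁ := by linear_combination h
      rw [h4] at c
      linear_combination c
    rcases mul_eq_zero.1 h3 with h' | h'
    · have h2 : s₃ = 0 := by linear_combination h + h'
      exact tl_zero h' (tl_sq (by rw [e, h2]; ring)) h2
    · exact ⟨h', h, by linear_combination h + h'⟩

theorem typesL {Rl : (List (Fin 3) →₀ ℤ) → Prop} {p : ℕ} (hp : p.Prime)
    (hadd : ∀ G G', Rl G → Rl G' → Rl (G + G')) (hsmul : ∀ (z : ℤ) G, Rl G → Rl (z • G))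
    (hperm : ∀ (ρ : Equiv.Perm (Fin 3)) G, Rl G → Rl (G.mapDomain (List.map ρ)))
    (t₁ t₂ t₃ : ℤ) (G : List (Fin 3) →₀ ℤ) (hG : Rl G)
    (h1 : G [0, 1, 2] = t₁) (h2 : G [1, 0, 2] = -t₁) (h3 : G [0, 2, 1] = t₂)
    (h4 : G [1, 2, 0] = -t₂) (h5 : G [2, 0, 1] = t₃) (h6 : G [2, 1, 0] = -t₃)
    (h : ¬ ((p : ℤ) ∣ t₁ + t₂ ∧ (p : ℤ) ∣ t₃ - t₁ ∧ (p : ℤ) ∣ t₂ + t₃)) : Types Rl p := by
  have : Fact p.Prime := ⟨hp⟩
  have hC : ¬ tlC (t₁ : ZMod p) t₂ t₃ := by
    rintro ⟨a, b, c⟩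
    apply h
    refine ⟨?_, ?_, ?_⟩
    · rw [← ZMod.intCast_zmod_eq_zero_iff_dvd]
      push_cast
      exact a
    · rw [← ZMod.intCast_zmod_eq_zero_iff_dvd]
      push_cast
      exact b
    · rw [← ZMod.intCast_zmod_eq_zero_iff_dvd]
      push_cast
      exact c
  have hL : ¬ Off Rl p [1, 0, 2] → tlL (t₁ : ZMod p) t₂ t₃ := by
    intro hw
    have m1 := tl_off hp hadd hsmul hperm hG hw 1 (Equiv.swap 1 2) (v := [0, 1, 2])
      (u := [1, 0, 2]) (v' := [0, 2, 1]) (u' := [2, 0, 1]) (by decide) (by decide) (by decide)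
      (by decide) h1 h2 h3 h5
    have m2 := tl_off hp hadd hsmul hperm hG hw (Equiv.swap 1 2) (finRotate 3).symm
      (v := [0, 2, 1]) (u := [2, 0, 1]) (v' := [2, 0, 1]) (u' := [0, 2, 1]) (by decide)
      (by decide) (by decide) (by decide) h3 h5 h5 h3
    push_cast at m1 m2
    exact ⟨by linear_combination m1, by linear_combination m2⟩
  have hR : ¬ Off Rl p [0, 2, 1] → tlR (t₁ : ZMod p) t₂ t₃ := by
    intro hw
    have m1 := tl_off hp hadd hsmul hperm hG hw (finRotate 3).symm 1 (v := [2, 0, 1])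
      (u := [2, 1, 0]) (v' := [0, 1, 2]) (u' := [0, 2, 1]) (by decide) (by decide) (by decide)
      (by decide) h5 h6 h1 h3
    have m2 := tl_off hp hadd hsmul hperm hG hw 1 (Equiv.swap 1 2)
      (v := [0, 1, 2]) (u := [0, 2, 1]) (v' := [0, 2, 1]) (u' := [0, 1, 2]) (by decide)
      (by decide) (by decide) (by decide) h1 h3 h3 h1
    push_cast at m1 m2
    exact ⟨by linear_combination m1, by linear_combination m2⟩
  have hM : ¬ Off Rl p [2, 1, 0] → tlM (t₁ : ZMod p) t₂ t₃ := by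
    intro hw
    have m1 := tl_off hp hadd hsmul hperm hG hw 1 (Equiv.swap 1 2) (v := [0, 1, 2])
      (u := [2, 1, 0]) (v' := [0, 2, 1]) (u' := [1, 2, 0]) (by decide) (by decide) (by decide)
      (by decide) h1 h6 h3 h4
    have m2 := tl_off hp hadd hsmul hperm hG hw 1 (finRotate 3).symm
      (v := [0, 1, 2]) (u := [2, 1, 0]) (v' := [2, 0, 1]) (u' := [1, 0, 2]) (by decide)
      (by decide) (by decide) (by decide) h1 h6 h5 h2
    push_cast at m1 m2
    exact ⟨by linear_combination m1, by linear_combination -m2⟩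
  have hT : ¬ Off Rl p [2, 0, 1] → tlT (t₁ : ZMod p) t₂ t₃ := by
    intro hw
    have m1 := tl_off hp hadd hsmul hperm hG hw 1 (finRotate 3).symm (v := [0, 1, 2])
      (u := [2, 0, 1]) (v' := [2, 0, 1]) (u' := [1, 2, 0]) (by decide) (by decide) (by decide)
      (by decide) h1 h5 h5 h4
    have m2 := tl_off hp hadd hsmul hperm hG hw 1 (finRotate 3)
      (v := [0, 1, 2]) (u := [2, 0, 1]) (v' := [1, 2, 0]) (u' := [0, 1, 2]) (by decide)
      (by decide) (by decide) (by decide) h1 h5 h4 h1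
    have m3 := tl_off hp hadd hsmul hperm hG hw (finRotate 3).symm (finRotate 3)
      (v := [2, 0, 1]) (u := [1, 2, 0]) (v' := [1, 2, 0]) (u' := [0, 1, 2]) (by decide)
      (by decide) (by decide) (by decide) h5 h4 h4 h1
    push_cast at m1 m2 m3
    exact ⟨by linear_combination -m1, by linear_combination m2, by linear_combination -m3⟩
  have hT' : ¬ Off Rl p [1, 2, 0] → tlT (t₁ : ZMod p) t₂ t₃ := by
    intro hw
    have m1 := tl_off hp hadd hsmul hperm hG hw (finRotate 3) (finRotate 3).symm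
      (v := [1, 2, 0]) (u := [2, 0, 1]) (v' := [2, 0, 1]) (u' := [0, 1, 2]) (by decide)
      (by decide) (by decide) (by decide) h4 h5 h5 h1
    have m2 := tl_off hp hadd hsmul hperm hG hw 1 (finRotate 3).symm
      (v := [0, 1, 2]) (u := [1, 2, 0]) (v' := [2, 0, 1]) (u' := [0, 1, 2]) (by decide)
      (by decide) (by decide) (by decide) h1 h4 h5 h1
    have m3 := tl_off hp hadd hsmul hperm hG hw 1 (finRotate 3)
      (v := [0, 1, 2]) (u := [1, 2, 0]) (v' := [1, 2, 0]) (u' := [2, 0, 1]) (by decide)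
      (by decide) (by decide) (by decide) h1 h4 h4 h5
    push_cast at m1 m2 m3
    exact ⟨by linear_combination -m1, by linear_combination m2, by linear_combination -m3⟩
  by_cases cL : Off Rl p [1, 0, 2]
  · by_cases cR : Off Rl p [0, 2, 1]
    · by_cases cM : Off Rl p [2, 1, 0]
      · exact Or.inr (Or.inr (Or.inl ⟨cL, cR, cM⟩))
      · exact Or.inr (Or.inr (Or.inr ⟨cL, cR, by_contra fun c => hC (tl_MT (hM cM) (hT c)),
          by_contra fun c => hC (tl_MT (hM cM) (hT' c))⟩))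
    · exact Or.inr (Or.inl ⟨cL, by_contra fun c => hC (tl_RT (hR cR) (hT c)),
        by_contra fun c => hC (tl_RT (hR cR) (hT' c)),
        by_contra fun c => hC (tl_RM (hR cR) (hM c))⟩)
  · exact Or.inl ⟨by_contra fun c => hC (tl_LR (hL cL) (hR c)),
      by_contra fun c => hC (tl_LT (hL cL) (hT c)),
      by_contra fun c => hC (tl_LT (hL cL) (hT' c)),
      by_contra fun c => hC (tl_LM (hL cL) (hM c))⟩

end ADM
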