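import Pool.Agent.ADM.Defs

/-!
# ADM-Pull

The structure `Ctx` can be pulled back along a ring homomorphism which is bijective on the ideals.
-/

namespace ADM

open AD ADN

private theorem pull_ord_pos {p : ℕ} (hp : p.Prime) {r : ℕ} (hr : 1 ≤ r) : 1 ≤ ord p r := by
  unfold ord
  split_ifs with h
  · exact le_refl _
  · have h2 : 2 ≤ r := by omega
    have h3 : p ^ 2 ≤ p ^ r := Nat.pow_le_pow_right hp.pos h2
    have h4 := hp.two_le
    have h5 : 4 ≤ p ^ 2 := by nlinarith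
    omega

private theorem pull_prod {U' : Type} [Ring U'] {A' : AddSubgroup U'} (hr : ∀ u a, a ∈ A' → a * u ∈ A')
    (l : List U') (h : 1 ≤ l.length) (hl : ∀ x ∈ l, x ∈ A') : l.prod ∈ A' := by
  cases l with
  | nil => simp at h
  | cons a l =>
    rw [List.prod_cons]
    exact hr _ _ (hl a (List.mem_cons_self))

theorem pull {U U' : Type} [Ring U] [Ring U'] (ρ : U' →+* U) {Q : Type} [Fintype Q] (C : Ctx U Q)
    (A' : AddSubgroup U') (hl : ∀ u a, a ∈ A' → u * a ∈ A') (hr : ∀ u a, a ∈ A' → a * u ∈ A')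
    (hρ : ∀ a, a ∈ A' → ρ a ∈ C.A) (hinj : ∀ a, a ∈ A' → ρ a = 0 → a = 0)
    (hsurj : ∀ a, a ∈ C.A → ∃ a' ∈ A', ρ a' = a) : ∃ C' : Ctx U' Q, C'.p = C.p ∧ C'.A = A' := by
  classical
  have uq : ∀ x, x ∈ A' → ∀ y, y ∈ A' → ρ x = ρ y → x = y := by
    intro x hx y hy hxy
    have h := hinj (x - y) (A'.sub_mem hx hy) (by rw [map_sub, hxy, sub_self])
    exact sub_eq_zero.1 h
  have hex : ∃ s : U → U', ∀ a, a ∈ C.A → s a ∈ A' ∧ ρ (s a) = a := by
    refine ⟨fun a => if h : a ∈ C.A then (hsurj a h).choose else 0, fun a ha => ?_⟩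
    simp only [dif_pos ha]
    exact ⟨(hsurj a ha).choose_spec.1, (hsurj a ha).choose_spec.2⟩
  obtain ⟨s, hs⟩ := hex
  have hwA : ∀ i, i ≠ C.o → C.w i ∈ C.A := fun i hi => by
    rw [← C.w_left]; exact C.A_right _ _ (C.e_mem i hi)
  have hEA : ∀ i j, i ≠ C.o → C.E i j ∈ C.A := fun i j hi => by
    rw [← C.E_left]; exact C.A_right _ _ (C.e_mem i hi)
  have hwo : C.w C.o = C.e C.o := by
    have h := C.w_pow C.o
    rw [C.r_o] at h
    simpa [ord] using h
  let e' : Q → U' := fun i => if i = C.o then 1 - ∑ j ∈ Finset.univ.erase C.o, s (C.e j) else s (C.e i)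
  let w' : Q → U' := fun i => if i = C.o then e' C.o else s (C.w i)
  let E' : Q → Q → U' := fun i j => if i = C.o then (if j = C.o then e' C.o else 0) else s (C.E i j)
  have e'_o : e' C.o = 1 - ∑ j ∈ Finset.univ.erase C.o, s (C.e j) := if_pos rfl
  have e'_ne : ∀ i, i ≠ C.o → e' i = s (C.e i) := fun i hi => if_neg hi
  have w'_o : w' C.o = e' C.o := if_pos rfl
  have w'_ne : ∀ i, i ≠ C.o → w' i = s (C.w i) := fun i hi => if_neg hi
  have E'_oo : E' C.o C.o = e' C.o := by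
    show (if C.o = C.o then (if C.o = C.o then e' C.o else 0) else s (C.E C.o C.o)) = _
    rw [if_pos rfl, if_pos rfl]
  have E'_oj : ∀ j, j ≠ C.o → E' C.o j = 0 := fun j hj => by
    show (if C.o = C.o then (if j = C.o then e' C.o else 0) else s (C.E C.o j)) = _
    rw [if_pos rfl, if_neg hj]
  have E'_ne : ∀ i j, i ≠ C.o → E' i j = s (C.E i j) := fun i j hi => if_neg hi
  have e'A : ∀ i, i ≠ C.o → e' i ∈ A' := fun i hi => by
    rw [e'_ne i hi]; exact (hs _ (C.e_mem i hi)).1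
  have w'A : ∀ i, i ≠ C.o → w' i ∈ A' := fun i hi => by
    rw [w'_ne i hi]; exact (hs _ (hwA i hi)).1
  have E'A : ∀ i j, i ≠ C.o → E' i j ∈ A' := fun i j hi => by
    rw [E'_ne i j hi]; exact (hs _ (hEA i j hi)).1
  have ρe : ∀ i, ρ (e' i) = C.e i := by
    intro i
    by_cases hi : i = C.o
    · rw [hi, e'_o, map_sub, map_one, map_sum]
      have h1 : ∑ j ∈ Finset.univ.erase C.o, ρ (s (C.e j)) = ∑ j ∈ Finset.univ.erase C.o, C.e j :=
        Finset.sum_congr rfl fun j hj => (hs _ (C.e_mem j (Finset.ne_of_mem_erase hj))).2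
      rw [h1, ← C.coi.complete, ← Finset.add_sum_erase Finset.univ C.e (Finset.mem_univ C.o), add_sub_cancel_right]
    · rw [e'_ne i hi]; exact (hs _ (C.e_mem i hi)).2
  have ρw : ∀ i, ρ (w' i) = C.w i := by
    intro i
    by_cases hi : i = C.o
    · rw [hi, w'_o, ρe, hwo]
    · rw [w'_ne i hi]; exact (hs _ (hwA i hi)).2
  have ρE : ∀ i j, ρ (E' i j) = C.E i j := by
    intro i j
    by_cases hi : i = C.o
    · by_cases hj : j = C.o
      · rw [hi, hj, E'_oo, ρe, C.E_self]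
      · rw [hi, E'_oj j hj, map_zero]
        exact (C.E_ne _ _ (fun h => hj (C.blk_o j h.symm))).symm
    · rw [E'_ne i j hi]; exact (hs _ (hEA i j hi)).2
  have hcomp : ∑ i, e' i = 1 := by
    rw [← Finset.add_sum_erase Finset.univ e' (Finset.mem_univ C.o), e'_o]
    have h1 : ∑ j ∈ Finset.univ.erase C.o, e' j = ∑ j ∈ Finset.univ.erase C.o, s (C.e j) :=
      Finset.sum_congr rfl fun j hj => e'_ne j (Finset.ne_of_mem_erase hj)
    rw [h1, sub_add_cancel]
  have hortho : ∀ i j, i ≠ j → e' i * e' j = 0 := by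
    intro i j hij
    refine hinj _ ?_ ?_
    · by_cases hi : i = C.o
      · refine hl _ _ (e'A j ?_)
        rintro rfl
        exact hij hi
      · exact hr _ _ (e'A i hi)
    · rw [map_mul, ρe, ρe]
      exact C.coi.ortho hij
  have hidem : ∀ i, e' i * e' i = e' i := by
    intro i
    have h1 : e' i * ∑ j, e' j = e' i := by rw [hcomp, mul_one]
    rw [Finset.mul_sum, Finset.sum_eq_single i] at h1
    · exact h1
    · intro j _ hj
      exact hortho i j (Ne.symm hj)
    · intro h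
      exact absurd (Finset.mem_univ i) h
  have w'pow : ∀ i, i ≠ C.o → ∀ m, 1 ≤ m → w' i ^ m ∈ A' := by
    intro i hi m hm
    obtain ⟨k, rfl⟩ : ∃ k, m = k + 1 := ⟨m - 1, by omega⟩
    rw [pow_succ]
    exact hl _ _ (w'A i hi)
  refine ⟨{
    o := C.o
    p := C.p
    K := C.K
    N := C.N + 1
    e := e'
    A := A'
    J := A' ⊓ C.J.comap ρ.toAddMonoidHom
    hp := C.hp
    coi := ?_
    A_left := hl
    A_right := hr
    J_left := ?_
    J_right := ?_
    J_le := inf_le_left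
    e_mem := e'A
    pJ := ?_
    tors := ?_
    nil := ?_
    blk := C.blk
    blk_o := C.blk_o
    r := C.r
    r_pos := C.r_pos
    r_o := C.r_o
    r_blk := C.r_blk
    w := w'
    E := E'
    E_self := ?_
    E_ne := ?_
    E_mul := ?_
    E_left := ?_
    E_right := ?_
    w_left := ?_
    w_right := ?_
    w_E := ?_
    w_pow := ?_
    unit := ?_
    hom := ?_
    dec := ?_ }, rfl, rfl⟩
  · exact { idem := hidem, ortho := fun i j hij => hortho i j hij, complete := hcomp }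
  · rintro u a ⟨ha, ha'⟩
    refine ⟨hl u a ha, ?_⟩
    show ρ (u * a) ∈ C.J
    rw [map_mul]
    exact C.J_left _ _ ha'
  · rintro u a ⟨ha, ha'⟩
    refine ⟨hr u a ha, ?_⟩
    show ρ (a * u) ∈ C.J
    rw [map_mul]
    exact C.J_right _ _ ha'
  · intro a ha
    refine ⟨A'.zsmul_mem ha _, ?_⟩
    show ρ ((C.p : ℤ) • a) ∈ C.J
    rw [map_zsmul]
    exact C.pJ _ (hρ a ha)
  · intro a ha
    refine hinj _ (A'.zsmul_mem ha _) ?_
    rw [map_zsmul]
    exact C.tors _ (hρ a ha)
  · intro l hlen hall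
    refine hinj _ (pull_prod hr l (by omega) fun x hx => (hall x hx).1) ?_
    rw [map_list_prod]
    refine C.nil _ (by rw [List.length_map]; omega) ?_
    intro x hx
    obtain ⟨y, hy, rfl⟩ := List.mem_map.1 hx
    exact (hall y hy).2
  · intro i
    by_cases hi : i = C.o
    · rw [hi, E'_oo]
    · rw [E'_ne i i hi, e'_ne i hi, C.E_self]
  · intro i j hij
    by_cases hi : i = C.o
    · subst hi
      exact E'_oj j (fun h => hij (by rw [h]))
    · exact hinj _ (E'A i j hi) (by rw [ρE, C.E_ne i j hij])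
  · intro i j k hij hjk
    by_cases hi : i = C.o
    · subst hi
      have hj := C.blk_o j hij.symm
      subst hj
      have hk := C.blk_o k hjk.symm
      subst hk
      rw [E'_oo, hidem]
    · refine uq _ (hr _ _ (E'A i j hi)) _ (E'A i k hi) ?_
      rw [map_mul, ρE, ρE, ρE, C.E_mul i j k hij hjk]
  · intro i j
    by_cases hi : i = C.o
    · subst hi
      by_cases hj : j = C.o
      · subst hj
        rw [E'_oo, hidem]
      · rw [E'_oj j hj, mul_zero]
    · refine uq _ (hl _ _ (E'A i j hi)) _ (E'A i j hi) ?_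
      rw [map_mul, ρe, ρE, C.E_left]
  · intro i j
    by_cases hi : i = C.o
    · subst hi
      by_cases hj : j = C.o
      · subst hj
        rw [E'_oo, hidem]
      · rw [E'_oj j hj, zero_mul]
    · refine uq _ (hr _ _ (E'A i j hi)) _ (E'A i j hi) ?_
      rw [map_mul, ρe, ρE, C.E_right]
  · intro i
    by_cases hi : i = C.o
    · subst hi
      rw [w'_o, hidem]
    · refine uq _ (hl _ _ (w'A i hi)) _ (w'A i hi) ?_
      rw [map_mul, ρe, ρw, C.w_left]
  · intro i
    by_cases hi : i = C.o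
    · subst hi
      rw [w'_o, hidem]
    · refine uq _ (hr _ _ (w'A i hi)) _ (w'A i hi) ?_
      rw [map_mul, ρe, ρw, C.w_right]
  · intro i j hij
    by_cases hi : i = C.o
    · subst hi
      have hj := C.blk_o j hij.symm
      subst hj
      rw [E'_oo, w'_o]
    · refine uq _ (hl _ _ (E'A i j hi)) _ (hr _ _ (E'A i j hi)) ?_
      rw [map_mul, map_mul, ρw, ρE, ρw, C.w_E i j hij]
  · intro i
    by_cases hi : i = C.o
    · subst hi
      rw [C.r_o, w'_o]
      simp [ord]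
    · refine uq _ (w'pow i hi _ (pull_ord_pos C.hp (C.r_pos i))) _ (e'A i hi) ?_
      rw [map_pow, ρw, ρe, C.w_pow]
  · intro i m hm
    by_cases hi : i = C.o
    · subst hi
      exfalso
      apply hm
      rw [C.r_o]
      simp [ord]
    · obtain ⟨u, hu⟩ := C.unit i m hm
      have hA : C.e i * u ∈ C.A := C.A_right _ _ (C.e_mem i hi)
      refine ⟨s (C.e i * u), ?_⟩
      refine uq _ (hr _ _ (hs _ hA).1) _ (e'A i hi) ?_
      rw [map_mul, (hs _ hA).2, map_sub, map_pow, ρw, ρe, mul_assoc, hu]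
      exact C.coi.idem i
  · rintro i x ⟨hx, hxJ⟩ h1 h2
    have h1' : C.e i * ρ x = ρ x := by rw [← ρe, ← map_mul, h1]
    have h2' : ρ x * C.e i = ρ x := by rw [← ρe, ← map_mul, h2]
    obtain ⟨y, hy, hsum⟩ := C.hom i (ρ x) hxJ h1' h2'
    have hyA : ∀ σ, y σ ∈ C.A := fun σ => C.J_le (hy σ).1
    refine ⟨fun σ => s (y σ), fun σ => ⟨⟨(hs _ (hyA σ)).1, ?_⟩, ?_, ?_, ?_⟩, ?_⟩
    · show ρ (s (y σ)) ∈ C.J
      rw [(hs _ (hyA σ)).2]
      exact (hy σ).1
    · refine uq _ (hl _ _ (hs _ (hyA σ)).1) _ (hs _ (hyA σ)).1 ?_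
      rw [map_mul, ρe, (hs _ (hyA σ)).2, (hy σ).2.1]
    · refine uq _ (hr _ _ (hs _ (hyA σ)).1) _ (hs _ (hyA σ)).1 ?_
      rw [map_mul, ρe, (hs _ (hyA σ)).2, (hy σ).2.2.1]
    · refine uq _ (hr _ _ (hs _ (hyA σ)).1) _ (hl _ _ (hs _ (hyA σ)).1) ?_
      rw [map_mul, map_mul, map_pow, ρw, (hs _ (hyA σ)).2, (hy σ).2.2.2]
    · refine uq _ hx _ (A'.sum_mem fun σ _ => (hs _ (hyA σ)).1) ?_
      rw [map_sum, hsum]
      exact Finset.sum_congr rfl fun σ _ => ((hs _ (hyA σ)).2).symm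
  · intro a ha
    obtain ⟨c, hc, hdec⟩ := C.dec (ρ a) (hρ a ha)
    refine ⟨c, hc, ?_, ?_⟩
    · refine A'.sub_mem ha (A'.sum_mem fun i _ => A'.sum_mem fun j _ => A'.sum_mem fun m _ => ?_)
      by_cases hi : i = C.o
      · subst hi
        rw [hc, zero_smul]
        exact A'.zero_mem
      · exact A'.zsmul_mem (hr _ _ (E'A i j hi)) _
    · show ρ _ ∈ C.J
      simp only [map_sub, map_sum, map_zsmul, map_mul, map_pow, ρE, ρw]
      exact hdec

end ADM
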