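import Pool.Agent.ADM.ExC
import Pool.Agent.ADM.Pull

/-!
# ADM-ExCtx

The structure `Ctx` for the unitization of a finite nonunital ring.

PLAN.  As in `ADN.finDec` (Pool/Agent/ADN/FinDec.lean): `R` is a `ZMod (p ^ K)`-module (`AddCommGroup.zmodModule`), `U = Unitization (ZMod (p ^ K)) R`
is a finite unital ring with `p ^ K • 1 = 0`, `A = {u | u.fst = 0}` an ideal (copy these parts).  `exC` gives `Q` and `C : Ctx U Q` with `C.A = A`.
`U' = Unitization ℤ R`, `A' = {u | u.fst = 0}`, `ρ : U' →+* U`, `ρ u = inl (u.fst : ZMod (p ^ K)) + inr u.snd` (a ring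
homomorphism: the scalars act by the same integer multiples); `pull`.
-/

namespace ADM

open AD ADN

theorem exCtx (p K : ℕ) (hp : p.Prime) (R : Type) [NonUnitalRing R] [Finite R]
    (hR : ∀ x : R, (p ^ K) • x = 0) :
    ∃ (Q : Type) (_ : Fintype Q) (C : Ctx (Unitization ℤ R) Q), C.p = p ∧
      ∀ x, x ∈ C.A ↔ ∃ y : R, x = (y : Unitization ℤ R) := by
  classical
  have hq : NeZero (p ^ K) := ⟨pow_ne_zero K hp.ne_zero⟩
  let iM : Module (ZMod (p ^ K)) R := AddCommGroup.zmodModule hR
  have hcast : ∀ (m : ℤ) (x : R), ((m : ℤ) : ZMod (p ^ K)) • x = m • x := fun m x =>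
    Int.cast_smul_eq_zsmul (ZMod (p ^ K)) m x
  have iT : IsScalarTower (ZMod (p ^ K)) R R := ⟨fun c x y => by
    obtain ⟨m, rfl⟩ := ZMod.intCast_surjective c
    rw [hcast, hcast, smul_eq_mul, smul_eq_mul, smul_mul_assoc]⟩
  have iC : SMulCommClass (ZMod (p ^ K)) R R := ⟨fun c x y => by
    obtain ⟨m, rfl⟩ := ZMod.intCast_surjective c
    rw [hcast, hcast, smul_eq_mul, smul_eq_mul, mul_smul_comm]⟩
  have iF : Finite (Unitization (ZMod (p ^ K)) R) :=
    Finite.of_equiv (ZMod (p ^ K) × R) Unitization.equiv.symm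
  let A : AddSubgroup (Unitization (ZMod (p ^ K)) R) :=
    { carrier := {u | u.fst = 0}
      add_mem' := by
        intro a b ha hb
        show (a + b).fst = 0
        rw [Unitization.fst_add, show a.fst = 0 from ha, show b.fst = 0 from hb, add_zero]
      zero_mem' := Unitization.fst_zero
      neg_mem' := by
        intro a ha
        show (-a).fst = 0
        rw [Unitization.fst_neg, show a.fst = 0 from ha, neg_zero] }
  have hA : ∀ u : Unitization (ZMod (p ^ K)) R, u ∈ A ↔ u.fst = 0 := fun u => Iff.rfl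
  have hinr : ∀ u ∈ A, u = ((u.snd : R) : Unitization (ZMod (p ^ K)) R) := by
    intro u hu
    apply Unitization.ext
    · rw [Unitization.fst_inr]
      exact hu
    · rw [Unitization.snd_inr]
  have hl : ∀ u, ∀ a, a ∈ A → u * a ∈ A := by
    intro u a ha
    rw [hA, Unitization.fst_mul, (hA a).1 ha, mul_zero]
  have hr : ∀ u, ∀ a, a ∈ A → a * u ∈ A := by
    intro u a ha
    rw [hA, Unitization.fst_mul, (hA a).1 ha, zero_mul]
  have hU : ((p : ℤ) ^ K) • (1 : Unitization (ZMod (p ^ K)) R) = 0 := by
    apply Unitization.ext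
    · rw [Unitization.fst_smul, Unitization.fst_one, Unitization.fst_zero, zsmul_eq_mul, mul_one]
      have h := ZMod.natCast_self (p ^ K)
      rw [← h]
      push_cast
      rfl
    · rw [Unitization.snd_smul, Unitization.snd_one, smul_zero, Unitization.snd_zero]
  obtain ⟨Q, iQ, C, hCp, hCA⟩ := exC p K hp (Unitization (ZMod (p ^ K)) R) hU A hl hr
  -- the ideal of the integral unitization
  let A' : AddSubgroup (Unitization ℤ R) :=
    { carrier := {u | u.fst = 0}
      add_mem' := by
        intro a b ha hb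
        show (a + b).fst = 0
        rw [Unitization.fst_add, show a.fst = 0 from ha, show b.fst = 0 from hb, add_zero]
      zero_mem' := Unitization.fst_zero
      neg_mem' := by
        intro a ha
        show (-a).fst = 0
        rw [Unitization.fst_neg, show a.fst = 0 from ha, neg_zero] }
  have hA' : ∀ u : Unitization ℤ R, u ∈ A' ↔ u.fst = 0 := fun u => Iff.rfl
  let g : Unitization ℤ R → Unitization (ZMod (p ^ K)) R := fun u =>
    Unitization.inl ((u.fst : ℤ) : ZMod (p ^ K)) + ((u.snd : R) : Unitization (ZMod (p ^ K)) R)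
  have hg1 : ∀ u, (g u).fst = ((u.fst : ℤ) : ZMod (p ^ K)) := by
    intro u
    show (Unitization.inl ((u.fst : ℤ) : ZMod (p ^ K)) +
        ((u.snd : R) : Unitization (ZMod (p ^ K)) R)).fst = _
    rw [Unitization.fst_add, Unitization.fst_inl, Unitization.fst_inr, add_zero]
  have hg2 : ∀ u, (g u).snd = u.snd := by
    intro u
    show (Unitization.inl ((u.fst : ℤ) : ZMod (p ^ K)) +
        ((u.snd : R) : Unitization (ZMod (p ^ K)) R)).snd = _
    rw [Unitization.snd_add, Unitization.snd_inl, Unitization.snd_inr, zero_add]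
  let ρ : Unitization ℤ R →+* Unitization (ZMod (p ^ K)) R :=
    { toFun := g
      map_one' := by
        apply Unitization.ext
        · rw [hg1, Unitization.fst_one, Unitization.fst_one, Int.cast_one]
        · rw [hg2, Unitization.snd_one, Unitization.snd_one]
      map_mul' := by
        intro x y
        apply Unitization.ext
        · rw [hg1, Unitization.fst_mul, Unitization.fst_mul, hg1, hg1, Int.cast_mul]
        · rw [hg2, Unitization.snd_mul, Unitization.snd_mul, hg1, hg1, hg2, hg2, hcast, hcast]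
      map_zero' := by
        apply Unitization.ext
        · rw [hg1, Unitization.fst_zero, Unitization.fst_zero, Int.cast_zero]
        · rw [hg2, Unitization.snd_zero, Unitization.snd_zero]
      map_add' := by
        intro x y
        apply Unitization.ext
        · rw [hg1, Unitization.fst_add, Unitization.fst_add, hg1, hg1, Int.cast_add]
        · rw [hg2, Unitization.snd_add, Unitization.snd_add, hg2, hg2] }
  have hρ1 : ∀ u, (ρ u).fst = ((u.fst : ℤ) : ZMod (p ^ K)) := hg1
  have hρ2 : ∀ u, (ρ u).snd = u.snd := hg2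
  have hl' : ∀ u, ∀ a, a ∈ A' → u * a ∈ A' := by
    intro u a ha
    rw [hA', Unitization.fst_mul, (hA' a).1 ha, mul_zero]
  have hr' : ∀ u, ∀ a, a ∈ A' → a * u ∈ A' := by
    intro u a ha
    rw [hA', Unitization.fst_mul, (hA' a).1 ha, zero_mul]
  have hρA : ∀ a, a ∈ A' → ρ a ∈ C.A := by
    intro a ha
    rw [hCA, hA, hρ1, (hA' a).1 ha, Int.cast_zero]
  have hinj : ∀ a, a ∈ A' → ρ a = 0 → a = 0 := by
    intro a ha h0
    apply Unitization.ext
    · rw [(hA' a).1 ha, Unitization.fst_zero]
    · rw [← hρ2 a, h0, Unitization.snd_zero, Unitization.snd_zero]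
  have hsurj : ∀ a, a ∈ C.A → ∃ a' ∈ A', ρ a' = a := by
    intro a ha
    rw [hCA] at ha
    refine ⟨((a.snd : R) : Unitization ℤ R), ?_, ?_⟩
    · rw [hA', Unitization.fst_inr]
    · apply Unitization.ext
      · rw [hρ1, Unitization.fst_inr, Int.cast_zero]
        exact ((hA a).1 ha).symm
      · rw [hρ2, Unitization.snd_inr]
  obtain ⟨C', h1, h2⟩ := pull (U := Unitization (ZMod (p ^ K)) R) (U' := Unitization ℤ R) ρ C A' hl' hr' hρA hinj hsurj
  refine ⟨Q, iQ, C', h1.trans hCp, ?_⟩
  intro x
  rw [h2, hA']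
  constructor
  · intro hx
    refine ⟨x.snd, ?_⟩
    apply Unitization.ext
    · rw [hx, Unitization.fst_inr]
    · rw [Unitization.snd_inr]
  · rintro ⟨y, rfl⟩
    exact Unitization.fst_inr _ y

end ADM
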