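import Pool.Agent.ADM.Defs
import Pool.Agent.AD.Tlat

/-!
# ADM-AllL

The part of a polynomial consisting of the words that contain exactly the letters `0, 1, 2`.

PLAN.  For a subset `S` of `{0, 1, 2}` let `π_S` be the substitution `X l ↦ X l` for `l ∈ S`, `X l ↦ 0` otherwise (also
for `l ≥ 3`).  `g' = ∑_S (-1)^(3 - |S|) π_S g ∈ I` contains exactly the words of `g` in the letters `0, 1, 2` that contain all
three letters.  (Or: apply successively the operators `g ↦ g - (X l ↦ 0) g` for `l = 0, 1, 2` and then the substitution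
`X l ↦ 0` for `l ≥ 3`.)  `G` = the coefficients of `g'`.  A smooth way: write `g = ∑_{w ∈ s} cf w g • mon w` (`eq_sum_cf`, T3a.lean); both
operations act on `mon w` by `mon w ↦ mon w` or `0`.  See also the proof of `ADN.cubic` (Pool/Agent/ADN/Cubic.lean), which contains
such an argument.
-/

namespace ADM

open AD ADN

/-- the coefficient as a linear map -/
private noncomputable def all3L (w : List ℕ) : P →ₗ[ℤ] ℤ where
  toFun := cf w
  map_add' := cf_add w
  map_smul' n f := by
    rw [cf_smul]
    rfl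

private theorem all3_sub (w : List ℕ) (f g : P) : cf w (f - g) = cf w f - cf w g :=
  map_sub (all3L w) f g

/-- a linear map evaluated on the monomials -/
private theorem all3_lin (T : P →ₗ[ℤ] P) (w v : List ℕ) (c : List ℕ → ℤ)
    (h : ∀ u, cf w (T (mon u)) = if u = v then c u else 0) (f : P) :
    cf w (T f) = cf v f * c v := by
  obtain ⟨s, hs1, hs2⟩ := eq_sum_cf f
  have e1 : cf w (T f) = ∑ u ∈ s, cf u f * (if u = v then c u else 0) := by
    conv_lhs => rw [hs2]
    have e2 : cf w (T (∑ u ∈ s, cf u f • mon u)) = all3L w (T (∑ u ∈ s, cf u f • mon u)) := rfl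
    rw [e2, map_sum, map_sum]
    refine Finset.sum_congr rfl fun u _ => ?_
    rw [map_smul]
    show cf w (cf u f • T (mon u)) = _
    rw [cf_smul, h]
  rw [e1]
  by_cases hv : v ∈ s
  · rw [Finset.sum_eq_single_of_mem v hv fun u _ huv => by rw [if_neg huv, mul_zero], if_pos rfl]
  · rw [hs1 v hv, zero_mul]
    refine Finset.sum_eq_zero fun u hu => ?_
    rw [if_neg (fun h' : u = v => hv (h' ▸ hu)), mul_zero]

/-- the substitution killing the variables outside `A` -/
private noncomputable def all3K (A : ℕ → Prop) [DecidablePred A] : P →ₐ[ℤ] P :=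
  FreeAlgebra.lift ℤ fun v => if A v then X v else 0

private theorem all3_aug_X (i : ℕ) : aug (X i) = 0 := by
  unfold aug
  rw [FreeAlgebra.lift_ι_apply]

private theorem all3K_subst (A : ℕ → Prop) [DecidablePred A] : IsSubst (all3K A) := by
  intro i
  unfold all3K
  rw [FreeAlgebra.lift_ι_apply]
  by_cases h : A i
  · rw [if_pos h, all3_aug_X]
  · rw [if_neg h, map_zero]

private theorem all3K_mon (A : ℕ → Prop) [DecidablePred A] (u : List ℕ) :
    all3K A (mon u) = if ∀ a ∈ u, A a then mon u else 0 := by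
  induction u with
  | nil =>
    rw [if_pos (fun a ha => absurd ha List.not_mem_nil)]
    unfold mon
    rw [List.map_nil, List.prod_nil, map_one]
  | cons b u ih =>
    have e : mon (b :: u) = X b * mon u := by
      unfold mon
      rw [List.map_cons, List.prod_cons]
    have e2 : all3K A (X b) = if A b then X b else 0 := by
      unfold all3K
      rw [FreeAlgebra.lift_ι_apply]
    rw [e, map_mul, ih, e2]
    by_cases hb : A b
    · by_cases hu : ∀ a ∈ u, A a
      · rw [if_pos hb, if_pos hu, if_pos (List.forall_mem_cons.2 ⟨hb, hu⟩)]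
      · rw [if_neg hu, mul_zero, if_neg (fun h => hu (List.forall_mem_cons.1 h).2)]
    · rw [if_neg hb, zero_mul, if_neg (fun h => hb (List.forall_mem_cons.1 h).1)]

private theorem all3K_cf (A : ℕ → Prop) [DecidablePred A] (u : List ℕ) (f : P) :
    cf u (all3K A f) = if ∀ a ∈ u, A a then cf u f else 0 := by
  have h := all3_lin (all3K A).toLinearMap u u (fun v => if ∀ a ∈ v, A a then 1 else 0) (fun v => by
    show cf u (all3K A (mon v)) = _
    rw [all3K_mon]
    by_cases hv : ∀ a ∈ v, A a
    · rw [if_pos hv, cf_mon]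
      by_cases huv : v = u
      · rw [if_pos huv, if_pos huv, if_pos hv]
      · rw [if_neg huv, if_neg huv]
    · have e : cf u (0 : P) = 0 := map_zero (all3L u)
      rw [if_neg hv, e]
      by_cases huv : v = u
      · rw [if_pos huv, if_neg hv]
      · rw [if_neg huv]) f
  refine (show cf u (all3K A f) = _ from h).trans ?_
  by_cases hu : ∀ a ∈ u, A a
  · rw [if_pos hu, if_pos hu, mul_one]
  · rw [if_neg hu, if_neg hu, mul_zero]

/-- the part in which all words contain the letter `l` -/
private noncomputable def all3D (l : ℕ) (f : P) : P := f - all3K (fun v => v ≠ l) f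

private theorem all3D_cf (l : ℕ) (f : P) (u : List ℕ) :
    cf u (all3D l f) = if l ∈ u then cf u f else 0 := by
  unfold all3D
  rw [all3_sub, all3K_cf]
  by_cases h : l ∈ u
  · rw [if_pos h, if_neg (fun h' => h' l h rfl), sub_zero]
  · rw [if_neg h, if_pos (fun a ha (hal : a = l) => h (hal ▸ ha)), sub_self]

private theorem all3D_mem {I : Submodule ℤ P} (hI : IsT I) (l : ℕ) {f : P} (hf : f ∈ I) :
    all3D l f ∈ I :=
  I.sub_mem hf (hI.subst _ (all3K_subst _) f hf)

theorem allL {I : Submodule ℤ P} (hI : IsT I) {g : P} (hg : g ∈ I) :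
    ∃ G : List (Fin 3) →₀ ℤ, (∀ w ∈ G.support, ∀ i, i ∈ w) ∧
      (G.sum fun w c => c • mon (w.map Fin.val)) ∈ I ∧
      ∀ w : List (Fin 3), (∀ i, i ∈ w) → G w = cf (w.map Fin.val) g := by
  classical
  obtain ⟨f, hf⟩ : ∃ f : P, f = all3D 0 (all3D 1 (all3D 2
    (all3K (fun v => v < 3) g))) := ⟨_, rfl⟩
  have hfI : f ∈ I := by
    rw [hf]
    exact all3D_mem hI _ (all3D_mem hI _ (all3D_mem hI _
      (hI.subst _ (all3K_subst _) _ hg)))
  have hcf : ∀ u, cf u f = if 0 ∈ u then (if 1 ∈ u then (if 2 ∈ u then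
      (if ∀ a ∈ u, a < 3 then cf u g else 0) else 0) else 0) else 0 := by
    intro u
    rw [hf, all3D_cf, all3D_cf, all3D_cf, all3K_cf]
  have hne : ∀ u, cf u f ≠ 0 → 0 ∈ u ∧ 1 ∈ u ∧ 2 ∈ u ∧ ∀ a ∈ u, a < 3 := by
    intro u hu
    rw [hcf] at hu
    by_cases h0 : 0 ∈ u
    · by_cases h1 : 1 ∈ u
      · by_cases h2 : 2 ∈ u
        · by_cases h3 : ∀ a ∈ u, a < 3
          · exact ⟨h0, h1, h2, h3⟩
          · rw [if_pos h0, if_pos h1, if_pos h2, if_neg h3] at hu
            exact absurd rfl hu
        · rw [if_pos h0, if_pos h1, if_neg h2] at hu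
          exact absurd rfl hu
      · rw [if_pos h0, if_neg h1] at hu
        exact absurd rfl hu
    · rw [if_neg h0] at hu
      exact absurd rfl hu
  obtain ⟨s, hs1, hs2⟩ := eq_sum_cf f
  have hinj : Function.Injective (List.map (Fin.val : Fin 3 → ℕ)) :=
    List.map_injective_iff.2 Fin.val_injective
  refine ⟨Finsupp.onFinset (s.preimage (List.map Fin.val) hinj.injOn)
    (fun v => cf (v.map Fin.val) f) (fun v hv => ?_), fun v hv i => ?_, ?_, fun v hv => ?_⟩
  · rw [Finset.mem_preimage]
    by_contra h'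
    exact hv (hs1 _ h')
  · rw [Finsupp.mem_support_iff] at hv
    obtain ⟨h0, h1, h2, _⟩ := hne _ hv
    have key : i.val ∈ v.map Fin.val := by
      have hi := i.2
      obtain ⟨k, hk⟩ : ∃ k, k = i.val := ⟨_, rfl⟩
      rw [← hk] at hi ⊢
      interval_cases k
      · exact h0
      · exact h1
      · exact h2
    obtain ⟨j, hj, hji⟩ := List.mem_map.1 key
    rwa [Fin.val_injective hji] at hj
  · rw [Finsupp.onFinset_sum _ (fun v => by rw [zero_smul])]
    have e := Finset.sum_preimage (List.map (Fin.val : Fin 3 → ℕ)) s hinj.injOn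
      (fun u => cf u f • mon u) (fun u _ hu => by
        by_cases h0 : cf u f = 0
        · rw [h0, zero_smul]
        · exfalso
          apply hu
          obtain ⟨_, _, _, h3⟩ := hne u h0
          refine ⟨u.map fun a => if h : a < 3 then ⟨a, h⟩ else 0, ?_⟩
          rw [List.map_map]
          conv_rhs => rw [← List.map_id u]
          refine List.map_congr_left fun a ha => ?_
          show ((if h : a < 3 then (⟨a, h⟩ : Fin 3) else 0 : Fin 3) : ℕ) = a
          rw [dif_pos (h3 a ha)])
    rw [e, ← hs2]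
    exact hfI
  · show cf (v.map Fin.val) f = _
    have m : ∀ i : Fin 3, i.val ∈ v.map Fin.val := fun i => List.mem_map.2 ⟨i, hv i, rfl⟩
    have m0 : 0 ∈ v.map Fin.val := m 0
    have m1 : 1 ∈ v.map Fin.val := m 1
    have m2 : 2 ∈ v.map Fin.val := m 2
    rw [hcf, if_pos m0, if_pos m1, if_pos m2, if_pos]
    intro a ha
    obtain ⟨j, _, rfl⟩ := List.mem_map.1 ha
    exact j.2

end ADM
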