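import Mathlib

/-!
# ADM-Arith

Elementary number theory modulo `p ^ r - 1`.

PLAN.
* pow_modEq_iff: `p ^ r ≡ 1`, so only the exponents modulo `r` matter; for `0 ≤ s, t < r` the numbers `p ^ s`, `p ^ t` are
  `≤ p ^ (r - 1) < p ^ r - 1`, so they are congruent only if they are equal.
* pow_not_zero: `p ^ s` is coprime to `p ^ r - 1 ≥ 3`.
* digit: replace the exponents by their residues modulo `r` (pow_modEq_iff), and `τ` too.  If `t = l.length < p`, then the sum
  `S` of `t` powers `p ^ e`, `e < r`, is `≤ (p - 1) * p ^ (r - 1) = p ^ r - p ^ (r - 1) ≤ p ^ r - 2 < p ^ r - 1`, and `p ^ τ < p ^ r - 1`, so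
  `S = p ^ τ`; modulo `p - 1` this gives `t ≡ 1 [MOD p - 1]`, `t ≥ 1` (as `S > 0`) and `t < p`, so `t = 1`.  (For `p = 2`: `t < 2`, `t ≠ 0`.)
* digit2: `(p - i) * (p ^ s - 1) ≡ 0`, and with `s' = s % r ∈ [1, r - 1]` it is `(p - i) * (p ^ s' - 1) ≤ p * (p ^ (r - 1) - 1) < p ^ r - 1`, so
  `(p - i) * (p ^ s' - 1) = 0` and `i = p`.
-/

namespace ADM

private theorem arith_pos {p r : ℕ} (hp : p.Prime) : 1 ≤ p ^ r :=
  Nat.one_le_pow _ _ hp.pos

/-- powers below the top one are smaller than the modulus -/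
private theorem arith_lt {p r s : ℕ} (hp : p.Prime) (hr : 2 ≤ r) (hs : s < r) : p ^ s < p ^ r - 1 := by
  have h2 := hp.two_le
  have h1 : p ^ s ≤ p ^ (r - 1) := Nat.pow_le_pow_right hp.pos (by omega)
  have h3 : p ^ r = p ^ (r - 1) * p := by
    rw [← pow_succ]; congr 1; omega
  have h4 : 2 ≤ p ^ (r - 1) := by
    calc 2 ≤ p := h2
      _ = p ^ 1 := (pow_one p).symm
      _ ≤ p ^ (r - 1) := Nat.pow_le_pow_right hp.pos (by omega)
  have h5 : p ^ (r - 1) * 2 ≤ p ^ (r - 1) * p := Nat.mul_le_mul_left _ h2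
  omega

private theorem arith_red {p r : ℕ} (hp : p.Prime) (hr : 2 ≤ r) (s : ℕ) :
    p ^ s ≡ p ^ (s % r) [MOD (p ^ r - 1)] := by
  have h1 : p ^ r ≡ 1 [MOD (p ^ r - 1)] := by
    have := arith_pos (r := r) hp
    exact ((Nat.modEq_iff_dvd' this).2 dvd_rfl).symm
  conv_lhs => rw [← Nat.div_add_mod s r, pow_add, pow_mul]
  calc (p ^ r) ^ (s / r) * p ^ (s % r) ≡ 1 ^ (s / r) * p ^ (s % r) [MOD (p ^ r - 1)] :=
        (h1.pow _).mul_right _
    _ = p ^ (s % r) := by rw [one_pow, one_mul]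

theorem pow_modEq_iff {p r : ℕ} (hp : p.Prime) (hr : 2 ≤ r) (s t : ℕ) :
    p ^ s ≡ p ^ t [MOD (p ^ r - 1)] ↔ s ≡ t [MOD r] := by
  have hr0 : 0 < r := by omega
  constructor
  · intro h
    have h1 : p ^ (s % r) ≡ p ^ (t % r) [MOD (p ^ r - 1)] :=
      ((arith_red hp hr s).symm.trans h).trans (arith_red hp hr t)
    have h2 : p ^ (s % r) = p ^ (t % r) :=
      h1.eq_of_lt_of_lt (arith_lt hp hr (Nat.mod_lt _ hr0)) (arith_lt hp hr (Nat.mod_lt _ hr0))
    exact Nat.pow_right_injective hp.two_le h2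
  · intro h
    have h2 : s % r = t % r := h
    have h3 := arith_red hp hr s
    rw [h2] at h3
    exact h3.trans (arith_red hp hr t).symm

theorem pow_modEq_one_iff {p r : ℕ} (hp : p.Prime) (hr : 2 ≤ r) (s : ℕ) :
    p ^ s ≡ 1 [MOD (p ^ r - 1)] ↔ r ∣ s := by
  have h := pow_modEq_iff hp hr s 0
  rw [pow_zero] at h
  rw [h]
  exact Nat.modEq_zero_iff_dvd

theorem pow_not_zero {p r : ℕ} (hp : p.Prime) (hr : 2 ≤ r) (s : ℕ) : ¬ p ^ s ≡ 0 [MOD (p ^ r - 1)] := by
  intro h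
  have hr0 : 0 < r := by omega
  have h1 : p ^ (s % r) ≡ 0 [MOD (p ^ r - 1)] := (arith_red hp hr s).symm.trans h
  have hlt := arith_lt hp hr (Nat.mod_lt s hr0)
  have h2 : p ^ (s % r) = 0 := h1.eq_of_lt_of_lt hlt (by omega)
  have h3 : 0 < p ^ (s % r) := pow_pos hp.pos _
  omega

private theorem arith_sum_le {p r : ℕ} (hp : p.Prime) (hr : 2 ≤ r) (l : List ℕ) :
    (l.map (fun s => p ^ (s % r))).sum ≤ l.length * p ^ (r - 1) := by
  have hr0 : 0 < r := by omega
  induction l with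
  | nil => simp
  | cons a l ih =>
    simp only [List.map_cons, List.sum_cons, List.length_cons]
    have h1 : p ^ (a % r) ≤ p ^ (r - 1) :=
      Nat.pow_le_pow_right hp.pos (by have := Nat.mod_lt a hr0; omega)
    rw [add_mul, one_mul]
    omega

private theorem arith_sum_mod {p r : ℕ} (hp : p.Prime) (hr : 2 ≤ r) (l : List ℕ) :
    (l.map (fun s => p ^ s)).sum ≡ (l.map (fun s => p ^ (s % r))).sum [MOD (p ^ r - 1)] := by
  induction l with
  | nil => exact Nat.ModEq.refl _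
  | cons a l ih =>
    simp only [List.map_cons, List.sum_cons]
    exact (arith_red hp hr a).add ih

private theorem arith_sum_len {p r : ℕ} (hp : p.Prime) (l : List ℕ) :
    (l.map (fun s => p ^ (s % r))).sum ≡ l.length [MOD (p - 1)] := by
  induction l with
  | nil => exact Nat.ModEq.refl _
  | cons a l ih =>
    simp only [List.map_cons, List.sum_cons, List.length_cons]
    rw [add_comm l.length 1]
    refine Nat.ModEq.add ?_ ih
    have h1 : p ≡ 1 [MOD (p - 1)] := by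
      have := hp.two_le
      exact ((Nat.modEq_iff_dvd' (by omega : 1 ≤ p)).2 dvd_rfl).symm
    have h2 := h1.pow (a % r)
    rwa [one_pow] at h2

theorem digit {p r : ℕ} (hp : p.Prime) (hr : 2 ≤ r) (l : List ℕ) (τ : ℕ)
    (h : (l.map (fun s => p ^ s)).sum ≡ p ^ τ [MOD (p ^ r - 1)]) : l.length = 1 ∨ p ≤ l.length := by
  by_contra hcon
  push Not at hcon
  obtain ⟨hne, hlt⟩ := hcon
  have hr0 : 0 < r := by omega
  have h2 := hp.two_le
  have h1 : (l.map (fun s => p ^ (s % r))).sum ≡ p ^ (τ % r) [MOD (p ^ r - 1)] :=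
    ((arith_sum_mod hp hr l).symm.trans h).trans (arith_red hp hr τ)
  have h3 : p ^ r = p ^ (r - 1) * p := by
    rw [← pow_succ]; congr 1; omega
  have h4 : 2 ≤ p ^ (r - 1) := by
    calc 2 ≤ p := h2
      _ = p ^ 1 := (pow_one p).symm
      _ ≤ p ^ (r - 1) := Nat.pow_le_pow_right hp.pos (by omega)
  have h5 := arith_sum_le hp hr l
  have h6 : l.length * p ^ (r - 1) ≤ (p - 1) * p ^ (r - 1) := Nat.mul_le_mul_right _ (by omega)
  have h7 : (p - 1) * p ^ (r - 1) = p ^ (r - 1) * p - p ^ (r - 1) := by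
    rw [Nat.sub_mul, one_mul, mul_comm]
  have h7' : p ^ (r - 1) ≤ p ^ (r - 1) * p := Nat.le_mul_of_pos_right _ hp.pos
  have h8 : (l.map (fun s => p ^ (s % r))).sum < p ^ r - 1 := by omega
  have h9 : (l.map (fun s => p ^ (s % r))).sum = p ^ (τ % r) :=
    h1.eq_of_lt_of_lt h8 (arith_lt hp hr (Nat.mod_lt _ hr0))
  have h10 := arith_sum_len (r := r) hp l
  rw [h9] at h10
  have h11 : p ^ (τ % r) ≡ 1 [MOD (p - 1)] := by
    have h1 : p ≡ 1 [MOD (p - 1)] :=
      ((Nat.modEq_iff_dvd' (by omega : 1 ≤ p)).2 dvd_rfl).symm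
    have h2 := h1.pow (τ % r)
    rwa [one_pow] at h2
  have h12 : l.length ≡ 1 [MOD (p - 1)] := h10.symm.trans h11
  have hpos : 0 < l.length := by
    rcases Nat.eq_zero_or_pos l.length with h0 | h0
    · rw [List.length_eq_zero_iff] at h0
      rw [h0] at h9
      simp only [List.map_nil, List.sum_nil] at h9
      have := pow_pos hp.pos (τ % r)
      omega
    · exact h0
  have h13 : (p - 1) ∣ l.length - 1 := (Nat.modEq_iff_dvd' hpos).1 h12.symm
  have h14 : l.length - 1 = 0 := Nat.eq_zero_of_dvd_of_lt h13 (by omega)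
  omega

/-- `i + p ^ s (p - i) ≡ p` only for `i = p` -/
theorem digit2 {p r : ℕ} (hp : p.Prime) (hr : 2 ≤ r) {s i : ℕ} (hs : ¬ r ∣ s) (hi : i ≤ p)
    (h : i + p ^ s * (p - i) ≡ p [MOD (p ^ r - 1)]) : i = p := by
  by_contra hne
  have hr0 : 0 < r := by omega
  have h2 := hp.two_le
  have hs' : s % r ≠ 0 := fun h0 => hs (Nat.dvd_of_mod_eq_zero h0)
  have hlt := Nat.mod_lt s hr0
  have h1 : i + p ^ (s % r) * (p - i) ≡ p [MOD (p ^ r - 1)] :=
    (((arith_red hp hr s).symm.mul_right (p - i)).add_left i).trans h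
  have hge : 2 ≤ p ^ (s % r) := by
    calc 2 ≤ p := h2
      _ = p ^ 1 := (pow_one p).symm
      _ ≤ p ^ (s % r) := Nat.pow_le_pow_right hp.pos (by omega)
  have hle : p ^ (s % r) ≤ p ^ (r - 1) := Nat.pow_le_pow_right hp.pos (by omega)
  have h3 : p ^ r = p ^ (r - 1) * p := by
    rw [← pow_succ]; congr 1; omega
  obtain ⟨q, hq⟩ : ∃ q, p ^ (s % r) = q + 1 := ⟨p ^ (s % r) - 1, by omega⟩
  have h4 : i + p ^ (s % r) * (p - i) = p + q * (p - i) := by
    rw [hq, add_mul, one_mul]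
    omega
  rw [h4] at h1
  have h5 : p + q * (p - i) ≡ p + 0 [MOD (p ^ r - 1)] := by rwa [add_zero]
  have h6 : q * (p - i) ≡ 0 [MOD (p ^ r - 1)] := Nat.ModEq.add_left_cancel' p h5
  have h7 : q * (p - i) < p ^ r - 1 := by
    have ha : q * (p - i) ≤ q * p := Nat.mul_le_mul_left _ (Nat.sub_le _ _)
    have hb : q * p + p = p ^ (s % r) * p := by rw [hq]; ring
    have hc : p ^ (s % r) * p ≤ p ^ (r - 1) * p := Nat.mul_le_mul_right _ hle
    omega
  have h8 : q * (p - i) = 0 := h6.eq_of_lt_of_lt h7 (by omega)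
  rcases Nat.mul_eq_zero.1 h8 with h9 | h9
  · omega
  · omega

/-- `i p ^ s + (p - i) ≡ p` only for `i = 0` -/
theorem digit3 {p r : ℕ} (hp : p.Prime) (hr : 2 ≤ r) {s i : ℕ} (hs : ¬ r ∣ s) (hi : i ≤ p)
    (h : i * p ^ s + (p - i) ≡ p [MOD (p ^ r - 1)]) : i = 0 := by
  have h1 : (p - i) + p ^ s * (p - (p - i)) ≡ p [MOD (p ^ r - 1)] := by
    rw [Nat.sub_sub_self hi, mul_comm, add_comm]
    exact h
  have h2 := digit2 hp hr hs (Nat.sub_le p i) h1
  have := hp.pos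
  omega

end ADM
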