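import Pool.Agent.ADM.Wa

/-!
# ADM-Blo

The blocks of a finite ring on which an ideal `A` is everything.

PLAN.  Take `s, d, F, π, N` from `wa`; `S = ∀ t, Matrix (Fin (d t)) (Fin (d t)) (F t)`.  For every `t` the image of `A` under `π_t = π · t`
is an ideal of the simple ring `Matrix (Fin (d t)) (Fin (d t)) (F t)` (`d t ≥ 1`), so it is 0 or everything (the private lemma
`image_or` of Pool/Agent/ADN/Blocks.lean; copy it).  `T = {t // ∀ m, ∃ a ∈ A, π a t = m}`, `Q = Σ t : T, Fin (d t)`,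
`blk ⟨t, i⟩ = t`, `F ⟨t, i⟩ = F t`.  Put `m t i j c = Pi.single t (Matrix.single i j c) : S`;
`f ⟨t, i⟩ ⟨t', j⟩ = m t i j 1` if `t = t'` (dependent `if`, cast `j`), `0` otherwise; `κ ⟨t, i⟩ c = m t i i c`.
* `p ^ K • 1 = 0` in `U` implies that `(p : F t) ^ K = 0` (look at an entry of `π (p ^ K • 1) t`), so `CharP (F t) p` and
  `Nat.card (F t) = p ^ r` with `r ≥ 1` (`FiniteField.card`); `r ⟨t, i⟩` = this number.
* `∃ a ∈ A, π a = f i i`: choose `u` with `π u = m t i i 1` (surjectivity) and `a ∈ A` with `π a t = 1`; then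
  `u * a ∈ A` and `π (u * a) = m t i i 1 * π a = m t i i 1`.
* `f i i * s * f i i = κ i (s t i i)`; for different blocks `f i i * s * f j j = 0`.
* for `a ∈ A`: `π a` vanishes at all `t ∉ T` (image_or), and at `t ∈ T` a matrix is the sum of its entries:
  `π a = ∑ i, ∑ j, f i i * π a * f j j`.
-/

namespace ADM

open AD ADN

private theorem Blo_image_or (U : Type) [Ring U] (A : AddSubgroup U)
    (hl : ∀ u, ∀ a ∈ A, u * a ∈ A) (hr : ∀ u, ∀ a ∈ A, a * u ∈ A)
    (S : Type) [Ring S] [IsSimpleRing S] (π : U →+* S) (hπ : Function.Surjective π) :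
    (∀ a ∈ A, π a = 0) ∨ ∀ s : S, ∃ a ∈ A, π a = s := by
  let I : TwoSidedIdeal S := TwoSidedIdeal.mk' {s | ∃ a ∈ A, π a = s}
    ⟨0, A.zero_mem, map_zero π⟩
    (by
      rintro x y ⟨a, ha, rfl⟩ ⟨b, hb, rfl⟩
      exact ⟨a + b, A.add_mem ha hb, map_add π a b⟩)
    (by
      rintro x ⟨a, ha, rfl⟩
      exact ⟨-a, A.neg_mem ha, map_neg π a⟩)
    (by
      rintro x y ⟨a, ha, rfl⟩
      obtain ⟨u, rfl⟩ := hπ x
      exact ⟨u * a, hl u a ha, map_mul π u a⟩)
    (by
      rintro x y ⟨a, ha, rfl⟩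
      obtain ⟨u, rfl⟩ := hπ y
      exact ⟨a * u, hr u a ha, map_mul π a u⟩)
  have hI : ∀ s, s ∈ I ↔ ∃ a ∈ A, π a = s := by
    intro s
    exact TwoSidedIdeal.mem_mk' _ _ _ _ _ _ _
  rcases eq_bot_or_eq_top I with h | h
  · left
    intro a ha
    have h1 : π a ∈ I := (hI _).2 ⟨a, ha, rfl⟩
    rw [h] at h1
    exact (TwoSidedIdeal.mem_bot S).1 h1
  · right
    intro s
    rw [← hI, h]
    trivial

private theorem Blo_card (p K : ℕ) (hp : p.Prime) (D : Type) [Field D] [Finite D] (d : ℕ) (hd : 1 ≤ d)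
    (h : ((p : ℤ) ^ K) • (1 : Matrix (Fin d) (Fin d) D) = 0) :
    ∃ r, 1 ≤ r ∧ Nat.card D = p ^ r := by
  classical
  have : Fact p.Prime := ⟨hp⟩
  have hp0 : (p : D) = 0 := by
    have h1 := congrFun (congrFun h ⟨0, hd⟩) ⟨0, hd⟩
    rw [Matrix.smul_apply, Matrix.one_apply_eq, Matrix.zero_apply] at h1
    have h3 : (p : D) ^ K = 0 := by
      rw [← h1]
      simp
    exact IsReduced.eq_zero _ ⟨K, h3⟩
  have hcp : CharP D p := (CharP.charP_iff_prime_eq_zero hp).2 hp0
  have : Fintype D := Fintype.ofFinite D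
  obtain ⟨n, _, hn⟩ := FiniteField.card D p
  exact ⟨n, n.2, by rw [Nat.card_eq_fintype_card, hn]⟩

private theorem Blo_single_ne {ι : Type} [DecidableEq ι] {R : ι → Type} [∀ i, Ring (R i)] {i j : ι}
    (h : i ≠ j) (x : R i) (y : R j) : (Pi.single i x : ∀ i, R i) * Pi.single j y = 0 := by
  funext k
  rw [Pi.mul_apply, Pi.zero_apply]
  by_cases hk : k = i
  · subst hk
    rw [Pi.single_eq_of_ne h, mul_zero]
  · rw [Pi.single_eq_of_ne hk, zero_mul]

private theorem Blo_single_mid {ι : Type} [DecidableEq ι] {R : ι → Type} [∀ i, Ring (R i)] (i : ι)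
    (x : R i) (s : ∀ i, R i) (y : R i) :
    (Pi.single i x : ∀ i, R i) * s * Pi.single i y = Pi.single i (x * s i * y) := by
  funext k
  rw [Pi.mul_apply, Pi.mul_apply]
  by_cases hk : k = i
  · subst hk
    rw [Pi.single_eq_same, Pi.single_eq_same, Pi.single_eq_same]
  · rw [Pi.single_eq_of_ne hk, Pi.single_eq_of_ne hk, Pi.single_eq_of_ne hk, zero_mul, zero_mul]

private theorem Blo_single_mid_ne {ι : Type} [DecidableEq ι] {R : ι → Type} [∀ i, Ring (R i)] {i j : ι}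
    (h : i ≠ j) (x : R i) (s : ∀ i, R i) (y : R j) :
    (Pi.single i x : ∀ i, R i) * s * Pi.single j y = 0 := by
  funext k
  rw [Pi.mul_apply, Pi.mul_apply, Pi.zero_apply]
  by_cases hk : k = i
  · subst hk
    rw [Pi.single_eq_of_ne h, mul_zero]
  · rw [Pi.single_eq_of_ne hk, zero_mul, zero_mul]

private theorem Blo_sum_single (n : ℕ) (D : Type) [Field D] :
    (∑ a : Fin n, Matrix.single a a (1 : D)) = 1 := by
  ext i j
  rw [Matrix.sum_apply]
  by_cases h : i = j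
  · subst h
    rw [Finset.sum_eq_single i, Matrix.single_apply_same, Matrix.one_apply_eq]
    · intro b _ hb
      exact Matrix.single_apply_of_ne _ _ _ _ _ fun h1 => hb h1.1
    · intro h1
      exact absurd (Finset.mem_univ i) h1
  · rw [Matrix.one_apply_ne h]
    refine Finset.sum_eq_zero fun b _ => ?_
    exact Matrix.single_apply_of_ne _ _ _ _ _ fun h1 => h (h1.1.symm.trans h1.2)

theorem blo (p K : ℕ) (hp : p.Prime) (U : Type) [Ring U] [Finite U] (hU : ((p : ℤ) ^ K) • (1 : U) = 0)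
    (A : AddSubgroup U) (hl : ∀ u a, a ∈ A → u * a ∈ A) (hr : ∀ u a, a ∈ A → a * u ∈ A) :
    ∃ (S : Type) (_ : Ring S) (π : U →+* S) (N : ℕ) (Q : Type) (_ : Fintype Q) (blk : Q → ℕ) (r : Q → ℕ)
      (F : Q → Type) (_ : ∀ i, Field (F i)) (_ : ∀ i, Finite (F i)) (f : Q → Q → S)
      (κ : ∀ i, F i →ₙ+* S),
      Function.Surjective π ∧
      (∀ l : List U, N ≤ l.length → (∀ x ∈ l, π x = 0) → l.prod = 0) ∧
      (∀ i, 1 ≤ r i) ∧ (∀ i, Nat.card (F i) = p ^ r i) ∧ (∀ i j, blk i = blk j → r i = r j) ∧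
      (∀ i j, i ≠ j → f i i * f j j = 0) ∧
      (∀ i j k, blk i = blk j → blk j = blk k → f i j * f j k = f i k) ∧
      (∀ i, ∃ a ∈ A, π a = f i i) ∧ (∀ i, κ i 1 = f i i) ∧ (∀ i, Function.Injective (κ i)) ∧
      (∀ i s, ∃ c, f i i * s * f i i = κ i c) ∧
      (∀ i j, blk i ≠ blk j → ∀ s, f i i * s * f j j = 0) ∧
      (∀ a ∈ A, π a = ∑ i, ∑ j, f i i * π a * f j j) := by
  classical
  obtain ⟨s, d, F, hFf, hFfin, π, N, hd1, hsurj, hN⟩ := wa U
  have hor : ∀ t, (∀ a ∈ A, π a t = 0) ∨ ∀ m : Matrix (Fin (d t)) (Fin (d t)) (F t), ∃ a ∈ A, π a t = m := by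
    intro t
    have : NeZero (d t) := ⟨by have := hd1 t; omega⟩
    refine Blo_image_or U A (fun u a ha => hl u a ha) (fun u a ha => hr u a ha) _
      ((Pi.evalRingHom (fun t => Matrix (Fin (d t)) (Fin (d t)) (F t)) t).comp π) ?_
    intro x
    obtain ⟨u, hu⟩ := hsurj (Pi.single t x)
    refine ⟨u, ?_⟩
    show π u t = x
    rw [hu, Pi.single_eq_same]
  have hcard : ∀ t, ∃ r, 1 ≤ r ∧ Nat.card (F t) = p ^ r := by
    intro t
    refine Blo_card p K hp (F t) (d t) (hd1 t) ?_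
    have h2 := congrFun (congrArg π hU) t
    rw [map_zero, map_zsmul, map_one] at h2
    exact h2
  choose r0 hr1 hr2 using hcard
  obtain ⟨P, hP⟩ : ∃ P : Fin s → Prop, ∀ t, P t ↔ ∀ m : Matrix (Fin (d t)) (Fin (d t)) (F t),
      ∃ a ∈ A, π a t = m := ⟨_, fun t => Iff.rfl⟩
  let Q : Type := Σ t : {t : Fin s // P t}, Fin (d t.1)
  let f : Q → Q → (∀ t, Matrix (Fin (d t)) (Fin (d t)) (F t)) := fun q q' =>
    if h : q'.1 = q.1 then
      Pi.single q.1.1 (Matrix.single q.2 (Fin.cast (congrArg (fun t => d t.1) h) q'.2) 1) else 0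
  have hf : ∀ (t : {t : Fin s // P t}) (a b : Fin (d t.1)),
      f ⟨t, a⟩ ⟨t, b⟩ = Pi.single t.1 (Matrix.single a b 1) := by
    intro t a b
    exact dif_pos rfl
  let κ : ∀ q : Q, F q.1.1 →ₙ+* (∀ t, Matrix (Fin (d t)) (Fin (d t)) (F t)) := fun q =>
    { toFun := fun c => Pi.single q.1.1 (Matrix.single q.2 q.2 c)
      map_mul' := by
        intro x y
        rw [← Pi.single_mul, Matrix.single_mul_single_same]
      map_zero' := by rw [Matrix.single_zero, Pi.single_zero]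
      map_add' := by
        intro x y
        rw [← Pi.single_add, ← Matrix.single_add] }
  have hκ : ∀ (q : Q) (c : F q.1.1), κ q c = Pi.single q.1.1 (Matrix.single q.2 q.2 c) := fun q c => rfl
  have hE : ∀ t, (∑ q : Q, f q q) t = if P t then 1 else 0 := by
    intro t
    rw [Finset.sum_apply]
    by_cases h : P t
    · rw [if_pos h, Fintype.sum_sigma, Finset.sum_eq_single (⟨t, h⟩ : {t : Fin s // P t})]
      · rw [← Blo_sum_single]
        refine Finset.sum_congr rfl fun a _ => ?_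
        rw [hf, Pi.single_eq_same]
      · intro t' _ ht'
        refine Finset.sum_eq_zero fun a _ => ?_
        rw [hf]
        exact Pi.single_eq_of_ne (fun h1 => ht' (Subtype.ext h1.symm)) _
      · intro h1
        exact absurd (Finset.mem_univ _) h1
    · rw [if_neg h]
      refine Finset.sum_eq_zero fun q _ => ?_
      obtain ⟨t', a⟩ := q
      rw [hf]
      refine Pi.single_eq_of_ne (fun h1 => h ?_) _
      rw [h1]
      exact t'.2
  refine ⟨∀ t, Matrix (Fin (d t)) (Fin (d t)) (F t), inferInstance, π, N, Q, inferInstance,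
    fun q => (q.1.1 : ℕ), fun q => r0 q.1.1, fun q => F q.1.1, fun q => hFf q.1.1,
    fun q => hFfin q.1.1, f, κ, hsurj, hN, fun q => hr1 _, fun q => hr2 _, ?_, ?_, ?_, ?_, ?_, ?_, ?_, ?_, ?_⟩
  · intro i j h
    exact congrArg r0 (Fin.ext h)
  · rintro ⟨t, a⟩ ⟨t', b⟩ h
    rw [hf, hf]
    by_cases htt : t = t'
    · subst htt
      have hab : a ≠ b := fun h1 => h (by rw [h1])
      rw [← Pi.single_mul, Matrix.single_mul_single_of_ne (h := hab), Pi.single_zero]
    · exact Blo_single_ne (fun h1 => htt (Subtype.ext h1)) _ _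
  · rintro ⟨t, a⟩ ⟨t', b⟩ ⟨t'', c⟩ h1 h2
    have h3 : t = t' := Subtype.ext (Fin.ext h1)
    have h4 : t' = t'' := Subtype.ext (Fin.ext h2)
    subst h3
    subst h4
    rw [hf, hf, hf, ← Pi.single_mul, Matrix.single_mul_single_same, one_mul]
  · rintro ⟨t, a⟩
    have ht := (hP t.1).1 t.2
    obtain ⟨x, hx, hx1⟩ := ht 1
    obtain ⟨u, hu⟩ := hsurj (Pi.single t.1 (Matrix.single a a 1))
    refine ⟨u * x, hl u x hx, ?_⟩
    rw [hf, map_mul, hu]
    funext k
    rw [Pi.mul_apply]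
    by_cases hk : k = t.1
    · subst hk
      rw [hx1, mul_one]
    · rw [Pi.single_eq_of_ne hk, zero_mul]
  · rintro ⟨t, a⟩
    rw [hf]
    rfl
  · rintro ⟨t, a⟩ x y hxy
    rw [hκ, hκ] at hxy
    have h1 := congrFun (congrFun (Pi.single_injective _ hxy) a) a
    rw [Matrix.single_apply_same, Matrix.single_apply_same] at h1
    exact h1
  · rintro ⟨t, a⟩ x
    refine ⟨x t.1 a a, ?_⟩
    rw [hf, hκ, Blo_single_mid]
    congr 1
    rw [Matrix.single_mul_mul_single, one_mul, mul_one]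
  · rintro ⟨t, a⟩ ⟨t', b⟩ h x
    rw [hf, hf]
    refine Blo_single_mid_ne (fun h1 => h ?_) _ _ _
    show ((t.1 : Fin s) : ℕ) = ((t'.1 : Fin s) : ℕ)
    rw [h1]
  · intro a ha
    have h1 : ∑ i : Q, ∑ j : Q, f i i * π a * f j j = (∑ q : Q, f q q) * π a * (∑ q : Q, f q q) := by
      rw [Finset.sum_mul, Finset.sum_mul]
      refine Finset.sum_congr rfl fun i _ => ?_
      rw [Finset.mul_sum]
    rw [h1]
    funext t
    rw [Pi.mul_apply, Pi.mul_apply, hE]
    by_cases h : P t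
    · rw [if_pos h, one_mul, mul_one]
    · rw [if_neg h, zero_mul, zero_mul]
      rcases hor t with h2 | h2
      · exact h2 a ha
      · exact absurd ((hP t).2 h2) h

end ADM
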