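import Pool.Agent.ADM.Defs
import Pool.Agent.ADM.Basic

/-!
# ADN-VanCore

The downward induction: if the pattern `(v₀, v₁, v₂, v₃)` has the splitting property then
`J_{v₀v₁} J_{v₁v₂} J_{v₂v₃} = 0`. `vcJ k` is the additive subgroup generated by the products of at least `k` elements
of `J`; `vc_main` is the induction on the depth.
-/

namespace ADM

open AD ADN ADN.Ctx

namespace Base

variable {U : Type} [Ring U] {Q : Type} [Fintype Q] (C : Base U Q)

/-- the additive subgroup generated by the products of at least `k` elements of `J` -/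
private def vcJ (k : ℕ) : AddSubgroup U :=
  AddSubgroup.closure {u | ∃ l : List U, k ≤ l.length ∧ (∀ x ∈ l, x ∈ C.J) ∧ u = l.prod}

private theorem vcJ_one {x : U} (hx : x ∈ C.J) : x ∈ C.vcJ 1 :=
  AddSubgroup.subset_closure ⟨[x], by simp, by simpa using hx, by simp⟩

private theorem vcJ_unit : (1 : U) ∈ C.vcJ 0 :=
  AddSubgroup.subset_closure ⟨[], by simp, by simp, by simp⟩

private theorem vcJ_mul {k m : ℕ} {x y : U} (hx : x ∈ C.vcJ k) (hy : y ∈ C.vcJ m) : x * y ∈ C.vcJ (k + m) := by
  unfold vcJ at hx hy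
  induction hx using AddSubgroup.closure_induction with
  | mem x hx =>
    obtain ⟨l, hl, hlJ, rfl⟩ := hx
    induction hy using AddSubgroup.closure_induction with
    | mem y hy =>
      obtain ⟨l', hl', hlJ', rfl⟩ := hy
      refine AddSubgroup.subset_closure ⟨l ++ l', ?_, ?_, ?_⟩
      · rw [List.length_append]; omega
      · intro z hz
        rcases List.mem_append.1 hz with h | h
        · exact hlJ z h
        · exact hlJ' z h
      · rw [List.prod_append]
    | zero => rw [mul_zero]; exact AddSubgroup.zero_mem _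
    | add a b _ _ ha hb => rw [mul_add]; exact AddSubgroup.add_mem _ ha hb
    | neg a _ ha => rw [mul_neg]; exact AddSubgroup.neg_mem _ ha
  | zero => rw [zero_mul]; exact AddSubgroup.zero_mem _
  | add a b _ _ ha hb => rw [add_mul]; exact AddSubgroup.add_mem _ ha hb
  | neg a _ ha => rw [neg_mul]; exact AddSubgroup.neg_mem _ ha

private theorem vcJ_zero {k : ℕ} (hk : C.N ≤ k) {x : U} (hx : x ∈ C.vcJ k) : x = 0 := by
  unfold vcJ at hx
  induction hx using AddSubgroup.closure_induction with
  | mem x hx =>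
    obtain ⟨l, hl, hlJ, rfl⟩ := hx
    exact C.nil l (le_trans hk hl) hlJ
  | zero => rfl
  | add a b _ _ ha hb => rw [ha, hb, add_zero]
  | neg a _ ha => rw [ha, neg_zero]

private theorem vcJ_word {a : Fin 3 → U} {k : Fin 3 → ℕ} (h : ∀ i, a i ∈ C.vcJ (k i)) (w : List (Fin 3)) :
    (w.map a).prod ∈ C.vcJ (w.map k).sum := by
  induction w with
  | nil => simpa using C.vcJ_unit
  | cons i w ih =>
    simp only [List.map_cons, List.prod_cons, List.sum_cons]
    exact C.vcJ_mul (h i) ih

private theorem vc_depth {k : Fin 3 → ℕ} (hk : ∀ i, 1 ≤ k i) {w : List (Fin 3)} (hw : ∀ i, i ∈ w)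
    (h4 : 4 ≤ w.length) : k 0 + k 1 + k 2 + 1 ≤ (w.map k).sum := by
  have hu : w.toFinset = Finset.univ := by
    ext i; simp [hw i]
  have h1 : (w.map k).sum = ∑ i : Fin 3, w.count i * k i := by
    rw [Finset.sum_list_map_count, hu]
    simp
  have h2 : w.length = ∑ i : Fin 3, w.count i := by
    rw [← List.sum_toFinset_count_eq_length, hu]
  have hc : ∀ i, 1 ≤ w.count i := fun i => List.count_pos_iff.2 (hw i)
  rw [Fin.sum_univ_three] at h1 h2
  have key : ∀ c m : ℕ, 1 ≤ c → 1 ≤ m → m + c ≤ c * m + 1 := by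
    intro c m hc hm
    obtain ⟨c, rfl⟩ := Nat.exists_eq_add_of_le hc
    obtain ⟨m, rfl⟩ := Nat.exists_eq_add_of_le hm
    nlinarith
  have k0 := key _ _ (hc 0) (hk 0)
  have k1 := key _ _ (hc 1) (hk 1)
  have k2 := key _ _ (hc 2) (hk 2)
  omega

private theorem vc_main (hC : C.Cub) {v₀ v₁ v₂ v₃ : Q} (h : Split v₀ v₁ v₂ v₃) (n : ℕ) :
    ∀ (k : Fin 3 → ℕ), (∀ i, 1 ≤ k i) → 3 * C.N ≤ k 0 + k 1 + k 2 + n → ∀ x y z : U,
      C.S v₀ v₁ x → C.S v₁ v₂ y → C.S v₂ v₃ z → x ∈ C.vcJ (k 0) → y ∈ C.vcJ (k 1) → z ∈ C.vcJ (k 2) →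
      x * y * z = 0 := by
  induction n with
  | zero =>
    intro k hk hN x y z _ _ _ hx hy hz
    have : C.N ≤ k 0 ∨ C.N ≤ k 1 ∨ C.N ≤ k 2 := by omega
    rcases this with h' | h' | h'
    · rw [C.vcJ_zero h' hx]; simp
    · rw [C.vcJ_zero h' hy]; simp
    · rw [C.vcJ_zero h' hz]; simp
  | succ n ih =>
    intro k hk hN x y z sx sy sz hx hy hz
    obtain ⟨G, hG, hp, hG0⟩ := hC
    have hr : C.Srt ![v₀, v₁, v₂] ![v₁, v₂, v₃] ![x, y, z] := by
      intro i
      fin_cases i
      · exact sx
      · exact sy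
      · exact sz
    have hdep : ∀ i, (![x, y, z] : Fin 3 → U) i ∈ C.vcJ (k i) := by
      intro i
      fin_cases i
      · exact hx
      · exact hy
      · exact hz
    have hA : ∀ i, (![x, y, z] : Fin 3 → U) i ∈ C.A := by
      intro i
      fin_cases i
      · exact C.S_mem sx
      · exact C.S_mem sy
      · exact C.S_mem sz
    have h0 := hG0 ![x, y, z] hA
    have h1 : (G.sum fun w c => c • (C.e v₀ * w3 ![x, y, z] w * C.e v₃)) = 0 := by
      have h2 : C.e v₀ * (G.sum fun w c => c • w3 ![x, y, z] w) * C.e v₃ = 0 := by rw [h0]; simp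
      rw [Finsupp.sum, Finset.mul_sum, Finset.sum_mul] at h2
      rw [Finsupp.sum, ← h2]
      refine Finset.sum_congr rfl fun w _ => ?_
      rw [mul_smul_comm, smul_mul_assoc]
    have hz0 : ∀ w ∈ G.support, w ≠ [0, 1, 2] → C.e v₀ * w3 ![x, y, z] w * C.e v₃ = 0 := by
      intro w hw hne
      by_contra hcon
      have hpth := C.prod_ne_zero_pth hr w v₀ v₃ hcon
      rcases h w (hG w hw) hpth with h' | ⟨h4, w₁, w₂, w₃, hww, n1, n2, n3, p1, p2, p3⟩
      · exact hne h'
      · apply hcon
        have hd := vc_depth hk (hG w hw) h4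
        have q1 := C.vcJ_word hdep w₁
        have q2 := C.vcJ_word hdep w₂
        have q3 := C.vcJ_word hdep w₃
        have t1 := C.S_path hr w₁ v₀ v₁ n1 p1
        have t2 := C.S_path hr w₂ v₁ v₂ n2 p2
        have t3 := C.S_path hr w₃ v₂ v₃ n3 p3
        have hlen : ∀ l : List (Fin 3), l ≠ [] → 1 ≤ (l.map k).sum := by
          intro l hl
          cases l with
          | nil => exact absurd rfl hl
          | cons i l =>
            simp only [List.map_cons, List.sum_cons]
            have := hk i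
            omega
        have e := ih ![(w₁.map k).sum, (w₂.map k).sum, (w₃.map k).sum] (by
            intro i
            fin_cases i
            · exact hlen w₁ n1
            · exact hlen w₂ n2
            · exact hlen w₃ n3) (by
            change 3 * C.N ≤ (w₁.map k).sum + (w₂.map k).sum + (w₃.map k).sum + n
            rw [hww] at hd
            simp only [List.map_append, List.sum_append] at hd
            omega) _ _ _ t1 t2 t3 q1 q2 q3
        unfold w3
        rw [hww, List.map_append, List.map_append, List.prod_append, List.prod_append, e]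
        simp
    have hs : (G.sum fun w c => c • (C.e v₀ * w3 ![x, y, z] w * C.e v₃)) =
        G [0, 1, 2] • (C.e v₀ * w3 ![x, y, z] [0, 1, 2] * C.e v₃) := by
      rw [Finsupp.sum]
      refine Finset.sum_eq_single _ ?_ ?_
      · intro w hw hne
        rw [hz0 w hw hne, smul_zero]
      · intro hns
        rw [Finsupp.notMem_support_iff.1 hns, zero_smul]
    rw [hs] at h1
    have hv : C.e v₀ * w3 ![x, y, z] [0, 1, 2] * C.e v₃ = x * y * z := by
      have e1 : w3 ![x, y, z] [0, 1, 2] = x * y * z := by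
        simp [w3, mul_assoc]
      rw [e1]
      calc C.e v₀ * (x * y * z) * C.e v₃ = (C.e v₀ * x) * y * (z * C.e v₃) := by noncomm_ring
        _ = x * y * z := by rw [sx.2.1, sz.2.2]
    rw [hv] at h1
    have hmem : x * y * z ∈ C.A := by
      rw [mul_assoc]
      exact C.A_right _ _ (C.S_mem sx)
    exact C.tors_unit hp hmem h1

theorem vanCore (hC : C.Cub) {v₀ v₁ v₂ v₃ : Q} (h : Split v₀ v₁ v₂ v₃) {x y z : U}
    (hx : C.S v₀ v₁ x) (hy : C.S v₁ v₂ y) (hz : C.S v₂ v₃ z) : x * y * z = 0 :=
  C.vc_main hC h (3 * C.N) (fun _ => 1) (fun _ => le_rfl) (by omega) x y z hx hy hz (C.vcJ_one hx.1)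
    (C.vcJ_one hy.1) (C.vcJ_one hz.1)

end Base

end ADM
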