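import Pool.Agent.ADM.DefC
import Pool.Agent.ADM.Arith

/-!
# ADM-ComM

Pure arithmetic: words of length at most 3 of type M in the same class.  The weights are considered in the ring `ZMod (p ^ r - 1)`.
-/

namespace ADM

open AD ADN

/-- admissible words of type M -/
def AdM {ι : Type} (r : ℕ) (σ : ι → ℕ) (v : List ι) : Prop :=
  v.length ≤ 3 ∧ (∃ k ∈ v, ¬ r ∣ σ k) ∧ ∀ x y z, v = [x, y, z] → r ∣ σ x + σ y ∧ r ∣ σ y + σ z

/-- weights in a commutative ring -/
private def comM_wr {ι R : Type} [DecidableEq ι] [CommRing R] (W : ι → R) : List ι → ι → R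
  | [], _ => 0
  | l :: v, k => (if l = k then 1 else 0) + W l * comM_wr W v k

section

variable {ι R : Type} [DecidableEq ι] [CommRing R] {W : ι → R} {Sp : Prop}

private theorem comM_33 (hW : ∀ k, W k ≠ 0) (h1 : (1 : R) ≠ 0) (h2 : (2 : R) ≠ 0) (h3 : (3 : R) = 0 → Sp)
    {a b c x y z : ι} (hab : W a * W b = 1) (hbc : W b * W c = 1) (hxy : W x * W y = 1) (hyz : W y * W z = 1)
    (ht : W a ≠ 1)
    (hy : y = a ∨ y = b ∨ y = c) (hb : b = x ∨ b = y ∨ b = z)
    (hw : ∀ k, comM_wr W [a, b, c] k = comM_wr W [x, y, z] k) :
    [x, y, z] = [a, b, c] ∨ [x, y, z] = [c, b, a] ∨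
      (Sp ∧ ∃ s t, s ≠ t ∧ [a, b, c] = [s, t, s] ∧ [x, y, z] = [t, s, t]) := by
  have key : ∀ k, (if a = k then (1 : R) else 0) + W a * (if b = k then 1 else 0) + (if c = k then 1 else 0) =
      (if x = k then (1 : R) else 0) + W x * (if y = k then 1 else 0) + (if z = k then 1 else 0) := by
    intro k
    have h := hw k
    unfold comM_wr comM_wr comM_wr comM_wr at h
    linear_combination h - (if c = k then (1 : R) else 0) * hab + (if z = k then (1 : R) else 0) * hxy
  by_cases hby : b = y
  · subst hby
    have hax : W a = W x := by linear_combination W x * hab - W a * hxy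
    have ha := key a
    have hc := key c
    rw [hax] at ha hc
    by_cases hac : a = c
    · subst hac
      have e1 : x = a ∧ z = a := by
        by_cases e1 : x = a <;> by_cases e2 : z = a
        · exact ⟨e1, e2⟩
        · exfalso
          rw [if_pos e1, if_neg e2, if_pos rfl] at ha
          exact h1 (by linear_combination ha)
        · exfalso
          rw [if_neg e1, if_pos e2, if_pos rfl] at ha
          exact h1 (by linear_combination ha)
        · exfalso
          rw [if_neg e1, if_neg e2, if_pos rfl] at ha
          exact h2 (by linear_combination ha)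
      left
      rw [e1.1, e1.2]
    · have hca : ¬ c = a := fun h => hac h.symm
      rw [if_pos rfl, if_neg hca] at ha
      rw [if_neg hac, if_pos rfl] at hc
      by_cases e1 : x = a <;> by_cases e2 : z = a
      · exfalso
        rw [if_pos e1, if_pos e2] at ha
        exact h1 (by linear_combination -ha)
      · have e1' : ¬ x = c := fun h => hac (e1.symm.trans h)
        have e3 : z = c := by
          by_contra e3
          rw [if_neg e1', if_neg e3] at hc
          exact h1 (by linear_combination hc)
        left
        rw [e1, e3]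
      · have e2' : ¬ z = c := fun h => hac (e2.symm.trans h)
        have e3 : x = c := by
          by_contra e3
          rw [if_neg e2', if_neg e3] at hc
          exact h1 (by linear_combination hc)
        right
        left
        rw [e2, e3]
      · exfalso
        rw [if_neg e1, if_neg e2] at ha
        exact h1 (by linear_combination ha)
  · have hyb : ¬ y = b := fun h => hby h.symm
    have kb := key b
    have ky := key y
    rw [if_pos rfl, if_neg hyb] at kb
    rw [if_neg hby, if_pos rfl] at ky
    have hWa := hW a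
    have hWx := hW x
    have hWb : W b ≠ 1 := by
      intro h
      rw [h, mul_one] at hab
      exact ht hab
    -- `x = z = b`
    have hxb : x = b ∧ z = b ∧ ¬ a = b ∧ ¬ c = b := by
      have hy' : y = a ∨ y = c := by tauto
      have hb' : x = b ∨ z = b := by
        rcases hb with h | h | h
        · exact Or.inl h.symm
        · exact absurd h hby
        · exact Or.inr h.symm
      have hn : ¬ (a = b ∧ c = b) := by
        rintro ⟨e1, e2⟩
        rcases hy' with h | h
        · exact hyb (h.trans e1)
        · exact hyb (h.trans e2)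
      by_cases e1 : x = b <;> by_cases e2 : z = b <;> by_cases e3 : a = b <;> by_cases e4 : c = b
      · exact absurd ⟨e3, e4⟩ hn
      · exfalso
        rw [if_pos e1, if_pos e2, if_pos e3, if_neg e4] at kb
        exact ht (by linear_combination kb)
      · exfalso
        rw [if_pos e1, if_pos e2, if_neg e3, if_pos e4] at kb
        exact ht (by linear_combination kb)
      · exact ⟨e1, e2, e3, e4⟩
      · exact absurd ⟨e3, e4⟩ hn
      · exfalso
        rw [if_pos e1, if_neg e2, if_pos e3, if_neg e4] at kb
        exact hWa (by linear_combination kb)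
      · exfalso
        rw [if_pos e1, if_neg e2, if_neg e3, if_pos e4] at kb
        exact hWa (by linear_combination kb)
      · exfalso
        rw [if_pos e1, if_neg e2, if_neg e3, if_neg e4] at kb
        exact ht (by linear_combination kb)
      · exact absurd ⟨e3, e4⟩ hn
      · exfalso
        rw [if_neg e1, if_pos e2, if_pos e3, if_neg e4] at kb
        exact hWa (by linear_combination kb)
      · exfalso
        rw [if_neg e1, if_pos e2, if_neg e3, if_pos e4] at kb
        exact hWa (by linear_combination kb)
      · exfalso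
        rw [if_neg e1, if_pos e2, if_neg e3, if_neg e4] at kb
        exact ht (by linear_combination kb)
      all_goals exact absurd hb' (by tauto)
    obtain ⟨e1, e2, e3, e4⟩ := hxb
    rw [if_pos e1, if_pos e2, if_neg e3, if_neg e4] at kb
    have e5 : ¬ x = y := fun h => hby (e1.symm.trans h)
    have e6 : ¬ z = y := fun h => hby (e2.symm.trans h)
    rw [if_neg e5, if_neg e6, e1] at ky
    by_cases e7 : a = y <;> by_cases e8 : c = y
    · rw [if_pos e7, if_pos e8] at ky
      right
      right
      refine ⟨h3 ?_, a, b, e3, ?_, ?_⟩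
      · linear_combination hab - W b * kb + 2 * ky
      · rw [e8, e7]
      · rw [e1, e2, ← e7]
    · exfalso
      rw [if_pos e7, if_neg e8] at ky
      exact hWb (by linear_combination -ky)
    · exfalso
      rw [if_neg e7, if_pos e8] at ky
      exact hWb (by linear_combination -ky)
    · exfalso
      rcases hy with h | h | h
      · exact e7 h.symm
      · exact hyb h
      · exact e8 h.symm

private theorem comM_23 (hW : ∀ k, W k ≠ 0) (h1 : (1 : R) ≠ 0)
    {a b x y z : ι} (hxy : W x * W y = 1) (hyz : W y * W z = 1)
    (hx : x = a ∨ x = b) (hy : y = a ∨ y = b) (hz : z = a ∨ z = b)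
    (ha : a = x ∨ a = y ∨ a = z)
    (hw : ∀ k, comM_wr W [a, b] k = comM_wr W [x, y, z] k) : False := by
  have hxz : W x = W z := by linear_combination W x * (-hyz) + W z * hxy
  have key : ∀ k, (if a = k then (1 : R) else 0) + W a * (if b = k then 1 else 0) =
      (if x = k then (1 : R) else 0) + W x * (if y = k then 1 else 0) + (if z = k then 1 else 0) := by
    intro k
    have h := hw k
    unfold comM_wr comM_wr comM_wr comM_wr at h
    linear_combination h + (if z = k then (1 : R) else 0) * hxy
  have ka := key a
  have kb := key b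
  by_cases hab : a = b
  · subst hab
    have e1 : x = a := by tauto
    have e2 : y = a := by tauto
    have e3 : z = a := by tauto
    rw [e1, e2, e3, if_pos rfl] at ka
    exact h1 (by linear_combination -ka)
  · have hba : ¬ b = a := fun h => hab h.symm
    rw [if_pos rfl, if_neg hba] at ka
    rw [if_neg hab, if_pos rfl] at kb
    rcases hx with rfl | rfl
    · rcases hz with rfl | rfl
      · rcases hy with rfl | rfl
        · simp only [if_true, if_neg hab] at ka kb
          exact hW _ (by linear_combination kb)
        · simp only [if_true, if_neg hab, if_neg hba] at ka kb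
          exact h1 (by linear_combination -ka)
      · rcases hy with rfl | rfl
        · simp only [if_true, if_neg hab, if_neg hba] at ka kb
          exact hW _ (by linear_combination -ka)
        · simp only [if_true, if_neg hab, if_neg hba] at ka kb
          exact h1 (by linear_combination -kb)
    · rcases hz with rfl | rfl
      · rcases hy with rfl | rfl
        · simp only [if_true, if_neg hab, if_neg hba] at ka kb
          exact hW x (by linear_combination -ka)
        · simp only [if_true, if_neg hab, if_neg hba] at ka kb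
          exact h1 (by linear_combination -kb - hxz)
      · rcases hy with rfl | rfl
        · simp only [if_true, if_neg hab, if_neg hba] at ka kb
          exact h1 (by linear_combination hxy + W y * ka - kb)
        · rcases ha with h | h | h <;> exact hab h

end

theorem comM {ι : Type} [DecidableEq ι] {p r : ℕ} (hp : p.Prime) (hr : 2 ≤ r) (σ : ι → ℕ) (v v' : List ι)
    (hv : AdM r σ v) (hv' : AdM r σ v') (hs : v.toFinset = v'.toFinset)
    (hw : ∀ k, Ctx.wt p σ v k ≡ Ctx.wt p σ v' k [MOD (p ^ r - 1)])
    (ht : Ctx.tot σ v ≡ Ctx.tot σ v' [MOD r]) :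
    v' = v ∨ (v.length = 3 ∧ v' = v.reverse) ∨
      (p = 2 ∧ r = 2 ∧ ∃ x, (v = [x] ∧ v' = [x, x, x]) ∨ (v = [x, x, x] ∧ v' = [x])) ∨
      (p = 2 ∧ r = 2 ∧ ∃ x y, x ≠ y ∧ v = [x, y, x] ∧ v' = [y, x, y]) := by
  have hp2 := hp.two_le
  have hn4 : 4 ≤ p ^ r := by
    calc 4 = 2 ^ 2 := by norm_num
      _ ≤ p ^ 2 := Nat.pow_le_pow_left hp2 2
      _ ≤ p ^ r := Nat.pow_le_pow_right hp.pos hr
  -- special case
  have hsp4 : p ^ r ≤ 4 → p = 2 ∧ r = 2 := by
    intro h
    have h5 : p ^ 2 ≤ 4 := (Nat.pow_le_pow_right hp.pos hr).trans h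
    have h6 : p = 2 := by
      by_contra h7
      have h8 : 3 ≤ p := by omega
      have h9 : 3 ^ 2 ≤ p ^ 2 := Nat.pow_le_pow_left h8 2
      omega
    subst h6
    refine ⟨rfl, ?_⟩
    by_contra h7
    have h8 : 3 ≤ r := by omega
    have h9 : 2 ^ 3 ≤ 2 ^ r := Nat.pow_le_pow_right (by norm_num) h8
    omega
  set n := p ^ r - 1 with hn
  let W : ι → ZMod n := fun k => (p : ZMod n) ^ σ k
  have hWdef : ∀ k, W k = ((p ^ σ k : ℕ) : ZMod n) := fun k => by simp [W]
  have hW : ∀ k, W k ≠ 0 := by
    intro k h
    rw [hWdef, ← Nat.cast_zero, ZMod.natCast_eq_natCast_iff] at h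
    exact pow_not_zero hp hr _ h
  have cst : ∀ m : ℕ, 0 < m → m < n → ((m : ℕ) : ZMod n) ≠ 0 := by
    intro m h0 h1 h
    rw [ZMod.natCast_eq_zero_iff] at h
    exact absurd (Nat.le_of_dvd h0 h) (by omega)
  have h1 : (1 : ZMod n) ≠ 0 := by
    have := cst 1 one_pos (by omega)
    simpa using this
  have h2 : (2 : ZMod n) ≠ 0 := by
    have := cst 2 two_pos (by omega)
    simpa using this
  have h3 : (3 : ZMod n) = 0 → (p = 2 ∧ r = 2) := by
    intro h
    apply hsp4
    have h4 : ((3 : ℕ) : ZMod n) = 0 := by exact_mod_cast h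
    rw [ZMod.natCast_eq_zero_iff] at h4
    have := Nat.le_of_dvd (by norm_num) h4
    omega
  have hW1 : ∀ k, W k = 1 ↔ r ∣ σ k := by
    intro k
    rw [hWdef, ← Nat.cast_one, ZMod.natCast_eq_natCast_iff]
    exact pow_modEq_one_iff hp hr _
  have hneg : ∀ k, W k + 1 = 0 → (p = 2 ∧ r = 2) := by
    intro k h
    apply hsp4
    have hr0 : 0 < r := by omega
    have h4 : p ^ (σ k) ≡ p ^ (σ k % r) [MOD n] := (pow_modEq_iff hp hr _ _).2 (Nat.mod_modEq _ _).symm
    have h5 : (((p ^ (σ k % r) + 1 : ℕ)) : ZMod n) = 0 := by
      rw [← ZMod.natCast_eq_natCast_iff] at h4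
      rw [Nat.cast_add, ← h4, Nat.cast_one, ← hWdef]
      exact h
    rw [ZMod.natCast_eq_zero_iff] at h5
    have h6 := Nat.le_of_dvd (by omega) h5
    have h7 : p ^ (σ k % r) ≤ p ^ (r - 1) :=
      Nat.pow_le_pow_right hp.pos (by have := Nat.mod_lt (σ k) hr0; omega)
    have h8 : p ^ r = p ^ (r - 1) * p := by
      rw [← pow_succ]; congr 1; omega
    have h9 : p ^ (r - 1) * 2 ≤ p ^ (r - 1) * p := Nat.mul_le_mul_left _ hp2
    have h10 : 2 ≤ p ^ (r - 1) := by
      calc 2 ≤ p := hp2
        _ = p ^ 1 := (pow_one p).symm
        _ ≤ p ^ (r - 1) := Nat.pow_le_pow_right hp.pos (by omega)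
    by_contra h11
    rcases Nat.lt_or_ge p 3 with h12 | h12
    · have h13 : p = 2 := by omega
      rw [h13] at h6 h7 h8 h9 h10 hn hn4 h11
      omega
    · have h13 : p ^ (r - 1) * 3 ≤ p ^ (r - 1) * p := Nat.mul_le_mul_left _ h12
      omega
  have hmul : ∀ x y, r ∣ σ x + σ y → W x * W y = 1 := by
    intro x y h
    have h4 := (pow_modEq_one_iff hp hr (σ x + σ y)).2 h
    rw [← ZMod.natCast_eq_natCast_iff] at h4
    rw [hWdef, hWdef, ← Nat.cast_mul, ← pow_add, h4, Nat.cast_one]
  have hwt : ∀ (u : List ι) (k : ι), ((Ctx.wt p σ u k : ℕ) : ZMod n) = comM_wr W u k := by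
    intro u k
    induction u with
    | nil => simp [Ctx.wt, comM_wr]
    | cons l u ih =>
      rw [Ctx.wt, comM_wr, Nat.cast_add, Nat.cast_mul, ih, hWdef]
      congr 1
      split_ifs <;> simp
  have hwr : ∀ k, comM_wr W v k = comM_wr W v' k := by
    intro k
    rw [← hwt, ← hwt, ZMod.natCast_eq_natCast_iff]
    exact hw k
  have hmem : ∀ k, k ∈ v ↔ k ∈ v' := by
    intro k
    rw [← List.mem_toFinset, hs, List.mem_toFinset]
  have htw : ∃ k ∈ v, W k ≠ 1 := by
    obtain ⟨k, hk, hk'⟩ := hv.2.1
    exact ⟨k, hk, fun h => hk' ((hW1 k).1 h)⟩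
  have hl := hv.1
  have hl' := hv'.1
  have h33 := hv.2.2
  have h33' := hv'.2.2
  clear_value W
  clear hw hs ht hv hv' hwt hWdef
  rcases v with _ | ⟨a, _ | ⟨b, _ | ⟨c, _ | ⟨d, t⟩⟩⟩⟩
  · obtain ⟨k, hk, _⟩ := htw
    simp at hk
  · rcases v' with _ | ⟨x, _ | ⟨y, _ | ⟨z, _ | ⟨d', t'⟩⟩⟩⟩
    · have := (hmem a).1 (by simp)
      simp at this
    · have := (hmem a).1 (by simp)
      left
      simp at this
      rw [this]
    · exfalso
      have e1 := (hmem x).2 (by simp)
      have e2 := (hmem y).2 (by simp)
      simp only [List.mem_singleton] at e1 e2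
      subst e1
      rw [e2] at hwr
      have h := hwr x
      simp only [comM_wr, if_true, mul_zero, add_zero, mul_one] at h
      exact hW x (by linear_combination -h)
    · have e1 := (hmem x).2 (by simp)
      have e2 := (hmem y).2 (by simp)
      have e3 := (hmem z).2 (by simp)
      simp only [List.mem_singleton] at e1 e2 e3
      subst e1
      rw [e2, e3] at hwr h33' ⊢
      have hxx := hmul x x (h33' x x x rfl).1
      have h := hwr x
      simp only [comM_wr, if_true, mul_zero, add_zero, mul_one] at h
      obtain ⟨s1, s2⟩ := hneg x (by linear_combination -h - hxx)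
      exact Or.inr (Or.inr (Or.inl ⟨s1, s2, x, Or.inl ⟨rfl, rfl⟩⟩))
    · simp only [List.length_cons] at hl'
      omega
  · rcases v' with _ | ⟨x, _ | ⟨y, _ | ⟨z, _ | ⟨d', t'⟩⟩⟩⟩
    · have := (hmem a).1 (by simp)
      simp at this
    · exfalso
      have e1 := (hmem a).1 (by simp)
      have e2 := (hmem b).1 (by simp)
      simp only [List.mem_singleton] at e1 e2
      subst e1
      rw [e2] at hwr
      have h := hwr a
      simp only [comM_wr, if_true, mul_zero, add_zero, mul_one] at h
      exact hW a (by linear_combination h)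
    · have e1 := (hmem x).2 (by simp)
      have e2 := (hmem y).2 (by simp)
      have e3 := (hmem a).1 (by simp)
      have e4 := (hmem b).1 (by simp)
      simp only [List.mem_cons, List.not_mem_nil, or_false] at e1 e2 e3 e4
      by_cases hab : a = b
      · subst hab
        left
        have f1 : x = a := by tauto
        have f2 : y = a := by tauto
        rw [f1, f2]
      · have hba : ¬ b = a := fun h => hab h.symm
        rcases e1 with rfl | rfl
        · rcases e2 with rfl | rfl
          · exfalso
            rcases e4 with h | h <;> exact hba h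
          · left
            rfl
        · rcases e2 with rfl | rfl
          · exfalso
            have ha := hwr y
            have hb := hwr x
            simp only [comM_wr, if_true, if_neg hab, if_neg hba, mul_zero, add_zero, mul_one, zero_add] at ha hb
            obtain ⟨k, hk, hk'⟩ := htw
            simp only [List.mem_cons, List.not_mem_nil, or_false] at hk
            rcases hk with rfl | rfl
            · exact hk' hb
            · exact hk' ha.symm
          · exfalso
            rcases e3 with h | h <;> exact hab h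
    · exfalso
      have e1 := (hmem x).2 (by simp)
      have e2 := (hmem y).2 (by simp)
      have e3 := (hmem z).2 (by simp)
      have e4 := (hmem a).1 (by simp)
      simp only [List.mem_cons, List.not_mem_nil, or_false] at e1 e2 e3 e4
      obtain ⟨g1, g2⟩ := h33' x y z rfl
      exact comM_23 hW h1 (hmul _ _ g1) (hmul _ _ g2) e1 e2 e3 e4 hwr
    · simp only [List.length_cons] at hl'
      omega
  · obtain ⟨f1, f2⟩ := h33 a b c rfl
    have hab := hmul _ _ f1
    have hbc := hmul _ _ f2
    rcases v' with _ | ⟨x, _ | ⟨y, _ | ⟨z, _ | ⟨d', t'⟩⟩⟩⟩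
    · have := (hmem a).1 (by simp)
      simp at this
    · have e1 := (hmem a).1 (by simp)
      have e2 := (hmem b).1 (by simp)
      have e3 := (hmem c).1 (by simp)
      simp only [List.mem_singleton] at e1 e2 e3
      subst e1
      rw [e2, e3] at hwr ⊢
      rw [e2] at hab
      have h := hwr a
      simp only [comM_wr, if_true, mul_zero, add_zero, mul_one] at h
      obtain ⟨s1, s2⟩ := hneg a (by linear_combination h - hab)
      exact Or.inr (Or.inr (Or.inl ⟨s1, s2, a, Or.inr ⟨rfl, rfl⟩⟩))
    · exfalso
      have e1 := (hmem a).1 (by simp)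
      have e2 := (hmem b).1 (by simp)
      have e3 := (hmem c).1 (by simp)
      have e4 := (hmem x).2 (by simp)
      simp only [List.mem_cons, List.not_mem_nil, or_false] at e1 e2 e3 e4
      exact comM_23 hW h1 hab hbc e1 e2 e3 e4 (fun k => (hwr k).symm)
    · obtain ⟨g1, g2⟩ := h33' x y z rfl
      have hta : W a ≠ 1 := by
        intro h
        obtain ⟨k, hk, hk'⟩ := htw
        have hb1 : W b = 1 := by rw [h, one_mul] at hab; exact hab
        have hc1 : W c = 1 := by rw [hb1, one_mul] at hbc; exact hbc
        simp only [List.mem_cons, List.not_mem_nil, or_false] at hk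
        rcases hk with rfl | rfl | rfl
        · exact hk' h
        · exact hk' hb1
        · exact hk' hc1
      have e2 := (hmem y).2 (by simp)
      have e5 := (hmem b).1 (by simp)
      simp only [List.mem_cons, List.not_mem_nil, or_false] at e2 e5
      rcases comM_33 hW h1 h2 h3 hab hbc (hmul _ _ g1) (hmul _ _ g2) hta e2 e5 hwr with h | h | ⟨hs, h⟩
      · exact Or.inl h
      · exact Or.inr (Or.inl ⟨rfl, h⟩)
      · exact Or.inr (Or.inr (Or.inr ⟨hs.1, hs.2, h⟩))
    · simp only [List.length_cons] at hl'
      omega
  · simp only [List.length_cons] at hl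
    omega

end ADM
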