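import Pool.Agent.ADM.Defs

/-!
# ADM-Fld

A generator of the multiplicative group of a finite field and its conjugates.

PLAN.  `Fˣ` is cyclic (`IsCyclic.exists_generator`), of order `p ^ r - 1`; `g` = a generator.  First three statements: `orderOf g`.
`CharP F p`, `Algebra (ZMod p) F` (`ZMod.algebra`).  `f` = a lift to `ℤ[X]` of `minpoly (ZMod p) g` (`Polynomial.map_surjective` for
`Int.castRingHom (ZMod p)`); `aeval (g ^ j) f = aeval (g ^ j) (minpoly (ZMod p) g)` (`Polynomial.aeval_map_algebraMap` or `eval₂`).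
The degree of the minimal polynomial is at most `r = finrank (ZMod p) F` (`minpoly.natDegree_le`), and the `r` elements
`g ^ p ^ σ`, `σ < r`, are roots of it (Frobenius: `minpoly` has coefficients in `ZMod p`; `frobenius`, or `(aeval x q) ^ p = aeval (x ^ p) q`,
`ZMod.expand_card`) and pairwise different: `p ^ σ < p ^ r - 1` for `σ < r`, unless `r = 1` (only one element) (if
`r ≥ 2`, `p ^ σ ≤ p ^ (r - 1) < p ^ r - 1`), so two of them are equal only if the exponents are equal.  So these are all roots
(`Polynomial.card_roots'`), and `g ^ j = g ^ p ^ σ` gives `j ≡ p ^ σ [MOD p ^ r - 1]` (`pow_eq_pow_iff_modEq`).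
-/

namespace ADM

open AD ADN

private theorem fld_aeval (p : ℕ) (F : Type) [Field F] [Algebra (ZMod p) F] (x : F) (f : Polynomial ℤ) :
    Polynomial.aeval x f = Polynomial.aeval x (f.map (Int.castRingHom (ZMod p))) := by
  rw [Polynomial.aeval_def, Polynomial.aeval_def, Polynomial.eval₂_map]
  congr 1
  exact RingHom.ext_int _ _

private theorem fld_frob (p : ℕ) [Fact p.Prime] (F : Type) [Field F] [Algebra (ZMod p) F]
    (q : Polynomial (ZMod p)) (g : F) (h : Polynomial.aeval g q = 0) (σ : ℕ) :
    Polynomial.aeval (g ^ p ^ σ) q = 0 := by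
  induction σ with
  | zero => simpa using h
  | succ σ ih =>
    rw [pow_succ, pow_mul, ← Polynomial.expand_aeval, ZMod.expand_card, map_pow, ih]
    exact zero_pow (Fact.out : p.Prime).ne_zero

private theorem fld_lt {p r σ : ℕ} (hp : 2 ≤ p) (hr : 2 ≤ r) (hσ : σ < r) : p ^ σ < p ^ r - 1 := by
  obtain ⟨s, rfl⟩ : ∃ s, r = s + 1 := ⟨r - 1, by omega⟩
  have h1 : p ^ σ ≤ p ^ s := Nat.pow_le_pow_right (by omega) (by omega)
  have h2 : p ^ 1 ≤ p ^ s := Nat.pow_le_pow_right (by omega) (by omega)
  have h3 : p ^ (s + 1) = p ^ s * p := pow_succ p s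
  have h4 : p ^ s * 2 ≤ p ^ s * p := Nat.mul_le_mul_left _ hp
  rw [pow_one] at h2
  omega

theorem fld (p r : ℕ) (hp : p.Prime) (hr : 1 ≤ r) (F : Type) [Field F] [Finite F]
    (hF : Nat.card F = p ^ r) :
    ∃ g : F, g ^ (p ^ r - 1) = 1 ∧ (∀ m, ¬ (p ^ r - 1) ∣ m → g ^ m ≠ 1) ∧
      (∀ c : F, c ≠ 0 → ∃ m < p ^ r - 1, c = g ^ m) ∧
      ∃ f : Polynomial ℤ, Polynomial.aeval g f = 0 ∧
        ∀ j : ℕ, Polynomial.aeval (g ^ j) f = 0 → ∃ σ < r, j ≡ p ^ σ [MOD (p ^ r - 1)] := by
  classical
  have : Fact p.Prime := ⟨hp⟩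
  have : Fintype F := Fintype.ofFinite F
  obtain ⟨q, hq⟩ := CharP.exists F
  have hqp : q = p := by
    have := hq
    obtain ⟨n, hq1, hn⟩ := FiniteField.card F q
    rw [← Nat.card_eq_fintype_card, hF] at hn
    have h1 : q ∣ p ^ r := by
      rw [hn]
      exact dvd_pow_self q n.ne_zero
    exact (Nat.prime_dvd_prime_iff_eq hq1 hp).1 (hq1.dvd_of_dvd_pow h1)
  subst hqp
  have := hq
  let : Algebra (ZMod q) F := ZMod.algebra F q
  have hfr : Module.finrank (ZMod q) F = r := by
    have h1 := Module.natCard_eq_pow_finrank (K := ZMod q) (V := F)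
    rw [hF, Nat.card_zmod] at h1
    exact (Nat.pow_right_injective hp.two_le h1).symm
  obtain ⟨u, hu⟩ := IsCyclic.exists_generator (α := Fˣ)
  have hou : orderOf u = q ^ r - 1 := by
    rw [orderOf_eq_card_of_forall_mem_zpowers hu, Nat.card_units, hF]
  have hog : orderOf (u : F) = q ^ r - 1 := by rw [orderOf_units, hou]
  refine ⟨(u : F), ?_, ?_, ?_, ?_⟩
  · rw [← hog]
    exact pow_orderOf_eq_one _
  · intro m hm h
    exact hm (hog ▸ orderOf_dvd_of_pow_eq_one h)
  · intro c hc
    have h1 : Units.mk0 c hc ∈ Subgroup.zpowers u := hu _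
    rw [mem_zpowers_iff_mem_range_orderOf, Finset.mem_image] at h1
    obtain ⟨m, hm, h2⟩ := h1
    refine ⟨m, hou ▸ Finset.mem_range.1 hm, ?_⟩
    have h3 := congrArg Units.val h2
    rw [Units.val_pow_eq_pow_val, Units.val_mk0] at h3
    exact h3.symm
  · obtain ⟨f, hf⟩ := Polynomial.map_surjective (Int.castRingHom (ZMod q))
      (ZMod.ringHom_surjective _) (minpoly (ZMod q) (u : F))
    refine ⟨f, ?_, ?_⟩
    · rw [fld_aeval q, hf]
      exact minpoly.aeval _ _
    · intro j hj
      rw [fld_aeval q, hf] at hj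
      have hint : IsIntegral (ZMod q) (u : F) := Algebra.IsIntegral.isIntegral _
      have hne : (minpoly (ZMod q) (u : F)).map (algebraMap (ZMod q) F) ≠ 0 :=
        Polynomial.map_ne_zero (minpoly.ne_zero hint)
      have hroot : ∀ x : F, Polynomial.aeval x (minpoly (ZMod q) (u : F)) = 0 →
          x ∈ ((minpoly (ZMod q) (u : F)).map (algebraMap (ZMod q) F)).roots.toFinset := by
        intro x hx
        rw [Multiset.mem_toFinset, Polynomial.mem_roots hne, Polynomial.IsRoot.def,
          Polynomial.eval_map_algebraMap]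
        exact hx
      have hinj : Set.InjOn (fun σ => (u : F) ^ q ^ σ) (Finset.range r : Set ℕ) := by
        intro σ hσ τ hτ h
        have hσ' := Finset.mem_range.1 (Finset.mem_coe.1 hσ)
        have hτ' := Finset.mem_range.1 (Finset.mem_coe.1 hτ)
        by_cases h2 : r = 1
        · omega
        · have h3 := pow_injOn_Iio_orderOf (x := (u : F))
            (by rw [hog]; exact fld_lt hp.two_le (by omega) hσ')
            (by rw [hog]; exact fld_lt hp.two_le (by omega) hτ') h
          exact Nat.pow_right_injective hp.two_le h3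
      have hS : (Finset.range r).image (fun σ => (u : F) ^ q ^ σ) =
          ((minpoly (ZMod q) (u : F)).map (algebraMap (ZMod q) F)).roots.toFinset := by
        apply Finset.eq_of_subset_of_card_le
        · intro x hx
          obtain ⟨σ, _, rfl⟩ := Finset.mem_image.1 hx
          exact hroot _ (fld_frob q F _ _ (minpoly.aeval _ _) σ)
        · rw [Finset.card_image_of_injOn hinj, Finset.card_range]
          refine (Multiset.toFinset_card_le _).trans ((Polynomial.card_roots' _).trans ?_)
          rw [Polynomial.natDegree_map, ← hfr]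
          exact minpoly.natDegree_le _
      have hm := hroot _ hj
      rw [← hS, Finset.mem_image] at hm
      obtain ⟨σ, hσ, h1⟩ := hm
      refine ⟨σ, Finset.mem_range.1 hσ, ?_⟩
      rw [← hou, ← pow_eq_pow_iff_modEq]
      apply Units.ext
      rw [Units.val_pow_eq_pow_val, Units.val_pow_eq_pow_val]
      exact h1.symm

end ADM
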