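import Pool.Agent.ADM.Defs

/-!
# ADM-HomA

Decomposition of the loops according to the commutation with a root of unity (discrete Fourier transform):
`y j = m • ∑ i ∈ range n, w ^ ((n - 1) * i * j) * x * w ^ i` with `m * n ≡ 1` modulo `p ^ K`.
-/

namespace ADM

open AD ADN

private theorem ha_e {U : Type} [Ring U] {e w : U} (h1 : e * w = w) {x : U} (hx1 : e * x = x) (k : ℕ) :
    e * (w ^ k * x) = w ^ k * x := by
  cases k with
  | zero => rw [pow_zero, one_mul, hx1]
  | succ k => rw [pow_succ', mul_assoc, ← mul_assoc e, h1]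

private theorem ha_e' {U : Type} [Ring U] {e w : U} (h2 : w * e = w) {x : U} (hx2 : x * e = x) (k : ℕ) :
    x * w ^ k * e = x * w ^ k := by
  cases k with
  | zero => rw [pow_zero, mul_one, hx2]
  | succ k => rw [pow_succ, mul_assoc, mul_assoc, h2]

private theorem ha_n {U : Type} [Ring U] {e w : U} {n : ℕ} (hw : w ^ n = e) {x : U} (hx1 : e * x = x)
    (k : ℕ) : w ^ (n * k) * x = x := by
  induction k with
  | zero => rw [mul_zero, pow_zero, one_mul]
  | succ k ih => rw [mul_add, mul_one, pow_add, mul_assoc, hw, hx1, ih]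

private theorem ha_comm {U : Type} [Ring U] {e w : U} {n : ℕ} (hn : 0 < n) (hw : w ^ n = e) {x : U}
    (hx1 : e * x = x) (hx2 : x * e = x) (j : ℕ) :
    (∑ i ∈ Finset.range n, w ^ ((n - 1) * i * j) * x * w ^ i) * w =
      w ^ j * ∑ i ∈ Finset.range n, w ^ ((n - 1) * i * j) * x * w ^ i := by
  obtain ⟨l, rfl⟩ : ∃ l, n = l + 1 := ⟨n - 1, by omega⟩
  rw [Nat.add_sub_cancel, Finset.sum_mul, Finset.mul_sum]
  have e1 : ∀ i ∈ Finset.range (l + 1), w ^ (l * i * j) * x * w ^ i * w =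
      w ^ j * (w ^ (l * (i + 1) * j) * x * w ^ (i + 1)) := by
    intro i _
    have h3 : w ^ j * (w ^ (l * (i + 1) * j) * x * w ^ (i + 1)) =
        w ^ (l * i * j) * (w ^ ((l + 1) * j) * x) * w ^ (i + 1) := by
      have h4 : j + l * (i + 1) * j = l * i * j + (l + 1) * j := by ring
      calc w ^ j * (w ^ (l * (i + 1) * j) * x * w ^ (i + 1))
          = w ^ (j + l * (i + 1) * j) * x * w ^ (i + 1) := by
            rw [pow_add w j (l * (i + 1) * j)]
            simp only [mul_assoc]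
        _ = _ := by
            rw [h4, pow_add w (l * i * j) ((l + 1) * j)]
            simp only [mul_assoc]
    rw [h3, ha_n hw hx1, pow_succ]
    noncomm_ring
  rw [Finset.sum_congr rfl e1]
  have h5 := Finset.sum_range_succ' (fun i => w ^ j * (w ^ (l * i * j) * x * w ^ i)) (l + 1)
  have h6 := Finset.sum_range_succ (fun i => w ^ j * (w ^ (l * i * j) * x * w ^ i)) (l + 1)
  have h7 : w ^ j * (w ^ (l * (l + 1) * j) * x * w ^ (l + 1)) = w ^ j * (w ^ (l * 0 * j) * x * w ^ 0) := by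
    have h8 : l * (l + 1) * j = (l + 1) * (l * j) := by ring
    rw [h8, ha_n hw hx1, hw, hx2]
    simp
  rw [h6] at h5
  rw [h7] at h5
  exact (add_right_cancel h5).symm

private theorem ha_sum {U : Type} [Ring U] {e w : U} (h1 : e * w = w) {n : ℕ} (hn : 0 < n)
    (hw : w ^ n = e) (hu : ∀ m, ¬ n ∣ m → ∃ u, u * (w ^ m - e) = e) {x : U}
    (hx1 : e * x = x) :
    ∑ j ∈ Finset.range n, ∑ i ∈ Finset.range n, w ^ ((n - 1) * i * j) * x * w ^ i = (n : ℤ) • x := by
  rw [Finset.sum_comm]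
  rw [Finset.sum_eq_single 0]
  · simp
  · intro i hi hi0
    rw [← Finset.sum_mul]
    have hdvd : ¬ n ∣ (n - 1) * i := by
      intro h
      have hc : Nat.Coprime n (n - 1) := by
        have h3 : Nat.Coprime (n - 1 + 1) (n - 1) := by simp
        rwa [Nat.sub_add_cancel hn] at h3
      have h3 := hc.dvd_of_dvd_mul_left h
      exact absurd (Nat.le_of_dvd (Nat.pos_of_ne_zero hi0) h3) (by
        have := Finset.mem_range.1 hi
        omega)
    obtain ⟨u, hu⟩ := hu _ hdvd
    set A : U := ∑ j ∈ Finset.range n, w ^ ((n - 1) * i * j) * x with hA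
    have hee : e * A = A := by
      rw [hA, Finset.mul_sum]
      exact Finset.sum_congr rfl fun j _ => ha_e h1 hx1 _
    have hv : w ^ ((n - 1) * i) * A = A := by
      rw [hA, Finset.mul_sum]
      have h3 : ∀ j ∈ Finset.range n, w ^ ((n - 1) * i) * (w ^ ((n - 1) * i * j) * x) =
          w ^ ((n - 1) * i * (j + 1)) * x := by
        intro j _
        rw [← mul_assoc, ← pow_add]
        congr 2
        ring
      rw [Finset.sum_congr rfl h3]
      have h5 := Finset.sum_range_succ' (fun j => w ^ ((n - 1) * i * j) * x) n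
      have h6 := Finset.sum_range_succ (fun j => w ^ ((n - 1) * i * j) * x) n
      have h7 : w ^ ((n - 1) * i * n) * x = w ^ ((n - 1) * i * 0) * x := by
        rw [mul_comm _ n, ha_n hw hx1]
        simp
      rw [h6] at h5
      rw [h7] at h5
      exact (add_right_cancel h5).symm
    have h0 : A = 0 := by
      have h3 : (w ^ ((n - 1) * i) - e) * A = 0 := by rw [sub_mul, hv, hee, sub_self]
      rw [← hee, ← hu, mul_assoc, h3, mul_zero]
    rw [h0, zero_mul]
  · intro h
    exact absurd (Finset.mem_range.2 hn) h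

theorem homA (p K : ℕ) (hp : p.Prime) (U : Type) [Ring U] (hU : ((p : ℤ) ^ K) • (1 : U) = 0)
    (e w : U) (he : e * e = e) (h1 : e * w = w) (h2 : w * e = w) (n : ℕ) (hn : 0 < n)
    (hnp : Nat.Coprime n p) (hw : w ^ n = e) (hu : ∀ m, ¬ n ∣ m → ∃ u, u * (w ^ m - e) = e)
    (J : AddSubgroup U) (hl : ∀ u a, a ∈ J → u * a ∈ J) (hr : ∀ u a, a ∈ J → a * u ∈ J)
    (x : U) (hx : x ∈ J) (hx1 : e * x = x) (hx2 : x * e = x) :
    ∃ y : ℕ → U, (∀ j, y j ∈ J ∧ e * y j = y j ∧ y j * e = y j ∧ y j * w = w ^ j * y j) ∧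
      x = ∑ j ∈ Finset.range n, y j := by
  have hcop : Nat.Coprime n (p ^ K) := Nat.Coprime.pow_right K hnp
  have hbez : ((n : ℕ) : ℤ) * Nat.gcdA n (p ^ K) + ((p ^ K : ℕ) : ℤ) * Nat.gcdB n (p ^ K) = 1 := by
    have h4 := Nat.gcd_eq_gcd_ab n (p ^ K)
    rw [hcop] at h4
    exact_mod_cast h4.symm
  set m : ℤ := Nat.gcdA n (p ^ K) with hm
  have hmn : m • ((n : ℤ) • x) = x := by
    have hz : ((p ^ K : ℕ) : ℤ) • x = 0 := by
      have h3 : ((p ^ K : ℕ) : ℤ) • x = (((p : ℤ) ^ K) • (1 : U)) * x := by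
        rw [smul_mul_assoc, one_mul]
        push_cast
        rfl
      rw [h3, hU, zero_mul]
    have h3 : m * (n : ℤ) = 1 - Nat.gcdB n (p ^ K) * ((p ^ K : ℕ) : ℤ) := by linarith
    rw [smul_smul, h3, sub_smul, one_smul, mul_smul, hz, smul_zero, sub_zero]
  refine ⟨fun j => m • ∑ i ∈ Finset.range n, w ^ ((n - 1) * i * j) * x * w ^ i, fun j => ⟨?_, ?_, ?_, ?_⟩, ?_⟩
  · exact J.zsmul_mem (sum_mem fun i _ => hr _ _ (hl _ _ hx)) m
  · show e * (m • _) = m • _
    rw [mul_smul_comm, Finset.mul_sum]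
    congr 1
    refine Finset.sum_congr rfl fun i _ => ?_
    rw [← mul_assoc, ha_e h1 hx1]
  · show (m • _) * e = m • _
    rw [smul_mul_assoc, Finset.sum_mul]
    congr 1
    refine Finset.sum_congr rfl fun i _ => ?_
    rw [mul_assoc (w ^ ((n - 1) * i * j)) x, mul_assoc (w ^ ((n - 1) * i * j)) (x * w ^ i), ha_e' h2 hx2]
  · show (m • _) * w = w ^ j * (m • _)
    rw [smul_mul_assoc, mul_smul_comm, ha_comm hn hw hx1 hx2]
  · show x = ∑ j ∈ Finset.range n, m • _
    rw [← Finset.smul_sum, ha_sum h1 hn hw hu hx1, hmn]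

end ADM
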