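import Pool.Agent.ADM.Uni

/-!
# ADM-HomB

A loop `y` with `y w = w ^ j y` vanishes if `w ^ j` is not conjugate to `w`.

PLAN.  `a = aeval w f`, `a' = aeval (w ^ j) f` (in `U`, a `ℤ`-algebra; both commute with `e`, `w`).
* `y * a = a' * y`: for powers `y * w ^ k = (w ^ j) ^ k * y` (induction), then linearity in `f` (`Polynomial.induction_on` or
  `Polynomial.aeval_eq_sum_range`).  Hence `y * a ^ k = a' ^ k * y`.
* `e * a` is in `ker π`; `(e * a) ^ (N + 1) = e * a ^ (N + 1) = 0` (`hN` for `List.replicate (N + 1) (e * a)`; `e` commutes with `a` because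
  `e w = w e`), so `y * a ^ (N + 1) = y * e * a ^ (N + 1) = 0` and `a' ^ (N + 1) * y = 0`.
* By `uni` for `x = e * a'` (`e * x = x = x * e`): `u * (e * a') = e`.  So `y = e * y = u * e * a' * y = u * (a' * y)` (as `e a' y = a' e y = a' y`), and by
  iteration `y = u ^ k * (a' ^ k * y)` for all `k` (`a' ^ k y` is again fixed by `e`), so `y = 0`.
-/

namespace ADM

open AD ADN

private theorem HomB_semi {U : Type} [Ring U] {y w w' : U} (h : y * w = w' * y) (g : Polynomial ℤ) :
    y * Polynomial.aeval w g = Polynomial.aeval w' g * y := by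
  have hk : ∀ k : ℕ, y * w ^ k = w' ^ k * y := fun k => (SemiconjBy.pow_right (a := y) h k)
  rw [Polynomial.aeval_eq_sum_range, Polynomial.aeval_eq_sum_range, Finset.mul_sum, Finset.sum_mul]
  refine Finset.sum_congr rfl fun i _ => ?_
  rw [mul_smul_comm, smul_mul_assoc, hk]

theorem homB (U : Type) [Ring U] (S : Type) [Ring S] (π : U →+* S) (hπ : Function.Surjective π) (N : ℕ)
    (hN : ∀ l : List U, N ≤ l.length → (∀ x ∈ l, π x = 0) → l.prod = 0)
    (e w : U) (he : e * e = e) (h1 : e * w = w) (h2 : w * e = w) (f : Polynomial ℤ)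
    (hf : π (e * Polynomial.aeval w f) = 0) (j : ℕ)
    (s : S) (hs : s * π (e * Polynomial.aeval (w ^ j) f) = π e) (y : U) (hy1 : e * y = y)
    (hy2 : y * e = y) (hy : y * w = w ^ j * y) : y = 0 := by
  obtain ⟨a, ha⟩ : ∃ a, a = Polynomial.aeval w f := ⟨_, rfl⟩
  obtain ⟨a', ha'⟩ : ∃ a', a' = Polynomial.aeval (w ^ j) f := ⟨_, rfl⟩
  rw [← ha] at hf
  rw [← ha'] at hs
  have hew : e * w = w * e := h1.trans h2.symm
  have hea : e * a = a * e := by
    rw [ha]
    exact HomB_semi hew f
  have hewj : e * w ^ j = w ^ j * e := (SemiconjBy.pow_right (a := e) hew j)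
  have hea' : e * a' = a' * e := by
    rw [ha']
    exact HomB_semi hewj f
  have hya : y * a = a' * y := by
    rw [ha, ha']
    exact HomB_semi hy f
  have hyk : ∀ k : ℕ, y * a ^ k = a' ^ k * y := fun k => (SemiconjBy.pow_right (a := y) hya k)
  have hek : ∀ k : ℕ, e * a ^ (k + 1) = (e * a) ^ (k + 1) := by
    intro k
    induction k with
    | zero => simp
    | succ k ih =>
      have h3 : a ^ (k + 1) * e = e * a ^ (k + 1) :=
        (SemiconjBy.pow_right (a := e) hea (k + 1)).symm
      calc e * a ^ (k + 1 + 1) = e * e * (a ^ (k + 1) * a) := by rw [he, pow_succ a (k + 1)]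
        _ = e * (e * a ^ (k + 1)) * a := by simp only [mul_assoc]
        _ = e * (a ^ (k + 1) * e) * a := by rw [h3]
        _ = (e * a ^ (k + 1)) * (e * a) := by simp only [mul_assoc]
        _ = (e * a) ^ (k + 1 + 1) := by rw [ih, ← pow_succ]
  have h0 : e * a ^ (N + 1) = 0 := by
    rw [hek]
    have h := hN (List.replicate (N + 1) (e * a)) (by rw [List.length_replicate]; omega) (by
      intro x hx
      rw [List.eq_of_mem_replicate hx, hf])
    rwa [List.prod_replicate] at h
  have h4 : a' ^ (N + 1) * y = 0 := by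
    rw [← hyk, ← hy2, mul_assoc, h0, mul_zero]
  obtain ⟨u, hu1, hu2⟩ := uni U S π hπ N hN e (e * a') he (by rw [← mul_assoc, he]) (by
    rw [mul_assoc, ← hea', ← mul_assoc, he]) s hs
  have hez : ∀ k : ℕ, e * (a' ^ k * y) = a' ^ k * y := by
    intro k
    have h5 : e * a' ^ k = a' ^ k * e := (SemiconjBy.pow_right (a := e) hea' k)
    rw [← mul_assoc, h5, mul_assoc, hy1]
  have hstep : ∀ k : ℕ, u * (a' ^ (k + 1) * y) = a' ^ k * y := by
    intro k
    calc u * (a' ^ (k + 1) * y) = u * (e * (a' ^ (k + 1) * y)) := by rw [hez]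
      _ = u * (e * a') * (a' ^ k * y) := by rw [pow_succ']; simp only [mul_assoc]
      _ = a' ^ k * y := by rw [hu1, hez]
  have hfin : ∀ k : ℕ, a' ^ k * y = 0 → y = 0 := by
    intro k
    induction k with
    | zero => intro h; simpa using h
    | succ k ih =>
      intro h
      apply ih
      rw [← hstep, h, mul_zero]
  exact hfin _ h4

end ADM
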