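import Pool.Agent.ADM.Defs

/-!
# ADM-Tei

Teichmueller elements.

PLAN.  `z = y ^ n - e`, `π z = 0`, `e * z = z = z * e`, `z` commutes with `e`.  For `M = K + N + 1`:
`(e + z) ^ p ^ M = e`: `(e + z) ^ m = e + ∑_{k ≥ 1} (m choose k) z ^ k` for `m ≥ 1` (binomial theorem for the commuting elements
`e`, `z`: `Commute.add_pow`, `e ^ j * z ^ k = z ^ k` for `k ≥ 1`), `z ^ k = 0` for `k ≥ N + 1` and
`p ^ K ∣ (p ^ M).choose k` for `1 ≤ k ≤ N` (`k * (p ^ M).choose k = p ^ M * (p ^ M - 1).choose (k - 1)`, and the exponent of `p` in `k` is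
`< N + 1`; see `Nat.Prime.multiplicity_choose_prime_pow`).  Another way without binomial coefficients: by induction on `j`, if
`u = e + z` with `z` in the ideal `p ^ a U + ker ^ b`...; or: the set of units of the form `e + z` is a `p`-group when `U` is finite;
any proof is fine (`U` is not assumed to be finite, but `p ^ K • 1 = 0` and `ker π` is nilpotent).
Choose `c ≥ 1` with `c ≡ 1 [MOD n]` and `p ^ M ∣ c` (Chinese remainder theorem, `Nat.chineseRemainder`, `n` and `p ^ M` coprime; add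
`n * p ^ M` to get `c ≥ 1`, e.g. `c = 1 + n * k`).  `w = y ^ c`: `w ^ n = (y ^ n) ^ c = ((e + z) ^ p ^ M) ^ (c / p ^ M) = e`, and
`π w = π y * (π (y ^ n)) ^ k = π y * (π e) ^ k = π y` since `π y * π e = π y`.
-/

namespace ADM

open AD ADN

private theorem tei_choose_dvd (p : ℕ) (hp : p.Prime) (K N k : ℕ) (h1 : 1 ≤ k) (h2 : k < N) :
    p ^ K ∣ (p ^ (K + N)).choose k := by
  obtain ⟨j, rfl⟩ : ∃ j, k = j + 1 := ⟨k - 1, by omega⟩
  obtain ⟨P, hP⟩ : ∃ P, p ^ (K + N) = P + 1 := ⟨p ^ (K + N) - 1, by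
    have := Nat.pow_pos (n := K + N) hp.pos
    omega⟩
  have hle : j + 1 ≤ p ^ (K + N) := by
    have a1 : N < p ^ N := Nat.lt_pow_self hp.one_lt
    have a2 : p ^ N ≤ p ^ (K + N) := Nat.pow_le_pow_right hp.pos (by omega)
    omega
  have hC : (p ^ (K + N)).choose (j + 1) ≠ 0 := (Nat.choose_pos hle).ne'
  have hmul : p ^ (K + N) ∣ (p ^ (K + N)).choose (j + 1) * (j + 1) := by
    rw [hP, ← Nat.add_one_mul_choose_eq]
    exact Dvd.intro _ rfl
  have hk : (j + 1).factorization p < N := by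
    have a1 : (j + 1).factorization p < j + 1 := Nat.factorization_lt p (by omega)
    omega
  rw [hp.pow_dvd_iff_le_factorization (mul_ne_zero hC (by omega)),
    Nat.factorization_mul hC (by omega), Finsupp.add_apply] at hmul
  rw [hp.pow_dvd_iff_le_factorization hC]
  omega

private theorem tei_one_add_pow (p K N : ℕ) (hp : p.Prime) (U : Type) [Ring U]
    (hU : ((p : ℤ) ^ K) • (1 : U) = 0) (z : U) (hz : z ^ N = 0) :
    (1 + z) ^ (p ^ (K + N)) = 1 := by
  have hU' : ((p ^ K : ℕ) : U) = 0 := by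
    have : ((p : ℤ) ^ K) • (1 : U) = ((p ^ K : ℕ) : U) := by
      rw [zsmul_eq_mul, mul_one]; push_cast; rfl
    rw [← this, hU]
  rw [add_comm, (Commute.one_right z).add_pow, Finset.sum_eq_single 0]
  · simp
  · intro k _ hk
    rcases Nat.lt_or_ge k N with h | h
    · obtain ⟨m, hm⟩ := tei_choose_dvd p hp K N k (by omega) h
      rw [hm, Nat.cast_mul, hU', zero_mul, mul_zero]
    · have : z ^ k = 0 := by
        obtain ⟨m, rfl⟩ := Nat.exists_eq_add_of_le h
        rw [pow_add, hz, zero_mul]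
      rw [this, zero_mul, zero_mul]
  · intro h
    exact absurd (Finset.mem_range.2 (Nat.succ_pos _)) h

theorem tei (p K : ℕ) (hp : p.Prime) (U : Type) [Ring U] (hU : ((p : ℤ) ^ K) • (1 : U) = 0)
    (S : Type) [Ring S] (π : U →+* S) (N : ℕ)
    (hN : ∀ l : List U, N ≤ l.length → (∀ x ∈ l, π x = 0) → l.prod = 0)
    (e y : U) (he : e * e = e) (hy1 : e * y = y) (hy2 : y * e = y) (n : ℕ) (hn : 0 < n)
    (hnp : Nat.Coprime n p) (hy : π (y ^ n) = π e) :
    ∃ w : U, e * w = w ∧ w * e = w ∧ w ^ n = e ∧ π w = π y := by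
  have hyl : ∀ m, 0 < m → e * y ^ m = y ^ m := by
    intro m hm
    obtain ⟨k, rfl⟩ : ∃ k, m = k + 1 := ⟨m - 1, by omega⟩
    rw [pow_succ', ← mul_assoc, hy1]
  have hyr : ∀ m, 0 < m → y ^ m * e = y ^ m := by
    intro m hm
    obtain ⟨k, rfl⟩ : ∃ k, m = k + 1 := ⟨m - 1, by omega⟩
    rw [pow_succ, mul_assoc, hy2]
  have hepow : ∀ m, 0 < m → e ^ m = e := by
    intro m hm
    obtain ⟨k, rfl⟩ : ∃ k, m = k + 1 := ⟨m - 1, by omega⟩
    clear hm
    induction k with
    | zero => simp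
    | succ k ih => rw [pow_succ, ih, he]
  set z : U := y ^ n - e with hz
  have hez : e * z = z := by rw [hz, mul_sub, hyl n hn, he]
  have hze : z * e = z := by rw [hz, sub_mul, hyr n hn, he]
  have hπz : π z = 0 := by rw [hz, map_sub, hy, sub_self]
  have hzN : z ^ N = 0 := by
    have := hN (List.replicate N z) (by simp) (fun x hx => by
      rw [List.eq_of_mem_replicate hx]; exact hπz)
    rwa [List.prod_replicate] at this
  set M := K + N with hM
  have h1 : (1 + z) ^ (p ^ M) = 1 := tei_one_add_pow p K N hp U hU z hzN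
  have h2 : y ^ n = e * (1 + z) := by rw [mul_add, mul_one, hez, hz]; abel
  have hc : Commute e (1 + z) := by
    show e * (1 + z) = (1 + z) * e
    rw [mul_add, add_mul, hez, hze, mul_one, one_mul]
  have hpM : 0 < p ^ M := Nat.pow_pos hp.pos
  have h3 : (y ^ n) ^ (p ^ M) = e := by
    rw [h2, hc.mul_pow, h1, mul_one, hepow _ hpM]
  obtain ⟨c, hc1, hcn, hcp⟩ : ∃ c : ℕ, 1 ≤ c ∧ c ≡ 1 [MOD n] ∧ p ^ M ∣ c := by
    obtain ⟨c0, h4, h5⟩ := Nat.chineseRemainder (hnp.pow_right M) 1 0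
    refine ⟨c0 + n * p ^ M, ?_, ?_, ?_⟩
    · have : 0 < n * p ^ M := Nat.mul_pos hn hpM
      omega
    · have : c0 + n * p ^ M ≡ c0 + 0 [MOD n] :=
        Nat.ModEq.add_left c0 ((Nat.modEq_zero_iff_dvd).2 (Dvd.intro _ rfl))
      exact this.trans h4
    · exact dvd_add ((Nat.modEq_zero_iff_dvd).1 h5) (Dvd.intro_left _ rfl)
  obtain ⟨k, hk⟩ : ∃ k, c = 1 + n * k := by
    have : n ∣ c - 1 := (Nat.modEq_iff_dvd' hc1).1 hcn.symm
    obtain ⟨k, hk⟩ := this
    exact ⟨k, by omega⟩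
  refine ⟨y ^ c, hyl c (by omega), hyr c (by omega), ?_, ?_⟩
  · obtain ⟨m, hm⟩ := hcp
    have hm0 : 0 < m := by
      rcases Nat.eq_zero_or_pos m with h | h
      · rw [h, mul_zero] at hm; omega
      · exact h
    rw [← pow_mul, mul_comm c n, pow_mul, hm, pow_mul, h3, hepow m hm0]
  · have e1 : ∀ k : ℕ, y * e ^ k = y := by
      intro k
      induction k with
      | zero => simp
      | succ k ih => rw [pow_succ, ← mul_assoc, ih, hy2]
    rw [hk, pow_add, pow_one, pow_mul, map_mul, map_pow, hy, ← map_pow, ← map_mul, e1]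

end ADM
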