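import Pool.Agent.ADM.Uni
import Pool.Agent.ADM.Tei
import Pool.Agent.ADM.Fld
import Pool.Agent.ADM.HomA
import Pool.Agent.ADM.HomB

/-!
# ADM-Cor

Teichmueller element and decomposition of the loops at one vertex.

PLAN.  Case `r = 1`: `ord p 1 = 1` (Defs), `w = e`: `w ^ 1 = e`; no `m` with `¬ 1 ∣ m`; `y 0 = x`, `y σ = 0` for `σ ≠ 0` (`e ^ p ^ σ = e`); the last
statement: `F` has `p` elements, so every `c : F` is `(z : F)` for an integer `z` (`F` is `ZMod p`: the map `ZMod p → F` is injective, hence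
surjective by cardinality), and `κ c = z • κ 1 = z • π e`.
Case `r ≥ 2`: `ord p r = p ^ r - 1 = n > 0`, coprime to `p`.  Let `g, f` be given by `fld`.  Choose `y₀` with `π y₀ = κ g`, `y = e * y₀ * e`,
`π y = κ g` (`κ 1 * κ g * κ 1 = κ g`), `π (y ^ n) = κ (g ^ n) = κ 1 = π e`.  `w` := the element of `tei`; `π w = κ g`, so for `m ≥ 1`
`π (w ^ m) = κ (g ^ m)` and in general `π e * π w ^ m = κ (g ^ m)`.
* unit: if `¬ n ∣ m` then `m ≥ 1`, `π (w ^ m - e) = κ (g ^ m - 1)`, `g ^ m - 1 ≠ 0`: `uni` with `s = κ ((g ^ m - 1)⁻¹)`.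
* hom: `homA` for `J` gives `x = ∑_{j < n} y' j`.  For `j < n`, if `y' j ≠ 0`, then `j ≡ p ^ σ [MOD n]` for some `σ < r`: otherwise
  `aeval (g ^ j) f ≠ 0` by `fld`, and `homB` applies: `π (e * aeval w f) = κ (aeval g f) = 0`, `π (e * aeval (w ^ j) f) = κ (aeval (g ^ j) f)`
  (linearity and `π e * π w ^ k = κ (g ^ k)`; for `k = 0` it is `π e = κ 1`), `s = κ` of the inverse; so `y' j = 0`.
  The numbers `p ^ σ`, `σ < r`, are `< n` (because `r ≥ 2`) and different.  So `x = ∑_{σ < r} y' (p ^ σ)` (the other terms of the sum vanish).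
  `y σ = y' (p ^ σ)` for `σ < r`, `0` otherwise.
* last statement: `c = 0` or `c = g ^ m`, `m < n`: `z` = indicator function of `m`.
-/

namespace ADM

open AD ADN

private theorem cor_coprime {p r : ℕ} (hp : p.Prime) (hr : r ≠ 0) : Nat.Coprime (p ^ r - 1) p := by
  have h1 : 1 ≤ p ^ r := Nat.one_le_pow _ _ hp.pos
  have h2 : Nat.Coprime (p ^ r - 1) (p ^ r) := by
    have h3 : Nat.Coprime (p ^ r - 1) (p ^ r - 1 + 1) := by
      rw [Nat.coprime_self_add_right]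
      exact Nat.coprime_one_right _
    rwa [Nat.sub_add_cancel h1] at h3
  exact Nat.Coprime.coprime_dvd_right (dvd_pow_self p hr) h2

private theorem cor_lt {p r σ : ℕ} (hp : p.Prime) (hr : 2 ≤ r) (hσ : σ < r) : p ^ σ < p ^ r - 1 := by
  have h1 : p ^ σ ≤ p ^ (r - 1) := Nat.pow_le_pow_right hp.pos (by omega)
  have h2 : p ^ r = p ^ (r - 1) * p := by
    rw [← pow_succ]
    congr 1
    omega
  have h3 : p ^ (r - 1) * 2 ≤ p ^ (r - 1) * p := Nat.mul_le_mul_left _ hp.two_le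
  have h4 : 2 ≤ p ^ (r - 1) :=
    le_trans hp.two_le (Nat.le_self_pow (by omega) p)
  omega

private theorem cor_prime {p : ℕ} (hp : p.Prime) (F : Type) [Field F] [Finite F]
    (hF : Nat.card F = p) (c : F) : ∃ n : ℕ, c = n • (1 : F) := by
  classical
  have hfin : Fintype F := Fintype.ofFinite F
  have hnz : NeZero p := ⟨hp.ne_zero⟩
  have h : Fintype.card F = p := by rw [← Nat.card_eq_fintype_card, hF]
  obtain ⟨x, hx⟩ := (ZMod.ringEquivOfPrime F hp h).surjective c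
  refine ⟨x.val, ?_⟩
  rw [nsmul_one, ← hx]
  have h2 : x = ((x.val : ℕ) : ZMod p) := (ZMod.natCast_zmod_val x).symm
  conv_lhs => rw [h2]
  exact map_natCast _ _

private theorem cor_one (p : ℕ) (hp : p.Prime) (U : Type) [Ring U]
    (S : Type) [Ring S] (π : U →+* S)
    (J : AddSubgroup U) (e : U) (he : e * e = e) (F : Type) [Field F] [Finite F]
    (hF : Nat.card F = p ^ 1) (κ : F →ₙ+* S) (hκ1 : κ 1 = π e) :
    ∃ w : U, e * w = w ∧ w * e = w ∧ w ^ ord p 1 = e ∧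
      (∀ m, ¬ ord p 1 ∣ m → ∃ u, u * (w ^ m - e) = e) ∧
      (∀ x ∈ J, e * x = x → x * e = x → ∃ y : ℕ → U,
        (∀ σ, y σ ∈ J ∧ e * y σ = y σ ∧ y σ * e = y σ ∧ y σ * w = w ^ p ^ σ * y σ) ∧
          x = ∑ σ ∈ Finset.range 1, y σ) ∧
      ∀ c : F, ∃ z : ℕ → ℤ, κ c = ∑ m ∈ Finset.range (ord p 1), z m • (π e * π w ^ m) := by
  have ho : ord p 1 = 1 := by
    unfold ord
    rw [if_pos rfl]
  rw [ho]
  refine ⟨e, he, he, pow_one e, fun m hm => absurd (one_dvd m) hm, ?_, ?_⟩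
  · intro x hx h1 h2
    refine ⟨fun σ => if σ = 0 then x else 0, fun σ => ?_, ?_⟩
    · by_cases hσ : σ = 0
      · subst hσ
        simp only [if_true, pow_zero, pow_one]
        exact ⟨hx, h1, h2, by rw [h1, h2]⟩
      · simp only [if_neg hσ, mul_zero, zero_mul]
        exact ⟨J.zero_mem, trivial, trivial, trivial⟩
    · rw [Finset.sum_range_one, if_pos rfl]
  · intro c
    rw [pow_one] at hF
    obtain ⟨n, hn⟩ := cor_prime hp F hF c
    refine ⟨fun _ => (n : ℤ), ?_⟩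
    rw [Finset.sum_range_one, pow_zero, mul_one, hn, map_nsmul, hκ1, natCast_zsmul]

private theorem cor_two (p K : ℕ) (hp : p.Prime) (U : Type) [Ring U] (hU : ((p : ℤ) ^ K) • (1 : U) = 0)
    (S : Type) [Ring S] (π : U →+* S) (hπ : Function.Surjective π) (N : ℕ)
    (hN : ∀ l : List U, N ≤ l.length → (∀ x ∈ l, π x = 0) → l.prod = 0)
    (J : AddSubgroup U) (hl : ∀ u a, a ∈ J → u * a ∈ J) (hr : ∀ u a, a ∈ J → a * u ∈ J)
    (e : U) (he : e * e = e) (F : Type) [Field F] [Finite F] (r : ℕ) (hr2 : 2 ≤ r)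
    (hF : Nat.card F = p ^ r) (κ : F →ₙ+* S) (hκ1 : κ 1 = π e) :
    ∃ w : U, e * w = w ∧ w * e = w ∧ w ^ (p ^ r - 1) = e ∧
      (∀ m, ¬ (p ^ r - 1) ∣ m → ∃ u, u * (w ^ m - e) = e) ∧
      (∀ x ∈ J, e * x = x → x * e = x → ∃ y : ℕ → U,
        (∀ σ, y σ ∈ J ∧ e * y σ = y σ ∧ y σ * e = y σ ∧ y σ * w = w ^ p ^ σ * y σ) ∧
          x = ∑ σ ∈ Finset.range r, y σ) ∧
      ∀ c : F, ∃ z : ℕ → ℤ, κ c = ∑ m ∈ Finset.range (p ^ r - 1), z m • (π e * π w ^ m) := by
  classical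
  have hn : 0 < p ^ r - 1 := by
    have h := cor_lt hp hr2 (show 0 < r by omega)
    omega
  have hnp : Nat.Coprime (p ^ r - 1) p := cor_coprime hp (by omega)
  obtain ⟨g, hg1, hg2, hg3, f, hf1, hf2⟩ := fld p r hp (by omega) F hF
  obtain ⟨y₀, hy₀⟩ := hπ (κ g)
  have hy : π (e * y₀ * e) = κ g := by
    rw [map_mul, map_mul, hy₀, ← hκ1, ← map_mul, ← map_mul, one_mul, mul_one]
  have hyp : ∀ k : ℕ, π (e * y₀ * e) ^ (k + 1) = κ (g ^ (k + 1)) := by
    intro k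
    induction k with
    | zero => rw [zero_add, pow_one, pow_one, hy]
    | succ k ih => rw [pow_succ, ih, hy, ← map_mul, ← pow_succ]
  obtain ⟨w, h1, h2, hw, hπw⟩ := tei p K hp U hU S π N hN e (e * y₀ * e) he
    (by rw [← mul_assoc, ← mul_assoc, he]) (by rw [mul_assoc, he]) (p ^ r - 1) hn hnp (by
      obtain ⟨k, hk⟩ : ∃ k, p ^ r - 1 = k + 1 := ⟨p ^ r - 1 - 1, by omega⟩
      rw [map_pow, hk, hyp, ← hk, hg1, hκ1])
  rw [hy] at hπw
  have hpow : ∀ m : ℕ, π e * π w ^ m = κ (g ^ m) := by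
    intro m
    induction m with
    | zero => rw [pow_zero, pow_zero, mul_one, hκ1]
    | succ m ih => rw [pow_succ, ← mul_assoc, ih, hπw, ← map_mul, ← pow_succ]
  have hpoly : ∀ k : ℕ, π (e * Polynomial.aeval (w ^ k) f) = κ (Polynomial.aeval (g ^ k) f) := by
    intro k
    rw [Polynomial.aeval_eq_sum_range, Polynomial.aeval_eq_sum_range, Finset.mul_sum, map_sum,
      map_sum]
    refine Finset.sum_congr rfl fun i _ => ?_
    rw [mul_smul_comm, map_zsmul, map_zsmul, map_mul, map_pow, map_pow, ← pow_mul, ← pow_mul, hpow]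
  have hwl : ∀ m : ℕ, m ≠ 0 → e * w ^ m = w ^ m := by
    intro m hm
    obtain ⟨k, rfl⟩ := Nat.exists_eq_succ_of_ne_zero hm
    rw [Nat.succ_eq_add_one, pow_succ', ← mul_assoc, h1]
  have hwr : ∀ m : ℕ, m ≠ 0 → w ^ m * e = w ^ m := by
    intro m hm
    obtain ⟨k, rfl⟩ := Nat.exists_eq_succ_of_ne_zero hm
    rw [Nat.succ_eq_add_one, pow_succ, mul_assoc, h2]
  have hunit : ∀ m, ¬ (p ^ r - 1) ∣ m → ∃ u, u * (w ^ m - e) = e := by
    intro m hm
    have hm0 : m ≠ 0 := by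
      rintro rfl
      exact hm (dvd_zero _)
    have h3 : π (w ^ m - e) = κ (g ^ m - 1) := by
      rw [map_sub, map_sub, ← hpow, ← map_pow, ← map_mul, hwl m hm0, hκ1]
    have h4 : g ^ m - 1 ≠ 0 := sub_ne_zero.2 (hg2 m hm)
    obtain ⟨u, hu, -⟩ := uni U S π hπ N hN e (w ^ m - e) he (by rw [mul_sub, hwl m hm0, he])
      (by rw [sub_mul, hwr m hm0, he]) (κ (g ^ m - 1)⁻¹) (by
        rw [h3, ← map_mul, inv_mul_cancel₀ h4, hκ1])
    exact ⟨u, hu⟩
  refine ⟨w, h1, h2, hw, hunit, ?_, ?_⟩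
  · intro x hx hx1 hx2
    obtain ⟨y, hy', hxy⟩ := homA p K hp U hU e w he h1 h2 (p ^ r - 1) hn hnp hw hunit J hl hr x hx
      hx1 hx2
    refine ⟨fun σ => y (p ^ σ), fun σ => hy' _, ?_⟩
    have h3 : ∀ j, (∀ σ < r, ¬ j ≡ p ^ σ [MOD (p ^ r - 1)]) → y j = 0 := by
      intro j hj
      have h4 : Polynomial.aeval (g ^ j) f ≠ 0 := by
        intro h5
        obtain ⟨σ, hσ, h6⟩ := hf2 j h5
        exact hj σ hσ h6
      refine homB U S π hπ N hN e w he h1 h2 f ?_ j (κ (Polynomial.aeval (g ^ j) f)⁻¹) ?_ (y j)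
        (hy' j).2.1 (hy' j).2.2.1 (hy' j).2.2.2
      · have h5 := hpoly 1
        rw [pow_one, pow_one, hf1, map_zero] at h5
        exact h5
      · rw [hpoly, ← map_mul, inv_mul_cancel₀ h4, hκ1]
    rw [hxy]
    have h5 : ∑ σ ∈ Finset.range r, y (p ^ σ) = ∑ j ∈ (Finset.range r).image (fun σ => p ^ σ), y j := by
      rw [Finset.sum_image]
      intro a _ b _ hab
      exact Nat.pow_right_injective hp.two_le hab
    rw [h5]
    symm
    apply Finset.sum_subset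
    · intro j hj
      rw [Finset.mem_image] at hj
      obtain ⟨σ, hσ, rfl⟩ := hj
      exact Finset.mem_range.2 (cor_lt hp hr2 (Finset.mem_range.1 hσ))
    · intro j hj hj2
      apply h3
      intro σ hσ h6
      apply hj2
      rw [Finset.mem_image]
      refine ⟨σ, Finset.mem_range.2 hσ, ?_⟩
      exact (Nat.ModEq.eq_of_lt_of_lt h6 (Finset.mem_range.1 hj) (cor_lt hp hr2 hσ)).symm
  · intro c
    by_cases hc : c = 0
    · refine ⟨fun _ => 0, ?_⟩
      rw [hc, map_zero, Finset.sum_eq_zero]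
      intro m _
      exact zero_smul _ _
    · obtain ⟨m, hm, rfl⟩ := hg3 c hc
      refine ⟨fun i => if i = m then 1 else 0, ?_⟩
      rw [Finset.sum_eq_single_of_mem m (Finset.mem_range.2 hm) (fun b _ hb => by
        show (if b = m then (1 : ℤ) else 0) • (π e * π w ^ b) = 0
        rw [if_neg hb, zero_smul])]
      show κ (g ^ m) = (if m = m then (1 : ℤ) else 0) • (π e * π w ^ m)
      rw [if_pos rfl, one_smul, hpow]

theorem cor (p K : ℕ) (hp : p.Prime) (U : Type) [Ring U] (hU : ((p : ℤ) ^ K) • (1 : U) = 0)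
    (S : Type) [Ring S] (π : U →+* S) (hπ : Function.Surjective π) (N : ℕ)
    (hN : ∀ l : List U, N ≤ l.length → (∀ x ∈ l, π x = 0) → l.prod = 0)
    (J : AddSubgroup U) (hl : ∀ u a, a ∈ J → u * a ∈ J) (hr : ∀ u a, a ∈ J → a * u ∈ J)
    (e : U) (he : e * e = e) (F : Type) [Field F] [Finite F] (r : ℕ) (hr1 : 1 ≤ r)
    (hF : Nat.card F = p ^ r) (κ : F →ₙ+* S) (hκ1 : κ 1 = π e) :
    ∃ w : U, e * w = w ∧ w * e = w ∧ w ^ ord p r = e ∧
      (∀ m, ¬ ord p r ∣ m → ∃ u, u * (w ^ m - e) = e) ∧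
      (∀ x ∈ J, e * x = x → x * e = x → ∃ y : ℕ → U,
        (∀ σ, y σ ∈ J ∧ e * y σ = y σ ∧ y σ * e = y σ ∧ y σ * w = w ^ p ^ σ * y σ) ∧
          x = ∑ σ ∈ Finset.range r, y σ) ∧
      ∀ c : F, ∃ z : ℕ → ℤ, κ c = ∑ m ∈ Finset.range (ord p r), z m • (π e * π w ^ m) := by
  by_cases h : r = 1
  · subst h
    exact cor_one p hp U S π J e he F hF κ hκ1
  · have ho : ord p r = p ^ r - 1 := by
      unfold ord
      rw [if_neg h]
    rw [ho]
    exact cor_two p K hp U hU S π hπ N hN J hl hr e he F r (by omega) hF κ hκ1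

end ADM
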