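import Pool.Agent.ADM.NvB
import Pool.Agent.ADN.Exp

/-!
# ADM-Exp2

Expansion of a polynomial in homogeneous letters and arrows.

PLAN.  As `exp_aux` in Pool/Agent/ADN/Exp.lean, by `FreeAlgebra.induction` on `f`, for all `a, b` simultaneously: there is `c` with `bpth src tgt a q.2 b` for all
`q` in the support, `a = o → b = o → ∀ i, c (i, []) = if i = 0 then aug f else 0`, and the equation for all `θ`, `r`.
* constants `n`: `n • e a` if `a = b` (`single (0, []) n`, `nv a a 0 [] = g θ a a 0 = e a`), `0` otherwise.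
* `X v`: `e a * x v * e b = ∑_m d v a b m • g θ a b m + ∑_{k : ν k = v, src k = a, tgt k = b} r k` (`e a * E i j = 0` for `i ≠ a`, `g_left`, `g_right`):
  if `blk a = blk b`: `∑_m single (m, []) (d v a b m)` (otherwise these terms are 0, `g_ne`), plus `∑ single (0, [(k, 0)]) 1`:
  `nv a b 0 [(k,0)] = g θ a a 0 * (r k * g θ b b 0) = r k`.  For `a = b = o` the coefficients `d v o o m` are 0 (`hd`) and `aug (X v) = 0`.
* sums: add.
* products: `e a * (x * y) * e b = ∑_h (e a * x * e h) * (e h * y * e b)`; for `q` a block path from `a` to `h` and `q'` from `h` to `b`: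
  `nv a h q * nv h b q' = nv a b (cat q q')` with `cat (i, []) (j, v) = (i + j, v)`, `cat (i, (k, m) :: u) (j, v) = (i, (k, (cat (m, u) (j, v)).1) :: (cat (m, u) (j, v)).2)`
  (induction on the first word, `g_mul`; this needs the block equalities of `bpth`).  The coefficient of `(i, [])` for `a = b = o`: only pairs of
  empty words, `h = o` (`blk_o`).
-/

namespace ADM

open AD ADN ADN.Ctx

namespace Ctx

variable {U : Type} [Ring U] {Q : Type} [Fintype Q] (C : Ctx U Q)

/-- block path compatible coefficients -/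
private def e2PS {ι : Type} (src tgt : ι → Q) (a b : Q) :
    AddSubmonoid ((ℕ × List (ι × ℕ)) →₀ ℤ) where
  carrier := {c | ∀ q, c q ≠ 0 → C.bpth src tgt a q.2 b}
  zero_mem' := fun v h => absurd rfl h
  add_mem' := by
    intro c c' hc hc' v h
    by_cases h1 : c v = 0
    · apply hc' v
      intro h2
      apply h
      rw [Finsupp.add_apply, h1, h2, add_zero]
    · exact hc v h1

private theorem e2PS_single {ι : Type} {src tgt : ι → Q} {a b : Q}
    {q : ℕ × List (ι × ℕ)} (n : ℤ) (h : C.bpth src tgt a q.2 b) :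
    Finsupp.single q n ∈ e2PS C src tgt a b := by
  intro w hw
  by_cases h1 : q = w
  · rw [← h1]
    exact h
  · exact absurd (Finsupp.single_eq_of_ne (Ne.symm h1)) hw

/-- concatenation of words with arrows -/
private def e2cat {ι : Type} : ℕ → List (ι × ℕ) → ℕ → List (ι × ℕ) → ℕ × List (ι × ℕ)
  | i, [], j, v => (i + j, v)
  | i, (k, m) :: u, j, v => (i, (k, (e2cat m u j v).1) :: (e2cat m u j v).2)

private theorem e2bpth_blk {ι : Type} {src tgt : ι → Q} {a h b : Q} {v : List (ι × ℕ)}
    (h1 : C.blk a = C.blk h) (h2 : C.bpth src tgt h v b) : C.bpth src tgt a v b := by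
  cases v with
  | nil => exact h1.trans h2
  | cons q v =>
    obtain ⟨k, m⟩ := q
    exact ⟨h1.trans h2.1, h2.2⟩

private theorem e2bpth_cat {ι : Type} {src tgt : ι → Q} {h b : Q} {j : ℕ} {v : List (ι × ℕ)}
    (h2 : C.bpth src tgt h v b) : ∀ (u : List (ι × ℕ)) (a : Q) (i : ℕ), C.bpth src tgt a u h →
    C.bpth src tgt a (e2cat i u j v).2 b := by
  intro u
  induction u with
  | nil =>
    intro a i h1
    exact e2bpth_blk C h1 h2
  | cons q u ih =>
    obtain ⟨k, m⟩ := q
    intro a i h1
    exact ⟨h1.1, ih (tgt k) m h1.2⟩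

private theorem e2nv_cat {ι : Type} {src tgt : ι → Q} (θ : ℕ → ℕ) (r : ι → U) {h b : Q} {j : ℕ}
    {v : List (ι × ℕ)} (h2 : C.bpth src tgt h v b) :
    ∀ (u : List (ι × ℕ)) (a : Q) (i : ℕ), C.bpth src tgt a u h →
    C.nv θ src tgt r a h i u * C.nv θ src tgt r h b j v =
      C.nv θ src tgt r a b (e2cat i u j v).1 (e2cat i u j v).2 := by
  intro u
  induction u with
  | nil =>
    intro a i h1
    have h1' : C.blk a = C.blk h := h1
    cases v with
    | nil =>
      have h2' : C.blk h = C.blk b := h2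
      exact g_mul C θ h1' h2' i j
    | cons q v =>
      obtain ⟨k, m⟩ := q
      have h2' : C.blk h = C.blk (src k) := h2.1
      show C.g θ a h i * (C.g θ h (src k) j * (r k * C.nv θ src tgt r (tgt k) b m v)) =
        C.g θ a (src k) (i + j) * (r k * C.nv θ src tgt r (tgt k) b m v)
      rw [← mul_assoc, g_mul C θ h1' h2']
  | cons q u ih =>
    obtain ⟨k, m⟩ := q
    intro a i h1
    show C.g θ a (src k) i * (r k * C.nv θ src tgt r (tgt k) h m u) * C.nv θ src tgt r h b j v =
      C.g θ a (src k) i * (r k * C.nv θ src tgt r (tgt k) b (e2cat m u j v).1 (e2cat m u j v).2)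
    rw [mul_assoc, mul_assoc, ih (tgt k) m h1.2]

/-- product of combinations -/
private noncomputable def e2star {ι : Type} (c c' : (ℕ × List (ι × ℕ)) →₀ ℤ) :
    (ℕ × List (ι × ℕ)) →₀ ℤ :=
  c.sum fun q n => c'.sum fun q' m => Finsupp.single (e2cat q.1 q.2 q'.1 q'.2) (n * m)

private noncomputable def e2Hom {ι : Type} (θ : ℕ → ℕ) (src tgt : ι → Q) (r : ι → U) (a b : Q) :
    ((ℕ × List (ι × ℕ)) →₀ ℤ) →+ U where
  toFun := C.xval θ src tgt r a b
  map_zero' := xval_zero C θ src tgt r a b
  map_add' := xval_add C θ src tgt r a b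

private theorem e2Hom_apply {ι : Type} (θ : ℕ → ℕ) (src tgt : ι → Q) (r : ι → U) (a b : Q)
    (c : (ℕ × List (ι × ℕ)) →₀ ℤ) : e2Hom C θ src tgt r a b c = C.xval θ src tgt r a b c := rfl

private theorem e2ort {a b : Q} (h : a ≠ b) : C.e a * C.e b = 0 :=
  C.coi.toOrthogonalIdempotents.ortho h

private theorem e2idem (a : Q) : C.e a * C.e a = C.e a :=
  (C.coi.toOrthogonalIdempotents.idem a).eq

private theorem e2val_star {ι : Type} {src tgt : ι → Q} (θ : ℕ → ℕ) (r : ι → U) {a h b : Q}
    {c c' : (ℕ × List (ι × ℕ)) →₀ ℤ} (hc : c ∈ e2PS C src tgt a h)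
    (hc' : c' ∈ e2PS C src tgt h b) :
    C.xval θ src tgt r a b (e2star c c') = C.xval θ src tgt r a h c * C.xval θ src tgt r h b c' := by
  have h1 : C.xval θ src tgt r a b (e2star c c') =
      c.sum fun q n => c'.sum fun q' m => (n * m) •
        C.nv θ src tgt r a b (e2cat q.1 q.2 q'.1 q'.2).1 (e2cat q.1 q.2 q'.1 q'.2).2 := by
    rw [← e2Hom_apply]
    unfold e2star
    rw [map_finsuppSum]
    apply Finsupp.sum_congr
    intro v _
    rw [map_finsuppSum]
    apply Finsupp.sum_congr
    intro w _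
    rw [e2Hom_apply, xval_single]
  rw [h1]
  unfold xval
  rw [Finsupp.sum_mul]
  apply Finsupp.sum_congr
  intro v hv
  rw [Finsupp.mul_sum]
  apply Finsupp.sum_congr
  intro w hw
  rw [smul_mul_smul_comm, e2nv_cat C θ r (hc' w (Finsupp.mem_support_iff.1 hw)) v.2 a v.1
    (hc v (Finsupp.mem_support_iff.1 hv))]

private theorem e2PS_star {ι : Type} {src tgt : ι → Q} {a h b : Q}
    {c c' : (ℕ × List (ι × ℕ)) →₀ ℤ} (hc : c ∈ e2PS C src tgt a h)
    (hc' : c' ∈ e2PS C src tgt h b) : e2star c c' ∈ e2PS C src tgt a b := by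
  unfold e2star
  apply AddSubmonoid.sum_mem
  intro v hv
  apply AddSubmonoid.sum_mem
  intro w hw
  apply e2PS_single
  exact e2bpth_cat C (hc' w (Finsupp.mem_support_iff.1 hw)) v.2 a v.1
    (hc v (Finsupp.mem_support_iff.1 hv))

private theorem e2star_nil {ι : Type} (c c' : (ℕ × List (ι × ℕ)) →₀ ℤ) (x y : ℤ)
    (hc : ∀ i, c (i, []) = if i = 0 then x else 0) (hc' : ∀ i, c' (i, []) = if i = 0 then y else 0)
    (i : ℕ) : e2star c c' (i, []) = if i = 0 then x * y else 0 := by
  classical
  have hc0 : c (0, []) = x := by rw [hc, if_pos rfl]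
  have hc0' : c' (0, []) = y := by rw [hc', if_pos rfl]
  unfold e2star
  rw [Finsupp.sum_apply, Finsupp.sum, Finset.sum_eq_single (0, [])]
  · rw [Finsupp.sum_apply, Finsupp.sum, Finset.sum_eq_single (0, [])]
    · rw [hc0, hc0']
      show (Finsupp.single ((0 + 0 : ℕ), ([] : List (ι × ℕ))) (x * y)) (i, []) = _
      rw [Finsupp.single_apply]
      by_cases hi : i = 0
      · rw [hi, if_pos rfl, if_pos rfl]
      · rw [if_neg hi, if_neg]
        intro h
        exact hi (Prod.ext_iff.1 h).1.symm
    · rintro ⟨j, v⟩ hq hne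
      cases v with
      | nil =>
        have hj : j ≠ 0 := fun h => hne (by rw [h])
        exact absurd (by rw [hc', if_neg hj]) (Finsupp.mem_support_iff.1 hq)
      | cons k v =>
        show (Finsupp.single ((0 + j : ℕ), (k :: v : List (ι × ℕ))) _) (i, []) = 0
        apply Finsupp.single_eq_of_ne
        intro h
        exact absurd (Prod.ext_iff.1 h).2 (by simp)
    · intro h
      rw [Finsupp.notMem_support_iff.1 h, mul_zero, Finsupp.single_zero]
      rfl
  · rintro ⟨j, v⟩ hq hne
    cases v with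
    | nil =>
      have hj : j ≠ 0 := fun h => hne (by rw [h])
      exact absurd (by rw [hc, if_neg hj]) (Finsupp.mem_support_iff.1 hq)
    | cons k v =>
      obtain ⟨k, m⟩ := k
      rw [Finsupp.sum_apply, Finsupp.sum]
      apply Finset.sum_eq_zero
      intro q' _
      apply Finsupp.single_eq_of_ne
      intro h
      have h1 := (Prod.ext_iff.1 h).2
      exact absurd h1 (by simp [e2cat])
  · intro h
    rw [Finsupp.notMem_support_iff.1 h, Finsupp.sum_apply, Finsupp.sum]
    apply Finset.sum_eq_zero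
    intro w _
    rw [zero_mul, Finsupp.single_zero]
    rfl

private theorem e2g_zero (θ : ℕ → ℕ) (a : Q) : C.g θ a a 0 = C.e a := by
  rw [g_self, mul_zero, pow_zero, mul_one]

open Classical in
private theorem e2corner_g (θ : ℕ → ℕ) (a b i j : Q) (m : ℕ) :
    C.e a * C.g θ i j m * C.e b = if i = a ∧ j = b then C.g θ a b m else 0 := by
  split_ifs with h
  · obtain ⟨rfl, rfl⟩ := h
    rw [g_left, g_right]
  · by_cases h1 : i = a
    · have h2 : j ≠ b := fun h3 => h ⟨h1, h3⟩
      rw [← g_right C θ i j m, mul_assoc, mul_assoc, e2ort C h2, mul_zero, mul_zero]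
    · rw [← g_left C θ i j m, ← mul_assoc, e2ort C (Ne.symm h1), zero_mul, zero_mul]

private theorem e2sum_g (θ : ℕ → ℕ) (a b : Q) (d : Q → Q → ℕ → ℤ) :
    C.e a * (∑ i, ∑ j, ∑ m ∈ Finset.range (C.n j), d i j m • C.g θ i j m) * C.e b =
      ∑ m ∈ Finset.range (C.n b), d a b m • C.g θ a b m := by
  classical
  rw [Finset.mul_sum, Finset.sum_mul, Finset.sum_eq_single a]
  · rw [Finset.mul_sum, Finset.sum_mul, Finset.sum_eq_single b]
    · rw [Finset.mul_sum, Finset.sum_mul]
      refine Finset.sum_congr rfl fun m _ => ?_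
      rw [mul_smul_comm, smul_mul_assoc, e2corner_g, if_pos ⟨rfl, rfl⟩]
    · intro j _ hj
      rw [Finset.mul_sum, Finset.sum_mul]
      refine Finset.sum_eq_zero fun m _ => ?_
      rw [mul_smul_comm, smul_mul_assoc, e2corner_g, if_neg (fun h => hj h.2), smul_zero]
    · intro h
      exact absurd (Finset.mem_univ _) h
  · intro i _ hi
    rw [Finset.mul_sum, Finset.sum_mul]
    refine Finset.sum_eq_zero fun j _ => ?_
    rw [Finset.mul_sum, Finset.sum_mul]
    refine Finset.sum_eq_zero fun m _ => ?_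
    rw [mul_smul_comm, smul_mul_assoc, e2corner_g, if_neg (fun h => hi h.1), smul_zero]
  · intro h
    exact absurd (Finset.mem_univ _) h

private theorem e2corner_r {ι : Type} [DecidableEq ι] {src tgt : ι → Q} {σ : ι → ℕ} {r : ι → U}
    (hr : C.Hom src tgt σ r) (θ : ℕ → ℕ) (a b : Q) (k : ι) [Decidable (src k = a ∧ tgt k = b)] :
    C.e a * r k * C.e b = if src k = a ∧ tgt k = b then C.nv θ src tgt r a b 0 [(k, 0)] else 0 := by
  have hk := (hr k).1
  split_ifs with h
  · obtain ⟨rfl, rfl⟩ := h
    show _ = C.g θ (src k) (src k) 0 * (r k * C.g θ (tgt k) (tgt k) 0)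
    rw [e2g_zero, e2g_zero, mul_assoc]
  · by_cases h1 : src k = a
    · have h2 : tgt k ≠ b := fun h3 => h ⟨h1, h3⟩
      rw [mul_assoc, Base.S_ne_right _ hk h2, mul_zero]
    · rw [Base.S_ne_left _ hk (Ne.symm h1), zero_mul]

private theorem exp2_aux {ι : Type} [Fintype ι] [DecidableEq ι] (ν : ι → ℕ) (src tgt : ι → Q)
    (σ : ι → ℕ) (d : ℕ → Q → Q → ℕ → ℤ) (hd : ∀ v j m, d v C.o j m = 0) (f : P) : ∀ a b : Q,
    ∃ c : (ℕ × List (ι × ℕ)) →₀ ℤ, c ∈ e2PS C src tgt a b ∧
      (a = C.o → b = C.o → ∀ i, c (i, []) = if i = 0 then aug f else 0) ∧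
      ∀ (θ : ℕ → ℕ) (r : ι → U), C.Hom src tgt σ r →
        C.e a * FreeAlgebra.lift ℤ
          (fun v => (∑ i, ∑ j, ∑ m ∈ Finset.range (C.n j), d v i j m • C.g θ i j m) +
            ∑ k with ν k = v, r k) f * C.e b = C.xval θ src tgt r a b c := by
  classical
  induction f using FreeAlgebra.induction with
  | grade0 n =>
    intro a b
    by_cases hab : a = b
    · subst hab
      refine ⟨Finsupp.single (0, []) n, e2PS_single C n rfl, fun _ _ i => ?_, fun θ r _ => ?_⟩
      · rw [AlgHom.commutes, Finsupp.single_apply]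
        by_cases hi : i = 0
        · rw [hi, if_pos rfl, if_pos rfl]
          rfl
        · rw [if_neg hi, if_neg]
          intro h
          exact hi (Prod.ext_iff.1 h).1.symm
      · rw [AlgHom.commutes, xval_single, Algebra.algebraMap_eq_smul_one,
          mul_smul_comm, mul_one, smul_mul_assoc, e2idem]
        show n • C.e a = n • C.g θ a a 0
        rw [e2g_zero]
    · refine ⟨0, (e2PS C src tgt a b).zero_mem, fun h1 h2 => ?_, fun θ r _ => ?_⟩
      · exact absurd (h1.trans h2.symm) hab
      · rw [AlgHom.commutes, xval_zero, Algebra.algebraMap_eq_smul_one,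
          mul_smul_comm, mul_one, smul_mul_assoc, e2ort C hab, smul_zero]
  | grade1 v =>
    intro a b
    refine ⟨(if C.blk a = C.blk b then
        ∑ m ∈ Finset.range (C.n b), Finsupp.single (m, []) (d v a b m) else 0) +
      ∑ k with (ν k = v ∧ src k = a ∧ tgt k = b), Finsupp.single (0, [(k, 0)]) 1, ?_,
      fun h1 h2 i => ?_, fun θ r hr => ?_⟩
    · apply AddSubmonoid.add_mem
      · split_ifs with hab
        · apply AddSubmonoid.sum_mem
          intro m _
          exact e2PS_single C _ hab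
        · exact (e2PS C src tgt a b).zero_mem
      · apply AddSubmonoid.sum_mem
        intro k hk
        obtain ⟨-, h3, h4⟩ := (Finset.mem_filter.1 hk).2
        refine e2PS_single C _ ?_
        exact ⟨by rw [h3], by rw [← h4]; rfl⟩
    · have haug : aug (X v) = 0 := by
        unfold aug
        rw [FreeAlgebra.lift_ι_apply]
      have h5 : (if C.blk a = C.blk b then
          ∑ m ∈ Finset.range (C.n b), Finsupp.single (m, ([] : List (ι × ℕ))) (d v a b m) else 0) = 0 := by
        split_ifs with hab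
        · refine Finset.sum_eq_zero fun m _ => ?_
          rw [h1, hd, Finsupp.single_zero]
        · rfl
      rw [h5, zero_add, haug, Finsupp.finsetSum_apply]
      rw [Finset.sum_eq_zero]
      · split_ifs <;> rfl
      · intro k _
        apply Finsupp.single_eq_of_ne
        intro h
        exact absurd (Prod.ext_iff.1 h).2 (by simp)
    · rw [FreeAlgebra.lift_ι_apply, mul_add, add_mul, xval_add, e2sum_g, Finset.mul_sum,
        Finset.sum_mul]
      congr 1
      · split_ifs with hab
        · rw [← e2Hom_apply, map_sum]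
          refine Finset.sum_congr rfl fun m _ => ?_
          rw [e2Hom_apply, xval_single]
          rfl
        · rw [xval_zero]
          refine Finset.sum_eq_zero fun m _ => ?_
          rw [g_ne C θ hab, smul_zero]
      · rw [← e2Hom_apply, map_sum]
        have h5 : ∀ k, C.e a * r k * C.e b =
            if src k = a ∧ tgt k = b then C.nv θ src tgt r a b 0 [(k, 0)] else 0 :=
          fun k => e2corner_r C hr θ a b k
        rw [Finset.sum_congr rfl (fun k _ => h5 k), ← Finset.sum_filter, Finset.filter_filter]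
        apply Finset.sum_congr rfl
        intro k _
        rw [e2Hom_apply, xval_single, one_smul]
  | mul f g ihf ihg =>
    intro a b
    choose cf h1 h2 h3 using ihf
    choose cg h4 h5 h6 using ihg
    refine ⟨∑ h, e2star (cf a h) (cg h b), ?_, fun ha hb i => ?_, fun θ r hr => ?_⟩
    · apply AddSubmonoid.sum_mem
      intro h _
      exact e2PS_star C (h1 a h) (h4 h b)
    · rw [ha, hb, Finsupp.finsetSum_apply, Finset.sum_eq_single C.o,
        e2star_nil _ _ _ _ (h2 C.o C.o rfl rfl) (h5 C.o C.o rfl rfl), map_mul]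
      · intro h _ hh
        have h7 : ∀ i, cf C.o h (i, []) = if i = 0 then (0 : ℤ) else 0 := by
          intro i
          rw [ite_self]
          by_contra hne
          have h8 : C.blk C.o = C.blk h := h1 C.o h (i, []) hne
          exact hh (C.blk_o h h8.symm)
        have h9 : ∀ i, cg h C.o (i, []) = if i = 0 then (0 : ℤ) else 0 := by
          intro i
          rw [ite_self]
          by_contra hne
          have h8 : C.blk h = C.blk C.o := h4 h C.o (i, []) hne
          exact hh (C.blk_o h h8)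
        rw [e2star_nil _ _ _ _ h7 h9, mul_zero, ite_self]
      · intro h
        exact absurd (Finset.mem_univ _) h
    · rw [map_mul, ← e2Hom_apply, map_sum]
      set x := FreeAlgebra.lift ℤ
          (fun v => (∑ i, ∑ j, ∑ m ∈ Finset.range (C.n j), d v i j m • C.g θ i j m) +
            ∑ k with ν k = v, r k) f with hx
      set y := FreeAlgebra.lift ℤ
          (fun v => (∑ i, ∑ j, ∑ m ∈ Finset.range (C.n j), d v i j m • C.g θ i j m) +
            ∑ k with ν k = v, r k) g with hy
      have h8 : C.e a * (x * y) * C.e b = ∑ h, (C.e a * x * C.e h) * (C.e h * y * C.e b) := by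
        have h9 : C.e a * (x * y) * C.e b = C.e a * x * (∑ h, C.e h) * (y * C.e b) := by
          rw [C.coi.complete, mul_one]
          noncomm_ring
        rw [h9, Finset.mul_sum, Finset.sum_mul]
        apply Finset.sum_congr rfl
        intro h _
        conv_lhs => rw [← e2idem C h]
        noncomm_ring
      rw [h8]
      apply Finset.sum_congr rfl
      intro h _
      rw [e2Hom_apply, e2val_star C θ r (h1 a h) (h4 h b), ← h3 a h θ r hr, ← h6 h b θ r hr]
  | add f g ihf ihg =>
    intro a b
    obtain ⟨c, h1, h2, h3⟩ := ihf a b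
    obtain ⟨c', h4, h5, h6⟩ := ihg a b
    refine ⟨c + c', AddSubmonoid.add_mem _ h1 h4, fun ha hb i => ?_, fun θ r hr => ?_⟩
    · rw [Finsupp.add_apply, h2 ha hb, h5 ha hb, map_add]
      split_ifs
      · rfl
      · rfl
    · rw [map_add, mul_add, add_mul, h3 θ r hr, h6 θ r hr, xval_add]

theorem exp2 {ι : Type} [Fintype ι] [DecidableEq ι] (ν : ι → ℕ) (src tgt : ι → Q) (σ : ι → ℕ)
    (d : ℕ → Q → Q → ℕ → ℤ) (hd : ∀ v j m, d v C.o j m = 0) (f : P) (a b : Q) :
    ∃ c : (ℕ × List (ι × ℕ)) →₀ ℤ, (∀ q ∈ c.support, C.bpth src tgt a q.2 b) ∧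
      (f ∈ Pp → a = C.o → ∀ i, c (i, []) = 0) ∧
      ∀ (θ : ℕ → ℕ) (r : ι → U), C.Hom src tgt σ r →
        C.e a * FreeAlgebra.lift ℤ
          (fun v => (∑ i, ∑ j, ∑ m ∈ Finset.range (C.n j), d v i j m • C.g θ i j m) +
            ∑ k with ν k = v, r k) f * C.e b = C.xval θ src tgt r a b c := by
  obtain ⟨c, h1, h2, h3⟩ := exp2_aux C ν src tgt σ d hd f a b
  refine ⟨c, fun q hq => h1 q (Finsupp.mem_support_iff.1 hq), fun hf ha i => ?_, h3⟩
  by_cases hb : b = C.o
  · rw [h2 ha hb i]
    have hf' : aug f = 0 := hf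
    rw [hf', ite_self]
  · by_contra h
    have h4 : C.blk a = C.blk b := h1 (i, []) h
    rw [ha] at h4
    exact hb (C.blk_o b h4.symm)

end Ctx

end ADM
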