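import Pool.Agent.ADM.NvB

/-!
# ADM-Mob2

The part of a combination of words with arrows that contains exactly the letters of `R` (as Mob.lean: the letters outside
`R` are replaced by zero, then strong induction on `R`).
-/

namespace ADM

open AD ADN ADN.Ctx

namespace Ctx

variable {U : Type} [Ring U] {Q : Type} [Fintype Q] (C : Ctx U Q)
variable {ι : Type} [Fintype ι] [DecidableEq ι]

omit [Fintype ι] in
private theorem mob2_filter (θ : ℕ → ℕ) (src tgt : ι → Q) (r : ι → U) (a b : Q)
    (c : (ℕ × List (ι × ℕ)) →₀ ℤ) (R : Finset ι) :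
    C.xval θ src tgt r a b (c.filter fun q => (lts q).toFinset = R) =
      ∑ q ∈ c.support.filter (fun q => (lts q).toFinset = R), c q • C.nv θ src tgt r a b q.1 q.2 := by
  rw [xval, Finsupp.sum, Finsupp.support_filter]
  refine Finset.sum_congr rfl fun v hv => ?_
  have h : (c.filter (fun q => (lts q).toFinset = R)) v = c v :=
    Finsupp.filter_apply_pos (fun q : ℕ × List (ι × ℕ) => (lts q).toFinset = R) c
      (Finset.mem_filter.1 hv).2
  rw [h]

omit [Fintype ι] in
private theorem mob2_nv (θ : ℕ → ℕ) (src tgt : ι → Q) (r : ι → U) (b : Q) (R : Finset ι)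
    (v : List (ι × ℕ)) : ∀ (a : Q) (i : ℕ),
    C.nv θ src tgt (fun k => if k ∈ R then r k else 0) a b i v =
      if (v.map Prod.fst).toFinset ⊆ R then C.nv θ src tgt r a b i v else 0 := by
  induction v with
  | nil =>
    intro a i
    rw [if_pos (by simp)]
    rfl
  | cons x v ih =>
    intro a i
    obtain ⟨k, j⟩ := x
    show C.g θ a (src k) i * ((if k ∈ R then r k else 0) *
      C.nv θ src tgt (fun k => if k ∈ R then r k else 0) (tgt k) b j v) = _
    rw [ih]
    have h1 : (((k, j) :: v).map Prod.fst).toFinset ⊆ R ↔ k ∈ R ∧ (v.map Prod.fst).toFinset ⊆ R := by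
      rw [List.map_cons, List.toFinset_cons, Finset.insert_subset_iff]
    by_cases hk : k ∈ R
    · by_cases hv : (v.map Prod.fst).toFinset ⊆ R
      · rw [if_pos hk, if_pos hv, if_pos (h1.2 ⟨hk, hv⟩)]
        rfl
      · rw [if_neg hv, if_neg (fun h => hv (h1.1 h).2), mul_zero, mul_zero]
    · rw [if_neg hk, if_neg (fun h => hk (h1.1 h).1), zero_mul, mul_zero]

theorem mob2 (src tgt : ι → Q) (σ : ι → ℕ) (a b : Q) (V : AddSubgroup U) (c : (ℕ × List (ι × ℕ)) →₀ ℤ)
    (h : ∀ θ r, C.Hom src tgt σ r → C.xval θ src tgt r a b c ∈ V) (R : Finset ι) :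
    ∀ θ r, C.Hom src tgt σ r →
      C.xval θ src tgt r a b (c.filter fun q => (lts q).toFinset = R) ∈ V := by
  induction R using Finset.strongInduction with
  | H R ih =>
    intro θ r hr
    have h1 : C.Hom src tgt σ (fun k => if k ∈ R then r k else 0) := by
      intro k
      show C.H (src k) (tgt k) (σ k) (if k ∈ R then r k else 0)
      split_ifs
      · exact hr k
      · exact ⟨C.S_zero _ _, fun _ => by rw [zero_mul, mul_zero]⟩
    have h2 := h θ _ h1
    have h3 : C.xval θ src tgt (fun k => if k ∈ R then r k else 0) a b c =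
        ∑ R' ∈ R.powerset, C.xval θ src tgt r a b (c.filter fun q => (lts q).toFinset = R') := by
      rw [xval, Finsupp.sum]
      simp_rw [mob2_nv, mob2_filter]
      have h4 : ∀ q ∈ c.support, c q • (if (q.2.map Prod.fst).toFinset ⊆ R then
          C.nv θ src tgt r a b q.1 q.2 else 0) =
          if (lts q).toFinset ⊆ R then c q • C.nv θ src tgt r a b q.1 q.2 else 0 := by
        intro q _
        show _ = if (q.2.map Prod.fst).toFinset ⊆ R then c q • C.nv θ src tgt r a b q.1 q.2 else 0
        split_ifs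
        · rfl
        · rw [smul_zero]
      rw [Finset.sum_congr rfl h4, ← Finset.sum_filter,
        ← Finset.sum_fiberwise_of_maps_to (s := c.support.filter fun q => (lts q).toFinset ⊆ R)
          (t := R.powerset) (g := fun q => (lts q).toFinset)
          (fun v hv => Finset.mem_powerset.2 (Finset.mem_filter.1 hv).2)]
      refine Finset.sum_congr rfl fun R' hR' => ?_
      refine Finset.sum_congr ?_ fun _ _ => rfl
      ext v
      simp only [Finset.mem_filter]
      constructor
      · rintro ⟨⟨h5, -⟩, h6⟩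
        exact ⟨h5, h6⟩
      · rintro ⟨h5, h6⟩
        exact ⟨⟨h5, by rw [h6]; exact Finset.mem_powerset.1 hR'⟩, h6⟩
    rw [h3, ← Finset.add_sum_erase _ _ (Finset.mem_powerset_self R)] at h2
    have h5 : ∑ R' ∈ R.powerset.erase R,
        C.xval θ src tgt r a b (c.filter fun q => (lts q).toFinset = R') ∈ V := by
      refine AddSubgroup.sum_mem _ fun R' hR' => ?_
      rw [Finset.mem_erase, Finset.mem_powerset] at hR'
      exact ih R' (lt_of_le_of_ne hR'.2 hR'.1) θ r hr
    exact (AddSubgroup.add_mem_cancel_right V h5).1 h2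

theorem mob2_sum (θ : ℕ → ℕ) (src tgt : ι → Q) (r : ι → U) (a b : Q) (c : (ℕ × List (ι × ℕ)) →₀ ℤ) :
    C.xval θ src tgt r a b c =
      ∑ R : Finset ι, C.xval θ src tgt r a b (c.filter fun q => (lts q).toFinset = R) := by
  simp_rw [mob2_filter]
  rw [xval, Finsupp.sum]
  exact (Finset.sum_fiberwise _ _ _).symm

end Ctx

end ADM
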