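import Pool.Agent.ADM.Tat2
import Pool.Agent.ADM.Exp2
import Pool.Agent.ADM.Mob2

namespace ADM

open AD ADN ADN.Ctx

namespace Ctx

variable {U : Type} [Ring U] {Q : Type} [Fintype Q] (C : Ctx U Q)

private theorem c2_idem (a : Q) : C.e a * C.e a = C.e a :=
  (C.coi.toOrthogonalIdempotents.idem a).eq

/-- decomposition of a sorted element in homogeneous ones -/
theorem homIJ (M : ℕ) (hM : ∀ i, C.r i ≤ M) {i j : Q} {y : U} (hy : C.S i j y) :
    ∃ z : ℕ → U, (∀ τ, C.H i j τ (z τ)) ∧ y = ∑ τ ∈ Finset.range M, z τ := by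
  classical
  have hM1 : 1 ≤ M := (C.r_pos i).trans (hM i)
  have hz0 : ∀ τ, C.H i j τ 0 := fun τ => ⟨C.S_zero i j, fun _ => by rw [zero_mul, mul_zero]⟩
  by_cases hb : C.blk i = C.blk j
  · have hyE : C.S i i (y * C.E j i) := by
      refine ⟨C.J_right _ _ hy.1, ?_, ?_⟩
      · rw [← mul_assoc, hy.2.1]
      · rw [mul_assoc, C.E_right]
    obtain ⟨u, hu, hsum⟩ := C.hom i _ hyE.1 hyE.2.1 hyE.2.2
    refine ⟨fun τ => if τ < C.r i then u τ * C.E i j else 0, ?_, ?_⟩
    · intro τ
      show C.H i j τ (if τ < C.r i then u τ * C.E i j else 0)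
      split_ifs with hτ
      · obtain ⟨h1, h2, h3, h4⟩ := hu τ
        refine ⟨⟨C.J_right _ _ h1, ?_, ?_⟩, fun _ => ?_⟩
        · rw [← mul_assoc, h2]
        · rw [mul_assoc, C.E_right]
        · rw [mul_assoc, ← C.w_E i j hb, ← mul_assoc, h4, mul_assoc]
      · exact hz0 τ
    · have h1 : y = y * C.E j i * C.E i j := by
        rw [mul_assoc, C.E_mul j i j hb.symm hb, C.E_self, hy.2.2]
      rw [h1, hsum, Finset.sum_mul]
      have h2 : Finset.range (C.r i) ⊆ Finset.range M := Finset.range_subset_range.2 (hM i)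
      rw [← Finset.sum_subset h2]
      · refine Finset.sum_congr rfl fun τ hτ => ?_
        rw [if_pos (Finset.mem_range.1 hτ)]
      · intro τ _ hτ
        rw [if_neg (fun h => hτ (Finset.mem_range.2 h))]
  · refine ⟨fun τ => if τ = 0 then y else 0, ?_, ?_⟩
    · intro τ
      show C.H i j τ (if τ = 0 then y else 0)
      split_ifs with hτ
      · exact ⟨hy, fun h => absurd h hb⟩
      · exact hz0 τ
    · rw [Finset.sum_ite_eq' (Finset.range M) 0 (fun _ => y), if_pos (Finset.mem_range.2 hM1)]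

theorem core2 (hC : C.Cub) (hTy : Types C.Rl C.p) (hOL : C.OpL) (hOR : C.OpR)
    (hTu : C.p = 2 → C.TuP) {T : Submodule ℤ P} (hT : C.Dst T)
    {V : Fin 3 → AddSubgroup U} (hV : C.Vals V) (f f' : P) (hf : f ∈ Pp) (hf' : f' ∈ Pp)
    (h : ∀ y : ℕ → U, (∀ i, y i ∈ C.A) →
      In3 V (FreeAlgebra.lift ℤ y f) (FreeAlgebra.lift ℤ y f'))
    (n : ℕ) (x : ℕ → U) (hx : ∀ i, x i ∈ C.A) (hxn : ∀ i, n ≤ i → x i = 0) :
    FreeAlgebra.lift ℤ x f = 0 := by
  classical
  choose d₀ hd₀ hd₁ using fun v => C.dec (x v) (hx v)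
  let d : ℕ → Q → Q → ℕ → ℤ := fun v => if v < n then d₀ v else 0
  have hd : ∀ v j m, d v C.o j m = 0 := by
    intro v j m
    simp only [d]
    split_ifs
    · exact hd₀ v j m
    · rfl
  let M : ℕ := ∑ i, C.r i
  have hM : ∀ i, C.r i ≤ M := fun i =>
    Finset.single_le_sum (f := C.r) (fun _ _ => Nat.zero_le _) (Finset.mem_univ i)
  let ι := Fin n × Q × Q × Fin M
  let ν : ι → ℕ := fun k => (k.1 : ℕ)
  let src : ι → Q := fun k => k.2.1
  let tgt : ι → Q := fun k => k.2.2.1
  let σ : ι → ℕ := fun k => (k.2.2.2 : ℕ)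
  let D : (ℕ → ℕ) → ℕ → U := fun θ v =>
    ∑ i, ∑ j, ∑ m ∈ Finset.range (C.n j), d v i j m • C.g θ i j m
  let W : ℕ → U := fun v => x v - D (fun _ => 1) v
  have hW : ∀ v, v < n → W v ∈ C.J := by
    intro v hv
    have h1 : d v = d₀ v := by simp only [d, if_pos hv]
    have h2 := hd₁ v
    show x v - ∑ i, ∑ j, ∑ m ∈ Finset.range (C.n j), d v i j m • C.g (fun _ => 1) i j m ∈ C.J
    rw [h1]
    simp only [g, one_mul]
    exact h2
  choose Z hZ₁ hZ₂ using fun (v : Fin n) (i j : Q) =>
    C.homIJ M hM (C.S_corner i j (hW v v.2))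
  let r : ι → U := fun k => Z k.1 k.2.1 k.2.2.1 (k.2.2.2 : ℕ)
  have hr : C.Hom src tgt σ r := fun k => hZ₁ _ _ _ _
  have hsum : ∀ v, D (fun _ => 1) v + ∑ k with ν k = v, r k = x v := by
    intro v
    by_cases hv : v < n
    · have h1 : ∑ k with ν k = v, r k = W v := by
        have h2 : ∑ k with ν k = v, r k = ∑ q : Q × Q × Fin M, r ((⟨v, hv⟩ : Fin n), q) := by
          symm
          apply Finset.sum_nbij (fun q => ((⟨v, hv⟩ : Fin n), q))
          · intro q _
            simp [ν]
          · intro q _ q' _ hq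
            simpa using hq
          · rintro ⟨k, q⟩ hk
            simp only [ν, Finset.coe_filter, Finset.mem_univ, true_and, Set.mem_setOf_eq] at hk
            refine ⟨q, Finset.mem_coe.2 (Finset.mem_univ _), ?_⟩
            simp only [Prod.mk.injEq, and_true]
            exact Fin.ext hk.symm
          · intro q _
            rfl
        rw [h2, Fintype.sum_prod_type]
        have h3 : ∀ i, ∑ q : Q × Fin M, r ((⟨v, hv⟩ : Fin n), i, q) = C.e i * W v := by
          intro i
          rw [Fintype.sum_prod_type]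
          have h4 : ∀ j, ∑ τ : Fin M, r ((⟨v, hv⟩ : Fin n), i, j, τ) = C.e i * W v * C.e j := by
            intro j
            rw [hZ₂ ⟨v, hv⟩ i j]
            exact Fin.sum_univ_eq_sum_range (fun τ => Z ⟨v, hv⟩ i j τ) M
          rw [Finset.sum_congr rfl fun j _ => h4 j, ← Finset.mul_sum, C.coi.complete, mul_one]
        rw [Finset.sum_congr rfl fun i _ => h3 i, ← Finset.sum_mul, C.coi.complete, one_mul]
      rw [h1]
      show D (fun _ => 1) v + (x v - D (fun _ => 1) v) = x v
      abel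
    · have h1 : ∑ k with ν k = v, r k = 0 := by
        apply Finset.sum_eq_zero
        intro k hk
        simp only [ν, Finset.mem_filter, Finset.mem_univ, true_and] at hk
        exact absurd k.1.2 (by omega)
      have h2 : d v = 0 := by simp only [d, if_neg hv]
      rw [h1, hxn v (by omega)]
      show (∑ i, ∑ j, ∑ m ∈ Finset.range (C.n j), d v i j m • C.g (fun _ => 1) i j m) + 0 = 0
      rw [h2]
      simp
  have hA : ∀ (θ : ℕ → ℕ) (r' : ι → U), C.Hom src tgt σ r' → ∀ v,
      D θ v + ∑ k with ν k = v, r' k ∈ C.A := by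
    intro θ r' hr' v
    apply C.A.add_mem
    · apply C.A.sum_mem
      intro i _
      apply C.A.sum_mem
      intro j _
      apply C.A.sum_mem
      intro m _
      by_cases hi : i = C.o
      · subst hi
        rw [hd v, zero_smul]
        exact C.A.zero_mem
      · exact C.A.zsmul_mem (C.A_right _ _ (C.E_mem hi j)) _
    · exact C.A.sum_mem fun k _ => C.S_mem (hr' k).1
  -- the corners
  have corner : ∀ a b, C.e a * FreeAlgebra.lift ℤ x f * C.e b = 0 := by
    intro a b
    obtain ⟨c, -, hc2, hc3⟩ := C.exp2 ν src tgt σ d hd f a b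
    obtain ⟨c', -, hc2', hc3'⟩ := C.exp2 ν src tgt σ d hd f' a b
    have hxx : (fun v => D (fun _ => 1) v + ∑ k with ν k = v, r k) = x := funext hsum
    have hval := hc3 (fun _ => 1) r hr
    change C.e a * FreeAlgebra.lift ℤ (fun v => D (fun _ => 1) v + ∑ k with ν k = v, r k) f * C.e b = _
      at hval
    rw [hxx] at hval
    rw [hval, C.mob2_sum (fun _ => 1) src tgt r a b c]
    apply Finset.sum_eq_zero
    intro R _
    have key : ∀ θ r', C.Hom src tgt σ r' →
        In3 V (C.xval θ src tgt r' a b c) (C.xval θ src tgt r' a b c') := by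
      intro θ r' hr'
      rw [← hc3 θ r' hr', ← hc3' θ r' hr']
      obtain ⟨h1, h2, h3⟩ := h _ (hA θ r' hr')
      refine ⟨hV.right _ _ _ (hV.left _ _ _ h1), hV.right _ _ _ (hV.left _ _ _ h2), ?_⟩
      rw [← add_mul, ← mul_add]
      exact hV.right _ _ _ (hV.left _ _ _ h3)
    refine C.tat2 hC hTy hOL hOR hTu hT hV src tgt σ a b R (c.filter fun q => (lts q).toFinset = R)
      (c'.filter fun q => (lts q).toFinset = R) ?_ ?_ ?_ ?_ (fun _ => 1) r hr
    · intro q hq
      rw [Finsupp.support_filter, Finset.mem_filter] at hq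
      exact hq.2
    · intro q hq
      rw [Finsupp.support_filter, Finset.mem_filter] at hq
      exact hq.2
    · intro ha i
      constructor
      · rw [Finsupp.filter_apply]
        split_ifs
        · exact hc2 hf ha i
        · rfl
      · rw [Finsupp.filter_apply]
        split_ifs
        · exact hc2' hf' ha i
        · rfl
    · intro θ r' hr'
      refine ⟨C.mob2 src tgt σ a b (V 0) c (fun θ r'' h'' => (key θ r'' h'').1) R θ r' hr',
        C.mob2 src tgt σ a b (V 1) c' (fun θ r'' h'' => (key θ r'' h'').2.1) R θ r' hr', ?_⟩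
      rw [← C.xval_add, ← Finsupp.filter_add]
      refine C.mob2 src tgt σ a b (V 2) (c + c') (fun θ r'' h'' => ?_) R θ r' hr'
      rw [C.xval_add]
      exact (key θ r'' h'').2.2
  have h1 : FreeAlgebra.lift ℤ x f = ∑ a, ∑ b, C.e a * FreeAlgebra.lift ℤ x f * C.e b := by
    have h3 : ∀ i, ∑ j, C.e i * FreeAlgebra.lift ℤ x f * C.e j = C.e i * FreeAlgebra.lift ℤ x f := by
      intro i
      rw [← Finset.mul_sum, C.coi.complete, mul_one]
    rw [Finset.sum_congr rfl fun i _ => h3 i, ← Finset.sum_mul, C.coi.complete, one_mul]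
  rw [h1]
  exact Finset.sum_eq_zero fun a _ => Finset.sum_eq_zero fun b _ => corner a b

end Ctx

end ADM
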