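import Pool.Agent.ADM.Defs
import Pool.Agent.ADM.AllL

/-!
# ADM-Cub2

An element of `I` outside `RowT p` gives a cubic relation which is antisymmetric in two letters.

PLAN.  `f ∉ RowT p = Lar (Lam p 0 ⊓ Lam p 1)`, `f ∈ I ≤ Pp`: there are `φ, u, v` with `g = u * φ f * v ∉ Lam p 0 ⊓ Lam p 1`, and
`g ∈ I` (`IsT`).  So there are `i ∈ {0, 1}` and letters `l, l'` with `¬ p ∣ row g i l - row g i l'`; `l ≠ l'`.  Take a permutation
`ρ` of `Fin 3` with `ρ l = 0`, `ρ l' = 1` and rename the letters (`X j ↦ X (ρ j)` for `j < 3`, the others unchanged: in `I`), so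
we may assume `l = 0`, `l' = 1`.  Let `G₀` be given by `allL` for `g`, and `G w = G₀ w - G₀ (w with 0 and 1 exchanged)`, i.e.
`G = G₀ - G₀.mapDomain (List.map (Equiv.swap 0 1))`; `∑ G w • mon (w.map val) ∈ I` because `I` is closed under the substitution
exchanging `X 0` and `X 1`.  With `t₁ = G [0,1,2]`, `t₂ = G [0,2,1]`, `t₃ = G [2,0,1]` the values at the exchanged words are
`- t₁, - t₂, - t₃`, and `row g 0 0 - row g 0 1 = t₁ + t₂`, `row g 1 0 - row g 1 1 = t₃ - t₁`.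
-/

namespace ADM

open AD ADN

private theorem cub2_all : ∀ a b c : Fin 3, a ≠ b → a ≠ c → b ≠ c → ∀ i, i ∈ [a, b, c] := by
  decide

private theorem cub2_third : ∀ a b : Fin 3, a ≠ b → ∃ c : Fin 3, a ≠ c ∧ b ≠ c := by
  decide

/-- renaming of the letters -/
private noncomputable def cub2Sub (π : Equiv.Perm (Fin 3)) : P →ₐ[ℤ] P :=
  FreeAlgebra.lift ℤ fun j : ℕ => X (if h : j < 3 then ((π ⟨j, h⟩ : Fin 3) : ℕ) else j)

private theorem cub2Sub_subst (π : Equiv.Perm (Fin 3)) : IsSubst (cub2Sub π) := by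
  intro i
  unfold cub2Sub
  rw [FreeAlgebra.lift_ι_apply]
  exact aug_X _

private theorem cub2Sub_mon (π : Equiv.Perm (Fin 3)) (w : List (Fin 3)) :
    cub2Sub π (mon (w.map Fin.val)) = mon ((w.map π).map Fin.val) := by
  unfold mon
  rw [map_list_prod, List.map_map, List.map_map, List.map_map, List.map_map]
  congr 1
  apply List.map_congr_left
  intro i _
  show cub2Sub π (X i.1) = X (π i).1
  unfold cub2Sub
  rw [FreeAlgebra.lift_ι_apply, dif_pos i.2]

private theorem cub2_perm {I : Submodule ℤ P} (hI : IsT I) (π : Equiv.Perm (Fin 3))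
    (G : List (Fin 3) →₀ ℤ) (h : (G.sum fun w c => c • mon (w.map Fin.val)) ∈ I) :
    ((G.mapDomain (List.map π)).sum fun w c => c • mon (w.map Fin.val)) ∈ I := by
  rw [Finsupp.sum_mapDomain_index (h := fun (w : List (Fin 3)) (c : ℤ) => c • mon (w.map Fin.val))
    (fun w => zero_smul ℤ _) (fun w m n => add_smul m n _)]
  have h1 := hI.subst _ (cub2Sub_subst π) _ h
  have h2 : cub2Sub π (G.sum fun w c => c • mon (w.map Fin.val)) =
      G.sum fun w c => c • mon ((w.map π).map Fin.val) := by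
    unfold Finsupp.sum
    rw [map_sum]
    refine Finset.sum_congr rfl fun w _ => ?_
    rw [map_smul, cub2Sub_mon]
  rw [h2] at h1
  exact h1

private theorem cub2_val (π : Equiv.Perm (Fin 3)) (G : List (Fin 3) →₀ ℤ) (w : List (Fin 3)) :
    (G.mapDomain (List.map π)) w = G (w.map π.symm) := by
  have h1 : w = List.map π (w.map π.symm) := by
    rw [List.map_map, Equiv.self_comp_symm, List.map_id]
  conv_lhs => rw [h1]
  exact Finsupp.mapDomain_apply (List.map_injective_iff.2 π.injective) _ _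

private theorem cub2_supp (π : Equiv.Perm (Fin 3)) (G : List (Fin 3) →₀ ℤ)
    (h : ∀ w ∈ G.support, ∀ i, i ∈ w) :
    ∀ w ∈ (G.mapDomain (List.map π)).support, ∀ i, i ∈ w := by
  intro w hw i
  rw [Finsupp.mem_support_iff, cub2_val, ← Finsupp.mem_support_iff] at hw
  have h1 := h _ hw (π.symm i)
  rwa [List.mem_map_of_injective π.symm.injective] at h1

private theorem cub2_row0 (g : P) : ∀ a b c : Fin 3, a ≠ b → a ≠ c → b ≠ c →
    row g 0 a = cf ([a, b, c].map Fin.val) g + cf ([a, c, b].map Fin.val) g := by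
  intro a b c h1 h2 h3
  fin_cases a <;> fin_cases b <;> first | exact absurd rfl h1 | skip
  all_goals fin_cases c <;> first | exact absurd rfl h2 | exact absurd rfl h3 | skip
  all_goals first | rfl | exact add_comm _ _

private theorem cub2_row1 (g : P) : ∀ a b c : Fin 3, a ≠ b → a ≠ c → b ≠ c →
    row g 1 a = cf ([b, a, c].map Fin.val) g + cf ([c, a, b].map Fin.val) g := by
  intro a b c h1 h2 h3
  fin_cases a <;> fin_cases b <;> first | exact absurd rfl h1 | skip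
  all_goals fin_cases c <;> first | exact absurd rfl h2 | exact absurd rfl h3 | skip
  all_goals first | rfl | exact add_comm _ _

/-- the letters in which the rows differ -/
private theorem cub2_find {I : Submodule ℤ P} (hI : IsT I) {p : ℕ} {f : P} (hf : f ∈ I)
    (h : f ∉ RowT p) : ∃ g ∈ I, ∃ l l' : Fin 3, ¬ ((p : ℤ) ∣ row g 0 l - row g 0 l' ∧
      (p : ℤ) ∣ row g 1 l - row g 1 l') := by
  by_contra hcon
  apply h
  refine ⟨hI.le hf, fun φ hφ u v => ?_⟩
  have hg : u * φ f * v ∈ I := hI.mul_right _ (hI.mul_left _ (hI.subst φ hφ f hf) u) v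
  have h1 : ∀ l l' : Fin 3, (p : ℤ) ∣ row (u * φ f * v) 0 l - row (u * φ f * v) 0 l' ∧
      (p : ℤ) ∣ row (u * φ f * v) 1 l - row (u * φ f * v) 1 l' := by
    intro l l'
    by_contra h2
    exact hcon ⟨_, hg, l, l', h2⟩
  exact ⟨fun l l' => (h1 l l').1, fun l l' => (h1 l l').2⟩

theorem cub2 {I : Submodule ℤ P} (hI : IsT I) {p : ℕ} {f : P} (hf : f ∈ I) (h : f ∉ RowT p) :
    ∃ (t₁ t₂ t₃ : ℤ) (G : List (Fin 3) →₀ ℤ), (∀ w ∈ G.support, ∀ i, i ∈ w) ∧
      (G.sum fun w c => c • mon (w.map Fin.val)) ∈ I ∧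
      G [0, 1, 2] = t₁ ∧ G [1, 0, 2] = -t₁ ∧ G [0, 2, 1] = t₂ ∧ G [1, 2, 0] = -t₂ ∧
      G [2, 0, 1] = t₃ ∧ G [2, 1, 0] = -t₃ ∧
      ¬ ((p : ℤ) ∣ t₁ + t₂ ∧ (p : ℤ) ∣ t₃ - t₁ ∧ (p : ℤ) ∣ t₂ + t₃) := by
  classical
  obtain ⟨g, hg, l, l', hll⟩ := cub2_find hI hf h
  have hne : l ≠ l' := by
    rintro rfl
    apply hll
    rw [sub_self, sub_self]
    exact ⟨dvd_zero _, dvd_zero _⟩
  obtain ⟨m, hlm, hlm'⟩ := cub2_third l l' hne
  obtain ⟨G₀, hG1, hG2, hG3⟩ := allL hI hg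
  have hinj : Function.Injective (![l, l', m] : Fin 3 → Fin 3) := by
    intro a b hab
    fin_cases a <;> fin_cases b <;> simp_all
  obtain ⟨σ, hσ⟩ : ∃ σ : Equiv.Perm (Fin 3), ∀ i, σ i = (![l, l', m] : Fin 3 → Fin 3) i :=
    ⟨Equiv.ofBijective _ (Finite.injective_iff_bijective.1 hinj), fun i => rfl⟩
  have s0 : σ 0 = l := hσ 0
  have s1 : σ 1 = l' := hσ 1
  have s2 : σ 2 = m := hσ 2
  set G₁ : List (Fin 3) →₀ ℤ := G₀.mapDomain (List.map σ.symm) with hG₁
  have hG₁I := cub2_perm hI σ.symm G₀ hG2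
  have hG₁s := cub2_supp σ.symm G₀ hG1
  have hG₁v : ∀ w, G₁ w = G₀ (w.map σ) := fun w => cub2_val σ.symm G₀ w
  set G₂ : List (Fin 3) →₀ ℤ := G₁.mapDomain (List.map (Equiv.swap 0 1)) with hG₂
  have hG₂I := cub2_perm hI (Equiv.swap 0 1) G₁ hG₁I
  have hG₂s := cub2_supp (Equiv.swap 0 1) G₁ hG₁s
  have hG₂v : ∀ w, G₂ w = G₁ (w.map (Equiv.swap 0 1)) := by
    intro w
    rw [hG₂, cub2_val, Equiv.symm_swap]
  have w0 : (Equiv.swap (0 : Fin 3) 1) 0 = 1 := by decide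
  have w1 : (Equiv.swap (0 : Fin 3) 1) 1 = 0 := by decide
  have w2 : (Equiv.swap (0 : Fin 3) 1) 2 = 2 := by decide
  have hv : ∀ a b c : Fin 3, (G₁ - G₂) [a, b, c] = G₀ [σ a, σ b, σ c] -
      G₀ [σ (Equiv.swap 0 1 a), σ (Equiv.swap 0 1 b), σ (Equiv.swap 0 1 c)] := by
    intro a b c
    rw [Finsupp.sub_apply, hG₂v, hG₁v, hG₁v]
    rfl
  refine ⟨(G₁ - G₂) [0, 1, 2], (G₁ - G₂) [0, 2, 1], (G₁ - G₂) [2, 0, 1], G₁ - G₂, ?_, ?_, rfl, ?_,
    rfl, ?_, rfl, ?_, ?_⟩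
  · intro w hw i
    rcases Finset.mem_union.1 (Finsupp.support_sub hw) with h1 | h1
    · exact hG₁s w h1 i
    · exact hG₂s w h1 i
  · rw [Finsupp.sum_sub_index fun w m n => sub_smul m n _]
    exact I.sub_mem hG₁I hG₂I
  · rw [hv, hv, w0, w1, w2, neg_sub]
  · rw [hv, hv, w0, w1, w2, neg_sub]
  · rw [hv, hv, w0, w1, w2, neg_sub]
  · rw [hv, hv, hv, w0, w1, w2, s0, s1, s2]
    rw [hG3 _ (cub2_all l l' m hne hlm hlm'), hG3 _ (cub2_all l' l m hne.symm hlm' hlm),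
      hG3 _ (cub2_all l m l' hlm hne hlm'.symm), hG3 _ (cub2_all l' m l hlm' hne.symm hlm.symm),
      hG3 _ (cub2_all m l l' hlm.symm hlm'.symm hne), hG3 _ (cub2_all m l' l hlm'.symm hlm.symm hne.symm)]
    rw [cub2_row0 g l l' m hne hlm hlm', cub2_row0 g l' l m hne.symm hlm' hlm,
      cub2_row1 g l l' m hne hlm hlm', cub2_row1 g l' l m hne.symm hlm' hlm] at hll
    rintro ⟨h1, h2, -⟩
    apply hll
    constructor
    · convert h1 using 1
      ring
    · convert h2 using 1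
      ring

end ADM
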