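import Pool.Agent.ADM.Defs
import Pool.Agent.ADM.Basic

/-!
# ADM: definitions for words of homogeneous loops
-/

namespace ADM

open AD ADN

/-- a linear combination of words, without a vertex -/
noncomputable def lv {U : Type} [Ring U] {ι : Type} (r : ι → U) (c : List ι →₀ ℤ) : U :=
  c.sum fun v n => n • (v.map r).prod

namespace Ctx

variable {U : Type} [Ring U] {Q : Type} [Fintype Q] (C : Ctx U Q)
variable {ι : Type}

/-- all letters are homogeneous loops at `a` -/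
def LHom (a : Q) (σ : ι → ℕ) (r : ι → U) : Prop := ∀ k, C.H a a (σ k) (r k)

/-- the words `v`, `v'` of loops at `a` have the same weights and the same total twist -/
def Ew [DecidableEq ι] (a : Q) (σ : ι → ℕ) (v v' : List ι) : Prop :=
  (∀ k, wt C.p σ v k ≡ wt C.p σ v' k [MOD C.n a]) ∧ tot σ v ≡ tot σ v' [MOD C.r a]

/-- `v'` may occur in a reduction of `v` -/
def Rw [DecidableEq ι] (a : Q) (σ : ι → ℕ) (v v' : List ι) : Prop :=
  (∀ k, v.count k ≤ v'.count k) ∧ (∀ k ∈ v', k ∈ v) ∧ C.Ew a σ v v'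

/-- all words of `c` may occur in a reduction of `v` and are deeper than `v` -/
def Deep [DecidableEq ι] (a : Q) (σ : ι → ℕ) (v : List ι) (c : List ι →₀ ℤ) : Prop :=
  ∀ v' ∈ c.support, C.Rw a σ v v' ∧
    (v.length < v'.length ∨ (v.length = v'.length ∧ (C.p : ℤ) ∣ c v'))

end Ctx

/-- the conditions of type L (all types but L excluded) -/
def TyL (Rl : (List (Fin 3) →₀ ℤ) → Prop) (p : ℕ) : Prop :=
  Off Rl p [0, 2, 1] ∧ Off Rl p [2, 0, 1] ∧ Off Rl p [1, 2, 0] ∧ Off Rl p [2, 1, 0]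

/-- type R -/
def TyR (Rl : (List (Fin 3) →₀ ℤ) → Prop) (p : ℕ) : Prop :=
  Off Rl p [1, 0, 2] ∧ Off Rl p [2, 0, 1] ∧ Off Rl p [1, 2, 0] ∧ Off Rl p [2, 1, 0]

/-- type T -/
def TyT (Rl : (List (Fin 3) →₀ ℤ) → Prop) (p : ℕ) : Prop :=
  Off Rl p [1, 0, 2] ∧ Off Rl p [0, 2, 1] ∧ Off Rl p [2, 1, 0]

/-- type M -/
def TyM (Rl : (List (Fin 3) →₀ ℤ) → Prop) (p : ℕ) : Prop :=
  Off Rl p [1, 0, 2] ∧ Off Rl p [0, 2, 1] ∧ Off Rl p [2, 0, 1] ∧ Off Rl p [1, 2, 0]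

theorem types_iff (Rl : (List (Fin 3) →₀ ℤ) → Prop) (p : ℕ) :
    Types Rl p ↔ TyL Rl p ∨ TyR Rl p ∨ TyT Rl p ∨ TyM Rl p := Iff.rfl

end ADM
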