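import Pool.Agent.ADM.Defs
import Pool.Agent.ADM.Basic

/-!
# ADM: definitions for words with arrows
-/

namespace ADM

open AD ADN ADN.Ctx

/-- number of letters of depth 1 on both sides of a matrix vertex -/
def Split2 {W : Type} (δ : Fin 3 → Bool) (m₁ m₂ v₀ v₁ v₂ v₃ : W) : Prop :=
  ∀ w : List (Fin 3), (∀ i, i ∈ w) → pth ![v₀, v₁, v₂] ![v₁, v₂, v₃] v₀ w v₃ →
    w = [0, 1, 2] ∨ (3 ≤ w.countP δ ∧ ∃ w₁ w₂ m, w = w₁ ++ w₂ ∧ (m = m₁ ∨ m = m₂) ∧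
      1 ≤ w₁.countP δ ∧ 1 ≤ w₂.countP δ ∧
      pth ![v₀, v₁, v₂] ![v₁, v₂, v₃] v₀ w₁ m ∧ pth ![v₀, v₁, v₂] ![v₁, v₂, v₃] m w₂ v₃)

namespace Ctx

variable {U : Type} [Ring U] {Q : Type} [Fintype Q] (C : Ctx U Q)
variable {ι : Type}

/-- block-compatible paths -/
def bpth (src tgt : ι → Q) : Q → List (ι × ℕ) → Q → Prop
  | a, [], b => C.blk a = C.blk b
  | a, (k, _) :: v, b => C.blk a = C.blk (src k) ∧ bpth src tgt (tgt k) v b

/-- sources or targets of letters with exponents -/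
def s2 {Q : Type} (src : ι → Q) : ι × ℕ → Q := fun q => src q.1

/-- values of letters with exponents -/
def r2 (θ : ℕ → ℕ) (tgt : ι → Q) (r : ι → U) : ι × ℕ → U :=
  fun q => r q.1 * C.w (tgt q.1) ^ (θ (C.blk (tgt q.1)) * q.2)

/-- gauge transformation of the letter `k₀` -/
def gau [DecidableEq ι] (θ : ℕ → ℕ) (tgt : ι → Q) (k₀ : ι) (m : ℕ) (r : ι → U) : ι → U :=
  fun k => if k = k₀ then r k * C.w (tgt k) ^ (θ (C.blk (tgt k)) * m) else r k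

/-- the letters of a word with arrows -/
def lts (q : ℕ × List (ι × ℕ)) : List ι := q.2.map Prod.fst

/-- separable words with arrows: the exponents can be moved to both ends, up to a gauge transformation of the letter `k₀` -/
structure Sep [DecidableEq ι] (src tgt : ι → Q) (σ : ι → ℕ) (a b : Q) (R : Finset ι) (k₀ : ι)
    (ok : (ℕ × List (ι × ℕ)) → Prop) (α β γ : (ℕ × List (ι × ℕ)) → ℕ) : Prop where
  form : ∀ q, (lts q).toFinset = R → ok q → ∀ θ r, C.Hom src tgt σ r →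
    C.nv θ src tgt r a b q.1 q.2 =
      C.w a ^ (θ (C.blk a) * α q) * C.wv (C.gau θ tgt k₀ (γ q) r) a (lts q) * C.w b ^ (θ (C.blk b) * β q)
  van : ∀ q, (lts q).toFinset = R → ¬ ok q → ∀ θ r, C.Hom src tgt σ r → C.nv θ src tgt r a b q.1 q.2 = 0
  path : ∀ q, (lts q).toFinset = R → ok q → pth src tgt a (lts q) b
  sep : (a = b ∧ ∀ q, β q = 0) ∨ C.blk a ≠ C.blk b
  gauge : (∀ q, γ q = 0) ∨ (C.blk (tgt k₀) ≠ C.blk a ∧ C.blk (tgt k₀) ≠ C.blk b ∧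
    C.blk (src k₀) ≠ C.blk (tgt k₀) ∧ ∀ q, (lts q).toFinset = R → ok q → (lts q).count k₀ = 1)

open scoped Classical in
/-- the words in a class, without arrows -/
noncomputable def psh (a b g : Q) (ok : (ℕ × List (ι × ℕ)) → Prop) (α β γ : (ℕ × List (ι × ℕ)) → ℕ)
    (α₀ β₀ γ₀ : ℕ) (c : (ℕ × List (ι × ℕ)) →₀ ℤ) : List ι →₀ ℤ :=
  (c.filter fun q => ok q ∧ α q ≡ α₀ [MOD C.n a] ∧ β q ≡ β₀ [MOD C.n b] ∧
    γ q ≡ γ₀ [MOD C.n g]).mapDomain lts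

end Ctx

end ADM
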