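import Pool.Agent.ADM.DefC

/-!
# ADM: pairs of combinations of words of loops
-/

namespace ADM

open AD ADN ADN.Ctx

namespace Ctx

variable {U : Type} [Ring U] {Q : Type} [Fintype Q] (C : Ctx U Q)
variable {ι : Type} [DecidableEq ι]

/-- two combinations of words of loops with letter set `R`, all in the class of `v₀`, with values in `V 0`, `V 1` and sum in `V 2` -/
structure Pr (V : Fin 3 → AddSubgroup U) (a : Q) (σ : ι → ℕ) (R : Finset ι) (v₀ : List ι)
    (c c' : List ι →₀ ℤ) : Prop where
  supp : ∀ v ∈ c.support, v.toFinset = R ∧ C.Ew a σ v₀ v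
  supp' : ∀ v ∈ c'.support, v.toFinset = R ∧ C.Ew a σ v₀ v
  in3 : ∀ r, C.LHom a σ r → In3 V (C.val r a c) (C.val r a c')

end Ctx

end ADM
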