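import Pool.Agent.ADN.Defs
import Pool.Agent.ADN.Bridge
import Pool.Agent.ADN.T3a

/-!
# Almost distributive varieties of rings are nilpotent: definitions
-/

namespace ADM

open AD ADN ADN.Ctx

/-- A ring `U` with an ideal `A`, a nilpotent ideal `J ≤ A`, and orthogonal idempotents; `e i ∈ A` for `i ≠ o`. -/
structure Base (U : Type) [Ring U] (Q : Type) [Fintype Q] where
  o : Q
  p : ℕ
  K : ℕ
  N : ℕ
  e : Q → U
  A : AddSubgroup U
  J : AddSubgroup U
  hp : p.Prime
  coi : CompleteOrthogonalIdempotents e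
  A_left : ∀ u a, a ∈ A → u * a ∈ A
  A_right : ∀ u a, a ∈ A → a * u ∈ A
  J_left : ∀ u a, a ∈ J → u * a ∈ J
  J_right : ∀ u a, a ∈ J → a * u ∈ J
  J_le : J ≤ A
  e_mem : ∀ i, i ≠ o → e i ∈ A
  pJ : ∀ a ∈ A, (p : ℤ) • a ∈ J
  tors : ∀ a ∈ A, ((p : ℤ) ^ K) • a = 0
  nil : ∀ l : List U, N ≤ l.length → (∀ x ∈ l, x ∈ J) → l.prod = 0

/-- `G` with `G [0,1,2] ≡ 1` and `G w ≡ 0` modulo `p` in the set `Rl` -/
def Off (Rl : (List (Fin 3) →₀ ℤ) → Prop) (p : ℕ) (w : List (Fin 3)) : Prop :=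
  ∃ G, Rl G ∧ (p : ℤ) ∣ G [0, 1, 2] - 1 ∧ (p : ℤ) ∣ G w

/-- words with twisted letters on the left of the last letter: not of the types L, R, T, M -/
def Types (Rl : (List (Fin 3) →₀ ℤ) → Prop) (p : ℕ) : Prop :=
  (Off Rl p [0, 2, 1] ∧ Off Rl p [2, 0, 1] ∧ Off Rl p [1, 2, 0] ∧ Off Rl p [2, 1, 0]) ∨
  (Off Rl p [1, 0, 2] ∧ Off Rl p [2, 0, 1] ∧ Off Rl p [1, 2, 0] ∧ Off Rl p [2, 1, 0]) ∨
  (Off Rl p [1, 0, 2] ∧ Off Rl p [0, 2, 1] ∧ Off Rl p [2, 1, 0]) ∨
  (Off Rl p [1, 0, 2] ∧ Off Rl p [0, 2, 1] ∧ Off Rl p [2, 0, 1] ∧ Off Rl p [1, 2, 0])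

/-- the largest T-ideal contained in `L` -/
noncomputable def Lar (L : Submodule ℤ P) : Submodule ℤ P where
  carrier := {f | f ∈ Pp ∧ ∀ φ : P →ₐ[ℤ] P, IsSubst φ → ∀ u v : P, u * φ f * v ∈ L}
  add_mem' := fun {f g} hf hg => ⟨Pp.add_mem hf.1 hg.1, fun φ hφ u v => by
    rw [map_add, mul_add, add_mul]
    exact L.add_mem (hf.2 φ hφ u v) (hg.2 φ hφ u v)⟩
  zero_mem' := ⟨Pp.zero_mem, fun φ _ u v => by
    rw [map_zero, mul_zero, zero_mul]
    exact L.zero_mem⟩
  smul_mem' := fun c f hf => ⟨Pp.smul_mem c hf.1, fun φ hφ u v => by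
    rw [map_smul, mul_smul_comm, smul_mul_assoc]
    exact L.smul_mem c (hf.2 φ hφ u v)⟩

/-- the coefficients of `f` at the words of length 3 in the letters `0, 1, 2`, all different, with letter `l` at the position
`i` are added -/
noncomputable def row (f : P) : Fin 3 → Fin 3 → ℤ :=
  ![![cf [0, 1, 2] f + cf [0, 2, 1] f, cf [1, 0, 2] f + cf [1, 2, 0] f, cf [2, 0, 1] f + cf [2, 1, 0] f],
    ![cf [1, 0, 2] f + cf [2, 0, 1] f, cf [0, 1, 2] f + cf [2, 1, 0] f, cf [0, 2, 1] f + cf [1, 2, 0] f],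
    ![cf [1, 2, 0] f + cf [2, 1, 0] f, cf [0, 2, 1] f + cf [2, 0, 1] f, cf [0, 1, 2] f + cf [1, 0, 2] f]]

theorem row_add (f g : P) (i l : Fin 3) : row (f + g) i l = row f i l + row g i l := by
  fin_cases i <;> fin_cases l <;> simp [row, cf_add] <;> ring

theorem row_smul (c : ℤ) (f : P) (i l : Fin 3) : row (c • f) i l = c * row f i l := by
  fin_cases i <;> fin_cases l <;> simp [row, cf_smul, -zsmul_eq_mul] <;> ring

/-- row `i` is constant modulo `p` -/
noncomputable def Lam (p : ℕ) (i : Fin 3) : Submodule ℤ P where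
  carrier := {f | ∀ l l', (p : ℤ) ∣ row f i l - row f i l'}
  add_mem' := fun {f g} hf hg l l' => by
    rw [row_add, row_add]
    have h := dvd_add (hf l l') (hg l l')
    have e : row f i l + row g i l - (row f i l' + row g i l') =
        (row f i l - row f i l') + (row g i l - row g i l') := by ring
    rw [e]
    exact h
  zero_mem' := fun l l' => by
    have h : ∀ l, row (0 : P) i l = 0 := fun l => by
      have h := row_smul 0 0 i l
      rwa [zero_smul, zero_mul] at h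
    rw [h, h, sub_zero]
    exact dvd_zero _
  smul_mem' := fun c f hf l l' => by
    rw [row_smul, row_smul, ← mul_sub]
    exact Dvd.dvd.mul_left (hf l l') c

/-- the largest T-ideal in which the rows are constant modulo `p` -/
noncomputable def RowT (p : ℕ) : Submodule ℤ P := Lar (Lam p 0 ⊓ Lam p 1)

/-- the word `x_0 ^ j x_1 x_0 ^ k` -/
def w01 (j k : ℕ) : List ℕ := List.replicate j 0 ++ 1 :: List.replicate k 0

/-- the sum of the coefficients at the words `x_0 ^ j x_1 x_0 ^ (p - j)` -/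
noncomputable def cofB (p : ℕ) (f : P) : ℤ := ∑ j ∈ Finset.range (p + 1), cf (w01 j (p - j)) f

theorem cofB_add (p : ℕ) (f g : P) : cofB p (f + g) = cofB p f + cofB p g := by
  unfold cofB
  rw [← Finset.sum_add_distrib]
  exact Finset.sum_congr rfl fun j _ => cf_add _ _ _

theorem cofB_smul (p : ℕ) (c : ℤ) (f : P) : cofB p (c • f) = c * cofB p f := by
  unfold cofB
  rw [Finset.mul_sum]
  exact Finset.sum_congr rfl fun j _ => cf_smul _ _ _

/-- `α cf(x_0x_1) + β cofB ≡ 0` modulo `p` -/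
noncomputable def LamO (p : ℕ) (α β : ℤ) : Submodule ℤ P where
  carrier := {f | (p : ℤ) ∣ α * cf [0, 1] f + β * cofB p f}
  add_mem' := fun {f g} hf hg => by
    show (p : ℤ) ∣ α * cf [0, 1] (f + g) + β * cofB p (f + g)
    rw [cf_add, cofB_add]
    have e : α * (cf [0, 1] f + cf [0, 1] g) + β * (cofB p f + cofB p g) =
        (α * cf [0, 1] f + β * cofB p f) + (α * cf [0, 1] g + β * cofB p g) := by ring
    rw [e]
    exact dvd_add hf hg
  zero_mem' := by
    show (p : ℤ) ∣ α * cf [0, 1] (0 : P) + β * cofB p (0 : P)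
    have h1 : cf [0, 1] (0 : P) = 0 := by
      have h := cf_smul [0, 1] 0 (0 : P)
      rwa [zero_smul, zero_mul] at h
    have h2 : cofB p (0 : P) = 0 := by
      have h := cofB_smul p 0 (0 : P)
      rwa [zero_smul, zero_mul] at h
    rw [h1, h2, mul_zero, mul_zero, add_zero]
    exact dvd_zero _
  smul_mem' := fun c f hf => by
    show (p : ℤ) ∣ α * cf [0, 1] (c • f) + β * cofB p (c • f)
    rw [cf_smul, cofB_smul]
    have e : α * (c * cf [0, 1] f) + β * (c * cofB p f) = c * (α * cf [0, 1] f + β * cofB p f) := by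
      ring
    rw [e]
    exact Dvd.dvd.mul_left hf c

/-- the second excluded T-ideal -/
noncomputable def OT (p : ℕ) : Submodule ℤ P := Lar (LamO p 1 0 ⊓ LamO p 0 1)

namespace Base

variable {U : Type} [Ring U] {Q : Type} [Fintype Q] (C : Base U Q)

/-- `x ∈ e_a J e_b` -/
def S (a b : Q) (x : U) : Prop := x ∈ C.J ∧ C.e a * x = x ∧ x * C.e b = x

/-- the relations of the ideal `A` in three letters, all words contain all letters -/
def Rl (G : List (Fin 3) →₀ ℤ) : Prop := (∀ w ∈ G.support, ∀ i, i ∈ w) ∧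
  ∀ a : Fin 3 → U, (∀ i, a i ∈ C.A) → (G.sum fun w c => c • w3 a w) = 0

/-- the ideal `A` satisfies an identity of degree 3 modulo longer words -/
def Cub : Prop := ∃ G : List (Fin 3) →₀ ℤ, (∀ w ∈ G.support, ∀ i, i ∈ w) ∧
  ¬ (C.p : ℤ) ∣ G [0, 1, 2] ∧
  ∀ a : Fin 3 → U, (∀ i, a i ∈ C.A) → (G.sum fun w c => c • w3 a w) = 0

/-- the polynomial `g` vanishes on `A` -/
def Idn (g : P) : Prop := ∀ y : ℕ → U, (∀ i, y i ∈ C.A) → FreeAlgebra.lift ℤ y g = 0

/-- the relations of the ideal `A` in two letters, all words contain both letters -/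
def Rl2 (G : List (Fin 2) →₀ ℤ) : Prop := (∀ w ∈ G.support, ∀ i, i ∈ w) ∧
  ∀ a : Fin 2 → U, (∀ i, a i ∈ C.A) → (G.sum fun w c => c • (w.map a).prod) = 0

/-- a relation in which the coefficient of `x_0 ^ p x_1` is prime to `p` -/
def OpL : Prop := ∃ G, C.Rl2 G ∧ ¬ (C.p : ℤ) ∣ G (List.replicate C.p 0 ++ [1])

/-- a relation in which the coefficient of `x_1 x_0 ^ p` is prime to `p` -/
def OpR : Prop := ∃ G, C.Rl2 G ∧ ¬ (C.p : ℤ) ∣ G (1 :: List.replicate C.p 0)

/-- the relations used for the field with four elements -/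
def TuP : Prop := (∃ c : ℕ →₀ ℤ, c 0 = 0 ∧ (¬ (4 : ℤ) ∣ c 1 ∨ ¬ (2 : ℤ) ∣ c 2) ∧
    ∀ a ∈ C.A, (c.sum fun k z => z • a ^ k) = 0) ∨
  ∃ G, C.Rl2 G ∧ ¬ (2 : ℤ) ∣ G [0, 1] + G [1, 0]

/-- three ideals of values, with pairwise intersection zero -/
structure Vals (V : Fin 3 → AddSubgroup U) : Prop where
  left : ∀ i u a, a ∈ V i → u * a ∈ V i
  right : ∀ i u a, a ∈ V i → a * u ∈ V i
  le : ∀ i, V i ≤ C.A
  disj : ∀ i j, i ≠ j → ∀ x, x ∈ V i → x ∈ V j → x = 0

/-- the T-ideal `T` has distributive interval above it and vanishes on `J` -/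
def Dst (T : Submodule ℤ P) : Prop := IsT T ∧ DistOn TI T ∧
  ∀ g ∈ T, ∀ r : ℕ → U, (∀ i, r i ∈ C.J) → FreeAlgebra.lift ℤ r g = 0

variable {ι : Type}

/-- the value of the word `v`, as a path starting in `a` -/
def wv (r : ι → U) (a : Q) (v : List ι) : U := C.e a * (v.map r).prod

/-- all letters are sorted -/
def Srt (src tgt : ι → Q) (r : ι → U) : Prop := ∀ k, C.S (src k) (tgt k) (r k)

/-- a linear combination of words -/
noncomputable def val (r : ι → U) (a : Q) (c : List ι →₀ ℤ) : U :=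
  c.sum fun v n => n • C.wv r a v

end Base

/-- shapes of the words with nonzero values: all letters are loops -/
def Sh1 {ι Q : Type} (src tgt : ι → Q) (a b : Q) (v : List ι) : Prop :=
  a = b ∧ ∀ k ∈ v, src k = a ∧ tgt k = a

/-- loops, then one edge -/
def Sh2 {ι Q : Type} (src tgt : ι → Q) (a b : Q) (v : List ι) : Prop :=
  a ≠ b ∧ ∃ v₁ k, v = v₁ ++ [k] ∧ (∀ i ∈ v₁, src i = a ∧ tgt i = a) ∧ src k = a ∧ tgt k = b

/-- one edge, then loops -/
def Sh3 {ι Q : Type} (src tgt : ι → Q) (a b : Q) (v : List ι) : Prop :=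
  a ≠ b ∧ ∃ v₁ k, v = k :: v₁ ∧ (∀ i ∈ v₁, src i = b ∧ tgt i = b) ∧ src k = a ∧ tgt k = b

/-- loops, two opposite edges, loops -/
def Sh4 {ι Q : Type} (src tgt : ι → Q) (a b : Q) (v : List ι) : Prop :=
  a = b ∧ ∃ v₁ v₂ k l g, g ≠ a ∧ v = v₁ ++ k :: l :: v₂ ∧ (∀ i ∈ v₁, src i = a ∧ tgt i = a) ∧
    (∀ i ∈ v₂, src i = a ∧ tgt i = a) ∧ src k = a ∧ tgt k = g ∧ src l = g ∧ tgt l = a

/-- two edges through three different vertices -/
def Sh5 {ι Q : Type} (src tgt : ι → Q) (a b : Q) (v : List ι) : Prop :=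
  ∃ k l g, v = [k, l] ∧ a ≠ b ∧ g ≠ a ∧ g ≠ b ∧ src k = a ∧ tgt k = g ∧ src l = g ∧ tgt l = b

/-- three edges between two vertices -/
def Sh6 {ι Q : Type} (src tgt : ι → Q) (a b : Q) (v : List ι) : Prop :=
  a ≠ b ∧ ∃ k l m, v = [k, l, m] ∧ src k = a ∧ tgt k = b ∧ src l = b ∧ tgt l = a ∧
    src m = a ∧ tgt m = b

/-- order of the Teichmueller elements of a residue field with `p ^ r` elements (`1` for prime fields) -/
def ord (p r : ℕ) : ℕ := if r = 1 then 1 else p ^ r - 1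

/-- The complete structure: blocks (matrix rings over fields with `p ^ r` elements modulo `J`), matrix units `E i j`
between the vertices of a block, Teichmueller elements `w i`, decomposition of the loops according to
their twist. -/
structure Ctx (U : Type) [Ring U] (Q : Type) [Fintype Q] extends Base U Q where
  blk : Q → ℕ
  blk_o : ∀ i, blk i = blk o → i = o
  r : Q → ℕ
  r_pos : ∀ i, 1 ≤ r i
  r_o : r o = 1
  r_blk : ∀ i j, blk i = blk j → r i = r j
  w : Q → U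
  E : Q → Q → U
  E_self : ∀ i, E i i = e i
  E_ne : ∀ i j, blk i ≠ blk j → E i j = 0
  E_mul : ∀ i j k, blk i = blk j → blk j = blk k → E i j * E j k = E i k
  E_left : ∀ i j, e i * E i j = E i j
  E_right : ∀ i j, E i j * e j = E i j
  w_left : ∀ i, e i * w i = w i
  w_right : ∀ i, w i * e i = w i
  w_E : ∀ i j, blk i = blk j → w i * E i j = E i j * w j
  w_pow : ∀ i, w i ^ ord p (r i) = e i
  unit : ∀ i m, ¬ ord p (r i) ∣ m → ∃ u, u * (w i ^ m - e i) = e i
  hom : ∀ i x, x ∈ J → e i * x = x → x * e i = x → ∃ y : ℕ → U,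
      (∀ σ, y σ ∈ J ∧ e i * y σ = y σ ∧ y σ * e i = y σ ∧ y σ * w i = w i ^ p ^ σ * y σ) ∧
        x = ∑ σ ∈ Finset.range (r i), y σ
  dec : ∀ a ∈ A, ∃ c : Q → Q → ℕ → ℤ, (∀ j m, c o j m = 0) ∧
      a - ∑ i, ∑ j, ∑ m ∈ Finset.range (ord p (r j)), c i j m • (E i j * w j ^ m) ∈ J

namespace Ctx

variable {U : Type} [Ring U] {Q : Type} [Fintype Q] (C : Ctx U Q)

/-- the order of `w i` -/
def n (i : Q) : ℕ := ord C.p (C.r i)

/-- sorted and homogeneous of twist `σ` (if the two vertices are in the same block) -/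
def H (i j : Q) (σ : ℕ) (x : U) : Prop :=
  C.S i j x ∧ (C.blk i = C.blk j → x * C.w j = C.w i ^ C.p ^ σ * x)

/-- `σ` is a nontrivial twist at `i` -/
def Tw (i : Q) (σ : ℕ) : Prop := ¬ C.r i ∣ σ

/-- the block of `i` has only one vertex -/
def NM (i : Q) : Prop := ∀ j, C.blk j = C.blk i → j = i

/-- the arrow from `a` to `b` with exponent `m` (exponents are multiplied by `θ`) -/
def g (θ : ℕ → ℕ) (a b : Q) (m : ℕ) : U := C.E a b * C.w b ^ (θ (C.blk b) * m)

variable {ι : Type}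

/-- all letters are homogeneous -/
def Hom (src tgt : ι → Q) (σ : ι → ℕ) (r : ι → U) : Prop := ∀ k, C.H (src k) (tgt k) (σ k) (r k)

/-- value of a word with arrows between the letters -/
def nv (θ : ℕ → ℕ) (src tgt : ι → Q) (r : ι → U) : Q → Q → ℕ → List (ι × ℕ) → U
  | a, b, i, [] => C.g θ a b i
  | a, b, i, (k, j) :: v => C.g θ a (src k) i * (r k * nv θ src tgt r (tgt k) b j v)

/-- value of a linear combination of words with arrows -/
noncomputable def xval (θ : ℕ → ℕ) (src tgt : ι → Q) (r : ι → U) (a b : Q)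
    (c : (ℕ × List (ι × ℕ)) →₀ ℤ) : U :=
  c.sum fun q z => z • C.nv θ src tgt r a b q.1 q.2

/-- the total twist of a word -/
def tot (σ : ι → ℕ) (v : List ι) : ℕ := (v.map σ).sum

/-- the weight of the letter `k` in a word of loops -/
def wt [DecidableEq ι] (p : ℕ) (σ : ι → ℕ) : List ι → ι → ℕ
  | [], _ => 0
  | l :: v, k => (if l = k then 1 else 0) + p ^ σ l * wt p σ v k

/-- the exponent collected on the left of a word of loops with exponents -/
def ex (p : ℕ) (σ : ι → ℕ) : ℕ → List (ι × ℕ) → ℕ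
  | i, [] => i
  | i, (k, j) :: v => i + p ^ σ k * ex p σ j v

/-- number of twisted letters of a word of loops at `a` -/
noncomputable def ntw (a : Q) (σ : ι → ℕ) (v : List ι) : ℕ := by
  classical
  exact (v.filter fun k => decide (C.Tw a (σ k))).length

end Ctx

end ADM
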