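import Pool.Agent.ADM.DefC

/-!
# ADM-HB

Elementary facts on homogeneous loops: powers of the Teichmueller elements `w a` and their exponents modulo `n a`, products of
homogeneous loops, weights of words and rescaling of a letter.
-/

namespace ADM

open AD ADN

namespace Ctx

variable {U : Type} [Ring U] {Q : Type} [Fintype Q] (C : Ctx U Q)
variable {ι : Type} {a : Q}

theorem n_eq (ha : 2 ≤ C.r a) : C.n a = C.p ^ C.r a - 1 := by
  unfold n ord
  rw [if_neg (by omega)]

theorem n_ge (ha : 2 ≤ C.r a) : 3 ≤ C.n a := by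
  rw [n_eq C ha]
  have h1 : 2 ≤ C.p := C.hp.two_le
  have h2 : C.p ^ 2 ≤ C.p ^ C.r a := Nat.pow_le_pow_right (by omega) ha
  have h3 : 2 ^ 2 ≤ C.p ^ 2 := Nat.pow_le_pow_left h1 2
  omega

theorem ne_o (ha : 2 ≤ C.r a) : a ≠ C.o := by
  rintro rfl
  have := C.r_o
  omega

theorem n_pos (a : Q) : 0 < C.n a := by
  rcases Nat.lt_or_ge (C.r a) 2 with h | h
  · have h1 : C.r a = 1 := by
      have := C.r_pos a
      omega
    unfold n ord
    rw [if_pos h1]
    exact one_pos
  · have := n_ge C h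
    omega

theorem n_coprime (a : Q) : Nat.Coprime (C.n a) C.p := by
  rcases Nat.lt_or_ge (C.r a) 2 with h | h
  · have h1 : C.r a = 1 := by
      have := C.r_pos a
      omega
    unfold n ord
    rw [if_pos h1]
    exact Nat.coprime_one_left _
  · rw [n_eq C h]
    refine ((Nat.Prime.coprime_iff_not_dvd C.hp).2 fun h1 => ?_).symm
    have h2 : C.p ∣ C.p ^ C.r a := dvd_pow_self _ (by omega)
    have h3 : 0 < C.p ^ C.r a := Nat.pow_pos C.hp.pos
    have h4 : C.p ∣ C.p ^ C.r a - (C.p ^ C.r a - 1) := Nat.dvd_sub h2 h1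
    have h5 : C.p ^ C.r a - (C.p ^ C.r a - 1) = 1 := by omega
    rw [h5] at h4
    have h6 := Nat.le_of_dvd one_pos h4
    have h7 := C.hp.two_le
    omega

private theorem hb_pow_r (a : Q) : C.p ^ C.r a ≡ 1 [MOD C.n a] := by
  rcases Nat.lt_or_ge (C.r a) 2 with h | h
  · have h1 : C.r a = 1 := by
      have := C.r_pos a
      omega
    have h2 : C.n a = 1 := by
      unfold n ord
      rw [if_pos h1]
    rw [h2]
    exact Nat.modEq_one
  · rw [n_eq C h]
    have h3 : 1 ≤ C.p ^ C.r a := Nat.pow_pos C.hp.pos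
    exact ((Nat.modEq_iff_dvd' h3).2 (dvd_refl _)).symm

private theorem hb_pow_le (a : Q) {s t : ℕ} (hst : s ≤ t) (h : s ≡ t [MOD C.r a]) :
    C.p ^ s ≡ C.p ^ t [MOD C.n a] := by
  obtain ⟨k, hk⟩ := (Nat.modEq_iff_dvd' hst).1 h
  have h1 : t = s + C.r a * k := by omega
  rw [h1, pow_add, pow_mul]
  have h2 : (C.p ^ C.r a) ^ k ≡ 1 ^ k [MOD C.n a] := (hb_pow_r C a).pow k
  rw [one_pow] at h2
  have h3 := h2.mul_left (C.p ^ s)
  rw [mul_one] at h3
  exact h3.symm

theorem p_pow_modEq (a : Q) {s t : ℕ} (h : s ≡ t [MOD C.r a]) : C.p ^ s ≡ C.p ^ t [MOD C.n a] := by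
  rcases le_total s t with hst | hst
  · exact hb_pow_le C a hst h
  · exact (hb_pow_le C a hst h.symm).symm

private theorem hb_w_n (a : Q) : C.w a ^ C.n a = C.e a := C.w_pow a

private theorem hb_e_left (k : ℕ) {x : U} (hx : C.e a * x = x) : C.e a ^ k * x = x := by
  induction k with
  | zero => rw [pow_zero, one_mul]
  | succ k ih => rw [pow_succ, mul_assoc, hx, ih]

private theorem hb_e_right (k : ℕ) {x : U} (hx : x * C.e a = x) : x * C.e a ^ k = x := by
  induction k with
  | zero => rw [pow_zero, mul_one]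
  | succ k ih => rw [pow_succ', ← mul_assoc, hx, ih]

private theorem hb_left_le {m m' : ℕ} (hm : m ≤ m') (h : m ≡ m' [MOD C.n a]) {x : U}
    (hx : C.e a * x = x) : C.w a ^ m * x = C.w a ^ m' * x := by
  obtain ⟨k, hk⟩ := (Nat.modEq_iff_dvd' hm).1 h
  have h1 : m' = m + C.n a * k := by omega
  rw [h1, pow_add, pow_mul, hb_w_n C a, mul_assoc, hb_e_left C k hx]

private theorem hb_right_le {m m' : ℕ} (hm : m ≤ m') (h : m ≡ m' [MOD C.n a]) {x : U}
    (hx : x * C.e a = x) : x * C.w a ^ m = x * C.w a ^ m' := by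
  obtain ⟨k, hk⟩ := (Nat.modEq_iff_dvd' hm).1 h
  have h1 : m' = C.n a * k + m := by omega
  rw [h1, pow_add, pow_mul, hb_w_n C a, ← mul_assoc, hb_e_right C k hx]

theorem w_pow_left {m m' : ℕ} (h : m ≡ m' [MOD C.n a]) {x : U} (hx : C.e a * x = x) :
    C.w a ^ m * x = C.w a ^ m' * x := by
  rcases le_total m m' with hm | hm
  · exact hb_left_le C hm h hx
  · exact (hb_left_le C hm h.symm hx).symm

theorem w_pow_right {m m' : ℕ} (h : m ≡ m' [MOD C.n a]) {x : U} (hx : x * C.e a = x) :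
    x * C.w a ^ m = x * C.w a ^ m' := by
  rcases le_total m m' with hm | hm
  · exact hb_right_le C hm h hx
  · exact (hb_right_le C hm h.symm hx).symm

theorem e_w_pow (m : ℕ) {x : U} (hx : C.e a * x = x) : C.e a * (C.w a ^ m * x) = C.w a ^ m * x := by
  cases m with
  | zero => rw [pow_zero, one_mul, hx]
  | succ m => rw [pow_succ', ← mul_assoc, ← mul_assoc, C.w_left]

theorem w_pow_e (m : ℕ) {x : U} (hx : x * C.e a = x) : x * C.w a ^ m * C.e a = x * C.w a ^ m := by
  cases m with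
  | zero => rw [pow_zero, mul_one, hx]
  | succ m => rw [pow_succ, mul_assoc x, mul_assoc (C.w a ^ m), C.w_right]

theorem H_zero (σ : ℕ) : C.H a a σ 0 :=
  ⟨Base.S_zero _ a a, fun _ => by rw [zero_mul, mul_zero]⟩

theorem H_add {σ : ℕ} {x y : U} (hx : C.H a a σ x) (hy : C.H a a σ y) : C.H a a σ (x + y) :=
  ⟨Base.S_add _ hx.1 hy.1, fun h => by rw [add_mul, mul_add, hx.2 h, hy.2 h]⟩

theorem H_neg {σ : ℕ} {x : U} (hx : C.H a a σ x) : C.H a a σ (-x) :=
  ⟨Base.S_neg _ hx.1, fun h => by rw [neg_mul, mul_neg, hx.2 h]⟩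

theorem H_zsmul {σ : ℕ} (z : ℤ) {x : U} (hx : C.H a a σ x) : C.H a a σ (z • x) := by
  refine ⟨⟨C.J.zsmul_mem hx.1.1 z, ?_, ?_⟩, fun h => ?_⟩
  · rw [mul_smul_comm, hx.1.2.1]
  · rw [smul_mul_assoc, hx.1.2.2]
  · rw [smul_mul_assoc, mul_smul_comm, hx.2 h]

theorem H_pow {σ : ℕ} {x : U} (hx : C.H a a σ x) (m : ℕ) :
    x * C.w a ^ m = C.w a ^ (C.p ^ σ * m) * x := by
  induction m with
  | zero => rw [mul_zero, pow_zero, mul_one, one_mul]
  | succ m ih =>
    rw [pow_succ, ← mul_assoc, ih, mul_assoc, hx.2 rfl, ← mul_assoc, ← pow_add]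
    congr 2

theorem H_mul {σ τ : ℕ} {x y : U} (hx : C.H a a σ x) (hy : C.H a a τ y) : C.H a a (σ + τ) (x * y) := by
  refine ⟨Base.S_mul _ hx.1 hy.1, fun h => ?_⟩
  rw [mul_assoc, hy.2 h, ← mul_assoc, H_pow C hx, mul_assoc, ← pow_add]

theorem H_modEq {σ τ : ℕ} (h : σ ≡ τ [MOD C.r a]) {x : U} (hx : C.H a a σ x) : C.H a a τ x :=
  ⟨hx.1, fun h1 => by rw [hx.2 h1, w_pow_left C (p_pow_modEq C a h) hx.1.2.1]⟩

theorem H_wl {σ : ℕ} {x : U} (hx : C.H a a σ x) (m : ℕ) : C.H a a σ (C.w a ^ m * x) := by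
  refine ⟨⟨C.J_left _ _ hx.1.1, e_w_pow C m hx.1.2.1, ?_⟩, fun h => ?_⟩
  · rw [mul_assoc, hx.1.2.2]
  · rw [mul_assoc, hx.2 h, ← mul_assoc, ← mul_assoc, ← pow_add, ← pow_add, Nat.add_comm]

theorem H_wr {σ : ℕ} {x : U} (hx : C.H a a σ x) (m : ℕ) : C.H a a σ (x * C.w a ^ m) := by
  rw [H_pow C hx]
  exact H_wl C hx _

theorem H_p (ha : a ≠ C.o) : C.H a a 0 ((C.p : ℤ) • C.e a) := by
  refine ⟨Base.S_p _ ha, fun _ => ?_⟩
  rw [pow_zero, pow_one, smul_mul_assoc, mul_smul_comm, C.w_left, C.w_right]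

theorem hom_prod {σ : ι → ℕ} {r : ι → U} (hr : C.LHom a σ r) {v : List ι} (hv : v ≠ []) :
    C.H a a (tot σ v) (v.map r).prod := by
  induction v with
  | nil => exact absurd rfl hv
  | cons k v ih =>
    by_cases h : v = []
    · subst h
      have h1 := hr k
      simpa [tot] using h1
    · have h1 := H_mul C (hr k) (ih h)
      simpa [tot] using h1

theorem hom_wv {σ : ι → ℕ} {r : ι → U} (hr : C.LHom a σ r) {v : List ι} (hv : v ≠ []) :
    C.wv r a v = (v.map r).prod :=
  (hom_prod C hr hv).1.2.1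

theorem tot_append (σ : ι → ℕ) (v v' : List ι) : tot σ (v ++ v') = tot σ v + tot σ v' := by
  unfold tot
  rw [List.map_append, List.sum_append]

theorem wt_append [DecidableEq ι] (p : ℕ) (σ : ι → ℕ) (v v' : List ι) (k : ι) :
    wt p σ (v ++ v') k = wt p σ v k + p ^ tot σ v * wt p σ v' k := by
  induction v with
  | nil => simp [wt, tot]
  | cons l v ih =>
    have h1 : wt p σ (l :: v ++ v') k =
        (if l = k then 1 else 0) + p ^ σ l * wt p σ (v ++ v') k := rfl
    have h2 : wt p σ (l :: v) k = (if l = k then 1 else 0) + p ^ σ l * wt p σ v k := rfl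
    have h3 : tot σ (l :: v) = σ l + tot σ v := by simp [tot]
    rw [h1, h2, h3, ih, pow_add]
    ring

theorem wt_scale [DecidableEq ι] {σ : ι → ℕ} {r : ι → U} (hr : C.LHom a σ r) (k : ι) (θ : ℕ) (v : List ι) :
    C.wv (fun i => if i = k then C.w a ^ θ * r i else r i) a v =
      C.w a ^ (θ * wt C.p σ v k) * C.wv r a v := by
  induction v with
  | nil =>
    have h1 : wt C.p σ [] k = 0 := rfl
    rw [h1, mul_zero, pow_zero, one_mul]
    rfl
  | cons l v ih =>
    have h2 : wt C.p σ (l :: v) k = (if l = k then 1 else 0) + C.p ^ σ l * wt C.p σ v k := rfl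
    have h3 : (if l = k then C.w a ^ θ * r l else r l) =
        C.w a ^ (θ * (if l = k then 1 else 0)) * r l := by
      split_ifs
      · rw [mul_one]
      · rw [mul_zero, pow_zero, one_mul]
    have h4 : C.wv (fun i => if i = k then C.w a ^ θ * r i else r i) a (l :: v) =
        C.e a * ((if l = k then C.w a ^ θ * r l else r l) *
          (v.map (fun i => if i = k then C.w a ^ θ * r i else r i)).prod) := by
      unfold Base.wv
      rw [List.map_cons, List.prod_cons]
    have h5 : C.wv r a (l :: v) = C.e a * (r l * (v.map r).prod) := by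
      unfold Base.wv
      rw [List.map_cons, List.prod_cons]
    have h6 : r l * (v.map (fun i => if i = k then C.w a ^ θ * r i else r i)).prod =
        C.w a ^ (C.p ^ σ l * (θ * wt C.p σ v k)) * (r l * (v.map r).prod) := by
      have h7 : C.e a * (v.map (fun i => if i = k then C.w a ^ θ * r i else r i)).prod =
          C.w a ^ (θ * wt C.p σ v k) * (C.e a * (v.map r).prod) := ih
      have h8 : r l * C.e a = r l := (hr l).1.2.2
      calc r l * (v.map (fun i => if i = k then C.w a ^ θ * r i else r i)).prod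
          = r l * (C.e a * (v.map (fun i => if i = k then C.w a ^ θ * r i else r i)).prod) := by
            rw [← mul_assoc, h8]
        _ = r l * C.w a ^ (θ * wt C.p σ v k) * (C.e a * (v.map r).prod) := by
            rw [h7, ← mul_assoc]
        _ = C.w a ^ (C.p ^ σ l * (θ * wt C.p σ v k)) * (r l * C.e a * (v.map r).prod) := by
            rw [H_pow C (hr l), mul_assoc, mul_assoc (r l)]
        _ = _ := by rw [h8]
    have h9 : C.e a * (r l * (v.map r).prod) = r l * (v.map r).prod := by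
      rw [← mul_assoc, (hr l).1.2.1]
    rw [h4, h5, h3, mul_assoc, h6, h9, ← mul_assoc (C.w a ^ (θ * (if l = k then 1 else 0))), ← pow_add,
      e_w_pow C _ h9, h2]
    congr 2
    ring

theorem hom_scale [DecidableEq ι] {σ : ι → ℕ} {r : ι → U} (hr : C.LHom a σ r) (k : ι) (θ : ℕ) :
    C.LHom a σ (fun i => if i = k then C.w a ^ θ * r i else r i) := by
  intro i
  show C.H a a (σ i) (if i = k then C.w a ^ θ * r i else r i)
  split_ifs
  · exact H_wl C (hr i) θ
  · exact hr i

end Ctx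

end ADM
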