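import Pool.Agent.ADM.DefC
import Pool.Agent.ADM.HB

/-!
# ADM-Desc

Reduction to normal forms: the descent terminates because long words and multiples of `p ^ K` vanish.

PLAN.  Claim, for `j ≤ K` and a word `v` with `P v`: there is `c` with the properties of the conclusion and
`(p ^ j : ℤ) • (v.map r).prod = val r a c` for all `r`.  Induction on the triple `(N - v.length, K - j, μ v)` in the lexicographic order
(e.g. nested `Nat.strong_induction`).  If `N ≤ v.length`, the product is 0 (`C.nil`), `c = 0`.  If `j = K`: the product is in `A` and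
`p ^ K • · = 0` (`C.tors`), `c = 0`.  If `G v`: `c = single v (p ^ j)` (`wv r a v = (v.map r).prod`, `hom_wv`, as `v ≠ []`), `Rw` is
reflexive.  Otherwise let `c₁` be given by `h`; for every `v'` in its support: `P v'`, and
* `v.length < v'.length`: induction hypothesis for `(j, v')`, result `c_{v'}`; contributes `c₁ v' • c_{v'}`;
* equal length and `p ∣ c₁ v'`, `c₁ v' = p * z`: induction hypothesis for `(j + 1, v')` (`K - (j + 1) < K - j` as `j < K`); contributes
  `z • c_{v'}`;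
* equal length and `μ v' < μ v`: induction hypothesis for `(j, v')`.
The sum of the contributions over `v' ∈ c₁.support` is the result; `Rw` is transitive.  (`val` is additive, `val_add`, and
commutes with integer multiples; `val r a c₁ = ∑ c₁ v' • (v'.map r).prod` since all the words are nonempty.)
-/

namespace ADM

open AD ADN

namespace Ctx

variable {U : Type} [Ring U] {Q : Type} [Fintype Q] (C : Ctx U Q)
variable {ι : Type} [DecidableEq ι]

theorem Rw_refl (a : Q) (σ : ι → ℕ) (v : List ι) : C.Rw a σ v v :=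
  ⟨fun _ => le_rfl, fun _ h => h, fun _ => Nat.ModEq.refl _, Nat.ModEq.refl _⟩

theorem Rw_trans {a : Q} {σ : ι → ℕ} {v v' v'' : List ι} (h : C.Rw a σ v v') (h' : C.Rw a σ v' v'') :
    C.Rw a σ v v'' :=
  ⟨fun k => (h.1 k).trans (h'.1 k), fun k hk => h.2.1 k (h'.2.1 k hk),
    fun k => (h.2.2.1 k).trans (h'.2.2.1 k), h.2.2.2.trans h'.2.2.2⟩

omit [DecidableEq ι] in
private theorem desc_val_smul (r : ι → U) (a : Q) (z : ℤ) (c : List ι →₀ ℤ) :
    C.val r a (z • c) = z • C.val r a c := by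
  unfold Base.val
  rw [Finsupp.sum_smul_index' (fun v => by rw [zero_smul]), Finsupp.smul_sum]
  refine Finsupp.sum_congr fun v _ => ?_
  rw [smul_eq_mul, mul_smul]

private def Cl (a : Q) (σ : ι → ℕ) (P G : List ι → Prop) (v : List ι) (z : ℤ) (w : List ι) : Prop :=
  ∃ c : List ι →₀ ℤ, (∀ v' ∈ c.support, P v' ∧ G v' ∧ C.Rw a σ v v') ∧
    ∀ r, C.LHom a σ r → z • (w.map r).prod = C.val r a c

private theorem cl_mul {a : Q} {σ : ι → ℕ} {P G : List ι → Prop} {v w : List ι} {z : ℤ}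
    (h : C.Cl a σ P G w z w) (hR : C.Rw a σ v w) (y : ℤ) : C.Cl a σ P G v (y * z) w := by
  obtain ⟨c, h1, h2⟩ := h
  refine ⟨y • c, fun v' hv' => ?_, fun r hr => ?_⟩
  · obtain ⟨a1, a2, a3⟩ := h1 v' (Finsupp.support_smul hv')
    exact ⟨a1, a2, C.Rw_trans hR a3⟩
  · rw [desc_val_smul, ← h2 r hr, mul_smul]

private theorem cl_sum {a : Q} {σ : ι → ℕ} {P G : List ι → Prop} {v : List ι} (c₁ : List ι → ℤ)
    (s : Finset (List ι)) (h : ∀ w ∈ s, C.Cl a σ P G v (c₁ w) w) :
    ∃ c : List ι →₀ ℤ, (∀ v' ∈ c.support, P v' ∧ G v' ∧ C.Rw a σ v v') ∧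
      ∀ r, C.LHom a σ r → ∑ w ∈ s, c₁ w • (w.map r).prod = C.val r a c := by
  classical
  induction s using Finset.induction_on with
  | empty =>
    refine ⟨0, fun v' hv' => ?_, fun r _ => ?_⟩
    · rw [Finsupp.support_zero] at hv'
      exact absurd hv' (Finset.notMem_empty _)
    · rw [Finset.sum_empty]
      exact (C.val_zero r a).symm
  | insert w s hw ih =>
    obtain ⟨c, h1, h2⟩ := ih fun w' hw' => h w' (Finset.mem_insert_of_mem hw')
    obtain ⟨c', h3, h4⟩ := h w (Finset.mem_insert_self _ _)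
    refine ⟨c' + c, fun v' hv' => ?_, fun r hr => ?_⟩
    · rcases Finset.mem_union.1 (Finsupp.support_add hv') with h5 | h5
      · exact h3 v' h5
      · exact h1 v' h5
    · rw [Finset.sum_insert hw, h2 r hr, h4 r hr]
      exact (C.val_add r a c' c).symm

omit [DecidableEq ι] in
private theorem desc_mem {a : Q} {σ : ι → ℕ} {r : ι → U} (hr : C.LHom a σ r) {v : List ι} (hv : v ≠ []) :
    (v.map r).prod ∈ C.A :=
  C.S_mem (C.hom_prod hr hv).1

omit [DecidableEq ι] in
private theorem desc_long {a : Q} {σ : ι → ℕ} {r : ι → U} (hr : C.LHom a σ r) {v : List ι}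
    (hv : C.N ≤ v.length) : (v.map r).prod = 0 := by
  refine C.nil _ (by rw [List.length_map]; exact hv) fun x hx => ?_
  obtain ⟨k, _, rfl⟩ := List.mem_map.1 hx
  exact (hr k).1.1

private theorem desc_step {a : Q} {σ : ι → ℕ} {P G : List ι → Prop} {μ : List ι → ℕ}
    (hP : ∀ v, P v → v ≠ [])
    (h : ∀ v, P v → ¬ G v → ∃ c : List ι →₀ ℤ,
      (∀ v' ∈ c.support, P v' ∧ C.Rw a σ v v' ∧ (v.length < v'.length ∨
        (v.length = v'.length ∧ ((C.p : ℤ) ∣ c v' ∨ μ v' < μ v)))) ∧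
      ∀ r, C.LHom a σ r → (v.map r).prod = C.val r a c)
    (v : List ι) (hv : P v) (j : ℕ) (hN : v.length < C.N) (hj : j < C.K)
    (h1 : ∀ v', P v' → v.length < v'.length → C.Cl a σ P G v' ((C.p : ℤ) ^ j) v')
    (h2 : ∀ v', P v' → v.length = v'.length → C.Cl a σ P G v' ((C.p : ℤ) ^ (j + 1)) v')
    (h3 : ∀ v', P v' → v.length = v'.length → μ v' < μ v → C.Cl a σ P G v' ((C.p : ℤ) ^ j) v') :
    C.Cl a σ P G v ((C.p : ℤ) ^ j) v := by
  classical
  by_cases hG : G v
  · refine ⟨Finsupp.single v ((C.p : ℤ) ^ j), fun v' hv' => ?_, fun r hr => ?_⟩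
    · have e : v' = v := Finset.mem_singleton.1 (Finsupp.support_single_subset hv')
      rw [e]
      exact ⟨hv, hG, C.Rw_refl a σ v⟩
    · rw [C.val_single, C.hom_wv hr (hP v hv)]
  · obtain ⟨c₁, hc1, hc2⟩ := h v hv hG
    have h4 : ∀ w ∈ c₁.support, C.Cl a σ P G v ((C.p : ℤ) ^ j * c₁ w) w := by
      intro w hw
      obtain ⟨a1, a2, a3⟩ := hc1 w hw
      rcases a3 with a3 | ⟨a3, a4 | a4⟩
      · have h5 := C.cl_mul (h1 w a1 a3) a2 (c₁ w)
        rwa [mul_comm] at h5
      · obtain ⟨z, hz⟩ := a4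
        have h5 := C.cl_mul (h2 w a1 a3) a2 z
        have e : (C.p : ℤ) ^ j * c₁ w = z * (C.p : ℤ) ^ (j + 1) := by
          rw [hz, pow_succ]
          ring
        rwa [e]
      · have h5 := C.cl_mul (h3 w a1 a3 a4) a2 (c₁ w)
        rwa [mul_comm] at h5
    obtain ⟨c, hc3, hc4⟩ := C.cl_sum (fun w => (C.p : ℤ) ^ j * c₁ w) c₁.support h4
    refine ⟨c, hc3, fun r hr => ?_⟩
    rw [← hc4 r hr, hc2 r hr]
    unfold Base.val
    rw [Finsupp.smul_sum, Finsupp.sum]
    refine Finset.sum_congr rfl fun w hw => ?_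
    rw [C.hom_wv hr (hP w (hc1 w hw).1), mul_smul]

private theorem desc_all {a : Q} {σ : ι → ℕ} {P G : List ι → Prop} {μ : List ι → ℕ}
    (hP : ∀ v, P v → v ≠ [])
    (h : ∀ v, P v → ¬ G v → ∃ c : List ι →₀ ℤ,
      (∀ v' ∈ c.support, P v' ∧ C.Rw a σ v v' ∧ (v.length < v'.length ∨
        (v.length = v'.length ∧ ((C.p : ℤ) ∣ c v' ∨ μ v' < μ v)))) ∧
      ∀ r, C.LHom a σ r → (v.map r).prod = C.val r a c) :
    ∀ (n1 : ℕ) (n2 : ℕ) (n3 : ℕ) (v : List ι), P v → C.N - v.length = n1 → ∀ j, C.K - j = n2 →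
      μ v = n3 → C.Cl a σ P G v ((C.p : ℤ) ^ j) v := by
  intro n1
  induction n1 using Nat.strong_induction_on with
  | _ n1 ih1 =>
    intro n2
    induction n2 using Nat.strong_induction_on with
    | _ n2 ih2 =>
      intro n3
      induction n3 using Nat.strong_induction_on with
      | _ n3 ih3 =>
        intro v hv e1 j e2 e3
        by_cases hN : v.length < C.N
        · by_cases hj : j < C.K
          · refine C.desc_step hP h v hv j hN hj (fun v' hv' hl => ?_) (fun v' hv' hl => ?_)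
              (fun v' hv' hl hm => ?_)
            · exact ih1 (C.N - v'.length) (by omega) _ _ v' hv' rfl j rfl rfl
            · exact ih2 (C.K - (j + 1)) (by omega) _ v' hv' (by rw [← hl]; exact e1) (j + 1) rfl rfl
            · exact ih3 (μ v') (by omega) v' hv' (by rw [← hl]; exact e1) j e2 rfl
          · refine ⟨0, fun v' hv' => ?_, fun r hr => ?_⟩
            · rw [Finsupp.support_zero] at hv'
              exact absurd hv' (Finset.notMem_empty _)
            · obtain ⟨m, hm⟩ := Nat.exists_eq_add_of_le (not_lt.1 hj)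
              rw [C.val_zero, hm, pow_add, mul_comm, mul_smul, C.tors _ (C.desc_mem hr (hP v hv)),
                smul_zero]
        · refine ⟨0, fun v' hv' => ?_, fun r hr => ?_⟩
          · rw [Finsupp.support_zero] at hv'
            exact absurd hv' (Finset.notMem_empty _)
          · rw [C.val_zero, C.desc_long hr (not_lt.1 hN), smul_zero]

theorem desc {a : Q} (σ : ι → ℕ) (P G : List ι → Prop) (μ : List ι → ℕ)
    (hP : ∀ v, P v → v ≠ [])
    (h : ∀ v, P v → ¬ G v → ∃ c : List ι →₀ ℤ,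
      (∀ v' ∈ c.support, P v' ∧ C.Rw a σ v v' ∧ (v.length < v'.length ∨
        (v.length = v'.length ∧ ((C.p : ℤ) ∣ c v' ∨ μ v' < μ v)))) ∧
      ∀ r, C.LHom a σ r → (v.map r).prod = C.val r a c) :
    ∀ v, P v → ∃ c : List ι →₀ ℤ, (∀ v' ∈ c.support, P v' ∧ G v' ∧ C.Rw a σ v v') ∧
      ∀ r, C.LHom a σ r → (v.map r).prod = C.val r a c := by
  intro v hv
  obtain ⟨c, h1, h2⟩ := C.desc_all hP h _ _ _ v hv rfl 0 rfl rfl
  refine ⟨c, h1, fun r hr => ?_⟩
  rw [← h2 r hr, pow_zero, one_smul]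

/-- the case without normal forms -/
theorem desc0 {a : Q} (σ : ι → ℕ) (P : List ι → Prop) (hP : ∀ v, P v → v ≠ [])
    (h : ∀ v, P v → ∃ c : List ι →₀ ℤ, (∀ v' ∈ c.support, P v') ∧ C.Deep a σ v c ∧
      ∀ r, C.LHom a σ r → (v.map r).prod = C.val r a c) :
    ∀ v, P v → ∀ r, C.LHom a σ r → (v.map r).prod = 0 := by
  intro v hv r hr
  obtain ⟨c, h1, h2⟩ := C.desc σ P (fun _ => False) (fun _ => 0) hP (fun w hw _ => by
    obtain ⟨c, a1, a2, a3⟩ := h w hw
    refine ⟨c, fun v' hv' => ⟨a1 v' hv', (a2 v' hv').1, ?_⟩, a3⟩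
    rcases (a2 v' hv').2 with a4 | ⟨a4, a5⟩
    · exact Or.inl a4
    · exact Or.inr ⟨a4, Or.inl a5⟩) v hv
  have h3 : c = 0 := by
    rw [← Finsupp.support_eq_empty]
    exact Finset.eq_empty_of_forall_notMem fun v' hv' => (h1 v' hv').2.1
  rw [h2 r hr, h3, C.val_zero]

end Ctx

end ADM
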