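import Pool.Agent.ADM.DefC
import Pool.Agent.ADM.HB

/-!
# ADM-Dft

Discrete Fourier transform over the powers of `w a`.

PLAN.  `n = n a > 0` is coprime to `p`; `m : ℤ` with `(m * n) • x = x` for all `x ∈ A` (`inv_mod`, Basic.lean).
* gs: `g = ∑ θ < n, e * w ^ (θ k)`; `(w ^ k - e) * g = w ^ (n k) * e - e = 0` (telescoping, `k ≥ 1`); `C.unit a k` gives
  `u * (w ^ k - e) = e` (`n = ord p (r a)`), so `g = e * g = u * (w ^ k - e) * g = 0`.
* dftL: `∑ θ < n, w ^ ((n - 1) * m₀ * θ) * (∑ t ∈ s, w ^ (θ * m t) * y t) ∈ X`, and it is `∑ t ∈ s, (∑ θ < n, e * w ^ (θ * (m t + (n - 1) * m₀))) * y t`.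
  The inner sum acts on `y t` as `n` if `n ∣ m t + (n - 1) m₀`, i.e. `m t ≡ m₀` (all powers act as `e`), and as 0 otherwise (gs).  So
  `n • ∑_{m t ≡ m₀} y t ∈ X`; multiply by the integer `m` above (`y t ∈ A`).
* dftR is the mirror image.
* dft_rec: if all the partial sums vanish, so does the sum: `w ^ (m t) * y t` depends only on `m t` modulo `n` (`w_pow_left`); sum over the
  residue classes `m₀ < n` (`Finset.sum_fiberwise`).
-/

namespace ADM

open AD ADN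

namespace Ctx

variable {U : Type} [Ring U] {Q : Type} [Fintype Q] (C : Ctx U Q)

private theorem ee (a : Q) : C.e a * C.e a = C.e a :=
  (C.coi.toOrthogonalIdempotents.idem a).eq

private theorem e_comm (a : Q) (m : ℕ) : C.e a * C.w a ^ m = C.w a ^ m * C.e a := by
  have h : Commute (C.e a) (C.w a) := by
    show C.e a * C.w a = C.w a * C.e a
    rw [C.w_left, C.w_right]
  exact (h.pow_right m).eq

private theorem e_pow (a : Q) {k : ℕ} (hk : k ≠ 0) : C.e a ^ k = C.e a := by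
  obtain ⟨j, rfl⟩ := Nat.exists_eq_succ_of_ne_zero hk
  clear hk
  induction j with
  | zero => rw [pow_one]
  | succ j ih => rw [pow_succ, ih, ee]

private theorem w_n (a : Q) : C.w a ^ C.n a = C.e a := C.w_pow a

private theorem mod_iff (a : Q) (m m₀ : ℕ) : C.n a ∣ (C.n a - 1) * m₀ + m ↔ m ≡ m₀ [MOD C.n a] := by
  have hn := C.n_pos a
  have e1 : (C.n a - 1) * m₀ + m₀ = C.n a * m₀ := by
    obtain ⟨j, hj⟩ := Nat.exists_eq_succ_of_ne_zero hn.ne'
    rw [hj, Nat.succ_sub_one, Nat.succ_mul]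
  constructor
  · intro h
    have h1 : (C.n a - 1) * m₀ + m ≡ (C.n a - 1) * m₀ + m₀ [MOD C.n a] := by
      rw [e1]
      exact ((Nat.modEq_zero_iff_dvd.2 h)).trans (Nat.modEq_zero_iff_dvd.2 (Dvd.intro _ rfl)).symm
    exact Nat.ModEq.add_left_cancel' _ h1
  · intro h
    have h1 : (C.n a - 1) * m₀ + m ≡ (C.n a - 1) * m₀ + m₀ [MOD C.n a] := Nat.ModEq.add_left _ h
    rw [e1] at h1
    exact Nat.modEq_zero_iff_dvd.1 (h1.trans (Nat.modEq_zero_iff_dvd.2 (Dvd.intro _ rfl)))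

private theorem n_ndvd (a : Q) : ¬ (C.p : ℤ) ∣ (C.n a : ℤ) := by
  intro h
  have h1 : C.p ∣ C.n a := Int.natCast_dvd_natCast.1 h
  have h2 := Nat.dvd_gcd h1 (dvd_refl C.p)
  rw [(C.n_coprime a).gcd_eq_one] at h2
  exact C.hp.one_lt.ne' (Nat.dvd_one.1 h2)

theorem gs (a : Q) {k : ℕ} (hk : ¬ C.n a ∣ k) :
    ∑ θ ∈ Finset.range (C.n a), C.e a * C.w a ^ (θ * k) = 0 := by
  obtain ⟨u, hu⟩ := C.unit a k hk
  have hk0 : k ≠ 0 := by
    rintro rfl
    exact hk (dvd_zero _)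
  have h1 : (C.w a ^ k - C.e a) * ∑ θ ∈ Finset.range (C.n a), C.e a * C.w a ^ (θ * k) = 0 := by
    rw [Finset.mul_sum]
    have h2 : ∀ θ ∈ Finset.range (C.n a), (C.w a ^ k - C.e a) * (C.e a * C.w a ^ (θ * k)) =
        C.e a * C.w a ^ ((θ + 1) * k) - C.e a * C.w a ^ (θ * k) := by
      intro θ _
      rw [sub_mul, ← mul_assoc, ← C.e_comm, mul_assoc, ← pow_add, ← mul_assoc, C.ee, add_mul, one_mul,
        add_comm k]
    rw [Finset.sum_congr rfl h2, Finset.sum_range_sub (fun θ => C.e a * C.w a ^ (θ * k)), zero_mul,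
      pow_zero, mul_one, pow_mul, C.w_n, C.e_pow a hk0, C.ee, sub_self]
  have h3 : C.e a * ∑ θ ∈ Finset.range (C.n a), C.e a * C.w a ^ (θ * k) =
      ∑ θ ∈ Finset.range (C.n a), C.e a * C.w a ^ (θ * k) := by
    rw [Finset.mul_sum]
    exact Finset.sum_congr rfl fun θ _ => by rw [← mul_assoc, C.ee]
  rw [← h3]
  calc C.e a * ∑ θ ∈ Finset.range (C.n a), C.e a * C.w a ^ (θ * k)
      = u * (C.w a ^ k - C.e a) * ∑ θ ∈ Finset.range (C.n a), C.e a * C.w a ^ (θ * k) := by rw [hu]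
    _ = 0 := by rw [mul_assoc, h1, mul_zero]

private theorem final (a : Q) {X : AddSubgroup U} {x : U} (hx : x ∈ C.A)
    (h : (C.n a : ℤ) • x ∈ X) : x ∈ X := by
  obtain ⟨m, hm⟩ := C.inv_mod (C.n_ndvd a)
  rw [← hm x hx, mul_smul]
  exact X.zsmul_mem h m

theorem dftL (a : Q) {τ : Type} (s : Finset τ) (m : τ → ℕ) (y : τ → U)
    (hy : ∀ t ∈ s, y t ∈ C.A ∧ C.e a * y t = y t) (X : AddSubgroup U)
    (hX : ∀ u x, x ∈ X → u * x ∈ X) (h : ∀ θ : ℕ, ∑ t ∈ s, C.w a ^ (θ * m t) * y t ∈ X) (m₀ : ℕ) :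
    ∑ t ∈ s with m t ≡ m₀ [MOD C.n a], y t ∈ X := by
  classical
  refine C.final a (sum_mem fun t ht => (hy t (Finset.mem_filter.1 ht).1).1) ?_
  have hS : ∑ θ ∈ Finset.range (C.n a), C.w a ^ (θ * ((C.n a - 1) * m₀)) *
      ∑ t ∈ s, C.w a ^ (θ * m t) * y t ∈ X := sum_mem fun θ _ => hX _ _ (h θ)
  have key : ∑ θ ∈ Finset.range (C.n a), C.w a ^ (θ * ((C.n a - 1) * m₀)) *
      ∑ t ∈ s, C.w a ^ (θ * m t) * y t = (C.n a : ℤ) • ∑ t ∈ s with m t ≡ m₀ [MOD C.n a], y t := by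
    simp_rw [Finset.mul_sum]
    rw [Finset.sum_comm, Finset.smul_sum, Finset.sum_filter]
    refine Finset.sum_congr rfl fun t ht => ?_
    have h1 : ∀ θ, C.w a ^ (θ * ((C.n a - 1) * m₀)) * (C.w a ^ (θ * m t) * y t) =
        C.w a ^ (θ * ((C.n a - 1) * m₀ + m t)) * y t := by
      intro θ
      rw [← mul_assoc, ← pow_add, mul_add]
    simp_rw [h1]
    by_cases hm : m t ≡ m₀ [MOD C.n a]
    · rw [if_pos hm]
      have h2 : ∀ θ ∈ Finset.range (C.n a), C.w a ^ (θ * ((C.n a - 1) * m₀ + m t)) * y t = y t := by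
        intro θ _
        have h3 : θ * ((C.n a - 1) * m₀ + m t) ≡ 0 [MOD C.n a] :=
          Nat.modEq_zero_iff_dvd.2 (Dvd.dvd.mul_left ((C.mod_iff a _ _).2 hm) θ)
        rw [C.w_pow_left h3 (hy t ht).2, pow_zero, one_mul]
      rw [Finset.sum_congr rfl h2, Finset.sum_const, Finset.card_range, natCast_zsmul]
    · rw [if_neg hm]
      have h2 : ∀ θ ∈ Finset.range (C.n a), C.w a ^ (θ * ((C.n a - 1) * m₀ + m t)) * y t =
          C.e a * C.w a ^ (θ * ((C.n a - 1) * m₀ + m t)) * y t := by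
        intro θ _
        rw [C.e_comm, mul_assoc, (hy t ht).2]
      rw [Finset.sum_congr rfl h2, ← Finset.sum_mul, C.gs a (fun h => hm ((C.mod_iff a _ _).1 h)), zero_mul]
  rw [← key]
  exact hS

theorem dftR (a : Q) {τ : Type} (s : Finset τ) (m : τ → ℕ) (y : τ → U)
    (hy : ∀ t ∈ s, y t ∈ C.A ∧ y t * C.e a = y t) (X : AddSubgroup U)
    (hX : ∀ u x, x ∈ X → x * u ∈ X) (h : ∀ θ : ℕ, ∑ t ∈ s, y t * C.w a ^ (θ * m t) ∈ X) (m₀ : ℕ) :
    ∑ t ∈ s with m t ≡ m₀ [MOD C.n a], y t ∈ X := by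
  classical
  refine C.final a (sum_mem fun t ht => (hy t (Finset.mem_filter.1 ht).1).1) ?_
  have hS : ∑ θ ∈ Finset.range (C.n a), (∑ t ∈ s, y t * C.w a ^ (θ * m t)) *
      C.w a ^ (θ * ((C.n a - 1) * m₀)) ∈ X := sum_mem fun θ _ => hX _ _ (h θ)
  have key : ∑ θ ∈ Finset.range (C.n a), (∑ t ∈ s, y t * C.w a ^ (θ * m t)) *
      C.w a ^ (θ * ((C.n a - 1) * m₀)) = (C.n a : ℤ) • ∑ t ∈ s with m t ≡ m₀ [MOD C.n a], y t := by
    simp_rw [Finset.sum_mul]
    rw [Finset.sum_comm, Finset.smul_sum, Finset.sum_filter]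
    refine Finset.sum_congr rfl fun t ht => ?_
    have h1 : ∀ θ, y t * C.w a ^ (θ * m t) * C.w a ^ (θ * ((C.n a - 1) * m₀)) =
        y t * C.w a ^ (θ * ((C.n a - 1) * m₀ + m t)) := by
      intro θ
      rw [mul_assoc, ← pow_add, ← mul_add, add_comm (m t)]
    simp_rw [h1]
    by_cases hm : m t ≡ m₀ [MOD C.n a]
    · rw [if_pos hm]
      have h2 : ∀ θ ∈ Finset.range (C.n a), y t * C.w a ^ (θ * ((C.n a - 1) * m₀ + m t)) = y t := by
        intro θ _
        have h3 : θ * ((C.n a - 1) * m₀ + m t) ≡ 0 [MOD C.n a] :=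
          Nat.modEq_zero_iff_dvd.2 (Dvd.dvd.mul_left ((C.mod_iff a _ _).2 hm) θ)
        rw [C.w_pow_right h3 (hy t ht).2, pow_zero, mul_one]
      rw [Finset.sum_congr rfl h2, Finset.sum_const, Finset.card_range, natCast_zsmul]
    · rw [if_neg hm]
      have h2 : ∀ θ ∈ Finset.range (C.n a), y t * C.w a ^ (θ * ((C.n a - 1) * m₀ + m t)) =
          y t * (C.e a * C.w a ^ (θ * ((C.n a - 1) * m₀ + m t))) := by
        intro θ _
        rw [← mul_assoc, (hy t ht).2]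
      rw [Finset.sum_congr rfl h2, ← Finset.mul_sum, C.gs a (fun h => hm ((C.mod_iff a _ _).1 h)), mul_zero]
  rw [← key]
  exact hS

theorem dft_rec (a : Q) {τ : Type} (s : Finset τ) (m : τ → ℕ) (y : τ → U)
    (hy : ∀ t ∈ s, C.e a * y t = y t)
    (h : ∀ m₀, ∑ t ∈ s with m t ≡ m₀ [MOD C.n a], y t = 0) : ∑ t ∈ s, C.w a ^ m t * y t = 0 := by
  classical
  have hn := C.n_pos a
  rw [← Finset.sum_fiberwise_of_maps_to (t := Finset.range (C.n a)) (g := fun t => m t % C.n a)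
    (fun t _ => Finset.mem_range.2 (Nat.mod_lt _ hn))]
  refine Finset.sum_eq_zero fun m₀ hm₀ => ?_
  rw [Finset.mem_range] at hm₀
  have h1 : ∑ t ∈ s with m t % C.n a = m₀, C.w a ^ m t * y t =
      ∑ t ∈ s with m t % C.n a = m₀, C.w a ^ m₀ * y t := by
    refine Finset.sum_congr rfl fun t ht => ?_
    rw [Finset.mem_filter] at ht
    refine C.w_pow_left ?_ (hy t ht.1)
    show m t % C.n a = m₀ % C.n a
    rw [ht.2, Nat.mod_eq_of_lt hm₀]
  rw [h1, ← Finset.mul_sum]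
  have h2 : (s.filter fun t => m t % C.n a = m₀) = s.filter fun t => m t ≡ m₀ [MOD C.n a] := by
    refine Finset.filter_congr fun t _ => ?_
    show m t % C.n a = m₀ ↔ m t % C.n a = m₀ % C.n a
    rw [Nat.mod_eq_of_lt hm₀]
  rw [h2, h, mul_zero]

theorem dft_recR (a : Q) {τ : Type} (s : Finset τ) (m : τ → ℕ) (y : τ → U)
    (hy : ∀ t ∈ s, y t * C.e a = y t)
    (h : ∀ m₀, ∑ t ∈ s with m t ≡ m₀ [MOD C.n a], y t = 0) : ∑ t ∈ s, y t * C.w a ^ m t = 0 := by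
  classical
  have hn := C.n_pos a
  rw [← Finset.sum_fiberwise_of_maps_to (t := Finset.range (C.n a)) (g := fun t => m t % C.n a)
    (fun t _ => Finset.mem_range.2 (Nat.mod_lt _ hn))]
  refine Finset.sum_eq_zero fun m₀ hm₀ => ?_
  rw [Finset.mem_range] at hm₀
  have h1 : ∑ t ∈ s with m t % C.n a = m₀, y t * C.w a ^ m t =
      ∑ t ∈ s with m t % C.n a = m₀, y t * C.w a ^ m₀ := by
    refine Finset.sum_congr rfl fun t ht => ?_
    rw [Finset.mem_filter] at ht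
    refine C.w_pow_right ?_ (hy t ht.1)
    show m t % C.n a = m₀ % C.n a
    rw [ht.2, Nat.mod_eq_of_lt hm₀]
  rw [h1, ← Finset.sum_mul]
  have h2 : (s.filter fun t => m t % C.n a = m₀) = s.filter fun t => m t ≡ m₀ [MOD C.n a] := by
    refine Finset.filter_congr fun t _ => ?_
    show m t % C.n a = m₀ ↔ m t % C.n a = m₀ % C.n a
    rw [Nat.mod_eq_of_lt hm₀]
  rw [h2, h, zero_mul]

end Ctx

end ADM
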