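import Pool.Agent.ADM.DefC
import Pool.Agent.ADM.HB

/-!
# ADM-Ntw

The number of twisted letters of a word.

PLAN.  `ntw a σ v = (v.filter (twisted)).length` (Defs; `classical` inside).  ntw_mono: `Rw` says `count k v ≤ count k v'` for all `k`, so
`v` is a subpermutation of `v'` (`List.subperm_ext_iff`), and `List.Subperm.filter`, `List.Subperm.length_le`.
tot_untw: the sum of multiples of `r a`.  splitM: write `s i = tot σ (v.take i)`, `m = v.length ≥ 4`.  If for all `0 < i < j < m` the
splitting `v = take i ++ (drop i (take j)) ++ drop j` had `r ∣ s j` and `r ∣ s m - s i` (these are the two divisibilities), then `r ∣ s j` for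
`2 ≤ j < m`, `s i ≡ s m` for `1 ≤ i ≤ m - 2`; `i = 2` (as `m ≥ 4`) gives `r ∣ s m`, `i = 1` gives `r ∣ s 1`; so `r ∣ s i` for all `i`, and every
letter has `r ∣ σ k = s (i + 1) - s i`, contradiction to the existence of a twisted letter.
-/

namespace ADM

open AD ADN

namespace Ctx

variable {U : Type} [Ring U] {Q : Type} [Fintype Q] (C : Ctx U Q)
variable {ι : Type} [DecidableEq ι] {a : Q} {σ : ι → ℕ}

theorem ntw_append (v v' : List ι) : C.ntw a σ (v ++ v') = C.ntw a σ v + C.ntw a σ v' := by
  unfold ntw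
  rw [List.filter_append, List.length_append]

theorem ntw_nil : C.ntw a σ [] = 0 := rfl

theorem ntw_cons_tw {k : ι} (v : List ι) (hk : C.Tw a (σ k)) : C.ntw a σ (k :: v) = C.ntw a σ v + 1 := by
  classical
  unfold ntw
  rw [List.filter_cons_of_pos (by simpa using hk), List.length_cons]

theorem ntw_cons_untw {k : ι} (v : List ι) (hk : ¬ C.Tw a (σ k)) : C.ntw a σ (k :: v) = C.ntw a σ v := by
  classical
  unfold ntw
  rw [List.filter_cons_of_neg (by simpa using hk)]

theorem ntw_eq_zero {v : List ι} : C.ntw a σ v = 0 ↔ ∀ k ∈ v, ¬ C.Tw a (σ k) := by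
  classical
  unfold ntw
  rw [List.length_eq_zero_iff, List.filter_eq_nil_iff]
  simp only [decide_eq_true_eq]

theorem ntw_pos {v : List ι} : 0 < C.ntw a σ v ↔ ∃ k ∈ v, C.Tw a (σ k) := by
  rw [Nat.pos_iff_ne_zero, Ne, ntw_eq_zero]
  push Not
  rfl

theorem ntw_mono {v v' : List ι} (h : C.Rw a σ v v') : C.ntw a σ v ≤ C.ntw a σ v' := by
  have h1 : v.Subperm v' := List.subperm_ext_iff.2 fun k _ => h.1 k
  unfold ntw
  exact (h1.filter _).length_le

/-- first twisted letter -/
theorem ntw_first {v : List ι} (h : 0 < C.ntw a σ v) :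
    ∃ u x u', v = u ++ x :: u' ∧ (∀ k ∈ u, ¬ C.Tw a (σ k)) ∧ C.Tw a (σ x) := by
  induction v with
  | nil =>
    rw [ntw_nil] at h
    exact absurd h (lt_irrefl 0)
  | cons k v ih =>
    by_cases hk : C.Tw a (σ k)
    · exact ⟨[], k, v, rfl, fun _ h => absurd h List.not_mem_nil, hk⟩
    · rw [ntw_cons_untw C v hk] at h
      obtain ⟨u, x, u', rfl, h2, h3⟩ := ih h
      refine ⟨k :: u, x, u', rfl, ?_, h3⟩
      intro l hl
      rcases List.mem_cons.1 hl with rfl | hl
      · exact hk
      · exact h2 l hl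

/-- last twisted letter -/
theorem ntw_last {v : List ι} (h : 0 < C.ntw a σ v) :
    ∃ u x u', v = u ++ x :: u' ∧ (∀ k ∈ u', ¬ C.Tw a (σ k)) ∧ C.Tw a (σ x) := by
  induction v with
  | nil =>
    rw [ntw_nil] at h
    exact absurd h (lt_irrefl 0)
  | cons k v ih =>
    by_cases hv : 0 < C.ntw a σ v
    · obtain ⟨u, x, u', rfl, h2, h3⟩ := ih hv
      exact ⟨k :: u, x, u', rfl, h2, h3⟩
    · have h0 : C.ntw a σ v = 0 := by omega
      by_cases hk : C.Tw a (σ k)
      · exact ⟨[], k, v, rfl, (ntw_eq_zero C).1 h0, hk⟩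
      · rw [ntw_cons_untw C v hk] at h
        exact absurd h hv

theorem tot_untw {v : List ι} (h : ∀ k ∈ v, ¬ C.Tw a (σ k)) : C.r a ∣ tot σ v := by
  unfold tot
  refine List.dvd_sum fun x hx => ?_
  obtain ⟨k, hk, rfl⟩ := List.mem_map.1 hx
  exact not_not.1 (h k hk)

theorem splitM {v : List ι} (hv : 4 ≤ v.length) (h : ∃ k ∈ v, C.Tw a (σ k)) :
    ∃ X₀ X₁ X₂ : List ι, v = X₀ ++ X₁ ++ X₂ ∧ X₀ ≠ [] ∧ X₁ ≠ [] ∧ X₂ ≠ [] ∧
      ¬ (C.r a ∣ tot σ X₀ + tot σ X₁ ∧ C.r a ∣ tot σ X₁ + tot σ X₂) := by
  by_contra hcon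
  push Not at hcon
  have key : ∀ i j, 0 < i → i < j → j < v.length →
      C.r a ∣ tot σ (v.take j) ∧ C.r a ∣ tot σ (v.drop i) := by
    intro i j hi hij hj
    have e0 : v.take j = v.take i ++ (v.take j).drop i := by
      have h1 := List.take_append_drop i (v.take j)
      rw [List.take_take, min_eq_left hij.le] at h1
      exact h1.symm
    have e1 : v = v.take i ++ (v.take j).drop i ++ v.drop j := by
      rw [← e0, List.take_append_drop]
    have e2 : v.drop i = (v.take j).drop i ++ v.drop j := by
      have h1 : v.take i ++ v.drop i = v.take i ++ ((v.take j).drop i ++ v.drop j) := by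
        rw [List.take_append_drop, ← List.append_assoc]
        exact e1
      exact List.append_cancel_left h1
    have n0 : v.take i ≠ [] := by
      intro h1
      have h2 := congrArg List.length h1
      rw [List.length_take, List.length_nil] at h2
      omega
    have n1 : (v.take j).drop i ≠ [] := by
      intro h1
      have h2 := congrArg List.length h1
      rw [List.length_drop, List.length_take, List.length_nil] at h2
      omega
    have n2 : v.drop j ≠ [] := by
      intro h1
      have h2 := congrArg List.length h1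
      rw [List.length_drop, List.length_nil] at h2
      omega
    have h3 := hcon _ _ _ e1 n0 n1 n2
    rw [← tot_append, ← tot_append, ← e0, ← e2] at h3
    exact h3
  have hT : ∀ i, tot σ v = tot σ (v.take i) + tot σ (v.drop i) := by
    intro i
    rw [← tot_append, List.take_append_drop]
  have k12 := key 1 2 (by omega) (by omega) (by omega)
  have k23 := key 2 3 (by omega) (by omega) (by omega)
  have hTd : C.r a ∣ tot σ v := by
    rw [hT 2]
    exact dvd_add k12.1 k23.2
  have h1d : C.r a ∣ tot σ (v.take 1) := by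
    rw [hT 1] at hTd
    exact (Nat.dvd_add_left k12.2).1 hTd
  have hall : ∀ i, i ≤ v.length → C.r a ∣ tot σ (v.take i) := by
    intro i hi
    rcases Nat.lt_or_ge i 2 with h2 | h2
    · interval_cases i
      · rw [List.take_zero]
        exact dvd_zero _
      · exact h1d
    · rcases Nat.lt_or_ge i v.length with h3 | h3
      · exact (key 1 i (by omega) (by omega) h3).1
      · rw [List.take_of_length_le h3]
        exact hTd
  obtain ⟨k, hk, hkt⟩ := h
  obtain ⟨i, hi, rfl⟩ := List.mem_iff_getElem.1 hk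
  apply hkt
  have h1 := hall (i + 1) hi
  have h2 := hall i (by omega)
  rw [List.take_succ_eq_append_getElem hi, tot_append] at h1
  have h3 := (Nat.dvd_add_right h2).1 h1
  have h4 : tot σ [v[i]] = σ v[i] := by simp [tot]
  rwa [h4] at h3

end Ctx

end ADM
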