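import Pool.Agent.ADM.Dft
import Pool.Agent.ADM.Arith
import Pool.Agent.ADM.Ntw

/-!
# ADM-E2van

Two or more loops, one of them twisted, in front of an edge: the cubic relation between two blocks of loops and the edge, separated by
the weights of the two blocks (`dftL`), then induction on the length of the word.
-/

namespace ADM

open AD ADN ADN.Ctx

namespace Ctx

variable {U : Type} [Ring U] {Q : Type} [Fintype Q] (C : Ctx U Q)

variable {ι : Type}

/-- the relation between words in two loops and an edge -/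
private def e2Good (G : List (Fin 3) →₀ ℤ) (a b : Q) (s s' : ℕ) (T : Finset (List (Fin 3))) : Prop :=
  ∀ X Y t : U, C.H a a s X → C.H a a s' Y → C.S a b t →
    ∑ w ∈ T, G w • (C.wv (![X, Y, 0] : Fin 3 → U) a w.dropLast * t) = 0

private theorem e2_hom {a : Q} {s s' : ℕ} {X Y : U} (hX : C.H a a s X) (hY : C.H a a s' Y) :
    C.LHom a (![s, s', 0] : Fin 3 → ℕ) (![X, Y, 0] : Fin 3 → U) := by
  intro k
  fin_cases k
  · exact hX
  · exact hY
  · exact C.H_zero 0

private theorem e2_idem (a : Q) : C.e a * C.e a = C.e a :=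
  (C.coi.toOrthogonalIdempotents.idem a).eq

private theorem e2_y {a b : Q} (c : ℤ) (r : Fin 3 → U) (u : List (Fin 3)) {t : U} (ht : C.S a b t) :
    c • (C.wv r a u * t) ∈ C.A ∧ C.e a * (c • (C.wv r a u * t)) = c • (C.wv r a u * t) := by
  constructor
  · exact C.A.zsmul_mem (C.J_le (C.J_left _ _ ht.1)) c
  · rw [mul_smul_comm]
    unfold Base.wv
    rw [← mul_assoc, ← mul_assoc, C.e2_idem]

private theorem e2_scale0 {a b : Q} {s s' : ℕ} {G : List (Fin 3) →₀ ℤ} {T : Finset (List (Fin 3))}
    (h : C.e2Good G a b s s' T) (m₀ : ℕ) :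
    C.e2Good G a b s s' (T.filter fun w => wt C.p (![s, s', 0] : Fin 3 → ℕ) w.dropLast 0 ≡ m₀ [MOD C.n a]) := by
  intro X Y t hX hY ht
  have h1 := C.dftL a T (fun w => wt C.p (![s, s', 0] : Fin 3 → ℕ) w.dropLast 0)
    (fun w => G w • (C.wv (![X, Y, 0] : Fin 3 → U) a w.dropLast * t))
    (fun w _ => C.e2_y (G w) _ _ ht) ⊥ (fun u x hx => by
      rw [AddSubgroup.mem_bot] at hx ⊢
      rw [hx, mul_zero]) (fun θ => by
      rw [AddSubgroup.mem_bot]
      refine Eq.trans ?_ (h (C.w a ^ θ * X) Y t (C.H_wl hX θ) hY ht)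
      refine Finset.sum_congr rfl fun w _ => ?_
      rw [mul_smul_comm, ← mul_assoc]
      congr 2
      have h2 : (![C.w a ^ θ * X, Y, 0] : Fin 3 → U) =
          fun i => if i = 0 then C.w a ^ θ * (![X, Y, 0] : Fin 3 → U) i else (![X, Y, 0] : Fin 3 → U) i := by
        funext i
        fin_cases i <;> simp
      rw [h2, C.wt_scale (C.e2_hom hX hY) 0 θ]) m₀
  exact AddSubgroup.mem_bot.1 h1

private theorem e2_scale1 {a b : Q} {s s' : ℕ} {G : List (Fin 3) →₀ ℤ} {T : Finset (List (Fin 3))}
    (h : C.e2Good G a b s s' T) (m₀ : ℕ) :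
    C.e2Good G a b s s' (T.filter fun w => wt C.p (![s, s', 0] : Fin 3 → ℕ) w.dropLast 1 ≡ m₀ [MOD C.n a]) := by
  intro X Y t hX hY ht
  have h1 := C.dftL a T (fun w => wt C.p (![s, s', 0] : Fin 3 → ℕ) w.dropLast 1)
    (fun w => G w • (C.wv (![X, Y, 0] : Fin 3 → U) a w.dropLast * t))
    (fun w _ => C.e2_y (G w) _ _ ht) ⊥ (fun u x hx => by
      rw [AddSubgroup.mem_bot] at hx ⊢
      rw [hx, mul_zero]) (fun θ => by
      rw [AddSubgroup.mem_bot]
      refine Eq.trans ?_ (h X (C.w a ^ θ * Y) t hX (C.H_wl hY θ) ht)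
      refine Finset.sum_congr rfl fun w _ => ?_
      rw [mul_smul_comm, ← mul_assoc]
      congr 2
      have h2 : (![X, C.w a ^ θ * Y, 0] : Fin 3 → U) =
          fun i => if i = 1 then C.w a ^ θ * (![X, Y, 0] : Fin 3 → U) i else (![X, Y, 0] : Fin 3 → U) i := by
        funext i
        fin_cases i <;> simp
      rw [h2, C.wt_scale (C.e2_hom hX hY) 1 θ]) m₀
  exact AddSubgroup.mem_bot.1 h1

/-- a word with a letter 2 has its first 2 at the end, or another letter after it -/
private theorem e2_first : ∀ w : List (Fin 3), (2 : Fin 3) ∈ w → ∃ u u', w = u ++ 2 :: u' ∧ (2 : Fin 3) ∉ u := by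
  intro w
  induction w with
  | nil => intro h; exact absurd h (by simp)
  | cons k w ih =>
    intro h
    by_cases hk : k = 2
    · exact ⟨[], w, by simp [hk], by simp⟩
    · have h1 : (2 : Fin 3) ∈ w := by
        rcases List.mem_cons.1 h with h2 | h2
        · exact absurd h2.symm hk
        · exact h2
      obtain ⟨u, u', h2, h3⟩ := ih h1
      refine ⟨k :: u, u', by rw [h2]; rfl, ?_⟩
      intro h4
      rcases List.mem_cons.1 h4 with h5 | h5
      · exact hk h5.symm
      · exact h3 h5

private theorem e2_map2 {X Y t t' : U} {u : List (Fin 3)} (hu : (2 : Fin 3) ∉ u) :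
    u.map (![X, Y, t] : Fin 3 → U) = u.map (![X, Y, t'] : Fin 3 → U) := by
  apply List.map_congr_left
  intro k hk
  fin_cases k
  · rfl
  · rfl
  · exact absurd hk hu

open Classical in
private theorem e2_base {a b : Q} (hab : a ≠ b) (s s' : ℕ) {G : List (Fin 3) →₀ ℤ}
    (hG1 : ∀ w ∈ G.support, ∀ i, i ∈ w)
    (hG2 : ∀ a : Fin 3 → U, (∀ i, a i ∈ C.A) → (G.sum fun w c => c • w3 a w) = 0) :
    C.e2Good G a b s s' (G.support.filter fun w => ∃ u, w = u ++ [2] ∧ (2 : Fin 3) ∉ u) := by
  intro X Y t hX hY ht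
  have hA : ∀ i, (![X, Y, t] : Fin 3 → U) i ∈ C.A := by
    intro i
    fin_cases i
    · exact C.J_le hX.1.1
    · exact C.J_le hY.1.1
    · exact C.J_le ht.1
  have h1 := hG2 _ hA
  have h2 : C.e a * (G.sum fun w c => c • w3 (![X, Y, t] : Fin 3 → U) w) = 0 := by rw [h1, mul_zero]
  unfold Finsupp.sum at h2
  rw [Finset.mul_sum] at h2
  refine Eq.trans ?_ h2
  rw [Finset.sum_filter]
  refine Finset.sum_congr rfl fun w hw => ?_
  have hsrc : ∀ k : Fin 3, C.e a * (![X, Y, t] : Fin 3 → U) k = (![X, Y, t] : Fin 3 → U) k := by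
    intro k
    fin_cases k
    · exact hX.1.2.1
    · exact hY.1.2.1
    · exact ht.2.1
  have hzero : t * C.e a = 0 := Base.S_ne_right C.toBase ht (Ne.symm hab)
  split_ifs with hform
  · obtain ⟨u, rfl, hu⟩ := hform
    rw [List.dropLast_concat, mul_smul_comm]
    congr 1
    unfold w3 Base.wv
    rw [List.map_append, List.prod_append, List.map_singleton, List.prod_singleton,
      e2_map2 (t := t) (t' := 0) hu, mul_assoc]
    rfl
  · obtain ⟨u, u', rfl, hu⟩ := e2_first w (hG1 w hw 2)
    cases u' with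
    | nil => exact absurd ⟨u, rfl, hu⟩ hform
    | cons k u' =>
      rw [mul_smul_comm]
      have h3 : w3 (![X, Y, t] : Fin 3 → U) (u ++ 2 :: k :: u') = 0 := by
        unfold w3
        rw [List.map_append, List.prod_append, List.map_cons, List.map_cons, List.prod_cons, List.prod_cons]
        have h4 : (![X, Y, t] : Fin 3 → U) 2 = t := rfl
        have h5 : t * ((![X, Y, t] : Fin 3 → U) k * (u'.map (![X, Y, t] : Fin 3 → U)).prod) = 0 := by
          rw [← hsrc k, ← mul_assoc, ← mul_assoc, hzero, zero_mul, zero_mul]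
        rw [h4, h5, mul_zero]
      rw [h3, mul_zero, smul_zero]

private theorem e2_flat {X Y : List ι} {r : ι → U} : ∀ u : List (Fin 3), (2 : Fin 3) ∉ u →
    (u.map (![(X.map r).prod, (Y.map r).prod, 0] : Fin 3 → U)).prod =
      ((u.flatMap (![X, Y, []] : Fin 3 → List ι)).map r).prod := by
  intro u
  induction u with
  | nil => intro _; simp
  | cons k u ih =>
    intro hu
    have hu1 : (2 : Fin 3) ∉ u := fun h => hu (List.mem_cons_of_mem _ h)
    have hk : k ≠ 2 := by
      rintro rfl
      exact hu List.mem_cons_self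
    rw [List.map_cons, List.prod_cons, ih hu1, List.flatMap_cons, List.map_append, List.prod_append]
    congr 1
    fin_cases k
    · rfl
    · rfl
    · exact absurd rfl hk

private theorem e2_len {X Y : List ι} : ∀ u : List (Fin 3), (2 : Fin 3) ∉ u →
    (u.flatMap (![X, Y, []] : Fin 3 → List ι)).length = u.count 0 * X.length + u.count 1 * Y.length ∧
      u.count 0 + u.count 1 = u.length := by
  intro u
  induction u with
  | nil => intro _; simp
  | cons k u ih =>
    intro hu
    have hu1 : (2 : Fin 3) ∉ u := fun h => hu (List.mem_cons_of_mem _ h)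
    have hk : k ≠ 2 := by
      rintro rfl
      exact hu List.mem_cons_self
    obtain ⟨h1, h2⟩ := ih hu1
    rw [List.flatMap_cons, List.length_append, h1, List.length_cons, ← h2]
    have hk01 : k = 0 ∨ k = 1 := by
      fin_cases k
      · exact Or.inl rfl
      · exact Or.inr rfl
      · exact absurd rfl hk
    rcases hk01 with rfl | rfl
    · rw [List.count_cons_self, List.count_cons_of_ne (by decide)]
      constructor
      · show X.length + _ = _
        ring
      · omega
    · rw [List.count_cons_self, List.count_cons_of_ne (by decide)]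
      constructor
      · show Y.length + _ = _
        ring
      · omega

private theorem e2_two : ∀ k l : Fin 3, (0 : Fin 3) ∈ [k, l] → (1 : Fin 3) ∈ [k, l] →
    [k, l] = [0, 1] ∨ [k, l] = [1, 0] := by decide

private theorem e2_split [DecidableEq ι] {a : Q} {σ : ι → ℕ} {v : List ι} (hv : 2 ≤ v.length)
    (htw : ∃ k ∈ v, C.Tw a (σ k)) :
    ∃ X Y : List ι, v = X ++ Y ∧ X ≠ [] ∧ Y ≠ [] ∧ ¬ (C.r a ∣ tot σ X ∧ C.r a ∣ tot σ Y) := by
  obtain ⟨u, x, u', rfl, h1, h2⟩ := C.ntw_first (C.ntw_pos.2 htw)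
  by_cases hu' : u' = []
  · subst hu'
    refine ⟨u, [x], rfl, ?_, by simp, ?_⟩
    · rintro rfl
      simp at hv
    · rintro ⟨_, h4⟩
      apply h2
      simpa [tot] using h4
  · refine ⟨u ++ [x], u', by simp, by simp, hu', ?_⟩
    rintro ⟨h3, _⟩
    rw [tot_append] at h3
    have h4 := (Nat.dvd_add_right (C.tot_untw h1)).1 h3
    apply h2
    simpa [tot] using h4

open Classical in
private theorem e2_step [DecidableEq ι] (hC : C.Cub) {a b : Q} (hab : a ≠ b) (ha : 2 ≤ C.r a)
    {σ : ι → ℕ} {X Y : List ι} (hX : X ≠ []) (hY : Y ≠ []) (hXY : ¬ (C.r a ∣ tot σ X ∧ C.r a ∣ tot σ Y))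
    {r : ι → U} (hr : ∀ k ∈ X ++ Y, C.H a a (σ k) (r k)) {t : U} (ht : C.S a b t)
    (ih : ∀ v' : List ι, (X ++ Y).length < v'.length → (∀ k ∈ X ++ Y, k ∈ v') → (∀ k ∈ v', k ∈ X ++ Y) →
      (v'.map r).prod * t = 0) : ((X ++ Y).map r).prod * t = 0 := by
  obtain ⟨G, hG1, hG0, hG2⟩ := hC
  -- all letters made homogeneous
  have hHX : C.H a a (tot σ X) (X.map r).prod := by
    have h1 : C.LHom a σ (fun k => if k ∈ X then r k else 0) := by
      intro k
      show C.H a a (σ k) (if k ∈ X then r k else 0)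
      split_ifs with hk
      · exact hr k (List.mem_append_left _ hk)
      · exact C.H_zero _
    have h2 := C.hom_prod h1 hX
    have h3 : X.map (fun k => if k ∈ X then r k else 0) = X.map r := by
      apply List.map_congr_left
      intro k hk
      rw [if_pos hk]
    rwa [h3] at h2
  have hHY : C.H a a (tot σ Y) (Y.map r).prod := by
    have h1 : C.LHom a σ (fun k => if k ∈ Y then r k else 0) := by
      intro k
      show C.H a a (σ k) (if k ∈ Y then r k else 0)
      split_ifs with hk
      · exact hr k (List.mem_append_right _ hk)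
      · exact C.H_zero _
    have h2 := C.hom_prod h1 hY
    have h3 : Y.map (fun k => if k ∈ Y then r k else 0) = Y.map r := by
      apply List.map_congr_left
      intro k hk
      rw [if_pos hk]
    rwa [h3] at h2
  set s := tot σ X with hs
  set s' := tot σ Y with hs'
  have hg := C.e2_scale1 (C.e2_scale0 (C.e2_base hab s s' hG1 hG2) 1) (C.p ^ s) _ _ t hHX hHY ht
  set T := ((G.support.filter fun w => ∃ u, w = u ++ [2] ∧ (2 : Fin 3) ∉ u).filter
    fun w => wt C.p (![s, s', 0] : Fin 3 → ℕ) w.dropLast 0 ≡ 1 [MOD C.n a]).filter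
    fun w => wt C.p (![s, s', 0] : Fin 3 → ℕ) w.dropLast 1 ≡ C.p ^ s [MOD C.n a] with hT
  have hmem : [0, 1, 2] ∈ T := by
    rw [hT, Finset.mem_filter, Finset.mem_filter, Finset.mem_filter]
    refine ⟨⟨⟨?_, [0, 1], rfl, by decide⟩, ?_⟩, ?_⟩
    · rw [Finsupp.mem_support_iff]
      intro h
      apply hG0
      rw [h]
      exact dvd_zero _
    · show wt C.p (![s, s', 0] : Fin 3 → ℕ) [0, 1] 0 ≡ 1 [MOD C.n a]
      simp [wt, Nat.ModEq]
    · show wt C.p (![s, s', 0] : Fin 3 → ℕ) [0, 1] 1 ≡ C.p ^ s [MOD C.n a]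
      simp [wt, Nat.ModEq]
  rw [← Finset.add_sum_erase T _ hmem] at hg
  have hrest : ∑ w ∈ T.erase [0, 1, 2], G w •
      (C.wv (![(X.map r).prod, (Y.map r).prod, 0] : Fin 3 → U) a w.dropLast * t) = 0 := by
    refine Finset.sum_eq_zero fun w hw => ?_
    rw [Finset.mem_erase, hT, Finset.mem_filter, Finset.mem_filter, Finset.mem_filter] at hw
    obtain ⟨hne, ⟨⟨hsup, u, rfl, hu⟩, hw0⟩, hw1⟩ := hw
    rw [List.dropLast_concat] at hw0 hw1 ⊢
    have h0 : (0 : Fin 3) ∈ u := by
      have h := hG1 _ hsup 0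
      rw [List.mem_append] at h
      rcases h with h | h
      · exact h
      · exact absurd h (by decide)
    have h1 : (1 : Fin 3) ∈ u := by
      have h := hG1 _ hsup 1
      rw [List.mem_append] at h
      rcases h with h | h
      · exact h
      · exact absurd h (by decide)
    obtain ⟨hl1, hl2⟩ := e2_len (X := X) (Y := Y) u hu
    have hc0 : 1 ≤ u.count 0 := List.count_pos_iff.2 h0
    have hc1 : 1 ≤ u.count 1 := List.count_pos_iff.2 h1
    have hlen : 3 ≤ u.length := by
      by_contra hlt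
      have hl : u.length = 2 := by omega
      obtain ⟨k, l, rfl⟩ := List.length_eq_two.1 hl
      rcases e2_two k l h0 h1 with h | h
      · apply hne
        rw [h]
        rfl
      · rw [h] at hw0 hw1
        apply hXY
        rw [C.n_eq ha] at hw0 hw1
        constructor
        · rw [← pow_modEq_one_iff C.hp ha]
          have h5 : wt C.p (![s, s', 0] : Fin 3 → ℕ) [1, 0] 1 = 1 := by simp [wt]
          rw [h5] at hw1
          exact hw1.symm
        · rw [← pow_modEq_one_iff C.hp ha]
          have h5 : wt C.p (![s, s', 0] : Fin 3 → ℕ) [1, 0] 0 = C.p ^ s' := by simp [wt]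
          rw [h5] at hw0
          exact hw0
    unfold Base.wv
    rw [e2_flat u hu, mul_assoc, ih (u.flatMap (![X, Y, []] : Fin 3 → List ι)) ?_ ?_ ?_, mul_zero, smul_zero]
    · rw [hl1, List.length_append]
      have hXl : 1 ≤ X.length := List.length_pos_iff.2 hX
      have hYl : 1 ≤ Y.length := List.length_pos_iff.2 hY
      rcases Nat.lt_or_ge 1 (u.count 0) with h | h
      · nlinarith
      · have : 2 ≤ u.count 1 := by omega
        nlinarith
    · intro k hk
      rw [List.mem_flatMap]
      rcases List.mem_append.1 hk with h | h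
      · exact ⟨0, h0, h⟩
      · exact ⟨1, h1, h⟩
    · intro k hk
      obtain ⟨j, hj, hj2⟩ := List.mem_flatMap.1 hk
      fin_cases j
      · exact List.mem_append_left _ hj2
      · exact List.mem_append_right _ hj2
      · exact absurd hj2 (by simp)
  rw [hrest, add_zero] at hg
  have h6 : C.wv (![(X.map r).prod, (Y.map r).prod, 0] : Fin 3 → U) a ([0, 1, 2] : List (Fin 3)).dropLast * t =
      ((X ++ Y).map r).prod * t := by
    unfold Base.wv
    have h7 : ([0, 1, 2] : List (Fin 3)).dropLast = [0, 1] := rfl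
    rw [h7]
    simp only [List.map_cons, List.map_nil, List.prod_cons, List.prod_nil, mul_one, List.map_append, List.prod_append]
    have h8 : (![(X.map r).prod, (Y.map r).prod, 0] : Fin 3 → U) 0 = (X.map r).prod := rfl
    have h9 : (![(X.map r).prod, (Y.map r).prod, 0] : Fin 3 → U) 1 = (Y.map r).prod := rfl
    rw [h8, h9, ← mul_assoc, hHX.1.2.1]
  rw [h6] at hg
  exact Base.tors_unit C.toBase hG0 (C.J_le (C.J_left _ _ ht.1)) hg

theorem e2van {ι : Type} [DecidableEq ι] (hC : C.Cub) {a b : Q} (hab : a ≠ b) (ha : 2 ≤ C.r a)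
    (σ : ι → ℕ) (v : List ι) (hv : 2 ≤ v.length) (htw : ∃ k ∈ v, C.Tw a (σ k)) (r : ι → U)
    (hr : ∀ k ∈ v, C.H a a (σ k) (r k)) {t : U} (ht : C.S a b t) : (v.map r).prod * t = 0 := by
  have key : ∀ n : ℕ, ∀ v : List ι, C.N ≤ v.length + n → 2 ≤ v.length → (∃ k ∈ v, C.Tw a (σ k)) →
      (∀ k ∈ v, C.H a a (σ k) (r k)) → (v.map r).prod * t = 0 := by
    intro n
    induction n with
    | zero =>
      intro v hN _ _ hr
      have h1 : (v.map r).prod = 0 := by
        apply C.nil
        · rw [List.length_map]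
          omega
        · intro x hx
          obtain ⟨k, hk, rfl⟩ := List.mem_map.1 hx
          exact (hr k hk).1.1
      rw [h1, zero_mul]
    | succ n ih =>
      intro v hN hv htw hr
      obtain ⟨X, Y, rfl, hX, hY, hXY⟩ := C.e2_split hv htw
      refine C.e2_step hC hab ha hX hY hXY hr ht ?_
      intro v' hlen hsub1 hsub2
      refine ih v' (by omega) (by omega) ?_ ?_
      · obtain ⟨k, hk, hk2⟩ := htw
        exact ⟨k, hsub1 k hk, hk2⟩
      · intro k hk
        exact hr k (hsub2 k hk)
  exact key C.N v (by omega) hv htw hr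


end Ctx

end ADM
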