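import Pool.Agent.ADM.Dft

/-!
# ADM-OpCtx

The opposite context: all statements have mirror images.
-/

namespace ADM

open AD ADN ADN.Ctx MulOpposite

variable {U : Type} [Ring U] {Q : Type} [Fintype Q]

/-- the opposite base -/
noncomputable def Base.opB (C : Base U Q) : Base Uᵐᵒᵖ Q where
  o := C.o
  p := C.p
  K := C.K
  N := C.N
  e := fun i => op (C.e i)
  A := C.A.comap (MulOpposite.opAddEquiv (α := U)).symm.toAddMonoidHom
  J := C.J.comap (MulOpposite.opAddEquiv (α := U)).symm.toAddMonoidHom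
  hp := C.hp
  coi := by
    refine ⟨⟨fun i => ?_, fun i j hij => ?_⟩, ?_⟩
    · show op (C.e i) * op (C.e i) = op (C.e i)
      rw [← op_mul, C.coi.idem i]
    · show op (C.e i) * op (C.e j) = 0
      rw [← op_mul, C.coi.ortho (Ne.symm hij), op_zero]
    · have h := congrArg op C.coi.complete
      rw [Finset.op_sum, op_one] at h
      exact h
  A_left := fun u a ha => C.A_right (unop u) (unop a) ha
  A_right := fun u a ha => C.A_left (unop u) (unop a) ha
  J_left := fun u a ha => C.J_right (unop u) (unop a) ha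
  J_right := fun u a ha => C.J_left (unop u) (unop a) ha
  J_le := fun a ha => C.J_le ha
  e_mem := fun i hi => C.e_mem i hi
  pJ := fun a ha => C.pJ (unop a) ha
  tors := fun a ha => by
    apply unop_injective
    rw [unop_zero]
    exact C.tors (unop a) ha
  nil := fun l hl hx => by
    apply unop_injective
    rw [unop_list_prod, unop_zero]
    refine C.nil _ (by simpa using hl) fun x hx' => ?_
    rw [List.mem_reverse, List.mem_map] at hx'
    obtain ⟨y, hy, rfl⟩ := hx'
    exact hx y hy

namespace Ctx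

variable (C : Ctx U Q)

/-- a right inverse -/
theorem unit_right (i : Q) (m : ℕ) (h : ¬ ord C.p (C.r i) ∣ m) :
    ∃ v, (C.w i ^ m - C.e i) * v = C.e i := by
  have hm0 : m ≠ 0 := by
    rintro rfl
    exact h (dvd_zero _)
  have hi : i ≠ C.o := by
    rintro rfl
    apply h
    rw [C.r_o]
    exact one_dvd _
  have hn : C.n i = ord C.p (C.r i) := rfl
  have hgs := C.gs i (k := m) (by rw [hn]; exact h)
  have hpn : ¬ (C.p : ℤ) ∣ (C.n i : ℤ) := by
    intro h1
    have h2 : C.p ∣ C.n i := by exact_mod_cast h1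
    have h3 := C.n_coprime i
    have h4 : C.p ∣ 1 := by
      rw [← h3]
      exact Nat.dvd_gcd h2 dvd_rfl
    exact C.hp.one_lt.ne' (Nat.dvd_one.1 h4)
  obtain ⟨m', hm'⟩ := C.inv_mod hpn
  have hew : ∀ k, k ≠ 0 → C.e i * C.w i ^ k = C.w i ^ k := by
    intro k hk
    obtain ⟨k, rfl⟩ := Nat.exists_eq_succ_of_ne_zero hk
    rw [pow_succ', ← mul_assoc, C.w_left]
  have hwe : ∀ k, k ≠ 0 → C.w i ^ k * C.e i = C.w i ^ k := by
    intro k hk
    obtain ⟨k, rfl⟩ := Nat.exists_eq_succ_of_ne_zero hk
    rw [pow_succ, mul_assoc, C.w_right]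
  have hee : C.e i * C.e i = C.e i := C.coi.idem i
  have h1 : ∀ θ : ℕ, (C.w i ^ m - C.e i) * ∑ j ∈ Finset.range θ, C.e i * C.w i ^ (j * m) =
      C.e i * C.w i ^ (θ * m) - C.e i := by
    intro θ
    induction θ with
    | zero => rw [Finset.range_zero, Finset.sum_empty, mul_zero, zero_mul, pow_zero, mul_one, sub_self]
    | succ θ ih =>
      rw [Finset.sum_range_succ, mul_add, ih, sub_mul, ← mul_assoc, ← mul_assoc, hwe m hm0, hee,
        ← pow_add, Nat.succ_mul, Nat.add_comm m (θ * m), hew (θ * m + m) (by omega)]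
      abel
  refine ⟨(-m') • ∑ θ ∈ Finset.range (C.n i), ∑ j ∈ Finset.range θ, C.e i * C.w i ^ (j * m), ?_⟩
  rw [mul_smul_comm, Finset.mul_sum, Finset.sum_congr rfl fun θ _ => h1 θ, Finset.sum_sub_distrib,
    hgs, Finset.sum_const, Finset.card_range, zero_sub, smul_neg, neg_smul, neg_neg,
    ← natCast_zsmul, ← mul_smul]
  exact hm' _ (C.e_mem i hi)

/-- the exponent of the opposite twist -/
def ops (r s : ℕ) : ℕ := (r - s % r) % r

theorem ops_lt {r : ℕ} (hr : 0 < r) (s : ℕ) : ops r s < r := Nat.mod_lt _ hr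

theorem ops_add {r : ℕ} (hr : 0 < r) (s : ℕ) : ops r s + s ≡ 0 [MOD r] := by
  unfold ops
  have h1 : (r - s % r) % r + s ≡ (r - s % r) + s % r [MOD r] :=
    Nat.ModEq.add (Nat.mod_modEq _ _) (Nat.mod_modEq _ _).symm
  have h2 : r - s % r + s % r = r := Nat.sub_add_cancel (Nat.mod_lt _ hr).le
  rw [h2] at h1
  exact h1.trans (by simp [Nat.ModEq])

theorem ops_ops {r s : ℕ} (hs : s < r) : ops r (ops r s) = s := by
  have hr : 0 < r := by omega
  have h1 := ops_add hr s
  have h2 := ops_add hr (ops r s)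
  have h3 : ops r (ops r s) + ops r s ≡ s + ops r s [MOD r] := by
    rw [Nat.add_comm s]
    exact h2.trans h1.symm
  have h4 := Nat.ModEq.add_right_cancel' _ h3
  exact Nat.ModEq.eq_of_lt_of_lt h4 (ops_lt hr _) hs

theorem ops_dvd {r s : ℕ} (hr : 0 < r) : r ∣ ops r s ↔ r ∣ s := by
  have h1 : r ∣ ops r s + s := (Nat.modEq_zero_iff_dvd).1 (ops_add hr s)
  exact ⟨fun h => (Nat.dvd_add_right h).1 h1, fun h => (Nat.dvd_add_left h).1 h1⟩

/-- commutation with `w` from the other side -/
theorem H_op {a : Q} {s t : ℕ} (hst : t + s ≡ 0 [MOD C.r a]) {x : U} (hx1 : C.e a * x = x)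
    (hx : x * C.w a = C.w a ^ C.p ^ s * x) : C.w a * x = x * C.w a ^ C.p ^ t := by
  have h1 : ∀ m, x * C.w a ^ m = C.w a ^ (C.p ^ s * m) * x := by
    intro m
    induction m with
    | zero => rw [mul_zero, pow_zero, mul_one, one_mul]
    | succ m ih => rw [pow_succ, ← mul_assoc, ih, mul_assoc, hx, ← mul_assoc, ← pow_add, mul_add, mul_one]
  have h2 : C.p ^ s * C.p ^ t ≡ 1 [MOD C.n a] := by
    rw [← pow_add, Nat.add_comm s t]
    exact C.p_pow_modEq a hst
  rw [h1, C.w_pow_left h2 hx1, pow_one]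

/-- the opposite context -/
noncomputable def opC : Ctx Uᵐᵒᵖ Q where
  toBase := C.toBase.opB
  blk := C.blk
  blk_o := C.blk_o
  r := C.r
  r_pos := C.r_pos
  r_o := C.r_o
  r_blk := C.r_blk
  w := fun i => op (C.w i)
  E := fun i j => op (C.E j i)
  E_self := fun i => congrArg op (C.E_self i)
  E_ne := fun i j h => by rw [C.E_ne j i (Ne.symm h), op_zero]
  E_mul := fun i j k hij hjk => by rw [← op_mul, C.E_mul k j i hjk.symm hij.symm]
  E_left := fun i j => by
    show op (C.e i) * op (C.E j i) = op (C.E j i)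
    rw [← op_mul, C.E_right]
  E_right := fun i j => by
    show op (C.E j i) * op (C.e j) = op (C.E j i)
    rw [← op_mul, C.E_left]
  w_left := fun i => by
    show op (C.e i) * op (C.w i) = op (C.w i)
    rw [← op_mul, C.w_right]
  w_right := fun i => by
    show op (C.w i) * op (C.e i) = op (C.w i)
    rw [← op_mul, C.w_left]
  w_E := fun i j h => by rw [← op_mul, ← op_mul, C.w_E j i h.symm]
  w_pow := fun i => by
    rw [← op_pow]
    exact congrArg op (C.w_pow i)
  unit := fun i m h => by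
    obtain ⟨v, hv⟩ := C.unit_right i m h
    refine ⟨op v, ?_⟩
    have h1 := congrArg op hv
    rw [op_mul, op_sub, op_pow] at h1
    exact h1
  hom := fun i x hx h1 h2 => by
    have e1 : C.e i * unop x = unop x := congrArg unop h2
    have e2 : unop x * C.e i = unop x := congrArg unop h1
    obtain ⟨y, hy, hxy⟩ := C.hom i (unop x) hx e1 e2
    have hr := C.r_pos i
    refine ⟨fun τ => op (y (ops (C.r i) τ)), fun τ => ?_, ?_⟩
    · obtain ⟨g1, g2, g3, g4⟩ := hy (ops (C.r i) τ)
      refine ⟨g1, ?_, ?_, ?_⟩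
      · show op (C.e i) * op (y (ops (C.r i) τ)) = op (y (ops (C.r i) τ))
        rw [← op_mul, g3]
      · show op (y (ops (C.r i) τ)) * op (C.e i) = op (y (ops (C.r i) τ))
        rw [← op_mul, g2]
      · rw [← op_mul, ← op_pow, ← op_mul]
        refine congrArg op (C.H_op ?_ g2 g4)
        rw [Nat.add_comm]
        exact ops_add hr τ
    · apply unop_injective
      rw [hxy, Finset.unop_sum]
      symm
      refine Finset.sum_nbij' (fun τ => ops (C.r i) τ) (fun τ => ops (C.r i) τ) ?_ ?_ ?_ ?_ ?_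
      · intro τ _
        exact Finset.mem_range.2 (ops_lt hr τ)
      · intro τ _
        exact Finset.mem_range.2 (ops_lt hr τ)
      · intro τ hτ
        exact ops_ops (Finset.mem_range.1 hτ)
      · intro τ hτ
        exact ops_ops (Finset.mem_range.1 hτ)
      · intro τ _
        rfl
  dec := fun a ha => by
    classical
    obtain ⟨c, hc, hd⟩ := C.dec (unop a) ha
    refine ⟨fun i j m => if i = C.o then 0 else c j i m, fun j m => if_pos rfl, ?_⟩
    show unop (a - ∑ i, ∑ j, ∑ m ∈ Finset.range (ord C.p (C.r j)),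
      (if i = C.o then 0 else c j i m) • (op (C.E j i) * op (C.w j) ^ m)) ∈ C.J
    have hw : ∀ i j, C.blk i = C.blk j → ∀ m, C.w i ^ m * C.E i j = C.E i j * C.w j ^ m := by
      intro i j hij m
      induction m with
      | zero => rw [pow_zero, pow_zero, one_mul, mul_one]
      | succ m ih => rw [pow_succ, mul_assoc, C.w_E i j hij, ← mul_assoc, ih, mul_assoc, ← pow_succ]
    have h1 : unop (∑ i, ∑ j, ∑ m ∈ Finset.range (ord C.p (C.r j)),
        (if i = C.o then 0 else c j i m) • (op (C.E j i) * op (C.w j) ^ m)) =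
        ∑ i, ∑ j, ∑ m ∈ Finset.range (ord C.p (C.r j)), c i j m • (C.E i j * C.w j ^ m) := by
      have h2 : unop (∑ i, ∑ j, ∑ m ∈ Finset.range (ord C.p (C.r j)),
          (if i = C.o then 0 else c j i m) • (op (C.E j i) * op (C.w j) ^ m)) =
          ∑ i, ∑ j, ∑ m ∈ Finset.range (ord C.p (C.r j)),
          (if i = C.o then 0 else c j i m) • (C.w j ^ m * C.E j i) := by
        rw [Finset.unop_sum]
        refine Finset.sum_congr rfl fun i _ => ?_
        rw [Finset.unop_sum]
        refine Finset.sum_congr rfl fun j _ => ?_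
        rw [Finset.unop_sum]
        refine Finset.sum_congr rfl fun m _ => ?_
        rw [unop_smul, unop_mul, unop_pow, unop_op, unop_op]
      rw [h2, Finset.sum_comm]
      refine Finset.sum_congr rfl fun i _ => Finset.sum_congr rfl fun j _ => ?_
      by_cases hb : C.blk i = C.blk j
      · rw [C.r_blk i j hb]
        refine Finset.sum_congr rfl fun m _ => ?_
        rw [hw i j hb m]
        by_cases hj : j = C.o
        · subst hj
          have hi : i = C.o := C.blk_o i hb
          rw [if_pos rfl, hi, hc, zero_smul]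
        · rw [if_neg hj]
      · rw [Finset.sum_eq_zero fun m _ => ?_, Finset.sum_eq_zero fun m _ => ?_]
        · rw [C.E_ne i j hb, zero_mul, smul_zero]
        · rw [C.E_ne i j hb, mul_zero, smul_zero]
    rw [unop_sub, h1]
    exact hd

/-- reversal of words in three letters -/
def rv3 (w : List (Fin 3)) : List (Fin 3) := (w.map Fin.rev).reverse

theorem rv3_rv3 (w : List (Fin 3)) : rv3 (rv3 w) = w := by
  unfold rv3
  rw [List.map_reverse, List.reverse_reverse, List.map_map, Fin.rev_involutive.comp_self, List.map_id]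

theorem rv3_inj : Function.Injective rv3 := fun v w h => by
  rw [← rv3_rv3 v, h, rv3_rv3]

theorem w3_op (a : Fin 3 → Uᵐᵒᵖ) (w : List (Fin 3)) :
    w3 a (rv3 w) = op (w3 (fun i => unop (a i.rev)) w) := by
  unfold w3 rv3
  rw [op_list_prod, List.map_reverse, List.map_map, List.map_map]
  rfl

/-- cubic relations have mirror images -/
theorem cub_op {C : Ctx U Q} (h : C.Cub) : C.opC.Cub := by
  obtain ⟨G, h1, h2, h3⟩ := h
  refine ⟨G.mapDomain rv3, fun w hw i => ?_, ?_, fun a ha => ?_⟩
  · classical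
    obtain ⟨w', hw', rfl⟩ := Finset.mem_image.1 (Finsupp.mapDomain_support hw)
    have h4 := h1 w' hw' i.rev
    unfold rv3
    rw [List.mem_reverse, List.mem_map]
    exact ⟨i.rev, h4, Fin.rev_rev i⟩
  · have h4 : (G.mapDomain rv3) [0, 1, 2] = G [0, 1, 2] := by
      have h5 := Finsupp.mapDomain_apply rv3_inj G [0, 1, 2]
      exact h5
    rw [h4]
    exact h2
  · rw [Finsupp.sum_mapDomain_index_inj rv3_inj]
    have h4 := congrArg op (h3 (fun i => unop (a i.rev)) fun i => ha i.rev)
    rw [op_zero] at h4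
    rw [← h4]
    unfold Finsupp.sum
    rw [Finset.op_sum]
    refine Finset.sum_congr rfl fun w _ => ?_
    show G w • w3 a (rv3 w) = op (G w • w3 (fun i => unop (a i.rev)) w)
    rw [w3_op, op_smul]

/-- sorted elements -/
theorem S_op {C : Ctx U Q} {a b : Q} {x : U} (h : C.S a b x) : C.opC.S b a (op x) :=
  ⟨h.1, congrArg op h.2.2, congrArg op h.2.1⟩

/-- homogeneous loops -/
theorem H_loop_op {C : Ctx U Q} {a : Q} {s : ℕ} {x : U} (h : C.H a a s x) :
    C.opC.H a a (ops (C.r a) s) (op x) := by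
  refine ⟨S_op h.1, fun _ => ?_⟩
  show op x * op (C.w a) = op (C.w a) ^ C.p ^ ops (C.r a) s * op x
  rw [← op_mul, ← op_pow, ← op_mul]
  exact congrArg op (C.H_op (ops_add (C.r_pos a) s) h.1.2.1 (h.2 rfl))

/-- nontrivial twists -/
theorem Tw_op {C : Ctx U Q} {a : Q} {s : ℕ} (h : C.Tw a s) : C.opC.Tw a (ops (C.r a) s) :=
  fun h1 => h ((ops_dvd (C.r_pos a)).1 h1)

/-- words -/
theorem op_map_prod {ι : Type} (r : ι → U) (v : List ι) :
    (v.reverse.map fun k => op (r k)).prod = op (v.map r).prod := by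
  rw [op_list_prod, List.map_reverse, List.map_map]
  rfl

end Ctx

end ADM
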