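import Pool.Agent.ADM.Dft
import Pool.Agent.ADM.Arith
import Pool.Agent.ADM.Ntw
import Pool.Agent.ADM.E2van
import Pool.Agent.ADM.OpCtx

/-!
# ADM-E3van

Two or more loops, one of them twisted, behind an edge (mirror image of E2van).

PLAN.  Two blocks first.  Let `x`, `y` be homogeneous loops at `b` of twists `s`, `s'`, not both divisible by `r = r b`.  The cubic relation `G` (hC) at
`(t, x, y)`, multiplied by `e a`, `e b`: the path words from `a` to `b ≠ a` are `[0] ++ u` with a word `u` in `1, 2`; they contain `1, 2`.  So
`∑_u G (0 :: u) • t * (u value) = 0`.  Replace `x, y` by `w^i x`, `w^j y` (`w = w b`) and multiply by `w^k` from the right: the word becomes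
`t * w ^ (i * wt u 1 + j * wt u 2 + k * p ^ tot u) * (u value)` (weights `wt` of the letters in the word `u` of loops at `b`).  This is an exponent in the middle: use that
the relation holds for `t * w^m` too, for all `m`: `∑_u G (0 :: u) • t * w^(m + i M_u) * (u value) = 0`; with `m = (n-1) i M₀`, summing over `i < n` (`gs`: the sum of
`e * w^(i δ)` over `i < n` is 0 unless `n ∣ δ`) one gets the words with `M_u ≡ M₀` only (times `n`, invertible).  Do this for the three exponents.  There remain the words
with `wt u 1 ≡ 1`, `wt u 2 ≡ p^s`, `tot u ≡ s + s'` (the class of `u = [1,2]`); `[2,1]` is in this class only if `p^s' ≡ 1` and `p^s ≡ 1`: excluded.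
So `G [0,1,2] • t x y = - ∑ (u of length ≥ 3 containing 1, 2) G (0 :: u) • t u`.
Induction: claim for all words `v` with `2 ≤ v.length`, a twisted letter, all sorted `t`: `t * (v.map r).prod = 0`, by induction on `N - v.length` (`C.nil` for
`v.length ≥ N`).  Split `v = X ++ Y`, both nonempty, not both totals divisible by `r`: `v = u ++ x :: u'` with the first twisted letter `x` (`ntw_first`): if `u' ≠ []`:
`X = u ++ [x]`; otherwise `X = u` (nonempty), `Y = [x]` (`tot_untw`).  Apply the relation to the products `x = X`-value, `y = Y`-value; the words of the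
right hand side, with the blocks substituted, are longer than `v`, and contain all letters of `v`: 0 by induction.  `tors_unit`.
-/

namespace ADM

open AD ADN ADN.Ctx

namespace Ctx

variable {U : Type} [Ring U] {Q : Type} [Fintype Q] (C : Ctx U Q)

theorem e3van {ι : Type} [DecidableEq ι] (hC : C.Cub) {a b : Q} (hab : a ≠ b) (hb : 2 ≤ C.r b)
    (σ : ι → ℕ) (v : List ι) (hv : 2 ≤ v.length) (htw : ∃ k ∈ v, C.Tw b (σ k)) (r : ι → U)
    (hr : ∀ k ∈ v, C.H b b (σ k) (r k)) {t : U} (ht : C.S a b t) : t * (v.map r).prod = 0 := by
  have h1 : ∀ k ∈ v.reverse, C.opC.H b b (ops (C.r b) (σ k)) (MulOpposite.op (r k)) := fun k hk =>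
    H_loop_op (hr k (List.mem_reverse.1 hk))
  have h2 := C.opC.e2van (ι := ι) (cub_op hC) (a := b) (b := a) hab.symm hb (fun k => ops (C.r b) (σ k))
    v.reverse (by rwa [List.length_reverse])
    (by
      obtain ⟨k, hk, h⟩ := htw
      exact ⟨k, List.mem_reverse.2 hk, Tw_op h⟩)
    (fun k => MulOpposite.op (r k)) h1 (S_op ht)
  rw [op_map_prod, ← MulOpposite.op_mul] at h2
  exact MulOpposite.op_injective (h2.trans MulOpposite.op_zero.symm)

end Ctx

end ADM
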