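import Pool.Agent.ADM.Defs

/-!
# ADM-Lif

Lifting orthogonal idempotents inside an ideal.

PLAN.  `OrthogonalIdempotents.lift_of_isNilpotent_ker` (see the proof of `ADN.idem` in Pool/Agent/ADN/Idem.lean) gives orthogonal
idempotents `e i` with `π (e i) = f i`.  `e i ∈ A`: let `b ∈ A` with `π b = f i`, `x = e i - b`, `π x = 0`, so `x` is nilpotent,
`x ^ (N + 1) = 0`; `e i = (e i) ^ (N + 1) = (b + x) ^ (N + 1)` and `(b + x) ^ m - x ^ m ∈ A` (induction on `m`; lemma `idem_pow` there).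
-/

namespace ADM

open AD ADN

private theorem lif_pow {U : Type} [Ring U] (A : AddSubgroup U)
    (hl : ∀ u a, a ∈ A → u * a ∈ A) (hr : ∀ u a, a ∈ A → a * u ∈ A) {b : U} (hb : b ∈ A) (x : U)
    (m : ℕ) : (b + x) ^ m - x ^ m ∈ A := by
  induction m with
  | zero => simp [A.zero_mem]
  | succ m ih =>
    have h : (b + x) ^ (m + 1) - x ^ (m + 1) = ((b + x) ^ m - x ^ m) * (b + x) + x ^ m * b := by
      rw [pow_succ, pow_succ]
      noncomm_ring
    rw [h]
    exact A.add_mem (hr _ _ ih) (hl _ _ hb)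

theorem lif (U : Type) [Ring U] (A : AddSubgroup U)
    (hl : ∀ u a, a ∈ A → u * a ∈ A) (hr : ∀ u a, a ∈ A → a * u ∈ A) (S : Type) [Ring S]
    (π : U →+* S) (hπ : Function.Surjective π) (N : ℕ)
    (hN : ∀ l : List U, N ≤ l.length → (∀ x ∈ l, π x = 0) → l.prod = 0)
    (Q : Type) [Fintype Q] (f : Q → S) (hf : OrthogonalIdempotents f) (hA : ∀ i, ∃ a ∈ A, π a = f i) :
    ∃ e : Q → U, OrthogonalIdempotents e ∧ (∀ i, e i ∈ A) ∧ ∀ i, π (e i) = f i := by
  have hpow : ∀ x : U, π x = 0 → x ^ (N + 1) = 0 := by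
    intro x hx
    have h := hN (List.replicate (N + 1) x) (by simp) (fun y hy => by
      rw [List.eq_of_mem_replicate hy]; exact hx)
    rwa [List.prod_replicate] at h
  have hnil : ∀ x ∈ RingHom.ker π, IsNilpotent x := fun x hx =>
    ⟨N + 1, hpow x ((RingHom.mem_ker).1 hx)⟩
  obtain ⟨e, h₁, h₂⟩ := OrthogonalIdempotents.lift_of_isNilpotent_ker π hnil
    hf (fun i => RingHom.mem_range.2 (hπ _))
  have h₂' : ∀ i, π (e i) = f i := fun i => congrFun h₂ i
  refine ⟨e, h₁, ?_, h₂'⟩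
  intro i
  obtain ⟨b, hb, hπb⟩ := hA i
  have hx : (e i - b) ^ (N + 1) = 0 := by
    apply hpow
    rw [map_sub, h₂', hπb, sub_self]
  have h3 := lif_pow A hl hr hb (e i - b) (N + 1)
  rw [hx, sub_zero, add_sub_cancel] at h3
  have h4 : e i ^ (N + 1) = e i := (h₁.idem i).pow_succ_eq N
  rwa [h4] at h3

end ADM
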