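import Pool.Agent.ADM.Uni

/-!
# ADM-Mu

Lifting matrix units.

PLAN.  In every block choose a base vertex: `b : Q → Q` with `blk (b i) = blk i` and `b i = b j` if `blk i = blk j` (e.g.
`Function.invFun`-like choice on the set of values of `blk`).  For `i` with `b i = i` put `x i = y i = e i`.  Otherwise choose `u, v` with
`π u = f i (b i)`, `π v = f (b i) i`, `x i = e i * u * e (b i)`, `y' = e (b i) * v * e i`; `π (x i) = f i (b i)`, `π y' = f (b i) i`
(`f i i * f i j = f i j` etc.), so `π (y' * x i) = f (b i) (b i) = π (e (b i))`.  By `uni` (with `s = π e`, the element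
`y' * x i` in the corner of `e (b i)`) there is `c` with `c * (y' * x i) = e (b i)`; put `y i = c * y'` (multiply `c` by `e (b i)` on both
sides); `π c = π (e (b i))` up to corners, because `π c * π (e (b i)) = π (e (b i))`; so `y i * x i = e (b i)`, `π (y i) = f (b i) i`.
`x i * y i` is an idempotent of the corner of `e i`, and `e i - x i * y i` is an idempotent with image 0, hence nilpotent, hence 0:
`x i * y i = e i`.
Put `E i j = x i * y j` if `blk i = blk j` (then `b i = b j`), and `0` otherwise.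
* `E i j * E j k = x i * (y j * x j) * y k = x i * e (b j) * y k = x i * y k`.
* `π (E i j) = f i (b i) * f (b i) j = f i j`.
-/

namespace ADM

open AD ADN

private theorem mu_nil {U : Type} [Ring U] {S : Type} [Ring S] (π : U →+* S) (N : ℕ)
    (hN : ∀ l : List U, N ≤ l.length → (∀ x ∈ l, π x = 0) → l.prod = 0) (d : U) (hd : d * d = d) (h0 : π d = 0) :
    d = 0 := by
  have h1 : d ^ N = 0 := by
    have h := hN (List.replicate N d) (by simp) (fun x hx => by rw [List.eq_of_mem_replicate hx]; exact h0)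
    rwa [List.prod_replicate] at h
  have h2 : ∀ n : ℕ, d ^ n * d = d := by
    intro n
    induction n with
    | zero => simp
    | succ n ih => rw [pow_succ, mul_assoc, hd, ih]
  rw [← h2 N, h1, zero_mul]

private theorem mu_pair (U : Type) [Ring U] (S : Type) [Ring S] (π : U →+* S) (hπ : Function.Surjective π) (N : ℕ)
    (hN : ∀ l : List U, N ≤ l.length → (∀ x ∈ l, π x = 0) → l.prod = 0)
    (e1 e0 : U) (h1 : e1 * e1 = e1) (h0 : e0 * e0 = e0) (F G : S)
    (hF1 : π e1 * F = F) (hF0 : F * π e0 = F) (hG0 : π e0 * G = G) (hG1 : G * π e1 = G)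
    (hGF : G * F = π e0) (hFG : F * G = π e1) :
    ∃ x y : U, e1 * x = x ∧ x * e0 = x ∧ e0 * y = y ∧ y * e1 = y ∧ y * x = e0 ∧ x * y = e1 ∧ π x = F ∧ π y = G := by
  obtain ⟨u, hu⟩ := hπ F
  obtain ⟨v, hv⟩ := hπ G
  obtain ⟨x, hx⟩ : ∃ x, x = e1 * u * e0 := ⟨_, rfl⟩
  obtain ⟨y', hy'⟩ : ∃ y, y = e0 * v * e1 := ⟨_, rfl⟩
  have hx1 : e1 * x = x := by rw [hx, ← mul_assoc, ← mul_assoc, h1]
  have hx0 : x * e0 = x := by rw [hx, mul_assoc, h0]
  have hy0 : e0 * y' = y' := by rw [hy', ← mul_assoc, ← mul_assoc, h0]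
  have hy1 : y' * e1 = y' := by rw [hy', mul_assoc, h1]
  have hπx : π x = F := by rw [hx, map_mul, map_mul, hu, hF1, hF0]
  have hπy' : π y' = G := by rw [hy', map_mul, map_mul, hv, hG0, hG1]
  have hπe0 : π e0 * π e0 = π e0 := by rw [← map_mul, h0]
  obtain ⟨c, hc, hc0⟩ := uni U S π hπ N hN e0 (y' * x) h0 (by rw [← mul_assoc, hy0]) (by rw [mul_assoc, hx0]) (π e0)
    (by rw [map_mul, hπx, hπy', hGF, hπe0])
  have hπc : π c * π e0 = π e0 := by
    have h := congrArg π hc
    rwa [map_mul, map_mul, hπy', hπx, hGF] at h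
  refine ⟨x, c * y', hx1, hx0, by rw [← mul_assoc, hc0], by rw [mul_assoc, hy1], by rw [mul_assoc, hc], ?_, hπx, ?_⟩
  · have hyx : (c * y') * x = e0 := by rw [mul_assoc, hc]
    have hid : (x * (c * y')) * (x * (c * y')) = x * (c * y') := by
      calc (x * (c * y')) * (x * (c * y')) = x * ((c * y') * x) * (c * y') := by simp only [mul_assoc]
        _ = x * (c * y') := by rw [hyx, hx0]
    have hl : e1 * (x * (c * y')) = x * (c * y') := by rw [← mul_assoc, hx1]
    have hr : (x * (c * y')) * e1 = x * (c * y') := by rw [mul_assoc, mul_assoc, hy1]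
    have hd : e1 - x * (c * y') = 0 := by
      apply mu_nil π N hN
      · rw [sub_mul, mul_sub, mul_sub, h1, hl, hr, hid]
        abel
      · rw [map_sub, map_mul, map_mul, hπx, hπy', ← hG0, ← mul_assoc (π c), hπc, hG0, hFG, sub_self]
    exact (sub_eq_zero.1 hd).symm
  · rw [map_mul, hπy', ← hG0, ← mul_assoc, hπc, hG0]

theorem mu (U : Type) [Ring U] (S : Type) [Ring S] (π : U →+* S) (hπ : Function.Surjective π) (N : ℕ)
    (hN : ∀ l : List U, N ≤ l.length → (∀ x ∈ l, π x = 0) → l.prod = 0)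
    (Q : Type) [Fintype Q] (blk : Q → ℕ) (e : Q → U) (he : OrthogonalIdempotents e)
    (f : Q → Q → S) (hf : ∀ i, π (e i) = f i i)
    (hff : ∀ i j k, blk i = blk j → blk j = blk k → f i j * f j k = f i k) :
    ∃ E : Q → Q → U, (∀ i, E i i = e i) ∧ (∀ i j, blk i ≠ blk j → E i j = 0) ∧
      (∀ i j k, blk i = blk j → blk j = blk k → E i j * E j k = E i k) ∧
      (∀ i j, e i * E i j = E i j) ∧ (∀ i j, E i j * e j = E i j) ∧
      ∀ i j, blk i = blk j → π (E i j) = f i j := by
  have hb0 : ∀ n : Set.range blk, ∃ q : Q, blk q = n := fun n => n.2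
  choose b0 hb0 using hb0
  obtain ⟨b, hb, hbb⟩ : ∃ b : Q → Q, (∀ i, blk (b i) = blk i) ∧ ∀ i j, blk i = blk j → b i = b j := by
    refine ⟨fun i => b0 ⟨blk i, i, rfl⟩, fun i => hb0 _, fun i j hij => ?_⟩
    exact congrArg b0 (Subtype.ext hij)
  have hid : ∀ i, e i * e i = e i := fun i => he.idem i
  have hp : ∀ i, ∃ x y : U, e i * x = x ∧ x * e (b i) = x ∧ e (b i) * y = y ∧ y * e i = y ∧ y * x = e (b i) ∧
      x * y = e i ∧ π x = f i (b i) ∧ π y = f (b i) i := by
    intro i
    apply mu_pair U S π hπ N hN (e i) (e (b i)) (hid i) (hid (b i)) (f i (b i)) (f (b i) i)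
    · rw [hf]; exact hff _ _ _ rfl (hb i).symm
    · rw [hf]; exact hff _ _ _ (hb i).symm rfl
    · rw [hf]; exact hff _ _ _ rfl (hb i)
    · rw [hf]; exact hff _ _ _ (hb i) rfl
    · rw [hf]; exact hff _ _ _ (hb i) (hb i).symm
    · rw [hf]; exact hff _ _ _ (hb i).symm (hb i)
  choose x y h1 h2 h3 h4 h5 h6 h7 h8 using hp
  obtain ⟨E, hEp, hEn⟩ : ∃ E : Q → Q → U, (∀ i j, blk i = blk j → E i j = x i * y j) ∧
      ∀ i j, blk i ≠ blk j → E i j = 0 := by
    classical
    exact ⟨fun i j => if blk i = blk j then x i * y j else 0, fun i j h => if_pos h, fun i j h => if_neg h⟩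
  refine ⟨E, ?_, hEn, ?_, ?_, ?_, ?_⟩
  · intro i
    rw [hEp i i rfl, h6]
  · intro i j k hij hjk
    rw [hEp i j hij, hEp j k hjk, hEp i k (hij.trans hjk)]
    calc x i * y j * (x j * y k) = x i * (y j * x j) * y k := by simp only [mul_assoc]
      _ = x i * y k := by rw [h5, ← hbb i j hij, h2]
  · intro i j
    by_cases hij : blk i = blk j
    · rw [hEp i j hij, ← mul_assoc, h1]
    · rw [hEn i j hij, mul_zero]
  · intro i j
    by_cases hij : blk i = blk j
    · rw [hEp i j hij, mul_assoc, h4]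
    · rw [hEn i j hij, zero_mul]
  · intro i j hij
    rw [hEp i j hij, map_mul, h7, h8, ← hbb i j hij]
    exact hff _ _ _ (hb i).symm ((hb i).trans hij)

end ADM
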