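import Pool.Agent.ADM.Blo
import Pool.Agent.ADM.Lif
import Pool.Agent.ADM.Mu
import Pool.Agent.ADM.Cor

/-!
# ADM-ExC

The structure `Ctx` for an ideal of a finite unital ring: assembly of `blo`, `lif`, `mu` and `cor`. The index type is
`Option Q`; the vertex `none` belongs to the idempotent `1 - ∑ e i`. In every block the Teichmueller element of a base
vertex is transported to the other vertices by the matrix units.
-/

namespace ADM

open AD ADN

private theorem exC_char {F : Type} [Field F] [Finite F] {p r : ℕ} (hF : Nat.card F = p ^ r) :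
    (p : F) = 0 := by
  have := Fintype.ofFinite F
  have h1 : ((Fintype.card F : ℕ) : F) = 0 := Nat.cast_card_eq_zero F
  rw [← Nat.card_eq_fintype_card, hF, Nat.cast_pow] at h1
  exact eq_zero_of_pow_eq_zero h1

private theorem exC_ord {p r : ℕ} (hp : p.Prime) (hr : 1 ≤ r) : 1 ≤ ord p r := by
  unfold ord
  split_ifs with h
  · exact le_rfl
  · have h1 : 2 ≤ p ^ r := by
      calc 2 ≤ p := hp.two_le
        _ = p ^ 1 := (pow_one p).symm
        _ ≤ p ^ r := Nat.pow_le_pow_right hp.pos hr
    omega

section conj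

variable {U : Type} [Ring U] {x y v e f : U}

/-- powers of the transported element -/
private theorem conj_pow (hyx : y * x = e) (hev : e * v = v) (m : ℕ) (hm : 1 ≤ m) :
    (x * v * y) ^ m = x * v ^ m * y := by
  induction m, hm using Nat.le_induction with
  | base => rw [pow_one, pow_one]
  | succ m hm ih =>
    rw [pow_succ, ih, pow_succ]
    calc x * v ^ m * y * (x * v * y) = x * v ^ m * ((y * x) * v) * y := by noncomm_ring
      _ = x * (v ^ m * v) * y := by rw [hyx, hev]; noncomm_ring

end conj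

theorem exC (p K : ℕ) (hp : p.Prime) (U : Type) [Ring U] [Finite U] (hU : ((p : ℤ) ^ K) • (1 : U) = 0)
    (A : AddSubgroup U) (hl : ∀ u a, a ∈ A → u * a ∈ A) (hr : ∀ u a, a ∈ A → a * u ∈ A) :
    ∃ (Q : Type) (_ : Fintype Q) (C : Ctx U Q), C.p = p ∧ C.A = A := by
  classical
  obtain ⟨S, iS, π, N, Q, iQ, blk, r, F, iF, iFin, f, κ, hπ, hN, hr1, hF, hrb, horth, hff, hfA, hκ1,
    hκinj, hcor, hdiff, hsum⟩ := blo p K hp U hU A hl hr
  have hfo : OrthogonalIdempotents (fun i => f i i) :=
    ⟨fun i => hff i i i rfl rfl, fun i j hij => horth i j hij⟩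
  obtain ⟨e, heo, heA, hπe⟩ := lif U A hl hr S π hπ N hN Q (fun i => f i i) hfo hfA
  obtain ⟨E, hEs, hEn, hEm, hEl, hEr, hπE⟩ := mu U S π hπ N hN Q blk e heo f hπe hff
  -- the ideal `J`
  let J : AddSubgroup U := A ⊓ π.toAddMonoidHom.ker
  have hJ : ∀ a, a ∈ J ↔ a ∈ A ∧ π a = 0 := fun a => Iff.rfl
  have hJl : ∀ u a, a ∈ J → u * a ∈ J := by
    intro u a ha
    rw [hJ] at ha ⊢
    exact ⟨hl u a ha.1, by rw [map_mul, ha.2, mul_zero]⟩
  have hJr : ∀ u a, a ∈ J → a * u ∈ J := by
    intro u a ha
    rw [hJ] at ha ⊢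
    exact ⟨hr u a ha.1, by rw [map_mul, ha.2, zero_mul]⟩
  have hee : ∀ i, e i * e i = e i := fun i => heo.idem i
  -- Teichmueller elements at all vertices
  have hC : ∀ q, ∃ w : U, e q * w = w ∧ w * e q = w ∧ w ^ ord p (r q) = e q ∧
      (∀ m, ¬ ord p (r q) ∣ m → ∃ u, u * (w ^ m - e q) = e q) ∧
      (∀ x ∈ J, e q * x = x → x * e q = x → ∃ y : ℕ → U,
        (∀ σ, y σ ∈ J ∧ e q * y σ = y σ ∧ y σ * e q = y σ ∧ y σ * w = w ^ p ^ σ * y σ) ∧
          x = ∑ σ ∈ Finset.range (r q), y σ) ∧
      ∀ c : F q, ∃ z : ℕ → ℤ,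
        κ q c = ∑ m ∈ Finset.range (ord p (r q)), z m • (π (e q) * π w ^ m) := fun q =>
    cor p K hp U hU S π hπ N hN J hJl hJr (e q) (hee q) (F q) (r q) (hr1 q) (hF q) (κ q)
      (by rw [hκ1, hπe])
  choose V hV1 hV2 hV3 hV4 hV5 hV6 using hC
  -- base vertices
  let bb : ∀ n : ℕ, (∃ j, blk j = n) → Q := fun n h => Classical.choose h
  have hbb : ∀ n h, blk (bb n h) = n := fun n h => Classical.choose_spec h
  let b : Q → Q := fun i => bb (blk i) ⟨i, rfl⟩
  have hb : ∀ i, blk (b i) = blk i := fun i => hbb _ _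
  have hbc : ∀ i j, blk i = blk j → b i = b j := by
    have h1 : ∀ n m (h : n = m) (hn : ∃ j, blk j = n) (hm : ∃ j, blk j = m),
        bb n hn = bb m hm := by
      intro n m h hn hm
      subst h
      rfl
    intro i j h
    exact h1 _ _ h _ _
  have hrbb : ∀ i, r (b i) = r i := fun i => hrb _ _ (hb i)
  have hE1 : ∀ i, E i (b i) * E (b i) i = e i := fun i => by
    rw [hEm _ _ _ (hb i).symm (hb i), hEs]
  have hE2 : ∀ i, E (b i) i * E i (b i) = e (b i) := fun i => by
    rw [hEm _ _ _ (hb i) (hb i).symm, hEs]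
  let w : Q → U := fun i => E i (b i) * V (b i) * E (b i) i
  have hwpow : ∀ i m, 1 ≤ m → w i ^ m = E i (b i) * V (b i) ^ m * E (b i) i := fun i m hm =>
    conj_pow (hE2 i) (hV1 (b i)) m hm
  have hVe : ∀ q m, 1 ≤ m → e q * V q ^ m = V q ^ m := by
    intro q m hm
    obtain ⟨k, rfl⟩ : ∃ k, m = k + 1 := ⟨m - 1, by omega⟩
    rw [pow_succ', ← mul_assoc, hV1]
  have hwl : ∀ i, e i * w i = w i := by
    intro i
    show e i * (E i (b i) * V (b i) * E (b i) i) = _
    rw [← mul_assoc, ← mul_assoc, hEl]
  have hwr : ∀ i, w i * e i = w i := by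
    intro i
    show E i (b i) * V (b i) * E (b i) i * e i = _
    rw [mul_assoc, hEr]
  have hwE : ∀ i j, blk i = blk j → w i * E i j = E i j * w j := by
    intro i j hij
    show E i (b i) * V (b i) * E (b i) i * E i j = E i j * (E j (b j) * V (b j) * E (b j) j)
    have h1 := hbc i j hij
    rw [mul_assoc, hEm (b i) i j (hb i) hij, ← mul_assoc, ← mul_assoc,
      hEm i j (b j) hij (hb j).symm, h1]
  have hwo : ∀ i, w i ^ ord p (r i) = e i := by
    intro i
    rw [hwpow i _ (exC_ord hp (hr1 i)), ← hrbb i, hV3, hEr, hE1]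
  have hunit : ∀ i m, ¬ ord p (r i) ∣ m → ∃ u, u * (w i ^ m - e i) = e i := by
    intro i m hm
    have hm1 : 1 ≤ m := by
      by_contra h
      have h1 : m = 0 := by omega
      rw [h1] at hm
      exact hm (dvd_zero _)
    rw [← hrbb i] at hm
    obtain ⟨u, hu⟩ := hV4 (b i) m hm
    refine ⟨E i (b i) * u * E (b i) i, ?_⟩
    rw [hwpow i m hm1]
    have h1 : e (b i) * (V (b i) ^ m - e (b i)) = V (b i) ^ m - e (b i) := by
      rw [mul_sub, hVe _ _ hm1, hee]
    calc E i (b i) * u * E (b i) i * (E i (b i) * V (b i) ^ m * E (b i) i - e i)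
        = E i (b i) * u * ((E (b i) i * E i (b i)) * V (b i) ^ m * E (b i) i -
            E (b i) i * e i) := by noncomm_ring
      _ = E i (b i) * u * (e (b i) * V (b i) ^ m * E (b i) i - e (b i) * E (b i) i) := by
          rw [hE2, hEr, hEl]
      _ = E i (b i) * (u * (V (b i) ^ m - e (b i))) * E (b i) i := by
          rw [hVe _ _ hm1]
          nth_rewrite 2 [← hee (b i)]
          rw [hee]
          noncomm_ring
      _ = e i := by rw [hu, hEr, hE1]
  have hhom : ∀ i x, x ∈ J → e i * x = x → x * e i = x → ∃ y : ℕ → U,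
      (∀ σ, y σ ∈ J ∧ e i * y σ = y σ ∧ y σ * e i = y σ ∧ y σ * w i = w i ^ p ^ σ * y σ) ∧
        x = ∑ σ ∈ Finset.range (r i), y σ := by
    intro i x hx h1 h2
    obtain ⟨y, hy, hxy⟩ := hV5 (b i) (E (b i) i * x * E i (b i)) (hJr _ _ (hJl _ _ hx))
      (by rw [← mul_assoc, ← mul_assoc, hEl]) (by rw [mul_assoc, hEr])
    refine ⟨fun σ => E i (b i) * y σ * E (b i) i, fun σ => ?_, ?_⟩
    · obtain ⟨k1, k2, k3, k4⟩ := hy σ
      refine ⟨hJr _ _ (hJl _ _ k1), ?_, ?_, ?_⟩
      · rw [← mul_assoc, ← mul_assoc, hEl]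
      · rw [mul_assoc, hEr]
      · rw [hwpow i _ (Nat.one_le_iff_ne_zero.2 (pow_ne_zero _ hp.ne_zero))]
        show E i (b i) * y σ * E (b i) i * (E i (b i) * V (b i) * E (b i) i) = _
        calc E i (b i) * y σ * E (b i) i * (E i (b i) * V (b i) * E (b i) i)
            = E i (b i) * (y σ * ((E (b i) i * E i (b i)) * V (b i))) * E (b i) i := by
              noncomm_ring
          _ = E i (b i) * (V (b i) ^ p ^ σ * ((E (b i) i * E i (b i)) * y σ)) * E (b i) i := by
              rw [hE2, hV1, k4, k2]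
          _ = _ := by noncomm_ring
    · have h3 : x = E i (b i) * (E (b i) i * x * E i (b i)) * E (b i) i := by
        calc x = e i * x * e i := by rw [h1, h2]
          _ = (E i (b i) * E (b i) i) * x * (E i (b i) * E (b i) i) := by rw [hE1]
          _ = _ := by noncomm_ring
      rw [h3, hxy, Finset.mul_sum, Finset.sum_mul, hrbb]
  -- the image of an element of `A`
  have hfs : ∀ i j s, blk i = blk j → ∃ c : F (b j), f i i * s * f j j =
      f i (b j) * κ (b j) c * f (b j) j := by
    intro i j s hij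
    obtain ⟨c, hc⟩ := hcor (b j) (f (b j) i * s * f j (b j))
    refine ⟨c, ?_⟩
    have g1 : blk i = blk (b j) := hij.trans (hb j).symm
    rw [← hc]
    have h1 : f i (b j) * f (b j) (b j) = f i (b j) := hff _ _ _ g1 rfl
    have h2 : f (b j) (b j) * f (b j) j = f (b j) j := hff _ _ _ rfl (hb j)
    have h3 : f i (b j) * f (b j) i = f i i := hff _ _ _ g1 g1.symm
    have h4 : f j (b j) * f (b j) j = f j j := hff _ _ _ (hb j).symm (hb j)
    calc f i i * s * f j j = (f i (b j) * f (b j) i) * s * (f j (b j) * f (b j) j) := by rw [h3, h4]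
      _ = f i (b j) * (f (b j) i * s * f j (b j)) * f (b j) j := by noncomm_ring
      _ = (f i (b j) * f (b j) (b j)) * (f (b j) i * s * f j (b j)) *
            (f (b j) (b j) * f (b j) j) := by rw [h1, h2]
      _ = _ := by noncomm_ring
  have hpJ : ∀ a ∈ A, (p : ℤ) • a ∈ J := by
    intro a ha
    rw [hJ]
    refine ⟨A.zsmul_mem ha _, ?_⟩
    rw [map_zsmul, hsum a ha, Finset.smul_sum]
    apply Finset.sum_eq_zero
    intro i _
    rw [Finset.smul_sum]
    apply Finset.sum_eq_zero
    intro j _
    by_cases hij : blk i = blk j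
    · obtain ⟨c, hc⟩ := hfs i j (π a) hij
      rw [hc, ← smul_mul_assoc, ← mul_smul_comm, ← map_zsmul]
      have h1 : (p : ℤ) • c = 0 := by
        rw [zsmul_eq_mul, Int.cast_natCast, exC_char (hF (b j)), zero_mul]
      rw [h1, map_zero, mul_zero, zero_mul]
    · rw [hdiff i j hij, smul_zero]
  have hEA : ∀ i j, E i j ∈ A := fun i j => by
    rw [← hEl]
    exact hr _ _ (heA i)
  have hdec : ∀ a ∈ A, ∀ i j, ∃ z : ℕ → ℤ, f i i * π a * f j j =
      ∑ m ∈ Finset.range (ord p (r j)), z m • π (E i j * w j ^ m) := by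
    intro a _ i j
    by_cases hij : blk i = blk j
    · obtain ⟨c, hc⟩ := hfs i j (π a) hij
      obtain ⟨z, hz⟩ := hV6 (b j) c
      refine ⟨z, ?_⟩
      rw [hc, hz, hrbb, Finset.mul_sum, Finset.sum_mul]
      apply Finset.sum_congr rfl
      intro m _
      rw [mul_smul_comm, smul_mul_assoc]
      congr 1
      have g1 : blk i = blk (b j) := hij.trans (hb j).symm
      rw [← hπE i (b j) g1, ← hπE (b j) j (hb j), ← map_pow, ← map_mul, ← map_mul, ← map_mul]
      congr 1
      by_cases hm : m = 0
      · rw [hm, pow_zero, pow_zero, mul_one, mul_one, hEr, hEm _ _ _ g1 (hb j)]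
      · have hm1 : 1 ≤ m := by omega
        rw [hVe _ _ hm1, hwpow j m hm1, ← mul_assoc, ← mul_assoc, hEm i j (b j) hij (hb j).symm]
    · refine ⟨fun _ => 0, ?_⟩
      rw [hdiff i j hij]
      simp
  -- the complement
  have hcoi : CompleteOrthogonalIdempotents (Option.elim · (1 - ∑ i, e i) e) :=
    CompleteOrthogonalIdempotents.option heo
  have h00 : (1 - ∑ i, e i) * (1 - ∑ i, e i) = 1 - ∑ i, e i := hcoi.idem none
  let E' : Option Q → Option Q → U := fun i j =>
    match i, j with
    | some i, some j => E i j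
    | none, none => 1 - ∑ i, e i
    | _, _ => 0
  refine ⟨Option Q, inferInstance,
    { o := none
      p := p
      K := K
      N := N
      e := (Option.elim · (1 - ∑ i, e i) e)
      A := A
      J := J
      hp := hp
      coi := hcoi
      A_left := hl
      A_right := hr
      J_left := hJl
      J_right := hJr
      J_le := inf_le_left
      e_mem := ?_
      pJ := hpJ
      tors := ?_
      nil := ?_
      blk := (Option.elim · 0 fun i => blk i + 1)
      blk_o := ?_
      r := (Option.elim · 1 r)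
      r_pos := ?_
      r_o := rfl
      r_blk := ?_
      w := (Option.elim · (1 - ∑ i, e i) w)
      E := E'
      E_self := ?_
      E_ne := ?_
      E_mul := ?_
      E_left := ?_
      E_right := ?_
      w_left := ?_
      w_right := ?_
      w_E := ?_
      w_pow := ?_
      unit := ?_
      hom := ?_
      dec := ?_ }, rfl, rfl⟩
  · -- e_mem
    rintro (_ | i) hi
    · exact absurd rfl hi
    · exact heA i
  · -- tors
    intro a _
    have h1 : ((p : ℤ) ^ K) • a = (((p : ℤ) ^ K) • (1 : U)) * a := by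
      rw [smul_mul_assoc, one_mul]
    rw [h1, hU, zero_mul]
  · -- nil
    intro l h1 h2
    exact hN l h1 fun x hx => (h2 x hx).2
  · -- blk_o
    rintro (_ | i) hi
    · rfl
    · exact absurd hi (Nat.succ_ne_zero _)
  · -- r_pos
    rintro (_ | i)
    · exact le_rfl
    · exact hr1 i
  · -- r_blk
    rintro (_ | i) (_ | j) hij
    · rfl
    · exact absurd hij.symm (Nat.succ_ne_zero _)
    · exact absurd hij (Nat.succ_ne_zero _)
    · exact hrb i j (Nat.succ_injective hij)
  · -- E_self
    rintro (_ | i)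
    · rfl
    · exact hEs i
  · -- E_ne
    rintro (_ | i) (_ | j) hij
    · exact absurd rfl hij
    · rfl
    · rfl
    · exact hEn i j fun h => hij (congrArg Nat.succ h)
  · -- E_mul
    rintro (_ | i) (_ | j) (_ | k) h1 h2
    · exact h00
    · exact absurd h2.symm (Nat.succ_ne_zero _)
    · exact absurd h1.symm (Nat.succ_ne_zero _)
    · exact absurd h1.symm (Nat.succ_ne_zero _)
    · exact absurd h1 (Nat.succ_ne_zero _)
    · exact absurd h1 (Nat.succ_ne_zero _)
    · exact absurd h2 (Nat.succ_ne_zero _)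
    · exact hEm i j k (Nat.succ_injective h1) (Nat.succ_injective h2)
  · -- E_left
    rintro (_ | i) (_ | j)
    · exact h00
    · exact mul_zero _
    · exact mul_zero _
    · exact hEl i j
  · -- E_right
    rintro (_ | i) (_ | j)
    · exact h00
    · exact zero_mul _
    · exact zero_mul _
    · exact hEr i j
  · -- w_left
    rintro (_ | i)
    · exact h00
    · exact hwl i
  · -- w_right
    rintro (_ | i)
    · exact h00
    · exact hwr i
  · -- w_E
    rintro (_ | i) (_ | j) hij
    · rfl
    · exact absurd hij.symm (Nat.succ_ne_zero _)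
    · exact absurd hij (Nat.succ_ne_zero _)
    · exact hwE i j (Nat.succ_injective hij)
  · -- w_pow
    rintro (_ | i)
    · exact pow_one _
    · exact hwo i
  · -- unit
    rintro (_ | i) m hm
    · exact absurd (one_dvd m) hm
    · exact hunit i m hm
  · -- hom
    rintro (_ | i) x hx h1 h2
    · refine ⟨fun σ => if σ = 0 then x else 0, fun σ => ?_, ?_⟩
      · by_cases hσ : σ = 0
        · subst hσ
          show x ∈ J ∧ (1 - ∑ i, e i) * x = x ∧ x * (1 - ∑ i, e i) = x ∧
            x * (1 - ∑ i, e i) = (1 - ∑ i, e i) ^ p ^ 0 * x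
          refine ⟨hx, h1, h2, ?_⟩
          have h1' : (1 - ∑ i, e i) * x = x := h1
          have h2' : x * (1 - ∑ i, e i) = x := h2
          rw [pow_zero, pow_one, h1', h2']
        · simp only [if_neg hσ]
          exact ⟨J.zero_mem, mul_zero _, zero_mul _, by rw [zero_mul, mul_zero]⟩
      · show x = ∑ σ ∈ Finset.range 1, (if σ = 0 then x else 0)
        simp
    · exact hhom i x hx h1 h2
  · -- dec
    intro a ha
    choose z hz using hdec a ha
    refine ⟨fun i j m => match i, j with
      | some i, some j => z i j m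
      | _, _ => 0, fun j m => rfl, ?_⟩
    have hs1 : (∑ i : Option Q, ∑ j : Option Q,
        ∑ m ∈ Finset.range (ord p ((Option.elim j 1 r : ℕ))),
          (match i, j with
            | some i, some j => z i j m
            | _, _ => (0 : ℤ)) • (E' i j * (Option.elim j (1 - ∑ i, e i) w) ^ m)) =
        ∑ i : Q, ∑ j : Q, ∑ m ∈ Finset.range (ord p (r j)), z i j m • (E i j * w j ^ m) := by
      rw [Fintype.sum_option, Fintype.sum_option]
      have h0 : ∀ j : Q, (∑ m ∈ Finset.range (ord p (r j)),
          (0 : ℤ) • (E' none (some j) * w j ^ m)) = 0 := fun j => by simp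
      have h1 : (∑ m ∈ Finset.range (ord p 1),
          (0 : ℤ) • (E' none none * (1 - ∑ i, e i) ^ m)) = 0 := by simp
      have h2 : ∀ i : Q, (∑ j : Option Q,
        ∑ m ∈ Finset.range (ord p ((Option.elim j 1 r : ℕ))),
          (match (some i : Option Q), j with
            | some i, some j => z i j m
            | _, _ => (0 : ℤ)) • (E' (some i) j * (Option.elim j (1 - ∑ i, e i) w) ^ m)) =
          ∑ j : Q, ∑ m ∈ Finset.range (ord p (r j)), z i j m • (E i j * w j ^ m) := by
        intro i
        rw [Fintype.sum_option]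
        have h3 : (∑ m ∈ Finset.range (ord p 1),
          (0 : ℤ) • (E' (some i) none * (1 - ∑ i, e i) ^ m)) = 0 := by simp
        refine (congrArg₂ (· + ·) h3 rfl).trans ?_
        rw [zero_add]
        rfl
      refine (congrArg₂ (· + ·) (congrArg₂ (· + ·) h1 (Finset.sum_congr rfl fun j _ => h0 j))
        (Finset.sum_congr rfl fun i _ => h2 i)).trans ?_
      rw [Finset.sum_const_zero, add_zero, zero_add]
    refine (hJ _).2 ⟨?_, ?_⟩
    · refine A.sub_mem ha ?_
      refine (show _ ∈ A from ?_)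
      refine Eq.mpr (congrArg (· ∈ A) hs1) ?_
      refine A.sum_mem fun i _ => A.sum_mem fun j _ => A.sum_mem fun m _ => ?_
      exact A.zsmul_mem (hr _ _ (hEA i j)) _
    · rw [map_sub, sub_eq_zero]
      refine Eq.trans ?_ (congrArg π hs1).symm
      rw [map_sum, hsum a ha]
      apply Finset.sum_congr rfl
      intro i _
      rw [map_sum]
      apply Finset.sum_congr rfl
      intro j _
      rw [map_sum, hz i j]
      apply Finset.sum_congr rfl
      intro m _
      rw [map_zsmul]

end ADM
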