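import Pool.Agent.ADM.Dft
import Pool.Agent.ADM.Arith
import Pool.Agent.ADM.Van

/-!
# ADM-T4

Loops next to two opposite edges.

PLAN.  Cubic relation `G` (hC) at `(ρ, k, l)`, multiplied by `e a` on both sides: the path words from `a` to `a` in the letters `0 : a → a`, `1 : a → g`, `2 : g → a` are the
products of the blocks `0` and `(1 2)`; with two or more blocks `(1 2)` the value vanishes (`van`, first pattern: `k`, `l u k ∈ S g g`, `l`, see `rew_two` in Rew.lean).  So
`(*) G [0,1,2] • ρ k l + G [1,2,0] • k l ρ + ∑_{i+j ≥ 2} G (0^i 1 2 0^j) • ρ^i k l ρ^j = 0`, and similarly at `(k, l, ρ)`: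
`(**) G [0,1,2] • k l ρ + G [2,0,1] • ρ k l + ∑_{i+j ≥ 2} ... = 0`.
A product `ρ^i k l ρ^j`, `i + j ≥ 2`, is `ρ * (k' * l')` with `k' = ρ^(i-1) k`, `l' = l ρ^j` if `i ≥ 1`, and `(k * l') * ρ` with `l' = l ρ^(j-1)` if `i = 0`: of the same kind, and
deeper (the total depth of `ρ, k, l` in powers of `J`, as in VanCore.lean, increases).  Downward induction on the total depth in both parts.
* t4a (`r a ≥ 2` because `Tw`): by induction the sums in (*), (**) vanish.  Replace `k` by `w^s k` in (*) (`w = w a`): `ρ w^s = w^(p^σ s) ρ`, so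
  `w^(p^σ s) (G [0,1,2] • ρ k l) + w^s (G [1,2,0] • k l ρ) = 0` for all `s`; `p^σ ≢ 1` modulo `n a` (`pow_modEq_one_iff`), so `dftL` (`X = ⊥`, two terms with exponents
  `p^σ` and `1`) gives `G [0,1,2] • ρ k l = 0`, `ρ k l = 0` (`tors_unit`).  In the same way (**) gives `k l ρ = 0`.
* t4b: let `α = ρ k l`, `β = k l ρ`, `D_ij = ρ^i k l ρ^j`, which commute with `w` by induction for `i + j ≥ 2`.  Replace `ρ` by `w^u ρ = ρ w^u` in (*):
  `G012 w^u α + G120 β w^u + ∑ G_ij w^(u(i+j)) D_ij = 0`; subtract (*) times `w^u` on the right: `G012 (w^u α - α w^u) = - ∑ G_ij (w^(u(i+j)) - w^u) D_ij`.  For `u = 1`: `G012 D`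
  with `D = w α - α w` commutes with `w`, hence `D` commutes with `w` (`tors_unit` for `w D - D w ∈ A`), so by induction on `m`
  `w^m α - α w^m = m w^(m-1) D`; for `m = n a`: `w^n` acts as `e a`, so `n w^(n-1) D = 0`, `D = 0` (multiply by `w`, `n` invertible, `tors_unit`, `n_coprime`).
  So `α` commutes with `w`; by (**) `G012 • β` is a combination of `α` and the `D_ij`, so it commutes with `w`, and so does `β`.
  (If `r a = 1` then `w a = e a` and everything is trivial; the argument above also works.)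
-/

namespace ADM

open AD ADN ADN.Ctx

namespace Base

variable {U : Type} [Ring U] {Q : Type} [Fintype Q] (C : Base U Q)

private theorem t4_dec {W : Type} {a g : W} (hg : g ≠ a) : ∀ w : List (Fin 3),
    pth ![a, g, a] ![g, a, a] a w a → (∃ i, w = List.replicate i 2) ∨
      ∃ i v, w = List.replicate i 2 ++ 0 :: 1 :: v ∧ pth ![a, g, a] ![g, a, a] a v a
  | [], _ => Or.inl ⟨0, rfl⟩
  | k :: w, h => by
    obtain ⟨h1, h2⟩ := h
    fin_cases k
    · right
      change pth ![a, g, a] ![g, a, a] g w a at h2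
      cases w with
      | nil => exact absurd h2 hg
      | cons k' w' =>
        obtain ⟨h3, h4⟩ := h2
        fin_cases k'
        · exact absurd (show g = a from (show a = g from h3).symm) hg
        · exact ⟨0, w', rfl, h4⟩
        · exact absurd (show g = a from (show a = g from h3).symm) hg
    · exact absurd (show g = a from h1) hg
    · change pth ![a, g, a] ![g, a, a] a w a at h2
      rcases t4_dec hg w h2 with ⟨i, rfl⟩ | ⟨i, v, rfl, hv⟩
      · exact Or.inl ⟨i + 1, rfl⟩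
      · exact Or.inr ⟨i + 1, v, rfl, hv⟩

/-- words which visit `g` twice vanish -/
private theorem t4_two (hC : C.Cub) {a g : Q} (hg : g ≠ a) {t t' : U} (ht : C.S a g t)
    (ht' : C.S g a t') (u u' u'' : U) :
    C.e a * (u * (t * (t' * (u' * (t * (t' * u'')))))) * C.e a = 0 := by
  have hid : ∀ i, C.e i * C.e i = C.e i := fun i => C.coi.idem i
  have h1 : C.S a g (C.e a * u * t) := by
    refine ⟨C.J_left _ _ ht.1, ?_, ?_⟩
    · rw [← mul_assoc, ← mul_assoc, hid]
    · rw [mul_assoc, ht.2.2]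
  have h2 : C.S g g (t' * u' * t) := by
    refine ⟨C.J_left _ _ ht.1, ?_, ?_⟩
    · rw [← mul_assoc, ← mul_assoc, ht'.2.1]
    · rw [mul_assoc, ht.2.2]
  have h3 : C.S g a (t' * u'' * C.e a) := by
    refine ⟨C.J_right _ _ (C.J_right _ _ ht'.1), ?_, ?_⟩
    · rw [← mul_assoc, ← mul_assoc, ht'.2.1]
    · rw [mul_assoc, hid]
  have h4 := C.van hC (v₀ := a) (v₁ := g) (v₂ := g) (v₃ := a) (Or.inl ⟨hg.symm, hg, fun h => hg h.2⟩) h1 h2 h3
  rw [← h4]
  noncomm_ring

private theorem t4_pow {a b : Q} {ρ x : U} (hρ : C.S a a ρ) (hx : C.S a b x) (i : ℕ) :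
    C.S a b (ρ ^ i * x) := by
  induction i with
  | zero => rw [pow_zero, one_mul]; exact hx
  | succ i ih => rw [pow_succ', mul_assoc]; exact C.S_mul hρ ih

private theorem t4_pow' {a b : Q} {ρ x : U} (hρ : C.S a a ρ) (hx : C.S b a x) (i : ℕ) :
    C.S b a (x * ρ ^ i) := by
  induction i with
  | zero => rw [pow_zero, mul_one]; exact hx
  | succ i ih => rw [pow_succ, ← mul_assoc]; exact C.S_mul ih hρ

private def t4w (p : ℕ × ℕ) : List (Fin 3) := List.replicate p.1 2 ++ 0 :: 1 :: List.replicate p.2 2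

private theorem t4w_inj : Function.Injective t4w := by
  have h1 : ∀ p : ℕ × ℕ, (t4w p).idxOf 0 = p.1 := by
    intro p
    unfold t4w
    rw [List.idxOf_append_of_notMem (fun h => by
      have := List.eq_of_mem_replicate h
      exact absurd this (by decide)), List.idxOf_cons_self, List.length_replicate, add_zero]
  have h2 : ∀ p : ℕ × ℕ, (t4w p).length = p.1 + (p.2 + 2) := by
    intro p
    unfold t4w
    rw [List.length_append, List.length_cons, List.length_cons, List.length_replicate,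
      List.length_replicate]
  intro p q h
  have h3 := h1 p
  have h4 := h2 p
  rw [h, h1] at h3
  rw [h, h2] at h4
  exact Prod.ext h3.symm (by omega)

private theorem t4_exp {G : List (Fin 3) →₀ ℤ} (h1 : ∀ w ∈ G.support, ∀ i, i ∈ w)
    (h3 : ∀ x : Fin 3 → U, (∀ i, x i ∈ C.A) → (G.sum fun w c => c • w3 x w) = 0) (hC : C.Cub)
    {a g : Q} (hg : g ≠ a) : ∃ c : ℕ × ℕ →₀ ℤ, c (0, 0) = 0 ∧ c (1, 0) = G [2, 0, 1] ∧
      c (0, 1) = G [0, 1, 2] ∧ ∀ ρ k l, C.S a a ρ → C.S a g k → C.S g a l →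
        (c.sum fun p z => z • (ρ ^ p.1 * (k * l) * ρ ^ p.2)) = 0 := by
  classical
  refine ⟨G.comapDomain t4w (t4w_inj.injOn), ?_, rfl, rfl, fun ρ k l hρ hk hl => ?_⟩
  · show G [0, 1] = 0
    by_contra h
    have := h1 _ (Finsupp.mem_support_iff.2 h) 2
    simp at this
  · set c := G.comapDomain t4w (t4w_inj.injOn) with hc
    have hcp : ∀ p, c p = G (t4w p) := fun p => rfl
    have hs : C.Srt ![a, g, a] ![g, a, a] ![k, l, ρ] := by
      intro i
      fin_cases i
      · exact hk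
      · exact hl
      · exact hρ
    have hA : ∀ i : Fin 3, (![k, l, ρ] : Fin 3 → U) i ∈ C.A := by
      intro i
      fin_cases i
      · exact C.S_mem hk
      · exact C.S_mem hl
      · exact C.S_mem hρ
    have h4 : ∑ w ∈ G.support, G w • (C.e a * w3 ![k, l, ρ] w * C.e a) = 0 := by
      have h5 : C.e a * (G.sum fun w c => c • w3 ![k, l, ρ] w) * C.e a = 0 := by
        rw [h3 _ hA, mul_zero, zero_mul]
      rw [← h5, Finsupp.sum]
      simp only [Finset.mul_sum, Finset.sum_mul, mul_smul_comm, smul_mul_assoc]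
    have hD : ∀ p : ℕ × ℕ, C.e a * w3 ![k, l, ρ] (t4w p) * C.e a = ρ ^ p.1 * (k * l) * ρ ^ p.2 := by
      intro p
      have e1 : w3 ![k, l, ρ] (t4w p) = ρ ^ p.1 * (k * l) * ρ ^ p.2 := by
        unfold t4w
        simp only [w3, List.map_append, List.map_cons, List.map_replicate, List.prod_append,
          List.prod_cons, List.prod_replicate]
        show ρ ^ p.1 * (k * (l * ρ ^ p.2)) = _
        simp only [mul_assoc]
      have hS : C.S a a (ρ ^ p.1 * (k * l) * ρ ^ p.2) :=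
        C.t4_pow' hρ (C.t4_pow hρ (C.S_mul hk hl) p.1) p.2
      rw [e1, hS.2.1, hS.2.2]
    have hsub : c.support.image t4w ⊆ G.support := by
      intro w hw
      obtain ⟨p, hp, rfl⟩ := Finset.mem_image.1 hw
      have h5 := Finsupp.mem_support_iff.1 hp
      rw [hcp] at h5
      exact Finsupp.mem_support_iff.2 h5
    have hz : ∀ w ∈ G.support, w ∉ c.support.image t4w →
        G w • (C.e a * w3 ![k, l, ρ] w * C.e a) = 0 := by
      intro w hw hn
      have h0 : C.e a * w3 ![k, l, ρ] w * C.e a = 0 := by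
        by_contra hne
        have hp := C.prod_ne_zero_pth hs w a a hne
        rcases t4_dec hg w hp with ⟨i, rfl⟩ | ⟨i, v, rfl, hv⟩
        · have := List.eq_of_mem_replicate (h1 _ hw 0)
          exact absurd this (by decide)
        · rcases t4_dec hg v hv with ⟨j, rfl⟩ | ⟨j, v', rfl, -⟩
          · apply hn
            refine Finset.mem_image.2 ⟨(i, j), ?_, rfl⟩
            rw [Finsupp.mem_support_iff, hcp]
            exact Finsupp.mem_support_iff.1 hw
          · apply hne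
            have e1 : w3 ![k, l, ρ] (List.replicate i 2 ++ 0 :: 1 :: (List.replicate j 2 ++ 0 :: 1 :: v')) =
                ρ ^ i * (k * (l * (ρ ^ j * (k * (l * w3 ![k, l, ρ] v'))))) := by
              simp only [w3, List.map_append, List.map_cons, List.map_replicate, List.prod_append,
                List.prod_cons, List.prod_replicate]
              rfl
            rw [e1]
            exact C.t4_two hC hg hk hl _ _ _
      rw [h0, smul_zero]
    rw [← Finset.sum_subset hsub hz, Finset.sum_image (fun p _ q _ h => t4w_inj h)] at h4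
    rw [Finsupp.sum, ← h4]
    exact Finset.sum_congr rfl fun p _ => by rw [hD, hcp]

private theorem t4_rel (hC : C.Cub) {a g : Q} (hg : g ≠ a) : ∃ cA cB : ℕ × ℕ →₀ ℤ,
    cA (0, 0) = 0 ∧ cB (0, 0) = 0 ∧ ¬ (C.p : ℤ) ∣ cA (1, 0) ∧ ¬ (C.p : ℤ) ∣ cB (0, 1) ∧
    ∀ ρ k l, C.S a a ρ → C.S a g k → C.S g a l →
      (cA.sum fun p z => z • (ρ ^ p.1 * (k * l) * ρ ^ p.2)) = 0 ∧
      (cB.sum fun p z => z • (ρ ^ p.1 * (k * l) * ρ ^ p.2)) = 0 := by
  classical
  have hC' := hC
  obtain ⟨G, hG1, hG2, hG3⟩ := hC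
  obtain ⟨cB, b0, -, b2, b3⟩ := C.t4_exp hG1 hG3 hC' hg
  have hπ : Function.Injective (![2, 0, 1] : Fin 3 → Fin 3) := by decide
  have hπs : Function.Surjective (![2, 0, 1] : Fin 3 → Fin 3) := by decide
  obtain ⟨cA, a0, a1, -, a3⟩ := C.t4_exp (G := G.mapDomain (List.map (![2, 0, 1] : Fin 3 → Fin 3)))
    (fun w hw i => by
      obtain ⟨w0, hw0, rfl⟩ := Finset.mem_image.1 (Finsupp.mapDomain_support hw)
      obtain ⟨j, rfl⟩ := hπs i
      exact List.mem_map_of_mem (hG1 w0 hw0 j))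
    (fun x hx => by
      rw [Finsupp.sum_mapDomain_index (h := fun w n => n • w3 x w) (fun v => zero_smul ℤ _)
        (fun v m n => add_smul m n _)]
      have h := hG3 (fun i => x ((![2, 0, 1] : Fin 3 → Fin 3) i)) (fun i => hx _)
      rw [← h]
      refine Finsupp.sum_congr fun w _ => ?_
      unfold w3
      rw [List.map_map]
      rfl) hC' hg
  refine ⟨cA, cB, a0, b0, ?_, ?_, fun ρ k l h1 h2 h3 => ⟨a3 ρ k l h1 h2 h3, b3 ρ k l h1 h2 h3⟩⟩
  · rw [a1]
    have h := Finsupp.mapDomain_apply (List.map_injective_iff.2 hπ) G [0, 1, 2]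
    have e : ([0, 1, 2] : List (Fin 3)).map (![2, 0, 1] : Fin 3 → Fin 3) = [2, 0, 1] := rfl
    rw [e] at h
    rw [h]
    exact hG2
  · rw [b2]
    exact hG2

private theorem t4_split (c : ℕ × ℕ →₀ ℤ) (h0 : c (0, 0) = 0) (F : ℕ × ℕ → U) :
    (c.sum fun p z => z • F p) = c (1, 0) • F (1, 0) + c (0, 1) • F (0, 1) +
      ∑ p ∈ c.support.filter (fun p => 2 ≤ p.1 + p.2), c p • F p := by
  classical
  have h1 : ∑ p ∈ c.support.filter (fun p => ¬ 2 ≤ p.1 + p.2), c p • F p =
      ∑ p ∈ ({(1, 0), (0, 1)} : Finset (ℕ × ℕ)), c p • F p := by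
    have e1 : ∑ p ∈ c.support.filter (fun p => ¬ 2 ≤ p.1 + p.2), c p • F p =
        ∑ p ∈ c.support.filter (fun p => ¬ 2 ≤ p.1 + p.2) ∪ {(1, 0), (0, 1)}, c p • F p := by
      refine Finset.sum_subset Finset.subset_union_left fun p hp hn => ?_
      have h2 : p ∈ ({(1, 0), (0, 1)} : Finset (ℕ × ℕ)) := (Finset.mem_union.1 hp).resolve_left hn
      have h3 : c p = 0 := by
        by_contra h4
        apply hn
        rw [Finset.mem_filter]
        refine ⟨Finsupp.mem_support_iff.2 h4, ?_⟩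
        rcases Finset.mem_insert.1 h2 with rfl | h5
        · decide
        · rw [Finset.mem_singleton] at h5
          subst h5
          decide
      rw [h3, zero_smul]
    have e2 : ∑ p ∈ ({(1, 0), (0, 1)} : Finset (ℕ × ℕ)), c p • F p =
        ∑ p ∈ c.support.filter (fun p => ¬ 2 ≤ p.1 + p.2) ∪ {(1, 0), (0, 1)}, c p • F p := by
      refine Finset.sum_subset Finset.subset_union_right fun p hp hn => ?_
      have h2 := (Finset.mem_union.1 hp).resolve_right hn
      rw [Finset.mem_filter] at h2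
      obtain ⟨i, j⟩ := p
      have h3 : ¬ 2 ≤ i + j := h2.2
      rw [Finset.mem_insert, Finset.mem_singleton, Prod.mk.injEq, Prod.mk.injEq] at hn
      have h4 : i = 0 := by omega
      have h5 : j = 0 := by omega
      rw [h4, h5, h0, zero_smul]
    rw [e1, e2]
  rw [Finsupp.sum, ← Finset.sum_filter_add_sum_filter_not c.support (fun p => 2 ≤ p.1 + p.2), h1,
    Finset.sum_pair (by decide), add_comm]

/-- the additive subgroup generated by the products of at least `k` elements of `J` -/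
private def t4J (k : ℕ) : AddSubgroup U :=
  AddSubgroup.closure {u | ∃ l : List U, k ≤ l.length ∧ (∀ x ∈ l, x ∈ C.J) ∧ u = l.prod}

private theorem t4J_one {x : U} (hx : x ∈ C.J) : x ∈ C.t4J 1 :=
  AddSubgroup.subset_closure ⟨[x], by simp, by simpa using hx, by simp⟩

private theorem t4J_unit : (1 : U) ∈ C.t4J 0 :=
  AddSubgroup.subset_closure ⟨[], by simp, by simp, by simp⟩

private theorem t4J_mul {k m : ℕ} {x y : U} (hx : x ∈ C.t4J k) (hy : y ∈ C.t4J m) : x * y ∈ C.t4J (k + m) := by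
  unfold t4J at hx hy
  induction hx using AddSubgroup.closure_induction with
  | mem x hx =>
    obtain ⟨l, hl, hlJ, rfl⟩ := hx
    induction hy using AddSubgroup.closure_induction with
    | mem y hy =>
      obtain ⟨l', hl', hlJ', rfl⟩ := hy
      refine AddSubgroup.subset_closure ⟨l ++ l', ?_, ?_, ?_⟩
      · rw [List.length_append]; omega
      · intro z hz
        rcases List.mem_append.1 hz with h | h
        · exact hlJ z h
        · exact hlJ' z h
      · rw [List.prod_append]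
    | zero => rw [mul_zero]; exact AddSubgroup.zero_mem _
    | add a b _ _ ha hb => rw [mul_add]; exact AddSubgroup.add_mem _ ha hb
    | neg a _ ha => rw [mul_neg]; exact AddSubgroup.neg_mem _ ha
  | zero => rw [zero_mul]; exact AddSubgroup.zero_mem _
  | add a b _ _ ha hb => rw [add_mul]; exact AddSubgroup.add_mem _ ha hb
  | neg a _ ha => rw [neg_mul]; exact AddSubgroup.neg_mem _ ha

private theorem t4J_zero {k : ℕ} (hk : C.N ≤ k) {x : U} (hx : x ∈ C.t4J k) : x = 0 := by
  unfold t4J at hx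
  induction hx using AddSubgroup.closure_induction with
  | mem x hx =>
    obtain ⟨l, hl, hlJ, rfl⟩ := hx
    exact C.nil l (le_trans hk hl) hlJ
  | zero => rfl
  | add a b _ _ ha hb => rw [ha, hb, add_zero]
  | neg a _ ha => rw [ha, neg_zero]

private theorem t4J_left {k : ℕ} (hk : 1 ≤ k) (u : U) {x : U} (hx : x ∈ C.t4J k) : u * x ∈ C.t4J k := by
  unfold t4J at hx
  induction hx using AddSubgroup.closure_induction with
  | mem x hx =>
    obtain ⟨l, hl, hlJ, rfl⟩ := hx
    cases l with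
    | nil =>
      rw [List.length_nil] at hl
      omega
    | cons y l =>
      refine AddSubgroup.subset_closure ⟨(u * y) :: l, hl, ?_, ?_⟩
      · intro z hz
        rcases List.mem_cons.1 hz with rfl | h
        · exact C.J_left _ _ (hlJ y List.mem_cons_self)
        · exact hlJ z (List.mem_cons_of_mem _ h)
      · rw [List.prod_cons, List.prod_cons, mul_assoc]
  | zero => rw [mul_zero]; exact AddSubgroup.zero_mem _
  | add a b _ _ ha hb => rw [mul_add]; exact AddSubgroup.add_mem _ ha hb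
  | neg a _ ha => rw [mul_neg]; exact AddSubgroup.neg_mem _ ha

private theorem t4J_pow {x : U} (hx : x ∈ C.J) (i : ℕ) : x ^ i ∈ C.t4J i := by
  induction i with
  | zero => rw [pow_zero]; exact C.t4J_unit
  | succ i ih => rw [pow_succ]; exact C.t4J_mul ih (C.t4J_one hx)

end Base

namespace Ctx

variable {U : Type} [Ring U] {Q : Type} [Fintype Q] (C : Ctx U Q)

private theorem t4_Sw {a b : Q} {x : U} (hx : C.S a b x) (m : ℕ) : C.S a b (C.w a ^ m * x) := by
  refine ⟨C.J_left _ _ hx.1, C.e_w_pow m hx.2.1, ?_⟩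
  rw [mul_assoc, hx.2.2]

private theorem t4a_main (hC : C.Cub) {a g : Q} (hag : a ≠ g) {σ : ℕ} (hσ : C.Tw a σ) {ρ : U}
    (hρ : C.H a a σ ρ) (n : ℕ) : ∀ m₁ m₂ : ℕ, 1 ≤ m₁ → 1 ≤ m₂ → C.N ≤ m₁ + m₂ + n → ∀ k l : U,
      C.S a g k → C.S g a l → k ∈ C.t4J m₁ → l ∈ C.t4J m₂ → ρ * (k * l) = 0 ∧ (k * l) * ρ = 0 := by
  induction n with
  | zero =>
    intro m₁ m₂ _ _ hN k l _ _ dk dl
    have h1 : k * l = 0 := C.t4J_zero (by omega) (C.t4J_mul dk dl)
    rw [h1, mul_zero, zero_mul]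
    exact ⟨rfl, rfl⟩
  | succ n ih =>
    intro m₁ m₂ hm₁ hm₂ hN k l hk hl dk dl
    have hr2 : 2 ≤ C.r a := by
      have h1 := C.r_pos a
      by_contra h2
      have h3 : C.r a = 1 := by omega
      apply hσ
      rw [h3]
      exact one_dvd _
    obtain ⟨cA, cB, a0, b0, a1, b1, hrel⟩ := C.t4_rel hC hag.symm
    have hD : ∀ k : U, C.S a g k → k ∈ C.t4J m₁ → ∀ p : ℕ × ℕ, 2 ≤ p.1 + p.2 →
        ρ ^ p.1 * (k * l) * ρ ^ p.2 = 0 := by
      rintro k hk dk ⟨i, j⟩ hp
      show ρ ^ i * (k * l) * ρ ^ j = 0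
      have hp' : 2 ≤ i + j := hp
      cases i with
      | zero =>
        obtain ⟨j', rfl⟩ : ∃ j', j = j' + 1 + 1 := ⟨j - 2, by omega⟩
        have h1 := (ih m₁ (m₂ + (j' + 1)) hm₁ (by omega) (by omega) k (l * ρ ^ (j' + 1)) hk
          (C.t4_pow' hρ.1 hl _) dk (C.t4J_mul dl (C.t4J_pow hρ.1.1 _))).2
        have e : ρ ^ 0 * (k * l) * ρ ^ (j' + 1 + 1) = k * (l * ρ ^ (j' + 1)) * ρ := by
          rw [pow_zero, one_mul, pow_succ ρ (j' + 1)]
          simp only [mul_assoc]
        rw [e, h1]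
      | succ i =>
        have h1 := (ih (i + m₁) (m₂ + j) (by omega) (by omega) (by omega) (ρ ^ i * k) (l * ρ ^ j)
          (C.t4_pow hρ.1 hk _) (C.t4_pow' hρ.1 hl _) (C.t4J_mul (C.t4J_pow hρ.1.1 _) dk)
          (C.t4J_mul dl (C.t4J_pow hρ.1.1 _))).1
        have e : ρ ^ (i + 1) * (k * l) * ρ ^ j = ρ * (ρ ^ i * k * (l * ρ ^ j)) := by
          rw [pow_succ']
          simp only [mul_assoc]
        rw [e, h1]
    have hab : ∀ c : ℕ × ℕ →₀ ℤ, c (0, 0) = 0 → (∀ ρ k l, C.S a a ρ → C.S a g k → C.S g a l →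
        (c.sum fun p z => z • (ρ ^ p.1 * (k * l) * ρ ^ p.2)) = 0) → ∀ θ : ℕ,
        C.w a ^ (θ * C.p ^ σ) * (c (1, 0) • (ρ * (k * l))) +
          C.w a ^ (θ * 1) * (c (0, 1) • (k * l * ρ)) = 0 := by
      intro c c0 hc θ
      have h1 := hc ρ (C.w a ^ θ * k) l hρ.1 (C.t4_Sw hk θ) hl
      rw [Base.t4_split c c0 (fun p => ρ ^ p.1 * (C.w a ^ θ * k * l) * ρ ^ p.2)] at h1
      have h2 : ∑ p ∈ c.support.filter (fun p => 2 ≤ p.1 + p.2),
          c p • (ρ ^ p.1 * (C.w a ^ θ * k * l) * ρ ^ p.2) = 0 := by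
        refine Finset.sum_eq_zero fun p hp => ?_
        rw [hD _ (C.t4_Sw hk θ) (C.t4J_left hm₁ _ dk) p (Finset.mem_filter.1 hp).2, smul_zero]
      rw [h2, add_zero, pow_one, pow_zero, one_mul, mul_one] at h1
      rw [mul_smul_comm, mul_smul_comm, mul_one]
      have e1 : ρ * (C.w a ^ θ * k * l) = C.w a ^ (θ * C.p ^ σ) * (ρ * (k * l)) := by
        have h3 := C.H_pow hρ θ
        rw [mul_assoc, ← mul_assoc ρ, h3, mul_comm θ]
        simp only [mul_assoc]
      have e2 : C.w a ^ θ * k * l * ρ = C.w a ^ θ * (k * l * ρ) := by simp only [mul_assoc]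
      rw [e1, e2] at h1
      exact h1
    have hJkl : k * l ∈ C.J := C.J_left _ _ hl.1
    have hdft : ∀ c : ℕ × ℕ →₀ ℤ, c (0, 0) = 0 → (∀ ρ k l, C.S a a ρ → C.S a g k → C.S g a l →
        (c.sum fun p z => z • (ρ ^ p.1 * (k * l) * ρ ^ p.2)) = 0) →
        c (1, 0) • (ρ * (k * l)) = 0 ∧ c (0, 1) • (k * l * ρ) = 0 := by
      intro c c0 hc
      have hSα : C.S a a (ρ * (k * l)) := C.S_mul hρ.1 (C.S_mul hk hl)
      have hSβ : C.S a a (k * l * ρ) := C.S_mul (C.S_mul hk hl) hρ.1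
      have hne : ¬ (1 ≡ C.p ^ σ [MOD C.n a]) := by
        intro h
        rw [C.n_eq hr2] at h
        exact hσ ((pow_modEq_one_iff C.hp hr2 σ).1 h.symm)
      have hne' : ¬ (C.p ^ σ ≡ 1 [MOD C.n a]) := fun h => hne h.symm
      have hy : ∀ t ∈ (Finset.univ : Finset Bool),
          (if t then c (1, 0) • (ρ * (k * l)) else c (0, 1) • (k * l * ρ)) ∈ C.A ∧
          C.e a * (if t then c (1, 0) • (ρ * (k * l)) else c (0, 1) • (k * l * ρ)) =
            (if t then c (1, 0) • (ρ * (k * l)) else c (0, 1) • (k * l * ρ)) := by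
        intro t _
        cases t
        · simp only [Bool.false_eq_true, if_false]
          refine ⟨C.A.zsmul_mem (C.S_mem hSβ) _, ?_⟩
          rw [mul_smul_comm, hSβ.2.1]
        · simp only [if_true]
          refine ⟨C.A.zsmul_mem (C.S_mem hSα) _, ?_⟩
          rw [mul_smul_comm, hSα.2.1]
      have key := fun m₀ => C.dftL a (Finset.univ : Finset Bool) (fun t => if t then C.p ^ σ else 1)
        (fun t => if t then c (1, 0) • (ρ * (k * l)) else c (0, 1) • (k * l * ρ)) hy ⊥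
        (fun u x hx => by
          rw [AddSubgroup.mem_bot] at hx ⊢
          rw [hx, mul_zero]) (fun θ => by
          rw [AddSubgroup.mem_bot, Fintype.sum_bool]
          simp only [Bool.false_eq_true, if_false, if_true]
          exact hab c c0 hc θ) m₀
      constructor
      · have h1 := key (C.p ^ σ)
        rw [AddSubgroup.mem_bot, Finset.sum_filter, Fintype.sum_bool] at h1
        simp only [Bool.false_eq_true, if_false, if_true] at h1
        rw [if_pos (Nat.ModEq.refl _), if_neg hne, add_zero] at h1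
        exact h1
      · have h1 := key 1
        rw [AddSubgroup.mem_bot, Finset.sum_filter, Fintype.sum_bool] at h1
        simp only [Bool.false_eq_true, if_false, if_true] at h1
        rw [if_pos (Nat.ModEq.refl _), if_neg hne', zero_add] at h1
        exact h1
    refine ⟨?_, ?_⟩
    · exact C.tors_unit a1 (C.J_le (C.J_left _ _ hJkl)) (hdft cA a0 fun ρ k l h1 h2 h3 => (hrel ρ k l h1 h2 h3).1).1
    · exact C.tors_unit b1 (C.J_le (C.J_right _ _ hJkl)) (hdft cB b0 fun ρ k l h1 h2 h3 => (hrel ρ k l h1 h2 h3).2).2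

theorem t4a (hC : C.Cub) {a g : Q} (hag : a ≠ g) {σ : ℕ} (hσ : C.Tw a σ) {ρ k l : U}
    (hρ : C.H a a σ ρ) (hk : C.S a g k) (hl : C.S g a l) : ρ * (k * l) = 0 ∧ (k * l) * ρ = 0 :=
  C.t4a_main hC hag hσ hρ C.N 1 1 le_rfl le_rfl (by omega) k l hk hl (C.t4J_one hk.1) (C.t4J_one hl.1)

private theorem t4_cw {a : Q} {x : U} (hx : C.H a a 0 x) : Commute (C.w a) x := by
  have h := hx.2 rfl
  rw [pow_zero, pow_one] at h
  exact h.symm

private theorem t4_ndvd (a : Q) : ¬ (C.p : ℤ) ∣ (C.n a : ℤ) := by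
  intro h
  have h1 : C.p ∣ C.n a := Int.natCast_dvd_natCast.1 h
  have h2 := Nat.dvd_gcd h1 (dvd_refl C.p)
  rw [(C.n_coprime a).gcd_eq_one] at h2
  exact C.hp.one_lt.ne' (Nat.dvd_one.1 h2)

/-- commuting up to a factor prime to `p` -/
private theorem t4_comm {a : Q} {z : ℤ} (hz : ¬ (C.p : ℤ) ∣ z) {x : U} (hx : x ∈ C.A)
    (h : Commute (C.w a) (z • x)) : Commute (C.w a) x := by
  have h1 : C.w a * (z • x) = (z • x) * C.w a := h
  rw [mul_smul_comm, smul_mul_assoc] at h1
  have h2 : z • (C.w a * x - x * C.w a) = 0 := by rw [smul_sub, h1, sub_self]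
  exact sub_eq_zero.1 (C.tors_unit hz (C.A.sub_mem (C.A_left _ _ hx) (C.A_right _ _ hx)) h2)

private theorem t4b_main (hC : C.Cub) {a g : Q} (hag : a ≠ g) (n : ℕ) :
    ∀ m₁ m₂ : ℕ, 1 ≤ m₁ → 1 ≤ m₂ → C.N ≤ m₁ + m₂ + n → ∀ ρ k l : U, C.H a a 0 ρ →
      C.S a g k → C.S g a l → k ∈ C.t4J m₁ → l ∈ C.t4J m₂ →
      Commute (C.w a) (ρ * (k * l)) ∧ Commute (C.w a) ((k * l) * ρ) := by
  induction n with
  | zero =>
    intro m₁ m₂ _ _ hN ρ k l _ _ _ dk dl
    have h1 : k * l = 0 := C.t4J_zero (by omega) (C.t4J_mul dk dl)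
    rw [h1, mul_zero, zero_mul]
    exact ⟨Commute.zero_right _, Commute.zero_right _⟩
  | succ n ih =>
    intro m₁ m₂ hm₁ hm₂ hN ρ k l hρ hk hl dk dl
    obtain ⟨cA, cB, a0, b0, a1, b1, hrel⟩ := C.t4_rel hC hag.symm
    have hwρ := C.t4_cw hρ
    have hD : ∀ p : ℕ × ℕ, 2 ≤ p.1 + p.2 → Commute (C.w a) (ρ ^ p.1 * (k * l) * ρ ^ p.2) := by
      rintro ⟨i, j⟩ hp
      show Commute (C.w a) (ρ ^ i * (k * l) * ρ ^ j)
      have hp' : 2 ≤ i + j := hp
      cases i with
      | zero =>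
        obtain ⟨j', rfl⟩ : ∃ j', j = j' + 1 + 1 := ⟨j - 2, by omega⟩
        have h1 := (ih m₁ (m₂ + (j' + 1)) hm₁ (by omega) (by omega) ρ k (l * ρ ^ (j' + 1)) hρ hk
          (C.t4_pow' hρ.1 hl _) dk (C.t4J_mul dl (C.t4J_pow hρ.1.1 _))).2
        have e : ρ ^ 0 * (k * l) * ρ ^ (j' + 1 + 1) = k * (l * ρ ^ (j' + 1)) * ρ := by
          rw [pow_zero, one_mul, pow_succ ρ (j' + 1)]
          simp only [mul_assoc]
        rw [e]
        exact h1
      | succ i =>
        have h1 := (ih (i + m₁) (m₂ + j) (by omega) (by omega) (by omega) ρ (ρ ^ i * k) (l * ρ ^ j) hρ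
          (C.t4_pow hρ.1 hk _) (C.t4_pow' hρ.1 hl _) (C.t4J_mul (C.t4J_pow hρ.1.1 _) dk)
          (C.t4J_mul dl (C.t4J_pow hρ.1.1 _))).1
        have e : ρ ^ (i + 1) * (k * l) * ρ ^ j = ρ * (ρ ^ i * k * (l * ρ ^ j)) := by
          rw [pow_succ']
          simp only [mul_assoc]
        rw [e]
        exact h1
    have hSα : C.S a a (ρ * (k * l)) := C.S_mul hρ.1 (C.S_mul hk hl)
    have hSβ : C.S a a (k * l * ρ) := C.S_mul (C.S_mul hk hl) hρ.1
    have hrelρ : ∀ c : ℕ × ℕ →₀ ℤ, c (0, 0) = 0 → (∀ ρ k l, C.S a a ρ → C.S a g k → C.S g a l →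
        (c.sum fun p z => z • (ρ ^ p.1 * (k * l) * ρ ^ p.2)) = 0) →
        c (1, 0) • (ρ * (k * l)) + c (0, 1) • (k * l * ρ) +
          ∑ p ∈ c.support.filter (fun p => 2 ≤ p.1 + p.2), c p • (ρ ^ p.1 * (k * l) * ρ ^ p.2) = 0 := by
      intro c c0 hc
      have h1 := hc ρ k l hρ.1 hk hl
      rw [Base.t4_split c c0 (fun p => ρ ^ p.1 * (k * l) * ρ ^ p.2)] at h1
      rw [pow_one, pow_zero, one_mul, mul_one] at h1
      exact h1
    -- the commutator of `w` and `α`
    have hαw : Commute (C.w a) (ρ * (k * l)) := by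
      have E1 := hrelρ cA a0 fun ρ k l h1 h2 h3 => (hrel ρ k l h1 h2 h3).1
      have hSwρ : C.S a a (C.w a * ρ) := by
        have h := C.t4_Sw hρ.1 1
        rwa [pow_one] at h
      have E2 := (hrel (C.w a * ρ) k l hSwρ hk hl).1
      rw [Base.t4_split cA a0 (fun p => (C.w a * ρ) ^ p.1 * (k * l) * (C.w a * ρ) ^ p.2)] at E2
      rw [pow_one, pow_zero, one_mul, mul_one] at E2
      have hp : ∀ p : ℕ × ℕ, (C.w a * ρ) ^ p.1 * (k * l) * (C.w a * ρ) ^ p.2 =
          C.w a ^ p.1 * (ρ ^ p.1 * (k * l) * ρ ^ p.2) * C.w a ^ p.2 := by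
        intro p
        rw [hwρ.mul_pow, hwρ.mul_pow, (hwρ.pow_pow p.2 p.2).eq]
        simp only [mul_assoc]
      have E3 : (cA (1, 0) • (ρ * (k * l)) + cA (0, 1) • (k * l * ρ) +
          ∑ p ∈ cA.support.filter (fun p => 2 ≤ p.1 + p.2), cA p • (ρ ^ p.1 * (k * l) * ρ ^ p.2)) *
            C.w a = 0 := by rw [E1, zero_mul]
      rw [add_mul, add_mul, smul_mul_assoc, smul_mul_assoc, Finset.sum_mul] at E3
      have e1 : C.w a * ρ * (k * l) = C.w a * (ρ * (k * l)) := mul_assoc _ _ _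
      have e2 : k * l * (C.w a * ρ) = k * l * ρ * C.w a := by
        rw [hwρ.eq]
        simp only [mul_assoc]
      rw [e1, e2] at E2
      have E4 : cA (1, 0) • (C.w a * (ρ * (k * l)) - ρ * (k * l) * C.w a) =
          ∑ p ∈ cA.support.filter (fun p => 2 ≤ p.1 + p.2),
            (cA p • (ρ ^ p.1 * (k * l) * ρ ^ p.2) * C.w a -
              cA p • ((C.w a * ρ) ^ p.1 * (k * l) * (C.w a * ρ) ^ p.2)) := by
        rw [Finset.sum_sub_distrib, smul_sub]
        have h5 := E2.trans E3.symm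
        have h6 : cA (1, 0) • (C.w a * (ρ * (k * l))) +
            ∑ p ∈ cA.support.filter (fun p => 2 ≤ p.1 + p.2),
              cA p • ((C.w a * ρ) ^ p.1 * (k * l) * (C.w a * ρ) ^ p.2) =
            cA (1, 0) • (ρ * (k * l) * C.w a) +
            ∑ p ∈ cA.support.filter (fun p => 2 ≤ p.1 + p.2),
              cA p • (ρ ^ p.1 * (k * l) * ρ ^ p.2) * C.w a := by
          rw [add_right_comm, add_right_comm (cA (1, 0) • (ρ * (k * l) * C.w a))] at h5
          exact add_right_cancel h5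
        rw [sub_eq_sub_iff_add_eq_add, h6, add_comm]
      have hcD : Commute (C.w a) (cA (1, 0) • (C.w a * (ρ * (k * l)) - ρ * (k * l) * C.w a)) := by
        rw [E4]
        refine Commute.sum_right _ _ _ fun p hpm => ?_
        have h5 := hD p (Finset.mem_filter.1 hpm).2
        refine Commute.sub_right ?_ ?_
        · exact (h5.smul_right _).mul_right (Commute.refl _)
        · rw [hp]
          exact Commute.smul_right ((((Commute.refl (C.w a)).pow_right _).mul_right h5).mul_right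
            ((Commute.refl (C.w a)).pow_right _)) _
      have hαA : ρ * (k * l) ∈ C.A := C.S_mem hSα
      have hDw : Commute (C.w a) (C.w a * (ρ * (k * l)) - ρ * (k * l) * C.w a) :=
        C.t4_comm a1 (C.A.sub_mem (C.A_left _ _ hαA) (C.A_right _ _ hαA)) hcD
      set D := C.w a * (ρ * (k * l)) - ρ * (k * l) * C.w a with hDdef
      have hm : ∀ m : ℕ, C.w a ^ (m + 1) * (ρ * (k * l)) - ρ * (k * l) * C.w a ^ (m + 1) =
          ((m + 1 : ℕ) : ℤ) • (C.w a ^ m * D) := by
        intro m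
        induction m with
        | zero =>
          rw [zero_add, pow_one, pow_zero, one_mul, Nat.cast_one, one_smul]
        | succ m ihm =>
          have h5 : C.w a ^ (m + 1 + 1) * (ρ * (k * l)) - ρ * (k * l) * C.w a ^ (m + 1 + 1) =
              C.w a * (C.w a ^ (m + 1) * (ρ * (k * l)) - ρ * (k * l) * C.w a ^ (m + 1)) +
                D * C.w a ^ (m + 1) := by
            rw [hDdef, pow_succ' (C.w a) (m + 1)]
            noncomm_ring
          have h6 : D * C.w a ^ (m + 1) = C.w a ^ (m + 1) * D := ((hDw.pow_left (m + 1)).eq).symm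
          rw [h5, ihm, h6, mul_smul_comm, ← mul_assoc, ← pow_succ']
          push_cast
          rw [add_smul ((m : ℤ) + 1) 1, one_smul]
      have hn := C.n_pos a
      have h5 := hm (C.n a - 1)
      rw [Nat.sub_add_cancel hn] at h5
      have h6 : C.w a ^ C.n a = C.e a := C.w_pow a
      rw [h6, hSα.2.1, hSα.2.2, sub_self] at h5
      have hDA : D ∈ C.A := C.A.sub_mem (C.A_left _ _ hαA) (C.A_right _ _ hαA)
      have h7 := C.tors_unit (C.t4_ndvd a) (C.A_left _ _ hDA) h5.symm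
      have h8 : C.e a * D = D := by
        rw [hDdef, mul_sub, ← mul_assoc (C.e a) (C.w a), C.w_left, ← mul_assoc (C.e a) (ρ * (k * l)),
          hSα.2.1]
      have h9 : D = 0 := by
        rw [← h8, ← h6, ← Nat.sub_add_cancel hn, pow_succ', mul_assoc, h7, mul_zero]
      exact sub_eq_zero.1 h9
    refine ⟨hαw, ?_⟩
    have E1 := hrelρ cB b0 fun ρ k l h1 h2 h3 => (hrel ρ k l h1 h2 h3).2
    have E5 : cB (0, 1) • (k * l * ρ) = -(cB (1, 0) • (ρ * (k * l)) +
        ∑ p ∈ cB.support.filter (fun p => 2 ≤ p.1 + p.2), cB p • (ρ ^ p.1 * (k * l) * ρ ^ p.2)) := by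
      rw [eq_neg_iff_add_eq_zero, ← add_assoc, add_comm (cB (0, 1) • (k * l * ρ))]
      exact E1
    refine C.t4_comm b1 (C.S_mem hSβ) ?_
    rw [E5]
    refine Commute.neg_right (Commute.add_right (hαw.smul_right _) ?_)
    refine Commute.sum_right _ _ _ fun p hpm => ?_
    exact (hD p (Finset.mem_filter.1 hpm).2).smul_right _

theorem t4b (hC : C.Cub) {a g : Q} (hag : a ≠ g) {ρ k l : U}
    (hρ : C.H a a 0 ρ) (hk : C.S a g k) (hl : C.S g a l) :
    C.H a a 0 (ρ * (k * l)) ∧ C.H a a 0 ((k * l) * ρ) := by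
  obtain ⟨h1, h2⟩ := C.t4b_main hC hag C.N 1 1 le_rfl le_rfl (by omega) ρ k l hρ hk hl
    (C.t4J_one hk.1) (C.t4J_one hl.1)
  refine ⟨⟨C.S_mul hρ.1 (C.S_mul hk hl), fun _ => ?_⟩, ⟨C.S_mul (C.S_mul hk hl) hρ.1, fun _ => ?_⟩⟩
  · rw [pow_zero, pow_one]
    exact h1.symm.eq
  · rw [pow_zero, pow_one]
    exact h2.symm.eq

end Ctx

end ADM
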