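import Pool.Agent.ADM.NvB
import Pool.Agent.ADM.T4
import Pool.Agent.ADM.Dft
import Pool.Agent.ADM.Nest

/-!
# ADM-F4a

Words with arrows with exactly two letters `k : a → g`, `l : g → a`.

PLAN.  `a ≠ g` are `NM`, so their blocks are different; `w = w a`, `n = n a`, `r = r a`.  A word `q` with letter set `{k, l}` and nonzero value is a path from `a` to `a` (`nv_bpth`, `NM`), so
it alternates; if it has length `≥ 4` it visits `g` twice and vanishes (`van`, pattern `a → g → g → a`); so `q = (i, [(k, j), (l, j')])`, with the value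
`w^(θ_a i) * (r k * w g ^ (θ_g j) * r l) * w^(θ_a j')`.
1. Gauge: for fixed `γ₀` apply the hypothesis to `r k * w g ^ ((n_g - 1) t γ₀)` and `θ_g = t`, sum over `t < n_g` (`gs`): `∑_{j ≡ γ₀} z_q w^(θ i) Y w^(θ j') ∈ V 0` for all `θ`, `Y = r k * r l`,
   and all `r` (the same for `V 1` with `c'`, `V 2` with `c + c'`).
2. For `τ < r` and `y ∈ S a a` let `Π_τ y = m • ∑_{i<n} w^((n-1) i p^τ) y w^i` (`m` an inverse of `n` modulo `p^K`), the component of twist `τ`: `Π_τ (w^α y w^β) = w^(α + p^τ β) Π_τ y`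
   (shift of the summation index), `Π_τ y` is homogeneous of twist `τ`, `Π_τ` maps the ideals `V i` into themselves, and `y = ∑_{τ<r} Π_τ y` (write `y = ∑ y_σ` by `C.hom`; `Π_τ y_σ = y_σ` if `σ = τ` and `0` for
   `σ ≠ τ`, both `< r`: `p^σ ≢ p^τ` modulo `n`, `gs`; `pow_modEq_iff` if `r ≥ 2`).
   So `∑_{j ≡ γ₀} z_q w^(θ (i + p^τ j')) Π_τ Y ∈ V 0`; `dftL`: `Z • Π_τ Y ∈ V 0` with the integer `Z = ∑_{j ≡ γ₀, i + p^τ j' ≡ m₀} z_q`; similarly for `V 1`, `V 2`.  `nest` with `M = {Π_τ (r k * r l)}`: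
   `Z • Π_τ Y = 0` for all `r`, `τ < r`, `m₀`, `γ₀`.
3. `xval = ∑_{γ₀} ∑_τ ∑_{m₀} w^(θ m₀) Z_{γ₀,τ,m₀} • Π_τ (r k * w g ^ (θ_g γ₀) * r l) = 0` (the classes modulo `n_g`, `n`).
-/

namespace ADM

open AD ADN ADN.Ctx

namespace Ctx

variable {U : Type} [Ring U] {Q : Type} [Fintype Q] (C : Ctx U Q)

private theorem f4a_wr {a g : Q} {x : U} (hx : C.S a g x) (m : ℕ) : C.S a g (x * C.w g ^ m) := by
  refine ⟨C.J_right _ _ hx.1, ?_, w_pow_e C m hx.2.2⟩
  rw [← mul_assoc, hx.2.1]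

private theorem f4a_wl {a g : Q} {x : U} (hx : C.S a g x) (m : ℕ) : C.S a g (C.w a ^ m * x) := by
  refine ⟨C.J_left _ _ hx.1, e_w_pow C m hx.2.1, ?_⟩
  rw [mul_assoc, hx.2.2]

private theorem f4a_final (a : Q) {X : AddSubgroup U} {x : U} (hx : x ∈ C.A)
    (h : (C.n a : ℤ) • x ∈ X) : x ∈ X := by
  have hn : ¬ (C.p : ℤ) ∣ (C.n a : ℤ) := by
    intro h
    have h1 : C.p ∣ C.n a := Int.natCast_dvd_natCast.1 h
    have h2 := Nat.dvd_gcd h1 (dvd_refl C.p)
    rw [(n_coprime C a).gcd_eq_one] at h2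
    exact C.hp.one_lt.ne' (Nat.dvd_one.1 h2)
  obtain ⟨m, hm⟩ := C.inv_mod hn
  rw [← hm x hx, mul_smul]
  exact X.zsmul_mem h m

private theorem f4a_mod (a : Q) (m m₀ : ℕ) : C.n a ∣ (C.n a - 1) * m₀ + m ↔ m ≡ m₀ [MOD C.n a] := by
  have hn := n_pos C a
  have e1 : (C.n a - 1) * m₀ + m₀ = C.n a * m₀ := by
    obtain ⟨j, hj⟩ := Nat.exists_eq_succ_of_ne_zero hn.ne'
    rw [hj, Nat.succ_sub_one, Nat.succ_mul]
  constructor
  · intro h
    have h1 : (C.n a - 1) * m₀ + m ≡ (C.n a - 1) * m₀ + m₀ [MOD C.n a] := by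
      rw [e1]
      exact ((Nat.modEq_zero_iff_dvd.2 h)).trans (Nat.modEq_zero_iff_dvd.2 (Dvd.intro _ rfl)).symm
    exact Nat.ModEq.add_left_cancel' _ h1
  · intro h
    have h1 : (C.n a - 1) * m₀ + m ≡ (C.n a - 1) * m₀ + m₀ [MOD C.n a] := Nat.ModEq.add_left _ h
    rw [e1] at h1
    exact Nat.modEq_zero_iff_dvd.1 (h1.trans (Nat.modEq_zero_iff_dvd.2 (Dvd.intro _ rfl)))

/-- the Fourier transform in the middle -/
private theorem f4a_in {a g : Q} {τ : Type} (s : Finset τ) (J : τ → ℕ) (A B : τ → U) (X : AddSubgroup U)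
    {y : U} (hy : C.S g a y)
    (h : ∀ x, C.S a g x → ∀ t, ∑ q ∈ s, A q * (x * C.w g ^ (t * J q) * y) * B q ∈ X) {x : U}
    (hx : C.S a g x) (γ₀ : ℕ) :
    ∑ q ∈ s with J q ≡ γ₀ [MOD C.n g], A q * (x * y) * B q ∈ X := by
  classical
  refine f4a_final C g (sum_mem fun t _ => C.A_right _ _ (C.A_left _ _ (C.J_le (C.J_left _ _ hy.1)))) ?_
  have hS : ∑ t ∈ Finset.range (C.n g), ∑ q ∈ s, A q * (x * C.w g ^ ((C.n g - 1) * t * γ₀) *
      C.w g ^ (t * J q) * y) * B q ∈ X := sum_mem fun t _ => h _ (f4a_wr C hx _) t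
  have key : ∑ t ∈ Finset.range (C.n g), ∑ q ∈ s, A q * (x * C.w g ^ ((C.n g - 1) * t * γ₀) *
      C.w g ^ (t * J q) * y) * B q =
      (C.n g : ℤ) • ∑ q ∈ s with J q ≡ γ₀ [MOD C.n g], A q * (x * y) * B q := by
    rw [Finset.sum_comm, Finset.smul_sum, Finset.sum_filter]
    refine Finset.sum_congr rfl fun q _ => ?_
    have h1 : ∀ t, A q * (x * C.w g ^ ((C.n g - 1) * t * γ₀) * C.w g ^ (t * J q) * y) * B q =
        A q * (x * C.w g ^ (t * ((C.n g - 1) * γ₀ + J q)) * y) * B q := by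
      intro t
      rw [mul_assoc x, ← pow_add]
      have h2 : (C.n g - 1) * t * γ₀ + t * J q = t * ((C.n g - 1) * γ₀ + J q) := by ring
      rw [h2]
    simp_rw [h1]
    by_cases hm : J q ≡ γ₀ [MOD C.n g]
    · rw [if_pos hm]
      have h2 : ∀ t ∈ Finset.range (C.n g), A q * (x * C.w g ^ (t * ((C.n g - 1) * γ₀ + J q)) * y) * B q =
          A q * (x * y) * B q := by
        intro t _
        have h3 : t * ((C.n g - 1) * γ₀ + J q) ≡ 0 [MOD C.n g] :=
          Nat.modEq_zero_iff_dvd.2 (Dvd.dvd.mul_left ((f4a_mod C g _ _).2 hm) t)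
        rw [w_pow_right C h3 hx.2.2, pow_zero, mul_one]
      rw [Finset.sum_congr rfl h2, Finset.sum_const, Finset.card_range, natCast_zsmul]
    · rw [if_neg hm, ← Finset.sum_mul, ← Finset.mul_sum, ← Finset.sum_mul]
      have h2 : ∀ t ∈ Finset.range (C.n g), x * C.w g ^ (t * ((C.n g - 1) * γ₀ + J q)) =
          x * (C.e g * C.w g ^ (t * ((C.n g - 1) * γ₀ + J q))) := by
        intro t _
        rw [← mul_assoc, hx.2.2]
      rw [Finset.sum_congr rfl h2, ← Finset.mul_sum, gs C g (fun h => hm ((f4a_mod C g _ _).1 h)),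
        mul_zero, zero_mul, mul_zero, zero_mul]
  rw [← key]
  exact hS

/-- the homogeneous components -/
private theorem f4a_comp (a : Q) {x : U} (hx : C.S a a x) : ∃ y : ℕ → U,
    (∀ σ, C.H a a σ (y σ)) ∧ x = ∑ σ ∈ Finset.range (C.r a), y σ := by
  obtain ⟨y, h1, h2⟩ := C.hom a x hx.1 hx.2.1 hx.2.2
  exact ⟨y, fun σ => ⟨⟨(h1 σ).1, (h1 σ).2.1, (h1 σ).2.2.1⟩, fun _ => (h1 σ).2.2.2⟩, h2⟩

private theorem f4a_term {a : Q} {Y : U} {y : ℕ → U} (hy : ∀ σ, C.H a a σ (y σ))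
    (hY : Y = ∑ σ ∈ Finset.range (C.r a), y σ) (θ i u j : ℕ) (z : ℤ) :
    (z • C.w a ^ (θ * i)) * (Y * C.w a ^ u) * C.w a ^ (θ * j) =
      ∑ σ ∈ Finset.range (C.r a), C.w a ^ (u * C.p ^ σ) * (z • (C.w a ^ (θ * (i + C.p ^ σ * j)) * y σ)) := by
  rw [hY, Finset.sum_mul, Finset.mul_sum, Finset.sum_mul]
  refine Finset.sum_congr rfl fun σ _ => ?_
  rw [mul_assoc (z • C.w a ^ (θ * i)), mul_assoc (y σ), ← pow_add, H_pow C (hy σ), smul_mul_assoc,
    mul_smul_comm, ← mul_assoc, ← mul_assoc, ← pow_add, ← pow_add]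
  congr 3
  ring

private theorem f4a_eqσ {a : Q} {σ τ : ℕ} (hσ : σ < C.r a) (hτ : τ < C.r a)
    (h : C.p ^ σ ≡ C.p ^ τ [MOD C.n a]) : σ = τ := by
  rcases Nat.lt_or_ge (C.r a) 2 with h2 | h2
  · omega
  · rw [n_eq C h2] at h
    exact ((pow_modEq_iff C.hp h2 σ τ).1 h).eq_of_lt_of_lt hσ hτ

private theorem f4a_core {a g : Q} {τ : Type} (s : Finset τ) (I J I' : τ → ℕ) (z : τ → ℤ)
    (X : AddSubgroup U) (hXl : ∀ u x, x ∈ X → u * x ∈ X)
    (h : ∀ x y, C.S a g x → C.S g a y → ∀ θ t,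
      ∑ q ∈ s, (z q • C.w a ^ (θ * I q)) * (x * C.w g ^ (t * J q) * y) * C.w a ^ (θ * I' q) ∈ X)
    {x₀ y₀ : U} (hx : C.S a g x₀) (hy : C.S g a y₀) {y : ℕ → U} (hc : ∀ σ, C.H a a σ (y σ))
    (hY : x₀ * y₀ = ∑ σ ∈ Finset.range (C.r a), y σ) (γ₀ σ₀ m₀ : ℕ) (hσ₀ : σ₀ < C.r a) :
    (∑ q ∈ s with J q ≡ γ₀ [MOD C.n g] ∧ I q + C.p ^ σ₀ * I' q ≡ m₀ [MOD C.n a], z q) • y σ₀ ∈ X := by
  classical
  have h1 : ∀ θ u, ∑ q ∈ s with J q ≡ γ₀ [MOD C.n g],
      (z q • C.w a ^ (θ * I q)) * (x₀ * (y₀ * C.w a ^ u)) * C.w a ^ (θ * I' q) ∈ X := by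
    intro θ u
    exact f4a_in C s J (fun q => z q • C.w a ^ (θ * I q)) (fun q => C.w a ^ (θ * I' q)) X
      (f4a_wr C hy u) (fun x hx t => h x _ hx (f4a_wr C hy u) θ t) hx γ₀
  have h2 : ∀ θ, ∑ q ∈ s with J q ≡ γ₀ [MOD C.n g],
      z q • (C.w a ^ (θ * (I q + C.p ^ σ₀ * I' q)) * y σ₀) ∈ X := by
    intro θ
    have h3 := dftL C a ((s.filter fun q => J q ≡ γ₀ [MOD C.n g]) ×ˢ Finset.range (C.r a))
      (fun t : τ × ℕ => C.p ^ t.2)
      (fun t : τ × ℕ => z t.1 • (C.w a ^ (θ * (I t.1 + C.p ^ t.2 * I' t.1)) * y t.2)) (fun t _ => by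
        refine ⟨C.A.zsmul_mem (C.A_left _ _ (C.J_le (hc t.2).1.1)) _, ?_⟩
        show C.e a * (z t.1 • (C.w a ^ (θ * (I t.1 + C.p ^ t.2 * I' t.1)) * y t.2)) =
          z t.1 • (C.w a ^ (θ * (I t.1 + C.p ^ t.2 * I' t.1)) * y t.2)
        rw [mul_smul_comm, e_w_pow C _ (hc t.2).1.2.1]) X hXl (fun u => by
        rw [Finset.sum_product]
        have h4 := h1 θ u
        have h5 : ∀ q ∈ s.filter fun q => J q ≡ γ₀ [MOD C.n g],
            (z q • C.w a ^ (θ * I q)) * (x₀ * (y₀ * C.w a ^ u)) * C.w a ^ (θ * I' q) =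
            ∑ σ ∈ Finset.range (C.r a), C.w a ^ (u * C.p ^ σ) *
              (z q • (C.w a ^ (θ * (I q + C.p ^ σ * I' q)) * y σ)) := by
          intro q _
          rw [← mul_assoc x₀]
          exact f4a_term C hc hY θ (I q) u (I' q) (z q)
        rw [Finset.sum_congr rfl h5] at h4
        exact h4) (C.p ^ σ₀)
    have h6 : ((s.filter fun q => J q ≡ γ₀ [MOD C.n g]) ×ˢ Finset.range (C.r a)).filter
        (fun t : τ × ℕ => C.p ^ t.2 ≡ C.p ^ σ₀ [MOD C.n a]) =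
        (s.filter fun q => J q ≡ γ₀ [MOD C.n g]) ×ˢ {σ₀} := by
      ext ⟨q, σ⟩
      simp only [Finset.mem_filter, Finset.mem_product, Finset.mem_range, Finset.mem_singleton]
      constructor
      · rintro ⟨⟨h7, h8⟩, h9⟩
        exact ⟨h7, f4a_eqσ C h8 hσ₀ h9⟩
      · rintro ⟨h7, rfl⟩
        exact ⟨⟨h7, hσ₀⟩, Nat.ModEq.refl _⟩
    rw [h6, Finset.sum_product] at h3
    simpa only [Finset.sum_singleton] using h3
  have h7 := dftL C a (s.filter fun q => J q ≡ γ₀ [MOD C.n g]) (fun q => I q + C.p ^ σ₀ * I' q)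
    (fun q => z q • y σ₀) (fun q _ => by
      refine ⟨C.A.zsmul_mem (C.J_le (hc σ₀).1.1) _, ?_⟩
      show C.e a * (z q • y σ₀) = z q • y σ₀
      rw [mul_smul_comm, (hc σ₀).1.2.1]) X hXl (fun θ => by
      have h8 := h2 θ
      have h9 : ∀ q ∈ s.filter fun q => J q ≡ γ₀ [MOD C.n g],
          z q • (C.w a ^ (θ * (I q + C.p ^ σ₀ * I' q)) * y σ₀) =
          C.w a ^ (θ * (I q + C.p ^ σ₀ * I' q)) * (z q • y σ₀) := fun q _ => by
        rw [mul_smul_comm]
      rw [Finset.sum_congr rfl h9] at h8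
      exact h8) m₀
  rw [Finset.filter_filter] at h7
  rw [Finset.sum_smul]
  exact h7

private theorem f4a_rec (a : Q) {τ : Type} (s : Finset τ) (m : τ → ℕ) (z : τ → ℤ) {y : U}
    (hy : C.e a * y = y)
    (h : ∀ m₀, (∑ t ∈ s with m t ≡ m₀ [MOD C.n a], z t) • y = 0) (θ : ℕ) :
    ∑ t ∈ s, C.w a ^ (θ * m t) * (z t • y) = 0 := by
  classical
  rw [← Finset.sum_fiberwise_of_maps_to (t := Finset.range (C.n a)) (g := fun t => m t % C.n a)
    (fun t _ => Finset.mem_range.2 (Nat.mod_lt _ (n_pos C a)))]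
  refine Finset.sum_eq_zero fun m₀ hm₀ => ?_
  rw [Finset.mem_range] at hm₀
  have h1 : ∑ t ∈ s with m t % C.n a = m₀, C.w a ^ (θ * m t) * (z t • y) =
      ∑ t ∈ s with m t % C.n a = m₀, z t • (C.w a ^ (θ * m₀) * y) := by
    refine Finset.sum_congr rfl fun t ht => ?_
    rw [Finset.mem_filter] at ht
    rw [mul_smul_comm]
    congr 1
    refine w_pow_left C (Nat.ModEq.mul_left θ ?_) hy
    show m t % C.n a = m₀ % C.n a
    rw [ht.2, Nat.mod_eq_of_lt hm₀]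
  have h2 : (s.filter fun t => m t % C.n a = m₀) = s.filter fun t => m t ≡ m₀ [MOD C.n a] := by
    refine Finset.filter_congr fun t _ => ?_
    show m t % C.n a = m₀ ↔ m t % C.n a = m₀ % C.n a
    rw [Nat.mod_eq_of_lt hm₀]
  rw [h1, ← Finset.sum_smul, h2, ← mul_smul_comm, h, mul_zero]

private theorem f4a_back {a g : Q} {τ : Type} (s : Finset τ) (I J I' : τ → ℕ) (z : τ → ℤ)
    {x₀ y₀ : U} (hx : C.S a g x₀) (hy : C.S g a y₀) (t : ℕ)
    (h : ∀ γ₀, ∃ y : ℕ → U, (∀ σ, C.H a a σ (y σ)) ∧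
      (x₀ * C.w g ^ (t * γ₀)) * y₀ = ∑ σ ∈ Finset.range (C.r a), y σ ∧ ∀ σ₀ < C.r a, ∀ m₀,
      (∑ q ∈ s with J q ≡ γ₀ [MOD C.n g] ∧ I q + C.p ^ σ₀ * I' q ≡ m₀ [MOD C.n a], z q) • y σ₀ = 0)
    (θ : ℕ) :
    ∑ q ∈ s, (z q • C.w a ^ (θ * I q)) * (x₀ * C.w g ^ (t * J q) * y₀) * C.w a ^ (θ * I' q) = 0 := by
  classical
  rw [← Finset.sum_fiberwise_of_maps_to (t := Finset.range (C.n g)) (g := fun q => J q % C.n g)
    (fun q _ => Finset.mem_range.2 (Nat.mod_lt _ (n_pos C g)))]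
  refine Finset.sum_eq_zero fun γ₀ hγ₀ => ?_
  rw [Finset.mem_range] at hγ₀
  obtain ⟨y, h1, h2, h3⟩ := h γ₀
  have e1 : (s.filter fun q => J q % C.n g = γ₀) = s.filter fun q => J q ≡ γ₀ [MOD C.n g] := by
    refine Finset.filter_congr fun t _ => ?_
    show J t % C.n g = γ₀ ↔ J t % C.n g = γ₀ % C.n g
    rw [Nat.mod_eq_of_lt hγ₀]
  rw [e1]
  have e2 : ∀ q ∈ s.filter fun q => J q ≡ γ₀ [MOD C.n g],
      (z q • C.w a ^ (θ * I q)) * (x₀ * C.w g ^ (t * J q) * y₀) * C.w a ^ (θ * I' q) =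
      ∑ σ ∈ Finset.range (C.r a), C.w a ^ (θ * (I q + C.p ^ σ * I' q)) * (z q • y σ) := by
    intro q hq
    rw [Finset.mem_filter] at hq
    have e3 : x₀ * C.w g ^ (t * J q) * y₀ = x₀ * C.w g ^ (t * γ₀) * y₀ := by
      rw [w_pow_right C (Nat.ModEq.mul_left t hq.2) hx.2.2]
    have e4 := f4a_term C h1 h2 θ (I q) 0 (I' q) (z q)
    rw [pow_zero, mul_one] at e4
    rw [e3, e4]
    refine Finset.sum_congr rfl fun σ _ => ?_
    rw [Nat.zero_mul, pow_zero, one_mul, mul_smul_comm]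
  rw [Finset.sum_congr rfl e2, Finset.sum_comm]
  refine Finset.sum_eq_zero fun σ hσ => ?_
  rw [Finset.mem_range] at hσ
  exact f4a_rec C a (s.filter fun q => J q ≡ γ₀ [MOD C.n g]) (fun q => I q + C.p ^ σ * I' q) z
    (h1 σ).1.2.1 (fun m₀ => by
      rw [Finset.filter_filter]
      exact h3 σ hσ m₀) θ

section

variable {ι : Type} [DecidableEq ι]

/-- two-letter words -/
private def f4a_I (q : ℕ × List (ι × ℕ)) : ℕ := q.1

private def f4a_J (q : ℕ × List (ι × ℕ)) : ℕ := (q.2.map Prod.snd).getD 0 0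

private def f4a_J' (q : ℕ × List (ι × ℕ)) : ℕ := (q.2.map Prod.snd).getD 1 0

private theorem f4a_short {q : ℕ × List (ι × ℕ)} {k l : ι} (h : lts q = [k, l]) :
    q = (q.1, [(k, f4a_J q), (l, f4a_J' q)]) := by
  obtain ⟨i, v⟩ := q
  unfold lts at h
  match v, h with
  | [(k', j), (l', j')], h =>
    simp only [List.map_cons, List.map_nil, List.cons.injEq, and_true] at h
    obtain ⟨rfl, rfl⟩ := h
    rfl

private theorem f4a_gt (θ : ℕ → ℕ) (a : Q) (m : ℕ) {x : U} (hx : C.e a * x = x) :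
    C.g θ a a m * x = C.w a ^ (θ (C.blk a) * m) * x := by
  rw [g_self, mul_assoc, e_w_pow C _ hx]

private theorem f4a_gt' (θ : ℕ → ℕ) (a : Q) (m : ℕ) {x : U} (hx : x * C.e a = x) :
    x * C.g θ a a m = x * C.w a ^ (θ (C.blk a) * m) := by
  rw [g_self, ← mul_assoc, hx]

private theorem f4a_val {src tgt : ι → Q} {σ : ι → ℕ} {a g : Q} {k l : ι} (hk1 : src k = a)
    (hk2 : tgt k = g) (hl1 : src l = g) (hl2 : tgt l = a) {q : ℕ × List (ι × ℕ)} (h : lts q = [k, l])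
    (θ : ℕ → ℕ) {r : ι → U} (hr : C.Hom src tgt σ r) :
    C.nv θ src tgt r a a q.1 q.2 = C.w a ^ (θ (C.blk a) * f4a_I q) *
      (r k * C.w g ^ (θ (C.blk g) * f4a_J q) * r l) * C.w a ^ (θ (C.blk a) * f4a_J' q) := by
  have hk := (hr k).1
  have hl := (hr l).1
  rw [hk1, hk2] at hk
  rw [hl1, hl2] at hl
  have e1 : q.2 = [(k, f4a_J q), (l, f4a_J' q)] := congrArg Prod.snd (f4a_short h)
  have e2 : C.nv θ src tgt r a a q.1 q.2 = C.g θ a (src k) q.1 * (r k * (C.g θ (tgt k) (src l) (f4a_J q) *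
      (r l * C.g θ (tgt l) a (f4a_J' q)))) := by
    conv_lhs => rw [e1]
    rfl
  rw [e2, hk1, hk2, hl1, hl2, f4a_gt' C θ a _ hl.2.2, ← mul_assoc (C.g θ g g _),
    f4a_gt C θ g _ hl.2.1, f4a_gt C θ a]
  · simp only [mul_assoc, f4a_I]
  · rw [← mul_assoc, hk.2.1]

private theorem f4a_long (hC : C.Cub) {src tgt : ι → Q} {σ : ι → ℕ} {a g : Q} (hg : g ≠ a) (ha : C.NM a)
    (hgN : C.NM g) {k l : ι} (hk1 : src k = a)
    (hk2 : tgt k = g) (hl1 : src l = g) (hl2 : tgt l = a) {q : ℕ × List (ι × ℕ)}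
    (hq : (lts q).toFinset = {k, l}) (h : lts q ≠ [k, l])
    (θ : ℕ → ℕ) {r : ι → U} (hr : C.Hom src tgt σ r) :
    C.nv θ src tgt r a a q.1 q.2 = 0 := by
  by_contra hne
  have hb := nv_bpth C θ src tgt r a a q.1 q.2 hne
  obtain ⟨i, v⟩ := q
  have hbl : C.blk a ≠ C.blk g := fun h => hg (ha g h.symm)
  have hmem : ∀ x ∈ lts (i, v), x = k ∨ x = l := fun x hx => by
    have h1 : x ∈ (lts (i, v)).toFinset := List.mem_toFinset.2 hx
    rw [hq, Finset.mem_insert, Finset.mem_singleton] at h1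
    exact h1
  have hk := (hr k).1
  have hl := (hr l).1
  rw [hk1, hk2] at hk
  rw [hl1, hl2] at hl
  match v, hb, hmem, h, hq with
  | [], _, _, _, hq =>
    have h1 : k ∈ ({k, l} : Finset ι) := Finset.mem_insert_self _ _
    rw [← hq] at h1
    simp [lts] at h1
  | [(x, j)], hb, hmem, _, _ =>
    rcases hmem x (by simp [lts]) with rfl | rfl
    · exact hbl (by
        have h2 : C.blk (tgt x) = C.blk a := hb.2
        rw [hk2] at h2
        exact h2.symm)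
    · exact hbl (by
        have h2 : C.blk a = C.blk (src x) := hb.1
        rwa [hl1] at h2)
  | [(x, j), (y, j')], hb, hmem, h, _ =>
    rcases hmem x (by simp [lts]) with rfl | rfl
    · rcases hmem y (by simp [lts]) with rfl | rfl
      · have h2 : C.blk (tgt y) = C.blk (src y) := hb.2.1
        rw [hk1, hk2] at h2
        exact hbl h2.symm
      · exact h rfl
    · exact hbl (by
        have h2 : C.blk a = C.blk (src x) := hb.1
        rwa [hl1] at h2)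
  | [(x, j), (y, j'), (x', j₁)], hb, hmem, h, _ =>
    rcases hmem x' (by simp [lts]) with rfl | rfl
    · have h2 : C.blk (tgt x') = C.blk a := hb.2.2.2
      rw [hk2] at h2
      exact hbl h2.symm
    · have h2 : C.blk (tgt y) = C.blk (src x') := hb.2.2.1
      rw [hl1] at h2
      rcases hmem y (by simp [lts]) with rfl | rfl
      · have h3 : C.blk (tgt x) = C.blk (src y) := hb.2.1
        rw [hk1] at h3
        rcases hmem x (by simp [lts]) with rfl | rfl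
        · rw [hk2] at h3
          exact hbl h3.symm
        · have h4 : C.blk a = C.blk (src x) := hb.1
          rw [hl1] at h4
          exact hbl h4
      · rw [hl2] at h2
        exact hbl h2
  | (x, j) :: (y, j') :: (x', j₁) :: (y', j₂) :: v, hb, hmem, h, _ =>
    have hx : x = k := by
      rcases hmem x (by simp [lts]) with h1 | rfl
      · exact h1
      · have h4 : C.blk a = C.blk (src x) := hb.1
        rw [hl1] at h4
        exact absurd h4 hbl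
    subst hx
    have hy : y = l := by
      rcases hmem y (by simp [lts]) with rfl | h1
      · have h4 : C.blk (tgt y) = C.blk (src y) := hb.2.1
        rw [hk2, hk1] at h4
        exact absurd h4.symm hbl
      · exact h1
    subst hy
    have hx' : x' = x := by
      rcases hmem x' (by simp [lts]) with h1 | rfl
      · exact h1
      · have h4 : C.blk (tgt x') = C.blk (src x') := hb.2.2.1
        rw [hl2, hl1] at h4
        exact absurd h4 hbl
    subst hx'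
    have hy' : y' = y := by
      rcases hmem y' (by simp [lts]) with rfl | h1
      · have h4 : C.blk (tgt y') = C.blk (src y') := hb.2.2.2.1
        rw [hk2, hk1] at h4
        exact absurd h4.symm hbl
      · exact h1
    subst hy'
    apply hne
    have e1 : C.nv θ src tgt r a a i ((x', j) :: (y', j') :: (x', j₁) :: (y', j₂) :: v) =
        C.g θ a (src x') i * ((r x' * C.g θ (tgt x') (src y') j) * (r y' * (C.g θ (tgt y') (src x') j' *
          (r x' * C.g θ (tgt x') (src y') j₁))) * (r y' * C.nv θ src tgt r (tgt y') a j₂ v)) := by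
      simp only [nv, mul_assoc]
    rw [e1, hk1, hk2, hl1, hl2]
    have hX : C.S a g (r x' * C.g θ g g j) := by
      rw [f4a_gt' C θ g j hk.2.2]
      exact f4a_wr C hk _
    have hX' : C.S a g (r x' * C.g θ g g j₁) := by
      rw [f4a_gt' C θ g j₁ hk.2.2]
      exact f4a_wr C hk _
    have hY : C.S g g (r y' * (C.g θ a a j' * (r x' * C.g θ g g j₁))) := by
      rw [f4a_gt C θ a j' hX'.2.1]
      exact Base.S_mul _ hl (f4a_wl C hX' _)
    have hZ : C.S g a (r y' * C.nv θ src tgt r a a j₂ v) := by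
      have h5 := nv_corner C hr θ a a j₂ v
      refine ⟨C.J_right _ _ hl.1, ?_, ?_⟩
      · rw [← mul_assoc, hl.2.1]
      · rw [mul_assoc, h5.2]
    rw [Base.van _ hC (Or.inl ⟨hg.symm, hg, fun h => hg h.1.symm⟩) hX hY hZ, mul_zero]

private theorem f4a_xval (hC : C.Cub) {src tgt : ι → Q} {σ : ι → ℕ} {a g : Q} (hg : g ≠ a) (ha : C.NM a)
    (hgN : C.NM g) {k l : ι} (hk1 : src k = a)
    (hk2 : tgt k = g) (hl1 : src l = g) (hl2 : tgt l = a) (B : Finset (ℕ × List (ι × ℕ)))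
    (d : (ℕ × List (ι × ℕ)) →₀ ℤ) (hd : d.support ⊆ B) (hd' : ∀ q ∈ d.support, (lts q).toFinset = {k, l})
    (θ : ℕ → ℕ) {r : ι → U} (hr : C.Hom src tgt σ r) :
    C.xval θ src tgt r a a d = ∑ q ∈ B with lts q = [k, l], (d q • C.w a ^ (θ (C.blk a) * f4a_I q)) *
      (r k * C.w g ^ (θ (C.blk g) * f4a_J q) * r l) * C.w a ^ (θ (C.blk a) * f4a_J' q) := by
  classical
  have e1 : C.xval θ src tgt r a a d = ∑ q ∈ B, d q • C.nv θ src tgt r a a q.1 q.2 := by
    unfold xval Finsupp.sum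
    refine Finset.sum_subset hd fun q _ hq => ?_
    show d q • C.nv θ src tgt r a a q.1 q.2 = 0
    rw [Finsupp.notMem_support_iff.1 hq, zero_smul]
  rw [e1, Finset.sum_filter]
  refine Finset.sum_congr rfl fun q _ => ?_
  split_ifs with h
  · rw [f4a_val C hk1 hk2 hl1 hl2 h θ hr, smul_mul_assoc, smul_mul_assoc]
  · by_cases h0 : d q = 0
    · rw [h0, zero_smul]
    · rw [f4a_long C hC hg ha hgN hk1 hk2 hl1 hl2 (hd' q (Finsupp.mem_support_iff.2 h0)) h θ hr, smul_zero]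

end

variable {ι : Type} [Fintype ι] [DecidableEq ι]

theorem f4a (hC : C.Cub) {V : Fin 3 → AddSubgroup U} (hV : C.Vals V) (src tgt : ι → Q) (σ : ι → ℕ)
    (a g : Q) (hg : g ≠ a) (ha : C.NM a) (hgN : C.NM g) (k l : ι) (hk1 : src k = a) (hk2 : tgt k = g)
    (hl1 : src l = g) (hl2 : tgt l = a) (c c' : (ℕ × List (ι × ℕ)) →₀ ℤ)
    (hc : ∀ q ∈ c.support, (lts q).toFinset = {k, l}) (hc' : ∀ q ∈ c'.support, (lts q).toFinset = {k, l})
    (h : ∀ θ r, C.Hom src tgt σ r →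
      In3 V (C.xval θ src tgt r a a c) (C.xval θ src tgt r a a c')) :
    ∀ θ r, C.Hom src tgt σ r → C.xval θ src tgt r a a c = 0 := by
  classical
  have hbl : C.blk g ≠ C.blk a := fun h => hg (ha g h)
  have hkl : l ≠ k := fun h => hg (by rw [← hl1, ← hk1, h])
  have hyp : ∀ x y, C.S a g x → C.S g a y → ∀ θ t,
      In3 V (∑ q ∈ c.support ∪ c'.support with lts q = [k, l], (c q • C.w a ^ (θ * f4a_I q)) *
        (x * C.w g ^ (t * f4a_J q) * y) * C.w a ^ (θ * f4a_J' q))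
        (∑ q ∈ c.support ∪ c'.support with lts q = [k, l], (c' q • C.w a ^ (θ * f4a_I q)) *
        (x * C.w g ^ (t * f4a_J q) * y) * C.w a ^ (θ * f4a_J' q)) := by
    intro x y hx hy θ t
    have hr : C.Hom src tgt σ (fun i => if i = k then x else if i = l then y else 0) := by
      intro i
      show C.H (src i) (tgt i) (σ i) (if i = k then x else if i = l then y else 0)
      split_ifs with h1 h2
      · subst h1
        rw [hk1, hk2]
        exact ⟨hx, fun h => absurd h.symm hbl⟩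
      · subst h2
        rw [hl1, hl2]
        exact ⟨hy, fun h => absurd h hbl⟩
      · exact ⟨Base.S_zero _ _ _, fun _ => by rw [zero_mul, mul_zero]⟩
    have h1 := h (fun b => if b = C.blk g then t else θ) _ hr
    rw [f4a_xval C hC hg ha hgN hk1 hk2 hl1 hl2 _ c Finset.subset_union_left hc _ hr,
      f4a_xval C hC hg ha hgN hk1 hk2 hl1 hl2 _ c' Finset.subset_union_right hc' _ hr] at h1
    simpa only [if_true, if_neg hkl, if_neg hbl.symm] using h1
  intro θ r hr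
  have hk := (hr k).1
  have hl := (hr l).1
  rw [hk1, hk2] at hk
  rw [hl1, hl2] at hl
  rw [f4a_xval C hC hg ha hgN hk1 hk2 hl1 hl2 (c.support ∪ c'.support) c Finset.subset_union_left hc _ hr]
  refine f4a_back C _ f4a_I f4a_J f4a_J' c hk hl (θ (C.blk g)) (fun γ₀ => ?_) (θ (C.blk a))
  have hx := f4a_wr C hk (θ (C.blk g) * γ₀)
  obtain ⟨y, hy, hY⟩ := f4a_comp C a (Base.S_mul _ hx hl)
  refine ⟨y, hy, hY, fun σ₀ hσ₀ m₀ => ?_⟩
  have h0 := f4a_core C _ f4a_I f4a_J f4a_J' c (V 0) (hV.left 0)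
    (fun x y hx hy θ t => (hyp x y hx hy θ t).1) hx hl hy hY γ₀ σ₀ m₀ hσ₀
  have h1 := f4a_core C _ f4a_I f4a_J f4a_J' c' (V 1) (hV.left 1)
    (fun x y hx hy θ t => (hyp x y hx hy θ t).2.1) hx hl hy hY γ₀ σ₀ m₀ hσ₀
  have h2 := f4a_core C _ f4a_I f4a_J f4a_J' (fun q => c q + c' q) (V 2) (hV.left 2)
    (fun x y hx hy θ t => by
      have h3 := (hyp x y hx hy θ t).2.2
      rw [← Finset.sum_add_distrib] at h3
      simpa only [add_smul, add_mul] using h3) hx hl hy hY γ₀ σ₀ m₀ hσ₀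
  rw [Finset.sum_add_distrib, add_smul] at h2
  have hM : ∀ m ∈ ({y σ₀} : Set U), m ∈ C.A := fun m hm => by
    rw [Set.mem_singleton_iff.1 hm]
    exact C.J_le (hy σ₀).1.1
  exact Base.nest _ hV _ _ {y σ₀} hM (fun m hm => by
    rw [Set.mem_singleton_iff.1 hm]
    exact ⟨h0, h1, h2⟩) (y σ₀) rfl

end Ctx

end ADM
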