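import Pool.Agent.ADM.NvB
import Pool.Agent.ADM.T4

/-!
# ADM-F4t

Words with arrows: loops at `a`, one of them twisted, and two edges `k : a → g`, `l : g → a`: all values vanish.

PLAN.  `a ≠ g` are `NM`, so their blocks are different.  If the value is not 0, `bpth` holds (`nv_bpth`), hence `pth (s2 src) (s2 tgt) a q.2 a` (all vertices are `a` or `g`), and
`nv = w a ^ .. * wv (r2 θ tgt r) a q.2` (`nv_eq`).  If the letter `k` occurs at least twice: the word visits `g` twice and its value vanishes (`van`, see the first case of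
`ty4_word` in Pool/Agent/ADN/Ty4.lean, `r2_Srt`).  Otherwise `q.2 = v₁ ++ (k, j) :: (l, j') :: v₂` with words `v₁`, `v₂` in the loops (`ty4_loops`, `ty4_split`), and a twisted letter
`(x, m)` occurs in `v₁` or `v₂`.  Its value `ρ = r x * w a ^ ..` is homogeneous of twist `σ x` (`H_wr`).  If `v₁ = u ++ (x, m) :: u'`: the value contains
`ρ * (k' * l')` with `k' = (value of u') * (value of k) ∈ S a g`, `l'` the value of `l`: 0 by `t4a`.  If `v₂ = u ++ (x, m) :: u'`: it contains `(k' * l') * ρ` with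
`l' = (value of l) * (value of u) ∈ S g a`: 0 by `t4a`.
-/

namespace ADM

open AD ADN ADN.Ctx

namespace Ctx

variable {U : Type} [Ring U] {Q : Type} [Fintype Q] (C : Ctx U Q)
variable {ι : Type} [DecidableEq ι]

omit [DecidableEq ι] in
private theorem f4t_pth {src tgt : ι → Q} {a g : Q} (ha : C.NM a) (hgN : C.NM g) {R : Finset ι}
    (htgt : ∀ i ∈ R, tgt i = a ∨ tgt i = g) (b : Q) : ∀ (v : List (ι × ℕ)) (x : Q),
    (x = a ∨ x = g) → (∀ i ∈ v, i.1 ∈ R) → C.bpth src tgt x v b →
      pth (Ctx.s2 src) (Ctx.s2 tgt) x v b := by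
  have hN : ∀ x, (x = a ∨ x = g) → C.NM x := by
    rintro x (rfl | rfl)
    · exact ha
    · exact hgN
  intro v
  induction v with
  | nil =>
    intro x hx _ h
    have h1 : C.blk x = C.blk b := h
    exact (hN x hx b h1.symm).symm
  | cons i v ih =>
    intro x hx hv h
    obtain ⟨i, m⟩ := i
    obtain ⟨h1, h2⟩ := h
    refine ⟨hN x hx (src i) h1.symm, ?_⟩
    exact ih (tgt i) (htgt i (hv (i, m) List.mem_cons_self))
      (fun j hj => hv j (List.mem_cons_of_mem _ hj)) h2

omit [DecidableEq ι] in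
private theorem f4t_loops {src tgt : ι → Q} {a g : Q} (hg : g ≠ a) {R : Finset ι}
    {k l : ι} (hl1 : src l = g) (hR : ∀ i ∈ R, i ≠ k → i ≠ l → src i = a ∧ tgt i = a) :
    ∀ (w : List (ι × ℕ)) (b : Q), pth (Ctx.s2 src) (Ctx.s2 tgt) a w b → (∀ i ∈ w, i.1 ∈ R) →
      (∀ i ∈ w, i.1 ≠ k) → b = a ∧ ∀ i ∈ w, i.1 ≠ k ∧ i.1 ≠ l := by
  intro w
  induction w with
  | nil =>
    intro b hp _ _
    exact ⟨Eq.symm hp, fun i hi => absurd hi (List.not_mem_nil)⟩
  | cons i w ih =>
    intro b hp hw hk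
    obtain ⟨h1, h2⟩ := hp
    change src i.1 = a at h1
    change pth (Ctx.s2 src) (Ctx.s2 tgt) (tgt i.1) w b at h2
    have hik : i.1 ≠ k := hk i List.mem_cons_self
    have hil : i.1 ≠ l := by
      intro h
      rw [h, hl1] at h1
      exact hg h1
    have h3 := (hR i.1 (hw i List.mem_cons_self) hik hil).2
    rw [h3] at h2
    obtain ⟨h4, h5⟩ := ih b h2 (fun j hj => hw j (List.mem_cons_of_mem _ hj))
      (fun j hj => hk j (List.mem_cons_of_mem _ hj))
    refine ⟨h4, fun j hj => ?_⟩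
    rcases List.mem_cons.1 hj with rfl | hj
    · exact ⟨hik, hil⟩
    · exact h5 j hj

omit [DecidableEq ι] in
private theorem f4t_split {src tgt : ι → Q} {a g : Q} (hg : g ≠ a) {R : Finset ι}
    {k l : ι} (hk1 : src k = a) (hk2 : tgt k = g) (hl1 : src l = g) (hl2 : tgt l = a)
    (hR : ∀ i ∈ R, i ≠ k → i ≠ l → src i = a ∧ tgt i = a) :
    ∀ (w : List (ι × ℕ)), pth (Ctx.s2 src) (Ctx.s2 tgt) a w a → (∀ i ∈ w, i.1 ∈ R) →
    (∃ i ∈ w, i.1 = k) →
    ∃ v₁ x y v₂, w = v₁ ++ x :: y :: v₂ ∧ x.1 = k ∧ y.1 = l ∧ (∀ i ∈ v₁, i.1 ≠ k ∧ i.1 ≠ l) ∧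
      pth (Ctx.s2 src) (Ctx.s2 tgt) a v₁ a ∧ pth (Ctx.s2 src) (Ctx.s2 tgt) a v₂ a := by
  intro w
  induction w with
  | nil =>
    rintro _ _ ⟨i, hi, -⟩
    exact absurd hi (List.not_mem_nil)
  | cons i w ih =>
    intro hp hw hex
    obtain ⟨h1, h2⟩ := hp
    change src i.1 = a at h1
    change pth (Ctx.s2 src) (Ctx.s2 tgt) (tgt i.1) w a at h2
    by_cases hik : i.1 = k
    · rw [hik, hk2] at h2
      cases w with
      | nil => exact absurd h2 hg
      | cons y v₂ =>
        obtain ⟨h6, h7⟩ := h2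
        change src y.1 = g at h6
        change pth (Ctx.s2 src) (Ctx.s2 tgt) (tgt y.1) v₂ a at h7
        have hyl : y.1 = l := by
          by_contra hyl
          have hyk : y.1 ≠ k := by
            intro h
            rw [h, hk1] at h6
            exact hg h6.symm
          have hyR : y.1 ∈ R := hw y (by simp)
          exact hg (h6.symm.trans (hR y.1 hyR hyk hyl).1)
        rw [hyl, hl2] at h7
        exact ⟨[], i, y, v₂, rfl, hik, hyl, fun j hj => absurd hj (List.not_mem_nil), rfl, h7⟩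
    · have hil : i.1 ≠ l := by
        intro h
        rw [h, hl1] at h1
        exact hg h1
      have h3 := (hR i.1 (hw i List.mem_cons_self) hik hil).2
      rw [h3] at h2
      have hex' : ∃ j ∈ w, j.1 = k := by
        obtain ⟨j, hj, hjk⟩ := hex
        rcases List.mem_cons.1 hj with rfl | hj
        · exact absurd hjk hik
        · exact ⟨j, hj, hjk⟩
      obtain ⟨v₁, x, y, v₂, rfl, hx, hy, h4, h5, h6⟩ :=
        ih h2 (fun j hj => hw j (List.mem_cons_of_mem _ hj)) hex'
      refine ⟨i :: v₁, x, y, v₂, rfl, hx, hy, ?_, ⟨h1, ?_⟩, h6⟩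
      · intro j hj
        rcases List.mem_cons.1 hj with rfl | hj
        · exact ⟨hik, hil⟩
        · exact h4 j hj
      · show pth (Ctx.s2 src) (Ctx.s2 tgt) (tgt i.1) v₁ a
        rw [h3]
        exact h5

theorem f4t (hC : C.Cub) (src tgt : ι → Q) (σ : ι → ℕ) (a g : Q) (hg : g ≠ a) (ha : C.NM a)
    (hgN : C.NM g) (R : Finset ι) (k l : ι) (hk : k ∈ R) (hl : l ∈ R) (hk1 : src k = a) (hk2 : tgt k = g)
    (hl1 : src l = g) (hl2 : tgt l = a) (hR : ∀ i ∈ R, i ≠ k → i ≠ l → src i = a ∧ tgt i = a)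
    (htw : ∃ i ∈ R, i ≠ k ∧ i ≠ l ∧ C.Tw a (σ i)) (q : ℕ × List (ι × ℕ)) (hq : (lts q).toFinset = R)
    (θ : ℕ → ℕ) (r : ι → U) (hr : C.Hom src tgt σ r) : C.nv θ src tgt r a a q.1 q.2 = 0 := by
  by_contra hne
  have hw : ∀ i ∈ q.2, i.1 ∈ R := by
    intro i hi
    rw [← hq, List.mem_toFinset]
    exact List.mem_map_of_mem hi
  have hlt : ∀ i ∈ R, ∃ m, (i, m) ∈ q.2 := by
    intro i hi
    rw [← hq, List.mem_toFinset] at hi
    obtain ⟨⟨j, m⟩, hj, rfl⟩ := List.mem_map.1 hi
    exact ⟨m, hj⟩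
  have htgt : ∀ i ∈ R, tgt i = a ∨ tgt i = g := by
    intro i hi
    by_cases h1 : i = k
    · exact Or.inr (by rw [h1, hk2])
    · by_cases h2 : i = l
      · exact Or.inl (by rw [h2, hl2])
      · exact Or.inl (hR i hi h1 h2).2
  have hp : pth (Ctx.s2 src) (Ctx.s2 tgt) a q.2 a :=
    f4t_pth C ha hgN htgt a q.2 a (Or.inl rfl) hw (nv_bpth C θ src tgt r a a q.1 q.2 hne)
  have hS := r2_Srt C hr θ
  have hkv : ∃ i ∈ q.2, i.1 = k := by
    obtain ⟨m, hm⟩ := hlt k hk
    exact ⟨(k, m), hm, rfl⟩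
  have hvne : q.2 ≠ [] := by
    obtain ⟨i, hi, -⟩ := hkv
    exact List.ne_nil_of_mem hi
  apply hne
  rw [nv_eq C hr θ a q.2 a q.1 hp, C.toBase.wv_eq hS hvne hp]
  generalize hρ : C.r2 θ tgt r = ρ at hS
  have hρH : ∀ i m, src i = a → tgt i = a → C.H a a (σ i) (ρ (i, m)) := by
    intro i m h1 h2
    rw [← hρ]
    show C.H a a (σ i) (r i * C.w (tgt i) ^ (θ (C.blk (tgt i)) * m))
    have h3 := hr i
    rw [h1, h2] at h3
    rw [h2]
    exact H_wr C h3 _
  have hzero : (q.2.map ρ).prod = 0 := by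
    clear hρ
    generalize q.2 = v at *
    obtain ⟨v₁, x, y, v₂, rfl, hxk, hyl, h1, hp1, hp2⟩ :=
      f4t_split hg hk1 hk2 hl1 hl2 hR v hp hw hkv
    have hw2 : ∀ i ∈ v₂, i.1 ∈ R := fun i hi => hw i (by simp [hi])
    have hx1 : Ctx.s2 src x = a := by
      show src x.1 = a
      rw [hxk, hk1]
    have hx2 : Ctx.s2 tgt x = g := by
      show tgt x.1 = g
      rw [hxk, hk2]
    have hy1 : Ctx.s2 src y = g := by
      show src y.1 = g
      rw [hyl, hl1]
    have hy2 : Ctx.s2 tgt y = a := by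
      show tgt y.1 = a
      rw [hyl, hl2]
    by_cases hk2' : ∃ i ∈ v₂, i.1 = k
    · obtain ⟨v₃, x', y', v₄, rfl, hxk', hyl', h3, hp3, hp4⟩ :=
        f4t_split hg hk1 hk2 hl1 hl2 hR v₂ hp2 hw2 hk2'
      have hx1' : Ctx.s2 src x' = a := by
        show src x'.1 = a
        rw [hxk', hk1]
      have hx2' : Ctx.s2 tgt x' = g := by
        show tgt x'.1 = g
        rw [hxk', hk2]
      have hy1' : Ctx.s2 src y' = g := by
        show src y'.1 = g
        rw [hyl', hl1]
      have hy2' : Ctx.s2 tgt y' = a := by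
        show tgt y'.1 = a
        rw [hyl', hl2]
      have e1 : C.S a g ((v₁ ++ [x]).map ρ).prod :=
        C.toBase.S_path hS _ a g (by simp)
          ((Base.pth_append _ _ _ _).2 ⟨a, hp1, hx1, hx2⟩)
      have e2 : C.S g g ((y :: (v₃ ++ [x'])).map ρ).prod := by
        refine C.toBase.S_path hS _ g g (by simp) ⟨hy1, ?_⟩
        rw [hy2]
        exact (Base.pth_append _ _ _ _).2 ⟨a, hp3, hx1', hx2'⟩
      have e3 : C.S g a ((y' :: v₄).map ρ).prod := by
        refine C.toBase.S_path hS _ g a (by simp) ⟨hy1', ?_⟩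
        rw [hy2']
        exact hp4
      have e4 := C.toBase.van hC (v₀ := a) (v₁ := g) (v₂ := g) (v₃ := a)
        (Or.inl ⟨hg.symm, hg, fun h => hg h.1.symm⟩) e1 e2 e3
      rw [← e4]
      simp only [List.map_append, List.map_cons, List.map_nil, List.prod_append, List.prod_cons,
        List.prod_nil, mul_one, mul_assoc]
    · push Not at hk2'
      obtain ⟨-, h2⟩ := f4t_loops hg hl1 hR v₂ a hp2 hw2 hk2'
      obtain ⟨i, hiR, hik, hil, hiT⟩ := htw
      obtain ⟨m, hm⟩ := hlt i hiR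
      obtain ⟨hi1, hi2⟩ := hR i hiR hik hil
      have hHi := hρH i m hi1 hi2
      have hmem : (i, m) ∈ v₁ ∨ (i, m) ∈ v₂ := by
        rcases List.mem_append.1 hm with h | h
        · exact Or.inl h
        · rcases List.mem_cons.1 h with h | h
          · exact absurd (by rw [← hxk, ← h]) hik
          · rcases List.mem_cons.1 h with h | h
            · exact absurd (by rw [← hyl, ← h]) hil
            · exact Or.inr h
      rcases hmem with hm1 | hm2
      · obtain ⟨u, u', rfl⟩ := List.append_of_mem hm1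
        obtain ⟨b, -, hb⟩ := (Base.pth_append _ _ _ _).1 hp1
        obtain ⟨-, hb2⟩ := hb
        change pth (Ctx.s2 src) (Ctx.s2 tgt) (tgt i) u' a at hb2
        rw [hi2] at hb2
        have e1 : C.S a g ((u' ++ [x]).map ρ).prod :=
          C.toBase.S_path hS _ a g (by simp)
            ((Base.pth_append _ _ _ _).2 ⟨a, hb2, hx1, hx2⟩)
        have e2 : C.S g a (ρ y) := by
          have h3 := hS y
          rwa [hy1, hy2] at h3
        have e3 := (t4a C hC hg.symm hiT hHi e1 e2).1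
        have e4 : (((u ++ (i, m) :: u') ++ x :: y :: v₂).map ρ).prod =
            (u.map ρ).prod * (ρ (i, m) * (((u' ++ [x]).map ρ).prod * ρ y)) *
              (v₂.map ρ).prod := by
          simp only [List.map_append, List.map_cons, List.map_nil, List.prod_append,
            List.prod_cons, List.prod_nil, mul_one, mul_assoc]
        rw [e4, e3, mul_zero, zero_mul]
      · obtain ⟨u, u', rfl⟩ := List.append_of_mem hm2
        obtain ⟨b, hb, hb1, -⟩ := (Base.pth_append _ _ _ _).1 hp2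
        have hba : b = a := by
          rw [← hb1]
          exact hi1
        subst hba
        have e1 : C.S g b ((y :: u).map ρ).prod := by
          refine C.toBase.S_path hS _ g b (by simp) ⟨hy1, ?_⟩
          rw [hy2]
          exact hb
        have e2 : C.S b g (ρ x) := by
          have h3 := hS x
          rwa [hx1, hx2] at h3
        have e3 := (t4a C hC hg.symm hiT hHi e2 e1).2
        have e4 : ((v₁ ++ x :: y :: (u ++ (i, m) :: u')).map ρ).prod =
            (v₁.map ρ).prod * ((ρ x * ((y :: u).map ρ).prod) * ρ (i, m)) *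
              (u'.map ρ).prod := by
          simp only [List.map_append, List.map_cons, List.map_nil, List.prod_append,
            List.prod_cons, List.prod_nil, mul_one, mul_assoc]
        rw [e4, e3, mul_zero, zero_mul]
  rw [hzero, mul_zero]

end Ctx

end ADM
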