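import Pool.Agent.ADM.Defs
import Pool.Agent.ADM.Basic
import Pool.Agent.ADM.Nest

/-!
# ADN-Kt

Transfer to the nilpotent hull (left version): the sets `KW` of the polynomials without constant term whose
values at sorted loops, multiplied by the elements of `M`, are in a given left ideal are T-ideals.
-/

namespace ADM

open AD ADN ADN.Ctx

namespace Base

variable {U : Type} [Ring U] {Q : Type} [Fintype Q] (C : Base U Q)

variable {L : AddSubgroup U} (hL : ∀ x ∈ L, ∀ y ∈ L, x * y ∈ L)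

include hL

private theorem ev_sub {r : ℕ → U} (hr : ∀ i, r i ∈ L) (f : P) :
    FreeAlgebra.lift ℤ r f - ((aug f : ℤ) : U) ∈ L := by
  induction f using FreeAlgebra.induction with
  | grade0 c =>
    have : FreeAlgebra.lift ℤ r (algebraMap ℤ P c) - ((aug (algebraMap ℤ P c) : ℤ) : U) = 0 := by
      rw [AlgHom.commutes, AlgHom.commutes, eq_intCast, Algebra.algebraMap_self_apply, sub_self]
    rw [this]
    exact L.zero_mem
  | grade1 i =>
    have : FreeAlgebra.lift ℤ r (FreeAlgebra.ι ℤ i) - ((aug (FreeAlgebra.ι ℤ i) : ℤ) : U) = r i := by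
      rw [aug, FreeAlgebra.lift_ι_apply, FreeAlgebra.lift_ι_apply, Int.cast_zero, sub_zero]
    rw [this]
    exact hr i
  | mul f g hf hg =>
    have : FreeAlgebra.lift ℤ r (f * g) - ((aug (f * g) : ℤ) : U) =
        (FreeAlgebra.lift ℤ r f - ((aug f : ℤ) : U)) * (FreeAlgebra.lift ℤ r g - ((aug g : ℤ) : U)) +
        aug f • (FreeAlgebra.lift ℤ r g - ((aug g : ℤ) : U)) +
        aug g • (FreeAlgebra.lift ℤ r f - ((aug f : ℤ) : U)) := by
      rw [map_mul, map_mul, Int.cast_mul, zsmul_eq_mul, zsmul_eq_mul']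
      noncomm_ring
    rw [this]
    exact add_mem (add_mem (hL _ hf _ hg) (zsmul_mem hg _)) (zsmul_mem hf _)
  | add f g hf hg =>
    have : FreeAlgebra.lift ℤ r (f + g) - ((aug (f + g) : ℤ) : U) =
        (FreeAlgebra.lift ℤ r f - ((aug f : ℤ) : U)) + (FreeAlgebra.lift ℤ r g - ((aug g : ℤ) : U)) := by
      rw [map_add, map_add, Int.cast_add]
      abel
    rw [this]
    exact add_mem hf hg

private theorem ev_S {r : ℕ → U} (hr : ∀ i, r i ∈ L) {q : P} (hq : aug q = 0) :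
    FreeAlgebra.lift ℤ r q ∈ L := by
  have h := ev_sub hL hr q
  rw [hq, Int.cast_zero, sub_zero] at h
  exact h

/-- the polynomials whose values are in `W` -/
private def KW (M : Set U) (W : AddSubgroup U) : Submodule ℤ P where
  carrier := {q | q ∈ Pp ∧ ∀ r : ℕ → U, (∀ i, r i ∈ L) → ∀ m ∈ M, FreeAlgebra.lift ℤ r q * m ∈ W}
  zero_mem' := ⟨Pp.zero_mem, fun r hr m hm => by rw [map_zero, zero_mul]; exact W.zero_mem⟩
  add_mem' := fun {q q'} hq hq' => ⟨Pp.add_mem hq.1 hq'.1, fun r hr m hm => by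
    rw [map_add, add_mul]; exact W.add_mem (hq.2 r hr m hm) (hq'.2 r hr m hm)⟩
  smul_mem' := fun c q hq => ⟨Pp.smul_mem c hq.1, fun r hr m hm => by
    rw [map_smul, smul_mul_assoc]; exact W.zsmul_mem (hq.2 r hr m hm) c⟩

private theorem isT_KW (M : Set U) (hM : ∀ r m, r ∈ L → m ∈ M → r * m ∈ M)
    (W : AddSubgroup U) (hW : ∀ u x, x ∈ W → u * x ∈ W) : IsT (KW (L := L) M W) where
  le := fun q hq => hq.1
  mul_right := by
    intro q hq q'
    refine ⟨(trans_aug_Pp _).2 ?_, fun r hr m hm => ?_⟩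
    · rw [map_mul, (trans_aug_Pp q).1 hq.1, zero_mul]
    · have h1 : FreeAlgebra.lift ℤ r (q * q') * m = FreeAlgebra.lift ℤ r q *
          ((FreeAlgebra.lift ℤ r q' - ((aug q' : ℤ) : U)) * m) + aug q' • (FreeAlgebra.lift ℤ r q * m) := by
        rw [map_mul, zsmul_eq_mul, (Int.cast_commute (aug q') (FreeAlgebra.lift ℤ r q * m)).eq, mul_assoc,
          mul_assoc, ← mul_add, (Int.cast_commute (aug q') m).symm.eq, ← add_mul, sub_add_cancel]
      rw [h1]
      exact W.add_mem (hq.2 r hr _ (hM _ m (ev_sub hL hr q') hm)) (W.zsmul_mem (hq.2 r hr m hm) _)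
  mul_left := by
    intro q hq q'
    refine ⟨(trans_aug_Pp _).2 ?_, fun r hr m hm => ?_⟩
    · rw [map_mul, (trans_aug_Pp q).1 hq.1, mul_zero]
    · rw [map_mul, mul_assoc]
      exact hW _ _ (hq.2 r hr m hm)
  subst := by
    intro φ hφ q hq
    refine ⟨(trans_aug_Pp _).2 ?_, fun r hr m hm => ?_⟩
    · have h1 : aug.comp φ = aug := by
        apply FreeAlgebra.hom_ext
        funext i
        show aug (φ (X i)) = aug (X i)
        rw [hφ i, aug, FreeAlgebra.lift_ι_apply]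
      have h2 : aug (φ q) = aug q := DFunLike.congr_fun h1 q
      rw [h2]
      exact (trans_aug_Pp q).1 hq.1
    · have h1 : (FreeAlgebra.lift ℤ r).comp φ = FreeAlgebra.lift ℤ (fun i => FreeAlgebra.lift ℤ r (φ (X i))) := by
        apply FreeAlgebra.hom_ext
        funext i
        show FreeAlgebra.lift ℤ r (φ (X i)) = FreeAlgebra.lift ℤ (fun i => FreeAlgebra.lift ℤ r (φ (X i))) (X i)
        rw [FreeAlgebra.lift_ι_apply]
      have h2 : FreeAlgebra.lift ℤ r (φ q) = FreeAlgebra.lift ℤ (fun i => FreeAlgebra.lift ℤ r (φ (X i))) q :=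
        DFunLike.congr_fun h1 q
      rw [h2]
      exact hq.2 _ (fun i => ev_S hL hr (hφ i)) m hm

private theorem kt_aux (hLJ : L ≤ C.J) {T : Submodule ℤ P} (hT : C.Dst T) {V : Fin 3 → AddSubgroup U} (hV : C.Vals V)
    (M : Set U) (hM : ∀ r m, r ∈ L → m ∈ M → r * m ∈ M) (g g' : P)
    (hg : g ∈ Pp) (hg' : g' ∈ Pp)
    (h : ∀ r : ℕ → U, (∀ i, r i ∈ L) → ∀ m ∈ M,
      In3 V (FreeAlgebra.lift ℤ r g * m) (FreeAlgebra.lift ℤ r g' * m)) :
    ∀ r : ℕ → U, (∀ i, r i ∈ L) → ∀ m ∈ M, FreeAlgebra.lift ℤ r g * m = 0 := by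
  have hTK : ∀ i, T ≤ KW (L := L) M (V i) := by
    intro i q hq
    refine ⟨hT.1.le hq, fun r hr m hm => ?_⟩
    rw [hT.2.2 q hq r fun i => hLJ (hr i), zero_mul]
    exact (V i).zero_mem
  have hK : ∀ i, IsT (KW (L := L) M (V i)) := fun i => isT_KW hL M hM (V i) (hV.left i)
  have hd := hT.2.1 _ (hK 2) _ (hK 0) _ (hK 1) (hTK 2) (hTK 0) (hTK 1)
  have h0 : g ∈ KW (L := L) M (V 0) := ⟨hg, fun r hr m hm => (h r hr m hm).1⟩
  have h1 : g' ∈ KW (L := L) M (V 1) := ⟨hg', fun r hr m hm => (h r hr m hm).2.1⟩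
  have h2 : g + g' ∈ KW (L := L) M (V 2) := ⟨Pp.add_mem hg hg', fun r hr m hm => by
    rw [map_add, add_mul]; exact (h r hr m hm).2.2⟩
  have h3 : g + g' ∈ KW (L := L) M (V 2) ⊓ (KW (L := L) M (V 0) ⊔ KW (L := L) M (V 1)) :=
    ⟨h2, Submodule.add_mem_sup h0 h1⟩
  rw [hd] at h3
  obtain ⟨x, hx, y, hy, hxy⟩ := Submodule.mem_sup.1 h3
  intro r hr m hm
  have hx0 : FreeAlgebra.lift ℤ r x * m = 0 :=
    hV.disj 2 0 (by decide) _ (hx.1.2 r hr m hm) (hx.2.2 r hr m hm)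
  have hy0 : FreeAlgebra.lift ℤ r y * m = 0 :=
    hV.disj 2 1 (by decide) _ (hy.1.2 r hr m hm) (hy.2.2 r hr m hm)
  have h4 : FreeAlgebra.lift ℤ r g * m + FreeAlgebra.lift ℤ r g' * m = 0 := by
    rw [← add_mul, ← map_add, ← hxy, map_add, add_mul, hx0, hy0, add_zero]
  have h5 : FreeAlgebra.lift ℤ r g * m ∈ V 1 := by
    rw [eq_neg_of_add_eq_zero_left h4]
    exact (V 1).neg_mem (h r hr m hm).2.1
  exact hV.disj 0 1 (by decide) _ (h r hr m hm).1 h5

theorem ktG (hLJ : L ≤ C.J) {T : Submodule ℤ P} (hT : C.Dst T) {V : Fin 3 → AddSubgroup U} (hV : C.Vals V)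
    (M : Set U) (hM : ∀ r m, r ∈ L → m ∈ M → r * m ∈ M) (g g' : P)
    (hMA : (∀ m ∈ M, m ∈ C.A) ∨ (g ∈ Pp ∧ g' ∈ Pp))
    (h : ∀ r : ℕ → U, (∀ i, r i ∈ L) → ∀ m ∈ M,
      In3 V (FreeAlgebra.lift ℤ r g * m) (FreeAlgebra.lift ℤ r g' * m)) :
    ∀ r : ℕ → U, (∀ i, r i ∈ L) → ∀ m ∈ M, FreeAlgebra.lift ℤ r g * m = 0 := by
  rcases hMA with hMA | ⟨hg, hg'⟩
  · have h00 : ∀ i : ℕ, ((fun _ => 0 : ℕ → U) i) ∈ L := fun _ => L.zero_mem
    have hcst : ∀ (f : P) (m : U), FreeAlgebra.lift ℤ (fun _ => 0 : ℕ → U) f * m = aug f • m := by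
      intro f m
      have h1 : FreeAlgebra.lift ℤ (fun _ => 0 : ℕ → U) = (Algebra.ofId ℤ U).comp aug := by
        apply FreeAlgebra.hom_ext
        funext i
        show FreeAlgebra.lift ℤ (fun _ => 0 : ℕ → U) (FreeAlgebra.ι ℤ i) =
          Algebra.ofId ℤ U (aug (FreeAlgebra.ι ℤ i))
        rw [aug, FreeAlgebra.lift_ι_apply, FreeAlgebra.lift_ι_apply, map_zero]
      have h2 : FreeAlgebra.lift ℤ (fun _ => 0 : ℕ → U) f = Algebra.ofId ℤ U (aug f) := DFunLike.congr_fun h1 f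
      rw [h2, Algebra.ofId_apply, eq_intCast, zsmul_eq_mul]
    have hc : ∀ m ∈ M, In3 V (aug g • m) (aug g' • m) := by
      intro m hm
      have := h _ h00 m hm
      rwa [hcst, hcst] at this
    have hc0 := C.nest hV (aug g) (aug g') M hMA hc
    have hc1 : ∀ m ∈ M, aug g' • m = 0 := by
      intro m hm
      have h1 := hc m hm
      have h2 := h1.2.2
      rw [hc0 m hm, zero_add] at h2
      exact hV.disj 1 2 (by decide) _ h1.2.1 h2
    have hev : ∀ (f : P), (∀ m ∈ M, aug f • m = 0) → ∀ (r : ℕ → U), ∀ m ∈ M,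
        FreeAlgebra.lift ℤ r (f - algebraMap ℤ P (aug f)) * m = FreeAlgebra.lift ℤ r f * m := by
      intro f hf r m hm
      rw [map_sub, AlgHom.commutes, sub_mul, eq_intCast, ← zsmul_eq_mul, hf m hm, sub_zero]
    have hmem : ∀ f : P, f - algebraMap ℤ P (aug f) ∈ Pp := by
      intro f
      rw [trans_aug_Pp, map_sub, AlgHom.commutes, Algebra.algebraMap_self_apply, sub_self]
    have h6 := C.kt_aux hL hLJ hT hV M hM _ _ (hmem g) (hmem g') (fun r hr m hm => by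
      rw [hev g hc0 r m hm, hev g' hc1 r m hm]
      exact h r hr m hm)
    intro r hr m hm
    rw [← hev g hc0 r m hm]
    exact h6 r hr m hm
  · exact C.kt_aux hL hLJ hT hV M hM g g' hg hg' h

end Base

end ADM
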