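import Pool.Agent.ADM.Defs
import Pool.Agent.ADM.Basic
import Pool.Agent.ADM.Nest

/-!
# ADN-KtR

Transfer to the nilpotent hull (right version); mirror image of ADN-Kt. The constant terms are removed with `nest`; the sets
`ktRK W` of the polynomials `q ∈ Pp` with `m * ev r q ∈ W` are T-ideals, and distributivity above `T` is applied to the three ideals
`V 0`, `V 1`, `V 2`.
-/

namespace ADM

open AD ADN ADN.Ctx

namespace Base

variable {U : Type} [Ring U] {Q : Type} [Fintype Q] (C : Base U Q)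

variable {L : AddSubgroup U} (hL : ∀ x ∈ L, ∀ y ∈ L, x * y ∈ L)

include hL in
/-- the value of a polynomial, minus its constant term, is in `L`. -/
private theorem ktR_ev (r : ℕ → U) (hr : ∀ i, r i ∈ L) (q : P) :
    FreeAlgebra.lift ℤ r q - algebraMap ℤ U (aug q) ∈ L := by
  induction q using FreeAlgebra.induction with
  | grade0 c =>
    rw [AlgHom.commutes, AlgHom.commutes]
    have h1 : algebraMap ℤ U ((algebraMap ℤ ℤ) c) = algebraMap ℤ U c := rfl
    rw [h1, sub_self]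
    exact L.zero_mem
  | grade1 i =>
    have h1 : aug (FreeAlgebra.ι ℤ i) = 0 := by
      unfold aug
      exact FreeAlgebra.lift_ι_apply _ _
    rw [FreeAlgebra.lift_ι_apply, h1, map_zero, sub_zero]
    exact hr i
  | mul f g hf hg =>
    have h1 : FreeAlgebra.lift ℤ r (f * g) - algebraMap ℤ U (aug (f * g)) =
        (FreeAlgebra.lift ℤ r f - algebraMap ℤ U (aug f)) * (FreeAlgebra.lift ℤ r g - algebraMap ℤ U (aug g)) +
        (aug f • (FreeAlgebra.lift ℤ r g - algebraMap ℤ U (aug g)) +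
          aug g • (FreeAlgebra.lift ℤ r f - algebraMap ℤ U (aug f))) := by
      rw [map_mul, map_mul, map_mul, Algebra.smul_def, Algebra.smul_def]
      have h2 : algebraMap ℤ U (aug g) * FreeAlgebra.lift ℤ r f = FreeAlgebra.lift ℤ r f * algebraMap ℤ U (aug g) :=
        Algebra.commutes _ _
      have h3 : algebraMap ℤ U (aug g) * algebraMap ℤ U (aug f) = algebraMap ℤ U (aug f) * algebraMap ℤ U (aug g) :=
        Algebra.commutes _ _
      simp only [mul_sub, sub_mul]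
      rw [h2, h3]
      abel
    rw [h1]
    exact L.add_mem (hL _ hf _ hg) (L.add_mem (L.zsmul_mem hg _) (L.zsmul_mem hf _))
  | add f g hf hg =>
    have h1 : FreeAlgebra.lift ℤ r (f + g) - algebraMap ℤ U (aug (f + g)) =
        (FreeAlgebra.lift ℤ r f - algebraMap ℤ U (aug f)) + (FreeAlgebra.lift ℤ r g - algebraMap ℤ U (aug g)) := by
      rw [map_add, map_add, map_add]
      abel
    rw [h1]
    exact L.add_mem hf hg

include hL in
private theorem ktR_ev0 (r : ℕ → U) (hr : ∀ i, r i ∈ L) {q : P} (hq : aug q = 0) :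
    FreeAlgebra.lift ℤ r q ∈ L := by
  have h1 := ktR_ev hL r hr q
  rw [hq, map_zero, sub_zero] at h1
  exact h1

private theorem ktR_zero (q : P) : FreeAlgebra.lift ℤ (fun _ : ℕ => (0 : U)) q = algebraMap ℤ U (aug q) := by
  have h1 : FreeAlgebra.lift ℤ (fun _ : ℕ => (0 : U)) = (Algebra.ofId ℤ U).comp aug := by
    refine FreeAlgebra.hom_ext (funext fun i => ?_)
    have h2 : aug (FreeAlgebra.ι ℤ i) = 0 := by
      unfold aug
      exact FreeAlgebra.lift_ι_apply _ _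
    show FreeAlgebra.lift ℤ (fun _ : ℕ => (0 : U)) (FreeAlgebra.ι ℤ i) =
      Algebra.ofId ℤ U (aug (FreeAlgebra.ι ℤ i))
    rw [FreeAlgebra.lift_ι_apply, h2, map_zero]
  rw [h1]
  rfl

/-- the polynomials `q` without constant term such that `m * q(r) ∈ W`. -/
private noncomputable def ktRK (L : AddSubgroup U) (M : Set U) (W : AddSubgroup U) : Submodule ℤ P where
  carrier := {q | aug q = 0 ∧ ∀ r : ℕ → U, (∀ i, r i ∈ L) → ∀ m ∈ M, m * FreeAlgebra.lift ℤ r q ∈ W}
  add_mem' := by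
    rintro q q' ⟨h1, h2⟩ ⟨h3, h4⟩
    refine ⟨by rw [map_add, h1, h3, add_zero], fun r hr m hm => ?_⟩
    rw [map_add, mul_add]
    exact W.add_mem (h2 r hr m hm) (h4 r hr m hm)
  zero_mem' := by
    refine ⟨map_zero _, fun r _ m _ => ?_⟩
    rw [map_zero, mul_zero]
    exact W.zero_mem
  smul_mem' := by
    rintro n q ⟨h1, h2⟩
    refine ⟨by rw [map_smul, h1, smul_zero], fun r hr m hm => ?_⟩
    rw [map_smul, mul_smul_comm]
    exact W.zsmul_mem (h2 r hr m hm) n

private theorem ktRK_mem {M : Set U} {W : AddSubgroup U} {q : P} : q ∈ ktRK L M W ↔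
    aug q = 0 ∧ ∀ r : ℕ → U, (∀ i, r i ∈ L) → ∀ m ∈ M, m * FreeAlgebra.lift ℤ r q ∈ W := Iff.rfl

include hL in
private theorem ktRK_T (M : Set U) (hM : ∀ r m, r ∈ L → m ∈ M → m * r ∈ M)
    (W : AddSubgroup U) (hW : ∀ u x, x ∈ W → x * u ∈ W) : IsT (ktRK L M W) := by
  refine ⟨fun q hq => ?_, fun q hq q' => ?_, fun q hq q' => ?_, fun φ hφ q hq => ?_⟩
  · exact LinearMap.mem_ker.2 hq.1
  · obtain ⟨h1, h2⟩ := hq
    refine ⟨by rw [map_mul, h1, zero_mul], fun r hr m hm => ?_⟩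
    rw [map_mul, ← mul_assoc]
    exact hW _ _ (h2 r hr m hm)
  · obtain ⟨h1, h2⟩ := hq
    refine ⟨by rw [map_mul, h1, mul_zero], fun r hr m hm => ?_⟩
    have h3 := ktR_ev hL r hr q'
    have h4 : m * FreeAlgebra.lift ℤ r (q' * q) =
        (m * (FreeAlgebra.lift ℤ r q' - algebraMap ℤ U (aug q'))) * FreeAlgebra.lift ℤ r q +
          aug q' • (m * FreeAlgebra.lift ℤ r q) := by
      rw [map_mul, Algebra.smul_def, ← mul_assoc (algebraMap ℤ U (aug q')), Algebra.commutes (aug q') m]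
      simp only [mul_sub, sub_mul, mul_assoc]
      abel
    rw [h4]
    exact W.add_mem (h2 r hr _ (hM _ _ h3 hm)) (W.zsmul_mem (h2 r hr m hm) _)
  · obtain ⟨h1, h2⟩ := hq
    have e1 : aug.comp φ = aug := by
      refine FreeAlgebra.hom_ext (funext fun i => ?_)
      show aug (φ (FreeAlgebra.ι ℤ i)) = aug (FreeAlgebra.ι ℤ i)
      have h3 : aug (FreeAlgebra.ι ℤ i) = 0 := by
        unfold aug
        exact FreeAlgebra.lift_ι_apply _ _
      rw [h3]
      exact hφ i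
    have e2 : ∀ r : ℕ → U, (FreeAlgebra.lift ℤ r).comp φ =
        FreeAlgebra.lift ℤ (fun i => FreeAlgebra.lift ℤ r (φ (X i))) := by
      intro r
      refine FreeAlgebra.hom_ext (funext fun i => ?_)
      show FreeAlgebra.lift ℤ r (φ (FreeAlgebra.ι ℤ i)) =
        FreeAlgebra.lift ℤ (fun i => FreeAlgebra.lift ℤ r (φ (X i))) (FreeAlgebra.ι ℤ i)
      rw [FreeAlgebra.lift_ι_apply]
    refine ⟨?_, fun r hr m hm => ?_⟩
    · have h3 : aug (φ q) = (aug.comp φ) q := rfl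
      rw [h3, e1]
      exact h1
    · have h3 : FreeAlgebra.lift ℤ r (φ q) = ((FreeAlgebra.lift ℤ r).comp φ) q := rfl
      rw [h3, e2]
      exact h2 _ (fun i => ktR_ev0 hL r hr (hφ i)) m hm

include hL in
theorem ktRG (hLJ : L ≤ C.J) {T : Submodule ℤ P} (hT : C.Dst T) {V : Fin 3 → AddSubgroup U} (hV : C.Vals V)
    (M : Set U) (hM : ∀ r m, r ∈ L → m ∈ M → m * r ∈ M) (g g' : P)
    (hMA : ∀ m ∈ M, m ∈ C.A)
    (h : ∀ r : ℕ → U, (∀ i, r i ∈ L) → ∀ m ∈ M,
      In3 V (m * FreeAlgebra.lift ℤ r g) (m * FreeAlgebra.lift ℤ r g')) :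
    ∀ r : ℕ → U, (∀ i, r i ∈ L) → ∀ m ∈ M, m * FreeAlgebra.lift ℤ r g = 0 := by
  -- constant terms
  have hc : ∀ m ∈ M, In3 V (aug g • m) (aug g' • m) := by
    intro m hm
    have h1 := h (fun _ => 0) (fun _ => L.zero_mem) m hm
    rw [ktR_zero, ktR_zero, ← Algebra.commutes, ← Algebra.commutes, ← Algebra.smul_def, ← Algebra.smul_def] at h1
    exact h1
  have hc0 : ∀ m ∈ M, aug g • m = 0 := C.nest hV (aug g) (aug g') M hMA hc
  have hc0' : ∀ m ∈ M, aug g' • m = 0 := by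
    intro m hm
    obtain ⟨_, h2, h3⟩ := hc m hm
    rw [hc0 m hm, zero_add] at h3
    exact hV.disj 1 2 (by decide) _ h2 h3
  -- polynomials without constant term
  let gq : P := g - algebraMap ℤ P (aug g)
  let gq' : P := g' - algebraMap ℤ P (aug g')
  have ha : ∀ q : P, aug (q - algebraMap ℤ P (aug q)) = 0 := by
    intro q
    rw [map_sub, AlgHom.commutes]
    exact sub_self _
  have hval : ∀ (q : P) (r : ℕ → U) (m : U), aug q • m = 0 →
      m * FreeAlgebra.lift ℤ r (q - algebraMap ℤ P (aug q)) = m * FreeAlgebra.lift ℤ r q := by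
    intro q r m hm
    rw [map_sub, AlgHom.commutes, mul_sub, ← Algebra.commutes (aug q) m, ← Algebra.smul_def, hm, sub_zero]
  have hg : gq ∈ ktRK L M (V 0) := ⟨ha g, fun r hr m hm => by
    show m * FreeAlgebra.lift ℤ r (g - algebraMap ℤ P (aug g)) ∈ V 0
    rw [hval g r m (hc0 m hm)]
    exact (h r hr m hm).1⟩
  have hg' : gq' ∈ ktRK L M (V 1) := ⟨ha g', fun r hr m hm => by
    show m * FreeAlgebra.lift ℤ r (g' - algebraMap ℤ P (aug g')) ∈ V 1
    rw [hval g' r m (hc0' m hm)]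
    exact (h r hr m hm).2.1⟩
  have hgg : gq + gq' ∈ ktRK L M (V 2) := by
    refine ⟨?_, fun r hr m hm => ?_⟩
    · rw [map_add, ha g, ha g', add_zero]
    · show m * FreeAlgebra.lift ℤ r ((g - algebraMap ℤ P (aug g)) + (g' - algebraMap ℤ P (aug g'))) ∈ V 2
      rw [map_add, mul_add, hval g r m (hc0 m hm), hval g' r m (hc0' m hm)]
      exact (h r hr m hm).2.2
  have hK : ∀ i, IsT (ktRK L M (V i)) := fun i => ktRK_T hL M hM (V i) fun u x hx => hV.right i u x hx
  have hT0 : T ≤ ktRK L M ⊥ := by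
    intro q hq
    refine ⟨LinearMap.mem_ker.1 (hT.1.le hq), fun r hr m _ => ?_⟩
    rw [hT.2.2 q hq r fun i => hLJ (hr i), mul_zero]
    exact AddSubgroup.zero_mem _
  have hle : ∀ i, ktRK L M ⊥ ≤ ktRK L M (V i) := by
    intro i q hq
    refine ⟨hq.1, fun r hr m hm => ?_⟩
    have h1 := AddSubgroup.mem_bot.1 (hq.2 r hr m hm)
    rw [h1]
    exact (V i).zero_mem
  have hinf : ∀ i j, i ≠ j → ktRK L M (V i) ⊓ ktRK L M (V j) ≤ ktRK L M ⊥ := by
    rintro i j hij q ⟨h1, h2⟩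
    exact ⟨h1.1, fun r hr m hm => AddSubgroup.mem_bot.2 (hV.disj i j hij _ (h1.2 r hr m hm) (h2.2 r hr m hm))⟩
  have hd := hT.2.1 _ (hK 2) _ (hK 0) _ (hK 1) (hT0.trans (hle 2)) (hT0.trans (hle 0)) (hT0.trans (hle 1))
  have h1 : gq + gq' ∈ ktRK L M (V 2) ⊓ (ktRK L M (V 0) ⊔ ktRK L M (V 1)) :=
    ⟨hgg, Submodule.add_mem_sup hg hg'⟩
  rw [hd] at h1
  have h2 : gq + gq' ∈ ktRK L M ⊥ := sup_le (hinf 2 0 (by decide)) (hinf 2 1 (by decide)) h1
  intro r hr m hm
  have h3 := AddSubgroup.mem_bot.1 (h2.2 r hr m hm)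
  rw [map_add, mul_add] at h3
  have h4 := hg.2 r hr m hm
  have h5 := hg'.2 r hr m hm
  have h6 : m * FreeAlgebra.lift ℤ r gq ∈ V 1 := by
    rw [eq_neg_of_add_eq_zero_left h3]
    exact (V 1).neg_mem h5
  rw [← hval g r m (hc0 m hm)]
  exact hV.disj 0 1 (by decide) _ h4 h6

end Base

end ADM
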