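import Pool.Agent.ADM.DefC
import Pool.Agent.ADM.KtG
import Pool.Agent.ADM.KtRG

/-!
# ADM-KtW

The transfer lemmas `ktG`, `ktRG` for combinations of words.
-/

namespace ADM

open AD ADN ADN.Ctx

namespace Base

variable {U : Type} [Ring U] {Q : Type} [Fintype Q] (C : Base U Q)
variable {ι : Type} [Fintype ι] [DecidableEq ι]

omit [Fintype ι] [DecidableEq ι] in
private theorem ktw_val (enc : ι → ℕ) (ρ : ℕ → U) (d : List ι →₀ ℤ) :
    FreeAlgebra.lift ℤ ρ (d.sum fun v n => n • mon (v.map enc)) = lv (fun i => ρ (enc i)) d := by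
  unfold lv Finsupp.sum
  rw [map_sum]
  refine Finset.sum_congr rfl fun v _ => ?_
  rw [map_zsmul, mon, map_list_prod, List.map_map, List.map_map]
  congr 2
  refine List.map_congr_left fun k _ => ?_
  simp

omit [Fintype ι] [DecidableEq ι] in
private theorem ktw_Pp (enc : ι → ℕ) (d : List ι →₀ ℤ) (hd : d [] = 0) :
    (d.sum fun v n => n • mon (v.map enc)) ∈ Pp := by
  unfold Finsupp.sum
  refine Submodule.sum_mem _ fun v hv => Submodule.smul_mem _ _ ?_
  cases v with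
  | nil => exact absurd hd (Finsupp.mem_support_iff.1 hv)
  | cons a w =>
    change aug (mon ((a :: w).map enc)) = 0
    have h : aug (X (enc a)) = 0 := by simp [aug, X]
    simp only [mon, List.map_cons, List.prod_cons, map_mul, h, zero_mul]

omit [DecidableEq ι] in
private theorem ktw_enc : ∃ enc : ι → ℕ, Function.Injective enc :=
  ⟨fun k => (Fintype.equivFin ι k : ℕ), fun _ _ hxy => (Fintype.equivFin ι).injective (Fin.ext hxy)⟩

omit [Fintype ι] [DecidableEq ι] in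
/-- extension of a family of elements of `L` -/
private theorem ktw_ext (L : AddSubgroup U) {enc : ι → ℕ} (henc : Function.Injective enc)
    (r : ι → U) (hr : ∀ i, r i ∈ L) :
    ∃ ρ : ℕ → U, (∀ i, ρ i ∈ L) ∧ (fun i => ρ (enc i)) = r := by
  refine ⟨Function.extend enc r 0, fun i => ?_, ?_⟩
  · by_cases hi : ∃ k, enc k = i
    · obtain ⟨k, rfl⟩ := hi
      rw [henc.extend_apply]
      exact hr k
    · rw [Function.extend_apply' _ _ _ hi]
      exact L.zero_mem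
  · funext k
    exact henc.extend_apply _ _ _

theorem ktW (L : AddSubgroup U) (hL : ∀ x y, x ∈ L → y ∈ L → x * y ∈ L) (hLJ : L ≤ C.J)
    {T : Submodule ℤ P} (hT : C.Dst T) {V : Fin 3 → AddSubgroup U} (hV : C.Vals V)
    (M : Set U) (hM : ∀ r m, r ∈ L → m ∈ M → r * m ∈ M) (c c' : List ι →₀ ℤ)
    (hMA : (∀ m ∈ M, m ∈ C.A) ∨ (c [] = 0 ∧ c' [] = 0))
    (h : ∀ r : ι → U, (∀ i, r i ∈ L) → ∀ m ∈ M, In3 V (lv r c * m) (lv r c' * m)) :
    ∀ r : ι → U, (∀ i, r i ∈ L) → ∀ m ∈ M, lv r c * m = 0 := by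
  obtain ⟨enc, henc⟩ := ktw_enc (ι := ι)
  have key := C.ktG (L := L) (fun x hx y hy => hL x y hx hy) hLJ hT hV M hM
    (c.sum fun v n => n • mon (v.map enc)) (c'.sum fun v n => n • mon (v.map enc))
    (hMA.imp id fun h0 => ⟨ktw_Pp enc c h0.1, ktw_Pp enc c' h0.2⟩)
    (fun ρ hρ m hm => by
      rw [ktw_val, ktw_val]
      exact h _ (fun i => hρ (enc i)) m hm)
  intro r hr m hm
  obtain ⟨ρ, hρ, he⟩ := ktw_ext L henc r hr
  have h1 := key ρ hρ m hm
  rw [ktw_val, he] at h1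
  exact h1

theorem ktWR (L : AddSubgroup U) (hL : ∀ x y, x ∈ L → y ∈ L → x * y ∈ L) (hLJ : L ≤ C.J)
    {T : Submodule ℤ P} (hT : C.Dst T) {V : Fin 3 → AddSubgroup U} (hV : C.Vals V)
    (M : Set U) (hM : ∀ r m, r ∈ L → m ∈ M → m * r ∈ M) (c c' : List ι →₀ ℤ)
    (hMA : ∀ m ∈ M, m ∈ C.A)
    (h : ∀ r : ι → U, (∀ i, r i ∈ L) → ∀ m ∈ M, In3 V (m * lv r c) (m * lv r c')) :
    ∀ r : ι → U, (∀ i, r i ∈ L) → ∀ m ∈ M, m * lv r c = 0 := by
  obtain ⟨enc, henc⟩ := ktw_enc (ι := ι)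
  have key := C.ktRG (L := L) (fun x hx y hy => hL x y hx hy) hLJ hT hV M hM
    (c.sum fun v n => n • mon (v.map enc)) (c'.sum fun v n => n • mon (v.map enc)) hMA
    (fun ρ hρ m hm => by
      rw [ktw_val, ktw_val]
      exact h _ (fun i => hρ (enc i)) m hm)
  intro r hr m hm
  obtain ⟨ρ, hρ, he⟩ := ktw_ext L henc r hr
  have h1 := key ρ hρ m hm
  rw [ktw_val, he] at h1
  exact h1

end Base

end ADM
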