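import Pool.Agent.ADM.Wsep
import Pool.Agent.ADM.DefP

/-!
# ADM-LoopCls

Reduction to words in one class.

PLAN.  Strong induction on `c.support.card`.  If `c = 0` the value is 0.  Otherwise let `v₀ ∈ c.support`, `c₁ = c.filter (Ew v₀)`, `c₂ = c - c₁`
(`= c.filter (¬ Ew v₀)`, smaller support), the same for `c'` (`c'₁`, `c'₂`).  `sepw` for `c`, `V 0`; `c'`, `V 1`; `c + c'`, `V 2` (filter is additive, `val_add`)
gives `In3 V (val r a c₁) (val r a c'₁)`, hence `Pr V a σ R v₀ c₁ c'₁` and `val r a c₁ = 0` by hcls.  `In3` for `c₂, c'₂` by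
subtraction.  So `val r a c₂ = 0` by induction, and `val r a c = 0`.
-/

namespace ADM

open AD ADN ADN.Ctx

namespace Ctx

variable {U : Type} [Ring U] {Q : Type} [Fintype Q] (C : Ctx U Q)
variable {ι : Type} [Fintype ι] [DecidableEq ι]

omit [Fintype ι] in
private theorem ew_refl (a : Q) (σ : ι → ℕ) (v : List ι) : C.Ew a σ v v :=
  ⟨fun _ => Nat.ModEq.refl _, Nat.ModEq.refl _⟩

omit [Fintype ι] [DecidableEq ι] in
private theorem val_split (r : ι → U) (a : Q) (c : List ι →₀ ℤ) (P : List ι → Prop) [DecidablePred P] :
    C.val r a c = C.val r a (c.filter P) + C.val r a (c.filter fun v => ¬ P v) := by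
  rw [← C.val_add, Finsupp.filter_pos_add_filter_neg]

theorem loopCls {V : Fin 3 → AddSubgroup U} (hV : C.Vals V) {a : Q} (ha : 2 ≤ C.r a) (σ : ι → ℕ)
    (R : Finset ι) (hcls : ∀ v₀ c c', C.Pr V a σ R v₀ c c' → ∀ r, C.LHom a σ r → C.val r a c = 0)
    (c c' : List ι →₀ ℤ) (hc : ∀ v ∈ c.support, v.toFinset = R) (hc' : ∀ v ∈ c'.support, v.toFinset = R)
    (h : ∀ r, C.LHom a σ r → In3 V (C.val r a c) (C.val r a c')) :
    ∀ r, C.LHom a σ r → C.val r a c = 0 := by
  classical
  have key : ∀ (N : ℕ) (c c' : List ι →₀ ℤ), c.support.card ≤ N →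
      (∀ v ∈ c.support, v.toFinset = R) → (∀ v ∈ c'.support, v.toFinset = R) →
      (∀ r, C.LHom a σ r → In3 V (C.val r a c) (C.val r a c')) →
      ∀ r, C.LHom a σ r → C.val r a c = 0 := by
    intro N
    induction N with
    | zero =>
      intro c c' hN _ _ _ r _
      have h0 : c = 0 := by
        rw [← Finsupp.support_eq_empty]
        exact Finset.card_eq_zero.1 (Nat.le_zero.1 hN)
      rw [h0, C.val_zero]
    | succ N ih =>
      intro c c' hN hc hc' h r hr
      by_cases hcz : c = 0
      · rw [hcz, C.val_zero]
      · obtain ⟨v₀, hv₀⟩ := Finsupp.support_nonempty_iff.2 hcz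
        have s0 := C.sepw ha σ (V 0) (hV.left 0) (hV.right 0) c (fun r hr => (h r hr).1) v₀
        have s1 := C.sepw ha σ (V 1) (hV.left 1) (hV.right 1) c' (fun r hr => (h r hr).2.1) v₀
        have s2 := C.sepw ha σ (V 2) (hV.left 2) (hV.right 2) (c + c')
          (fun r hr => by rw [C.val_add]; exact (h r hr).2.2) v₀
        have i1 : ∀ r, C.LHom a σ r → In3 V (C.val r a (c.filter fun v => C.Ew a σ v₀ v))
            (C.val r a (c'.filter fun v => C.Ew a σ v₀ v)) := by
          intro r hr
          refine ⟨s0 r hr, s1 r hr, ?_⟩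
          have := s2 r hr
          rw [Finsupp.filter_add, C.val_add] at this
          exact this
        have hp : C.Pr V a σ R v₀ (c.filter fun v => C.Ew a σ v₀ v)
            (c'.filter fun v => C.Ew a σ v₀ v) := by
          refine ⟨fun v hv => ?_, fun v hv => ?_, i1⟩
          · rw [Finsupp.support_filter, Finset.mem_filter] at hv
            exact ⟨hc v hv.1, hv.2⟩
          · rw [Finsupp.support_filter, Finset.mem_filter] at hv
            exact ⟨hc' v hv.1, hv.2⟩
        have z1 := hcls v₀ _ _ hp r hr
        have i2 : ∀ r, C.LHom a σ r → In3 V (C.val r a (c.filter fun v => ¬ C.Ew a σ v₀ v))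
            (C.val r a (c'.filter fun v => ¬ C.Ew a σ v₀ v)) := by
          intro r hr
          obtain ⟨x0, x1, x2⟩ := i1 r hr
          obtain ⟨y0, y1, y2⟩ := h r hr
          have e := C.val_split r a c (fun v => C.Ew a σ v₀ v)
          have e' := C.val_split r a c' (fun v => C.Ew a σ v₀ v)
          refine ⟨?_, ?_, ?_⟩
          · have : C.val r a (c.filter fun v => ¬ C.Ew a σ v₀ v) =
                C.val r a c - C.val r a (c.filter fun v => C.Ew a σ v₀ v) := by
              rw [e]; abel
            rw [this]
            exact (V 0).sub_mem y0 x0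
          · have : C.val r a (c'.filter fun v => ¬ C.Ew a σ v₀ v) =
                C.val r a c' - C.val r a (c'.filter fun v => C.Ew a σ v₀ v) := by
              rw [e']; abel
            rw [this]
            exact (V 1).sub_mem y1 x1
          · have : C.val r a (c.filter fun v => ¬ C.Ew a σ v₀ v) +
                C.val r a (c'.filter fun v => ¬ C.Ew a σ v₀ v) =
                (C.val r a c + C.val r a c') -
                (C.val r a (c.filter fun v => C.Ew a σ v₀ v) +
                  C.val r a (c'.filter fun v => C.Ew a σ v₀ v)) := by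
              rw [e, e']; abel
            rw [this]
            exact (V 2).sub_mem y2 x2
        have hcard : (c.filter fun v => ¬ C.Ew a σ v₀ v).support.card ≤ N := by
          have hlt : (c.filter fun v => ¬ C.Ew a σ v₀ v).support.card < c.support.card := by
            apply Finset.card_lt_card
            rw [Finset.ssubset_iff_of_subset]
            · refine ⟨v₀, hv₀, ?_⟩
              rw [Finsupp.support_filter, Finset.mem_filter]
              rintro ⟨_, h2⟩
              exact h2 (C.ew_refl a σ v₀)
            · rw [Finsupp.support_filter]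
              exact Finset.filter_subset _ _
          omega
        have z2 := ih (c.filter fun v => ¬ C.Ew a σ v₀ v) (c'.filter fun v => ¬ C.Ew a σ v₀ v)
          hcard
          (fun v hv => by
            rw [Finsupp.support_filter, Finset.mem_filter] at hv
            exact hc v hv.1)
          (fun v hv => by
            rw [Finsupp.support_filter, Finset.mem_filter] at hv
            exact hc' v hv.1) i2 r hr
        rw [C.val_split r a c (fun v => C.Ew a σ v₀ v), z1, z2, add_zero]
  exact key c.support.card c c' le_rfl hc hc' h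

end Ctx

end ADM
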