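import Pool.Agent.ADM.KtW
import Pool.Agent.ADM.HB

/-!
# ADM-Ty0L

Combinations of words of untwisted loops.

PLAN.  `L = {x | H a a 0 x}` (additive subgroup, closed under multiplication, `≤ J`: H_add, H_neg, H_mul), `M = {m | e a * m = m}` (closed under left
multiplication by `L`: `x = e a * x`).  For `LHom` `r` (letters of `R`): `val r a c = e a * lv r c`, and `lv r c * e a = e a * lv r c` (nonempty words of loops are fixed by
`e a` on both sides), so `lv r c * m = (val r a c) * m` for `m ∈ M`; `V i` are closed under right multiplication, so `In3 V (lv r c * m) (lv r c' * m)`.  Given `r'` with values in `L`,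
put `r k = r' k` for `k ∈ R` (`H_modEq`, `σ k ≡ 0` modulo `r a`) and `0` otherwise; `lv r c = lv r' c`.  `ktW`: `hMA`: if `a ≠ o`, `m = e a * m ∈ A`; if `a = o`,
`c [] = 0 = c' []`.  Conclusion for `m = e a`.
-/

namespace ADM

open AD ADN ADN.Ctx

namespace Ctx

variable {U : Type} [Ring U] {Q : Type} [Fintype Q] (C : Ctx U Q)
variable {ι : Type} [Fintype ι] [DecidableEq ι]

omit [Fintype ι] [DecidableEq ι] in
private theorem ty0_val (r : ι → U) (a : Q) (c : List ι →₀ ℤ) :
    C.val r a c = C.e a * lv r c := by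
  unfold Base.val lv Finsupp.sum
  rw [Finset.mul_sum]
  refine Finset.sum_congr rfl fun v _ => ?_
  unfold Base.wv
  rw [mul_smul_comm]

omit [Fintype ι] [DecidableEq ι] in
private theorem ty0_left {a : Q} {σ : ι → ℕ} {r : ι → U} (hr : C.LHom a σ r) (c : List ι →₀ ℤ)
    {m : U} (hm : C.e a * m = m) : C.e a * lv r c * m = lv r c * m := by
  unfold lv Finsupp.sum
  rw [Finset.mul_sum, Finset.sum_mul, Finset.sum_mul]
  refine Finset.sum_congr rfl fun v _ => ?_
  beta_reduce
  by_cases hv : v = []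
  · subst hv
    rw [List.map_nil, List.prod_nil, mul_smul_comm, smul_mul_assoc, smul_mul_assoc, mul_one, one_mul,
      hm]
  · rw [mul_smul_comm, (hom_prod C hr hv).1.2.1]

omit [Fintype ι] [DecidableEq ι] in
private theorem ty0_comm {a : Q} {σ : ι → ℕ} {r : ι → U} (hr : C.LHom a σ r) (c : List ι →₀ ℤ) :
    C.e a * lv r c = lv r c * C.e a := by
  unfold lv Finsupp.sum
  rw [Finset.mul_sum, Finset.sum_mul]
  refine Finset.sum_congr rfl fun v _ => ?_
  beta_reduce
  by_cases hv : v = []
  · subst hv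
    rw [List.map_nil, List.prod_nil, mul_smul_comm, smul_mul_assoc, mul_one, one_mul]
  · rw [mul_smul_comm, smul_mul_assoc, (hom_prod C hr hv).1.2.1, (hom_prod C hr hv).1.2.2]

omit [Fintype ι] in
private theorem ty0_congr {r r' : ι → U} {R : Finset ι} (h : ∀ k ∈ R, r k = r' k) {c : List ι →₀ ℤ}
    (hc : ∀ v ∈ c.support, v.toFinset = R) : lv r c = lv r' c := by
  unfold lv Finsupp.sum
  refine Finset.sum_congr rfl fun v hv => ?_
  have h1 : v.map r = v.map r' := by
    refine List.map_congr_left fun k hk => h k ?_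
    rw [← hc v hv, List.mem_toFinset]
    exact hk
  beta_reduce
  rw [h1]

theorem ty0L {T : Submodule ℤ P} (hT : C.Dst T) {V : Fin 3 → AddSubgroup U} (hV : C.Vals V) (a : Q)
    (σ : ι → ℕ) (R : Finset ι) (hR : ∀ k ∈ R, ¬ C.Tw a (σ k))
    (c c' : List ι →₀ ℤ) (hc : ∀ v ∈ c.support, v.toFinset = R) (hc' : ∀ v ∈ c'.support, v.toFinset = R)
    (h0 : a = C.o → c [] = 0 ∧ c' [] = 0)
    (h : ∀ r, C.LHom a σ r → In3 V (C.val r a c) (C.val r a c')) :
    ∀ r, C.LHom a σ r → C.val r a c = 0 := by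
  classical
  have hmod : ∀ k ∈ R, σ k ≡ 0 [MOD C.r a] := fun k hk => by
    have h1 := hR k hk
    unfold Tw at h1
    rw [not_not] at h1
    exact (Nat.modEq_zero_iff_dvd).2 h1
  let L : AddSubgroup U :=
    { carrier := {x | C.H a a 0 x}
      zero_mem' := H_zero C 0
      add_mem' := fun {x y} hx hy => H_add C hx hy
      neg_mem' := fun {x} hx => H_neg C hx }
  have hL : ∀ x y, x ∈ L → y ∈ L → x * y ∈ L := fun x y hx hy => by
    have h1 := H_mul C (a := a) (σ := 0) (τ := 0) hx hy
    exact h1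
  have hLJ : L ≤ C.J := fun x hx => hx.1.1
  have hM : ∀ r m, r ∈ L → m ∈ {m : U | C.e a * m = m} → r * m ∈ {m : U | C.e a * m = m} := by
    intro r m hr hm
    show C.e a * (r * m) = r * m
    have h1 : C.e a * r = r := hr.1.2.1
    rw [← mul_assoc, h1]
  have hMA : (∀ m ∈ {m : U | C.e a * m = m}, m ∈ C.A) ∨ (c [] = 0 ∧ c' [] = 0) := by
    by_cases ha : a = C.o
    · exact Or.inr (h0 ha)
    · refine Or.inl fun m hm => ?_
      have h1 : C.e a * m = m := hm
      rw [← h1]
      exact C.A_right _ _ (C.e_mem a ha)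
  have hkey : ∀ r : ι → U, (∀ i, r i ∈ L) → ∀ m ∈ {m : U | C.e a * m = m},
      In3 V (lv r c * m) (lv r c' * m) := by
    intro r' hr' m hm
    have hr : C.LHom a σ (fun k => if k ∈ R then r' k else 0) := by
      intro k
      show C.H a a (σ k) (if k ∈ R then r' k else 0)
      split_ifs with hk
      · exact H_modEq C (hmod k hk).symm (hr' k)
      · exact H_zero C (σ k)
    have e1 : lv r' c = lv (fun k => if k ∈ R then r' k else 0) c :=
      ty0_congr (fun k hk => by rw [if_pos hk]) hc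
    have e2 : lv r' c' = lv (fun k => if k ∈ R then r' k else 0) c' :=
      ty0_congr (fun k hk => by rw [if_pos hk]) hc'
    obtain ⟨h1, h2, h3⟩ := h _ hr
    have hm' : C.e a * m = m := hm
    rw [e1, e2, ← ty0_left C hr c hm', ← ty0_left C hr c' hm', ← ty0_val C, ← ty0_val C]
    refine ⟨hV.right 0 _ _ h1, hV.right 1 _ _ h2, ?_⟩
    rw [← add_mul]
    exact hV.right 2 _ _ h3
  intro r hr
  have hr' : ∀ i, (fun k => if k ∈ R then r k else 0) i ∈ L := by
    intro k
    show C.H a a 0 (if k ∈ R then r k else 0)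
    split_ifs with hk
    · exact H_modEq C (hmod k hk) (hr k)
    · exact H_zero C 0
  have hea : C.e a ∈ {m : U | C.e a * m = m} := (C.coi.toOrthogonalIdempotents.idem a).eq
  have h1 := C.toBase.ktW L hL hLJ hT hV _ hM c c' hMA hkey _ hr' (C.e a) hea
  have e1 : lv r c = lv (fun k => if k ∈ R then r k else 0) c :=
    ty0_congr (fun k hk => by rw [if_pos hk]) hc
  rw [ty0_val C, ty0_comm C hr, e1]
  exact h1

end Ctx

end ADM
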