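import Pool.Agent.ADM.Q4
import Pool.Agent.ADM.DefP
import Pool.Agent.ADM.Nest

/-!
# ADM-M4a

Type M, field with four elements: the words `x`, `x x x`.

PLAN.  `x` of twist `s = σ x` odd, `t = x x x`, `2 t = 0` (pM).  `val r a c = z₁ x + z₃ t`, `val r a c' = z₁' x + z₃' t` with `x = r x`,
`z₁ = c [x]`, `z₃ = c [x,x,x]` (words of the support with other letters do not occur, the other words `x^m` vanish: hypothesis hv).  Use `q4`.
First alternative: `t = 0` for all `x`: `nest` for the element `x`.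
Second alternative: `2 x = m t`.
* `z₁` odd: `x x (z₁ x + z₃ t) = z₁ t + z₃ x^5 = t` (`2 t = 0`, products of four loops vanish: vanM4), so `t ∈ V 0`, `z₁ x ∈ V 0`, `x ∈ V 0` (inverse of `z₁` modulo
  `p ^ K`, `inv_mod`); so `z₁' x + z₃' t ∈ V 0 ∩ V 1`, it is 0 (`hV.disj`), and `z₁ x + z₃ t ∈ V 0 ∩ V 2` is 0.
* `z₁'` odd: similarly `t, x ∈ V 1`, so `z₁ x + z₃ t ∈ V 0 ∩ V 1` is 0.
* both even: `z₁ x = (z₁ / 2) m t`: both values are integer multiples `n t`, `n' t` (n, n' independent of `r`): `nest`.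
-/

namespace ADM

open AD ADN ADN.Ctx

namespace Ctx

variable {U : Type} [Ring U] {Q : Type} [Fintype Q] (C : Ctx U Q)
variable {ι : Type} [DecidableEq ι]

/-- the value of a combination in which only two words count -/
private theorem m4a_val {a : Q} {σ : ι → ℕ} {R : Finset ι} {v₀ : List ι} {c : List ι →₀ ℤ}
    (hs : ∀ v ∈ c.support, v.toFinset = R ∧ C.Ew a σ v₀ v) (x : ι)
    (hv : ∀ v, v.toFinset = R → C.Ew a σ v₀ v → v ≠ [x] → v ≠ [x, x, x] →
      ∀ r, C.LHom a σ r → C.wv r a v = 0) {r : ι → U} (hr : C.LHom a σ r) :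
    C.val r a c = c [x] • r x + c [x, x, x] • (r x * r x * r x) := by
  classical
  have h1 : C.wv r a [x] = r x := by
    rw [C.hom_wv hr (by simp)]
    simp
  have h3 : C.wv r a [x, x, x] = r x * r x * r x := by
    rw [C.hom_wv hr (by simp)]
    simp [mul_assoc]
  have hne : ([x] : List ι) ≠ [x, x, x] := by simp
  have e1 : C.val r a c = ∑ v ∈ c.support ∪ {[x], [x, x, x]}, c v • C.wv r a v := by
    unfold Base.val Finsupp.sum
    refine Finset.sum_subset Finset.subset_union_left fun v _ hv2 => ?_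
    show c v • C.wv r a v = 0
    rw [Finsupp.notMem_support_iff.1 hv2, zero_smul]
  have e2 : ∑ v ∈ c.support ∪ {[x], [x, x, x]}, c v • C.wv r a v =
      ∑ v ∈ ({[x], [x, x, x]} : Finset (List ι)), c v • C.wv r a v := by
    symm
    refine Finset.sum_subset Finset.subset_union_right fun v hv1 hv2 => ?_
    rw [Finset.mem_insert, Finset.mem_singleton, not_or] at hv2
    by_cases h : v ∈ c.support
    · obtain ⟨a1, a2⟩ := hs v h
      rw [hv v a1 a2 hv2.1 hv2.2 r hr, smul_zero]
    · rw [Finsupp.notMem_support_iff.1 h, zero_smul]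
  rw [e1, e2, Finset.sum_pair hne, h1, h3]

theorem m4a (hC : C.Cub) (hM : TyM C.Rl C.p) (hTu : C.TuP) (hp : C.p = 2)
    {V : Fin 3 → AddSubgroup U} (hV : C.Vals V) {a : Q} (ha : C.r a = 2) (σ : ι → ℕ) (R : Finset ι)
    (v₀ : List ι) (c c' : List ι →₀ ℤ) (h : C.Pr V a σ R v₀ c c') (x : ι) (hx : C.Tw a (σ x))
    (hv : ∀ v, v.toFinset = R → C.Ew a σ v₀ v → v ≠ [x] → v ≠ [x, x, x] → ∀ r, C.LHom a σ r → C.wv r a v = 0) :
    ∀ r, C.LHom a σ r → C.val r a c = 0 := by
  have hval : ∀ r, C.LHom a σ r →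
      C.val r a c = c [x] • r x + c [x, x, x] • (r x * r x * r x) := fun r hr =>
    C.m4a_val h.supp x hv hr
  have hval' : ∀ r, C.LHom a σ r →
      C.val r a c' = c' [x] • r x + c' [x, x, x] • (r x * r x * r x) := fun r hr =>
    C.m4a_val h.supp' x hv hr
  have hin : ∀ r, C.LHom a σ r →
      In3 V (c [x] • r x + c [x, x, x] • (r x * r x * r x))
        (c' [x] • r x + c' [x, x, x] • (r x * r x * r x)) := by
    intro r hr
    have h1 := h.in3 r hr
    rw [hval r hr, hval' r hr] at h1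
    exact h1
  rcases C.q4 hC hM hTu hp ha (σ x) hx with hq | ⟨m, hm⟩
  · -- the cubes vanish
    intro r hr
    rw [hval r hr, hq (r x) (hr x), smul_zero, add_zero]
    refine C.toBase.nest hV (c [x]) (c' [x]) {y | ∃ r, C.LHom a σ r ∧ y = r x} ?_ ?_ (r x) ⟨r, hr, rfl⟩
    · rintro y ⟨r, hr, rfl⟩
      exact C.J_le (hr x).1.1
    · rintro y ⟨r, hr, rfl⟩
      have h1 := hin r hr
      rw [hq (r x) (hr x), smul_zero, smul_zero, add_zero, add_zero] at h1
      exact h1
  · have h2t : ∀ r, C.LHom a σ r → (2 : ℤ) • (r x * r x * r x) = 0 := by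
      intro r hr
      have h1 := C.pM hC hM (by omega : 2 ≤ C.r a) (fun _ => σ x) ⟨0, hx⟩ (fun _ => r x)
        (fun _ => hr x)
      rw [hp] at h1
      exact h1
    have h5 : ∀ r, C.LHom a σ r → r x * r x * (r x * r x * r x) = 0 := by
      intro r hr
      have h1 := C.vanM4 hC hM (by omega : 2 ≤ C.r a) σ [x, x, x, x, x] (by simp)
        ⟨x, by simp, hx⟩ r hr
      have h2 : r x * r x * (r x * r x * r x) = (([x, x, x, x, x] : List ι).map r).prod := by
        simp [mul_assoc]
      rw [h2, h1]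
    have hodd : ∀ (z : ℤ), ¬ (2 : ℤ) ∣ z → ∀ t : U, (2 : ℤ) • t = 0 → z • t = t := by
      intro z hz t ht
      obtain ⟨k, hk⟩ : ∃ k : ℤ, z = k * 2 + 1 := ⟨z / 2, by omega⟩
      rw [hk, add_smul, mul_smul, ht, smul_zero, zero_add, one_smul]
    -- if a combination with odd first coefficient lies in `V i`, then `x` and `t` lie in `V i`
    have key : ∀ (i : Fin 3) (z z' : ℤ), ¬ (2 : ℤ) ∣ z → ∀ r, C.LHom a σ r →
        z • r x + z' • (r x * r x * r x) ∈ V i → r x ∈ V i ∧ r x * r x * r x ∈ V i := by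
      intro i z z' hz r hr hmem
      have h1 : r x * r x * (z • r x + z' • (r x * r x * r x)) = r x * r x * r x := by
        rw [mul_add, mul_smul_comm, mul_smul_comm, h5 r hr, smul_zero, add_zero,
          hodd z hz _ (h2t r hr)]
      have h2 : r x * r x * r x ∈ V i := by
        rw [← h1]
        exact hV.left i _ _ hmem
      have h3 : z • r x ∈ V i := by
        have h4 := (V i).sub_mem hmem ((V i).zsmul_mem h2 z')
        rwa [add_sub_cancel_right] at h4
      have hz' : ¬ (C.p : ℤ) ∣ z := by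
        rw [hp]
        exact hz
      obtain ⟨n, hn⟩ := C.toBase.inv_mod hz'
      have h4 : r x ∈ V i := by
        rw [← hn (r x) (C.J_le (hr x).1.1), mul_smul]
        exact (V i).zsmul_mem h3 n
      exact ⟨h4, h2⟩
    by_cases hz : (2 : ℤ) ∣ c [x]
    · by_cases hz' : (2 : ℤ) ∣ c' [x]
      · obtain ⟨u, hu⟩ := hz
        obtain ⟨u', hu'⟩ := hz'
        have hc1 : ∀ r, C.LHom a σ r → c [x] • r x + c [x, x, x] • (r x * r x * r x) =
            (u * m + c [x, x, x]) • (r x * r x * r x) := by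
          intro r hr
          rw [hu, mul_comm (2 : ℤ) u, mul_smul, hm (r x) (hr x), add_smul, mul_smul]
        have hc2 : ∀ r, C.LHom a σ r → c' [x] • r x + c' [x, x, x] • (r x * r x * r x) =
            (u' * m + c' [x, x, x]) • (r x * r x * r x) := by
          intro r hr
          rw [hu', mul_comm (2 : ℤ) u', mul_smul, hm (r x) (hr x), add_smul, mul_smul]
        intro r hr
        rw [hval r hr, hc1 r hr]
        refine C.toBase.nest hV (u * m + c [x, x, x]) (u' * m + c' [x, x, x])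
          {y | ∃ r, C.LHom a σ r ∧ y = r x * r x * r x} ?_ ?_ _ ⟨r, hr, rfl⟩
        · rintro y ⟨r, hr, rfl⟩
          exact C.A_left _ _ (C.J_le (hr x).1.1)
        · rintro y ⟨r, hr, rfl⟩
          have h1 := hin r hr
          rw [hc1 r hr, hc2 r hr] at h1
          exact h1
      · intro r hr
        rw [hval r hr]
        obtain ⟨g0, g1, g2⟩ := hin r hr
        obtain ⟨k1, k2⟩ := key 1 _ _ hz' r hr g1
        refine hV.disj 0 1 (by decide) _ g0 ?_
        exact (V 1).add_mem ((V 1).zsmul_mem k1 _) ((V 1).zsmul_mem k2 _)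
    · intro r hr
      rw [hval r hr]
      obtain ⟨g0, g1, g2⟩ := hin r hr
      obtain ⟨k1, k2⟩ := key 0 _ _ hz r hr g0
      have h1 : c' [x] • r x + c' [x, x, x] • (r x * r x * r x) = 0 := by
        refine hV.disj 0 1 (by decide) _ ?_ g1
        exact (V 0).add_mem ((V 0).zsmul_mem k1 _) ((V 0).zsmul_mem k2 _)
      rw [h1, add_zero] at g2
      exact hV.disj 0 2 (by decide) _ g0 g2

end Ctx

end ADM
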