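import Pool.Agent.ADM.Q4
import Pool.Agent.ADM.DefP
import Pool.Agent.ADM.Nest

/-!
# ADM-M4b

Type M, field with four elements: the words `x y x`, `y x y`.

PLAN.  `σ x`, `σ y` are both odd (`r a = 2`), so `H a a (σ x) = H a a (σ y)` (`H_modEq`) and the values of the letters `x` and `y` may be exchanged: for
`LHom` `r` the map `r ∘ Equiv.swap x y` is `LHom`.  `t = x y x`, `t' = y x y` (values), `2 t = 0`, `2 t' = 0` (pM).
`val r a c = z₁ t + z₂ t'`, `val r a c' = z₁' t + z₂' t'` (`z₁ = c [x,y,x]`, `z₂ = c [y,x,y]`), only the parities matter; exchanging gives `z₁ t' + z₂ t ∈ V 0`, etc.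
* both `z₁, z₂` even: the value is 0.
* exactly one of `z₁, z₂` odd: then `t` or `t'` is in `V 0`, by the exchange both are; so `val r a c' ∈ V 0 ∩ V 1` is 0 and
  `val r a c = val r a c + val r a c' ∈ V 0 ∩ V 2` is 0.
* both odd, `t + t' ∈ V 0`: if exactly one of `z₁', z₂'` is odd, `t, t' ∈ V 1`, so `t + t' ∈ V 0 ∩ V 1` is 0; if both are odd `val c = val c' = t + t'`
  is in `V 0 ∩ V 1`; if both are even, `val c' = 0` and `val c ∈ V 0 ∩ V 2`.
-/

namespace ADM

open AD ADN ADN.Ctx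

namespace Ctx

variable {U : Type} [Ring U] {Q : Type} [Fintype Q] (C : Ctx U Q)
variable {ι : Type} [DecidableEq ι]

private theorem m4b_val {V : Fin 3 → AddSubgroup U} {a : Q} {σ : ι → ℕ} {R : Finset ι}
    {v₀ : List ι} {c c' : List ι →₀ ℤ} (_ : C.Pr V a σ R v₀ c c') (x y : ι) (hxy : x ≠ y)
    (hv : ∀ v, v.toFinset = R → C.Ew a σ v₀ v → v ≠ [x, y, x] → v ≠ [y, x, y] →
      ∀ r, C.LHom a σ r → C.wv r a v = 0) (d : List ι →₀ ℤ)
    (hd : ∀ v ∈ d.support, v.toFinset = R ∧ C.Ew a σ v₀ v) (r : ι → U) (hr : C.LHom a σ r) :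
    C.val r a d = d [x, y, x] • (r x * r y * r x) + d [y, x, y] • (r y * r x * r y) := by
  have h1 : C.wv r a [x, y, x] = r x * r y * r x := by
    rw [C.hom_wv hr (List.cons_ne_nil _ _)]
    simp [mul_assoc]
  have h2 : C.wv r a [y, x, y] = r y * r x * r y := by
    rw [C.hom_wv hr (List.cons_ne_nil _ _)]
    simp [mul_assoc]
  rw [← h1, ← h2]
  have hne : [x, y, x] ≠ [y, x, y] := fun h => hxy (List.cons.inj h).1
  unfold Base.val
  rw [Finsupp.sum, Finset.sum_eq_add [x, y, x] [y, x, y] hne]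
  · rintro v hv1 ⟨hv2, hv3⟩
    rw [hv v (hd v hv1).1 (hd v hv1).2 hv2 hv3 r hr, smul_zero]
  · intro h
    rw [Finsupp.notMem_support_iff.1 h, zero_smul]
  · intro h
    rw [Finsupp.notMem_support_iff.1 h, zero_smul]

omit [Ring U] in
private theorem m4b_par {M : Type} [AddCommGroup M] (z : ℤ) {s : M} (hs : (2 : ℤ) • s = 0) :
    ((2 : ℤ) ∣ z ∧ z • s = 0) ∨ (¬ (2 : ℤ) ∣ z ∧ z • s = s) := by
  by_cases h : (2 : ℤ) ∣ z
  · obtain ⟨w, rfl⟩ := h
    exact Or.inl ⟨dvd_mul_right _ _, by rw [mul_comm, mul_smul, hs, smul_zero]⟩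
  · refine Or.inr ⟨h, ?_⟩
    obtain ⟨w, hw⟩ : ∃ w, z = w * 2 + 1 := ⟨z / 2, by omega⟩
    rw [hw, add_smul, mul_smul, hs, smul_zero, one_smul, zero_add]

theorem m4b (hC : C.Cub) (hM : TyM C.Rl C.p) (hp : C.p = 2)
    {V : Fin 3 → AddSubgroup U} (hV : C.Vals V) {a : Q} (ha : C.r a = 2) (σ : ι → ℕ) (R : Finset ι)
    (v₀ : List ι) (c c' : List ι →₀ ℤ) (h : C.Pr V a σ R v₀ c c') (x y : ι) (hxy : x ≠ y)
    (hx : C.Tw a (σ x)) (hy : C.Tw a (σ y))
    (hv : ∀ v, v.toFinset = R → C.Ew a σ v₀ v → v ≠ [x, y, x] → v ≠ [y, x, y] →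
      ∀ r, C.LHom a σ r → C.wv r a v = 0) :
    ∀ r, C.LHom a σ r → C.val r a c = 0 := by
  intro r hr
  have hmod : σ x ≡ σ y [MOD C.r a] := by
    have hx' : ¬ C.r a ∣ σ x := hx
    have hy' : ¬ C.r a ∣ σ y := hy
    rw [ha] at hx' hy' ⊢
    unfold Nat.ModEq
    omega
  -- exchange of the letters
  obtain ⟨r', hr'⟩ : ∃ r' : ι → U, ∀ k, r' k = r (Equiv.swap x y k) := ⟨_, fun _ => rfl⟩
  have hrx : r' x = r y := by rw [hr', Equiv.swap_apply_left]
  have hry : r' y = r x := by rw [hr', Equiv.swap_apply_right]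
  have hr'L : C.LHom a σ r' := by
    intro k
    by_cases h1 : k = x
    · rw [h1, hrx]
      exact C.H_modEq hmod.symm (hr y)
    · by_cases h2 : k = y
      · rw [h2, hry]
        exact C.H_modEq hmod (hr x)
      · have h3 : r' k = r k := by rw [hr', Equiv.swap_apply_of_ne_of_ne h1 h2]
        rw [h3]
        exact hr k
  have hpM : ∀ (s : ι → U), C.LHom a σ s → ∀ k l : ι, C.Tw a (σ k) → (2 : ℤ) • (s k * s l * s k) = 0 := by
    intro s hs k l hk
    have h1 := C.pM hC hM (by rw [ha]) ![σ k, σ l, σ k] ⟨0, hk⟩ ![s k, s l, s k] (by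
      intro i
      fin_cases i
      · exact hs k
      · exact hs l
      · exact hs k)
    rw [hp] at h1
    exact h1
  have t1 := hpM r hr x y hx
  have t2 := hpM r hr y x hy
  have e1 := C.m4b_val h x y hxy hv c h.supp r hr
  have e2 := C.m4b_val h x y hxy hv c' h.supp' r hr
  have e3 := C.m4b_val h x y hxy hv c h.supp r' hr'L
  have e4 := C.m4b_val h x y hxy hv c' h.supp' r' hr'L
  rw [hrx, hry] at e3 e4
  obtain ⟨a0, a1, a2⟩ := h.in3 r hr
  obtain ⟨b0, b1, b2⟩ := h.in3 r' hr'L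
  rw [e1, e2] at a2
  rw [e1] at a0
  rw [e2] at a1
  rw [e3] at b0
  rw [e4] at b1
  rw [e1]
  generalize r x * r y * r x = t at *
  generalize r y * r x * r y = t' at *
  generalize c [x, y, x] = z1 at *
  generalize c [y, x, y] = z2 at *
  generalize c' [x, y, x] = y1 at *
  generalize c' [y, x, y] = y2 at *
  have key : ∀ X : U, X ∈ V 0 → X ∈ V 1 → X = 0 := fun X h0 h1 => hV.disj 0 1 (by decide) X h0 h1
  have key2 : ∀ X : U, X ∈ V 0 → X ∈ V 2 → X = 0 := fun X h0 h1 => hV.disj 0 2 (by decide) X h0 h1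
  have both : ∀ X Y : U, z1 • t + z2 • t' = X → y1 • t + y2 • t' = Y → Y ∈ V 0 → X = 0 := by
    intro X Y hX hY h0
    rw [hX] at a0 a2
    rw [hY] at a1 a2
    have h1 : Y = 0 := key Y h0 a1
    rw [h1, add_zero] at a2
    exact key2 X a0 a2
  have one : t ∈ V 0 → t' ∈ V 0 → z1 • t + z2 • t' = 0 := fun h0 h1 =>
    both _ _ rfl rfl ((V 0).add_mem ((V 0).zsmul_mem h0 _) ((V 0).zsmul_mem h1 _))
  rcases m4b_par z1 t1 with ⟨-, p1⟩ | ⟨q1, p1⟩ <;> rcases m4b_par z2 t2 with ⟨-, p2⟩ | ⟨q2, p2⟩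
  · rw [p1, p2, add_zero]
  · -- z2 odd
    have h0 : t' ∈ V 0 := by
      have h3 := a0
      rw [p1, p2, zero_add] at h3
      exact h3
    have h1 : t ∈ V 0 := by
      have h3 := b0
      rcases m4b_par z1 t2 with ⟨_, p3⟩ | ⟨p3, _⟩
      · rcases m4b_par z2 t1 with ⟨p4, _⟩ | ⟨_, p4⟩
        · exact absurd p4 q2
        · rw [p3, p4, zero_add] at h3
          exact h3
      · rcases m4b_par z2 t1 with ⟨p4, _⟩ | ⟨_, p4⟩
        · exact absurd p4 q2
        · have h5 : z1 • t' ∈ V 0 := (V 0).zsmul_mem h0 _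
          rw [p4] at h3
          have h6 := (V 0).sub_mem h3 h5
          rwa [add_sub_cancel_left] at h6
    exact one h1 h0
  · -- z1 odd
    have h0 : t ∈ V 0 := by
      have h3 := a0
      rw [p1, p2, add_zero] at h3
      exact h3
    have h1 : t' ∈ V 0 := by
      have h3 := b0
      rcases m4b_par z1 t2 with ⟨p3, _⟩ | ⟨_, p3⟩
      · exact absurd p3 q1
      · have h5 : z2 • t ∈ V 0 := (V 0).zsmul_mem h0 _
        rw [p3] at h3
        have h6 := (V 0).sub_mem h3 h5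
        rwa [add_sub_cancel_right] at h6
    exact one h0 h1
  · -- both odd
    rw [p1, p2] at a0
    rcases m4b_par y1 t1 with ⟨-, p3⟩ | ⟨q3, p3⟩ <;> rcases m4b_par y2 t2 with ⟨-, p4⟩ | ⟨q4, p4⟩
    · exact both _ 0 rfl (by rw [p3, p4, add_zero]) (V 0).zero_mem
    · -- y2 odd, y1 even
      have h0 : t' ∈ V 1 := by
        have h3 := a1
        rw [p3, p4, zero_add] at h3
        exact h3
      have h1 : t ∈ V 1 := by
        have h3 := b1
        rcases m4b_par y2 t1 with ⟨p5, _⟩ | ⟨_, p5⟩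
        · exact absurd p5 q4
        · have h5 : y1 • t' ∈ V 1 := (V 1).zsmul_mem h0 _
          rw [p5] at h3
          have h6 := (V 1).sub_mem h3 h5
          rwa [add_sub_cancel_left] at h6
      rw [p1, p2]
      exact key _ a0 ((V 1).add_mem h1 h0)
    · have h0 : t ∈ V 1 := by
        have h3 := a1
        rw [p3, p4, add_zero] at h3
        exact h3
      have h1 : t' ∈ V 1 := by
        have h3 := b1
        rcases m4b_par y1 t2 with ⟨p5, _⟩ | ⟨_, p5⟩
        · exact absurd p5 q3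
        · have h5 : y2 • t ∈ V 1 := (V 1).zsmul_mem h0 _
          rw [p5] at h3
          have h6 := (V 1).sub_mem h3 h5
          rwa [add_sub_cancel_right] at h6
      rw [p1, p2]
      exact key _ a0 ((V 1).add_mem h0 h1)
    · exact both _ (t + t') rfl (by rw [p3, p4]) a0

end Ctx

end ADM
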