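import Pool.Agent.ADM.DefP
import Pool.Agent.ADM.HB
import Pool.Agent.ADM.Nest

/-!
# ADM-Two

Two words with proportional values.

The value of a combination is `n` times the value of the first word, with `n` the coefficient of the first word plus `z` times
the coefficient of the second word (`two_val`); then `nest` is used for the set of all values of the first word.
-/

namespace ADM

open AD ADN ADN.Ctx

namespace Ctx

variable {U : Type} [Ring U] {Q : Type} [Fintype Q] (C : Ctx U Q)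
variable {ι : Type} [DecidableEq ι]

private theorem two_val {a : Q} {σ : ι → ℕ} {R : Finset ι} {v₀ : List ι} {c : List ι →₀ ℤ}
    (hc : ∀ v ∈ c.support, v.toFinset = R ∧ C.Ew a σ v₀ v) (v₁ v₂ : List ι) (z : ℤ)
    (h12 : ∀ r, C.LHom a σ r → C.wv r a v₂ = z • C.wv r a v₁)
    (hv : ∀ v, v.toFinset = R → C.Ew a σ v₀ v → v ≠ v₁ → v ≠ v₂ → ∀ r, C.LHom a σ r → C.wv r a v = 0) :
    ∃ n : ℤ, ∀ r, C.LHom a σ r → C.val r a c = n • C.wv r a v₁ := by
  classical
  refine ⟨if v₁ = v₂ then c v₁ else c v₁ + c v₂ * z, fun r hr => ?_⟩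
  have h1 : C.val r a c = ∑ v ∈ c.support ∪ {v₁, v₂}, c v • C.wv r a v := by
    unfold Base.val
    exact Finsupp.sum_of_support_subset c Finset.subset_union_left _ fun v _ => zero_smul _ _
  have h2 : ∑ v ∈ c.support ∪ {v₁, v₂}, c v • C.wv r a v =
      ∑ v ∈ ({v₁, v₂} : Finset (List ι)), c v • C.wv r a v := by
    refine (Finset.sum_subset Finset.subset_union_right fun v _ hv' => ?_).symm
    rw [Finset.mem_insert, Finset.mem_singleton, not_or] at hv'
    by_cases h : v ∈ c.support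
    · rw [hv v (hc v h).1 (hc v h).2 hv'.1 hv'.2 r hr, smul_zero]
    · rw [Finsupp.notMem_support_iff.mp h, zero_smul]
  rw [h1, h2]
  by_cases h : v₁ = v₂
  · rw [if_pos h, ← h, Finset.pair_eq_singleton, Finset.sum_singleton]
  · rw [if_neg h, Finset.sum_pair h, h12 r hr, smul_smul, add_smul]

theorem two {V : Fin 3 → AddSubgroup U} (hV : C.Vals V) {a : Q} (ha : a ≠ C.o) {σ : ι → ℕ}
    {R : Finset ι} {v₀ : List ι} {c c' : List ι →₀ ℤ} (h : C.Pr V a σ R v₀ c c') (v₁ v₂ : List ι) (z : ℤ)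
    (h12 : ∀ r, C.LHom a σ r → C.wv r a v₂ = z • C.wv r a v₁)
    (hv : ∀ v, v.toFinset = R → C.Ew a σ v₀ v → v ≠ v₁ → v ≠ v₂ → ∀ r, C.LHom a σ r → C.wv r a v = 0) :
    ∀ r, C.LHom a σ r → C.val r a c = 0 := by
  obtain ⟨n, hn⟩ := two_val C h.supp v₁ v₂ z h12 hv
  obtain ⟨n', hn'⟩ := two_val C h.supp' v₁ v₂ z h12 hv
  intro r hr
  rw [hn r hr]
  refine C.toBase.nest hV n n' {m | ∃ r, C.LHom a σ r ∧ m = C.wv r a v₁} ?_ ?_ _ ⟨r, hr, rfl⟩
  · rintro m ⟨r', _, rfl⟩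
    exact C.A_right _ _ (C.e_mem a ha)
  · rintro m ⟨r', hr', rfl⟩
    have h3 := h.in3 r' hr'
    rwa [hn r' hr', hn' r' hr'] at h3

/-- one word -/
theorem one {V : Fin 3 → AddSubgroup U} (hV : C.Vals V) {a : Q} (ha : a ≠ C.o) {σ : ι → ℕ}
    {R : Finset ι} {v₀ : List ι} {c c' : List ι →₀ ℤ} (h : C.Pr V a σ R v₀ c c') (v₁ : List ι)
    (hv : ∀ v, v.toFinset = R → C.Ew a σ v₀ v → v ≠ v₁ → ∀ r, C.LHom a σ r → C.wv r a v = 0) :
    ∀ r, C.LHom a σ r → C.val r a c = 0 :=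
  two C hV ha h v₁ v₁ 1 (fun _ _ => (one_smul _ _).symm) fun v h1 h2 h3 _ => hv v h1 h2 h3

end Ctx

end ADM
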