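import Pool.Agent.ADM.Step
import Pool.Agent.ADM.Desc
import Pool.Agent.ADM.Ntw

/-!
# ADM-VanM

Type M.

PLAN.
* vanM4: `desc0` with `P v = (4 ≤ v.length ∧ ∃ k ∈ v, Tw)`; `splitM` (Ntw.lean) gives a splitting such that not both `r ∣ tot X₀ + tot X₁` and
  `r ∣ tot X₁ + tot X₂`; `step`: hσ (if all three totals were divisible, both sums would be), hM trivial, the others by `TyM`.
* pM: the product `(p • e a) * x 0 * x 1 * x 2` is the value of the word `[0,1,2,3]` in four letters (`Fin.cons (p • e a) x`, twists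
  `Fin.cons 0 σ`, `H_p`, `ne_o`), so it vanishes by vanM4.  More generally for every nonempty word `w` of length `≥ 3` containing a
  twisted letter.
* vanM3: `na` (hM trivial, the others by `TyM`): `x 0 * x 1 * x 2 = val x a c`; words of length `≥ 4` in the support vanish by vanM4 (they contain
  `0, 1, 2`, one of which is twisted); a word `w` of length 3 has `p ∣ c w`, and `p • (w.map x).prod = 0` as in pM.
* relM: the same with `naM`.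
-/

namespace ADM

open AD ADN

namespace Ctx

variable {U : Type} [Ring U] {Q : Type} [Fintype Q] (C : Ctx U Q)

theorem vanM4 {ι : Type} [DecidableEq ι] (hC : C.Cub) (hM : TyM C.Rl C.p) {a : Q} (ha : 2 ≤ C.r a)
    (σ : ι → ℕ) (v : List ι) (hv : 4 ≤ v.length) (htw : ∃ k ∈ v, C.Tw a (σ k)) (r : ι → U)
    (hr : C.LHom a σ r) : (v.map r).prod = 0 := by
  refine C.desc0 σ (fun v => 4 ≤ v.length ∧ ∃ k ∈ v, C.Tw a (σ k)) ?_ ?_ v ⟨hv, htw⟩ r hr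
  · rintro v ⟨h1, -⟩ rfl
    simp at h1
  · rintro v ⟨h1, h2⟩
    obtain ⟨X₀, X₁, X₂, rfl, e0, e1, e2, hs⟩ := C.splitM h1 h2
    obtain ⟨c, hc1, hc2⟩ := C.step hC ha σ X₀ X₁ X₂ e0 e1 e2
      (fun h => hs ⟨dvd_add h.1 h.2.1, dvd_add h.2.1 h.2.2⟩) (fun _ _ => hM.1) (fun _ _ => hM.2.1)
      (fun g1 g2 => absurd ⟨g1, g2⟩ hs) (fun _ _ => hM.2.2.1) (fun _ _ => hM.2.2.2)
    refine ⟨c, fun v' hv' => ?_, hc1, hc2⟩
    obtain ⟨g1, g2⟩ := hc1 v' hv'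
    refine ⟨?_, ?_⟩
    · rcases g2 with g2 | g2
      · omega
      · omega
    · obtain ⟨k, hk, hk2⟩ := h2
      refine ⟨k, ?_, hk2⟩
      rw [← List.count_pos_iff] at hk ⊢
      exact lt_of_lt_of_le hk (g1.1 k)

private theorem vm_len (w : List (Fin 3)) (h : ∀ i, i ∈ w) : 3 ≤ w.length := by
  have h1 : w.toFinset = Finset.univ := by
    ext i
    simp [h i]
  have h2 := List.toFinset_card_le w
  rw [h1, Finset.card_univ, Fintype.card_fin] at h2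
  exact h2

private theorem vm_p (hC : C.Cub) (hM : TyM C.Rl C.p) {a : Q} (ha : 2 ≤ C.r a) (σ : Fin 3 → ℕ)
    (x : Fin 3 → U) (hx : C.LHom a σ x) (w : List (Fin 3)) (hw : 3 ≤ w.length)
    (htw : ∃ k ∈ w, C.Tw a (σ k)) : (C.p : ℤ) • (w.map x).prod = 0 := by
  have hne : w ≠ [] := by
    rintro rfl
    simp at hw
  have hy : C.LHom a (Fin.cons 0 σ : Fin 4 → ℕ) (Fin.cons ((C.p : ℤ) • C.e a) x : Fin 4 → U) := by
    intro k
    refine Fin.cases ?_ (fun i => ?_) k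
    · exact H_p C (ne_o C ha)
    · exact hx i
  have h1 := C.vanM4 hC hM ha (Fin.cons 0 σ : Fin 4 → ℕ) (0 :: w.map Fin.succ)
    (by rw [List.length_cons, List.length_map]; omega) (by
      obtain ⟨k, hk, hk2⟩ := htw
      exact ⟨Fin.succ k, List.mem_cons_of_mem _ (List.mem_map_of_mem hk), hk2⟩) _ hy
  rw [List.map_cons, List.prod_cons, List.map_map] at h1
  have h2 : w.map ((Fin.cons ((C.p : ℤ) • C.e a) x : Fin 4 → U) ∘ Fin.succ) = w.map x := by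
    apply List.map_congr_left
    intro i _
    rfl
  rw [h2] at h1
  have h3 : C.e a * (w.map x).prod = (w.map x).prod := (hom_prod C hx hne).1.2.1
  have h4 : ((C.p : ℤ) • C.e a) * (w.map x).prod = 0 := h1
  rw [smul_mul_assoc, h3] at h4
  exact h4

private theorem vm_val (hC : C.Cub) (hM : TyM C.Rl C.p) {a : Q} (ha : 2 ≤ C.r a) (σ : Fin 3 → ℕ)
    (hσ : ∃ i, ¬ C.r a ∣ σ i) (x : Fin 3 → U) (hx : C.LHom a σ x) (c : List (Fin 3) →₀ ℤ)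
    (hc : ∀ w ∈ c.support, (∀ i, i ∈ w) ∧ C.Ew a σ [0, 1, 2] w ∧
      (4 ≤ w.length ∨ (C.p : ℤ) ∣ c w)) : C.val x a c = 0 := by
  obtain ⟨i, hi⟩ := hσ
  unfold Base.val
  refine Finset.sum_eq_zero fun w hw => ?_
  obtain ⟨h1, -, h2⟩ := hc w hw
  have hne : w ≠ [] := by
    rintro rfl
    exact absurd (h1 i) List.not_mem_nil
  show c w • C.wv x a w = 0
  rw [C.hom_wv hx hne]
  rcases h2 with h2 | ⟨z, hz⟩
  · rw [C.vanM4 hC hM ha σ w h2 ⟨i, h1 i, hi⟩ x hx, smul_zero]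
  · rw [hz, mul_comm, mul_smul, C.vm_p hC hM ha σ x hx w (vm_len w h1) ⟨i, h1 i, hi⟩, smul_zero]

theorem pM (hC : C.Cub) (hM : TyM C.Rl C.p) {a : Q} (ha : 2 ≤ C.r a) (σ : Fin 3 → ℕ)
    (hσ : ∃ i, ¬ C.r a ∣ σ i) (x : Fin 3 → U) (hx : C.LHom a σ x) :
    (C.p : ℤ) • (x 0 * x 1 * x 2) = 0 := by
  obtain ⟨i, hi⟩ := hσ
  have h := C.vm_p hC hM ha σ x hx [0, 1, 2] (by decide) ⟨i, by fin_cases i <;> simp, hi⟩
  rw [show (([0, 1, 2] : List (Fin 3)).map x).prod = x 0 * x 1 * x 2 by simp [mul_assoc]] at h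
  exact h

theorem vanM3 (hC : C.Cub) (hM : TyM C.Rl C.p) {a : Q} (ha : 2 ≤ C.r a) (σ : Fin 3 → ℕ)
    (hσ : ∃ i, ¬ C.r a ∣ σ i) (h : ¬ (C.r a ∣ σ 0 + σ 1 ∧ C.r a ∣ σ 1 + σ 2)) (x : Fin 3 → U)
    (hx : C.LHom a σ x) : x 0 * x 1 * x 2 = 0 := by
  obtain ⟨c, h1, h2⟩ := na C hC ha σ (fun h' => by
      obtain ⟨i, hi⟩ := hσ
      exact hi (h' i)) (fun _ _ => hM.1) (fun _ _ => hM.2.1) (fun g1 g2 => absurd ⟨g1, g2⟩ h)
    (fun _ _ => hM.2.2.1) (fun _ _ => hM.2.2.2)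
  rw [h2 x hx]
  exact C.vm_val hC hM ha σ hσ x hx c h1

theorem relM (hC : C.Cub) (hM : TyM C.Rl C.p) {a : Q} (ha : 2 ≤ C.r a) (σ : Fin 3 → ℕ)
    (h0 : ¬ C.r a ∣ σ 0) (h01 : C.r a ∣ σ 0 + σ 1) (h12 : C.r a ∣ σ 1 + σ 2) :
    ∃ z : ℤ, ∀ x : Fin 3 → U, C.LHom a σ x → x 0 * x 1 * x 2 = z • (x 2 * x 1 * x 0) := by
  obtain ⟨z, c, h1, h2⟩ := naM C hC ha σ h0 h01 h12
  refine ⟨z, fun x hx => ?_⟩
  rw [h2 x hx, C.vm_val hC hM ha σ ⟨0, h0⟩ x hx c h1, add_zero]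

end Ctx

end ADM
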