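import Pool.Agent.ADM.ComM
import Pool.Agent.ADM.M4a
import Pool.Agent.ADM.M4b
import Pool.Agent.ADM.VanM
import Pool.Agent.ADM.Two

/-!
# ADM-TyLM

Type M: combinations of words of loops, at least one of them twisted.

PLAN.  Every word with letter set `R` contains a twisted letter.  A word `v` with letter set `R` which is not admissible (`AdM (r a) σ v`, ComM.lean) has
value 0 for all `LHom` `r`: if `v.length ≥ 4` by vanM4; if `v = [k₀,k₁,k₂]` without the divisibilities, by vanM3 (letters `Fin 3`, `x i = r (k i)`, twists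
`σ (k i)`).  If no word with letter set `R` in the class of `v₀` is admissible: `one` (any `v₁`).  Otherwise let `v₁` be an admissible one; for every
other admissible word `v'` of the class, comM applied to `v₁, v'` (`Ew` for `v₁` and `v'` by transitivity through `v₀`; `n a = p ^ r - 1`, `n_eq`) gives four
possibilities.
* If `(p, r a) ≠ (2, 2)`, only `v₁` and (if `v₁.length = 3`) `v₁.reverse` can be nonzero: `two` with `v₂ = v₁.reverse`, relation from relM
  (`v₁ = [k₀,k₁,k₂]`, `C.Tw a (σ k₀)`, `wv v₂ = z • wv v₁`: apply relM to the reversed word).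
* If `p = 2`, `r a = 2`: if `v₁ = [x]` or `[x,x,x]`: the other candidates are `[x]`, `[x,x,x]` (the reverse is the same word): m4a.  If `v₁ = [x,y,x]`, `x ≠ y`: the candidates
  are `[x,y,x]`, `[y,x,y]`: m4b (all the letters are twisted: `r ∣ σ x + σ y`, one of them twisted).  Otherwise (`v₁` of length 2, or of length 3 and not of
  the form `[x,y,x]`): only `v₁` and `v₁.reverse`: `two` as before (for length 2 with `v₂ = v₁`, i.e. `one`).
-/

namespace ADM

open AD ADN ADN.Ctx

namespace Ctx

variable {U : Type} [Ring U] {Q : Type} [Fintype Q] (C : Ctx U Q)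
variable {ι : Type} [Fintype ι] [DecidableEq ι]

omit [Fintype ι] [DecidableEq ι] in
private theorem tylm_hom3 {a : Q} {σ : ι → ℕ} {r : ι → U} (hr : C.LHom a σ r) (x y z : ι) :
    C.LHom a ![σ x, σ y, σ z] ![r x, r y, r z] := by
  intro k
  fin_cases k
  · exact hr x
  · exact hr y
  · exact hr z

omit [Fintype ι] in
private theorem tylm_van (hC : C.Cub) (hM : TyM C.Rl C.p) {a : Q} (ha : 2 ≤ C.r a) (σ : ι → ℕ)
    (v : List ι) (htw : ∃ k ∈ v, C.Tw a (σ k)) (hv : ¬ AdM (C.r a) σ v) (r : ι → U)
    (hr : C.LHom a σ r) : C.wv r a v = 0 := by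
  have h0 : (v.map r).prod = 0 := by
    by_cases hl : 4 ≤ v.length
    · exact C.vanM4 hC hM ha σ v hl htw r hr
    · have h3 : ¬ ∀ x y z, v = [x, y, z] → C.r a ∣ σ x + σ y ∧ C.r a ∣ σ y + σ z := fun h3 =>
        hv ⟨by omega, htw, h3⟩
      push Not at h3
      obtain ⟨x, y, z, hxyz, h4⟩ := h3
      subst hxyz
      have h5 : ∃ i, ¬ C.r a ∣ (![σ x, σ y, σ z] : Fin 3 → ℕ) i := by
        obtain ⟨k, hk, hk'⟩ := htw
        simp only [List.mem_cons, List.not_mem_nil, or_false] at hk
        rcases hk with rfl | rfl | rfl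
        · exact ⟨0, hk'⟩
        · exact ⟨1, hk'⟩
        · exact ⟨2, hk'⟩
      have h6 := C.vanM3 hC hM ha ![σ x, σ y, σ z] h5 (fun h => h4 h.1 h.2)
        ![r x, r y, r z] (tylm_hom3 C hr x y z)
      have h7 : r x * r y * r z = 0 := h6
      simp only [List.map_cons, List.map_nil, List.prod_cons, List.prod_nil, mul_one]
      rw [← mul_assoc, h7]
  show C.e a * (v.map r).prod = 0
  rw [h0, mul_zero]

omit [Fintype ι] in
private theorem tylm_com {a : Q} (ha : 2 ≤ C.r a) (σ : ι → ℕ) {R : Finset ι} {v₀ v v' : List ι}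
    (hv : AdM (C.r a) σ v) (hv' : AdM (C.r a) σ v') (h1 : v.toFinset = R) (h1' : v'.toFinset = R)
    (h2 : C.Ew a σ v₀ v) (h2' : C.Ew a σ v₀ v') :
    v' = v ∨ (v.length = 3 ∧ v' = v.reverse) ∨
      (C.p = 2 ∧ C.r a = 2 ∧ ∃ x, (v = [x] ∧ v' = [x, x, x]) ∨ (v = [x, x, x] ∧ v' = [x])) ∨
      (C.p = 2 ∧ C.r a = 2 ∧ ∃ x y, x ≠ y ∧ v = [x, y, x] ∧ v' = [y, x, y]) := by
  refine comM C.hp ha σ v v' hv hv' (h1.trans h1'.symm) (fun k => ?_) (h2.2.symm.trans h2'.2)
  rw [← C.n_eq ha]
  exact (h2.1 k).symm.trans (h2'.1 k)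

private theorem tylm_tw {n s t : ℕ} (h : n ∣ s + t) : n ∣ s ↔ n ∣ t :=
  ⟨fun h1 => (Nat.dvd_add_right h1).1 h, fun h1 => (Nat.dvd_add_left h1).1 h⟩

theorem tyLM (hC : C.Cub) (hM : TyM C.Rl C.p) (hTu : C.p = 2 → C.TuP)
    {V : Fin 3 → AddSubgroup U} (hV : C.Vals V) {a : Q} (ha : 2 ≤ C.r a) (σ : ι → ℕ) (R : Finset ι)
    (htw : ∃ k ∈ R, C.Tw a (σ k)) (v₀ : List ι) (c c' : List ι →₀ ℤ) (h : C.Pr V a σ R v₀ c c') :
    ∀ r, C.LHom a σ r → C.val r a c = 0 := by
  classical
  have htw' : ∀ v : List ι, v.toFinset = R → ∃ k ∈ v, C.Tw a (σ k) := by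
    intro v hv
    obtain ⟨k, hk, hk'⟩ := htw
    rw [← hv, List.mem_toFinset] at hk
    exact ⟨k, hk, hk'⟩
  by_cases hA : ∃ v₁ : List ι, v₁.toFinset = R ∧ C.Ew a σ v₀ v₁ ∧ AdM (C.r a) σ v₁
  · obtain ⟨v₁, hR, hE, hAd⟩ := hA
    by_cases hc1 : C.p = 2 ∧ C.r a = 2 ∧ ∃ x, v₁ = [x] ∨ v₁ = [x, x, x]
    · obtain ⟨hp, hr, x, hx⟩ := hc1
      have htx : C.Tw a (σ x) := by
        obtain ⟨k, hk, hk'⟩ := hAd.2.1
        rcases hx with rfl | rfl
        · rw [List.mem_singleton] at hk
          rw [← hk]
          exact hk'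
        · simp only [List.mem_cons, List.not_mem_nil, or_false, or_self] at hk
          rw [← hk]
          exact hk'
      refine C.m4a hC hM (hTu hp) hp hV hr σ R v₀ c c' h x htx fun v hv hv' hn1 hn3 r hLr => ?_
      by_cases hAd' : AdM (C.r a) σ v
      · exfalso
        rcases tylm_com C ha σ hAd hAd' hR hv hE hv' with h1 | h1 | h1 | h1
        · rcases hx with h2 | h2
          · exact hn1 (h1.trans h2)
          · exact hn3 (h1.trans h2)
        · rcases hx with h2 | h2
          · rw [h2] at h1
            exact hn1 (by simpa using h1.2)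
          · rw [h2] at h1
            exact hn3 (by simpa using h1.2)
        · obtain ⟨_, _, y, h2 | h2⟩ := h1
          · rcases hx with h3 | h3
            · have h4 : y = x := by
                have := h2.1.symm.trans h3
                simpa using this
              rw [h4] at h2
              exact hn3 h2.2
            · have := h2.1.symm.trans h3
              simp at this
          · rcases hx with h3 | h3
            · have := h2.1.symm.trans h3
              simp at this
            · have h4 : y = x := by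
                have := h2.1.symm.trans h3
                simpa using this
              rw [h4] at h2
              exact hn1 h2.2
        · obtain ⟨_, _, y, z, hyz, h2, _⟩ := h1
          rcases hx with h3 | h3
          · have := h2.symm.trans h3
            simp at this
          · have h4 := h2.symm.trans h3
            simp only [List.cons.injEq, and_true] at h4
            exact hyz (h4.1.trans h4.2.1.symm)
      · exact tylm_van C hC hM ha σ v (htw' v hv) hAd' r hLr
    · by_cases hc2 : C.p = 2 ∧ C.r a = 2 ∧ ∃ x y, x ≠ y ∧ v₁ = [x, y, x]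
      · obtain ⟨hp, hr, x, y, hxy, hx⟩ := hc2
        have hdv := hAd.2.2 x y x hx
        have hxy' := tylm_tw hdv.1
        have htx : C.Tw a (σ x) := by
          obtain ⟨k, hk, hk'⟩ := hAd.2.1
          rw [hx] at hk
          simp only [List.mem_cons, List.not_mem_nil, or_false] at hk
          rcases hk with rfl | rfl | rfl
          · exact hk'
          · exact fun h1 => hk' (hxy'.1 h1)
          · exact hk'
        have hty : C.Tw a (σ y) := fun h1 => htx (hxy'.2 h1)
        refine C.m4b hC hM hp hV hr σ R v₀ c c' h x y hxy htx hty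
          fun v hv hv' hn1 hn2 r hLr => ?_
        by_cases hAd' : AdM (C.r a) σ v
        · exfalso
          rcases tylm_com C ha σ hAd hAd' hR hv hE hv' with h1 | h1 | h1 | h1
          · exact hn1 (h1.trans hx)
          · rw [hx] at h1
            exact hn1 (by simpa using h1.2)
          · obtain ⟨_, _, z, h2 | h2⟩ := h1
            · have := h2.1.symm.trans hx
              simp at this
            · have h4 := h2.1.symm.trans hx
              simp only [List.cons.injEq, and_true] at h4
              exact hxy (h4.1.symm.trans h4.2.1)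
          · obtain ⟨_, _, z, w, _, h2, h3⟩ := h1
            have h4 := h2.symm.trans hx
            simp only [List.cons.injEq, and_true] at h4
            rw [h4.1, h4.2.1] at h3
            exact hn2 h3
        · exact tylm_van C hC hM ha σ v (htw' v hv) hAd' r hLr
      · -- only `v₁` and its reverse
        have key : ∀ v : List ι, v.toFinset = R → C.Ew a σ v₀ v → v ≠ v₁ →
            (v₁.length = 3 → v ≠ v₁.reverse) → ∀ r, C.LHom a σ r → C.wv r a v = 0 := by
          intro v hv hv' hn1 hn2 r hLr
          by_cases hAd' : AdM (C.r a) σ v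
          · exfalso
            rcases tylm_com C ha σ hAd hAd' hR hv hE hv' with h1 | h1 | h1 | h1
            · exact hn1 h1
            · exact hn2 h1.1 h1.2
            · obtain ⟨hp, hr, z, h2 | h2⟩ := h1
              · exact hc1 ⟨hp, hr, z, Or.inl h2.1⟩
              · exact hc1 ⟨hp, hr, z, Or.inr h2.1⟩
            · obtain ⟨hp, hr, z, w, hzw, h2, _⟩ := h1
              exact hc2 ⟨hp, hr, z, w, hzw, h2⟩
          · exact tylm_van C hC hM ha σ v (htw' v hv) hAd' r hLr
        by_cases hl : v₁.length = 3
        · obtain ⟨k₀, k₁, k₂, hk⟩ := List.length_eq_three.1 hl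
          have hdv := hAd.2.2 k₀ k₁ k₂ hk
          have e1 := tylm_tw hdv.1
          have e2 := tylm_tw hdv.2
          have ht2 : ¬ C.r a ∣ σ k₂ := by
            obtain ⟨k, hk1, hk2⟩ := hAd.2.1
            rw [hk] at hk1
            simp only [List.mem_cons, List.not_mem_nil, or_false] at hk1
            rcases hk1 with rfl | rfl | rfl
            · exact fun h1 => hk2 (e1.2 (e2.2 h1))
            · exact fun h1 => hk2 (e2.2 h1)
            · exact hk2
          obtain ⟨z, hz⟩ := C.relM hC hM ha ![σ k₂, σ k₁, σ k₀] ht2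
            (by
              show C.r a ∣ σ k₂ + σ k₁
              rw [add_comm]
              exact hdv.2)
            (by
              show C.r a ∣ σ k₁ + σ k₀
              rw [add_comm]
              exact hdv.1)
          refine C.two hV (C.ne_o ha) h v₁ v₁.reverse z (fun r hLr => ?_)
            fun v hv hv' hn1 hn2 r hLr => key v hv hv' hn1 (fun _ => hn2) r hLr
          have h1 : r k₂ * r k₁ * r k₀ = z • (r k₀ * r k₁ * r k₂) :=
            hz ![r k₂, r k₁, r k₀] (tylm_hom3 C hLr k₂ k₁ k₀)
          show C.e a * (v₁.reverse.map r).prod = z • (C.e a * (v₁.map r).prod)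
          rw [hk]
          simp only [List.reverse_cons, List.reverse_nil, List.nil_append, List.cons_append,
            List.map_cons, List.map_nil, List.prod_cons, List.prod_nil, mul_one]
          rw [← mul_assoc (r k₂), h1, mul_smul_comm, mul_assoc (r k₀)]
        · exact C.one hV (C.ne_o ha) h v₁
            fun v hv hv' hn1 r hLr => key v hv hv' hn1 (fun h3 => absurd h3 hl) r hLr
  · refine C.one hV (C.ne_o ha) h v₀ fun v hv hv' _ r hLr => ?_
    exact tylm_van C hC hM ha σ v (htw' v hv) (fun hAd => hA ⟨v, hv, hv', hAd⟩) r hLr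

end Ctx

end ADM
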