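import Pool.Agent.ADM.Dft
import Pool.Agent.ADM.Arith

/-!
# ADM-Wsep

Separation of the words of homogeneous loops by weights and total twist.

PLAN.  One letter: for a fixed letter `k` replace `r k` by `w a ^ θ * r k` (`hom_scale`, `wt_scale`): the value of the word `v` becomes
`w a ^ (θ * wt p σ v k) * wv r a v`, so `dftL` (with `s = c.support`, `y v = c v • wv r a v`, in `A` because `a ≠ o` (`ne_o`, `e a ∈ A`)) gives
`val r a (c.filter fun v => wt p σ v k ≡ wt p σ v₀ k [MOD n a]) ∈ X` for all `r`.  Total twist: `wv r a v * w a ^ θ = w a ^ (p ^ tot σ v * θ) * wv r a v`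
(`hom_prod`, `H_pow`; for `v = []` clear), and `X` is closed under right multiplication: `dftL` with `m v = p ^ tot σ v`; `p ^ s ≡ p ^ t [MOD n]` iff
`s ≡ t [MOD r a]` (`pow_modEq_iff`, `n_eq`).  Iterate over all letters (Finset induction on a set `S` of letters: the filter
same weights for all `k ∈ S`, `Finsupp.filter_filter`) and then the total twist.
-/

namespace ADM

open AD ADN

namespace Ctx

variable {U : Type} [Ring U] {Q : Type} [Fintype Q] (C : Ctx U Q)
variable {ι : Type} [Fintype ι] [DecidableEq ι]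

omit [Fintype ι] [DecidableEq ι] in
private theorem wv_mem {a : Q} (ha : 2 ≤ C.r a) (r : ι → U) (v : List ι) (z : ℤ) :
    z • C.wv r a v ∈ C.A ∧ C.e a * (z • C.wv r a v) = z • C.wv r a v := by
  constructor
  · exact C.A.zsmul_mem (C.A_right _ _ (C.e_mem a (C.ne_o ha))) z
  · rw [mul_smul_comm]
    unfold Base.wv
    rw [← mul_assoc, (C.coi.idem a).eq]

omit [Fintype ι] [DecidableEq ι] in
private theorem sep_step {a : Q} (ha : 2 ≤ C.r a) (X : AddSubgroup U)
    (hXl : ∀ u x, x ∈ X → u * x ∈ X) (c : List ι →₀ ℤ) (r : ι → U) (m : List ι → ℕ)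
    (h : ∀ θ : ℕ, ∑ v ∈ c.support, C.w a ^ (θ * m v) * (c v • C.wv r a v) ∈ X) (m₀ : ℕ)
    (P : List ι → Prop) [DecidablePred P] (hP : ∀ v, P v ↔ m v ≡ m₀ [MOD C.n a]) :
    C.val r a (c.filter P) ∈ X := by
  have h1 := C.dftL a c.support m (fun v => c v • C.wv r a v)
    (fun v _ => C.wv_mem ha r v (c v)) X hXl h m₀
  have h2 : C.val r a (c.filter P) =
      ∑ v ∈ c.support with m v ≡ m₀ [MOD C.n a], c v • C.wv r a v := by
    unfold Base.val Finsupp.sum
    have h3 : (c.filter P).support = {v ∈ c.support | m v ≡ m₀ [MOD C.n a]} := by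
      ext v
      rw [Finsupp.support_filter, Finset.mem_filter, Finset.mem_filter, hP v]
    rw [h3]
    refine Finset.sum_congr rfl fun v hv => ?_
    rw [Finset.mem_filter] at hv
    rw [Finsupp.filter_apply_pos P c ((hP v).2 hv.2)]
  rw [h2]
  exact h1

omit [Fintype ι] in
private theorem sep_wt {a : Q} (ha : 2 ≤ C.r a) (σ : ι → ℕ) (X : AddSubgroup U)
    (hXl : ∀ u x, x ∈ X → u * x ∈ X) (c : List ι →₀ ℤ)
    (h : ∀ r, C.LHom a σ r → C.val r a c ∈ X) (k : ι) (m₀ : ℕ)
    (P : List ι → Prop) [DecidablePred P] (hP : ∀ v, P v ↔ wt C.p σ v k ≡ m₀ [MOD C.n a]) :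
    ∀ r, C.LHom a σ r → C.val r a (c.filter P) ∈ X := by
  intro r hr
  refine C.sep_step ha X hXl c r (fun v => wt C.p σ v k) (fun θ => ?_) m₀ P hP
  have h1 := h _ (C.hom_scale hr k θ)
  have h2 : C.val (fun i => if i = k then C.w a ^ θ * r i else r i) a c =
      ∑ v ∈ c.support, C.w a ^ (θ * wt C.p σ v k) * (c v • C.wv r a v) := by
    unfold Base.val Finsupp.sum
    refine Finset.sum_congr rfl fun v _ => ?_
    show c v • C.wv (fun i => if i = k then C.w a ^ θ * r i else r i) a v = _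
    rw [C.wt_scale hr k θ v, mul_smul_comm]
  rw [← h2]
  exact h1

omit [Fintype ι] [DecidableEq ι] in
private theorem wv_w {a : Q} {σ : ι → ℕ} {r : ι → U} (hr : C.LHom a σ r) (v : List ι) (θ : ℕ) :
    C.w a ^ (θ * C.p ^ tot σ v) * C.wv r a v = C.wv r a v * C.w a ^ θ := by
  by_cases hv : v = []
  · subst hv
    have h1 : C.wv r a ([] : List ι) = C.e a := by
      unfold Base.wv
      rw [List.map_nil, List.prod_nil, mul_one]
    have h2 : tot σ ([] : List ι) = 0 := by
      unfold tot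
      rw [List.map_nil, List.sum_nil]
    rw [h1, h2, pow_zero, mul_one]
    have h3 : Commute (C.w a) (C.e a) := by
      show C.w a * C.e a = C.e a * C.w a
      rw [C.w_left, C.w_right]
    exact (h3.pow_left θ).eq
  · rw [C.hom_wv hr hv, C.H_pow (C.hom_prod hr hv) θ, mul_comm]

omit [Fintype ι] [DecidableEq ι] in
private theorem sep_tot {a : Q} (ha : 2 ≤ C.r a) (σ : ι → ℕ) (X : AddSubgroup U)
    (hXl : ∀ u x, x ∈ X → u * x ∈ X) (hXr : ∀ u x, x ∈ X → x * u ∈ X) (c : List ι →₀ ℤ)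
    (h : ∀ r, C.LHom a σ r → C.val r a c ∈ X) (t₀ : ℕ)
    (P : List ι → Prop) [DecidablePred P] (hP : ∀ v, P v ↔ tot σ v ≡ t₀ [MOD C.r a]) :
    ∀ r, C.LHom a σ r → C.val r a (c.filter P) ∈ X := by
  intro r hr
  refine C.sep_step ha X hXl c r (fun v => C.p ^ tot σ v) (fun θ => ?_) (C.p ^ t₀) P
    (fun v => ?_)
  · have h1 := hXr (C.w a ^ θ) _ (h r hr)
    have h2 : C.val r a c * C.w a ^ θ =
        ∑ v ∈ c.support, C.w a ^ (θ * C.p ^ tot σ v) * (c v • C.wv r a v) := by
      unfold Base.val Finsupp.sum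
      rw [Finset.sum_mul]
      refine Finset.sum_congr rfl fun v _ => ?_
      rw [mul_smul_comm, C.wv_w hr v θ, smul_mul_assoc]
    rw [← h2]
    exact h1
  · rw [hP v, C.n_eq ha]
    exact (pow_modEq_iff C.hp ha _ _).symm

open scoped Classical in
theorem sepw {a : Q} (ha : 2 ≤ C.r a) (σ : ι → ℕ) (X : AddSubgroup U)
    (hXl : ∀ u x, x ∈ X → u * x ∈ X) (hXr : ∀ u x, x ∈ X → x * u ∈ X) (c : List ι →₀ ℤ)
    (h : ∀ r, C.LHom a σ r → C.val r a c ∈ X) (v₀ : List ι) :
    ∀ r, C.LHom a σ r → C.val r a (c.filter fun v => C.Ew a σ v₀ v) ∈ X := by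
  have key : ∀ S : Finset ι, ∀ r, C.LHom a σ r →
      C.val r a (c.filter fun v => ∀ k ∈ S, wt C.p σ v k ≡ wt C.p σ v₀ k [MOD C.n a]) ∈ X := by
    intro S
    induction S using Finset.induction_on with
    | empty =>
      intro r hr
      have e : (c.filter fun v => ∀ k ∈ (∅ : Finset ι),
          wt C.p σ v k ≡ wt C.p σ v₀ k [MOD C.n a]) = c := by
        rw [Finsupp.filter_eq_self_iff]
        intro v _ k hk
        exact absurd hk (Finset.notMem_empty k)
      rw [e]
      exact h r hr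
    | insert k S hk ih =>
      intro r hr
      have h1 := C.sep_wt ha σ X hXl _ ih k (wt C.p σ v₀ k)
        (fun v => wt C.p σ v k ≡ wt C.p σ v₀ k [MOD C.n a]) (fun v => Iff.rfl) r hr
      have e : (c.filter fun v => ∀ l ∈ insert k S,
          wt C.p σ v l ≡ wt C.p σ v₀ l [MOD C.n a]) =
          ((c.filter fun v => ∀ l ∈ S, wt C.p σ v l ≡ wt C.p σ v₀ l [MOD C.n a]).filter
            fun v => wt C.p σ v k ≡ wt C.p σ v₀ k [MOD C.n a]) := by
        ext v
        simp only [Finsupp.filter_apply, Finset.forall_mem_insert]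
        by_cases h2 : wt C.p σ v k ≡ wt C.p σ v₀ k [MOD C.n a]
        · simp only [h2, true_and, if_true]
        · simp only [h2, false_and, if_false]
      rw [e]
      exact h1
  intro r hr
  have h1 := C.sep_tot ha σ X hXl hXr _ (key Finset.univ) (tot σ v₀)
    (fun v => tot σ v ≡ tot σ v₀ [MOD C.r a]) (fun v => Iff.rfl) r hr
  have e : (c.filter fun v => C.Ew a σ v₀ v) =
      ((c.filter fun v => ∀ l ∈ Finset.univ, wt C.p σ v l ≡ wt C.p σ v₀ l [MOD C.n a]).filter
        fun v => tot σ v ≡ tot σ v₀ [MOD C.r a]) := by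
    ext v
    simp only [Finsupp.filter_apply]
    by_cases h2 : C.Ew a σ v₀ v
    · rw [if_pos h2, if_pos h2.2.symm, if_pos fun l _ => (h2.1 l).symm]
    · rw [if_neg h2]
      by_cases h3 : tot σ v ≡ tot σ v₀ [MOD C.r a]
      · rw [if_pos h3, if_neg]
        intro h4
        exact h2 ⟨fun k => (h4 k (Finset.mem_univ k)).symm, h3.symm⟩
      · rw [if_neg h3]
  rw [e]
  exact h1

end Ctx

end ADM
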