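import Pool.Agent.ADM.RewR
import Pool.Agent.ADM.Wsep

/-!
# ADM-RpxR

Type R: `ρ x` for an untwisted loop `ρ` and a loop `x` of twist `σ` (mirror image of RpxL).

PLAN.  `G` from `hOp`: `u = G (1 0^p)` prime to `p` (`1 0^p = 1 :: replicate p 0 =: v₀`).  Letters `ι = Fin 2`, twists `![0, σ]`, `r 0 = ρ`, `r 1 = x`.
`∑ G w • (w.map r).prod = 0` for all `LHom` `r`, so by `sepw` (`X = ⊥`) also `val r a (G.filter (Ew v₀)) = 0`.  Let `w` be a word in the support, in the
class of `v₀`; it contains 0 and 1.  The weight of the letter 0 in `0^i 1 0^j` is `i + p^σ j` and must be `≡ p^(σ+1)` (weight of 0 in `v₀`).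
* two or more letters 1: then `w.length ≥ 3` and the value is 0 (`vanR2`);
* `w = 0^i 1 0^j`, `i + j ≥ 1`: `digit` (a list of `i` zeros and `j` times `σ`; `τ = σ + 1`): `i + j = 1` or `i + j ≥ p`.  `i = 0, j = 1`:
  `p^σ ≡ p^(σ+1)` impossible (`pow_modEq_iff`).  `w = [0,1]`: value `ρ x`.  `i + j = p`: multiply the congruence `i + p^σ (p - i) ≡ p^(σ+1)` by
  `p^((r-1)σ)` (`p^(rσ) ≡ 1`): `i p^s + (p - i) ≡ p` with `s = (r-1)σ`, not divisible by `r`; `digit3` gives `i = 0`, `w = v₀`.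
  `i + j ≥ p + 1`: `rewR` gives a combination of words `1 0^i'`, `i' ≥ i + j ≥ p + 1` (counts), value `x ρ^i'`.
So, for all `ρ, x`: `u x ρ^p + z ρ x + ∑_{i ≥ p+1} e_i x ρ^i = 0` with integers `z`, `e_i` independent of `ρ, x`, and `z = 0` unless
`Ew v₀ [0,1]` (then `p^(σ+1) ≡ 1`).
If `p ∤ z`: multiply by an inverse of `z` modulo `p^K` (`inv_mod`): first alternative.
If `p ∣ z`: `x ρ^p = 0`.  First, if `z ≠ 0`: `p • ρ x = ρ x (p • e a)` is the value of the word `[0,1,2]` with `r 2 = p • e a` (letters `Fin 3`, twists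
`0, σ, 0`); `rewR`: a combination of words `1 :: w'`, `w'` in the letters 0, 2, containing both; the weight of the letter 0 in it is
`p^σ * count 0 w'` and must be `≡ 1 ≡ p^(σ+1)`, so `count 0 w' ≡ p` (cancel `p^σ`, coprime to `n a`) and hence `count 0 w' ≥ p`
(`1 ≤ p < n a`); its value is `p^j x ρ^i`, `j ≥ 1`, `i ≥ p`.  So in all cases `z • ρ x` is `p` times a combination of `x ρ^i`, `i ≥ p`
(coefficients integers), and with `y = x ρ^p`: `u y = - y s`, `s = p ∑ f_i ρ^(i-p) + ∑_{i ≥ p+1} e_i ρ^(i-p)`, where `s` acts on `y` as an element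
of `J` (`s * e a`; `p • e a ∈ J`).  Multiply by an inverse of `u` (`inv_mod`): `y = y s'` with `s' ∈ J`, so `y = y s'^N = 0` (`C.nil`).
-/

namespace ADM

open AD ADN

namespace Ctx

variable {U : Type} [Ring U] {Q : Type} [Fintype Q] (C : Ctx U Q)

/-- pairs of an untwisted loop and a loop of twist `σ` -/
private abbrev DmR (a : Q) (σ : ℕ) : Type := {q : U × U // C.H a a 0 q.1 ∧ C.H a a σ q.2}

/-- combinations of the functions `x * ρ ^ i` with `k ≤ i` -/
private def MR (a : Q) (σ k : ℕ) : AddSubgroup (C.DmR a σ → U) :=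
  AddSubgroup.closure {F | ∃ i, k ≤ i ∧ F = fun q => q.1.2 * q.1.1 ^ i}

private theorem mr_gen {a : Q} {σ k i : ℕ} (h : k ≤ i) :
    (fun q : C.DmR a σ => q.1.2 * q.1.1 ^ i) ∈ C.MR a σ k :=
  AddSubgroup.subset_closure ⟨i, h, rfl⟩

private theorem mr_mono {a : Q} {σ k k' : ℕ} (h : k ≤ k') : C.MR a σ k' ≤ C.MR a σ k := by
  unfold MR
  refine AddSubgroup.closure_mono ?_
  rintro F ⟨i, hi, rfl⟩
  exact ⟨i, h.trans hi, rfl⟩

private theorem mr_ext {a : Q} {σ k : ℕ} {F : C.DmR a σ → U} (hF : F ∈ C.MR a σ k) :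
    ∃ e : ℕ →₀ ℤ, (∀ i ∈ e.support, k ≤ i) ∧
      ∀ q : C.DmR a σ, F q = e.sum fun i z => z • (q.1.2 * q.1.1 ^ i) := by
  unfold MR at hF
  induction hF using AddSubgroup.closure_induction with
  | mem F hF =>
    obtain ⟨i, hi, rfl⟩ := hF
    refine ⟨Finsupp.single i 1, ?_, ?_⟩
    · intro j hj
      have h := Finsupp.support_single_subset hj
      rw [Finset.mem_singleton] at h
      omega
    · intro q
      rw [Finsupp.sum_single_index (h := fun i z => z • (q.1.2 * q.1.1 ^ i)) (zero_smul _ _), one_smul]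
  | zero =>
    refine ⟨0, ?_, ?_⟩
    · intro i hi
      rw [Finsupp.support_zero] at hi
      exact absurd hi (Finset.notMem_empty _)
    · intro q
      rw [Finsupp.sum_zero_index]
      rfl
  | add F F' _ _ h h' =>
    obtain ⟨e, h1, h2⟩ := h
    obtain ⟨e', h3, h4⟩ := h'
    refine ⟨e + e', ?_, ?_⟩
    · intro i hi
      rcases Finset.mem_union.1 (Finsupp.support_add hi) with h | h
      · exact h1 i h
      · exact h3 i h
    · intro q
      rw [Pi.add_apply, h2, h4,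
        Finsupp.sum_add_index' (h := fun i z => z • (q.1.2 * q.1.1 ^ i)) (fun _ => zero_smul _ _)
          (fun _ _ _ => add_smul _ _ _)]
  | neg F _ h =>
    obtain ⟨e, h1, h2⟩ := h
    refine ⟨-e, ?_, ?_⟩
    · intro i hi
      rw [Finsupp.support_neg] at hi
      exact h1 i hi
    · intro q
      rw [Pi.neg_apply, h2, Finsupp.sum_neg_index (h := fun i z => z • (q.1.2 * q.1.1 ^ i))
        (fun _ => zero_smul _ _), Finsupp.sum, Finsupp.sum,
        ← Finset.sum_neg_distrib]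
      exact Finset.sum_congr rfl fun i _ => (neg_smul _ _).symm

private theorem rpr_lhom2 {a : Q} {σ : ℕ} (q : C.DmR a σ) : C.LHom a ![0, σ] ![q.1.1, q.1.2] := by
  intro k
  fin_cases k
  · exact q.2.1
  · exact q.2.2

private theorem rpr_tw0 {a : Q} : ¬ C.Tw a 0 := fun h => h (dvd_zero _)

private theorem rpr_eq0 {a : Q} {σ : ℕ} (hσ : C.Tw a σ) {k : Fin 2} (h : ¬ C.Tw a (![0, σ] k)) : k = 0 := by
  fin_cases k
  · rfl
  · exact absurd hσ h

private theorem rpr_eq1 {a : Q} {σ : ℕ} {k : Fin 2} (h : C.Tw a (![0, σ] k)) : k = 1 := by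
  fin_cases k
  · exact absurd h (rpr_tw0 C)
  · rfl

private theorem rpr_ntw {a : Q} {σ : ℕ} (hσ : C.Tw a σ) (w : List (Fin 2)) :
    C.ntw a ![0, σ] w = w.count 1 := by
  induction w with
  | nil => rw [C.ntw_nil]; rfl
  | cons k w ih =>
    fin_cases k
    · show C.ntw a ![0, σ] ((0 : Fin 2) :: w) = ((0 : Fin 2) :: w).count 1
      rw [C.ntw_cons_untw w (show ¬ C.Tw a (![0, σ] 0) from rpr_tw0 C), ih]
      simp
    · show C.ntw a ![0, σ] ((1 : Fin 2) :: w) = ((1 : Fin 2) :: w).count 1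
      rw [C.ntw_cons_tw w (show C.Tw a (![0, σ] 1) from hσ), ih]
      simp

private theorem rpr_len (w : List (Fin 2)) : w.length = w.count 0 + w.count 1 := by
  induction w with
  | nil => rfl
  | cons k w ih =>
    fin_cases k
    · simp
      omega
    · simp
      omega

private theorem rpr_rep {s : List (Fin 2)} (h : s.count 1 = 0) : s = List.replicate s.length 0 := by
  refine List.eq_replicate_iff.2 ⟨rfl, fun b hb => ?_⟩
  fin_cases b
  · rfl
  · exact absurd hb (List.count_eq_zero.1 h)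

private theorem rpr_cls {w : List (Fin 2)} (h : w.count 1 = 1) :
    ∃ i j, w = List.replicate i 0 ++ 1 :: List.replicate j 0 := by
  have h1 : (1 : Fin 2) ∈ w := List.count_pos_iff.1 (by omega)
  obtain ⟨s, t, rfl⟩ := List.append_of_mem h1
  rw [List.count_append, List.count_cons_self] at h
  refine ⟨s.length, t.length, ?_⟩
  rw [← rpr_rep (s := s) (by omega), ← rpr_rep (s := t) (by omega)]

private theorem rpr_wt_rep {ι : Type} [DecidableEq ι] (p : ℕ) {σ : ι → ℕ} {k : ι} (h : σ k = 0) (i : ℕ) (v : List ι) :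
    wt p σ (List.replicate i k ++ v) k = i + wt p σ v k := by
  induction i with
  | zero => simp
  | succ i ih =>
    rw [List.replicate_succ, List.cons_append]
    show (if k = k then 1 else 0) + p ^ σ k * wt p σ (List.replicate i k ++ v) k = _
    rw [if_pos rfl, h, pow_zero, one_mul, ih]
    ring

private theorem rpr_wt2 (p σ i j : ℕ) :
    wt p ![0, σ] (List.replicate i 0 ++ 1 :: List.replicate j 0) 0 = i + p ^ σ * j := by
  rw [rpr_wt_rep p (σ := ![0, σ]) (k := 0) rfl]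
  show i + ((if (1 : Fin 2) = 0 then 1 else 0) + p ^ σ * wt p ![0, σ] (List.replicate j 0) 0) = _
  have h := rpr_wt_rep p (σ := ![0, σ]) (k := 0) rfl j []
  rw [List.append_nil] at h
  rw [h, if_neg (by decide)]
  show i + (0 + p ^ σ * (j + 0)) = _
  ring

private theorem rpr_wt2' (p σ j : ℕ) :
    wt p ![0, σ] (1 :: List.replicate j 0) 0 = p ^ σ * j := by
  have h := rpr_wt2 p σ 0 j
  rw [List.replicate_zero, List.nil_append, zero_add] at h
  exact h

private theorem rpr_val2 (ρ x : U) (i : ℕ) :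
    (((1 : Fin 2) :: List.replicate i (0 : Fin 2)).map ![ρ, x]).prod = x * ρ ^ i := by
  rw [List.map_cons, List.map_replicate, List.prod_cons, List.prod_replicate]
  rfl

private theorem rpr_nf {a : Q} {σ : ℕ} (hσ : C.Tw a σ) {v : List (Fin 2)} (h : C.NfR a ![0, σ] v) :
    ∃ i, v = 1 :: List.replicate i 0 := by
  obtain ⟨x, u, rfl, hu, hx⟩ := h
  refine ⟨u.length, ?_⟩
  rw [rpr_eq1 C hx]
  congr 1
  exact List.eq_replicate_iff.2 ⟨rfl, fun b hb => rpr_eq0 C hσ (hu b hb)⟩

private theorem mr_val {a : Q} {σ k : ℕ} {c : List (Fin 2) →₀ ℤ} (h : ∀ v ∈ c.support, v ≠ [] ∧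
    (fun q : C.DmR a σ => (v.map ![q.1.1, q.1.2]).prod) ∈ C.MR a σ k) :
    (fun q : C.DmR a σ => C.val ![q.1.1, q.1.2] a c) ∈ C.MR a σ k := by
  have e : (fun q : C.DmR a σ => C.val ![q.1.1, q.1.2] a c) =
      ∑ v ∈ c.support, c v • (fun q : C.DmR a σ => (v.map ![q.1.1, q.1.2]).prod) := by
    funext q
    rw [Finset.sum_apply]
    unfold Base.val
    rw [Finsupp.sum]
    refine Finset.sum_congr rfl fun v hv => ?_
    rw [C.hom_wv (rpr_lhom2 C q) (h v hv).1]
    rfl
  rw [e]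
  exact sum_mem fun v hv => zsmul_mem (h v hv).2 _

private theorem rpr_digit3 {a : Q} (ha : 2 ≤ C.r a) {σ : ℕ} (hσ : C.Tw a σ) {i j : ℕ}
    (hij : i + j = C.p) (h : C.p ^ σ * C.p ≡ i + C.p ^ σ * j [MOD C.n a]) : i = 0 := by
  have hr : C.r a = 1 + (C.r a - 1) := by omega
  have h1 : C.p ^ ((C.r a - 1) * σ) * C.p ^ σ ≡ 1 [MOD C.n a] := by
    have h2 : (C.r a - 1) * σ + σ ≡ 0 [MOD C.r a] := by
      have e : (C.r a - 1) * σ + σ = C.r a * σ := by
        have e1 : (C.r a - 1) * σ + σ = ((C.r a - 1) + 1) * σ := by ring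
        rw [e1, Nat.sub_add_cancel (by omega)]
      rw [e]
      exact (Nat.modEq_zero_iff_dvd).2 (dvd_mul_right _ _)
    have h3 := C.p_pow_modEq a h2
    rwa [pow_add, pow_zero] at h3
  have hs : ¬ C.r a ∣ (C.r a - 1) * σ := by
    intro hd
    apply hσ
    have e : (C.r a - 1) * σ + σ = C.r a * σ := by
      have e1 : (C.r a - 1) * σ + σ = ((C.r a - 1) + 1) * σ := by ring
      rw [e1, Nat.sub_add_cancel (by omega)]
    have h2 : C.r a ∣ (C.r a - 1) * σ + σ := by
      rw [e]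
      exact dvd_mul_right _ _
    exact (Nat.dvd_add_right hd).1 h2
  have h4 := (h.mul_left (C.p ^ ((C.r a - 1) * σ)))
  have h5 : C.p ^ ((C.r a - 1) * σ) * (C.p ^ σ * C.p) ≡ 1 * C.p [MOD C.n a] := by
    rw [← mul_assoc]
    exact h1.mul_right _
  have h6 : C.p ^ ((C.r a - 1) * σ) * (i + C.p ^ σ * j) ≡
      i * C.p ^ ((C.r a - 1) * σ) + 1 * j [MOD C.n a] := by
    have e : C.p ^ ((C.r a - 1) * σ) * (i + C.p ^ σ * j) =
        i * C.p ^ ((C.r a - 1) * σ) + C.p ^ ((C.r a - 1) * σ) * C.p ^ σ * j := by ring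
    rw [e]
    exact (Nat.ModEq.refl _).add (h1.mul_right _)
  rw [one_mul] at h5 h6
  refine digit3 C.hp ha hs (i := i) (by omega) ?_
  have e : C.p - i = j := by omega
  rw [e, ← C.n_eq ha]
  exact (h6.symm.trans h4.symm).trans h5

private theorem rpr_red1 (hC : C.Cub) (hL : TyR C.Rl C.p) {a : Q} (ha : 2 ≤ C.r a) {σ : ℕ}
    (hσ : C.Tw a σ) (w : List (Fin 2)) (hw : ∀ i, i ∈ w)
    (hE : C.Ew a ![0, σ] (1 :: List.replicate C.p 0) w) (h0 : w ≠ 1 :: List.replicate C.p 0)
    (h1 : w ≠ [0, 1]) :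
    (fun q : C.DmR a σ => (w.map ![q.1.1, q.1.2]).prod) ∈ C.MR a σ (C.p + 1) := by
  have hp2 := C.hp.two_le
  have hc1 : 1 ≤ w.count 1 := List.count_pos_iff.2 (hw 1)
  have hc0 : 1 ≤ w.count 0 := List.count_pos_iff.2 (hw 0)
  have hlen := rpr_len w
  by_cases h2 : 2 ≤ w.count 1
  · have e : (fun q : C.DmR a σ => (w.map ![q.1.1, q.1.2]).prod) = 0 := by
      funext q
      exact C.vanR2 hC hL ha ![0, σ] w (by omega) (by rw [rpr_ntw C hσ]; exact h2) _ (rpr_lhom2 C q)
    rw [e]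
    exact zero_mem _
  · obtain ⟨i, j, rfl⟩ := rpr_cls (w := w) (by omega)
    have hij : (List.replicate i (0 : Fin 2) ++ 1 :: List.replicate j 0).count 0 = i + j := by
      rw [List.count_append, List.count_cons_of_ne (by decide), List.count_replicate_self,
        List.count_replicate_self]
    have hwt := hE.1 0
    rw [rpr_wt2', rpr_wt2] at hwt
    have hdig := digit C.hp ha (List.replicate i 0 ++ List.replicate j σ) (σ + 1) (by
      have e : ((List.replicate i 0 ++ List.replicate j σ).map (fun s => C.p ^ s)).sum =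
          i + C.p ^ σ * j := by
        rw [List.map_append, List.map_replicate, List.map_replicate, List.sum_append,
          List.sum_replicate, List.sum_replicate]
        simp [mul_comm]
      rw [e, pow_succ, ← C.n_eq ha]
      exact hwt.symm)
    rw [List.length_append, List.length_replicate, List.length_replicate] at hdig
    rcases hdig with hd | hd
    · exfalso
      rcases Nat.eq_zero_or_pos i with hi | hi
      · have hj : j = 1 := by omega
        rw [hi, hj, mul_one, zero_add, ← pow_succ, C.n_eq ha] at hwt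
        have h3 := (pow_modEq_iff C.hp ha (σ + 1) σ).1 hwt
        have h4 : 1 ≡ 0 [MOD C.r a] := by
          have h5 : σ + 1 ≡ σ + 0 [MOD C.r a] := h3
          exact Nat.ModEq.add_left_cancel' σ h5
        have h6 := Nat.le_of_dvd (by norm_num) ((Nat.modEq_zero_iff_dvd).1 h4)
        omega
      · apply h1
        have hi1 : i = 1 := by omega
        have hj0 : j = 0 := by omega
        rw [hi1, hj0]
        rfl
    · by_cases h3 : i + j = C.p
      · exfalso
        have h4 := rpr_digit3 C ha hσ h3 hwt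
        apply h0
        have h5 : j = C.p := by omega
        rw [h4, h5]
        rfl
      · have hlen2 : 3 ≤ (List.replicate i (0 : Fin 2) ++ 1 :: List.replicate j 0).length := by
          rw [List.length_append, List.length_cons, List.length_replicate, List.length_replicate]
          omega
        obtain ⟨c, h4, h5⟩ := C.rewR hC hL ha ![0, σ] _ hlen2 ⟨1, by simp, hσ⟩
        have e : (fun q : C.DmR a σ => ((List.replicate i (0 : Fin 2) ++ 1 :: List.replicate j 0).map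
            ![q.1.1, q.1.2]).prod) = fun q : C.DmR a σ => C.val ![q.1.1, q.1.2] a c := by
          funext q
          exact h5 _ (rpr_lhom2 C q)
        rw [e]
        refine mr_val C fun v hv => ?_
        obtain ⟨h6, h7, -⟩ := h4 v hv
        obtain ⟨l, rfl⟩ := rpr_nf C hσ h6
        refine ⟨by simp, ?_⟩
        have e2 : (fun q : C.DmR a σ => (((1 : Fin 2) :: List.replicate l (0 : Fin 2)).map
            ![q.1.1, q.1.2]).prod) = fun q : C.DmR a σ => q.1.2 * q.1.1 ^ l := by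
          funext q
          exact rpr_val2 q.1.1 q.1.2 l
        rw [e2]
        refine mr_gen C ?_
        have h8 := h7 0
        rw [hij] at h8
        have h9 : ((1 : Fin 2) :: List.replicate l (0 : Fin 2)).count 0 = l := by
          rw [List.count_cons_of_ne (by decide), List.count_replicate_self]
        rw [h9] at h8
        omega

/-! words in three letters -/

private theorem rpr_lhom3 {a : Q} (ha : 2 ≤ C.r a) {σ : ℕ} (q : C.DmR a σ) :
    C.LHom a ![0, σ, 0] ![q.1.1, q.1.2, (C.p : ℤ) • C.e a] := by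
  intro k
  fin_cases k
  · exact q.2.1
  · exact q.2.2
  · exact C.H_p (C.ne_o ha)

private theorem rpr_ne1 {a : Q} {σ : ℕ} (hσ : C.Tw a σ) {k : Fin 3} (h : ¬ C.Tw a (![0, σ, 0] k)) : k ≠ 1 := by
  rintro rfl
  exact h hσ

private theorem rpr_eq1' {a : Q} {σ : ℕ} {k : Fin 3} (h : C.Tw a (![0, σ, 0] k)) : k = 1 := by
  fin_cases k
  · exact absurd h (rpr_tw0 C)
  · rfl
  · exact absurd h (rpr_tw0 C)

private theorem rpr_wt3' (p σ : ℕ) (u : List (Fin 3)) (hu : ∀ k ∈ u, k ≠ 1) :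
    wt p ![0, σ, 0] u 0 = u.count 0 := by
  induction u with
  | nil => simp [wt]
  | cons k u ih =>
    have ih' := ih fun k hk => hu k (List.mem_cons_of_mem _ hk)
    have hk := hu k List.mem_cons_self
    show (if k = 0 then 1 else 0) + p ^ (![0, σ, 0] k) * wt p ![0, σ, 0] u 0 = _
    rw [ih']
    fin_cases k
    · simp
      ring
    · exact absurd rfl hk
    · simp

private theorem rpr_wt3 (p σ : ℕ) (u : List (Fin 3)) (hu : ∀ k ∈ u, k ≠ 1) :
    wt p ![0, σ, 0] (1 :: u) 0 = p ^ σ * u.count 0 := by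
  show (if (1 : Fin 3) = 0 then 1 else 0) + p ^ σ * wt p ![0, σ, 0] u 0 = _
  rw [rpr_wt3' p σ u hu, if_neg (by decide), zero_add]

private theorem rpr_ex {a : Q} {σ : ℕ} (q : C.DmR a σ) (i : ℕ) :
    q.1.2 * q.1.1 ^ i * C.e a = q.1.2 * q.1.1 ^ i := by
  cases i with
  | zero => rw [pow_zero, mul_one]; exact q.2.2.1.2.2
  | succ i => rw [pow_succ, mul_assoc, mul_assoc, q.2.1.1.2.2]

private theorem rpr_val3' {a : Q} {σ : ℕ} (q : C.DmR a σ) (u : List (Fin 3)) (hu : ∀ k ∈ u, k ≠ 1) :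
    ∀ i : ℕ, q.1.2 * q.1.1 ^ i * (u.map ![q.1.1, q.1.2, (C.p : ℤ) • C.e a]).prod =
      ((C.p : ℤ) ^ u.count 2) • (q.1.2 * q.1.1 ^ (i + u.count 0)) := by
  induction u with
  | nil => intro i; simp
  | cons k u ih =>
    intro i
    have ih' := ih fun k hk => hu k (List.mem_cons_of_mem _ hk)
    have hk := hu k List.mem_cons_self
    rw [List.map_cons, List.prod_cons, ← mul_assoc]
    fin_cases k
    · show q.1.2 * q.1.1 ^ i * q.1.1 * _ =
        ((C.p : ℤ) ^ ((0 : Fin 3) :: u).count 2) • (q.1.2 * q.1.1 ^ (i + ((0 : Fin 3) :: u).count 0))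
      rw [mul_assoc q.1.2, ← pow_succ, ih' (i + 1), List.count_cons_self,
        List.count_cons_of_ne (by decide)]
      congr 3
      omega
    · exact absurd rfl hk
    · show q.1.2 * q.1.1 ^ i * ((C.p : ℤ) • C.e a) * _ =
        ((C.p : ℤ) ^ ((2 : Fin 3) :: u).count 2) • (q.1.2 * q.1.1 ^ (i + ((2 : Fin 3) :: u).count 0))
      rw [mul_smul_comm, rpr_ex, smul_mul_assoc, ih' i, List.count_cons_self,
        List.count_cons_of_ne (by decide), smul_smul, pow_succ']

private theorem rpr_val3 {a : Q} {σ : ℕ} (q : C.DmR a σ) (u : List (Fin 3)) (hu : ∀ k ∈ u, k ≠ 1) :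
    (((1 : Fin 3) :: u).map ![q.1.1, q.1.2, (C.p : ℤ) • C.e a]).prod =
      ((C.p : ℤ) ^ u.count 2) • (q.1.2 * q.1.1 ^ u.count 0) := by
  have h := rpr_val3' C q u hu 0
  rw [pow_zero, mul_one, zero_add] at h
  rw [List.map_cons, List.prod_cons]
  exact h

private theorem rpr_red3 (hC : C.Cub) (hL : TyR C.Rl C.p) {a : Q} (ha : 2 ≤ C.r a) {σ : ℕ}
    (hσ : C.Tw a σ) (hpσ : C.p ^ σ * C.p ≡ 1 [MOD C.n a]) :
    ∃ F ∈ C.MR a σ C.p, ∀ q : C.DmR a σ, (C.p : ℤ) • (q.1.1 * q.1.2) = (C.p : ℤ) • F q := by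
  have hp2 := C.hp.two_le
  obtain ⟨c, h1, h2⟩ := C.rewR hC hL ha ![0, σ, 0] [0, 1, 2] (le_refl _) ⟨1, by simp, hσ⟩
  have hn : C.p < C.n a := by
    rw [C.n_eq ha]
    have h3 : C.p ^ 2 ≤ C.p ^ C.r a := Nat.pow_le_pow_right (by omega) ha
    have h4 : C.p + 2 ≤ C.p ^ 2 := by nlinarith
    omega
  have key : ∀ v ∈ c.support, 1 ≤ v.count 2 ∧ C.p ≤ v.count 0 ∧
      ∀ q : C.DmR a σ, C.wv ![q.1.1, q.1.2, (C.p : ℤ) • C.e a] a v =
        ((C.p : ℤ) ^ v.count 2) • (q.1.2 * q.1.1 ^ v.count 0) := by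
    intro v hv
    obtain ⟨⟨x, u, rfl, hu, hx⟩, h3, -, h4, -⟩ := h1 v hv
    have hx1 := rpr_eq1' C hx
    subst hx1
    have hu' : ∀ k ∈ u, k ≠ 1 := fun k hk => rpr_ne1 C hσ (hu k hk)
    have hc2 : ((1 : Fin 3) :: u).count 2 = u.count 2 := List.count_cons_of_ne (by decide)
    have hc0 : ((1 : Fin 3) :: u).count 0 = u.count 0 := List.count_cons_of_ne (by decide)
    have h5 := h3 2
    have h6 := h4 0
    rw [rpr_wt3 C.p σ u hu'] at h6
    have h7 : wt C.p ![0, σ, 0] [0, 1, 2] 0 = 1 := by simp [wt]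
    rw [h7] at h6
    have h8 : C.p ≡ u.count 0 [MOD C.n a] := by
      have h9 : C.p ^ σ * C.p ≡ C.p ^ σ * u.count 0 [MOD C.n a] := hpσ.trans h6
      refine Nat.ModEq.cancel_left_of_coprime ?_ h9
      exact (C.n_coprime a).pow_right σ
    rw [hc2] at h5 ⊢
    rw [hc0]
    refine ⟨h5, ?_, fun q => ?_⟩
    · by_contra h9
      have h10 := Nat.ModEq.eq_of_lt_of_lt h8 hn (by omega)
      omega
    · rw [C.hom_wv (rpr_lhom3 C ha q) (by simp), rpr_val3 C q u hu']
  refine ⟨fun q => ∑ v ∈ c.support, (c v * (C.p : ℤ) ^ (v.count 2 - 1)) • (q.1.2 * q.1.1 ^ v.count 0), ?_, ?_⟩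
  · have e : (fun q : C.DmR a σ => ∑ v ∈ c.support, (c v * (C.p : ℤ) ^ (v.count 2 - 1)) •
        (q.1.2 * q.1.1 ^ v.count 0)) = ∑ v ∈ c.support, (c v * (C.p : ℤ) ^ (v.count 2 - 1)) •
          (fun q : C.DmR a σ => q.1.2 * q.1.1 ^ v.count 0) := by
      funext q
      rw [Finset.sum_apply]
      rfl
    rw [e]
    exact sum_mem fun v hv => zsmul_mem (mr_gen C (key v hv).2.1) _
  · intro q
    have h3 := h2 _ (rpr_lhom3 C ha q)
    have h4 : (([0, 1, 2] : List (Fin 3)).map ![q.1.1, q.1.2, (C.p : ℤ) • C.e a]).prod =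
        (C.p : ℤ) • (q.1.1 * q.1.2) := by
      have h5 : q.1.2 * C.e a = q.1.2 := q.2.2.1.2.2
      show q.1.1 * (q.1.2 * (((C.p : ℤ) • C.e a) * 1)) = _
      rw [mul_one, mul_smul_comm, h5, mul_smul_comm]
    rw [← h4, h3]
    unfold Base.val
    rw [Finsupp.sum, Finset.smul_sum]
    refine Finset.sum_congr rfl fun v hv => ?_
    obtain ⟨h5, -, h6⟩ := key v hv
    have h7 : (C.p : ℤ) ^ v.count 2 = C.p * (C.p : ℤ) ^ (v.count 2 - 1) := by
      rw [← pow_succ']
      congr 1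
      omega
    rw [h6, smul_smul, smul_smul, h7]
    congr 1
    ring

open scoped Classical in
private theorem rpr_relB (hC : C.Cub) (hL : TyR C.Rl C.p) {a : Q} (ha : 2 ≤ C.r a) {σ : ℕ}
    (hσ : C.Tw a σ) {G : List (Fin 2) →₀ ℤ} (hG : C.Rl2 G) :
    (fun q : C.DmR a σ => G (1 :: List.replicate C.p 0) • (q.1.2 * q.1.1 ^ C.p) +
      (G.filter fun v => C.Ew a ![0, σ] (1 :: List.replicate C.p 0) v) [0, 1] • (q.1.1 * q.1.2)) ∈
      C.MR a σ (C.p + 1) := by
  have hp2 := C.hp.two_le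
  set v0 : List (Fin 2) := 1 :: List.replicate C.p 0 with hv0
  set G' := G.filter fun v => C.Ew a ![0, σ] v0 v with hG'
  have hrefl : C.Ew a ![0, σ] v0 v0 := ⟨fun k => Nat.ModEq.refl _, Nat.ModEq.refl _⟩
  have hne : v0 ≠ [0, 1] := by
    intro h
    rw [hv0] at h
    have h3 := (List.cons.inj h).1
    exact absurd h3 (by decide)
  have hzero : ∀ q : C.DmR a σ, C.val ![q.1.1, q.1.2] a G' = 0 := by
    intro q
    have hsep := C.sepw ha ![0, σ] ⊥ (fun u x hx => by
        rw [AddSubgroup.mem_bot] at hx ⊢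
        rw [hx, mul_zero]) (fun u x hx => by
        rw [AddSubgroup.mem_bot] at hx ⊢
        rw [hx, zero_mul]) G (fun r hr => by
        rw [AddSubgroup.mem_bot]
        have h1 := hG.2 r (fun i => C.J_le (hr i).1.1)
        have h2 : C.val r a G = C.e a * G.sum fun w c => c • (w.map r).prod := by
          unfold Base.val Base.wv
          rw [Finsupp.sum, Finsupp.sum, Finset.mul_sum]
          refine Finset.sum_congr rfl fun w _ => ?_
          rw [mul_smul_comm]
        rw [h2, h1, mul_zero]) v0 _ (rpr_lhom2 C q)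
    rwa [AddSubgroup.mem_bot] at hsep
  set R := (G'.support.erase v0).erase [0, 1] with hR
  have hRm : ∀ w ∈ R, w ≠ [0, 1] ∧ w ≠ v0 ∧ w ∈ G'.support := by
    intro w hw
    rw [hR, Finset.mem_erase, Finset.mem_erase] at hw
    exact hw
  have hRf : (∑ w ∈ R, G' w • (fun q : C.DmR a σ => (w.map ![q.1.1, q.1.2]).prod)) ∈
      C.MR a σ (C.p + 1) := by
    refine sum_mem fun w hw => zsmul_mem ?_ _
    obtain ⟨h1, h2, h3⟩ := hRm w hw
    have h4 := Finsupp.mem_support_iff.1 h3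
    have h5 : C.Ew a ![0, σ] v0 w := by
      by_contra h6
      rw [hG', Finsupp.filter_apply_neg _ _ h6] at h4
      exact h4 rfl
    have h6 : G w ≠ 0 := by
      rw [hG', Finsupp.filter_apply_pos _ _ h5] at h4
      exact h4
    exact rpr_red1 C hC hL ha hσ w (hG.1 w (Finsupp.mem_support_iff.2 h6)) h5 h2 h1
  have e : (fun q : C.DmR a σ => G v0 • (q.1.2 * q.1.1 ^ C.p) + G' [0, 1] • (q.1.1 * q.1.2)) =
      -(∑ w ∈ R, G' w • (fun q : C.DmR a σ => (w.map ![q.1.1, q.1.2]).prod)) := by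
    funext q
    have h1 := hzero q
    have hsub : G'.support ⊆ insert v0 (insert [0, 1] R) := by
      intro w hw
      by_cases h2 : w = v0
      · exact Finset.mem_insert.2 (Or.inl h2)
      · by_cases h3 : w = [0, 1]
        · exact Finset.mem_insert.2 (Or.inr (Finset.mem_insert.2 (Or.inl h3)))
        · refine Finset.mem_insert.2 (Or.inr (Finset.mem_insert.2 (Or.inr ?_)))
          rw [hR, Finset.mem_erase, Finset.mem_erase]
          exact ⟨h3, h2, hw⟩
    have hn1 : v0 ∉ insert [0, 1] R := by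
      intro h2
      rcases Finset.mem_insert.1 h2 with h3 | h3
      · exact hne h3
      · exact (hRm v0 h3).2.1 rfl
    have hn2 : [0, 1] ∉ R := fun h2 => (hRm _ h2).1 rfl
    unfold Base.val at h1
    rw [Finsupp.sum_of_support_subset G' hsub (fun v n => n • C.wv ![q.1.1, q.1.2] a v)
      (fun w _ => zero_smul _ _), Finset.sum_insert hn1, Finset.sum_insert hn2] at h1
    have hv0n : v0 ≠ [] := by
      rw [hv0]
      simp
    have hG0 : G' v0 = G v0 := Finsupp.filter_apply_pos _ _ hrefl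
    rw [C.hom_wv (rpr_lhom2 C q) hv0n, C.hom_wv (rpr_lhom2 C q) (List.cons_ne_nil _ _), hG0, hv0,
      rpr_val2] at h1
    have h2 : ((([0, 1] : List (Fin 2)).map ![q.1.1, q.1.2]).prod : U) = q.1.1 * q.1.2 := by
      show q.1.1 * (q.1.2 * 1) = _
      rw [mul_one]
    rw [h2, ← add_assoc] at h1
    have h3 : (∑ w ∈ R, G' w • C.wv ![q.1.1, q.1.2] a w) =
        (∑ w ∈ R, G' w • (fun q : C.DmR a σ => (w.map ![q.1.1, q.1.2]).prod)) q := by
      rw [Finset.sum_apply]
      refine Finset.sum_congr rfl fun w hw => ?_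
      have h4 : w ≠ [] := by
        obtain ⟨-, -, h5⟩ := hRm w hw
        have h6 := Finsupp.mem_support_iff.1 h5
        have h7 : G w ≠ 0 := by
          intro h8
          apply h6
          rw [hG']
          by_cases h9 : C.Ew a ![0, σ] v0 w
          · rw [Finsupp.filter_apply_pos _ _ h9, h8]
          · rw [Finsupp.filter_apply_neg _ _ h9]
        rintro rfl
        exact absurd (hG.1 _ (Finsupp.mem_support_iff.2 h7) 0) List.not_mem_nil
      rw [C.hom_wv (rpr_lhom2 C q) h4]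
      rfl
    rw [h3] at h1
    rw [Pi.neg_apply]
    exact eq_neg_of_add_eq_zero_left h1
  rw [e]
  exact neg_mem hRf

/-- multiples of `y = x ρ ^ p` by elements of `J` -/
private def JYR {a : Q} {σ : ℕ} (q : C.DmR a σ) : AddSubgroup U :=
  C.J.map (AddMonoidHom.mulLeft (q.1.2 * q.1.1 ^ C.p))

private theorem jyr_mem {a : Q} {σ : ℕ} (q : C.DmR a σ) {s : U} (hs : s ∈ C.J) :
    (q.1.2 * q.1.1 ^ C.p) * s ∈ C.JYR q := ⟨s, hs, rfl⟩

private theorem rpr_E1 {a : Q} (ha : 2 ≤ C.r a) {σ : ℕ} (q : C.DmR a σ) {F : C.DmR a σ → U}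
    (hF : F ∈ C.MR a σ C.p) : (C.p : ℤ) • F q ∈ C.JYR q := by
  unfold MR at hF
  induction hF using AddSubgroup.closure_induction with
  | mem F hF =>
    obtain ⟨i, hi, rfl⟩ := hF
    obtain ⟨j, rfl⟩ := Nat.exists_eq_add_of_le hi
    have hJ : (C.p : ℤ) • C.e a ∈ C.J := C.pJ _ (C.e_mem a (C.ne_o ha))
    have e : (C.p : ℤ) • (q.1.2 * q.1.1 ^ (C.p + j)) =
        (q.1.2 * q.1.1 ^ C.p) * (q.1.1 ^ j * ((C.p : ℤ) • C.e a)) := by
      rw [← rpr_ex C q (C.p + j), pow_add, mul_smul_comm, mul_smul_comm]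
      simp only [mul_assoc]
    rw [e]
    exact jyr_mem C q (C.J_left _ _ hJ)
  | zero =>
    show (C.p : ℤ) • (0 : U) ∈ _
    rw [smul_zero]
    exact zero_mem _
  | add F F' _ _ h h' =>
    show (C.p : ℤ) • (F q + F' q) ∈ _
    rw [smul_add]
    exact add_mem h h'
  | neg F _ h =>
    show (C.p : ℤ) • (- F q) ∈ _
    rw [smul_neg]
    exact neg_mem h

private theorem rpr_E2 {a : Q} {σ : ℕ} (q : C.DmR a σ) {F : C.DmR a σ → U}
    (hF : F ∈ C.MR a σ (C.p + 1)) : F q ∈ C.JYR q := by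
  unfold MR at hF
  induction hF using AddSubgroup.closure_induction with
  | mem F hF =>
    obtain ⟨i, hi, rfl⟩ := hF
    obtain ⟨j, rfl⟩ := Nat.exists_eq_add_of_le hi
    have e : q.1.2 * q.1.1 ^ (C.p + 1 + j) = (q.1.2 * q.1.1 ^ C.p) * (q.1.1 * q.1.1 ^ j) := by
      rw [pow_add, pow_add, pow_one]
      simp only [mul_assoc]
    show q.1.2 * q.1.1 ^ (C.p + 1 + j) ∈ _
    rw [e]
    exact jyr_mem C q (C.J_right _ _ q.2.1.1.1)
  | zero => exact zero_mem _
  | add F F' _ _ h h' => exact add_mem h h'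
  | neg F _ h => exact neg_mem h

theorem rpxR (hC : C.Cub) (hR : TyR C.Rl C.p) (hOp : C.OpR) {a : Q} (ha : 2 ≤ C.r a) (σ : ℕ)
    (hσ : C.Tw a σ) :
    (∃ e : ℕ →₀ ℤ, e 0 = 0 ∧ ∀ ρ x, C.H a a 0 ρ → C.H a a σ x →
      ρ * x = e.sum fun i z => z • (x * ρ ^ i)) ∨
    (∀ ρ x, C.H a a 0 ρ → C.H a a σ x → x * ρ ^ C.p = 0) := by
  classical
  obtain ⟨G, hG, hu⟩ := hOp
  have hB := rpr_relB C hC hR ha hσ hG
  set u : ℤ := G (1 :: List.replicate C.p 0) with hudef
  by_cases hz : (C.p : ℤ) ∣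
      (G.filter fun v => C.Ew a ![0, σ] (1 :: List.replicate C.p 0) v) [0, 1]
  · right
    intro ρ x hρ hx
    obtain ⟨F, hF, hFz⟩ : ∃ F ∈ C.MR a σ C.p, ∀ q : C.DmR a σ,
        (G.filter fun v => C.Ew a ![0, σ] (1 :: List.replicate C.p 0) v) [0, 1] • (q.1.1 * q.1.2) =
          (C.p : ℤ) • F q := by
      by_cases h0 : (G.filter fun v => C.Ew a ![0, σ] (1 :: List.replicate C.p 0) v) [0, 1] = 0
      · refine ⟨0, zero_mem _, fun q => ?_⟩
        rw [h0, zero_smul]
        exact (smul_zero _).symm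
      · have hE : C.Ew a ![0, σ] (1 :: List.replicate C.p 0) [0, 1] := by
          by_contra h1
          rw [Finsupp.filter_apply_neg _ _ h1] at h0
          exact h0 rfl
        have h1 := hE.1 0
        have hv1 := rpr_wt2 C.p σ 1 0
        have hv1' : wt C.p ![0, σ] [0, 1] 0 = 1 + C.p ^ σ * 0 := hv1
        rw [rpr_wt2', hv1', mul_zero, add_zero] at h1
        obtain ⟨F0, hF0, h2⟩ := rpr_red3 C hC hR ha hσ h1
        obtain ⟨z', hz'⟩ := hz
        refine ⟨z' • F0, zsmul_mem hF0 _, fun q => ?_⟩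
        rw [hz', Pi.smul_apply, mul_comm, mul_smul, h2, smul_comm]
    set q : C.DmR a σ := ⟨(ρ, x), hρ, hx⟩ with hq
    have h1 : u • (x * ρ ^ C.p) ∈ C.JYR q := by
      have h2 := rpr_E2 C q hB
      have h3 := rpr_E1 C ha q hF
      have h4 := hFz q
      have h5 := sub_mem h2 h3
      rw [← h4, add_sub_cancel_right] at h5
      exact h5
    obtain ⟨s, hs, hsy⟩ := h1
    have hsy' : (x * ρ ^ C.p) * s = u • (x * ρ ^ C.p) := hsy
    have hyJ : x * ρ ^ C.p ∈ C.J := C.J_right _ _ hx.1.1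
    obtain ⟨m, hm⟩ := C.inv_mod hu
    have h2 : (x * ρ ^ C.p) * (m • s) = x * ρ ^ C.p := by
      rw [mul_smul_comm, hsy', smul_smul]
      exact hm _ (C.J_le hyJ)
    have hsJ : m • s ∈ C.J := zsmul_mem hs _
    have h3 : ∀ k : ℕ, (x * ρ ^ C.p) * (m • s) ^ k = x * ρ ^ C.p := by
      intro k
      induction k with
      | zero => rw [pow_zero, mul_one]
      | succ k ih => rw [pow_succ', ← mul_assoc, h2, ih]
    have h4 : (m • s) ^ C.N = 0 := by
      have h5 := C.nil (List.replicate C.N (m • s)) (by rw [List.length_replicate]) (fun y hy => by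
        rw [List.eq_of_mem_replicate hy]
        exact hsJ)
      rwa [List.prod_replicate] at h5
    rw [← h3 C.N, h4, mul_zero]
  · left
    obtain ⟨m, hm⟩ := C.inv_mod hz
    have e : (fun q : C.DmR a σ => q.1.1 * q.1.2) =
        m • ((fun q : C.DmR a σ => u • (q.1.2 * q.1.1 ^ C.p) +
          (G.filter fun v => C.Ew a ![0, σ] (1 :: List.replicate C.p 0) v) [0, 1] •
            (q.1.1 * q.1.2)) - u • (fun q : C.DmR a σ => q.1.2 * q.1.1 ^ C.p)) := by
      funext q
      have h1 : q.1.1 * q.1.2 ∈ C.A := C.J_le (C.J_left _ _ q.2.2.1.1)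
      rw [Pi.smul_apply, Pi.sub_apply, Pi.smul_apply, add_sub_cancel_left, smul_smul]
      exact (hm _ h1).symm
    have hmem : (fun q : C.DmR a σ => q.1.1 * q.1.2) ∈ C.MR a σ 1 := by
      rw [e]
      exact zsmul_mem (sub_mem (mr_mono C (by omega) hB)
        (zsmul_mem (mr_gen C C.hp.one_lt.le) _)) _
    obtain ⟨e', h1, h2⟩ := mr_ext C hmem
    refine ⟨e', ?_, fun ρ x hρ hx => h2 ⟨(ρ, x), hρ, hx⟩⟩
    by_contra h0
    have := h1 0 (Finsupp.mem_support_iff.2 h0)
    omega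

end Ctx

end ADM
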