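import Pool.Agent.ADM.KtW
import Pool.Agent.ADM.HB

/-!
# ADM-Tr

Transfer for untwisted loops times one or two twisted loops.

PLAN.  `L = {x | H a a 0 x}` (an additive subgroup closed under multiplication, contained in `J`: H_add, H_neg, H_mul).
* trL: `ktW` with `M = {m | H a a (σ x) m}` (closed under left multiplication by `L`: `H_mul`, `0 + σ x`; `M ⊆ A`).  Given `r'` with values in `L` and
  `m ∈ M`, put `r k = m` if `k = x`, `r' k` if `k ∈ R₀` (`H_modEq`: `0 ≡ σ k` as `σ k` is divisible by `r a`), `0` otherwise; `LHom a σ r`; `lv r d = lv r' d`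
  because the words of `d` have letters in `R₀`, `x ∉ R₀`; so `h r` is the hypothesis of `ktW`.  Conversely, for `LHom` `r` take `r' k = r k` for `k ∈ R₀`
  (in `L`) and `0` otherwise, `m = r x`.
* trR: the same with `ktWR`, `M` closed under right multiplication (`σ x + 0`).
* trT: `M = {m * m' | H a a (σ x) m, H a a (σ y) m'}`.
-/

namespace ADM

open AD ADN ADN.Ctx

namespace Ctx

variable {U : Type} [Ring U] {Q : Type} [Fintype Q] (C : Ctx U Q)

/-- the untwisted loops at `a` -/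
private def trLs (a : Q) : AddSubgroup U where
  carrier := {x | C.H a a 0 x}
  add_mem' := fun hx hy => H_add C hx hy
  zero_mem' := H_zero C 0
  neg_mem' := fun hx => H_neg C hx

private theorem trLs_mem {a : Q} {x : U} : x ∈ trLs C a ↔ C.H a a 0 x := Iff.rfl

private theorem trLs_mul {a : Q} (x y : U) (hx : x ∈ trLs C a) (hy : y ∈ trLs C a) :
    x * y ∈ trLs C a := by
  have h := H_mul C ((trLs_mem C).1 hx) ((trLs_mem C).1 hy)
  exact h

private theorem trLs_le (a : Q) : trLs C a ≤ C.J := fun _ hx => ((trLs_mem C).1 hx).1.1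

private theorem tr_left {a : Q} {s : ℕ} {x m : U} (hx : x ∈ trLs C a) (hm : C.H a a s m) :
    C.H a a s (x * m) := by
  have h := H_mul C ((trLs_mem C).1 hx) hm
  rwa [Nat.zero_add] at h

private theorem tr_right {a : Q} {s : ℕ} {x m : U} (hx : x ∈ trLs C a) (hm : C.H a a s m) :
    C.H a a s (m * x) := H_mul C hm ((trLs_mem C).1 hx)

private theorem tr_lv {ι : Type} {r r' : ι → U} {R₀ : Finset ι} {d : List ι →₀ ℤ}
    (hd : ∀ v ∈ d.support, ∀ k ∈ v, k ∈ R₀) (h : ∀ k ∈ R₀, r k = r' k) : lv r d = lv r' d := by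
  unfold lv
  refine Finsupp.sum_congr fun v hv => ?_
  have h1 : v.map r = v.map r' := List.map_congr_left fun k hk => h k (hd v hv k hk)
  rw [h1]

private theorem tr_mod {a : Q} {s : ℕ} (h : ¬ C.Tw a s) : 0 ≡ s [MOD C.r a] := by
  unfold Tw at h
  rw [not_not] at h
  exact (Nat.modEq_zero_iff_dvd.2 h).symm

private theorem tr_untw {a : Q} {s : ℕ} (h : ¬ C.Tw a s) {x : U} (hx : x ∈ trLs C a) :
    C.H a a s x := H_modEq C (tr_mod C h) ((trLs_mem C).1 hx)

private theorem tr_untw' {a : Q} {s : ℕ} (h : ¬ C.Tw a s) {x : U} (hx : C.H a a s x) :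
    x ∈ trLs C a := H_modEq C (tr_mod C h).symm hx

/-- the values in `R₀` of homogeneous loops are untwisted -/
private theorem tr_res {ι : Type} [DecidableEq ι] {a : Q} {σ : ι → ℕ} {R₀ : Finset ι}
    (h0 : ∀ k ∈ R₀, ¬ C.Tw a (σ k)) {r : ι → U} (hr : C.LHom a σ r) (k : ι) :
    (if k ∈ R₀ then r k else 0) ∈ trLs C a := by
  split_ifs with hk
  · exact tr_untw' C (h0 k hk) (hr k)
  · exact (trLs C a).zero_mem

variable {ι : Type} [Fintype ι] [DecidableEq ι]

theorem trL {T : Submodule ℤ P} (hT : C.Dst T) {V : Fin 3 → AddSubgroup U} (hV : C.Vals V) {a : Q}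
    (σ : ι → ℕ) (x : ι) (R₀ : Finset ι) (hx : x ∉ R₀) (h0 : ∀ k ∈ R₀, ¬ C.Tw a (σ k))
    (d d' : List ι →₀ ℤ) (hd : ∀ v ∈ d.support, ∀ k ∈ v, k ∈ R₀) (hd' : ∀ v ∈ d'.support, ∀ k ∈ v, k ∈ R₀)
    (h : ∀ r, C.LHom a σ r → In3 V (lv r d * r x) (lv r d' * r x)) :
    ∀ r, C.LHom a σ r → lv r d * r x = 0 := by
  have key := C.toBase.ktW (trLs C a) (trLs_mul C) (trLs_le C a) hT hV {m | C.H a a (σ x) m}
    (fun r m hr hm => tr_left C hr hm) d d' (Or.inl fun m hm => C.J_le hm.1.1) ?_
  · intro r hr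
    have h1 := key (fun k => if k ∈ R₀ then r k else 0) (tr_res C h0 hr) (r x) (hr x)
    rwa [tr_lv hd (r' := r) fun k hk => if_pos hk] at h1
  · intro r' hr' m hm
    have hr : C.LHom a σ fun k => if k = x then m else if k ∈ R₀ then r' k else 0 := by
      intro k
      show C.H a a (σ k) (if k = x then m else if k ∈ R₀ then r' k else 0)
      split_ifs with h1 h2
      · rw [h1]
        exact hm
      · exact tr_untw C (h0 k h2) (hr' k)
      · exact H_zero C _
    have h1 := h _ hr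
    have h2 : ∀ k ∈ R₀, (if k = x then m else if k ∈ R₀ then r' k else 0) = r' k := by
      intro k hk
      rw [if_neg, if_pos hk]
      rintro rfl
      exact hx hk
    rw [tr_lv hd (r' := r') h2, tr_lv hd' (r' := r') h2] at h1
    simpa using h1

theorem trR {T : Submodule ℤ P} (hT : C.Dst T) {V : Fin 3 → AddSubgroup U} (hV : C.Vals V) {a : Q}
    (σ : ι → ℕ) (x : ι) (R₀ : Finset ι) (hx : x ∉ R₀) (h0 : ∀ k ∈ R₀, ¬ C.Tw a (σ k))
    (d d' : List ι →₀ ℤ) (hd : ∀ v ∈ d.support, ∀ k ∈ v, k ∈ R₀) (hd' : ∀ v ∈ d'.support, ∀ k ∈ v, k ∈ R₀)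
    (h : ∀ r, C.LHom a σ r → In3 V (r x * lv r d) (r x * lv r d')) :
    ∀ r, C.LHom a σ r → r x * lv r d = 0 := by
  have key := C.toBase.ktWR (trLs C a) (trLs_mul C) (trLs_le C a) hT hV {m | C.H a a (σ x) m}
    (fun r m hr hm => tr_right C hr hm) d d' (fun m hm => C.J_le hm.1.1) ?_
  · intro r hr
    have h1 := key (fun k => if k ∈ R₀ then r k else 0) (tr_res C h0 hr) (r x) (hr x)
    rwa [tr_lv hd (r' := r) fun k hk => if_pos hk] at h1
  · intro r' hr' m hm
    have hr : C.LHom a σ fun k => if k = x then m else if k ∈ R₀ then r' k else 0 := by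
      intro k
      show C.H a a (σ k) (if k = x then m else if k ∈ R₀ then r' k else 0)
      split_ifs with h1 h2
      · rw [h1]
        exact hm
      · exact tr_untw C (h0 k h2) (hr' k)
      · exact H_zero C _
    have h1 := h _ hr
    have h2 : ∀ k ∈ R₀, (if k = x then m else if k ∈ R₀ then r' k else 0) = r' k := by
      intro k hk
      rw [if_neg, if_pos hk]
      rintro rfl
      exact hx hk
    rw [tr_lv hd (r' := r') h2, tr_lv hd' (r' := r') h2] at h1
    simpa using h1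

theorem trT {T : Submodule ℤ P} (hT : C.Dst T) {V : Fin 3 → AddSubgroup U} (hV : C.Vals V) {a : Q}
    (σ : ι → ℕ) (x y : ι) (hxy : x ≠ y) (R₀ : Finset ι) (hx : x ∉ R₀) (hy : y ∉ R₀)
    (h0 : ∀ k ∈ R₀, ¬ C.Tw a (σ k)) (d d' : List ι →₀ ℤ) (hd : ∀ v ∈ d.support, ∀ k ∈ v, k ∈ R₀)
    (hd' : ∀ v ∈ d'.support, ∀ k ∈ v, k ∈ R₀)
    (h : ∀ r, C.LHom a σ r → In3 V (lv r d * (r x * r y)) (lv r d' * (r x * r y))) :
    ∀ r, C.LHom a σ r → lv r d * (r x * r y) = 0 := by
  have key := C.toBase.ktW (trLs C a) (trLs_mul C) (trLs_le C a) hT hV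
    {z | ∃ m m', C.H a a (σ x) m ∧ C.H a a (σ y) m' ∧ z = m * m'}
    (fun r z hr ⟨m, m', hm, hm', hz⟩ => ⟨r * m, m', tr_left C hr hm, hm', by rw [hz, mul_assoc]⟩) d d'
    (Or.inl fun z ⟨m, m', hm, hm', hz⟩ => by
      rw [hz]
      exact C.J_le (C.J_left _ _ hm'.1.1)) ?_
  · intro r hr
    have h1 := key (fun k => if k ∈ R₀ then r k else 0) (tr_res C h0 hr) (r x * r y)
      ⟨r x, r y, hr x, hr y, rfl⟩
    rwa [tr_lv hd (r' := r) fun k hk => if_pos hk] at h1
  · rintro r' hr' z ⟨m, m', hm, hm', rfl⟩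
    have hr : C.LHom a σ fun k => if k = x then m else if k = y then m' else
        if k ∈ R₀ then r' k else 0 := by
      intro k
      show C.H a a (σ k) (if k = x then m else if k = y then m' else if k ∈ R₀ then r' k else 0)
      split_ifs with h1 h2 h3
      · rw [h1]
        exact hm
      · rw [h2]
        exact hm'
      · exact tr_untw C (h0 k h3) (hr' k)
      · exact H_zero C _
    have h1 := h _ hr
    have h2 : ∀ k ∈ R₀, (if k = x then m else if k = y then m' else
        if k ∈ R₀ then r' k else 0) = r' k := by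
      intro k hk
      have h3 : k ≠ x := by
        rintro rfl
        exact hx hk
      have h4 : k ≠ y := by
        rintro rfl
        exact hy hk
      rw [if_neg h3, if_neg h4, if_pos hk]
    rw [tr_lv hd (r' := r') h2, tr_lv hd' (r' := r') h2] at h1
    simpa [hxy.symm] using h1

end Ctx

end ADM
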