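import Pool.Agent.ADM.RewR
import Pool.Agent.ADM.RpxR
import Pool.Agent.ADM.Tr
import Pool.Agent.ADM.Two

/-!
# ADM-TyLR

Type R: combinations of words of loops, at least one of them twisted (mirror image of TyLL).

PLAN.  `x ∈ R` twisted.  Note that `wt p σ v k` for a word `v` is computed letter by letter (`wt` in Defs); modulo `n a` an untwisted letter does not
change the following weights (`p ^ σ k ≡ 1`).
Case A: there is a twisted `y ∈ R`, `y ≠ x`.  Every word `v` with letter set `R` has `ntw ≥ 2`; if `v.length ≥ 3` its value vanishes (vanR2).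
  The only words of length 2 are `[x,y]` and `[y,x]`, which are not in the same class (weights of `x`: `1` and `p ^ σ y ≢ 1`, `pow_modEq_one_iff`).  Use
  `one` with the one which is in the class of `v₀` (or `[x,y]` if none is).
Case B: `R = {x} ∪ R₀`, `R₀` untwisted letters (`R₀ = R.erase x`).
 B1: `R₀ = ∅`: words `x^m`; `m ≥ 3` vanish by vanR2, `m = 0` has not the letter set `R`; `[x]` (weight 1) and `[x,x]` (weight `1 + p ^ σ x`) are not in the
  same class (`pow_not_zero`): `one`.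
 B2: `R₀ ≠ ∅`.  Claim: if NOT (`R₀ = {ρ}` and `[ρ,x]` in the class of `v₀` and the second alternative of `rpxR` holds), then for every word `v` with
  letter set `R` in the class of `v₀` there is `d_v`, a combination of words with letters in `R₀`, with `wv r a v = r x * lv r d_v` for all `LHom` `r`.
  Proof: `v` has length `≥ 2`.  If `v.length ≥ 3`: `rewR` gives a combination of words `x :: u` (`NfR`, the twisted letter is `x`,
  the letters of `u` are untwisted letters of `v`, so in `R₀`); drop the first letter.  If `v.length = 2`: `v = [x,ρ]`: `d = single [ρ] 1`;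
  `v = [ρ,x]`, `R₀ = {ρ}`: first alternative of `rpxR` (`σ ρ` is divisible by `r a`: `H_modEq` to twist 0): `d = ∑ e_i single (replicate i ρ)`.
  Then `d = ∑ c v • d_v`, `d' = ∑ c' v • d_v`, `val r a c = r x * lv r d`, and `trR` gives the result.
  Remaining case: `R = {x,ρ}`, `[ρ,x]` in the class of `v₀`, `x ρ^p = 0` for all values.  Then all other words in the class vanish, and `one` with
  `v₁ = [ρ,x]` applies: `[x,ρ]` is not in the class (weight of `ρ`: `p ^ σ x` against `1`); if `v.length ≥ 3`, `rewR` gives a combination of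
  words `x ρ^i` with `p ^ σ x * i ≡ 1` modulo `n a` (weight of `ρ`) and `i ≥ 1`; with `s = (r - σ x % r) ∈ [1, r-1]`, multiply by `p ^ s`
  (`p ^ (σ x + s) ≡ 1`): `i ≡ p ^ s < n a`, so `i ≥ p ^ s ≥ p` and `x ρ^i = x ρ^p ρ^(i-p) = 0`.
-/

namespace ADM

open AD ADN ADN.Ctx

namespace Ctx

variable {U : Type} [Ring U] {Q : Type} [Fintype Q] (C : Ctx U Q)
section

variable {ι : Type}

private theorem tylr_lc (r : ι → U) (c : List ι →₀ ℤ) :
    lv r c = Finsupp.linearCombination ℤ (fun v : List ι => (v.map r).prod) c := by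
  rw [Finsupp.linearCombination_apply]
  rfl

private theorem tylr_map {α : Type} (r : ι → U) (f : α → List ι) (c : α →₀ ℤ) :
    lv r (c.mapDomain f) = c.sum fun v n => n • ((f v).map r).prod := by
  unfold lv
  exact Finsupp.sum_mapDomain_index (fun _ => zero_smul _ _) (fun _ _ _ => add_smul _ _ _)

private theorem tylr_sum (r : ι → U) (c : List ι →₀ ℤ) (D : List ι → (List ι →₀ ℤ)) :
    lv r (c.sum fun v n => n • D v) = c.sum fun v n => n • lv r (D v) := by
  rw [tylr_lc, map_finsuppSum]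
  refine Finsupp.sum_congr fun v _ => ?_
  rw [map_smul, tylr_lc]

private theorem tylr_mul_sum {α : Type} (y : U) (c : α →₀ ℤ) (f : α → U) :
    y * (c.sum fun v n => n • f v) = c.sum fun v n => n • (y * f v) := by
  rw [Finsupp.mul_sum]
  exact Finsupp.sum_congr fun v _ => mul_smul_comm _ _ _

private theorem tylr_tw {a : Q} {σ : ι → ℕ} {k : ι} (h : ¬ C.Tw a (σ k)) : C.r a ∣ σ k := not_not.1 h

variable [DecidableEq ι]

private theorem tylr_cons (p : ℕ) (σ : ι → ℕ) (l : ι) (v : List ι) (k : ι) :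
    wt p σ (l :: v) k = (if l = k then 1 else 0) + p ^ σ l * wt p σ v k := rfl

private theorem tylr_nil (p : ℕ) (σ : ι → ℕ) (k : ι) : wt p σ [] k = 0 := rfl

/-- weight of a power of an untwisted letter -/
private theorem tylr_rep {a : Q} (ha : 2 ≤ C.r a) {σ : ι → ℕ} {ρ : ι} (hρ : C.r a ∣ σ ρ) (i : ℕ) :
    wt C.p σ (List.replicate i ρ) ρ ≡ i [MOD C.n a] := by
  induction i with
  | zero => exact Nat.ModEq.refl _
  | succ i ih =>
    rw [List.replicate_succ, tylr_cons, if_pos rfl]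
    have h1 : C.p ^ σ ρ ≡ 1 [MOD C.n a] := by
      rw [n_eq C ha]
      exact (pow_modEq_one_iff C.hp ha _).2 hρ
    have h2 := (h1.mul ih).add_left 1
    rw [one_mul, add_comm 1 i] at h2
    exact h2

private theorem tylr_wv0 (r : ι → U) (a : Q) (v : List ι) (h : (v.map r).prod = 0) : C.wv r a v = 0 := by
  unfold Base.wv
  rw [h, mul_zero]

private theorem tylr_ntw2 {a : Q} {σ : ι → ℕ} {v : List ι} {x y : ι} (hx : x ∈ v) (hy : y ∈ v) (hxy : y ≠ x)
    (tx : C.Tw a (σ x)) (ty : C.Tw a (σ y)) : 2 ≤ C.ntw a σ v := by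
  classical
  unfold ntw
  have h1 : ({x, y} : Finset ι) ⊆ (v.filter fun k => decide (C.Tw a (σ k))).toFinset := by
    intro z hz
    rw [Finset.mem_insert, Finset.mem_singleton] at hz
    rw [List.mem_toFinset, List.mem_filter]
    rcases hz with rfl | rfl
    · exact ⟨hx, by simpa using tx⟩
    · exact ⟨hy, by simpa using ty⟩
  have h2 := Finset.card_le_card h1
  rw [Finset.card_pair hxy.symm] at h2
  exact h2.trans (List.toFinset_card_le _)

private theorem tylr_mem {R : Finset ι} {v : List ι} (h : v.toFinset = R) {k : ι} : k ∈ v ↔ k ∈ R := by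
  rw [← h, List.mem_toFinset]

/-- words of length at most 2 with two given letters -/
private theorem tylr_two {v : List ι} {x y : ι} (hx : x ∈ v) (hy : y ∈ v) (hxy : y ≠ x) (hv : ¬ 3 ≤ v.length) :
    v = [x, y] ∨ v = [y, x] := by
  match v, hx, hy, hv with
  | [], hx, _, _ => exact absurd hx List.not_mem_nil
  | [s], hx, hy, _ =>
    rw [List.mem_singleton] at hx hy
    exact absurd (hy.trans hx.symm) hxy
  | [s, t], hx, hy, _ =>
    rw [List.mem_cons, List.mem_singleton] at hx hy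
    rcases hx with rfl | rfl
    · rcases hy with rfl | rfl
      · exact absurd rfl hxy
      · exact Or.inl rfl
    · rcases hy with rfl | rfl
      · exact Or.inr rfl
      · exact absurd rfl hxy
  | s :: t :: u :: w, _, _, hv => exact absurd (by simp) hv

/-- case A: two twisted letters -/
private theorem tylr_A (hC : C.Cub) (hR : TyR C.Rl C.p)
    {V : Fin 3 → AddSubgroup U} (hV : C.Vals V) {a : Q} (ha : 2 ≤ C.r a) (σ : ι → ℕ) (R : Finset ι)
    (v₀ : List ι) (c c' : List ι →₀ ℤ) (h : C.Pr V a σ R v₀ c c') (x y : ι) (hx : x ∈ R) (hy : y ∈ R)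
    (hxy : y ≠ x) (tx : C.Tw a (σ x)) (ty : C.Tw a (σ y)) :
    ∀ r, C.LHom a σ r → C.val r a c = 0 := by
  classical
  refine one C hV (ne_o C ha) h (if C.Ew a σ v₀ [x, y] then [x, y] else [y, x]) ?_
  intro v hvR hvE hne r hr
  have hxv : x ∈ v := (tylr_mem hvR).2 hx
  have hyv : y ∈ v := (tylr_mem hvR).2 hy
  by_cases h3 : 3 ≤ v.length
  · exact tylr_wv0 C r a v (vanR2 C hC hR ha σ v h3 (tylr_ntw2 C hxv hyv hxy tx ty) r hr)
  · exfalso
    split_ifs at hne with hE
    · rcases tylr_two hxv hyv hxy h3 with rfl | rfl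
      · exact hne rfl
      · have h1 := (hE.1 x).symm.trans (hvE.1 x)
        rw [tylr_cons, tylr_cons, tylr_nil, tylr_cons, tylr_cons, tylr_nil, if_pos rfl, if_neg hxy] at h1
        simp only [mul_zero, add_zero, zero_add, mul_one] at h1
        rw [n_eq C ha] at h1
        exact ty ((pow_modEq_one_iff C.hp ha _).1 h1.symm)
    · rcases tylr_two hxv hyv hxy h3 with rfl | rfl
      · exact hE hvE
      · exact hne rfl

/-- case B1: one letter -/
private theorem tylr_B1 (hC : C.Cub) (hR : TyR C.Rl C.p)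
    {V : Fin 3 → AddSubgroup U} (hV : C.Vals V) {a : Q} (ha : 2 ≤ C.r a) (σ : ι → ℕ)
    (v₀ : List ι) (c c' : List ι →₀ ℤ) (x : ι) (h : C.Pr V a σ {x} v₀ c c')
    (tx : C.Tw a (σ x)) :
    ∀ r, C.LHom a σ r → C.val r a c = 0 := by
  classical
  refine one C hV (ne_o C ha) h (if C.Ew a σ v₀ [x] then [x] else [x, x]) ?_
  intro v hvR hvE hne r hr
  have hall : ∀ k ∈ v, k = x := fun k hk => by
    have := (tylr_mem hvR).1 hk
    rwa [Finset.mem_singleton] at this
  have hxv : x ∈ v := (tylr_mem hvR).2 (Finset.mem_singleton_self x)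
  have hrep : v = List.replicate v.length x := List.eq_replicate_of_mem hall
  by_cases h3 : 3 ≤ v.length
  · refine tylr_wv0 C r a v (vanR2 C hC hR ha σ v h3 ?_ r hr)
    unfold ntw
    rw [List.filter_eq_self.2]
    · omega
    · intro k hk
      rw [hall k hk]
      simpa using tx
  · exfalso
    have hpos : 0 < v.length := List.length_pos_of_mem hxv
    generalize hm : v.length = m at *
    have hm12 : m = 1 ∨ m = 2 := by omega
    split_ifs at hne with hE
    · rcases hm12 with rfl | rfl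
      · exact hne (by rw [hrep]; rfl)
      · have hv2 : v = [x, x] := by rw [hrep]; rfl
        rw [hv2] at hvE
        have h1 := (hE.1 x).symm.trans (hvE.1 x)
        rw [tylr_cons, tylr_nil, tylr_cons, tylr_cons, tylr_nil, if_pos rfl] at h1
        simp only [mul_zero, add_zero, mul_one] at h1
        rw [n_eq C ha] at h1
        have h2 : C.p ^ σ x ≡ 0 [MOD (C.p ^ C.r a - 1)] :=
          Nat.ModEq.add_left_cancel' 1 (by rw [add_zero]; exact h1.symm)
        exact pow_not_zero C.hp ha _ h2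
    · rcases hm12 with rfl | rfl
      · have hv2 : v = [x] := by rw [hrep]; rfl
        rw [hv2] at hvE
        exact hE hvE
      · exact hne (by rw [hrep]; rfl)

/-- the normal forms of rewR with all untwisted letters in `R₀` -/
private theorem tylr_nf {a : Q} {σ : ι → ℕ} {R : Finset ι} {x : ι}
    (hB : ∀ k ∈ R, k ≠ x → ¬ C.Tw a (σ k)) (tx : C.Tw a (σ x)) {v v' : List ι} (hv : v.toFinset = R)
    (h1 : C.NfR a σ v') (h2 : C.Rw a σ v v') : ∃ u, v' = x :: u ∧ ∀ k ∈ u, k ∈ R.erase x := by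
  obtain ⟨x', u, rfl, hu, hx'⟩ := h1
  have hx'R : x' ∈ R := (tylr_mem hv).1 (h2.2.1 x' List.mem_cons_self)
  have hxx : x' = x := by
    by_contra hne
    exact hB x' hx'R hne hx'
  subst hxx
  refine ⟨u, rfl, fun k hk => ?_⟩
  rw [Finset.mem_erase]
  refine ⟨fun hkx => ?_, (tylr_mem hv).1 (h2.2.1 k (List.mem_cons_of_mem _ hk))⟩
  subst hkx
  exact hu k hk tx

/-- reduction of long words -/
private theorem tylr_long (hC : C.Cub) (hR : TyR C.Rl C.p) {a : Q} (ha : 2 ≤ C.r a) (σ : ι → ℕ) (R : Finset ι)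
    (x : ι) (hx : x ∈ R) (tx : C.Tw a (σ x)) (hB : ∀ k ∈ R, k ≠ x → ¬ C.Tw a (σ k)) (v : List ι)
    (hv : v.toFinset = R) (h3 : 3 ≤ v.length) :
    ∃ c : List ι →₀ ℤ, (∀ v' ∈ c.support, (∃ u, v' = x :: u ∧ ∀ k ∈ u, k ∈ R.erase x) ∧ C.Rw a σ v v') ∧
      ∀ r, C.LHom a σ r → C.wv r a v = c.sum fun v' n => n • (r x * (v'.tail.map r).prod) := by
  obtain ⟨c, hc, hval⟩ := rewR C hC hR ha σ v h3 ⟨x, (tylr_mem hv).2 hx, tx⟩
  have hc' : ∀ v' ∈ c.support, (∃ u, v' = x :: u ∧ ∀ k ∈ u, k ∈ R.erase x) ∧ C.Rw a σ v v' := fun v' hv' =>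
    ⟨tylr_nf C hB tx hv (hc v' hv').1 (hc v' hv').2, (hc v' hv').2⟩
  refine ⟨c, hc', fun r hr => ?_⟩
  have hne : v ≠ [] := by
    rintro rfl
    simp at h3
  rw [hom_wv C hr hne, hval r hr]
  unfold Base.val
  refine Finsupp.sum_congr fun v' hv' => ?_
  obtain ⟨⟨u, rfl, _⟩, _⟩ := hc' v' hv'
  rw [hom_wv C hr (List.cons_ne_nil _ _), List.map_cons, List.prod_cons, List.tail_cons]

/-- case B2, generic -/
private theorem tylr_B2 (hC : C.Cub) (hR : TyR C.Rl C.p) [Fintype ι] {T : Submodule ℤ P} (hT : C.Dst T)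
    {V : Fin 3 → AddSubgroup U} (hV : C.Vals V) {a : Q} (ha : 2 ≤ C.r a) (σ : ι → ℕ) (R : Finset ι)
    (v₀ : List ι) (c c' : List ι →₀ ℤ) (h : C.Pr V a σ R v₀ c c') (x : ι) (hx : x ∈ R)
    (tx : C.Tw a (σ x)) (hB : ∀ k ∈ R, k ≠ x → ¬ C.Tw a (σ k)) (hne : (R.erase x).Nonempty)
    (hex : ∀ ρ, R.erase x = {ρ} → C.Ew a σ v₀ [ρ, x] → ∃ e : ℕ →₀ ℤ, e 0 = 0 ∧
      ∀ ρ x', C.H a a 0 ρ → C.H a a (σ x) x' → ρ * x' = e.sum fun i z => z • (x' * ρ ^ i)) :
    ∀ r, C.LHom a σ r → C.val r a c = 0 := by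
  have key : ∀ v : List ι, ∃ d : List ι →₀ ℤ, v.toFinset = R → C.Ew a σ v₀ v →
      (∀ v' ∈ d.support, ∀ k ∈ v', k ∈ R.erase x) ∧
      ∀ r, C.LHom a σ r → C.wv r a v = r x * lv r d := by
    intro v
    by_cases hv : v.toFinset = R
    swap
    · exact ⟨0, fun h => absurd h hv⟩
    by_cases hE : C.Ew a σ v₀ v
    swap
    · exact ⟨0, fun _ h => absurd h hE⟩
    by_cases h3 : 3 ≤ v.length
    · obtain ⟨c1, hc1, hval⟩ := tylr_long C hC hR ha σ R x hx tx hB v hv h3
      refine ⟨c1.mapDomain List.tail, fun _ _ => ⟨?_, fun r hr => ?_⟩⟩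
      · intro v' hv' k hk
        have h4 := Finsupp.mapDomain_support hv'
        rw [Finset.mem_image] at h4
        obtain ⟨v'', hv'', rfl⟩ := h4
        obtain ⟨⟨u, rfl, hu⟩, _⟩ := hc1 v'' hv''
        exact hu k hk
      · rw [hval r hr, tylr_map, tylr_mul_sum]
    · obtain ⟨ρ, hρ⟩ := hne
      have hρ' := Finset.mem_erase.1 hρ
      have hxv : x ∈ v := (tylr_mem hv).2 hx
      have hρv : ρ ∈ v := (tylr_mem hv).2 hρ'.2
      rcases tylr_two hxv hρv hρ'.1 h3 with rfl | rfl
      · refine ⟨Finsupp.single [ρ] 1, fun _ _ => ⟨?_, fun r hr => ?_⟩⟩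
        · intro v' hv' k hk
          have h4 := Finsupp.support_single_subset hv'
          rw [Finset.mem_singleton] at h4
          subst h4
          rw [List.mem_singleton] at hk
          rw [hk]
          exact hρ
        · rw [hom_wv C hr (List.cons_ne_nil _ _)]
          have e1 := Finsupp.sum_single_index (a := [ρ]) (b := (1:ℤ))
            (h := fun v n => n • (v.map r).prod) (zero_smul _ _)
          unfold lv
          rw [e1, one_smul]
          simp
      · have hR0 : R.erase x = {ρ} := by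
          rw [← hv]
          ext k
          simp only [List.toFinset_cons, List.toFinset_nil, Finset.mem_erase, Finset.mem_insert,
            Finset.notMem_empty, or_false, Finset.mem_singleton]
          constructor
          · rintro ⟨h1, h2 | h2⟩
            · exact h2
            · exact absurd h2 h1
          · rintro rfl
            exact ⟨hρ'.1, Or.inl rfl⟩
        obtain ⟨e, _, he⟩ := hex ρ hR0 hE
        refine ⟨e.mapDomain fun i => List.replicate i ρ, fun _ _ => ⟨?_, fun r hr => ?_⟩⟩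
        · intro v' hv' k hk
          have h4 := Finsupp.mapDomain_support hv'
          rw [Finset.mem_image] at h4
          obtain ⟨i, _, rfl⟩ := h4
          rw [List.eq_of_mem_replicate hk]
          exact hρ
        · rw [hom_wv C hr (List.cons_ne_nil _ _), tylr_map, tylr_mul_sum]
          have h5 : C.H a a 0 (r ρ) :=
            H_modEq C ((Nat.modEq_zero_iff_dvd).2 (tylr_tw C (hB ρ hρ'.2 hρ'.1))) (hr ρ)
          have h6 := he (r ρ) (r x) h5 (hr x)
          simp only [List.map_cons, List.map_nil, List.prod_cons, List.prod_nil, mul_one]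
          rw [h6]
          refine Finsupp.sum_congr fun i _ => ?_
          rw [List.map_replicate, List.prod_replicate]
  choose D hD using key
  have hval : ∀ b : List ι →₀ ℤ, (∀ v ∈ b.support, v.toFinset = R ∧ C.Ew a σ v₀ v) →
      ∀ r, C.LHom a σ r → C.val r a b = r x * lv r (b.sum fun v n => n • D v) := by
    intro b hb r hr
    rw [tylr_sum, tylr_mul_sum]
    unfold Base.val
    refine Finsupp.sum_congr fun v hv => ?_
    rw [((hD v) (hb v hv).1 (hb v hv).2).2 r hr]
  have hsupp : ∀ b : List ι →₀ ℤ, (∀ v ∈ b.support, v.toFinset = R ∧ C.Ew a σ v₀ v) →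
      ∀ v' ∈ (b.sum fun v n => n • D v).support, ∀ k ∈ v', k ∈ R.erase x := by
    intro b hb v' hv'
    have h4 := Finsupp.support_sum hv'
    rw [Finset.mem_biUnion] at h4
    obtain ⟨v, hv, hv2⟩ := h4
    exact ((hD v) (hb v hv).1 (hb v hv).2).1 v' (Finsupp.support_smul hv2)
  intro r hr
  rw [hval c h.supp r hr]
  refine trR C hT hV σ x (R.erase x) (Finset.notMem_erase x R)
    (fun k hk => hB k (Finset.mem_of_mem_erase hk) (Finset.ne_of_mem_erase hk)) _ _
    (hsupp c h.supp) (hsupp c' h.supp') (fun r hr => ?_) r hr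
  rw [← hval c h.supp r hr, ← hval c' h.supp' r hr]
  exact h.in3 r hr

/-- case B2, exceptional -/
private theorem tylr_B3 (hC : C.Cub) (hR : TyR C.Rl C.p)
    {V : Fin 3 → AddSubgroup U} (hV : C.Vals V) {a : Q} (ha : 2 ≤ C.r a) (σ : ι → ℕ) (R : Finset ι)
    (v₀ : List ι) (c c' : List ι →₀ ℤ) (h : C.Pr V a σ R v₀ c c') (x : ι) (hx : x ∈ R)
    (tx : C.Tw a (σ x)) (hB : ∀ k ∈ R, k ≠ x → ¬ C.Tw a (σ k)) (ρ : ι) (hR0 : R.erase x = {ρ})
    (hE0 : C.Ew a σ v₀ [ρ, x])
    (hz : ∀ ρ x', C.H a a 0 ρ → C.H a a (σ x) x' → x' * ρ ^ C.p = 0) :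
    ∀ r, C.LHom a σ r → C.val r a c = 0 := by
  have hρ : ρ ∈ R.erase x := by rw [hR0]; exact Finset.mem_singleton_self ρ
  have hρ' := Finset.mem_erase.1 hρ
  have hdρ : C.r a ∣ σ ρ := tylr_tw C (hB ρ hρ'.2 hρ'.1)
  refine one C hV (ne_o C ha) h [ρ, x] ?_
  intro v hvR hvE hne r hr
  have hxv : x ∈ v := (tylr_mem hvR).2 hx
  have hρv : ρ ∈ v := (tylr_mem hvR).2 hρ'.2
  have hw0 : wt C.p σ [ρ, x] ρ = 1 := by
    rw [tylr_cons, tylr_cons, tylr_nil, if_pos rfl, if_neg hρ'.1.symm]
    simp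
  by_cases h3 : 3 ≤ v.length
  · obtain ⟨c1, hc1, hval⟩ := tylr_long C hC hR ha σ R x hx tx hB v hvR h3
    rw [hval r hr]
    refine Finset.sum_eq_zero fun v' hv' => ?_
    obtain ⟨⟨u, rfl, hu⟩, hRw⟩ := hc1 v' hv'
    have hurep : u = List.replicate u.length ρ := List.eq_replicate_of_mem fun k hk => by
      have := hu k hk
      rwa [hR0, Finset.mem_singleton] at this
    set i := u.length with hi
    have h4 : C.p ^ σ x * i ≡ 1 [MOD C.n a] := by
      have e1 : wt C.p σ (x :: u) ρ ≡ C.p ^ σ x * i [MOD C.n a] := by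
        rw [tylr_cons, if_neg hρ'.1.symm, zero_add, hurep]
        exact (tylr_rep C ha hdρ i).mul_left _
      have e2 := (hRw.2.2.1 ρ)
      have e3 := (hvE.1 ρ)
      have e4 := (hE0.1 ρ)
      rw [hw0] at e4
      exact e1.symm.trans (e2.symm.trans (e3.symm.trans e4))
    have hr0 : 0 < C.r a := by omega
    have hmod : σ x % C.r a ≠ 0 := fun h0 => tx (Nat.dvd_of_mod_eq_zero h0)
    have hlt := Nat.mod_lt (σ x) hr0
    set s := C.r a - σ x % C.r a with hs
    have hs1 : 1 ≤ s := by omega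
    have hs2 : s ≤ C.r a - 1 := by omega
    have h5 : C.p ^ (σ x + s) ≡ 1 [MOD C.n a] := by
      rw [n_eq C ha]
      refine (pow_modEq_one_iff C.hp ha _).2 ?_
      have h6 := Nat.div_add_mod (σ x) (C.r a)
      have h7 : σ x + s = C.r a * (σ x / C.r a + 1) := by
        rw [mul_add, mul_one]
        omega
      rw [h7]
      exact dvd_mul_right _ _
    have h6 : i ≡ C.p ^ s [MOD C.n a] := by
      have e1 := h4.mul_left (C.p ^ s)
      rw [mul_one, ← mul_assoc, ← pow_add, add_comm s] at e1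
      have e2 := h5.mul_right i
      rw [one_mul] at e2
      exact e2.symm.trans e1
    have hp2 := C.hp.two_le
    have h7 : C.p ≤ C.p ^ s := by
      calc C.p = C.p ^ 1 := (pow_one _).symm
        _ ≤ C.p ^ s := Nat.pow_le_pow_right C.hp.pos hs1
    have h8 : C.p ^ s < C.n a := by
      rw [n_eq C ha]
      have e1 : C.p ^ s ≤ C.p ^ (C.r a - 1) := Nat.pow_le_pow_right C.hp.pos hs2
      have e2 : C.p ^ (C.r a - 1) * C.p = C.p ^ C.r a := by
        rw [← pow_succ]
        congr 1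
        omega
      have e3 : 2 ≤ C.p ^ (C.r a - 1) := by
        calc 2 ≤ C.p := hp2
          _ = C.p ^ 1 := (pow_one _).symm
          _ ≤ C.p ^ (C.r a - 1) := Nat.pow_le_pow_right C.hp.pos (by omega)
      have e4 : C.p ^ (C.r a - 1) * 2 ≤ C.p ^ (C.r a - 1) * C.p := Nat.mul_le_mul_left _ hp2
      omega
    have h9 : C.p ≤ i := by
      by_contra hlt2
      have h10 : i < C.n a := by omega
      have h11 := h6.eq_of_lt_of_lt h10 h8
      omega
    have h12 : C.H a a 0 (r ρ) := H_modEq C ((Nat.modEq_zero_iff_dvd).2 hdρ) (hr ρ)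
    have h13 := hz (r ρ) (r x) h12 (hr x)
    have h14 : i = C.p + (i - C.p) := by omega
    show c1 (x :: u) • (r x * (List.map r (List.tail (x :: u))).prod) = 0
    rw [List.tail_cons, hurep, List.map_replicate, List.prod_replicate, h14, pow_add, ← mul_assoc, h13,
      zero_mul, smul_zero]
  · exfalso
    rcases tylr_two hxv hρv hρ'.1 h3 with rfl | rfl
    · have h1 := (hE0.1 ρ).symm.trans (hvE.1 ρ)
      rw [hw0, tylr_cons, tylr_cons, tylr_nil, if_pos rfl, if_neg hρ'.1.symm] at h1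
      simp only [mul_zero, add_zero, zero_add, mul_one] at h1
      rw [n_eq C ha] at h1
      exact tx ((pow_modEq_one_iff C.hp ha _).1 h1.symm)
    · exact hne rfl

end

variable {ι : Type} [Fintype ι] [DecidableEq ι]

theorem tyLR (hC : C.Cub) (hR : TyR C.Rl C.p) (hOp : C.OpR) {T : Submodule ℤ P} (hT : C.Dst T)
    {V : Fin 3 → AddSubgroup U} (hV : C.Vals V) {a : Q} (ha : 2 ≤ C.r a) (σ : ι → ℕ) (R : Finset ι)
    (htw : ∃ k ∈ R, C.Tw a (σ k)) (v₀ : List ι) (c c' : List ι →₀ ℤ) (h : C.Pr V a σ R v₀ c c') :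
    ∀ r, C.LHom a σ r → C.val r a c = 0 := by
  obtain ⟨x, hx, tx⟩ := htw
  by_cases hA : ∃ y ∈ R, y ≠ x ∧ C.Tw a (σ y)
  · obtain ⟨y, hy, hxy, ty⟩ := hA
    exact tylr_A C hC hR hV ha σ R v₀ c c' h x y hx hy hxy tx ty
  · have hB : ∀ k ∈ R, k ≠ x → ¬ C.Tw a (σ k) := fun k hk hkx ht => hA ⟨k, hk, hkx, ht⟩
    rcases Finset.eq_empty_or_nonempty (R.erase x) with hem | hne
    · have hRx : R = {x} := by
        rw [← Finset.insert_erase hx, hem]
        rfl
      rw [hRx] at h
      exact tylr_B1 C hC hR hV ha σ v₀ c c' x h tx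
    · by_cases hexc : ∃ ρ, R.erase x = {ρ} ∧ C.Ew a σ v₀ [ρ, x] ∧
          ∀ ρ x', C.H a a 0 ρ → C.H a a (σ x) x' → x' * ρ ^ C.p = 0
      · obtain ⟨ρ, hR0, hE0, hz⟩ := hexc
        exact tylr_B3 C hC hR hV ha σ R v₀ c c' h x hx tx hB ρ hR0 hE0 hz
      · refine tylr_B2 C hC hR hT hV ha σ R v₀ c c' h x hx tx hB hne fun ρ hR0 hE0 => ?_
        rcases rpxR C hC hR hOp ha (σ x) tx with h1 | h1
        · exact h1
        · exact absurd ⟨ρ, hR0, hE0, h1⟩ hexc

end Ctx

end ADM
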