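import Pool.Agent.ADM.KtW
import Pool.Agent.ADM.Dft
import Pool.Agent.ADM.Arith

/-!
# ADM-TrS

Transfer for untwisted loops times the square of a twisted loop: polarisation of the square, discrete Fourier transform over the
powers of `w a` (the two terms have the exponents `1` and `p ^ s`), and `ktW` for the untwisted loops.
-/

namespace ADM

open AD ADN ADN.Ctx

namespace Ctx

variable {U : Type} [Ring U] {Q : Type} [Fintype Q] (C : Ctx U Q)
variable {ι : Type} [Fintype ι] [DecidableEq ι]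

private theorem trS_key {a : Q} (ha : 2 ≤ C.r a) {s : ℕ} (hs : C.Tw a s) (X : AddSubgroup U)
    (hX : ∀ u x, x ∈ X → u * x ∈ X) (D : U) (hD : ∀ θ : ℕ, D * C.w a ^ θ = C.w a ^ θ * D)
    (hF : ∀ y, C.H a a s y → D * (y * y) ∈ X) {m m' : U} (hm : C.H a a s m) (hm' : C.H a a s m') :
    D * (m * m') ∈ X := by
  have hpol : ∀ y y', C.H a a s y → C.H a a s y' → D * (y * y') + D * (y' * y) ∈ X := by
    intro y y' hy hy'
    have h1 := X.sub_mem (X.sub_mem (hF _ (H_add C hy hy')) (hF _ hy)) (hF _ hy')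
    have h2 : D * ((y + y') * (y + y')) - D * (y * y) - D * (y' * y') =
        D * (y * y') + D * (y' * y) := by noncomm_ring
    rwa [h2] at h1
  have hDe : C.e a * D = D * C.e a := by
    have h := hD (C.n a)
    rw [show C.w a ^ C.n a = C.e a from C.w_pow a] at h
    exact h.symm
  have hy : ∀ y y', C.H a a s y → C.H a a s y' →
      D * (y * y') ∈ C.A ∧ C.e a * (D * (y * y')) = D * (y * y') := by
    intro y y' hy hy'
    refine ⟨C.J_le (C.J_left _ _ (C.J_left _ _ hy'.1.1)), ?_⟩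
    rw [← mul_assoc, hDe, mul_assoc, ← mul_assoc (C.e a), hy.1.2.1]
  have key := C.dftL a (Finset.univ : Finset Bool) (fun t => if t then 1 else C.p ^ s)
    (fun t => if t then D * (m * m') else D * (m' * m)) (fun t _ => by
      cases t
      · simpa using hy _ _ hm' hm
      · simpa using hy _ _ hm hm') X hX (fun θ => by
      rw [Fintype.sum_bool]
      simp only [if_true, Bool.false_eq_true, if_false, mul_one]
      have h1 := hpol _ _ (H_wl C hm θ) hm'
      have h2 : D * (C.w a ^ θ * m * m') = C.w a ^ θ * (D * (m * m')) := by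
        rw [mul_assoc (C.w a ^ θ), ← mul_assoc D, hD, mul_assoc]
      have h3 : D * (m' * (C.w a ^ θ * m)) = C.w a ^ (θ * C.p ^ s) * (D * (m' * m)) := by
        rw [← mul_assoc m', H_pow C hm', mul_assoc (C.w a ^ _), ← mul_assoc D, hD, mul_assoc,
          Nat.mul_comm (C.p ^ s)]
      rwa [h2, h3] at h1) 1
  have hn : ¬ C.p ^ s ≡ 1 [MOD C.n a] := by
    rw [n_eq C ha, pow_modEq_one_iff C.hp ha]
    exact hs
  rw [Finset.sum_filter, Fintype.sum_bool] at key
  simp only [if_true, Bool.false_eq_true, if_false] at key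
  rw [if_pos (Nat.ModEq.refl 1), if_neg hn, add_zero] at key
  exact key

private theorem trS_lv_congr {r r' : ι → U} {R₀ : Finset ι} {d : List ι →₀ ℤ}
    (hd : ∀ v ∈ d.support, ∀ k ∈ v, k ∈ R₀) (h : ∀ k ∈ R₀, r k = r' k) : lv r d = lv r' d := by
  unfold lv
  refine Finsupp.sum_congr fun v hv => ?_
  rw [List.map_congr_left fun k hk => h k (hd v hv k hk)]

private theorem trS_lv_comm {a : Q} {ρ : ι → U} (hρ : ∀ k, C.H a a 0 (ρ k)) (d : List ι →₀ ℤ) (θ : ℕ) :
    lv ρ d * C.w a ^ θ = C.w a ^ θ * lv ρ d := by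
  unfold lv Finsupp.sum
  rw [Finset.sum_mul, Finset.mul_sum]
  refine Finset.sum_congr rfl fun v _ => ?_
  rw [smul_mul_assoc, mul_smul_comm]
  congr 1
  rcases eq_or_ne v [] with rfl | hv
  · rw [List.map_nil, List.prod_nil, one_mul, mul_one]
  · have h1 : C.H a a (tot (fun _ => 0) v) (v.map ρ).prod :=
      hom_prod C (σ := fun _ => 0) hρ hv
    have h2 : tot (fun _ : ι => 0) v = 0 := by
      unfold tot
      simp
    rw [h2] at h1
    rw [H_pow C h1, pow_zero, one_mul]

theorem trS {T : Submodule ℤ P} (hT : C.Dst T) {V : Fin 3 → AddSubgroup U} (hV : C.Vals V) {a : Q}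
    (ha : 2 ≤ C.r a) (σ : ι → ℕ) (x : ι) (hxt : C.Tw a (σ x)) (R₀ : Finset ι) (hx : x ∉ R₀)
    (h0 : ∀ k ∈ R₀, ¬ C.Tw a (σ k)) (d d' : List ι →₀ ℤ) (hd : ∀ v ∈ d.support, ∀ k ∈ v, k ∈ R₀)
    (hd' : ∀ v ∈ d'.support, ∀ k ∈ v, k ∈ R₀)
    (h : ∀ r, C.LHom a σ r → In3 V (lv r d * (r x * r x)) (lv r d' * (r x * r x))) :
    ∀ r, C.LHom a σ r → lv r d * (r x * r x) = 0 := by
  have h0' : ∀ k ∈ R₀, σ k ≡ 0 [MOD C.r a] := fun k hk =>
    Nat.modEq_zero_iff_dvd.2 (not_not.1 (h0 k hk))
  let L : AddSubgroup U :=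
    { carrier := {z | C.H a a 0 z}
      add_mem' := fun {_ _} hy hz => H_add C hy hz
      zero_mem' := H_zero C 0
      neg_mem' := fun {_} hy => H_neg C hy }
  let M : Set U := {z | ∃ m m', C.H a a (σ x) m ∧ C.H a a (σ x) m' ∧ z = m * m'}
  have hF : ∀ ρ : ι → U, (∀ k, C.H a a 0 (ρ k)) → ∀ y, C.H a a (σ x) y →
      In3 V (lv ρ d * (y * y)) (lv ρ d' * (y * y)) := by
    intro ρ hρ y hy
    have h1 := h (fun k => if k ∈ R₀ then ρ k else if k = x then y else 0) (fun k => by
      show C.H a a (σ k) (if k ∈ R₀ then ρ k else if k = x then y else 0)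
      by_cases hk : k ∈ R₀
      · rw [if_pos hk]
        exact H_modEq C (h0' k hk).symm (hρ k)
      · rw [if_neg hk]
        by_cases hkx : k = x
        · rw [if_pos hkx, hkx]
          exact hy
        · rw [if_neg hkx]
          exact H_zero C _)
    have h2 : lv (fun k => if k ∈ R₀ then ρ k else if k = x then y else 0) d = lv ρ d :=
      trS_lv_congr hd fun k hk => if_pos hk
    have h3 : lv (fun k => if k ∈ R₀ then ρ k else if k = x then y else 0) d' = lv ρ d' :=
      trS_lv_congr hd' fun k hk => if_pos hk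
    rw [h2, h3] at h1
    simp only [if_neg hx, if_true] at h1
    exact h1
  have main := C.ktW (ι := ι) L (fun y z hy hz => by
      have := H_mul C (show C.H a a 0 y from hy) (show C.H a a 0 z from hz)
      exact this) (fun y hy => (show C.H a a 0 y from hy).1.1) hT hV M (fun y m hy hm => by
      obtain ⟨m₁, m₂, h1, h2, rfl⟩ := hm
      have h3 := H_mul C (show C.H a a 0 y from hy) h1
      rw [Nat.zero_add] at h3
      exact ⟨y * m₁, m₂, h3, h2, (mul_assoc _ _ _).symm⟩) d d' (Or.inl fun m hm => by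
      obtain ⟨m₁, m₂, _, h2, rfl⟩ := hm
      exact C.J_le (C.J_left _ _ h2.1.1)) (fun ρ hρ m hm => by
      obtain ⟨m₁, m₂, h1, h2, rfl⟩ := hm
      have hρ' : ∀ k, C.H a a 0 (ρ k) := hρ
      refine ⟨?_, ?_, ?_⟩
      · exact trS_key C ha hxt (V 0) (hV.left 0) _ (trS_lv_comm C hρ' d)
          (fun y hy => (hF ρ hρ' y hy).1) h1 h2
      · exact trS_key C ha hxt (V 1) (hV.left 1) _ (trS_lv_comm C hρ' d')
          (fun y hy => (hF ρ hρ' y hy).2.1) h1 h2
      · rw [← add_mul]
        refine trS_key C ha hxt (V 2) (hV.left 2) _ (fun θ => ?_) (fun y hy => ?_) h1 h2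
        · rw [add_mul, mul_add, trS_lv_comm C hρ', trS_lv_comm C hρ']
        · rw [add_mul]
          exact (hF ρ hρ' y hy).2.2)
  intro r hr
  have h1 := main (fun k => if k ∈ R₀ then r k else 0) (fun k => by
    show C.H a a 0 (if k ∈ R₀ then r k else 0)
    by_cases hk : k ∈ R₀
    · rw [if_pos hk]
      exact H_modEq C (h0' k hk) (hr k)
    · rw [if_neg hk]
      exact H_zero C _) (r x * r x) ⟨r x, r x, hr x, hr x, rfl⟩
  have h2 : lv (fun k => if k ∈ R₀ then r k else 0) d = lv r d :=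
    trS_lv_congr hd fun k hk => if_pos hk
  rwa [h2] at h1

end Ctx

end ADM
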