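import Pool.Agent.ADM.VanT
import Pool.Agent.ADM.Tr
import Pool.Agent.ADM.TrS
import Pool.Agent.ADM.Two

/-!
# ADM-TyLT

Type T: combinations of words of loops, at least one of them twisted.

PLAN.  `x ∈ R` twisted.  If no word with letter set `R` is in the class of `v₀`, then `c = 0` (`h.supp`).  All words in the class have
`tot ≡ tot σ v₀`.
Case 1: `r a ∤ tot σ v₀`.  Words of length `≥ 3` in the class vanish (vanT1).  Words of length `≤ 2` with a twisted letter and letter
  set `R`: `R = {x}`: `[x]`, `[x,x]`, weights `1`, `1 + p ^ σ x`, not in the same class (`pow_not_zero`).  `R = {x,k}`, `k ≠ x`: `[x,k]`, `[k,x]`: weights of `k`: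
  `p ^ σ x` and `1`, not in the same class (`pow_modEq_one_iff`).  So at most one word of length `≤ 2` is in the class: `one`.
Case 2: `r a ∣ tot σ v₀`.  A word in the class with exactly one twisted letter (`ntw = 1`) has `tot ≡ σ x ≢ 0`: impossible.  Words with `ntw ≥ 3` vanish
  (vanT2).  The others (`ntw = 2`) are, by rewT, combinations of words `u ++ [y,y']`, `u` untwisted, in the same class (`Rw` contains
  `Ew`) and with the same letters.
 2a: there is a twisted `y ∈ R`, `y ≠ x`.  If there is a third twisted letter in `R`, every word has `ntw ≥ 3`: all values are 0.  Otherwise the normal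
  forms are `u ++ [x,y]` or `u ++ [y,x]` (both letters must occur, once each), with weights of `x`: `1` resp. `p ^ σ y ≢ 1` (the untwisted prefix does not
  change the weights modulo `n a`).  So in the class of `v₀` only one of the two orders occurs, say `[x,y]`; for every word `v` in the class
  there is `d_v` (words in `R₀ = R` minus `x, y`) with `wv r a v = lv r d_v * (r x * r y)`; `trT` for `d = ∑ c v • d_v`, `d' = ∑ c' v • d_v`.
 2b: `x` is the only twisted letter of `R`: normal forms `u ++ [x,x]`, `wv r a v = lv r d_v * (r x * r x)`: `trS`.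
-/

namespace ADM

open AD ADN ADN.Ctx

namespace Ctx

variable {U : Type} [Ring U] {Q : Type} [Fintype Q] (C : Ctx U Q)
variable {ι : Type} [Fintype ι] [DecidableEq ι]

omit [Fintype ι] in
private theorem tylt_wt_notMem (p : ℕ) (σ : ι → ℕ) {u : List ι} {k : ι} (h : k ∉ u) : wt p σ u k = 0 := by
  induction u with
  | nil => rfl
  | cons l u ih =>
    have h1 : l ≠ k := fun h1 => h (by rw [h1]; exact List.mem_cons_self)
    have h2 : k ∉ u := fun h2 => h (List.mem_cons_of_mem _ h2)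
    have h3 : wt p σ (l :: u) k = (if l = k then 1 else 0) + p ^ σ l * wt p σ u k := rfl
    rw [h3, if_neg h1, ih h2, mul_zero, add_zero]

omit [Fintype ι] in
private theorem tylt_wt1 (p : ℕ) (σ : ι → ℕ) (x : ι) : wt p σ [x] x = 1 := by
  have h : wt p σ [x] x = (if x = x then 1 else 0) + p ^ σ x * 0 := rfl
  rw [h, if_pos rfl, mul_zero, add_zero]

omit [Fintype ι] in
private theorem tylt_wt2 (p : ℕ) (σ : ι → ℕ) (x : ι) : wt p σ [x, x] x = 1 + p ^ σ x := by
  have h : wt p σ [x, x] x = (if x = x then 1 else 0) + p ^ σ x * wt p σ [x] x := rfl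
  rw [h, if_pos rfl, tylt_wt1, mul_one]

omit [Fintype ι] in
private theorem tylt_wtl (p : ℕ) (σ : ι → ℕ) {x y : ι} (hxy : x ≠ y) : wt p σ [x, y] x = 1 := by
  have h : wt p σ [x, y] x = (if x = x then 1 else 0) + p ^ σ x * wt p σ [y] x := rfl
  rw [h, if_pos rfl, tylt_wt_notMem p σ (by simpa using hxy), mul_zero, add_zero]

omit [Fintype ι] in
private theorem tylt_wtr (p : ℕ) (σ : ι → ℕ) {x y : ι} (hxy : x ≠ y) : wt p σ [y, x] x = p ^ σ y := by
  have h : wt p σ [y, x] x = (if y = x then 1 else 0) + p ^ σ y * wt p σ [x] x := rfl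
  rw [h, if_neg (Ne.symm hxy), tylt_wt1, mul_one, zero_add]

omit [Fintype ι] in
private theorem tylt_swap {a : Q} (ha : 2 ≤ C.r a) {σ : ι → ℕ} {y z : ι} (hyz : y ≠ z)
    (htw : C.Tw a (σ y) ∨ C.Tw a (σ z))
    (h : ∀ k, wt C.p σ [y, z] k ≡ wt C.p σ [z, y] k [MOD C.n a]) : False := by
  rcases htw with ht | ht
  · have h1 := h z
    rw [tylt_wtr C.p σ hyz.symm, tylt_wtl C.p σ hyz.symm, n_eq C ha, pow_modEq_one_iff C.hp ha] at h1
    exact ht h1
  · have h1 := h y
    rw [tylt_wtl C.p σ hyz, tylt_wtr C.p σ hyz] at h1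
    have h2 := h1.symm
    rw [n_eq C ha, pow_modEq_one_iff C.hp ha] at h2
    exact ht h2

omit [Fintype ι] in
private theorem tylt_sq {a : Q} (ha : 2 ≤ C.r a) {σ : ι → ℕ} {x : ι}
    (h : wt C.p σ [x] x ≡ wt C.p σ [x, x] x [MOD C.n a]) : False := by
  rw [tylt_wt1, tylt_wt2] at h
  have h1 : 1 + 0 ≡ 1 + C.p ^ σ x [MOD C.n a] := by rwa [add_zero]
  have h2 := (Nat.ModEq.add_left_cancel' 1 h1).symm
  rw [n_eq C ha] at h2
  exact pow_not_zero C.hp ha _ h2

omit [Fintype ι] in
/-- a short word is determined by its letter set and its weights -/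
private theorem tylt_short {a : Q} (ha : 2 ≤ C.r a) {σ : ι → ℕ} {v v' : List ι}
    (hl : v.length ≤ 2) (hl' : v'.length ≤ 2) (hR : v.toFinset = v'.toFinset)
    (htw : ∃ k ∈ v, C.Tw a (σ k)) (h : ∀ k, wt C.p σ v k ≡ wt C.p σ v' k [MOD C.n a]) : v' = v := by
  have hm : ∀ k, k ∈ v ↔ k ∈ v' := fun k => by
    rw [← List.mem_toFinset, hR, List.mem_toFinset]
  obtain ⟨x, hx, hxt⟩ := htw
  match v, v', hl, hl', hm, hx, h with
  | [], _, _, _, _, hx, _ => exact absurd hx List.not_mem_nil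
  | _, [], _, _, hm, hx, _ => exact absurd ((hm x).1 hx) List.not_mem_nil
  | [y], [z], _, _, hm, _, _ =>
    have h1 := (hm y).1 (by simp)
    rw [List.mem_singleton] at h1
    rw [h1]
  | [y], [z, w], _, _, hm, _, h =>
    exfalso
    have h1 := (hm z).2 (by simp)
    have h2 := (hm w).2 (by simp)
    rw [List.mem_singleton] at h1 h2
    rw [h1, h2] at h
    exact tylt_sq C ha (h y)
  | [z, w], [y], _, _, hm, _, h =>
    exfalso
    have h1 := (hm z).1 (by simp)
    have h2 := (hm w).1 (by simp)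
    rw [List.mem_singleton] at h1 h2
    rw [h1, h2] at h
    exact tylt_sq C ha (h y).symm
  | [y, z], [y', z'], _, _, hm, hx, h =>
    by_cases hyz : y = z
    · subst hyz
      have h1 := (hm y').2 (by simp)
      have h2 := (hm z').2 (by simp)
      simp only [List.mem_cons, List.not_mem_nil, or_false, or_self] at h1 h2
      rw [h1, h2]
    · have h1 := (hm y).1 (by simp)
      have h2 := (hm z).1 (by simp)
      simp only [List.mem_cons, List.not_mem_nil, or_false] at h1 h2 hx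
      rcases h1 with h1 | h1
      · rcases h2 with h2 | h2
        · exact absurd (h1.trans h2.symm) hyz
        · rw [h1, h2]
      · rcases h2 with h2 | h2
        · exfalso
          rw [← h1, ← h2] at h
          refine tylt_swap C ha hyz ?_ h
          rcases hx with rfl | rfl
          · exact Or.inl hxt
          · exact Or.inr hxt
        · exact absurd (h1.trans h2.symm) hyz
  | _ :: _ :: _ :: _, _, hl, _, _, _, _ => simp at hl
  | _, _ :: _ :: _ :: _, _, hl', _, _, _ => simp at hl'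

omit [Fintype ι] in
private theorem tylt_ntw {a : Q} {σ : ι → ℕ} {v : List ι} (htw : ∃ k ∈ v, C.Tw a (σ k))
    (ht : C.r a ∣ tot σ v) : 2 ≤ C.ntw a σ v := by
  obtain ⟨u, x, u', rfl, hu, hx⟩ := ntw_first C ((ntw_pos C).2 htw)
  have h1 : 0 < C.ntw a σ u' := by
    rw [Nat.pos_iff_ne_zero]
    intro h0
    have h2 := tot_untw C ((ntw_eq_zero C).1 h0)
    have h3 := tot_untw C hu
    rw [tot_append] at ht
    have h4 : tot σ (x :: u') = σ x + tot σ u' := by simp [tot]
    rw [h4] at ht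
    exact hx ((Nat.dvd_add_left h2).1 ((Nat.dvd_add_right h3).1 ht))
  rw [ntw_append, ntw_cons_tw C _ hx]
  omega

omit [Fintype ι] [DecidableEq ι] in
private theorem tylt_lv (r : ι → U) (c : List ι →₀ ℤ) :
    lv r c = Finsupp.linearCombination ℤ (fun v : List ι => (v.map r).prod) c := rfl

omit [Fintype ι] in
/-- combination of normal forms with the same end -/
private theorem tylt_nf {a : Q} {σ : ι → ℕ} (x y : ι) (R₀ : Finset ι) (c : List ι →₀ ℤ)
    (hc : ∀ w ∈ c.support, ∃ u, w = u ++ [x, y] ∧ ∀ k ∈ u, k ∈ R₀) :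
    ∃ d : List ι →₀ ℤ, (∀ w ∈ d.support, ∀ k ∈ w, k ∈ R₀) ∧
      ∀ r, C.LHom a σ r → C.val r a c = lv r d * (r x * r y) := by
  classical
  refine ⟨c.mapDomain (fun w => w.dropLast.dropLast), ?_, ?_⟩
  · intro w hw k hk
    obtain ⟨w', hw', rfl⟩ := Finset.mem_image.1 (Finsupp.mapDomain_support hw)
    obtain ⟨u, rfl, hu⟩ := hc w' hw'
    apply hu
    have h1 : (u ++ [x, y]).dropLast.dropLast = u := by
      have h2 : u ++ [x, y] = (u ++ [x]) ++ [y] := by simp
      rw [h2, List.dropLast_concat, List.dropLast_concat]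
    rwa [h1] at hk
  · intro r hr
    rw [tylt_lv, Finsupp.linearCombination_mapDomain, Finsupp.linearCombination_apply]
    unfold Base.val Finsupp.sum
    rw [Finset.sum_mul]
    refine Finset.sum_congr rfl fun w hw => ?_
    obtain ⟨u, rfl, hu⟩ := hc w hw
    have h1 : (u ++ [x, y]).dropLast.dropLast = u := by
      have h2 : u ++ [x, y] = (u ++ [x]) ++ [y] := by simp
      rw [h2, List.dropLast_concat, List.dropLast_concat]
    have h3 : C.wv r a (u ++ [x, y]) = ((u ++ [x, y]).map r).prod := hom_wv C hr (by simp)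
    show c (u ++ [x, y]) • C.wv r a (u ++ [x, y]) =
      (c (u ++ [x, y]) • (((u ++ [x, y]).dropLast.dropLast).map r).prod) * (r x * r y)
    rw [h3, smul_mul_assoc, h1, List.map_append, List.prod_append]
    simp

omit [Fintype ι] in
/-- the combination `c` as a combination of untwisted words times `x y` -/
private theorem tylt_red (hC : C.Cub) (hTT : TyT C.Rl C.p) {a : Q} (ha : 2 ≤ C.r a) (σ : ι → ℕ)
    (R : Finset ι) (htw : ∃ k ∈ R, C.Tw a (σ k)) (v₀ : List ι) (ht : C.r a ∣ tot σ v₀)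
    (x y : ι) (R₀ : Finset ι)
    (hN : ∀ w : List ι, w.toFinset = R → C.Ew a σ v₀ w → C.NfT a σ w →
      ∃ u, w = u ++ [x, y] ∧ ∀ k ∈ u, k ∈ R₀)
    (c : List ι →₀ ℤ) (hc : ∀ v ∈ c.support, v.toFinset = R ∧ C.Ew a σ v₀ v) :
    ∃ d : List ι →₀ ℤ, (∀ w ∈ d.support, ∀ k ∈ w, k ∈ R₀) ∧
      ∀ r, C.LHom a σ r → C.val r a c = lv r d * (r x * r y) := by
  classical
  have hone : ∀ v : List ι, ∃ D : List ι →₀ ℤ, v.toFinset = R ∧ C.Ew a σ v₀ v →
      (∀ w ∈ D.support, ∀ k ∈ w, k ∈ R₀) ∧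
        ∀ r, C.LHom a σ r → C.wv r a v = lv r D * (r x * r y) := by
    intro v
    by_cases hv : v.toFinset = R ∧ C.Ew a σ v₀ v
    · obtain ⟨hvR, hvE⟩ := hv
      have htw' : ∃ k ∈ v, C.Tw a (σ k) := by
        obtain ⟨k, hk, hk'⟩ := htw
        rw [← hvR, List.mem_toFinset] at hk
        exact ⟨k, hk, hk'⟩
      have htv : C.r a ∣ tot σ v := (Nat.ModEq.dvd_iff hvE.2 dvd_rfl).1 ht
      obtain ⟨b, hb, hb'⟩ := C.rewT hC hTT ha σ v (tylt_ntw C htw' htv) htv
      obtain ⟨D, hD, hD'⟩ := tylt_nf C (a := a) (σ := σ) x y R₀ b (fun w hw => by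
        obtain ⟨h1, h2⟩ := hb w hw
        refine hN w ?_ ?_ h1
        · rw [← hvR]
          ext k
          rw [List.mem_toFinset, List.mem_toFinset]
          refine ⟨h2.2.1 k, fun hk => ?_⟩
          have h3 := h2.1 k
          have h4 := List.count_pos_iff.2 hk
          exact List.count_pos_iff.1 (lt_of_lt_of_le h4 h3)
        · exact ⟨fun k => (hvE.1 k).trans (h2.2.2.1 k), hvE.2.trans h2.2.2.2⟩)
      refine ⟨D, fun _ => ⟨hD, fun r hr => ?_⟩⟩
      have hne : v ≠ [] := by
        rintro rfl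
        obtain ⟨k, hk, _⟩ := htw'
        exact absurd hk List.not_mem_nil
      rw [hom_wv C hr hne, hb' r hr, hD' r hr]
    · exact ⟨0, fun h => absurd h hv⟩
  choose D hD using hone
  refine ⟨∑ v ∈ c.support, c v • D v, ?_, ?_⟩
  · intro w hw k hk
    obtain ⟨v, hv, hwv⟩ := Finset.mem_biUnion.1 (Finsupp.support_finsetSum hw)
    exact (hD v (hc v hv)).1 w (Finsupp.support_smul hwv) k hk
  · intro r hr
    rw [tylt_lv, map_sum, Finset.sum_mul]
    unfold Base.val Finsupp.sum
    refine Finset.sum_congr rfl fun v hv => ?_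
    rw [map_smul, ← tylt_lv, smul_mul_assoc]
    show c v • C.wv r a v = _
    rw [(hD v (hc v hv)).2 r hr]

theorem tyLT (hC : C.Cub) (hTT : TyT C.Rl C.p) {T : Submodule ℤ P} (hT : C.Dst T)
    {V : Fin 3 → AddSubgroup U} (hV : C.Vals V) {a : Q} (ha : 2 ≤ C.r a) (σ : ι → ℕ) (R : Finset ι)
    (htw : ∃ k ∈ R, C.Tw a (σ k)) (v₀ : List ι) (c c' : List ι →₀ ℤ) (h : C.Pr V a σ R v₀ c c') :
    ∀ r, C.LHom a σ r → C.val r a c = 0 := by
  classical
  have htw' : ∀ v : List ι, v.toFinset = R → ∃ k ∈ v, C.Tw a (σ k) := by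
    intro v hv
    obtain ⟨k, hk, hk'⟩ := htw
    rw [← hv, List.mem_toFinset] at hk
    exact ⟨k, hk, hk'⟩
  by_cases ht : C.r a ∣ tot σ v₀
  · -- case 2
    obtain ⟨x, hxR, hxt⟩ := htw
    have hR0 : ∀ k ∈ R.filter (fun k => ¬ C.Tw a (σ k)), ¬ C.Tw a (σ k) := fun k hk =>
      (Finset.mem_filter.1 hk).2
    have htwR : ∀ z, C.Tw a (σ z) → z ∉ R.filter (fun k => ¬ C.Tw a (σ k)) := fun z hz hz' => hR0 z hz' hz
    by_cases hy : ∃ y ∈ R, y ≠ x ∧ C.Tw a (σ y)
    · obtain ⟨y, hyR, hyx, hyt⟩ := hy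
      have hex : ∃ x₁ y₁, x₁ ≠ y₁ ∧ C.Tw a (σ x₁) ∧ C.Tw a (σ y₁) ∧
          ∀ w : List ι, w.toFinset = R → C.Ew a σ v₀ w → C.NfT a σ w →
            ∃ u, w = u ++ [x₁, y₁] ∧ ∀ k ∈ u, k ∈ R.filter (fun k => ¬ C.Tw a (σ k)) := by
        have hgen : ∀ w : List ι, w.toFinset = R → C.Ew a σ v₀ w → C.NfT a σ w →
            ∃ u, (∀ k ∈ u, k ∈ R.filter (fun k => ¬ C.Tw a (σ k))) ∧
              ((w = u ++ [x, y] ∧ wt C.p σ v₀ x ≡ 1 [MOD C.n a]) ∨
                (w = u ++ [y, x] ∧ ¬ wt C.p σ v₀ x ≡ 1 [MOD C.n a])) := by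
          intro w hwR hwE hwN
          obtain ⟨u, x', y', rfl, hu, hx', hy'⟩ := hwN
          have hxu : x ∉ u := fun h1 => hu x h1 hxt
          have hyu : y ∉ u := fun h1 => hu y h1 hyt
          have hx1 : x ∈ u ++ [x', y'] := by rw [← List.mem_toFinset, hwR]; exact hxR
          have hy1 : y ∈ u ++ [x', y'] := by rw [← List.mem_toFinset, hwR]; exact hyR
          rw [List.mem_append] at hx1 hy1
          have hx2 := hx1.resolve_left hxu
          have hy2 := hy1.resolve_left hyu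
          simp only [List.mem_cons, List.not_mem_nil, or_false] at hx2 hy2
          have hpu : C.p ^ tot σ u ≡ 1 [MOD C.n a] := by
            have h1 := p_pow_modEq C a (Nat.modEq_zero_iff_dvd.2 (tot_untw C hu))
            rwa [pow_zero] at h1
          refine ⟨u, fun k hk => Finset.mem_filter.2 ⟨?_, hu k hk⟩, ?_⟩
          · rw [← hwR, List.mem_toFinset, List.mem_append]
            exact Or.inl hk
          · have hw := hwE.1 x
            rw [wt_append, tylt_wt_notMem C.p σ hxu, zero_add] at hw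
            rcases hx2 with hx2 | hx2
            · rcases hy2 with hy2 | hy2
              · exact absurd (hy2.trans hx2.symm) hyx
              · left
                rw [← hx2, ← hy2, tylt_wtl C.p σ (Ne.symm hyx), mul_one] at hw
                rw [← hx2, ← hy2]
                exact ⟨rfl, hw.trans hpu⟩
            · rcases hy2 with hy2 | hy2
              · right
                rw [← hx2, ← hy2, tylt_wtr C.p σ (Ne.symm hyx)] at hw
                rw [← hx2, ← hy2]
                refine ⟨rfl, fun h1 => hyt ?_⟩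
                have h2 := (hpu.mul_right (C.p ^ σ y)).symm.trans (hw.symm.trans h1)
                rw [one_mul, n_eq C ha, pow_modEq_one_iff C.hp ha] at h2
                exact h2
              · exact absurd (hy2.trans hx2.symm) hyx
        by_cases hv₀ : wt C.p σ v₀ x ≡ 1 [MOD C.n a]
        · refine ⟨x, y, Ne.symm hyx, hxt, hyt, fun w h1 h2 h3 => ?_⟩
          obtain ⟨u, hu, h4 | h4⟩ := hgen w h1 h2 h3
          · exact ⟨u, h4.1, hu⟩
          · exact absurd hv₀ h4.2
        · refine ⟨y, x, hyx, hyt, hxt, fun w h1 h2 h3 => ?_⟩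
          obtain ⟨u, hu, h4 | h4⟩ := hgen w h1 h2 h3
          · exact absurd h4.2 hv₀
          · exact ⟨u, h4.1, hu⟩
      obtain ⟨x₁, y₁, hne, hx₁, hy₁, hN⟩ := hex
      obtain ⟨d, hd, hd2⟩ := tylt_red C hC hTT ha σ R ⟨x, hxR, hxt⟩ v₀ ht x₁ y₁ _ hN c h.supp
      obtain ⟨d', hd', hd2'⟩ := tylt_red C hC hTT ha σ R ⟨x, hxR, hxt⟩ v₀ ht x₁ y₁ _ hN c' h.supp'
      have key := C.trT hT hV (a := a) σ x₁ y₁ hne _ (htwR _ hx₁) (htwR _ hy₁) hR0 d d' hd hd'
        (fun r hr => by
          rw [← hd2 r hr, ← hd2' r hr]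
          exact h.in3 r hr)
      intro r hr
      rw [hd2 r hr]
      exact key r hr
    · have hN : ∀ w : List ι, w.toFinset = R → C.Ew a σ v₀ w → C.NfT a σ w →
          ∃ u, w = u ++ [x, x] ∧ ∀ k ∈ u, k ∈ R.filter (fun k => ¬ C.Tw a (σ k)) := by
        intro w hwR _ hwN
        obtain ⟨u, x', y', rfl, hu, hx', hy'⟩ := hwN
        have hall : ∀ k ∈ u ++ [x', y'], C.Tw a (σ k) → k = x := by
          intro k hk hkt
          by_contra hne
          refine hy ⟨k, ?_, hne, hkt⟩
          rw [← hwR, List.mem_toFinset]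
          exact hk
        have hx2 : x' = x := hall x' (by simp) hx'
        have hy2 : y' = x := hall y' (by simp) hy'
        refine ⟨u, by rw [hx2, hy2], fun k hk => Finset.mem_filter.2 ⟨?_, hu k hk⟩⟩
        rw [← hwR, List.mem_toFinset, List.mem_append]
        exact Or.inl hk
      obtain ⟨d, hd, hd2⟩ := tylt_red C hC hTT ha σ R ⟨x, hxR, hxt⟩ v₀ ht x x _ hN c h.supp
      obtain ⟨d', hd', hd2'⟩ := tylt_red C hC hTT ha σ R ⟨x, hxR, hxt⟩ v₀ ht x x _ hN c' h.supp'
      have key := C.trS hT hV ha σ x hxt _ (htwR _ hxt) hR0 d d' hd hd'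
        (fun r hr => by
          rw [← hd2 r hr, ← hd2' r hr]
          exact h.in3 r hr)
      intro r hr
      rw [hd2 r hr]
      exact key r hr
  · -- case 1
    have hvan : ∀ v : List ι, v.toFinset = R → C.Ew a σ v₀ v → 3 ≤ v.length → ∀ r, C.LHom a σ r →
        C.wv r a v = 0 := by
      intro v hv hE hl r hr
      have h1 : ¬ C.r a ∣ tot σ v := fun h1 => ht ((Nat.ModEq.dvd_iff hE.2 dvd_rfl).2 h1)
      show C.e a * (v.map r).prod = 0
      rw [C.vanT1 hC hTT ha σ v hl h1 r hr, mul_zero]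
    by_cases hA : ∃ v₁ : List ι, v₁.toFinset = R ∧ C.Ew a σ v₀ v₁ ∧ v₁.length ≤ 2
    · obtain ⟨v₁, hv₁, hE₁, hl₁⟩ := hA
      refine C.one hV (C.ne_o ha) h v₁ fun v hv hE hne r hr => ?_
      by_cases hl : 3 ≤ v.length
      · exact hvan v hv hE hl r hr
      · exact absurd (tylt_short C ha hl₁ (by omega) (hv₁.trans hv.symm) (htw' v₁ hv₁)
          (fun k => (hE₁.1 k).symm.trans (hE.1 k))) hne
    · refine C.one hV (C.ne_o ha) h v₀ fun v hv hE _ r hr => ?_
      refine hvan v hv hE ?_ r hr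
      by_contra hl
      exact hA ⟨v, hv, hE, by omega⟩

end Ctx

end ADM
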