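import Pool.Agent.ADM.TyLL
import Pool.Agent.ADM.TyLR
import Pool.Agent.ADM.TyLT
import Pool.Agent.ADM.TyLM
import Pool.Agent.ADM.LoopCls
import Pool.Agent.ADM.Ty0L

namespace ADM

open AD ADN ADN.Ctx

namespace Ctx

variable {U : Type} [Ring U] {Q : Type} [Fintype Q] (C : Ctx U Q)
variable {ι : Type} [Fintype ι] [DecidableEq ι]

theorem loopAll (hC : C.Cub) (hTy : Types C.Rl C.p) (hOL : C.OpL) (hOR : C.OpR)
    (hTu : C.p = 2 → C.TuP) {T : Submodule ℤ P} (hT : C.Dst T) {V : Fin 3 → AddSubgroup U}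
    (hV : C.Vals V) (a : Q) (σ : ι → ℕ) (R : Finset ι)
    (c c' : List ι →₀ ℤ) (hc : ∀ v ∈ c.support, v.toFinset = R) (hc' : ∀ v ∈ c'.support, v.toFinset = R)
    (h0 : a = C.o → c [] = 0 ∧ c' [] = 0)
    (h : ∀ r, C.LHom a σ r → In3 V (C.val r a c) (C.val r a c')) :
    ∀ r, C.LHom a σ r → C.val r a c = 0 := by
  by_cases hR : ∀ k ∈ R, ¬ C.Tw a (σ k)
  · exact C.ty0L hT hV a σ R hR c c' hc hc' h0 h
  push Not at hR
  have ha : 2 ≤ C.r a := by
    obtain ⟨k, -, hk⟩ := hR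
    have h1 := C.r_pos a
    by_contra hcon
    have h2 : C.r a = 1 := by omega
    apply hk
    rw [h2]
    exact one_dvd _
  refine C.loopCls hV ha σ R ?_ c c' hc hc' h
  intro v₀ d d' hd
  rcases (types_iff _ _).1 hTy with hL | hL | hL | hL
  · exact C.tyLL hC hL hOL hT hV ha σ R hR v₀ d d' hd
  · exact C.tyLR hC hL hOR hT hV ha σ R hR v₀ d d' hd
  · exact C.tyLT hC hL hT hV ha σ R hR v₀ d d' hd
  · exact C.tyLM hC hL hTu hV ha σ R hR v₀ d d' hd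

end Ctx

end ADM
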