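import Pool.Agent.ADM.LoopAll

namespace ADM

open AD ADN ADN.Ctx

namespace Ctx

variable {U : Type} [Ring U] {Q : Type} [Fintype Q] (C : Ctx U Q)
variable {ι : Type} [Fintype ι] [DecidableEq ι]

omit [Fintype ι] in
private theorem lh_val {a : Q} {R : Finset ι} {d : List ι →₀ ℤ} (hd : ∀ v ∈ d.support, v.toFinset = R)
    (r : ι → U) : C.val (fun k => if k ∈ R then r k else 0) a d = C.val r a d := by
  unfold Base.val Finsupp.sum
  refine Finset.sum_congr rfl fun v hv => ?_
  have h1 : v.map (fun k => if k ∈ R then r k else 0) = v.map r := by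
    refine List.map_congr_left fun k hk => ?_
    rw [if_pos]
    rw [← hd v hv]
    exact List.mem_toFinset.2 hk
  show d v • (C.e a * (v.map (fun k => if k ∈ R then r k else 0)).prod) =
    d v • (C.e a * (v.map r).prod)
  rw [h1]

theorem loopHom (hC : C.Cub) (hTy : Types C.Rl C.p) (hOL : C.OpL) (hOR : C.OpR)
    (hTu : C.p = 2 → C.TuP) {T : Submodule ℤ P} (hT : C.Dst T) {V : Fin 3 → AddSubgroup U}
    (hV : C.Vals V) (src tgt : ι → Q) (σ : ι → ℕ) (a : Q) (R : Finset ι) (hR0 : R.Nonempty)
    (hR : ∀ k ∈ R, src k = a ∧ tgt k = a)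
    (d d' : List ι →₀ ℤ) (hd : ∀ v ∈ d.support, pth src tgt a v a ∧ v.toFinset = R)
    (hd' : ∀ v ∈ d'.support, pth src tgt a v a ∧ v.toFinset = R)
    (h : ∀ r, C.Hom src tgt σ r → In3 V (C.val r a d) (C.val r a d')) :
    ∀ r, C.Hom src tgt σ r → C.val r a d = 0 := by
  have hnil : ∀ f : List ι →₀ ℤ, (∀ v ∈ f.support, pth src tgt a v a ∧ v.toFinset = R) → f [] = 0 := by
    intro f hf
    by_contra hne
    have h1 := (hf [] (Finsupp.mem_support_iff.2 hne)).2
    rw [List.toFinset_nil] at h1
    exact hR0.ne_empty h1.symm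
  have key := C.loopAll hC hTy hOL hOR hTu hT hV a σ R d d' (fun v hv => (hd v hv).2)
    (fun v hv => (hd' v hv).2) (fun _ => ⟨hnil d hd, hnil d' hd'⟩) (by
      intro r hr
      have h1 : C.Hom src tgt σ (fun k => if k ∈ R then r k else 0) := by
        intro k
        show C.H (src k) (tgt k) (σ k) (if k ∈ R then r k else 0)
        split_ifs with hk
        · rw [(hR k hk).1, (hR k hk).2]
          exact hr k
        · refine ⟨C.S_zero _ _, fun _ => ?_⟩
          rw [zero_mul, mul_zero]
      have h2 := h _ h1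
      rwa [C.lh_val (fun v hv => (hd v hv).2), C.lh_val (fun v hv => (hd' v hv).2)] at h2)
  intro r hr
  have h1 : C.LHom a σ (fun k => if k ∈ R then r k else 0) := by
    intro k
    show C.H a a (σ k) (if k ∈ R then r k else 0)
    split_ifs with hk
    · have h2 := hr k
      rwa [(hR k hk).1, (hR k hk).2] at h2
    · refine ⟨C.S_zero _ _, fun _ => ?_⟩
      rw [zero_mul, mul_zero]
  have h2 := key _ h1
  rwa [C.lh_val (fun v hv => (hd v hv).2)] at h2

end Ctx

end ADM
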