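import Pool.Agent.ADM.Core2
import Pool.Agent.ADM.ExCtx
import Pool.Agent.ADM.CubDst2
import Pool.Agent.ADN.Rel
import Pool.Agent.ADN.NilHull
import Pool.Agent.ADN.NilOr
import Pool.Agent.ADN.Bridge
import Pool.Agent.AD.Trans2

namespace ADM

open AD ADN ADN.Ctx

/-- an almost distributive T-ideal is nilpotent -/
theorem nilpotent2 {I : Submodule ℤ P} (hI : AlmDist I) : ∃ n, NilAt I n := by
  obtain ⟨T, hT⟩ := exists_nilHull hI.1
  rcases nil_or hI hT with h | hlt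
  · exact h
  exfalso
  obtain ⟨a, b, c, j, hd⟩ := hI.expo_dia
  obtain ⟨f, hfa, hfI⟩ := Set.exists_of_ssubset hd.oa
  have haT : IsT a := hd.ha
  have hbT : IsT b := hd.hb
  have hf : f ∈ Pp := haT.le hfa
  obtain ⟨n, hn⟩ := exists_mem_Pn hf
  have hj : f ∈ b ⊔ c := by
    rw [hd.jbc, ← hd.jab]
    exact Submodule.mem_sup_left hfa
  obtain ⟨fb, hfb, fc, hfc, hbc⟩ := Submodule.mem_sup.1 hj
  obtain ⟨p, K, R, iR, V, hp, hfin, htor, hsat, hVl, hVr, hVle, hVd, hval, hne⟩ := rel hI hd n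
  obtain ⟨Q, iQ, C, hCp, hCA⟩ := exCtx p K hp R htor
  obtain ⟨hC, hDst, hTy, hOL, hOR, hTu⟩ := cubDst2 hI hT hlt R hsat C.toBase hCA
  have hV : C.Vals V := ⟨hVl, hVr, fun i x hx => (hCA x).2 (hVle i x hx), hVd⟩
  obtain ⟨y, hy0, hyne⟩ := hne f hn hfI
  apply hyne
  rw [← ev_eq_lift]
  refine C.core2 hC hTy hOL hOR hTu hDst hV f (-fb) hf (neg_mem (hbT.le hfb)) ?_ n
    (fun i => ((y i : R) : Unitization ℤ R)) (fun i => (hCA _).2 ⟨y i, rfl⟩)
    (fun i hi => by rw [hy0 i hi]; simp)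
  intro z hz
  choose y' hy' using fun i => (hCA (z i)).1 (hz i)
  have hz' : z = fun i => ((y' i : R) : Unitization ℤ R) := funext hy'
  obtain ⟨h1, h2, h3⟩ := hval y'
  rw [hz']
  have h1' := h1 f hfa
  have h2' := h2 _ (neg_mem hfb)
  have h3' := h3 fc hfc
  rw [← ev_eq_lift] at h1' h2' h3'
  refine ⟨h1', h2', ?_⟩
  rw [← map_add]
  have : f + -fb = fc := by rw [← hbc]; abel
  rw [this]
  exact h3'

theorem final2 (V : Set RingObj) (hV : AlmostDistributive V) :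
    ∃ n : ℕ, 1 ≤ n ∧ ∀ R ∈ V, @Sat R.1 R.2 (((List.range n).map (FreeAlgebra.ι ℤ)).prod) := by
  obtain ⟨I, hI, rfl⟩ := almDist_of hV
  obtain ⟨n, hn⟩ := nilpotent2 hI
  refine ⟨n + 1, by omega, ?_⟩
  intro R hR
  apply hR
  exact hn (List.range (n + 1)) (by simp)

end ADM
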