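import Pool.Agent.ADM.DefD
import Pool.Agent.ADM.HB

/-!
# ADM-NvB

Elementary facts on the values of words with arrows.

PLAN.  `nv`, `xval`, `g` in Defs.lean; `g θ a b m = E a b * w b ^ (θ (blk b) * m)`.
* g_ne: `E_ne`.  g_self: `E_self`.  g_S: `S a b (g * x)`: `E_left`, ideal.
* nv_bpth: induction on `v`; `E a b = 0` if the blocks are different.
* nv_S: induction on `v`: for `[(k, j)]`: `g θ a (src k) i * (r k * g θ (tgt k) b j)`; `r k ∈ J` sorted; `E_left`, `E_right`, and `w b ^ m * e b = w b ^ m` if `m ≥ 1`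
  (`E a b * w b ^ m * e b = E a b * w b ^ m` for all `m`).
* nv_eq: induction on `v` (`r k * w (tgt k) ^ m * e (tgt k) = r k * w (tgt k) ^ m` because `r k * e (tgt k) = r k`; for `[]`: `e a * w a ^ m = w a ^ m * (e a * 1)`).
* g_mul: for blocks equal `E a h * w h ^ m * E h b = E a h * E h b * w b ^ m = E a b * w b ^ m` (`w_E`), `θ` is evaluated at the same block.
* E_mem: `E i j = e i * E i j ∈ A` for `i ≠ o`.
* wE_pow: induction on `m` from `w_E`.
-/

namespace ADM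

open AD ADN ADN.Ctx

namespace Ctx

variable {U : Type} [Ring U] {Q : Type} [Fintype Q] (C : Ctx U Q)
variable {ι : Type} {src tgt : ι → Q} {σ : ι → ℕ} {r : ι → U}

theorem xval_add (θ : ℕ → ℕ) (src tgt : ι → Q) (r : ι → U) (a b : Q) (c c' : (ℕ × List (ι × ℕ)) →₀ ℤ) :
    C.xval θ src tgt r a b (c + c') = C.xval θ src tgt r a b c + C.xval θ src tgt r a b c' := by
  classical
  unfold xval
  rw [Finsupp.sum_add_index']
  · intro v
    rw [zero_smul]
  · intro v n m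
    rw [add_smul]

theorem xval_single (θ : ℕ → ℕ) (src tgt : ι → Q) (r : ι → U) (a b : Q) (q : ℕ × List (ι × ℕ)) (z : ℤ) :
    C.xval θ src tgt r a b (Finsupp.single q z) = z • C.nv θ src tgt r a b q.1 q.2 := by
  unfold xval
  rw [Finsupp.sum_single_index]
  rw [zero_smul]

theorem xval_zero (θ : ℕ → ℕ) (src tgt : ι → Q) (r : ι → U) (a b : Q) :
    C.xval θ src tgt r a b 0 = 0 := by
  unfold xval
  rw [Finsupp.sum_zero_index]

theorem wE_pow {i j : Q} (h : C.blk i = C.blk j) (m : ℕ) : C.w i ^ m * C.E i j = C.E i j * C.w j ^ m := by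
  induction m with
  | zero => rw [pow_zero, pow_zero, one_mul, mul_one]
  | succ m ih =>
    rw [pow_succ, mul_assoc, C.w_E i j h, ← mul_assoc, ih, mul_assoc, ← pow_succ]

theorem E_mem {i : Q} (hi : i ≠ C.o) (j : Q) : C.E i j ∈ C.A := by
  rw [← C.E_left i j]
  exact C.A_right _ _ (C.e_mem i hi)

theorem g_self (θ : ℕ → ℕ) (a : Q) (m : ℕ) : C.g θ a a m = C.e a * C.w a ^ (θ (C.blk a) * m) := by
  unfold g
  rw [C.E_self]

theorem g_ne (θ : ℕ → ℕ) {a b : Q} (h : C.blk a ≠ C.blk b) (m : ℕ) : C.g θ a b m = 0 := by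
  unfold g
  rw [C.E_ne a b h, zero_mul]

theorem g_left (θ : ℕ → ℕ) (a b : Q) (m : ℕ) : C.e a * C.g θ a b m = C.g θ a b m := by
  unfold g
  rw [← mul_assoc, C.E_left]

theorem g_right (θ : ℕ → ℕ) (a b : Q) (m : ℕ) : C.g θ a b m * C.e b = C.g θ a b m := by
  unfold g
  exact C.w_pow_e _ (C.E_right a b)

theorem g_mul (θ : ℕ → ℕ) {a h b : Q} (h₁ : C.blk a = C.blk h) (h₂ : C.blk h = C.blk b) (m m' : ℕ) :
    C.g θ a h m * C.g θ h b m' = C.g θ a b (m + m') := by
  unfold g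
  rw [mul_assoc, ← mul_assoc (C.w h ^ _), C.wE_pow h₂, ← mul_assoc, ← mul_assoc, C.E_mul a h b h₁ h₂,
    mul_assoc, ← pow_add, h₂, mul_add]

theorem nv_bpth (θ : ℕ → ℕ) (src tgt : ι → Q) (r : ι → U) (a b : Q) (i : ℕ) (v : List (ι × ℕ))
    (h : C.nv θ src tgt r a b i v ≠ 0) : C.bpth src tgt a v b := by
  induction v generalizing a i with
  | nil =>
    show C.blk a = C.blk b
    by_contra hne
    exact h (C.g_ne θ hne i)
  | cons q v ih =>
    obtain ⟨k, j⟩ := q
    have h1 : C.g θ a (src k) i * (r k * C.nv θ src tgt r (tgt k) b j v) ≠ 0 := h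
    refine ⟨?_, ih (tgt k) j ?_⟩
    · by_contra hne
      exact h1 (by rw [C.g_ne θ hne i, zero_mul])
    · intro h0
      exact h1 (by rw [h0, mul_zero, mul_zero])

private theorem nvb_corner (src tgt : ι → Q) (r : ι → U) (θ : ℕ → ℕ) (a b : Q) (i : ℕ) (v : List (ι × ℕ)) :
    C.e a * C.nv θ src tgt r a b i v = C.nv θ src tgt r a b i v ∧
      C.nv θ src tgt r a b i v * C.e b = C.nv θ src tgt r a b i v := by
  induction v generalizing a i with
  | nil => exact ⟨C.g_left θ a b i, C.g_right θ a b i⟩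
  | cons q v ih =>
    obtain ⟨k, j⟩ := q
    have h1 : C.nv θ src tgt r a b i ((k, j) :: v) =
        C.g θ a (src k) i * (r k * C.nv θ src tgt r (tgt k) b j v) := rfl
    rw [h1]
    refine ⟨?_, ?_⟩
    · rw [← mul_assoc, C.g_left]
    · rw [mul_assoc, mul_assoc, (ih (tgt k) j).2]

theorem nv_S (hr : C.Hom src tgt σ r) (θ : ℕ → ℕ) (a b : Q) (i : ℕ) (v : List (ι × ℕ)) (hv : v ≠ []) :
    C.S a b (C.nv θ src tgt r a b i v) := by
  refine ⟨?_, C.nvb_corner src tgt r θ a b i v⟩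
  cases v with
  | nil => exact absurd rfl hv
  | cons q v =>
    obtain ⟨k, j⟩ := q
    exact C.J_left _ _ (C.J_right _ _ (hr k).1.1)

theorem nv_corner (hr : C.Hom src tgt σ r) (θ : ℕ → ℕ) (a b : Q) (i : ℕ) (v : List (ι × ℕ)) :
    C.e a * C.nv θ src tgt r a b i v = C.nv θ src tgt r a b i v ∧
      C.nv θ src tgt r a b i v * C.e b = C.nv θ src tgt r a b i v :=
  C.nvb_corner src tgt r θ a b i v

private theorem nvb_comm (a : Q) (m : ℕ) : C.e a * C.w a ^ m = C.w a ^ m * C.e a := by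
  have h : Commute (C.e a) (C.w a) := by
    show C.e a * C.w a = C.w a * C.e a
    rw [C.w_left, C.w_right]
  exact (h.pow_right m).eq

theorem nv_eq (hr : C.Hom src tgt σ r) (θ : ℕ → ℕ) (b : Q) (v : List (ι × ℕ)) (a : Q) (i : ℕ)
    (hp : pth (s2 src) (s2 tgt) a v b) :
    C.nv θ src tgt r a b i v = C.w a ^ (θ (C.blk a) * i) * C.wv (C.r2 θ tgt r) a v := by
  induction v generalizing a i with
  | nil =>
    have h1 : a = b := hp
    subst h1
    show C.g θ a a i = _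
    rw [C.g_self, C.wv_nil, C.nvb_comm]
  | cons q v ih =>
    obtain ⟨k, j⟩ := q
    obtain ⟨h1, h2⟩ := hp
    have h3 : src k = a := h1
    subst h3
    have h4 : C.nv θ src tgt r (src k) b i ((k, j) :: v) =
        C.g θ (src k) (src k) i * (r k * C.nv θ src tgt r (tgt k) b j v) := rfl
    have h5 : C.wv (C.r2 θ tgt r) (src k) ((k, j) :: v) =
        C.e (src k) * (r k * C.w (tgt k) ^ (θ (C.blk (tgt k)) * j) *
          (v.map (C.r2 θ tgt r)).prod) := by
      unfold Base.wv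
      rw [List.map_cons, List.prod_cons]
      rfl
    have h6 : C.wv (C.r2 θ tgt r) (tgt k) v = C.e (tgt k) * (v.map (C.r2 θ tgt r)).prod := rfl
    have h7 : r k * C.e (tgt k) = r k := (hr k).1.2.2
    have h8 : r k * (C.w (tgt k) ^ (θ (C.blk (tgt k)) * j) * (C.e (tgt k) *
        (v.map (C.r2 θ tgt r)).prod)) =
        r k * C.w (tgt k) ^ (θ (C.blk (tgt k)) * j) * (v.map (C.r2 θ tgt r)).prod := by
      rw [← mul_assoc (C.w (tgt k) ^ _), ← C.nvb_comm, ← mul_assoc, ← mul_assoc, h7]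
    rw [h4, h5, ih (tgt k) j h2, h6, h8, C.g_self, C.nvb_comm, mul_assoc]

theorem r2_Srt (hr : C.Hom src tgt σ r) (θ : ℕ → ℕ) : C.Srt (s2 src) (s2 tgt) (C.r2 θ tgt r) := by
  rintro ⟨k, j⟩
  show C.S (src k) (tgt k) (r k * C.w (tgt k) ^ (θ (C.blk (tgt k)) * j))
  refine ⟨C.J_right _ _ (hr k).1.1, ?_, ?_⟩
  · rw [← mul_assoc, (hr k).1.2.1]
  · exact C.w_pow_e _ (hr k).1.2.2

end Ctx

end ADM
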