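import Pool.Agent.ADM.SpP
import Pool.Agent.ADM.NvB
import Pool.Agent.ADM.VanCore

/-!
# ADM-MatA

A product of two radical elements at a vertex `i` of a matrix block vanishes.

`mtJ k` is the additive subgroup generated by the products with at least `k` factors in `J` (as in VanCore.lean, but
with arbitrary other factors).  `mt_step` is the step of the downward induction on the depth: the letters are sorted, one
of them need not be in `J`.
-/

namespace ADM

open AD ADN ADN.Ctx

namespace Base

variable {U : Type} [Ring U] {Q : Type} [Fintype Q] (C : Base U Q)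

/-- the additive subgroup generated by the products of at least `k` elements of `J` (and `mtJ 0` is everything) -/
private def mtJ (k : ℕ) : AddSubgroup U :=
  AddSubgroup.closure {u | ∃ (l : List U) (z : U), k ≤ l.length ∧ (∀ x ∈ l, x ∈ C.J) ∧ u = l.prod * z}

private theorem mtJ_one {x : U} (hx : x ∈ C.J) : x ∈ C.mtJ 1 :=
  AddSubgroup.subset_closure ⟨[x], 1, by simp, by simpa using hx, by simp⟩

private theorem mtJ_all (x : U) : x ∈ C.mtJ 0 :=
  AddSubgroup.subset_closure ⟨[], x, by simp, by simp, by simp⟩

private theorem mtJ_right {k : ℕ} {x : U} (z : U) (hx : x ∈ C.mtJ k) : x * z ∈ C.mtJ k := by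
  unfold mtJ at hx
  induction hx using AddSubgroup.closure_induction with
  | mem x hx =>
    obtain ⟨l, z', hl, hlJ, rfl⟩ := hx
    exact AddSubgroup.subset_closure ⟨l, z' * z, hl, hlJ, by rw [mul_assoc]⟩
  | zero => rw [zero_mul]; exact AddSubgroup.zero_mem _
  | add a b _ _ ha hb => rw [add_mul]; exact AddSubgroup.add_mem _ ha hb
  | neg a _ ha => rw [neg_mul]; exact AddSubgroup.neg_mem _ ha

private theorem mtJ_left {k : ℕ} {x : U} (z : U) (hx : x ∈ C.mtJ k) : z * x ∈ C.mtJ k := by
  unfold mtJ at hx
  induction hx using AddSubgroup.closure_induction with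
  | mem x hx =>
    obtain ⟨l, z', hl, hlJ, rfl⟩ := hx
    cases l with
    | nil =>
      have hk : k = 0 := by simpa using hl
      rw [hk]
      exact C.mtJ_all _
    | cons u l =>
      refine AddSubgroup.subset_closure ⟨(z * u) :: l, z', hl, ?_, ?_⟩
      · intro v hv
        rcases List.mem_cons.1 hv with h | h
        · rw [h]
          exact C.J_left _ _ (hlJ u (List.mem_cons_self))
        · exact hlJ v (List.mem_cons_of_mem _ h)
      · rw [List.prod_cons, List.prod_cons]
        noncomm_ring
  | zero => rw [mul_zero]; exact AddSubgroup.zero_mem _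
  | add a b _ _ ha hb => rw [mul_add]; exact AddSubgroup.add_mem _ ha hb
  | neg a _ ha => rw [mul_neg]; exact AddSubgroup.neg_mem _ ha

private theorem mtJ_mul {k m : ℕ} {x y : U} (hx : x ∈ C.mtJ k) (hy : y ∈ C.mtJ m) : x * y ∈ C.mtJ (k + m) := by
  unfold mtJ at hx
  induction hx using AddSubgroup.closure_induction with
  | mem x hx =>
    obtain ⟨l, z, hl, hlJ, rfl⟩ := hx
    have hy' := C.mtJ_left z hy
    rw [mul_assoc]
    generalize z * y = y' at hy'
    unfold mtJ at hy'
    induction hy' using AddSubgroup.closure_induction with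
    | mem y hy =>
      obtain ⟨l', z', hl', hlJ', rfl⟩ := hy
      refine AddSubgroup.subset_closure ⟨l ++ l', z', ?_, ?_, ?_⟩
      · rw [List.length_append]; omega
      · intro z hz
        rcases List.mem_append.1 hz with h | h
        · exact hlJ z h
        · exact hlJ' z h
      · rw [List.prod_append, mul_assoc]
    | zero => rw [mul_zero]; exact AddSubgroup.zero_mem _
    | add a b _ _ ha hb => rw [mul_add]; exact AddSubgroup.add_mem _ ha hb
    | neg a _ ha => rw [mul_neg]; exact AddSubgroup.neg_mem _ ha
  | zero => rw [zero_mul]; exact AddSubgroup.zero_mem _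
  | add a b _ _ ha hb => rw [add_mul]; exact AddSubgroup.add_mem _ ha hb
  | neg a _ ha => rw [neg_mul]; exact AddSubgroup.neg_mem _ ha

private theorem mtJ_zero {k : ℕ} (hk : C.N ≤ k) {x : U} (hx : x ∈ C.mtJ k) : x = 0 := by
  unfold mtJ at hx
  induction hx using AddSubgroup.closure_induction with
  | mem x hx =>
    obtain ⟨l, z, hl, hlJ, rfl⟩ := hx
    rw [C.nil l (le_trans hk hl) hlJ, zero_mul]
  | zero => rfl
  | add a b _ _ ha hb => rw [ha, hb, add_zero]
  | neg a _ ha => rw [ha, neg_zero]

private theorem mtJ_J {k : ℕ} (hk : 1 ≤ k) {x : U} (hx : x ∈ C.mtJ k) : x ∈ C.J := by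
  unfold mtJ at hx
  induction hx using AddSubgroup.closure_induction with
  | mem x hx =>
    obtain ⟨l, z, hl, hlJ, rfl⟩ := hx
    cases l with
    | nil => simp only [List.length_nil] at hl; omega
    | cons u l =>
      rw [List.prod_cons, mul_assoc]
      exact C.J_right _ _ (hlJ u (List.mem_cons_self))
  | zero => exact C.J.zero_mem
  | add a b _ _ ha hb => exact C.J.add_mem ha hb
  | neg a _ ha => exact C.J.neg_mem ha

private theorem mtJ_word {a : Fin 3 → U} {k : Fin 3 → ℕ} (h : ∀ i, a i ∈ C.mtJ (k i)) (w : List (Fin 3)) :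
    (w.map a).prod ∈ C.mtJ (w.map k).sum := by
  induction w with
  | nil => simpa using C.mtJ_all 1
  | cons i w ih =>
    simp only [List.map_cons, List.prod_cons, List.sum_cons]
    exact C.mtJ_mul (h i) ih

private theorem mt_sum (k : Fin 3 → ℕ) {w : List (Fin 3)} (hw : ∀ i, i ∈ w) :
    (w.map k).sum = w.count 0 * k 0 + w.count 1 * k 1 + w.count 2 * k 2 := by
  have hu : w.toFinset = Finset.univ := by
    ext i; simp [hw i]
  rw [Finset.sum_list_map_count, hu, Fin.sum_univ_three]
  simp

private theorem mt_countP (δ : Fin 3 → Bool) (w : List (Fin 3)) :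
    w.countP δ = (w.map fun i => if δ i then 1 else 0).sum := by
  induction w with
  | nil => rfl
  | cons i w ih =>
    rw [List.countP_cons, List.map_cons, List.sum_cons, ih, Nat.add_comm]

private theorem mt_depth {k : Fin 3 → ℕ} {δ : Fin 3 → Bool} (hδ : δ = ![true, false, true] ∨ δ = ![false, true, true])
    (hk : ∀ i, δ i = true → 1 ≤ k i) (hk0 : ∀ i, δ i = false → k i = 0) {w : List (Fin 3)} (hw : ∀ i, i ∈ w)
    (h3 : 3 ≤ w.countP δ) : k 0 + k 1 + k 2 + 1 ≤ (w.map k).sum := by
  have key : ∀ c m : ℕ, 1 ≤ c → 1 ≤ m → m + c ≤ c * m + 1 := by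
    intro c m hc hm
    obtain ⟨c, rfl⟩ := Nat.exists_eq_add_of_le hc
    obtain ⟨m, rfl⟩ := Nat.exists_eq_add_of_le hm
    nlinarith
  have hc : ∀ i, 1 ≤ w.count i := fun i => List.count_pos_iff.2 (hw i)
  rw [mt_countP, mt_sum _ hw] at h3
  rw [mt_sum _ hw]
  rcases hδ with rfl | rfl
  · have k0 := hk 0 (by simp)
    have k1 := hk0 1 (by simp)
    have k2 := hk 2 (by simp)
    have e0 := key _ _ (hc 0) k0
    have e2 := key _ _ (hc 2) k2
    simp at h3
    rw [k1]
    omega
  · have k0 := hk0 0 (by simp)
    have k1 := hk 1 (by simp)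
    have k2 := hk 2 (by simp)
    have e1 := key _ _ (hc 1) k1
    have e2 := key _ _ (hc 2) k2
    simp at h3
    rw [k0]
    omega

private theorem mt_len {k : Fin 3 → ℕ} {δ : Fin 3 → Bool} (hk : ∀ i, δ i = true → 1 ≤ k i) {w : List (Fin 3)}
    (h1 : 1 ≤ w.countP δ) : 1 ≤ (w.map k).sum := by
  obtain ⟨i, hi, hδ⟩ := List.countP_pos_iff.1 h1
  have := List.le_sum_of_mem (List.mem_map_of_mem (f := k) hi)
  have := hk i hδ
  omega

/-- sorted letters, not necessarily in `J` -/
private def MS (src tgt : Fin 3 → Q) (r : Fin 3 → U) : Prop :=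
  ∀ k, C.e (src k) * r k = r k ∧ r k * C.e (tgt k) = r k

private theorem ms_path {src tgt : Fin 3 → Q} {r : Fin 3 → U} (hr : C.MS src tgt r) :
    ∀ (v : List (Fin 3)) (a b : Q), v ≠ [] → pth src tgt a v b →
      C.e a * (v.map r).prod = (v.map r).prod ∧ (v.map r).prod * C.e b = (v.map r).prod := by
  intro v
  induction v with
  | nil => intro a b h; exact absurd rfl h
  | cons k v ih =>
    intro a b _ hp
    obtain ⟨h1, h2⟩ := hp
    rw [List.map_cons, List.prod_cons]
    refine ⟨?_, ?_⟩
    · rw [← mul_assoc, ← h1, (hr k).1]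
    · by_cases hv : v = []
      · subst hv
        have h3 : tgt k = b := h2
        rw [List.map_nil, List.prod_nil, mul_one, ← h3, (hr k).2]
      · rw [mul_assoc, (ih (tgt k) b hv h2).2]

private theorem ms_ne {src tgt : Fin 3 → Q} {r : Fin 3 → U} (hr : C.MS src tgt r) : ∀ (v : List (Fin 3)) (a b : Q),
    C.e a * (v.map r).prod * C.e b ≠ 0 → pth src tgt a v b := by
  have ortho : ∀ {a b : Q}, a ≠ b → C.e a * C.e b = 0 := fun h => C.coi.toOrthogonalIdempotents.ortho h
  intro v
  induction v with
  | nil =>
    intro a b h
    show a = b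
    by_contra hab
    apply h
    rw [List.map_nil, List.prod_nil, mul_one, ortho hab]
  | cons k v ih =>
    intro a b h
    rw [List.map_cons, List.prod_cons] at h
    have h1 : src k = a := by
      by_contra hne
      apply h
      have h2 : C.e a * r k = 0 := by
        rw [← (hr k).1, ← mul_assoc, ortho (Ne.symm hne), zero_mul]
      rw [← mul_assoc, h2, zero_mul, zero_mul]
    refine ⟨h1, ih (tgt k) b ?_⟩
    intro h0
    apply h
    have h2 : C.e a * (r k * (v.map r).prod) * C.e b =
        C.e a * r k * (C.e (tgt k) * (v.map r).prod * C.e b) := by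
      conv_lhs => rw [← (hr k).2]
      noncomm_ring
    rw [h2, h0, mul_zero]

private theorem mt_step (hC : C.Cub) {m₁ m₂ v₀ v₁ v₂ v₃ : Q} {δ : Fin 3 → Bool}
    (hδ : δ = ![true, false, true] ∨ δ = ![false, true, true])
    (h : Split2 δ m₁ m₂ v₀ v₁ v₂ v₃) {k : Fin 3 → ℕ}
    (hk : ∀ i, δ i = true → 1 ≤ k i) (hk0 : ∀ i, δ i = false → k i = 0)
    (hZ : ∀ m, (m = m₁ ∨ m = m₂) → ∀ s t : ℕ, 1 ≤ s → 1 ≤ t → k 0 + k 1 + k 2 + 1 ≤ s + t → ∀ x y : U,
      C.S v₀ m x → C.S m v₃ y → x ∈ C.mtJ s → y ∈ C.mtJ t → x * y = 0)
    {a : Fin 3 → U} (hr : C.MS ![v₀, v₁, v₂] ![v₁, v₂, v₃] a) (hA : ∀ i, a i ∈ C.A)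
    (hd : ∀ i, a i ∈ C.mtJ (k i)) : a 0 * a 1 * a 2 = 0 := by
  obtain ⟨G, hG, hp, hG0⟩ := hC
  have h0 := hG0 a hA
  have h1 : (G.sum fun w c => c • (C.e v₀ * w3 a w * C.e v₃)) = 0 := by
    have h2 : C.e v₀ * (G.sum fun w c => c • w3 a w) * C.e v₃ = 0 := by rw [h0]; simp
    rw [Finsupp.sum, Finset.mul_sum, Finset.sum_mul] at h2
    rw [Finsupp.sum, ← h2]
    refine Finset.sum_congr rfl fun w _ => ?_
    rw [mul_smul_comm, smul_mul_assoc]
  have hz0 : ∀ w ∈ G.support, w ≠ [0, 1, 2] → C.e v₀ * w3 a w * C.e v₃ = 0 := by
    intro w hw hne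
    by_contra hcon
    have hpth := C.ms_ne hr w v₀ v₃ hcon
    rcases h w (hG w hw) hpth with h' | ⟨h3, w₁, w₂, m, hww, hm, c1, c2, p1, p2⟩
    · exact hne h'
    · apply hcon
      have hdep := mt_depth hδ hk hk0 (hG w hw) h3
      have n1 : w₁ ≠ [] := by
        rintro rfl
        simp at c1
      have n2 : w₂ ≠ [] := by
        rintro rfl
        simp at c2
      have q1 := C.mtJ_word hd w₁
      have q2 := C.mtJ_word hd w₂
      have l1 := mt_len hk c1
      have l2 := mt_len hk c2
      have s1 := C.ms_path hr w₁ v₀ m n1 p1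
      have s2 := C.ms_path hr w₂ m v₃ n2 p2
      have e := hZ m hm _ _ l1 l2 (by
        rw [hww] at hdep
        simpa only [List.map_append, List.sum_append] using hdep) _ _
        ⟨C.mtJ_J l1 q1, s1.1, s1.2⟩ ⟨C.mtJ_J l2 q2, s2.1, s2.2⟩ q1 q2
      unfold w3
      rw [hww, List.map_append, List.prod_append, e]
      simp
  have hs : (G.sum fun w c => c • (C.e v₀ * w3 a w * C.e v₃)) =
      G [0, 1, 2] • (C.e v₀ * w3 a [0, 1, 2] * C.e v₃) := by
    rw [Finsupp.sum]
    refine Finset.sum_eq_single _ ?_ ?_
    · intro w hw hne
      rw [hz0 w hw hne, smul_zero]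
    · intro hns
      rw [Finsupp.notMem_support_iff.1 hns, zero_smul]
  rw [hs] at h1
  have hv : C.e v₀ * w3 a [0, 1, 2] * C.e v₃ = a 0 * a 1 * a 2 := by
    have e1 : w3 a [0, 1, 2] = a 0 * a 1 * a 2 := by
      simp [w3, mul_assoc]
    have e2 : C.e v₀ * a 0 = a 0 := (hr 0).1
    have e3 : a 2 * C.e v₃ = a 2 := (hr 2).2
    rw [e1]
    calc C.e v₀ * (a 0 * a 1 * a 2) * C.e v₃ = (C.e v₀ * a 0) * a 1 * (a 2 * C.e v₃) := by noncomm_ring
      _ = a 0 * a 1 * a 2 := by rw [e2, e3]
  rw [hv] at h1
  have hmem : a 0 * a 1 * a 2 ∈ C.A := C.A_left _ _ (hA 2)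
  exact C.tors_unit hp hmem h1

end Base

namespace Ctx

variable {U : Type} [Ring U] {Q : Type} [Fintype Q] (C : Ctx U Q)

private theorem mat_main (hC : C.Cub) (n : ℕ) : ∀ (s t : ℕ), 1 ≤ s → 1 ≤ t → 2 * C.N ≤ s + t + n →
    ∀ (i j : Q), i ≠ j → C.blk i = C.blk j → ∀ (a b : Q) (x y : U), C.S a i x → C.S i b y →
      x ∈ C.toBase.mtJ s → y ∈ C.toBase.mtJ t → x * y = 0 := by
  induction n with
  | zero =>
    intro s t hs ht hN i j hij hb a b x y sx sy hx hy
    have : C.N ≤ s ∨ C.N ≤ t := by omega
    rcases this with h' | h'
    · rw [C.toBase.mtJ_zero h' hx, zero_mul]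
    · rw [C.toBase.mtJ_zero h' hy, mul_zero]
  | succ n ih =>
    intro s t hs ht hN i j hij hb a b x y sx sy hx hy
    have hio : i ≠ C.o := by
      intro h
      apply hij
      rw [h]
      exact (C.blk_o j (by rw [← hb, h])).symm
    have hjo : j ≠ C.o := by
      intro h
      apply hij
      rw [h]
      exact C.blk_o i (by rw [hb, h])
    have e1 : C.E i j * C.E j i = C.e i := by rw [C.E_mul i j i hb hb.symm, C.E_self]
    have e2 : C.E j i * C.E i j = C.e j := by rw [C.E_mul j i j hb.symm hb, C.E_self]
    -- the induction hypothesis at both vertices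
    have ihZ : ∀ m, (m = i ∨ m = j) → ∀ (D : ℕ), D = s + t → ∀ s' t' : ℕ, 1 ≤ s' → 1 ≤ t' → D + 1 ≤ s' + t' →
        ∀ x' y' : U, C.S a m x' → C.S m b y' → x' ∈ C.toBase.mtJ s' → y' ∈ C.toBase.mtJ t' → x' * y' = 0 := by
      intro m hm D hD s' t' hs' ht' hst x' y' sx' sy' hx' hy'
      rcases hm with rfl | rfl
      · exact ih s' t' hs' ht' (by omega) m j hij hb a b x' y' sx' sy' hx' hy'
      · exact ih s' t' hs' ht' (by omega) m i hij.symm hb.symm a b x' y' sx' sy' hx' hy'
    have Eij := C.E_mem hio j
    have Eji := C.E_mem hjo i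
    have xJ := sx.1
    have yJ := sy.1
    by_cases h5 : (a ≠ i ∧ a ≠ j) ∨ (b ≠ i ∧ b ≠ j)
    · have hfin := C.toBase.mt_step hC (Or.inl rfl) (spP3 hij h5) (k := ![s, 0, t]) (a := ![x, C.E i j, C.E j i * y])
        (by intro l; fin_cases l <;> simp <;> assumption) (by intro l; fin_cases l <;> simp)
        (fun m hm s' t' h1 h2 h3 x' y' => ihZ m hm _ (by simp) s' t' h1 h2 h3 x' y')
        (by
          intro l
          fin_cases l
          · exact ⟨sx.2.1, sx.2.2⟩
          · exact ⟨C.E_left i j, C.E_right i j⟩
          · refine ⟨?_, ?_⟩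
            · show C.e j * (C.E j i * y) = C.E j i * y
              rw [← mul_assoc, C.E_left]
            · show C.E j i * y * C.e b = C.E j i * y
              rw [mul_assoc, sy.2.2])
        (by
          intro l
          fin_cases l
          · exact C.J_le xJ
          · exact Eij
          · exact C.J_le (C.J_left _ _ yJ))
        (by
          intro l
          fin_cases l
          · exact hx
          · exact C.toBase.mtJ_all _
          · exact C.toBase.mtJ_left _ hy)
      have h6 : x * C.E i j * (C.E j i * y) = 0 := hfin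
      rw [mul_assoc, ← mul_assoc (C.E i j), e1, ← mul_assoc, sx.2.2] at h6
      exact h6
    · push Not at h5
      by_cases hai : a = i
      · subst hai
        by_cases hbi : b = a
        · subst hbi
          -- case 1
          have hfin := C.toBase.mt_step hC (Or.inr rfl) (spP2 hij) (k := ![0, s, t])
            (a := ![C.E b j, C.E j b * x * C.E b j, C.E j b * y])
            (by intro l; fin_cases l <;> simp <;> assumption) (by intro l; fin_cases l <;> simp)
            (fun m hm s' t' h1 h2 h3 x' y' => ihZ m hm _ (by simp) s' t' h1 h2 h3 x' y')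
            (by
              intro l
              fin_cases l
              · exact ⟨C.E_left b j, C.E_right b j⟩
              · refine ⟨?_, ?_⟩
                · show C.e j * (C.E j b * x * C.E b j) = C.E j b * x * C.E b j
                  rw [← mul_assoc, ← mul_assoc, C.E_left]
                · show C.E j b * x * C.E b j * C.e j = C.E j b * x * C.E b j
                  rw [mul_assoc, C.E_right]
              · refine ⟨?_, ?_⟩
                · show C.e j * (C.E j b * y) = C.E j b * y
                  rw [← mul_assoc, C.E_left]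
                · show C.E j b * y * C.e b = C.E j b * y
                  rw [mul_assoc, sy.2.2])
            (by
              intro l
              fin_cases l
              · exact Eij
              · exact C.J_le (C.J_right _ _ (C.J_left _ _ xJ))
              · exact C.J_le (C.J_left _ _ yJ))
            (by
              intro l
              fin_cases l
              · exact C.toBase.mtJ_all _
              · exact C.toBase.mtJ_right _ (C.toBase.mtJ_left _ hx)
              · exact C.toBase.mtJ_left _ hy)
          have h6 : C.E b j * (C.E j b * x * C.E b j) * (C.E j b * y) = 0 := hfin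
          have h7 : C.E b j * (C.E j b * x * C.E b j) * (C.E j b * y) =
              (C.E b j * C.E j b) * x * (C.E b j * C.E j b) * y := by noncomm_ring
          rw [h7, e1, sx.2.1, sx.2.2] at h6
          exact h6
        · -- case 4
          have hbj : b = j := by
            by_contra hbj
            exact (h5.2 hbi) |> hbj
          subst hbj
          have hfin := C.toBase.mt_step hC (Or.inl rfl) (spP1 hij) (k := ![s, 0, t])
            (a := ![x, C.E a b, C.E b a * y])
            (by intro l; fin_cases l <;> simp <;> assumption) (by intro l; fin_cases l <;> simp)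
            (fun m hm s' t' h1 h2 h3 x' y' => ihZ m hm _ (by simp) s' t' h1 h2 h3 x' y')
            (by
              intro l
              fin_cases l
              · exact ⟨sx.2.1, sx.2.2⟩
              · exact ⟨C.E_left a b, C.E_right a b⟩
              · refine ⟨?_, ?_⟩
                · show C.e b * (C.E b a * y) = C.E b a * y
                  rw [← mul_assoc, C.E_left]
                · show C.E b a * y * C.e b = C.E b a * y
                  rw [mul_assoc, sy.2.2])
            (by
              intro l
              fin_cases l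
              · exact C.J_le xJ
              · exact Eij
              · exact C.J_le (C.J_left _ _ yJ))
            (by
              intro l
              fin_cases l
              · exact hx
              · exact C.toBase.mtJ_all _
              · exact C.toBase.mtJ_left _ hy)
          have h6 : x * C.E a b * (C.E b a * y) = 0 := hfin
          rw [mul_assoc, ← mul_assoc (C.E a b), e1, ← mul_assoc, sx.2.2] at h6
          exact h6
      · have haj : a = j := by
          by_contra haj
          exact haj (h5.1 hai)
        subst haj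
        by_cases hbi : b = i
        · subst hbi
          -- case 3
          have hfin := C.toBase.mt_step hC (Or.inl rfl) (spP1 hij.symm) (k := ![s, 0, t])
            (a := ![x * C.E b a, C.E a b, y])
            (by intro l; fin_cases l <;> simp <;> assumption) (by intro l; fin_cases l <;> simp)
            (fun m hm s' t' h1 h2 h3 x' y' => ihZ m hm.symm _ (by simp) s' t' h1 h2 h3 x' y')
            (by
              intro l
              fin_cases l
              · refine ⟨?_, ?_⟩
                · show C.e a * (x * C.E b a) = x * C.E b a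
                  rw [← mul_assoc, sx.2.1]
                · show x * C.E b a * C.e a = x * C.E b a
                  rw [mul_assoc, C.E_right]
              · exact ⟨C.E_left a b, C.E_right a b⟩
              · exact ⟨sy.2.1, sy.2.2⟩)
            (by
              intro l
              fin_cases l
              · exact C.J_le (C.J_right _ _ xJ)
              · exact Eji
              · exact C.J_le yJ)
            (by
              intro l
              fin_cases l
              · exact C.toBase.mtJ_right _ hx
              · exact C.toBase.mtJ_all _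
              · exact hy)
          have h6 : x * C.E b a * C.E a b * y = 0 := hfin
          rw [mul_assoc x, e1, sx.2.2] at h6
          exact h6
        · -- case 2
          have hbj : b = a := h5.2 hbi
          subst hbj
          have hfin := C.toBase.mt_step hC (Or.inr rfl) (spP2 hij.symm) (k := ![0, s, t])
            (a := ![C.E b i, C.E i b * x, y])
            (by intro l; fin_cases l <;> simp <;> assumption) (by intro l; fin_cases l <;> simp)
            (fun m hm s' t' h1 h2 h3 x' y' => ihZ m hm.symm _ (by simp) s' t' h1 h2 h3 x' y')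
            (by
              intro l
              fin_cases l
              · exact ⟨C.E_left b i, C.E_right b i⟩
              · refine ⟨?_, ?_⟩
                · show C.e i * (C.E i b * x) = C.E i b * x
                  rw [← mul_assoc, C.E_left]
                · show C.E i b * x * C.e i = C.E i b * x
                  rw [mul_assoc, sx.2.2]
              · exact ⟨sy.2.1, sy.2.2⟩)
            (by
              intro l
              fin_cases l
              · exact Eji
              · exact C.J_le (C.J_left _ _ xJ)
              · exact C.J_le yJ)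
            (by
              intro l
              fin_cases l
              · exact C.toBase.mtJ_all _
              · exact C.toBase.mtJ_left _ hx
              · exact hy)
          have h6 : C.E b i * (C.E i b * x) * y = 0 := hfin
          rw [← mul_assoc, e2, sx.2.1] at h6
          exact h6

theorem matA (hC : C.Cub) {i j : Q} (hij : i ≠ j) (hb : C.blk i = C.blk j) {a b : Q} {x y : U}
    (hx : C.S a i x) (hy : C.S i b y) : x * y = 0 :=
  mat_main C hC (2 * C.N) 1 1 le_rfl le_rfl (by omega) i j hij hb a b x y hx hy (C.toBase.mtJ_one hx.1)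
    (C.toBase.mtJ_one hy.1)

end Ctx

end ADM
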