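import Pool.Agent.ADM.MatA

/-!
# ADM-MatB

A product of two radical elements vanishes if one of the three vertices is in a matrix block.

PLAN.  `x : a → b`, `y : b → c`.  If `b` is not `NM`: `matA`.  Let `a` be not `NM`, `a' ≠ a` in its block.  If `b` is in the block of `a`, then `b` is not `NM` (the other one of `a, a'`, or
`a`): `matA`.  Otherwise `b ≠ a, a'`.  Downward induction on the total depth (`J^k` as in VanCore.lean) for all such `a, a', b, c`: `x * y = a₀ * a₁ * a₂` with
`a₀ = E a a'`, `a₁ = E a' a * x`, `a₂ = y`, vertices `a, a', b, c`.  Path words from `a` to `c` containing all letters, different from `[0,1,2]`: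
* `c = b`: `0 1 2^t`, `t ≥ 2`: value `x * y^t`, a product of the same kind and deeper (`y^t ∈ S b b ∩ J^(t·depth)`): 0 by induction;
* `c = a`: `(0 1 2)^s`, `s ≥ 2`: the product of two radical elements at the vertex `a`: 0 by `matA`;
* `c = a'`: `0 (1 2)^s`, `s ≥ 2`: the product of the radical elements `0 1 2 : a → a'` and the rest `a' → a'`: 0 by `matA`;
* other `c`: none.
So the cubic relation (multiplied by `e a`, `e c`) gives `G [0,1,2] • (x y) = 0`, `tors_unit`.
The case that `c` is not `NM` is the mirror image: `a₀ = x`, `a₁ = y * E c c'`, `a₂ = E c' c`, vertices `a, b, c', c`.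
-/

namespace ADM

open AD ADN ADN.Ctx

namespace Ctx

variable {U : Type} [Ring U] {Q : Type} [Fintype Q] (C : Ctx U Q)

private theorem mb_start {W : Type} {src tgt : Fin 3 → W} {a a' b : W} {v : List (Fin 3)}
    (h : a = a') (hp : pth src tgt a v b) : pth src tgt a' v b := h ▸ hp

private theorem mb_end {W : Type} {src tgt : Fin 3 → W} {a b b' : W} {v : List (Fin 3)}
    (h : b = b') (hp : pth src tgt a v b) : pth src tgt a v b' := h ▸ hp

/-- weakly sorted letters (not necessarily in `J`) -/
private def mbW (src tgt : Fin 3 → Q) (r : Fin 3 → U) : Prop :=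
  ∀ k, C.e (src k) * r k = r k ∧ r k * C.e (tgt k) = r k

private theorem mb_ortho {a b : Q} (h : a ≠ b) : C.e a * C.e b = 0 :=
  C.coi.toOrthogonalIdempotents.ortho h

private theorem mb_pth {src tgt : Fin 3 → Q} {r : Fin 3 → U} (hr : C.mbW src tgt r) :
    ∀ (v : List (Fin 3)) (a b : Q), C.e a * (v.map r).prod * C.e b ≠ 0 → pth src tgt a v b := by
  intro v
  induction v with
  | nil =>
    intro a b h
    show a = b
    by_contra hab
    apply h
    rw [List.map_nil, List.prod_nil, mul_one, C.mb_ortho hab]
  | cons k v ih =>
    intro a b h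
    rw [List.map_cons, List.prod_cons] at h
    have h1 : src k = a := by
      by_contra hne
      apply h
      have h2 : C.e a * r k = 0 := by
        rw [← (hr k).1, ← mul_assoc, C.mb_ortho (Ne.symm hne), zero_mul]
      rw [← mul_assoc, h2, zero_mul, zero_mul]
    refine ⟨h1, ih (tgt k) b ?_⟩
    intro h0
    apply h
    have h2 : C.e a * (r k * (v.map r).prod) * C.e b =
        C.e a * r k * (C.e (tgt k) * (v.map r).prod * C.e b) := by
      conv_lhs => rw [← (hr k).2]
      noncomm_ring
    rw [h2, h0, mul_zero]

private theorem mb_sort {src tgt : Fin 3 → Q} {r : Fin 3 → U} (hr : C.mbW src tgt r) :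
    ∀ (v : List (Fin 3)) (a b : Q), v ≠ [] → pth src tgt a v b →
      C.e a * (v.map r).prod = (v.map r).prod ∧ (v.map r).prod * C.e b = (v.map r).prod := by
  intro v
  induction v with
  | nil => intro a b h; exact absurd rfl h
  | cons k v ih =>
    intro a b _ hp
    obtain ⟨h1, h2⟩ := hp
    subst h1
    rw [List.map_cons, List.prod_cons]
    refine ⟨by rw [← mul_assoc, (hr k).1], ?_⟩
    by_cases hv : v = []
    · subst hv
      have h3 : tgt k = b := h2
      rw [List.map_nil, List.prod_nil, mul_one, ← h3]
      exact (hr k).2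
    · rw [mul_assoc, (ih (tgt k) b hv h2).2]

private theorem mb_extract (hC : C.Cub) {src tgt : Fin 3 → Q} {r : Fin 3 → U}
    (hr : C.mbW src tgt r) (hA : ∀ i, r i ∈ C.A)
    (hw : ∀ w : List (Fin 3), (∀ i, i ∈ w) → pth src tgt (src 0) w (tgt 2) → w ≠ [0, 1, 2] →
      (w.map r).prod = 0) : r 0 * r 1 * r 2 = 0 := by
  obtain ⟨G, hG, hp, hG0⟩ := hC
  have h0 := hG0 r hA
  have h1 : (G.sum fun w c => c • (C.e (src 0) * w3 r w * C.e (tgt 2))) = 0 := by
    have h2 : C.e (src 0) * (G.sum fun w c => c • w3 r w) * C.e (tgt 2) = 0 := by rw [h0]; simp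
    rw [Finsupp.sum, Finset.mul_sum, Finset.sum_mul] at h2
    rw [Finsupp.sum, ← h2]
    refine Finset.sum_congr rfl fun w _ => ?_
    rw [mul_smul_comm, smul_mul_assoc]
  have hz0 : ∀ w ∈ G.support, w ≠ [0, 1, 2] → C.e (src 0) * w3 r w * C.e (tgt 2) = 0 := by
    intro w hwG hne
    by_contra hcon
    have hpth := C.mb_pth hr w (src 0) (tgt 2) hcon
    apply hcon
    have h3 : w3 r w = 0 := hw w (hG w hwG) hpth hne
    rw [h3, mul_zero, zero_mul]
  have hs : (G.sum fun w c => c • (C.e (src 0) * w3 r w * C.e (tgt 2))) =
      G [0, 1, 2] • (C.e (src 0) * w3 r [0, 1, 2] * C.e (tgt 2)) := by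
    rw [Finsupp.sum]
    refine Finset.sum_eq_single _ ?_ ?_
    · intro w hwG hne
      rw [hz0 w hwG hne, smul_zero]
    · intro hns
      rw [Finsupp.notMem_support_iff.1 hns, zero_smul]
  rw [hs] at h1
  have hv : C.e (src 0) * w3 r [0, 1, 2] * C.e (tgt 2) = r 0 * r 1 * r 2 := by
    have e1 : w3 r [0, 1, 2] = r 0 * r 1 * r 2 := by
      simp [w3, mul_assoc]
    rw [e1]
    calc C.e (src 0) * (r 0 * r 1 * r 2) * C.e (tgt 2) =
        (C.e (src 0) * r 0) * r 1 * (r 2 * C.e (tgt 2)) := by noncomm_ring
      _ = r 0 * r 1 * r 2 := by rw [(hr 0).1, (hr 2).2]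
  rw [hv] at h1
  have hmem : r 0 * r 1 * r 2 ∈ C.A := by
    rw [mul_assoc]
    exact C.A_right _ _ (hA 0)
  exact C.tors_unit hp hmem h1

private theorem mb_pow {b : Q} {y : U} (hy : C.S b b y) (m : ℕ) : C.S b b (y ^ (m + 1)) := by
  induction m with
  | zero => simpa using hy
  | succ m ih =>
    rw [pow_succ]
    exact C.S_mul ih hy

private theorem mb_nil {y : U} (hy : y ∈ C.J) {m : ℕ} (hm : C.N ≤ m) : y ^ m = 0 := by
  rw [← List.prod_replicate]
  refine C.nil _ (by simpa using hm) fun x hx => ?_
  rw [List.eq_of_mem_replicate hx]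
  exact hy

/-- the case that the first vertex is in a matrix block -/
private theorem mb_left (hC : C.Cub) {a a' b : Q} (haa : a ≠ a') (hblk : C.blk a = C.blk a')
    (hba : b ≠ a) (hba' : b ≠ a') {c : Q} {x y : U} (hx : C.S a b x) (hy : C.S b c y)
    (hbb : c = b → ∀ m : ℕ, 1 ≤ m → x * (y * y ^ m) = 0) : x * y = 0 := by
  have hao : a ≠ C.o := by
    intro h
    have h2 := C.blk_o a' (by rw [← hblk, h])
    exact haa (h.trans h2.symm)
  have hr : C.mbW ![a, a', b] ![a', b, c] ![C.E a a', C.E a' a * x, y] := by
    intro k
    fin_cases k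
    · exact ⟨C.E_left a a', C.E_right a a'⟩
    · refine ⟨?_, ?_⟩
      · show C.e a' * (C.E a' a * x) = C.E a' a * x
        rw [← mul_assoc, C.E_left]
      · show C.E a' a * x * C.e b = C.E a' a * x
        rw [mul_assoc, hx.2.2]
    · exact ⟨hy.2.1, hy.2.2⟩
  have hA : ∀ i, (![C.E a a', C.E a' a * x, y] : Fin 3 → U) i ∈ C.A := by
    intro i
    fin_cases i
    · exact C.E_mem hao a'
    · exact C.A_left _ _ (C.S_mem hx)
    · exact C.S_mem hy
  have hJ1 : C.E a' a * x ∈ C.J := C.J_left _ _ hx.1
  have k0 : ∀ k : Fin 3, (![a, a', b] : Fin 3 → Q) k = a → k = 0 := by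
    intro k hk
    fin_cases k
    · rfl
    · exact absurd hk haa.symm
    · exact absurd hk hba
  have k1 : ∀ k : Fin 3, (![a, a', b] : Fin 3 → Q) k = a' → k = 1 := by
    intro k hk
    fin_cases k
    · exact absurd hk haa
    · rfl
    · exact absurd hk hba'
  have k2 : ∀ k : Fin 3, (![a, a', b] : Fin 3 → Q) k = b → k = 2 := by
    intro k hk
    fin_cases k
    · exact absurd hk hba.symm
    · exact absurd hk hba'.symm
    · rfl
  have hprod : C.E a a' * (C.E a' a * x) * y = x * y := by
    rw [← mul_assoc (C.E a a'), C.E_mul a a' a hblk hblk.symm, C.E_self, hx.2.1]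
  have hfin := C.mb_extract hC hr hA ?_
  · rw [← hprod]
    exact hfin
  · intro w hall hp hne
    cases w with
    | nil => exact absurd (hall 0) (List.not_mem_nil)
    | cons k w =>
      obtain ⟨h1, hp⟩ := hp
      obtain rfl := k0 k h1
      cases w with
      | nil => exact absurd (hall 1) (by decide)
      | cons k w =>
        obtain ⟨h1, hp⟩ := hp
        obtain rfl := k1 k h1
        cases w with
        | nil => exact absurd (hall 2) (by decide)
        | cons k w =>
          obtain ⟨h1, hp⟩ := hp
          obtain rfl := k2 k h1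
          have hpc : pth ![a, a', b] ![a', b, c] c w c := hp
          have hwne : w ≠ [] := by
            rintro rfl
            exact hne rfl
          have hval : ((0 :: 1 :: 2 :: w : List (Fin 3)).map
              (![C.E a a', C.E a' a * x, y] : Fin 3 → U)).prod =
              x * y * (w.map (![C.E a a', C.E a' a * x, y] : Fin 3 → U)).prod := by
            rw [List.map_cons, List.prod_cons, List.map_cons, List.prod_cons, List.map_cons,
              List.prod_cons, ← mul_assoc, ← mul_assoc]
            exact congrArg (· * (w.map (![C.E a a', C.E a' a * x, y] : Fin 3 → U)).prod) hprod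
          rw [hval]
          have hsort := C.mb_sort hr w c c hwne hpc
          have hxy : C.S a c (x * y) := C.S_mul hx hy
          cases w with
          | nil => exact absurd rfl hwne
          | cons k w =>
            obtain ⟨h1, hp⟩ := hpc
            have hkk : k = 0 ∨ k = 1 ∨ k = 2 := by
              fin_cases k <;> simp
            rcases hkk with rfl | rfl | rfl
            · have hac : a = c := h1
              subst hac
              cases w with
              | nil =>
                have h3 : a' = a := hp
                exact absurd h3 haa.symm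
              | cons k w =>
                obtain ⟨h1', hp'⟩ := hp
                obtain rfl := k1 k h1'
                refine C.matA hC haa hblk hxy ⟨?_, hsort⟩
                rw [List.map_cons, List.prod_cons, List.map_cons, List.prod_cons]
                exact C.J_left _ _ (C.J_right _ _ hJ1)
            · have hac : a' = c := h1
              subst hac
              refine C.matA hC haa.symm hblk.symm hxy ⟨?_, hsort⟩
              rw [List.map_cons, List.prod_cons]
              exact C.J_right _ _ hJ1
            · have hbc : b = c := h1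
              have hpow : ∀ v : List (Fin 3), pth ![a, a', b] ![a', b, c] b v b →
                  (v.map (![C.E a a', C.E a' a * x, y] : Fin 3 → U)).prod = y ^ v.length := by
                intro v
                induction v with
                | nil => intro _; simp
                | cons k v ih =>
                  intro hv
                  obtain ⟨h4, h5⟩ := hv
                  obtain rfl := k2 k h4
                  have h6 : pth ![a, a', b] ![a', b, c] b v b := by
                    have h7 : pth ![a, a', b] ![a', b, c] c v b := h5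
                    exact mb_start hbc.symm h7
                  rw [List.map_cons, List.prod_cons, ih h6, List.length_cons, pow_succ']
                  rfl
              have hp8 : pth ![a, a', b] ![a', b, c] b (2 :: w) b := by
                refine ⟨rfl, ?_⟩
                have h7 : pth ![a, a', b] ![a', b, c] c w c := hp
                exact mb_end hbc.symm h7
              rw [hpow _ hp8, mul_assoc]
              exact hbb hbc.symm _ (by simp)

/-- the case that the last vertex is in a matrix block -/
private theorem mb_last {W : Type} {src tgt : Fin 3 → W} {a b : W} {w : List (Fin 3)}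
    (hw : w ≠ []) (h : pth src tgt a w b) :
    ∃ w' k, w = w' ++ [k] ∧ pth src tgt a w' (src k) ∧ tgt k = b := by
  rcases List.eq_nil_or_concat w with h0 | ⟨w', k, rfl⟩
  · exact absurd h0 hw
  · rw [List.concat_eq_append] at h ⊢
    obtain ⟨m, h1, h2⟩ := (Base.pth_append w' [k] a b).1 h
    obtain ⟨h3, h4⟩ := h2
    exact ⟨w', k, rfl, by rw [h3]; exact h1, h4⟩

private theorem mb_right (hC : C.Cub) {b c c' : Q} (hcc : c ≠ c') (hblk : C.blk c = C.blk c')
    (hbc : b ≠ c) (hbc' : b ≠ c') {a : Q} {x y : U} (hx : C.S a b x) (hy : C.S b c y)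
    (hbb : a = b → ∀ m : ℕ, 1 ≤ m → x ^ m * x * y = 0) : x * y = 0 := by
  have hco : c' ≠ C.o := by
    intro h
    have h2 := C.blk_o c (by rw [hblk, h])
    exact hcc (h2.trans h.symm)
  have hr : C.mbW ![a, b, c'] ![b, c', c] ![x, y * C.E c c', C.E c' c] := by
    intro k
    fin_cases k
    · exact ⟨hx.2.1, hx.2.2⟩
    · refine ⟨?_, ?_⟩
      · show C.e b * (y * C.E c c') = y * C.E c c'
        rw [← mul_assoc, hy.2.1]
      · show y * C.E c c' * C.e c' = y * C.E c c'
        rw [mul_assoc, C.E_right]
    · exact ⟨C.E_left c' c, C.E_right c' c⟩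
  have hA : ∀ i, (![x, y * C.E c c', C.E c' c] : Fin 3 → U) i ∈ C.A := by
    intro i
    fin_cases i
    · exact C.S_mem hx
    · exact C.A_right _ _ (C.S_mem hy)
    · exact C.E_mem hco c
  have hJ1 : y * C.E c c' ∈ C.J := C.J_right _ _ hy.1
  have k0 : ∀ k : Fin 3, (![b, c', c] : Fin 3 → Q) k = b → k = 0 := by
    intro k hk
    fin_cases k
    · rfl
    · exact absurd hk hbc'.symm
    · exact absurd hk hbc.symm
  have k1 : ∀ k : Fin 3, (![b, c', c] : Fin 3 → Q) k = c' → k = 1 := by
    intro k hk
    fin_cases k
    · exact absurd hk hbc'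
    · rfl
    · exact absurd hk hcc
  have k2 : ∀ k : Fin 3, (![b, c', c] : Fin 3 → Q) k = c → k = 2 := by
    intro k hk
    fin_cases k
    · exact absurd hk hbc
    · exact absurd hk hcc.symm
    · rfl
  have hprod : x * (y * C.E c c') * C.E c' c = x * y := by
    rw [mul_assoc, mul_assoc y, C.E_mul c c' c hblk hblk.symm, C.E_self, hy.2.2]
  have hfin := C.mb_extract hC hr hA ?_
  · rw [← hprod]
    exact hfin
  · intro w hall hp hne
    obtain ⟨w, k, rfl, hp, ht⟩ := mb_last (fun h => by
      have := hall 0
      rw [h] at this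
      exact absurd this (List.not_mem_nil)) hp
    obtain rfl := k2 k ht
    obtain ⟨w, k, rfl, hp, ht⟩ := mb_last (fun h => by
      have := hall 0
      rw [h] at this
      exact absurd this (by decide)) hp
    obtain rfl := k1 k ht
    obtain ⟨w, k, rfl, hp, ht⟩ := mb_last (fun h => by
      have := hall 0
      rw [h] at this
      exact absurd this (by decide)) hp
    obtain rfl := k0 k ht
    have hpa : pth ![a, b, c'] ![b, c', c] a w a := hp
    have hwne : w ≠ [] := by
      rintro rfl
      exact hne rfl
    have hval : ((w ++ [0] ++ [1] ++ [2] : List (Fin 3)).map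
        (![x, y * C.E c c', C.E c' c] : Fin 3 → U)).prod =
        (w.map (![x, y * C.E c c', C.E c' c] : Fin 3 → U)).prod * (x * y) := by
      rw [← hprod]
      simp [List.map_append, List.prod_append, mul_assoc]
    rw [hval]
    have hsort := C.mb_sort hr w a a hwne hpa
    have hxy : C.S a c (x * y) := C.S_mul hx hy
    obtain ⟨w', k, rfl, hp, ht⟩ := mb_last hwne hpa
    have hkk : k = 0 ∨ k = 1 ∨ k = 2 := by
      fin_cases k <;> simp
    rcases hkk with rfl | rfl | rfl
    · have hab : b = a := ht
      have hpow : ∀ v : List (Fin 3), pth ![a, b, c'] ![b, c', c] b v b →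
          (v.map (![x, y * C.E c c', C.E c' c] : Fin 3 → U)).prod = x ^ v.length := by
        intro v
        induction v using List.reverseRecOn with
        | nil => intro _; simp
        | append_singleton v k ih =>
          intro hv
          obtain ⟨v', k', hvk, h4, h5⟩ := mb_last (by simp) hv
          obtain ⟨rfl, h6⟩ := List.append_inj' hvk rfl
          have h7 : k = k' := by simpa using h6
          subst h7
          obtain rfl := k0 k h5
          have h8 : pth ![a, b, c'] ![b, c', c] b v b := by
            have h9 : pth ![a, b, c'] ![b, c', c] b v a := h4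
            exact mb_end hab.symm h9
          rw [List.map_append, List.prod_append, ih h8, List.length_append, List.length_singleton,
            pow_succ]
          simp
      have hp8 : pth ![a, b, c'] ![b, c', c] b (w' ++ [0]) b := by
        rw [Base.pth_append]
        refine ⟨b, ?_, ?_, rfl⟩
        · have h9 : pth ![a, b, c'] ![b, c', c] a w' a := hp
          exact mb_start hab.symm (mb_end hab.symm h9)
        · exact hab.symm
      rw [hpow _ hp8, ← mul_assoc]
      exact hbb hab.symm _ (by simp)
    · have hac : c' = a := ht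
      subst hac
      refine C.matA hC hcc.symm hblk.symm ⟨?_, hsort⟩ hxy
      rw [List.map_append, List.prod_append]
      refine C.J_left _ _ ?_
      simpa using hJ1
    · have hac : c = a := ht
      subst hac
      have hw'ne : w' ≠ [] := by
        rintro rfl
        have h3 : c = c' := hp
        exact hcc h3
      obtain ⟨w'', k, rfl, hp', ht'⟩ := mb_last hw'ne hp
      obtain rfl := k1 k ht'
      refine C.matA hC hcc hblk ⟨?_, hsort⟩ hxy
      rw [List.map_append, List.prod_append, List.map_append, List.prod_append]
      refine C.J_right _ _ (C.J_left _ _ ?_)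
      simpa using hJ1

private theorem mb_left' (hC : C.Cub) {a a' b : Q} (haa : a ≠ a') (hblk : C.blk a = C.blk a')
    (hba : b ≠ a) (hba' : b ≠ a') {c : Q} {x y : U} (hx : C.S a b x) (hy : C.S b c y) :
    x * y = 0 := by
  by_cases hcb : c = b
  · subst hcb
    have key : ∀ n m : ℕ, C.N ≤ (m + 1) + n → x * y ^ (m + 1) = 0 := by
      intro n
      induction n with
      | zero =>
        intro m hm
        rw [C.mb_nil hy.1 (by omega), mul_zero]
      | succ n ih =>
        intro m hm
        refine C.mb_left hC haa hblk hba hba' hx (C.mb_pow hy m) fun _ k hk => ?_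
        have e1 : y ^ (m + 1) * (y ^ (m + 1)) ^ k = y ^ ((m + (m + 1) * k) + 1) := by
          rw [← pow_mul, ← pow_add]
          congr 1
          ring
        rw [e1]
        refine ih _ ?_
        have : 1 ≤ (m + 1) * k := Nat.one_le_iff_ne_zero.2 (by positivity)
        omega
    simpa using key C.N 0 (by omega)
  · exact C.mb_left hC haa hblk hba hba' hx hy fun h => absurd h hcb

private theorem mb_right' (hC : C.Cub) {b c c' : Q} (hcc : c ≠ c') (hblk : C.blk c = C.blk c')
    (hbc : b ≠ c) (hbc' : b ≠ c') {a : Q} {x y : U} (hx : C.S a b x) (hy : C.S b c y) :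
    x * y = 0 := by
  by_cases hab : a = b
  · subst hab
    have key : ∀ n m : ℕ, C.N ≤ (m + 1) + n → x ^ (m + 1) * y = 0 := by
      intro n
      induction n with
      | zero =>
        intro m hm
        rw [C.mb_nil hx.1 (by omega), zero_mul]
      | succ n ih =>
        intro m hm
        refine C.mb_right hC hcc hblk hbc hbc' (C.mb_pow hx m) hy fun _ k hk => ?_
        have e1 : (x ^ (m + 1)) ^ k * x ^ (m + 1) = x ^ ((m + (m + 1) * k) + 1) := by
          rw [← pow_mul, ← pow_add]
          congr 1
          ring
        rw [e1]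
        refine ih _ ?_
        have : 1 ≤ (m + 1) * k := Nat.one_le_iff_ne_zero.2 (by positivity)
        omega
    simpa using key C.N 0 (by omega)
  · exact C.mb_right hC hcc hblk hbc hbc' hx hy fun h => absurd h hab

private theorem mb_notNM {i : Q} (h : ¬ C.NM i) : ∃ j, i ≠ j ∧ C.blk i = C.blk j := by
  unfold NM at h
  push Not at h
  obtain ⟨j, h1, h2⟩ := h
  exact ⟨j, h2.symm, h1.symm⟩

theorem matB (hC : C.Cub) {a b c : Q} (h : ¬ C.NM a ∨ ¬ C.NM b ∨ ¬ C.NM c) {x y : U}
    (hx : C.S a b x) (hy : C.S b c y) : x * y = 0 := by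
  by_cases hb : C.NM b
  · have hne : ∀ i j : Q, i ≠ j → C.blk i = C.blk j → b ≠ i := by
      rintro i j hij hbl rfl
      exact hij (hb j hbl.symm).symm
    rcases h with h | h | h
    · obtain ⟨a', h1, h2⟩ := C.mb_notNM h
      exact C.mb_left' hC h1 h2 (hne a a' h1 h2) (hne a' a h1.symm h2.symm) hx hy
    · exact absurd hb h
    · obtain ⟨c', h1, h2⟩ := C.mb_notNM h
      exact C.mb_right' hC h1 h2 (hne c c' h1 h2) (hne c' c h1.symm h2.symm) hx hy
  · obtain ⟨j, h1, h2⟩ := C.mb_notNM hb
    exact C.matA hC h1 h2 hx hy

end Ctx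

end ADM
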