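import Pool.Agent.ADM.Wsep

/-!
# ADM-Na

Rewriting of a product of three homogeneous loops.

For a relation `G` the part `G.filter (Ew [0,1,2])` vanishes on homogeneous loops (`sepw`, `na_val`). `na_coinc`: which of the
permutations of `[0,1,2]` have the same weights. `na_gen`: the combination
`single [0,1,2] 1 - G.filter (Ew [0,1,2]) + single w1 z0`. The relation `G` is chosen according to the coincidence.
-/

namespace ADM

open AD ADN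

namespace Ctx

variable {U : Type} [Ring U] {Q : Type} [Fintype Q] (C : Ctx U Q)

private theorem na_wt (p : ℕ) (σ : Fin 3 → ℕ) {i j k : Fin 3} (hij : i ≠ j) (hik : i ≠ k) (hjk : j ≠ k) :
    wt p σ [i, j, k] i = 1 ∧ wt p σ [i, j, k] j = p ^ σ i ∧ wt p σ [i, j, k] k = p ^ (σ i + σ j) := by
  refine ⟨?_, ?_, ?_⟩
  · simp [wt, hij.symm, hik.symm]
  · simp [wt, hij, hjk.symm]
  · simp [wt, hik, hjk, pow_add]

private theorem na_dvd {r s t : ℕ} (h : s ≡ s + t [MOD r]) : r ∣ t := by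
  have h1 : s + 0 ≡ s + t [MOD r] := by rwa [add_zero]
  exact Nat.modEq_zero_iff_dvd.1 (Nat.ModEq.add_left_cancel' s h1).symm

/-- which permutations of `[0,1,2]` have the same weights -/
private theorem na_coinc {a : Q} (ha : 2 ≤ C.r a) (σ : Fin 3 → ℕ) :
    (C.Ew a σ [0, 1, 2] [1, 0, 2] → C.r a ∣ σ 0 ∧ C.r a ∣ σ 1) ∧
    (C.Ew a σ [0, 1, 2] [0, 2, 1] → C.r a ∣ σ 1 ∧ C.r a ∣ σ 2) ∧
    (C.Ew a σ [0, 1, 2] [2, 1, 0] → C.r a ∣ σ 0 + σ 1 ∧ C.r a ∣ σ 1 + σ 2) ∧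
    (C.Ew a σ [0, 1, 2] [2, 0, 1] → C.r a ∣ σ 0 + σ 1 ∧ C.r a ∣ σ 2) ∧
    (C.Ew a σ [0, 1, 2] [1, 2, 0] → C.r a ∣ σ 0 ∧ C.r a ∣ σ 1 + σ 2) := by
  have hone : ∀ s, C.p ^ s ≡ 1 [MOD C.n a] → C.r a ∣ s := by
    intro s h
    rw [C.n_eq ha] at h
    exact (pow_modEq_one_iff C.hp ha s).1 h
  have hiff : ∀ s t, C.p ^ s ≡ C.p ^ t [MOD C.n a] → s ≡ t [MOD C.r a] := by
    intro s t h
    rw [C.n_eq ha] at h
    exact (pow_modEq_iff C.hp ha s t).1 h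
  obtain ⟨a0, a1, a2⟩ := na_wt C.p σ (i := 0) (j := 1) (k := 2) (by decide) (by decide) (by decide)
  refine ⟨?_, ?_, ?_, ?_, ?_⟩
  · rintro ⟨h, -⟩
    obtain ⟨b0, b1, b2⟩ := na_wt C.p σ (i := 1) (j := 0) (k := 2) (by decide) (by decide) (by decide)
    have h0 := h 0
    have h1 := h 1
    rw [a0, b1] at h0
    rw [a1, b0] at h1
    exact ⟨hone _ h1, hone _ h0.symm⟩
  · rintro ⟨h, -⟩
    obtain ⟨b0, b1, b2⟩ := na_wt C.p σ (i := 0) (j := 2) (k := 1) (by decide) (by decide) (by decide)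
    have h1 := h 1
    have h2 := h 2
    rw [a1, b2] at h1
    rw [a2, b1] at h2
    exact ⟨na_dvd (hiff _ _ h2).symm, na_dvd (hiff _ _ h1)⟩
  · rintro ⟨h, -⟩
    obtain ⟨b0, b1, b2⟩ := na_wt C.p σ (i := 2) (j := 1) (k := 0) (by decide) (by decide) (by decide)
    have h0 := h 0
    have h2 := h 2
    rw [a0, b2] at h0
    rw [a2, b0] at h2
    exact ⟨hone _ h2, by rw [add_comm]; exact hone _ h0.symm⟩
  · rintro ⟨h, -⟩
    obtain ⟨b0, b1, b2⟩ := na_wt C.p σ (i := 2) (j := 0) (k := 1) (by decide) (by decide) (by decide)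
    have h0 := h 0
    have h2 := h 2
    rw [a0, b1] at h0
    rw [a2, b0] at h2
    exact ⟨hone _ h2, hone _ h0.symm⟩
  · rintro ⟨h, -⟩
    obtain ⟨b0, b1, b2⟩ := na_wt C.p σ (i := 1) (j := 2) (k := 0) (by decide) (by decide) (by decide)
    have h0 := h 0
    have h1 := h 1
    rw [a0, b2] at h0
    rw [a1, b0] at h1
    exact ⟨hone _ h1, hone _ h0.symm⟩

private theorem na_excl {D0 D1 D2 D01 D12 : Prop} (d1 : D0 → D01 → D1) (d2 : D1 → D01 → D0)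
    (d3 : D1 → D12 → D2) (d4 : D2 → D12 → D1) (h : ¬ (D0 ∧ D1 ∧ D2)) :
    (D0 ∧ D1 → D1 ∧ D2 → False) ∧ (D0 ∧ D1 → D01 ∧ D12 → False) ∧ (D0 ∧ D1 → D01 ∧ D2 → False) ∧
    (D0 ∧ D1 → D0 ∧ D12 → False) ∧ (D1 ∧ D2 → D01 ∧ D12 → False) ∧ (D1 ∧ D2 → D01 ∧ D2 → False) ∧
    (D1 ∧ D2 → D0 ∧ D12 → False) ∧ (D01 ∧ D12 → D01 ∧ D2 → False) ∧ (D01 ∧ D12 → D0 ∧ D12 → False) ∧
    (D01 ∧ D2 → D0 ∧ D12 → False) := by
  refine ⟨?_, ?_, ?_, ?_, ?_, ?_, ?_, ?_, ?_, ?_⟩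
  · rintro ⟨a, b⟩ ⟨_, c⟩; exact h ⟨a, b, c⟩
  · rintro ⟨a, b⟩ ⟨_, c⟩; exact h ⟨a, b, d3 b c⟩
  · rintro ⟨a, b⟩ ⟨_, c⟩; exact h ⟨a, b, c⟩
  · rintro ⟨a, b⟩ ⟨_, c⟩; exact h ⟨a, b, d3 b c⟩
  · rintro ⟨a, b⟩ ⟨c, _⟩; exact h ⟨d2 a c, a, b⟩
  · rintro ⟨a, b⟩ ⟨c, _⟩; exact h ⟨d2 a c, a, b⟩
  · rintro ⟨a, b⟩ ⟨c, _⟩; exact h ⟨c, a, b⟩
  · rintro ⟨a, b⟩ ⟨_, c⟩; exact h ⟨d2 (d4 c b) a, d4 c b, c⟩
  · rintro ⟨a, b⟩ ⟨c, _⟩; exact h ⟨c, d1 c a, d3 (d1 c a) b⟩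
  · rintro ⟨a, b⟩ ⟨c, _⟩; exact h ⟨c, d1 c a, b⟩

private theorem na_perm (w : List (Fin 3)) (hl : w.length = 3) (h : ∀ i, i ∈ w) :
    w = [0, 1, 2] ∨ w = [1, 0, 2] ∨ w = [0, 2, 1] ∨ w = [2, 1, 0] ∨ w = [2, 0, 1] ∨ w = [1, 2, 0] := by
  match w, hl with
  | [i, j, k], _ =>
    revert i j k
    decide

private theorem na_len (w : List (Fin 3)) (h : ∀ i, i ∈ w) : 3 ≤ w.length := by
  have h1 : w.toFinset = Finset.univ := by
    ext i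
    simp [h i]
  have h2 := List.toFinset_card_le w
  rw [h1, Finset.card_univ, Fintype.card_fin] at h2
  exact h2

private theorem na_mem {a : Q} {σ : Fin 3 → ℕ} {x : Fin 3 → U} (hx : C.LHom a σ x) (i : Fin 3) : x i ∈ C.A :=
  C.J_le (hx i).1.1

private theorem na_val0 {a : Q} {σ : Fin 3 → ℕ} {G : List (Fin 3) →₀ ℤ} (hG : C.Rl G) {x : Fin 3 → U}
    (hx : C.LHom a σ x) : C.val x a G = 0 := by
  have h1 := hG.2 x (na_mem C hx)
  have h2 : C.val x a G = C.e a * G.sum fun w c => c • w3 x w := by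
    unfold Base.val Base.wv
    rw [Finsupp.sum, Finsupp.sum, Finset.mul_sum]
    refine Finset.sum_congr rfl fun w _ => ?_
    rw [mul_smul_comm]
    rfl
  rw [h2, h1, mul_zero]

private theorem na_val_add (x : Fin 3 → U) (a : Q) (c d : List (Fin 3) →₀ ℤ) :
    C.val x a (c + d) = C.val x a c + C.val x a d := by
  unfold Base.val
  exact Finsupp.sum_add_index' (fun _ => zero_smul _ _) (fun _ _ _ => add_smul _ _ _)

private theorem na_val_sub (x : Fin 3 → U) (a : Q) (c d : List (Fin 3) →₀ ℤ) :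
    C.val x a (c - d) = C.val x a c - C.val x a d := by
  have h := na_val_add C x a (c - d) d
  rw [sub_add_cancel] at h
  rw [h, add_sub_cancel_right]

private theorem na_val_single (x : Fin 3 → U) (a : Q) (w : List (Fin 3)) (z : ℤ) :
    C.val x a (Finsupp.single w z) = z • C.wv x a w := by
  unfold Base.val
  exact Finsupp.sum_single_index (zero_smul _ _)

open scoped Classical in
private theorem na_gen {a : Q} (ha : 2 ≤ C.r a) (σ : Fin 3 → ℕ) {G : List (Fin 3) →₀ ℤ} (hG : C.Rl G)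
    (z0 : ℤ) (w1 : List (Fin 3)) (hw1 : ∀ i, i ∈ w1) (hE : z0 ≠ 0 → C.Ew a σ [0, 1, 2] w1)
    (h : ∀ w : List (Fin 3), w.length = 3 → (∀ i, i ∈ w) → C.Ew a σ [0, 1, 2] w →
      (C.p : ℤ) ∣ (Finsupp.single [0, 1, 2] (1 : ℤ)) w - G w + (Finsupp.single w1 z0) w) :
    ∃ c : List (Fin 3) →₀ ℤ, (∀ w ∈ c.support, (∀ i, i ∈ w) ∧ C.Ew a σ [0, 1, 2] w ∧
        (4 ≤ w.length ∨ (C.p : ℤ) ∣ c w)) ∧
      ∀ x : Fin 3 → U, C.LHom a σ x → x 0 * x 1 * x 2 = (-z0) • (w1.map x).prod + C.val x a c := by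
  have hrefl : C.Ew a σ [0, 1, 2] [0, 1, 2] := ⟨fun k => Nat.ModEq.refl _, Nat.ModEq.refl _⟩
  have h012 : ∀ i : Fin 3, i ∈ ([0, 1, 2] : List (Fin 3)) := by decide
  refine ⟨Finsupp.single [0, 1, 2] (1 : ℤ) - G.filter (fun v => C.Ew a σ [0, 1, 2] v) +
    Finsupp.single w1 z0, ?_, ?_⟩
  · intro w hw
    have hw' : (Finsupp.single [0, 1, 2] (1 : ℤ)) w ≠ 0 ∨
        (G.filter (fun v => C.Ew a σ [0, 1, 2] v)) w ≠ 0 ∨ (Finsupp.single w1 z0) w ≠ 0 := by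
      by_contra hc
      push Not at hc
      rw [Finsupp.mem_support_iff, Finsupp.add_apply, Finsupp.sub_apply, hc.1, hc.2.1, hc.2.2] at hw
      exact hw (by norm_num)
    have hmem : (∀ i, i ∈ w) ∧ C.Ew a σ [0, 1, 2] w := by
      rcases hw' with h1 | h1 | h1
      · by_cases h2 : [0, 1, 2] = w
        · rw [← h2]
          exact ⟨h012, hrefl⟩
        · rw [Finsupp.single_eq_of_ne (fun h3 => h2 h3.symm)] at h1
          exact absurd rfl h1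
      · by_cases h2 : C.Ew a σ [0, 1, 2] w
        · rw [Finsupp.filter_apply_pos _ _ h2] at h1
          exact ⟨hG.1 w (Finsupp.mem_support_iff.2 h1), h2⟩
        · rw [Finsupp.filter_apply_neg _ _ h2] at h1
          exact absurd rfl h1
      · by_cases h2 : w1 = w
        · rw [← h2] at h1 ⊢
          rw [Finsupp.single_eq_same] at h1
          exact ⟨hw1, hE h1⟩
        · rw [Finsupp.single_eq_of_ne (fun h3 => h2 h3.symm)] at h1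
          exact absurd rfl h1
    refine ⟨hmem.1, hmem.2, ?_⟩
    by_cases h4 : 4 ≤ w.length
    · exact Or.inl h4
    · right
      have h3 := na_len w hmem.1
      have h5 := h w (by omega) hmem.1 hmem.2
      rw [Finsupp.add_apply, Finsupp.sub_apply, Finsupp.filter_apply_pos _ _ hmem.2]
      exact h5
  · intro x hx
    have hsep := C.sepw ha σ ⊥ (fun u x hx => by
        rw [AddSubgroup.mem_bot] at hx ⊢
        rw [hx, mul_zero]) (fun u x hx => by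
        rw [AddSubgroup.mem_bot] at hx ⊢
        rw [hx, zero_mul]) G (fun r hr => by
        rw [AddSubgroup.mem_bot]
        exact na_val0 C hG hr) [0, 1, 2] x hx
    rw [AddSubgroup.mem_bot] at hsep
    have hw1' : w1 ≠ [] := by
      rintro rfl
      exact absurd (hw1 0) List.not_mem_nil
    rw [na_val_add, na_val_sub, hsep, na_val_single, na_val_single, C.hom_wv hx hw1',
      C.hom_wv hx (List.cons_ne_nil _ _), sub_zero, one_smul, neg_smul]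
    simp [mul_assoc]

private theorem na_scale (hC : C.Cub) : ∃ G, C.Rl G ∧ (C.p : ℤ) ∣ G [0, 1, 2] - 1 := by
  obtain ⟨G, h1, h2, h3⟩ := hC
  have hp : Prime (C.p : ℤ) := Nat.prime_iff_prime_int.1 C.hp
  obtain ⟨u, v, huv⟩ := (hp.irreducible.coprime_iff_not_dvd).2 h2
  refine ⟨v • G, ⟨?_, ?_⟩, ?_⟩
  · intro w hw
    exact h1 w (Finsupp.support_smul hw)
  · intro x hx
    have h4 : ((v • G).sum fun w c => c • w3 x w) = v • (G.sum fun w c => c • w3 x w) := by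
      rw [Finsupp.sum_smul_index (g := G) (b := v) (h := fun w c => c • w3 x w) (fun _ => zero_smul _ _),
        Finsupp.smul_sum]
      exact Finset.sum_congr rfl fun w _ => mul_smul _ _ _
    rw [h4, h3 x hx, smul_zero]
  · refine ⟨-u, ?_⟩
    rw [Finsupp.smul_apply, smul_eq_mul]
    linarith

private theorem na_no (G : List (Fin 3) →₀ ℤ) (w1 w : List (Fin 3)) (z0 : ℤ) (hw : [0, 1, 2] ≠ w) (hw1 : w1 ≠ w) :
    (Finsupp.single [0, 1, 2] (1 : ℤ)) w - G w + (Finsupp.single w1 z0) w = - G w := by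
  rw [Finsupp.single_eq_of_ne (fun h => hw h.symm), Finsupp.single_eq_of_ne (fun h => hw1 h.symm)]
  ring

private theorem na_main {a : Q} (ha : 2 ≤ C.r a) (σ : Fin 3 → ℕ) {G : List (Fin 3) →₀ ℤ} (hG : C.Rl G)
    (h012 : (C.p : ℤ) ∣ G [0, 1, 2] - 1)
    (g1 : C.Ew a σ [0, 1, 2] [1, 0, 2] → (C.p : ℤ) ∣ G [1, 0, 2])
    (g2 : C.Ew a σ [0, 1, 2] [0, 2, 1] → (C.p : ℤ) ∣ G [0, 2, 1])
    (g3 : C.Ew a σ [0, 1, 2] [2, 1, 0] → (C.p : ℤ) ∣ G [2, 1, 0])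
    (g4 : C.Ew a σ [0, 1, 2] [2, 0, 1] → (C.p : ℤ) ∣ G [2, 0, 1])
    (g5 : C.Ew a σ [0, 1, 2] [1, 2, 0] → (C.p : ℤ) ∣ G [1, 2, 0]) :
    ∃ c : List (Fin 3) →₀ ℤ, (∀ w ∈ c.support, (∀ i, i ∈ w) ∧ C.Ew a σ [0, 1, 2] w ∧
        (4 ≤ w.length ∨ (C.p : ℤ) ∣ c w)) ∧
      ∀ x : Fin 3 → U, C.LHom a σ x → x 0 * x 1 * x 2 = C.val x a c := by
  obtain ⟨c, h1, h2⟩ := na_gen C ha σ hG 0 [0, 1, 2] (by decide) (fun h => absurd rfl h) (by
    intro w hl hw hE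
    have e : (Finsupp.single ([0, 1, 2] : List (Fin 3)) (0 : ℤ)) w = 0 := by simp
    rw [e, add_zero]
    rcases na_perm w hl hw with rfl | rfl | rfl | rfl | rfl | rfl
    · rw [Finsupp.single_eq_same]
      have := (dvd_neg (a := (C.p : ℤ))).2 h012
      rwa [neg_sub] at this
    · rw [Finsupp.single_eq_of_ne (by decide), zero_sub]
      exact dvd_neg.2 (g1 hE)
    · rw [Finsupp.single_eq_of_ne (by decide), zero_sub]
      exact dvd_neg.2 (g2 hE)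
    · rw [Finsupp.single_eq_of_ne (by decide), zero_sub]
      exact dvd_neg.2 (g3 hE)
    · rw [Finsupp.single_eq_of_ne (by decide), zero_sub]
      exact dvd_neg.2 (g4 hE)
    · rw [Finsupp.single_eq_of_ne (by decide), zero_sub]
      exact dvd_neg.2 (g5 hE))
  refine ⟨c, h1, fun x hx => ?_⟩
  rw [h2 x hx, neg_zero, zero_smul, zero_add]

open scoped Classical in
/-- one coincidence `w1` is left -/
private theorem na_one {a : Q} (ha : 2 ≤ C.r a) (σ : Fin 3 → ℕ) {G : List (Fin 3) →₀ ℤ} (hG : C.Rl G)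
    (h012 : (C.p : ℤ) ∣ G [0, 1, 2] - 1) (w1 : List (Fin 3)) (hw1 : ∀ i, i ∈ w1) (hne : w1 ≠ [0, 1, 2])
    (h : ∀ w : List (Fin 3), w.length = 3 → (∀ i, i ∈ w) → C.Ew a σ [0, 1, 2] w → w ≠ [0, 1, 2] → w = w1) :
    ∃ (z : ℤ) (c : List (Fin 3) →₀ ℤ), (∀ w ∈ c.support, (∀ i, i ∈ w) ∧ C.Ew a σ [0, 1, 2] w ∧
        (4 ≤ w.length ∨ (C.p : ℤ) ∣ c w)) ∧
      ∀ x : Fin 3 → U, C.LHom a σ x → x 0 * x 1 * x 2 = z • (w1.map x).prod + C.val x a c := by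
  obtain ⟨c, h1, h2⟩ := na_gen C ha σ hG (if C.Ew a σ [0, 1, 2] w1 then G w1 else 0) w1 hw1 (by
    intro h3
    by_contra h4
    rw [if_neg h4] at h3
    exact h3 rfl) (by
    intro w hl hw hE
    by_cases h3 : w = [0, 1, 2]
    · rw [h3, Finsupp.single_eq_same, Finsupp.single_eq_of_ne (fun h4 => hne h4.symm), add_zero]
      have := (dvd_neg (a := (C.p : ℤ))).2 h012
      rwa [neg_sub] at this
    · have h4 := h w hl hw hE h3
      subst h4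
      rw [if_pos hE, Finsupp.single_eq_same, Finsupp.single_eq_of_ne h3, zero_sub, neg_add_cancel]
      exact dvd_zero _)
  exact ⟨_, c, h1, h2⟩

theorem na (hC : C.Cub) {a : Q} (ha : 2 ≤ C.r a) (σ : Fin 3 → ℕ) (hσ : ¬ ∀ i, C.r a ∣ σ i)
    (hL : C.r a ∣ σ 0 → C.r a ∣ σ 1 → Off C.Rl C.p [1, 0, 2])
    (hR : C.r a ∣ σ 1 → C.r a ∣ σ 2 → Off C.Rl C.p [0, 2, 1])
    (hM : C.r a ∣ σ 0 + σ 1 → C.r a ∣ σ 1 + σ 2 → Off C.Rl C.p [2, 1, 0])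
    (hT : C.r a ∣ σ 0 + σ 1 → C.r a ∣ σ 2 → Off C.Rl C.p [2, 0, 1])
    (hT' : C.r a ∣ σ 0 → C.r a ∣ σ 1 + σ 2 → Off C.Rl C.p [1, 2, 0]) :
    ∃ c : List (Fin 3) →₀ ℤ, (∀ w ∈ c.support, (∀ i, i ∈ w) ∧ C.Ew a σ [0, 1, 2] w ∧
        (4 ≤ w.length ∨ (C.p : ℤ) ∣ c w)) ∧
      ∀ x : Fin 3 → U, C.LHom a σ x → x 0 * x 1 * x 2 = C.val x a c := by
  obtain ⟨k1, k2, k3, k4, k5⟩ := na_coinc C ha σ
  have hσ' : ¬ (C.r a ∣ σ 0 ∧ C.r a ∣ σ 1 ∧ C.r a ∣ σ 2) := by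
    rintro ⟨h0, h1, h2⟩
    apply hσ
    intro i
    fin_cases i
    · exact h0
    · exact h1
    · exact h2
  obtain ⟨x12, x13, x14, x15, x23, x24, x25, x34, x35, x45⟩ :=
    na_excl (D0 := C.r a ∣ σ 0) (D1 := C.r a ∣ σ 1) (D2 := C.r a ∣ σ 2) (D01 := C.r a ∣ σ 0 + σ 1)
      (D12 := C.r a ∣ σ 1 + σ 2) (fun h h' => (Nat.dvd_add_right h).1 h')
      (fun h h' => (Nat.dvd_add_left h).1 h') (fun h h' => (Nat.dvd_add_right h).1 h')
      (fun h h' => (Nat.dvd_add_left h).1 h') hσ'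
  by_cases p1 : C.r a ∣ σ 0 ∧ C.r a ∣ σ 1
  · obtain ⟨G, hG, h012, hw⟩ := hL p1.1 p1.2
    exact na_main C ha σ hG h012 (fun _ => hw) (fun h => (x12 p1 (k2 h)).elim)
      (fun h => (x13 p1 (k3 h)).elim) (fun h => (x14 p1 (k4 h)).elim) (fun h => (x15 p1 (k5 h)).elim)
  by_cases p2 : C.r a ∣ σ 1 ∧ C.r a ∣ σ 2
  · obtain ⟨G, hG, h012, hw⟩ := hR p2.1 p2.2
    exact na_main C ha σ hG h012 (fun h => absurd (k1 h) p1) (fun _ => hw)
      (fun h => (x23 p2 (k3 h)).elim) (fun h => (x24 p2 (k4 h)).elim) (fun h => (x25 p2 (k5 h)).elim)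
  by_cases p3 : C.r a ∣ σ 0 + σ 1 ∧ C.r a ∣ σ 1 + σ 2
  · obtain ⟨G, hG, h012, hw⟩ := hM p3.1 p3.2
    exact na_main C ha σ hG h012 (fun h => absurd (k1 h) p1) (fun h => absurd (k2 h) p2)
      (fun _ => hw) (fun h => (x34 p3 (k4 h)).elim) (fun h => (x35 p3 (k5 h)).elim)
  by_cases p4 : C.r a ∣ σ 0 + σ 1 ∧ C.r a ∣ σ 2
  · obtain ⟨G, hG, h012, hw⟩ := hT p4.1 p4.2
    exact na_main C ha σ hG h012 (fun h => absurd (k1 h) p1) (fun h => absurd (k2 h) p2)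
      (fun h => absurd (k3 h) p3) (fun _ => hw) (fun h => (x45 p4 (k5 h)).elim)
  by_cases p5 : C.r a ∣ σ 0 ∧ C.r a ∣ σ 1 + σ 2
  · obtain ⟨G, hG, h012, hw⟩ := hT' p5.1 p5.2
    exact na_main C ha σ hG h012 (fun h => absurd (k1 h) p1) (fun h => absurd (k2 h) p2)
      (fun h => absurd (k3 h) p3) (fun h => absurd (k4 h) p4) (fun _ => hw)
  obtain ⟨G, hG, h012⟩ := na_scale C hC
  exact na_main C ha σ hG h012 (fun h => absurd (k1 h) p1) (fun h => absurd (k2 h) p2)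
    (fun h => absurd (k3 h) p3) (fun h => absurd (k4 h) p4) (fun h => absurd (k5 h) p5)

theorem naT (hC : C.Cub) {a : Q} (ha : 2 ≤ C.r a) (σ : Fin 3 → ℕ) (h0 : ¬ C.r a ∣ σ 0)
    (h01 : C.r a ∣ σ 0 + σ 1) (h2 : C.r a ∣ σ 2) :
    ∃ (z : ℤ) (c : List (Fin 3) →₀ ℤ), (∀ w ∈ c.support, (∀ i, i ∈ w) ∧ C.Ew a σ [0, 1, 2] w ∧
        (4 ≤ w.length ∨ (C.p : ℤ) ∣ c w)) ∧
      ∀ x : Fin 3 → U, C.LHom a σ x → x 0 * x 1 * x 2 = z • (x 2 * x 0 * x 1) + C.val x a c := by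
  obtain ⟨k1, k2, k3, k4, k5⟩ := na_coinc C ha σ
  have d2 : C.r a ∣ σ 1 → C.r a ∣ σ 0 + σ 1 → C.r a ∣ σ 0 := fun h h' => (Nat.dvd_add_left h).1 h'
  have d4 : C.r a ∣ σ 2 → C.r a ∣ σ 1 + σ 2 → C.r a ∣ σ 1 := fun h h' => (Nat.dvd_add_left h).1 h'
  obtain ⟨G, hG, h012⟩ := na_scale C hC
  obtain ⟨z, c, h1, h3⟩ := na_one C ha σ hG h012 [2, 0, 1] (by decide) (by decide) (by
    intro w hl hw hE hne
    rcases na_perm w hl hw with rfl | rfl | rfl | rfl | rfl | rfl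
    · exact absurd rfl hne
    · exact absurd (k1 hE).1 h0
    · exact absurd (d2 (k2 hE).1 h01) h0
    · exact absurd (d2 (d4 h2 (k3 hE).2) h01) h0
    · rfl
    · exact absurd (k5 hE).1 h0)
  refine ⟨z, c, h1, fun x hx => ?_⟩
  rw [h3 x hx]
  simp [mul_assoc]

theorem naM (hC : C.Cub) {a : Q} (ha : 2 ≤ C.r a) (σ : Fin 3 → ℕ) (h0 : ¬ C.r a ∣ σ 0)
    (h01 : C.r a ∣ σ 0 + σ 1) (h12 : C.r a ∣ σ 1 + σ 2) :
    ∃ (z : ℤ) (c : List (Fin 3) →₀ ℤ), (∀ w ∈ c.support, (∀ i, i ∈ w) ∧ C.Ew a σ [0, 1, 2] w ∧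
        (4 ≤ w.length ∨ (C.p : ℤ) ∣ c w)) ∧
      ∀ x : Fin 3 → U, C.LHom a σ x → x 0 * x 1 * x 2 = z • (x 2 * x 1 * x 0) + C.val x a c := by
  obtain ⟨k1, k2, k3, k4, k5⟩ := na_coinc C ha σ
  have d2 : C.r a ∣ σ 1 → C.r a ∣ σ 0 + σ 1 → C.r a ∣ σ 0 := fun h h' => (Nat.dvd_add_left h).1 h'
  have d4 : C.r a ∣ σ 2 → C.r a ∣ σ 1 + σ 2 → C.r a ∣ σ 1 := fun h h' => (Nat.dvd_add_left h).1 h'
  obtain ⟨G, hG, h012⟩ := na_scale C hC
  obtain ⟨z, c, h1, h3⟩ := na_one C ha σ hG h012 [2, 1, 0] (by decide) (by decide) (by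
    intro w hl hw hE hne
    rcases na_perm w hl hw with rfl | rfl | rfl | rfl | rfl | rfl
    · exact absurd rfl hne
    · exact absurd (k1 hE).1 h0
    · exact absurd (d2 (k2 hE).1 h01) h0
    · rfl
    · exact absurd (d2 (d4 (k4 hE).2 h12) h01) h0
    · exact absurd (k5 hE).1 h0)
  refine ⟨z, c, h1, fun x hx => ?_⟩
  rw [h3 x hx]
  simp [mul_assoc]

end Ctx

end ADM
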