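import Pool.Agent.ADM.MatB

/-!
# ADM-NvM

Words with arrows and at least two letters do not meet matrix blocks.

PLAN.  Induction on the word.  `v = (k, j) :: v'`, `v' ≠ []`: `nv a b i v = g θ a (src k) i * (r k * y)` with `y = nv (tgt k) b j v' ∈ S (tgt k) b` (`nv_S`).  If the value is not 0 then
`r k * y ≠ 0`, so by `matB` `src k`, `tgt k`, `b` are `NM`; `blk a = blk (src k)` (`g_ne`), so `a = src k`.  `y ≠ 0`: if `v'.length ≥ 2` use induction; if `v' = [(l, j')]`:
`y = g θ (tgt k) (src l) j * (r l * g θ (tgt l) b j') ≠ 0`: `blk (tgt k) = blk (src l)` and `blk (tgt l) = blk b`, so `src l = tgt k` and `tgt l = b` (`NM`).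
-/

namespace ADM

open AD ADN ADN.Ctx

namespace Ctx

variable {U : Type} [Ring U] {Q : Type} [Fintype Q] (C : Ctx U Q)
variable {ι : Type} {src tgt : ι → Q} {σ : ι → ℕ} {r : ι → U}

private theorem nvM_blk (θ : ℕ → ℕ) {a b : Q} {m : ℕ} {x : U} (h : C.g θ a b m * x ≠ 0) :
    C.blk a = C.blk b := by
  by_contra hne
  rw [C.g_ne θ hne m, zero_mul] at h
  exact h rfl

theorem nvM (hC : C.Cub) (hr : C.Hom src tgt σ r) (θ : ℕ → ℕ) (a b : Q) (i : ℕ) (v : List (ι × ℕ))
    (hv : 2 ≤ v.length) (h : C.nv θ src tgt r a b i v ≠ 0) :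
    C.NM a ∧ C.NM b ∧ pth (s2 src) (s2 tgt) a v b ∧ ∀ q ∈ v, C.NM (src q.1) ∧ C.NM (tgt q.1) := by
  induction v generalizing a i with
  | nil => simp at hv
  | cons q v ih =>
    obtain ⟨k, j⟩ := q
    have hv' : v ≠ [] := by
      rintro rfl
      simp at hv
    have h0 : C.g θ a (src k) i * (r k * C.nv θ src tgt r (tgt k) b j v) ≠ 0 := h
    have h1 : C.blk a = C.blk (src k) := C.nvM_blk θ h0
    have h2 : r k * C.nv θ src tgt r (tgt k) b j v ≠ 0 := right_ne_zero_of_mul h0
    have h3 : C.nv θ src tgt r (tgt k) b j v ≠ 0 := right_ne_zero_of_mul h2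
    have hS : C.S (tgt k) b (C.nv θ src tgt r (tgt k) b j v) := C.nv_S hr θ (tgt k) b j v hv'
    have hNs : C.NM (src k) := by
      by_contra hn
      exact h2 (C.matB hC (Or.inl hn) (hr k).1 hS)
    have hNt : C.NM (tgt k) := by
      by_contra hn
      exact h2 (C.matB hC (Or.inr (Or.inl hn)) (hr k).1 hS)
    have hNb : C.NM b := by
      by_contra hn
      exact h2 (C.matB hC (Or.inr (Or.inr hn)) (hr k).1 hS)
    have ha : a = src k := hNs a h1
    have hNa : C.NM a := by
      rw [ha]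
      exact hNs
    by_cases hl : 2 ≤ v.length
    · obtain ⟨_, _, a3, a4⟩ := ih (tgt k) j hl h3
      refine ⟨hNa, hNb, ⟨ha.symm, a3⟩, fun q hq => ?_⟩
      rcases List.mem_cons.1 hq with rfl | hq
      · exact ⟨hNs, hNt⟩
      · exact a4 q hq
    · obtain ⟨q, hq⟩ : ∃ q, v = [q] := by
        rw [← List.length_eq_one_iff]
        have := List.length_pos_iff.2 hv'
        omega
      subst hq
      obtain ⟨l, j'⟩ := q
      have h4 : C.g θ (tgt k) (src l) j * (r l * C.g θ (tgt l) b j') ≠ 0 := h3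
      have h5 : C.blk (tgt k) = C.blk (src l) := C.nvM_blk θ h4
      have h6 : C.g θ (tgt l) b j' ≠ 0 := right_ne_zero_of_mul (right_ne_zero_of_mul h4)
      have h7 : C.blk (tgt l) = C.blk b := by
        by_contra hne
        exact h6 (C.g_ne θ hne j')
      have h8 : src l = tgt k := hNt (src l) h5.symm
      have h9 : tgt l = b := hNb (tgt l) h7
      refine ⟨hNa, hNb, ⟨ha.symm, h8, h9⟩, fun q hq => ?_⟩
      rcases List.mem_cons.1 hq with rfl | hq
      · exact ⟨hNs, hNt⟩
      · rw [List.mem_singleton] at hq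
        subst hq
        refine ⟨?_, ?_⟩
        · show C.NM (src l)
          rw [h8]
          exact hNt
        · show C.NM (tgt l)
          rw [h9]
          exact hNb

end Ctx

end ADM
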