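import Pool.Agent.ADM.VanM
import Pool.Agent.ADM.Wsep

/-!
# ADM-Q4

Type M, field with four elements: the loops `x` with nontrivial twist.

PLAN.  `p = 2`, `r a = 2`, `n a = 3`; `σ` is odd.  Products of four or more loops with twist `σ` vanish (vanM4), `2 • (x x x) = 0` (pM).
First case of `TuP`: `c` with `∑_k c k • x ^ k = 0` for all `x ∈ A`, `c 0 = 0`.  Replace `x` by `w ^ θ x`: letters `ι = Unit` (or `Fin 1`), the word
`x^k`; weights modulo 3: `x`: 1, `x x`: `1 + 2 ≡ 0`, `x x x`: `1 + 2 + 1 ≡ 1`.  `sepw` with `X = ⊥` gives `c 1 • x + c 3 • x^3 = 0` and `c 2 • x^2 = 0`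
for all `x` of twist `σ` (the total twists `σ` and `3 σ` agree modulo 2).
* `¬ 2 ∣ c 2`: `x^2 = 0` (`tors_unit`), so `x^3 = 0`.
* `¬ 4 ∣ c 1`: if `c 1` is odd, `x = m x^3` with an integer `m` (`inv_mod`), so `x^3 = x^2 * x = m x^5 = 0`.  If `c 1 = 2 u`, `u` odd:
  multiply by an inverse of `u`: `2 x = m x^3`.
Second case of `TuP`: `G` with two letters.  `x, y` of twist `σ`: letters `Fin 2`, twists constant `σ`.  Words of length `≥ 4` vanish; the words
of length `≤ 3` containing both letters have the weights modulo 3 (weight of 0, weight of 1): `01: (1,2)`, `10: (2,1)`, `001: (0,1)`, `100: (0,1)`,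
`010: (2,2)`, `011: (1,0)`, `110: (1,0)`, `101: (2,2)`.  So `sepw` gives `G [0,1] • x y = 0` and `G [1,0] • y x = 0` for all `x, y`; one of the two
coefficients is odd, so `x y = 0` for all `x, y` (`tors_unit`), hence `x^3 = 0`.
-/

namespace ADM

open AD ADN

namespace Ctx

variable {U : Type} [Ring U] {Q : Type} [Fintype Q] (C : Ctx U Q)

private theorem q4_pow {σ : ℕ} (h : ¬ 2 ∣ σ) : 2 ^ σ ≡ 2 [MOD 3] := by
  obtain ⟨k, hk⟩ : ∃ k, σ = 2 * k + 1 := ⟨σ / 2, by omega⟩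
  rw [hk, pow_succ, pow_mul]
  have h1 : (2 ^ 2) ^ k ≡ 1 ^ k [MOD 3] := Nat.ModEq.pow k (by decide)
  rw [one_pow] at h1
  exact h1.mul_right 2

private theorem q4_wt {σ : ℕ} (h : ¬ 2 ∣ σ) (v : List (Fin 2)) (k : Fin 2) :
    wt 2 (fun _ : Fin 2 => σ) v k ≡ wt 2 (fun _ : Fin 2 => 1) v k [MOD 3] := by
  induction v with
  | nil => exact Nat.ModEq.refl _
  | cons l v ih =>
    show (if l = k then 1 else 0) + 2 ^ σ * wt 2 (fun _ : Fin 2 => σ) v k ≡
      (if l = k then 1 else 0) + 2 ^ 1 * wt 2 (fun _ : Fin 2 => 1) v k [MOD 3]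
    rw [pow_one]
    exact ((q4_pow h).mul ih).add_left _

private theorem q4_tab1 : ∀ i : Fin 2, ¬ ∀ l : Fin 2, l ∈ [i] := by decide

private theorem q4_tab2 : ∀ v₁ : List (Fin 2), v₁ = [0, 1] ∨ v₁ = [1, 0] →
    ∀ i j : Fin 2, (∀ l : Fin 2, l ∈ [i, j]) →
      (∀ l : Fin 2, wt 2 (fun _ : Fin 2 => 1) v₁ l ≡ wt 2 (fun _ : Fin 2 => 1) [i, j] l [MOD 3]) →
      [i, j] = v₁ := by
  rintro v₁ (rfl | rfl) <;> decide

private theorem q4_tab3 : ∀ v₁ : List (Fin 2), v₁ = [0, 1] ∨ v₁ = [1, 0] →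
    ∀ i j k : Fin 2, (∀ l : Fin 2, l ∈ [i, j, k]) →
      ¬ (∀ l : Fin 2, wt 2 (fun _ : Fin 2 => 1) v₁ l ≡ wt 2 (fun _ : Fin 2 => 1) [i, j, k] l [MOD 3]) := by
  rintro v₁ (rfl | rfl) <;> decide

private theorem q4_n (hp : C.p = 2) {a : Q} (ha : C.r a = 2) : C.n a = 3 := by
  rw [C.n_eq ha.ge, hp, ha]
  norm_num

private theorem q4_vec {a : Q} {σ : ℕ} {x y : U} (hx : C.H a a σ x) (hy : C.H a a σ y) :
    C.LHom a (fun _ : Fin 2 => σ) ![x, y] := by
  intro k
  fin_cases k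
  · exact hx
  · exact hy

/-- words of length at least four -/
private theorem q4_four (hC : C.Cub) (hM : TyM C.Rl C.p) {a : Q} (ha : C.r a = 2)
    (σ : ℕ) (hσ : C.Tw a σ) {x : U} (hx : C.H a a σ x) : x * x * x * x = 0 := by
  have h := C.vanM4 (ι := Unit) hC hM ha.ge (fun _ => σ) [(), (), (), ()] (by decide)
    ⟨(), by simp, hσ⟩ (fun _ => x) (fun _ => hx)
  simp only [List.map_cons, List.map_nil, List.prod_cons, List.prod_nil, mul_one] at h
  rw [mul_assoc, mul_assoc]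
  exact h

private theorem q4_G (hC : C.Cub) (hM : TyM C.Rl C.p) (hp : C.p = 2) {a : Q} (ha : C.r a = 2)
    (σ : ℕ) (hσ : C.Tw a σ) (G : List (Fin 2) →₀ ℤ) (hG : C.Rl2 G) (v₁ : List (Fin 2))
    (hv₁ : v₁ = [0, 1] ∨ v₁ = [1, 0]) (r : Fin 2 → U) (hr : C.LHom a (fun _ => σ) r) :
    G v₁ • (v₁.map r).prod = 0 := by
  classical
  have hσ2 : ¬ 2 ∣ σ := by
    have h := hσ
    unfold Tw at h
    rwa [ha] at h
  have h0 : ∀ r, C.LHom a (fun _ : Fin 2 => σ) r → C.val r a G ∈ (⊥ : AddSubgroup U) := by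
    intro r hr
    rw [AddSubgroup.mem_bot]
    have h1 := hG.2 r (fun i => C.J_le (hr i).1.1)
    have h2 : C.val r a G = C.e a * (G.sum fun w c => c • (w.map r).prod) := by
      unfold Base.val Base.wv Finsupp.sum
      rw [Finset.mul_sum]
      exact Finset.sum_congr rfl fun v _ => by rw [mul_smul_comm]
    rw [h2, h1, mul_zero]
  have h1 := C.sepw ha.ge (fun _ : Fin 2 => σ) (⊥ : AddSubgroup U)
    (fun u x hx => by rw [AddSubgroup.mem_bot] at hx ⊢; rw [hx, mul_zero])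
    (fun u x hx => by rw [AddSubgroup.mem_bot] at hx ⊢; rw [hx, zero_mul]) G h0 v₁ r hr
  rw [AddSubgroup.mem_bot] at h1
  have hne : v₁ ≠ [] := by
    rcases hv₁ with rfl | rfl <;> simp
  have hEw : C.Ew a (fun _ : Fin 2 => σ) v₁ v₁ := ⟨fun _ => Nat.ModEq.refl _, Nat.ModEq.refl _⟩
  have h2 : C.val r a (G.filter fun v => C.Ew a (fun _ : Fin 2 => σ) v₁ v) =
      G v₁ • C.wv r a v₁ := by
    unfold Base.val Finsupp.sum
    rw [Finset.sum_eq_single v₁]
    · rw [Finsupp.filter_apply_pos _ _ hEw]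
    · intro v hv hvne
      rw [Finsupp.support_filter, Finset.mem_filter] at hv
      obtain ⟨hvs, hvE⟩ := hv
      have hall := hG.1 v hvs
      have hw : ∀ l : Fin 2, wt 2 (fun _ : Fin 2 => 1) v₁ l ≡
          wt 2 (fun _ : Fin 2 => 1) v l [MOD 3] := by
        intro l
        have h3 := hvE.1 l
        rw [hp, C.q4_n hp ha] at h3
        exact ((q4_wt hσ2 v₁ l).symm.trans h3).trans (q4_wt hσ2 v l)
      have hz : (v.map r).prod = 0 := by
        match v, hall, hw, hvne with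
        | [], hall, _, _ => exact absurd (hall 0) (by simp)
        | [i], hall, _, _ => exact absurd hall (q4_tab1 i)
        | [i, j], hall, hw, hvne => exact absurd (q4_tab2 v₁ hv₁ i j hall hw) hvne
        | [i, j, k], hall, hw, _ => exact absurd hw (q4_tab3 v₁ hv₁ i j k hall)
        | i :: j :: k :: l :: t, _, _, _ =>
          exact C.vanM4 hC hM ha.ge (fun _ : Fin 2 => σ) (i :: j :: k :: l :: t)
            (by simp only [List.length_cons]; omega) ⟨i, by simp, hσ⟩ r hr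
      show _ • (C.e a * (v.map r).prod) = 0
      rw [hz, mul_zero, smul_zero]
    · intro hv
      rw [Finsupp.notMem_support_iff] at hv
      simp only [hv, zero_smul]
  rw [h2, C.hom_wv hr hne] at h1
  exact h1

private theorem q4_c (hC : C.Cub) (hM : TyM C.Rl C.p) (hp : C.p = 2) {a : Q} (ha : C.r a = 2)
    (σ : ℕ) (hσ : C.Tw a σ) (c : ℕ →₀ ℤ) (hc0 : c 0 = 0)
    (hc : ∀ a ∈ C.A, (c.sum fun k z => z • a ^ k) = 0) {x : U} (hx : C.H a a σ x) :
    c 1 • x + c 3 • (x * x * x) = 0 ∧ c 2 • (x * x) = 0 := by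
  have hσ2 : ¬ 2 ∣ σ := by
    have h := hσ
    unfold Tw at h
    rwa [ha] at h
  -- the value at a general element
  have hval : ∀ y, C.H a a σ y → c 1 • y + (c 2 • (y * y) + c 3 • (y * y * y)) = 0 := by
    intro y hy
    have h1 := hc y (C.J_le hy.1.1)
    have h4 : y ^ 4 = 0 := by
      have := C.q4_four hC hM ha σ hσ hy
      rw [← this]
      noncomm_ring
    have h2 : (c.sum fun k z => z • y ^ k) = ∑ k ∈ Finset.range 4, c k • y ^ k := by
      unfold Finsupp.sum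
      have h5 : ∑ k ∈ c.support, c k • y ^ k = ∑ k ∈ c.support ∪ Finset.range 4, c k • y ^ k := by
        refine Finset.sum_subset Finset.subset_union_left fun k _ hk => ?_
        rw [Finsupp.notMem_support_iff] at hk
        rw [hk, zero_smul]
      rw [h5]
      refine (Finset.sum_subset Finset.subset_union_right fun k _ hk => ?_).symm
      rw [Finset.mem_range, not_lt] at hk
      obtain ⟨j, rfl⟩ := Nat.exists_eq_add_of_le hk
      rw [pow_add, h4, zero_mul, smul_zero]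
    rw [h2] at h1
    simp only [Finset.sum_range_succ, Finset.sum_range_zero, zero_add] at h1
    rw [hc0, zero_smul, zero_add, pow_one, pow_two, pow_succ, pow_two, add_assoc] at h1
    exact h1
  have hA : ∀ y ∈ C.J, y ∈ C.A := fun y hy => C.J_le hy
  have hea := hx.1.2.1
  -- discrete Fourier transform
  have hdft : ∀ m₀ : ℕ, ∑ t ∈ (Finset.univ : Finset (Fin 3)) with
      (![1, 1 + 2 ^ σ, 1 + 2 ^ σ + 2 ^ σ * 2 ^ σ] : Fin 3 → ℕ) t ≡ m₀ [MOD C.n a],
      (![c 1 • x, c 2 • (x * x), c 3 • (x * x * x)] : Fin 3 → U) t = 0 := by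
    intro m₀
    have h := C.dftL a (Finset.univ : Finset (Fin 3))
      (![1, 1 + 2 ^ σ, 1 + 2 ^ σ + 2 ^ σ * 2 ^ σ] : Fin 3 → ℕ)
      (![c 1 • x, c 2 • (x * x), c 3 • (x * x * x)] : Fin 3 → U) ?_ (⊥ : AddSubgroup U) ?_ ?_ m₀
    · rwa [AddSubgroup.mem_bot] at h
    · intro t _
      fin_cases t
      · refine ⟨C.A.zsmul_mem (hA _ hx.1.1) _, ?_⟩
        show C.e a * (c 1 • x) = c 1 • x
        rw [mul_smul_comm, hea]
      · refine ⟨C.A.zsmul_mem (hA _ (C.J_left _ _ hx.1.1)) _, ?_⟩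
        show C.e a * (c 2 • (x * x)) = c 2 • (x * x)
        rw [mul_smul_comm, ← mul_assoc, hea]
      · refine ⟨C.A.zsmul_mem (hA _ (C.J_left _ _ hx.1.1)) _, ?_⟩
        show C.e a * (c 3 • (x * x * x)) = c 3 • (x * x * x)
        rw [mul_smul_comm, ← mul_assoc, ← mul_assoc, hea]
    · intro u y hy
      rw [AddSubgroup.mem_bot] at hy ⊢
      rw [hy, mul_zero]
    · intro θ
      rw [AddSubgroup.mem_bot, Fin.sum_univ_three]
      have h1 := hval _ (C.H_wl hx θ)
      have e2 : C.w a ^ θ * x * (C.w a ^ θ * x) = C.w a ^ (θ * (1 + 2 ^ σ)) * (x * x) := by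
        have h3 := C.H_pow hx θ
        rw [hp] at h3
        calc C.w a ^ θ * x * (C.w a ^ θ * x) = C.w a ^ θ * (x * C.w a ^ θ) * x := by
              noncomm_ring
          _ = C.w a ^ θ * C.w a ^ (2 ^ σ * θ) * (x * x) := by
              rw [h3]
              noncomm_ring
          _ = _ := by
              rw [← pow_add]
              congr 2
              ring
      have e3 : C.w a ^ θ * x * (C.w a ^ θ * x) * (C.w a ^ θ * x) =
          C.w a ^ (θ * (1 + 2 ^ σ + 2 ^ σ * 2 ^ σ)) * (x * x * x) := by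
        rw [e2]
        have h3 := C.H_pow hx θ
        have h4 := C.H_pow hx (2 ^ σ * θ)
        rw [hp] at h3 h4
        calc C.w a ^ (θ * (1 + 2 ^ σ)) * (x * x) * (C.w a ^ θ * x)
            = C.w a ^ (θ * (1 + 2 ^ σ)) * (x * (x * C.w a ^ θ)) * x := by noncomm_ring
          _ = C.w a ^ (θ * (1 + 2 ^ σ)) * (x * C.w a ^ (2 ^ σ * θ)) * (x * x) := by
              rw [h3]
              noncomm_ring
          _ = C.w a ^ (θ * (1 + 2 ^ σ)) * C.w a ^ (2 ^ σ * (2 ^ σ * θ)) * (x * x * x) := by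
              rw [h4]
              noncomm_ring
          _ = _ := by
              rw [← pow_add]
              congr 2
              ring
      rw [e3, e2] at h1
      show C.w a ^ (θ * 1) * (c 1 • x) + C.w a ^ (θ * (1 + 2 ^ σ)) * (c 2 • (x * x)) +
        C.w a ^ (θ * (1 + 2 ^ σ + 2 ^ σ * 2 ^ σ)) * (c 3 • (x * x * x)) = 0
      rw [mul_smul_comm, mul_smul_comm, mul_smul_comm, mul_one, add_assoc]
      exact h1
  have hs := q4_pow hσ2
  have hn := C.q4_n hp ha
  have m2 : 1 + 2 ^ σ ≡ 0 [MOD 3] := by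
    have h := hs.add_left 1
    exact h.trans (by decide)
  have m3 : 1 + 2 ^ σ + 2 ^ σ * 2 ^ σ ≡ 1 [MOD 3] := by
    have h := (hs.add_left 1).add (hs.mul hs)
    exact h.trans (by decide)
  constructor
  · have h := hdft 1
    rw [hn, Finset.sum_filter, Fin.sum_univ_three] at h
    have c0 : (![1, 1 + 2 ^ σ, 1 + 2 ^ σ + 2 ^ σ * 2 ^ σ] : Fin 3 → ℕ) 0 ≡ 1 [MOD 3] :=
      Nat.ModEq.refl _
    have c1 : ¬ (![1, 1 + 2 ^ σ, 1 + 2 ^ σ + 2 ^ σ * 2 ^ σ] : Fin 3 → ℕ) 1 ≡ 1 [MOD 3] := by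
      intro h'
      have h'' : 0 ≡ 1 [MOD 3] := m2.symm.trans h'
      exact absurd h'' (by decide)
    have c2 : (![1, 1 + 2 ^ σ, 1 + 2 ^ σ + 2 ^ σ * 2 ^ σ] : Fin 3 → ℕ) 2 ≡ 1 [MOD 3] := m3
    rw [if_pos c0, if_neg c1, if_pos c2, add_zero] at h
    exact h
  · have h := hdft 0
    rw [hn, Finset.sum_filter, Fin.sum_univ_three] at h
    have c0 : ¬ (![1, 1 + 2 ^ σ, 1 + 2 ^ σ + 2 ^ σ * 2 ^ σ] : Fin 3 → ℕ) 0 ≡ 0 [MOD 3] := by
      intro h'
      have h'' : 1 ≡ 0 [MOD 3] := h'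
      exact absurd h'' (by decide)
    have c1 : (![1, 1 + 2 ^ σ, 1 + 2 ^ σ + 2 ^ σ * 2 ^ σ] : Fin 3 → ℕ) 1 ≡ 0 [MOD 3] := m2
    have c2 : ¬ (![1, 1 + 2 ^ σ, 1 + 2 ^ σ + 2 ^ σ * 2 ^ σ] : Fin 3 → ℕ) 2 ≡ 0 [MOD 3] := by
      intro h'
      have h'' : 1 ≡ 0 [MOD 3] := m3.symm.trans h'
      exact absurd h'' (by decide)
    rw [if_neg c0, if_pos c1, if_neg c2, zero_add, add_zero] at h
    exact h

theorem q4 (hC : C.Cub) (hM : TyM C.Rl C.p) (hTu : C.TuP) (hp : C.p = 2) {a : Q} (ha : C.r a = 2)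
    (σ : ℕ) (hσ : C.Tw a σ) :
    (∀ x, C.H a a σ x → x * x * x = 0) ∨
      ∃ m : ℤ, ∀ x, C.H a a σ x → (2 : ℤ) • x = m • (x * x * x) := by
  have hp' : (C.p : ℤ) = 2 := by rw [hp]; rfl
  rcases hTu with ⟨c, hc0, hc12, hc⟩ | ⟨G, hG, hG2⟩
  · have key := fun x hx => C.q4_c (x := x) hC hM hp ha σ hσ c hc0 hc hx
    rcases hc12 with h1 | h2
    · by_cases hodd : (2 : ℤ) ∣ c 1
      · right
        obtain ⟨u, hu⟩ := hodd
        have hu2 : ¬ (C.p : ℤ) ∣ u := by
          rw [hp']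
          rintro ⟨v, hv⟩
          exact h1 ⟨v, by rw [hu, hv]; ring⟩
        obtain ⟨m, hm⟩ := C.inv_mod hu2
        refine ⟨-(m * c 3), fun x hx => ?_⟩
        have h3 := (key x hx).1
        have h4 := hm x (C.J_le hx.1.1)
        have h5 : (2 : ℤ) • x = (m * c 1) • x := by
          calc (2 : ℤ) • x = (2 : ℤ) • ((m * u) • x) := by rw [h4]
            _ = (m * c 1) • x := by
              rw [← mul_smul, hu]
              congr 1
              ring
        rw [h5, mul_smul, eq_neg_of_add_eq_zero_left h3, smul_neg, neg_smul, mul_smul]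
      · left
        intro x hx
        have hu2 : ¬ (C.p : ℤ) ∣ c 1 := by rwa [hp']
        obtain ⟨m, hm⟩ := C.inv_mod hu2
        have h3 := (key x hx).1
        have h4 := hm x (C.J_le hx.1.1)
        have h5 : x = -((m * c 3) • (x * x * x)) := by
          rw [mul_smul, ← smul_neg, ← eq_neg_of_add_eq_zero_left h3, ← mul_smul, h4]
        have h6 := C.q4_four hC hM ha σ hσ hx
        calc x * x * x = x * x * -((m * c 3) • (x * x * x)) := by rw [← h5]
          _ = -((m * c 3) • (x * x * x * x * x)) := by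
            rw [mul_neg, mul_smul_comm]
            congr 2
            noncomm_ring
          _ = 0 := by rw [h6, zero_mul, smul_zero, neg_zero]
    · left
      intro x hx
      have h3 := (key x hx).2
      have h4 : x * x = 0 := C.tors_unit (by rwa [hp']) (C.J_le (C.J_left _ _ hx.1.1)) h3
      rw [h4, zero_mul]
  · left
    intro x hx
    have key := fun v₁ hv₁ => C.q4_G hC hM hp ha σ hσ G hG v₁ hv₁ ![x, x] (C.q4_vec hx hx)
    have k1 := key [0, 1] (Or.inl rfl)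
    have k2 := key [1, 0] (Or.inr rfl)
    have e1 : ((([0, 1] : List (Fin 2)).map ![x, x]).prod) = x * x := by
      simp
    have e2 : ((([1, 0] : List (Fin 2)).map ![x, x]).prod) = x * x := by
      simp
    rw [e1] at k1
    rw [e2] at k2
    have h3 : (G [0, 1] + G [1, 0]) • (x * x) = 0 := by
      rw [add_smul, k1, k2, add_zero]
    have h4 : x * x = 0 := C.tors_unit (by rwa [hp']) (C.J_le (C.J_left _ _ hx.1.1)) h3
    rw [h4, zero_mul]

end Ctx

end ADM
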