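import Pool.Agent.ADM.HB
import Pool.Agent.ADM.Van

/-!
# ADM-Rel6

Three edges between two vertices.

PLAN.  rel6: cubic relation `G` (hC) at `(x, y, u)`, multiplied by `e a`, `e b`: the path words from `a` to `b` alternate between the letters `0, 2 : a → b` and `1 : b → a`; containing all
letters: `[0,1,2]`, `[2,1,0]`, and words of length `≥ 5`, whose value vanishes: the first four letters `x₁ y x₂ y` are a product of the paths `x₁ : a → b`,
`y x₂ : b → b`, `y : b → a` (`van`, first pattern).  So `G [0,1,2] • x y u + G [2,1,0] • u y x = 0`; multiply by an inverse of `G [0,1,2]` modulo `p ^ K` (`inv_mod`).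
mov6: `y' = w b ^ m * y ∈ S b a`, `u' = w a ^ m' * u ∈ S a b`.  `x y' u' = z • u' y' x = w a ^ m' * (z • u y' x) = w a ^ m' * (x y' u)`, and
`x y' u = (x w b ^ m) y u = z • u y (x w b ^ m) = (z • u y x) w b ^ m = (x y u) w b ^ m`.
-/

namespace ADM

open AD ADN ADN.Ctx

namespace Ctx

variable {U : Type} [Ring U] {Q : Type} [Fintype Q] (C : Ctx U Q)

private theorem r6_van (hC : C.Cub) {a b : Q} (hab : a ≠ b) {x y x' y' : U} (hx : C.S a b x)
    (hy : C.S b a y) (hx' : C.S a b x') (hy' : C.S b a y') : x * y * x' * y' = 0 := by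
  have h := C.toBase.van hC (v₀ := a) (v₁ := b) (v₂ := b) (v₃ := a)
    (Or.inl ⟨hab, hab.symm, fun h => hab h.1⟩) hx (C.toBase.S_mul hy hx') hy'
  rw [← h]
  noncomm_ring

private theorem r6_short {a b : Q} (hab : a ≠ b) {k₁ k₂ k₃ : Fin 3}
    (hp : pth (![a, b, a] : Fin 3 → Q) ![b, a, b] a [k₁, k₂, k₃] b)
    (hall : ∀ i : Fin 3, i ∈ [k₁, k₂, k₃]) : [k₁, k₂, k₃] = [0, 1, 2] ∨ [k₁, k₂, k₃] = [2, 1, 0] := by
  obtain ⟨h1, h2, h3, h4⟩ := hp
  have h0 := hall 0
  have h1' := hall 1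
  have h2' := hall 2
  fin_cases k₁ <;> fin_cases k₂ <;> fin_cases k₃ <;>
    simp_all [eq_comm]

private theorem r6_long (hC : C.Cub) {a b : Q} (hab : a ≠ b) {x y u : U} (hx : C.S a b x)
    (hy : C.S b a y) (hu : C.S a b u) {k₁ k₂ k₃ k₄ : Fin 3} {v : List (Fin 3)}
    (hp : pth (![a, b, a] : Fin 3 → Q) ![b, a, b] a (k₁ :: k₂ :: k₃ :: k₄ :: v) b) :
    w3 ![x, y, u] (k₁ :: k₂ :: k₃ :: k₄ :: v) = 0 := by
  obtain ⟨h1, h2, h3, h4, -⟩ := hp
  have hA : ∀ k : Fin 3, (![a, b, a] : Fin 3 → Q) k = a →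
      (![b, a, b] : Fin 3 → Q) k = b ∧ C.S a b ((![x, y, u] : Fin 3 → U) k) := by
    intro k hk
    fin_cases k
    · exact ⟨rfl, hx⟩
    · exact absurd hk.symm hab
    · exact ⟨rfl, hu⟩
  have hB : ∀ k : Fin 3, (![a, b, a] : Fin 3 → Q) k = b →
      (![b, a, b] : Fin 3 → Q) k = a ∧ C.S b a ((![x, y, u] : Fin 3 → U) k) := by
    intro k hk
    fin_cases k
    · exact absurd hk hab
    · exact ⟨rfl, hy⟩
    · exact absurd hk hab
  obtain ⟨t1, s1⟩ := hA k₁ h1
  rw [t1] at h2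
  obtain ⟨t2, s2⟩ := hB k₂ h2
  rw [t2] at h3
  obtain ⟨t3, s3⟩ := hA k₃ h3
  rw [t3] at h4
  obtain ⟨t4, s4⟩ := hB k₄ h4
  have h := r6_van C hC hab s1 s2 s3 s4
  unfold w3
  rw [List.map_cons, List.map_cons, List.map_cons, List.map_cons, List.prod_cons, List.prod_cons,
    List.prod_cons, List.prod_cons, ← mul_assoc, ← mul_assoc, ← mul_assoc, h, zero_mul]

private theorem r6_rel {a b : Q} (hab : a ≠ b) (hC : C.Cub) {G : List (Fin 3) →₀ ℤ}
    (hG : ∀ w ∈ G.support, ∀ i, i ∈ w)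
    (hG0 : ∀ a : Fin 3 → U, (∀ i, a i ∈ C.A) → (G.sum fun w c => c • w3 a w) = 0)
    {x y u : U} (hx : C.S a b x) (hy : C.S b a y) (hu : C.S a b u) :
    G [0, 1, 2] • (x * y * u) + G [2, 1, 0] • (u * y * x) = 0 := by
  classical
  have hr : C.Srt ![a, b, a] ![b, a, b] ![x, y, u] := by
    intro i
    fin_cases i
    · exact hx
    · exact hy
    · exact hu
  have hA : ∀ i, (![x, y, u] : Fin 3 → U) i ∈ C.A := by
    intro i
    fin_cases i
    · exact C.toBase.S_mem hx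
    · exact C.toBase.S_mem hy
    · exact C.toBase.S_mem hu
  have h0 := hG0 ![x, y, u] hA
  have h1 : (G.sum fun w c => c • (C.e a * w3 ![x, y, u] w * C.e b)) = 0 := by
    have h2 : C.e a * (G.sum fun w c => c • w3 ![x, y, u] w) * C.e b = 0 := by rw [h0]; simp
    rw [Finsupp.sum, Finset.mul_sum, Finset.sum_mul] at h2
    rw [Finsupp.sum, ← h2]
    refine Finset.sum_congr rfl fun w _ => ?_
    rw [mul_smul_comm, smul_mul_assoc]
  have hz0 : ∀ w ∈ G.support, w ≠ [0, 1, 2] → w ≠ [2, 1, 0] →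
      C.e a * w3 ![x, y, u] w * C.e b = 0 := by
    intro w hw hne hne'
    by_contra hcon
    have hpth := C.toBase.prod_ne_zero_pth hr w a b hcon
    have hall := hG w hw
    match w, hpth, hall, hne, hne', hcon with
    | [], _, hall, _, _, _ => exact absurd (hall 0) (by simp)
    | [k₁], _, hall, _, _, _ =>
      have a0 := hall 0
      have a1 := hall 1
      rw [List.mem_singleton] at a0 a1
      exact absurd (a0.trans a1.symm) (by decide)
    | [k₁, k₂], _, hall, _, _, _ =>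
      have a0 := hall 0
      have a1 := hall 1
      have a2 := hall 2
      revert a0 a1 a2
      fin_cases k₁ <;> fin_cases k₂ <;> simp
    | [k₁, k₂, k₃], hpth, hall, hne, hne', _ =>
      rcases r6_short hab hpth hall with h | h
      · exact hne h
      · exact hne' h
    | k₁ :: k₂ :: k₃ :: k₄ :: v, hpth, _, _, _, hcon =>
      apply hcon
      rw [r6_long C hC hab hx hy hu hpth, mul_zero, zero_mul]
  have hval : ∀ w, C.e a * w3 ![x, y, u] w * C.e b =
      C.e a * w3 ![x, y, u] w * C.e b := fun _ => rfl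
  have hsub : (G.sum fun w c => c • (C.e a * w3 ![x, y, u] w * C.e b)) =
      ∑ w ∈ ({[0, 1, 2], [2, 1, 0]} : Finset (List (Fin 3))),
        G w • (C.e a * w3 ![x, y, u] w * C.e b) := by
    rw [Finsupp.sum]
    have e1 : ∑ w ∈ G.support, G w • (C.e a * w3 ![x, y, u] w * C.e b) =
        ∑ w ∈ G.support ∪ {[0, 1, 2], [2, 1, 0]}, G w • (C.e a * w3 ![x, y, u] w * C.e b) := by
      refine Finset.sum_subset Finset.subset_union_left fun w _ hw => ?_
      rw [Finsupp.notMem_support_iff.1 hw, zero_smul]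
    rw [e1]
    refine (Finset.sum_subset Finset.subset_union_right fun w hw hw' => ?_).symm
    rw [Finset.mem_insert, Finset.mem_singleton, not_or] at hw'
    by_cases hs : w ∈ G.support
    · rw [hz0 w hs hw'.1 hw'.2, smul_zero]
    · rw [Finsupp.notMem_support_iff.1 hs, zero_smul]
  rw [hsub, Finset.sum_pair (by decide)] at h1
  have v1 : C.e a * w3 ![x, y, u] [0, 1, 2] * C.e b = x * y * u := by
    have e1 : w3 ![x, y, u] [0, 1, 2] = x * y * u := by
      simp [w3, mul_assoc]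
    rw [e1]
    calc C.e a * (x * y * u) * C.e b = (C.e a * x) * y * (u * C.e b) := by noncomm_ring
      _ = x * y * u := by rw [hx.2.1, hu.2.2]
  have v2 : C.e a * w3 ![x, y, u] [2, 1, 0] * C.e b = u * y * x := by
    have e1 : w3 ![x, y, u] [2, 1, 0] = u * y * x := by
      simp [w3, mul_assoc]
    rw [e1]
    calc C.e a * (u * y * x) * C.e b = (C.e a * u) * y * (x * C.e b) := by noncomm_ring
      _ = u * y * x := by rw [hu.2.1, hx.2.2]
  rw [v1, v2] at h1
  exact h1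

theorem rel6 (hC : C.Cub) {a b : Q} (hab : a ≠ b) : ∃ z : ℤ, ∀ x y u, C.S a b x → C.S b a y → C.S a b u →
    x * y * u = z • (u * y * x) := by
  obtain ⟨G, hG, hp, hG0⟩ := id hC
  obtain ⟨m, hm⟩ := C.toBase.inv_mod hp
  refine ⟨-(m * G [2, 1, 0]), fun x y u hx hy hu => ?_⟩
  have h := r6_rel C hab hC hG hG0 hx hy hu
  have hmem : x * y * u ∈ C.A := by
    rw [mul_assoc]
    exact C.A_right _ _ (C.toBase.S_mem hx)
  have h2 : G [0, 1, 2] • (x * y * u) = -(G [2, 1, 0] • (u * y * x)) := eq_neg_of_add_eq_zero_left h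
  calc x * y * u = (m * G [0, 1, 2]) • (x * y * u) := (hm _ hmem).symm
    _ = m • (G [0, 1, 2] • (x * y * u)) := mul_smul _ _ _
    _ = -(m * G [2, 1, 0]) • (u * y * x) := by rw [h2, smul_neg, ← mul_smul, neg_smul]

private theorem r6_wl {a b : Q} {y : U} (hy : C.S b a y) (m : ℕ) : C.S b a (C.w b ^ m * y) :=
  ⟨C.J_left _ _ hy.1, e_w_pow C m hy.2.1, by rw [mul_assoc, hy.2.2]⟩

private theorem r6_wr {a b : Q} {x : U} (hx : C.S a b x) (m : ℕ) : C.S a b (x * C.w b ^ m) :=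
  ⟨C.J_right _ _ hx.1, by rw [← mul_assoc, hx.2.1], w_pow_e C m hx.2.2⟩

theorem mov6 (hC : C.Cub) {a b : Q} (hab : a ≠ b) {x y u : U} (hx : C.S a b x) (hy : C.S b a y)
    (hu : C.S a b u) (m m' : ℕ) :
    x * (C.w b ^ m * (y * (C.w a ^ m' * u))) = C.w a ^ m' * (x * y * u) * C.w b ^ m := by
  obtain ⟨z, hz⟩ := rel6 C hC hab
  have e1 : x * (C.w b ^ m * y) * (C.w a ^ m' * u) = C.w a ^ m' * (x * (C.w b ^ m * y) * u) := by
    rw [hz _ _ _ hx (r6_wl C hy m) (r6_wl C hu m'), hz _ _ _ hx (r6_wl C hy m) hu, mul_smul_comm]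
    congr 1
    noncomm_ring
  have e2 : x * (C.w b ^ m * y) * u = (x * y * u) * C.w b ^ m := by
    have h1 := hz _ _ _ (r6_wr C hx m) hy hu
    rw [hz _ _ _ hx hy hu, smul_mul_assoc]
    have h2 : x * (C.w b ^ m * y) * u = x * C.w b ^ m * y * u := by
      rw [← mul_assoc x]
    rw [h2, h1]
    congr 1
    rw [mul_assoc (u * y)]
  calc x * (C.w b ^ m * (y * (C.w a ^ m' * u))) = x * (C.w b ^ m * y) * (C.w a ^ m' * u) := by
        simp only [mul_assoc]
    _ = C.w a ^ m' * (x * y * u) * C.w b ^ m := by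
        rw [e1, e2, ← mul_assoc]

theorem van6 (hC : C.Cub) {a b : Q} (hab : a ≠ b) {x y x' y' : U} (hx : C.S a b x) (hy : C.S b a y)
    (hx' : C.S a b x') (hy' : C.S b a y') : x * y * x' * y' = 0 :=
  r6_van C hC hab hx hy hx' hy'

end Ctx

end ADM
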