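import Pool.Agent.ADM.Defs
import Pool.Agent.ADM.Basic
import Pool.Agent.ADM.Van

/-!
# ADN-Rew

Rewriting: loops on the right of `t t'` can be moved to the left. The cubic identity at `t, t', ρ` expresses `t t' ρ` by
the products `ρ^i t t' ρ^j` with `i + j ≥ 1`, `(i, j) ≠ (0, 1)`; induction on the total length and on the length of the
word on the right.
-/

namespace ADM

open AD ADN ADN.Ctx

namespace Base

variable {U : Type} [Ring U] {Q : Type} [Fintype Q] (C : Base U Q)

private theorem rew_dec {W : Type} {a g : W} (hg : g ≠ a) : ∀ w : List (Fin 3),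
    pth ![a, g, a] ![g, a, a] a w a → (∃ i, w = List.replicate i 2) ∨
      ∃ i v, w = List.replicate i 2 ++ 0 :: 1 :: v ∧ pth ![a, g, a] ![g, a, a] a v a
  | [], _ => Or.inl ⟨0, rfl⟩
  | k :: w, h => by
    obtain ⟨h1, h2⟩ := h
    fin_cases k
    · right
      change pth ![a, g, a] ![g, a, a] g w a at h2
      cases w with
      | nil => exact absurd h2 hg
      | cons k' w' =>
        obtain ⟨h3, h4⟩ := h2
        fin_cases k'
        · exact absurd (show g = a from (show a = g from h3).symm) hg
        · exact ⟨0, w', rfl, h4⟩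
        · exact absurd (show g = a from (show a = g from h3).symm) hg
    · exact absurd (show g = a from h1) hg
    · change pth ![a, g, a] ![g, a, a] a w a at h2
      rcases rew_dec hg w h2 with ⟨i, rfl⟩ | ⟨i, v, rfl, hv⟩
      · exact Or.inl ⟨i + 1, rfl⟩
      · exact Or.inr ⟨i + 1, v, rfl, hv⟩

private theorem rew_lift_mon (r : ℕ → U) (w : List ℕ) :
    FreeAlgebra.lift ℤ r (mon w) = (w.map r).prod := by
  rw [mon, map_list_prod, List.map_map]
  congr 1
  apply List.map_congr_left
  intro i _
  exact FreeAlgebra.lift_ι_apply _ _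

/-- words which visit `g` twice vanish -/
private theorem rew_two (hC : C.Cub) {a g : Q} (hg : g ≠ a) {t t' : U} (ht : C.S a g t)
    (ht' : C.S g a t') (u u' u'' : U) :
    C.e a * (u * (t * (t' * (u' * (t * (t' * u'')))))) * C.e a = 0 := by
  have hid : ∀ i, C.e i * C.e i = C.e i := fun i => C.coi.idem i
  have h1 : C.S a g (C.e a * u * t) := by
    refine ⟨C.J_left _ _ ht.1, ?_, ?_⟩
    · rw [← mul_assoc, ← mul_assoc, hid]
    · rw [mul_assoc, ht.2.2]
  have h2 : C.S g g (t' * u' * t) := by
    refine ⟨C.J_left _ _ ht.1, ?_, ?_⟩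
    · rw [← mul_assoc, ← mul_assoc, ht'.2.1]
    · rw [mul_assoc, ht.2.2]
  have h3 : C.S g a (t' * u'' * C.e a) := by
    refine ⟨C.J_right _ _ (C.J_right _ _ ht'.1), ?_, ?_⟩
    · rw [← mul_assoc, ← mul_assoc, ht'.2.1]
    · rw [mul_assoc, hid]
  have h4 := C.van hC (v₀ := a) (v₁ := g) (v₂ := g) (v₃ := a) (Or.inl ⟨hg.symm, hg, fun h => hg h.2⟩) h1 h2 h3
  rw [← h4]
  noncomm_ring

private theorem rew_pow {a : Q} {ρ x : U} (hρ : C.S a a ρ) (hx : C.S a a x) (i : ℕ) :
    C.S a a (ρ ^ i * x) := by
  induction i with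
  | zero => rw [pow_zero, one_mul]; exact hx
  | succ i ih => rw [pow_succ', mul_assoc]; exact C.S_mul hρ ih

private theorem rew_pow' {a : Q} {ρ x : U} (hρ : C.S a a ρ) (hx : C.S a a x) (i : ℕ) :
    C.S a a (x * ρ ^ i) := by
  induction i with
  | zero => rw [pow_zero, mul_one]; exact hx
  | succ i ih => rw [pow_succ, ← mul_assoc]; exact C.S_mul ih hρ

/-- the statement for a pair of words -/
private def RewOk (a g : Q) (w₁ w₂ : List ℕ) : Prop :=
  ∃ q : P, ∀ r : ℕ → U, (∀ i, C.S a a (r i)) → ∀ t t' : U, C.S a g t → C.S g a t' →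
      (w₁.map r).prod * (t * t') * (w₂.map r).prod = FreeAlgebra.lift ℤ r q * (t * t')

/-- the cubic identity, multiplied by words -/
private theorem rew_step (hC : C.Cub) {a g : Q} (hg : g ≠ a) (w₁ w₂ : List ℕ) (k : ℕ)
    (h : ∀ i j : ℕ, 1 ≤ i + j → ¬ (i = 0 ∧ j = 1) →
      C.RewOk a g (w₁ ++ List.replicate i k) (List.replicate j k ++ w₂)) :
    C.RewOk a g w₁ (k :: w₂) := by
  obtain ⟨G, hG1, hG2, hG3⟩ := hC
  obtain ⟨m, hm⟩ := C.inv_mod hG2
  have key : ∀ w : List (Fin 3), w ∈ G.support.erase [0, 1, 2] →
      ∃ q : P, ∀ r : ℕ → U, (∀ i, C.S a a (r i)) → ∀ t t' : U, C.S a g t → C.S g a t' →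
        (w₁.map r).prod * (C.e a * w3 ![t, t', r k] w * C.e a) * (w₂.map r).prod =
          FreeAlgebra.lift ℤ r q * (t * t') := by
    intro w hw
    obtain ⟨hw1, hw2⟩ := Finset.mem_erase.1 hw
    by_cases hp : pth ![a, g, a] ![g, a, a] a w a
    swap
    · refine ⟨0, fun r hr t t' ht ht' => ?_⟩
      have hs : C.Srt ![a, g, a] ![g, a, a] ![t, t', r k] := by
        intro i
        fin_cases i
        · exact ht
        · exact ht'
        · exact hr k
      have h0 : C.e a * w3 ![t, t', r k] w * C.e a = 0 := by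
        by_contra hne
        exact hp (C.prod_ne_zero_pth hs w a a hne)
      rw [h0, mul_zero, zero_mul, map_zero, zero_mul]
    · rcases rew_dec hg w hp with ⟨i, rfl⟩ | ⟨i, v, rfl, hv⟩
      · exfalso
        have := hG1 _ hw2 0
        have := List.eq_of_mem_replicate this
        exact absurd this (by decide)
      · rcases rew_dec hg v hv with ⟨j, rfl⟩ | ⟨j, v', rfl, -⟩
        · have hij : 1 ≤ i + j := by
            by_contra hlt
            have hi : i = 0 := by omega
            have hj : j = 0 := by omega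
            subst hi hj
            have := hG1 _ hw2 2
            simp at this
          have hne : ¬ (i = 0 ∧ j = 1) := by
            rintro ⟨rfl, rfl⟩
            exact hw1 rfl
          obtain ⟨q, hq⟩ := h i j hij hne
          refine ⟨q, fun r hr t t' ht ht' => ?_⟩
          rw [← hq r hr t t' ht ht']
          have e1 : w3 ![t, t', r k] (List.replicate i 2 ++ 0 :: 1 :: List.replicate j 2) =
              r k ^ i * (t * t') * r k ^ j := by
            simp only [w3, List.map_append, List.map_cons, List.map_replicate, List.prod_append,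
              List.prod_cons, List.prod_replicate]
            show r k ^ i * (t * (t' * r k ^ j)) = _
            noncomm_ring
          have hS : C.S a a (r k ^ i * (t * t') * r k ^ j) :=
            C.rew_pow' (hr k) (C.rew_pow (hr k) (C.S_mul ht ht') i) j
          rw [e1, hS.2.1, hS.2.2]
          simp only [List.map_append, List.map_replicate, List.prod_append, List.prod_replicate]
          noncomm_ring
        · refine ⟨0, fun r hr t t' ht ht' => ?_⟩
          have e1 : w3 ![t, t', r k] (List.replicate i 2 ++ 0 :: 1 :: (List.replicate j 2 ++ 0 :: 1 :: v')) =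
              r k ^ i * (t * (t' * (r k ^ j * (t * (t' * w3 ![t, t', r k] v'))))) := by
            simp only [w3, List.map_append, List.map_cons, List.map_replicate, List.prod_append,
              List.prod_cons, List.prod_replicate]
            rfl
          rw [e1, C.rew_two ⟨G, hG1, hG2, hG3⟩ hg ht ht', mul_zero, zero_mul, map_zero, zero_mul]
  choose! Q hQ using key
  refine ⟨∑ w ∈ G.support.erase [0, 1, 2], (-(m * G w)) • Q w, fun r hr t t' ht ht' => ?_⟩
  have hA : ∀ i : Fin 3, (![t, t', r k] : Fin 3 → U) i ∈ C.A := by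
    intro i
    fin_cases i
    · exact C.S_mem ht
    · exact C.S_mem ht'
    · exact C.S_mem (hr k)
  have h1 := hG3 _ hA
  have h2 : ∑ w ∈ G.support, G w •
      ((w₁.map r).prod * (C.e a * w3 ![t, t', r k] w * C.e a) * (w₂.map r).prod) = 0 := by
    have h3 : (w₁.map r).prod * (C.e a * (G.sum fun w c => c • w3 ![t, t', r k] w) * C.e a) * (w₂.map r).prod = 0 := by
      rw [h1, mul_zero, zero_mul, mul_zero, zero_mul]
    rw [← h3, Finsupp.sum]
    simp only [Finset.mul_sum, Finset.sum_mul, mul_smul_comm, smul_mul_assoc]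
  have hmem : [0, 1, 2] ∈ G.support := by
    rw [Finsupp.mem_support_iff]
    intro h0
    exact hG2 (h0 ▸ dvd_zero _)
  rw [← Finset.add_sum_erase _ _ hmem] at h2
  have e012 : (w₁.map r).prod * (C.e a * w3 ![t, t', r k] [0, 1, 2] * C.e a) * (w₂.map r).prod =
      (w₁.map r).prod * (t * t') * ((k :: w₂).map r).prod := by
    have e1 : w3 ![t, t', r k] [0, 1, 2] = (t * t') * r k := by
      simp only [w3, List.map_cons, List.map_nil, List.prod_cons, List.prod_nil, mul_one]
      show t * (t' * r k) = _
      rw [mul_assoc]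
    have hS : C.S a a ((t * t') * r k) := C.S_mul (C.S_mul ht ht') (hr k)
    rw [e1, hS.2.1, hS.2.2, List.map_cons, List.prod_cons]
    noncomm_ring
  rw [e012] at h2
  have hmemA : (w₁.map r).prod * (t * t') * ((k :: w₂).map r).prod ∈ C.A :=
    C.A_right _ _ (C.A_left _ _ (C.A_right _ _ (C.S_mem ht)))
  have h4 : G [0, 1, 2] • ((w₁.map r).prod * (t * t') * ((k :: w₂).map r).prod) =
      -∑ w ∈ G.support.erase [0, 1, 2], G w •
        ((w₁.map r).prod * (C.e a * w3 ![t, t', r k] w * C.e a) * (w₂.map r).prod) :=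
    eq_neg_of_add_eq_zero_left h2
  rw [← hm _ hmemA, mul_smul, h4, smul_neg, Finset.smul_sum, map_sum, Finset.sum_mul, ← Finset.sum_neg_distrib]
  refine Finset.sum_congr rfl fun w hw => ?_
  rw [hQ w hw r hr t t' ht ht', smul_smul, map_zsmul, neg_smul, neg_mul, smul_mul_assoc]

private theorem rew_all (hC : C.Cub) {a g : Q} (hg : g ≠ a) : ∀ (n : ℕ) (w₂ w₁ : List ℕ),
    C.N ≤ w₁.length + w₂.length + n → C.RewOk a g w₁ w₂ := by
  intro n
  induction n with
  | zero =>
    intro w₂ w₁ hn
    refine ⟨0, fun r hr t t' ht ht' => ?_⟩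
    have h1 : (w₁.map r ++ [t, t'] ++ w₂.map r).prod = 0 := by
      apply C.nil
      · simp only [List.length_append, List.length_map, List.length_cons, List.length_nil]
        omega
      · intro x hx
        simp only [List.mem_append, List.mem_map, List.mem_cons, List.not_mem_nil, or_false] at hx
        rcases hx with (⟨i, _, rfl⟩ | rfl | rfl) | ⟨i, _, rfl⟩
        · exact (hr i).1
        · exact ht.1
        · exact ht'.1
        · exact (hr i).1
    rw [List.prod_append, List.prod_append] at h1
    simp only [List.prod_cons, List.prod_nil, mul_one] at h1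
    rw [h1, map_zero, zero_mul]
  | succ n ih =>
    intro w₂
    induction w₂ with
    | nil =>
      intro w₁ _
      refine ⟨mon w₁, fun r hr t t' ht ht' => ?_⟩
      rw [List.map_nil, List.prod_nil, mul_one, rew_lift_mon]
    | cons k w₂ ih2 =>
      intro w₁ hn
      rw [List.length_cons] at hn
      refine C.rew_step hC hg w₁ w₂ k fun i j hij hne => ?_
      by_cases h2 : 2 ≤ i + j
      · apply ih
        simp only [List.length_append, List.length_replicate]
        omega
      · have hi : i = 1 := by omega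
        have hj : j = 0 := by omega
        subst hi hj
        apply ih2
        simp only [List.length_append, List.length_replicate]
        omega

theorem rew (hC : C.Cub) {a g : Q} (hg : g ≠ a) (w₁ w₂ : List ℕ) :
    ∃ q : P, ∀ r : ℕ → U, (∀ i, C.S a a (r i)) → ∀ t t' : U, C.S a g t → C.S g a t' →
      (w₁.map r).prod * (t * t') * (w₂.map r).prod = FreeAlgebra.lift ℤ r q * (t * t') :=
  C.rew_all hC hg C.N w₂ w₁ (Nat.le_add_left _ _)

end Base

end ADM
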