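import Pool.Agent.ADM.Step
import Pool.Agent.ADM.Desc
import Pool.Agent.ADM.Ntw

/-!
# ADM-RewL

Type L: every word of length at least 3 with a twisted letter is a combination of words with exactly one twisted letter, the
last one.

PLAN.  `desc` with `P v = (3 ≤ v.length ∧ ∃ k ∈ v, Tw)`, `G = NfL`, `μ = 0`.  `P` is preserved: `Rw` (counts do not decrease) and the lengths do
not decrease (`Deep`).  Let `P v`, `v` not in normal form, `v = u ++ x :: u'` with the first twisted letter `x` (`ntw_first`); `u' ≠ []` (otherwise normal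
form).  If `u = []`: `u' = y :: u''`, `u'' ≠ []` by the length; `step` with the blocks `[x]`, `[y]`, `u''`: `tot [x] = σ x` is not divisible by
`r a`, so hσ, hL, hT' hold trivially, and hR, hM, hT by `TyL`.  If `u ≠ []`: `step` with the blocks `u`, `[x]`, `u'`: hσ, hL, hR trivially, hM,
hT, hT' by `TyL`.
vanL2: in the combination of normal forms given by rewL, every word `v'` has exactly one twisted letter, `ntw v' = 1`, but
`ntw v ≤ ntw v'` (`ntw_mono`); so the support is empty.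
-/

namespace ADM

open AD ADN

namespace Ctx

variable {U : Type} [Ring U] {Q : Type} [Fintype Q] (C : Ctx U Q)
variable {ι : Type} [DecidableEq ι]

/-- exactly one twisted letter, the last one -/
def NfL (a : Q) (σ : ι → ℕ) (v : List ι) : Prop :=
  ∃ u x, v = u ++ [x] ∧ (∀ k ∈ u, ¬ C.Tw a (σ k)) ∧ C.Tw a (σ x)

omit [DecidableEq ι] in
private theorem rl_tot (σ : ι → ℕ) (x : ι) : tot σ [x] = σ x := by
  unfold tot
  rw [List.map_cons, List.map_nil, List.sum_cons, List.sum_nil, add_zero]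

private theorem rl_step (hC : C.Cub) (hL : TyL C.Rl C.p) {a : Q} (ha : 2 ≤ C.r a) (σ : ι → ℕ)
    (v : List ι) (hv : 3 ≤ v.length) (htw : ∃ k ∈ v, C.Tw a (σ k)) (hG : ¬ C.NfL a σ v) :
    ∃ c : List ι →₀ ℤ, C.Deep a σ v c ∧ ∀ r, C.LHom a σ r → (v.map r).prod = C.val r a c := by
  obtain ⟨u, x, u', e, hu, hx⟩ := C.ntw_first (C.ntw_pos.2 htw)
  have hu' : u' ≠ [] := by
    intro h0
    subst h0
    exact hG ⟨u, x, e, hu, hx⟩
  have hx' : ¬ C.r a ∣ tot σ [x] := by
    rw [rl_tot]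
    exact hx
  by_cases h0 : u = []
  · subst h0
    obtain ⟨y, u'', rfl⟩ := List.exists_cons_of_ne_nil hu'
    have hu'' : u'' ≠ [] := by
      intro h1
      subst h1
      rw [e] at hv
      simp at hv
    have h2 := C.step hC ha σ [x] [y] u'' (List.cons_ne_nil _ _) (List.cons_ne_nil _ _) hu''
      (fun h => hx' h.1) (fun h _ => absurd h hx') (fun _ _ => hL.1) (fun _ _ => hL.2.2.2)
      (fun _ _ => hL.2.1) (fun _ _ => hL.2.2.1)
    rw [e]
    exact h2
  · have h2 := C.step hC ha σ u [x] u' h0 (List.cons_ne_nil _ _) hu'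
      (fun h => hx' h.2.1) (fun _ h => absurd h hx') (fun _ _ => hL.1) (fun _ _ => hL.2.2.2)
      (fun _ _ => hL.2.1) (fun _ _ => hL.2.2.1)
    have e2 : u ++ [x] ++ u' = v := by
      rw [e, List.append_assoc, List.singleton_append]
    rw [← e2]
    exact h2

theorem rewL (hC : C.Cub) (hL : TyL C.Rl C.p) {a : Q} (ha : 2 ≤ C.r a) (σ : ι → ℕ) (v : List ι)
    (hv : 3 ≤ v.length) (htw : ∃ k ∈ v, C.Tw a (σ k)) :
    ∃ c : List ι →₀ ℤ, (∀ v' ∈ c.support, C.NfL a σ v' ∧ C.Rw a σ v v') ∧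
      ∀ r, C.LHom a σ r → (v.map r).prod = C.val r a c := by
  obtain ⟨c, h1, h2⟩ := C.desc σ (fun v => 3 ≤ v.length ∧ ∃ k ∈ v, C.Tw a (σ k)) (C.NfL a σ)
    (fun _ => 0) (fun w hw h0 => by
      rw [h0] at hw
      exact absurd hw.1 (by simp)) (fun w hw hG => by
      obtain ⟨c, a1, a2⟩ := C.rl_step hC hL ha σ w hw.1 hw.2 hG
      refine ⟨c, fun v' hv' => ?_, a2⟩
      obtain ⟨a3, a4⟩ := a1 v' hv'
      refine ⟨⟨?_, ?_⟩, a3, ?_⟩
      · have hw1 := hw.1
        rcases a4 with a4 | a4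
        · omega
        · omega
      · obtain ⟨k, hk, hk'⟩ := hw.2
        refine ⟨k, ?_, hk'⟩
        rw [← List.count_pos_iff] at hk ⊢
        exact lt_of_lt_of_le hk (a3.1 k)
      · rcases a4 with a4 | a4
        · exact Or.inl a4
        · exact Or.inr ⟨a4.1, Or.inl a4.2⟩) v ⟨hv, htw⟩
  exact ⟨c, fun v' hv' => (h1 v' hv').2, h2⟩

theorem vanL2 (hC : C.Cub) (hL : TyL C.Rl C.p) {a : Q} (ha : 2 ≤ C.r a) (σ : ι → ℕ) (v : List ι)
    (hv : 3 ≤ v.length) (htw : 2 ≤ C.ntw a σ v) (r : ι → U) (hr : C.LHom a σ r) :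
    (v.map r).prod = 0 := by
  obtain ⟨c, h1, h2⟩ := C.rewL hC hL ha σ v hv (C.ntw_pos.1 (by omega))
  have h3 : c = 0 := by
    rw [← Finsupp.support_eq_empty]
    refine Finset.eq_empty_of_forall_notMem fun v' hv' => ?_
    obtain ⟨⟨u, x, e, hu, hx⟩, h4⟩ := h1 v' hv'
    have h5 := C.ntw_mono h4
    have h6 : C.ntw a σ v' = 1 := by
      rw [e, C.ntw_append, C.ntw_cons_tw [] hx, C.ntw_nil, C.ntw_eq_zero.2 hu]
    omega
  rw [h2 r hr, h3]
  unfold Base.val
  rw [Finsupp.sum_zero_index]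

end Ctx

end ADM
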