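import Pool.Agent.ADM.Step
import Pool.Agent.ADM.Desc
import Pool.Agent.ADM.Ntw

/-!
# ADM-RewR

Type R: every word of length at least 3 with a twisted letter is a combination of words with exactly one twisted letter, the
first one (mirror image of RewL); hence words with two twisted letters vanish.
-/

namespace ADM

open AD ADN

namespace Ctx

variable {U : Type} [Ring U] {Q : Type} [Fintype Q] (C : Ctx U Q)
variable {ι : Type} [DecidableEq ι]

/-- exactly one twisted letter, the first one -/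
def NfR (a : Q) (σ : ι → ℕ) (v : List ι) : Prop :=
  ∃ x u, v = x :: u ∧ (∀ k ∈ u, ¬ C.Tw a (σ k)) ∧ C.Tw a (σ x)

omit [DecidableEq ι] in
private theorem rr_tot (σ : ι → ℕ) (x : ι) : tot σ [x] = σ x := by
  unfold tot
  rw [List.map_cons, List.map_nil, List.sum_cons, List.sum_nil, add_zero]

private theorem rr_step (hC : C.Cub) (hR : TyR C.Rl C.p) {a : Q} (ha : 2 ≤ C.r a) (σ : ι → ℕ)
    (v : List ι) (hv : 3 ≤ v.length) (htw : ∃ k ∈ v, C.Tw a (σ k)) (hG : ¬ C.NfR a σ v) :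
    ∃ c : List ι →₀ ℤ, C.Deep a σ v c ∧ ∀ r, C.LHom a σ r → (v.map r).prod = C.val r a c := by
  obtain ⟨u, y, u', e, hu, hy⟩ := C.ntw_last (C.ntw_pos.2 htw)
  have hu0 : u ≠ [] := by
    intro h0
    subst h0
    exact hG ⟨y, u', e, hu, hy⟩
  have hy' : ¬ C.r a ∣ tot σ [y] := by
    rw [rr_tot]
    exact hy
  by_cases h0 : u' = []
  · subst h0
    have e1 := List.dropLast_append_getLast hu0
    have hu'' : u.dropLast ≠ [] := by
      intro h1
      have h2 := congrArg List.length h1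
      rw [List.length_dropLast, List.length_nil] at h2
      rw [e, List.length_append, List.length_cons, List.length_nil] at hv
      omega
    have h2 := C.step hC ha σ u.dropLast [u.getLast hu0] [y] hu'' (List.cons_ne_nil _ _)
      (List.cons_ne_nil _ _) (fun h => hy' h.2.2) (fun _ _ => hR.1) (fun _ h => absurd h hy')
      (fun _ _ => hR.2.2.2) (fun _ _ => hR.2.1) (fun _ _ => hR.2.2.1)
    rw [e1] at h2
    rw [e]
    exact h2
  · have h2 := C.step hC ha σ u [y] u' hu0 (List.cons_ne_nil _ _) h0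
      (fun h => hy' h.2.1) (fun _ _ => hR.1) (fun h _ => absurd h hy') (fun _ _ => hR.2.2.2)
      (fun _ _ => hR.2.1) (fun _ _ => hR.2.2.1)
    have e2 : u ++ [y] ++ u' = v := by
      rw [e, List.append_assoc, List.singleton_append]
    rw [← e2]
    exact h2

theorem rewR (hC : C.Cub) (hR : TyR C.Rl C.p) {a : Q} (ha : 2 ≤ C.r a) (σ : ι → ℕ) (v : List ι)
    (hv : 3 ≤ v.length) (htw : ∃ k ∈ v, C.Tw a (σ k)) :
    ∃ c : List ι →₀ ℤ, (∀ v' ∈ c.support, C.NfR a σ v' ∧ C.Rw a σ v v') ∧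
      ∀ r, C.LHom a σ r → (v.map r).prod = C.val r a c := by
  obtain ⟨c, h1, h2⟩ := C.desc σ (fun v => 3 ≤ v.length ∧ ∃ k ∈ v, C.Tw a (σ k)) (C.NfR a σ)
    (fun _ => 0) (fun w hw h0 => by
      rw [h0] at hw
      exact absurd hw.1 (by simp)) (fun w hw hG => by
      obtain ⟨c, a1, a2⟩ := C.rr_step hC hR ha σ w hw.1 hw.2 hG
      refine ⟨c, fun v' hv' => ?_, a2⟩
      obtain ⟨a3, a4⟩ := a1 v' hv'
      refine ⟨⟨?_, ?_⟩, a3, ?_⟩
      · have hw1 := hw.1
        rcases a4 with a4 | a4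
        · omega
        · omega
      · obtain ⟨k, hk, hk'⟩ := hw.2
        refine ⟨k, ?_, hk'⟩
        rw [← List.count_pos_iff] at hk ⊢
        exact lt_of_lt_of_le hk (a3.1 k)
      · rcases a4 with a4 | a4
        · exact Or.inl a4
        · exact Or.inr ⟨a4.1, Or.inl a4.2⟩) v ⟨hv, htw⟩
  exact ⟨c, fun v' hv' => (h1 v' hv').2, h2⟩

theorem vanR2 (hC : C.Cub) (hR : TyR C.Rl C.p) {a : Q} (ha : 2 ≤ C.r a) (σ : ι → ℕ) (v : List ι)
    (hv : 3 ≤ v.length) (htw : 2 ≤ C.ntw a σ v) (r : ι → U) (hr : C.LHom a σ r) :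
    (v.map r).prod = 0 := by
  obtain ⟨c, h1, h2⟩ := C.rewR hC hR ha σ v hv (C.ntw_pos.1 (by omega))
  have h3 : c = 0 := by
    rw [← Finsupp.support_eq_empty]
    refine Finset.eq_empty_of_forall_notMem fun v' hv' => ?_
    obtain ⟨⟨x, u, e, hu, hx⟩, h4⟩ := h1 v' hv'
    have h5 := C.ntw_mono h4
    have h6 : C.ntw a σ v' = 1 := by
      rw [e, C.ntw_cons_tw u hx, C.ntw_eq_zero.2 hu]
    omega
  rw [h2 r hr, h3]
  unfold Base.val
  rw [Finsupp.sum_zero_index]

end Ctx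

end ADM
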