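import Pool.Agent.ADM.NvB
import Pool.Agent.ADM.Dft

/-!
# ADM-SepA

Separation of words with arrows, membership part.

PLAN.  `n_a = n a`, etc.; `g = tgt k₀`.  The words `lts q` are nonempty (`R` nonempty), so all values are in `J ⊆ A` and sorted.  By `hS.van` the words `q` of `c` which are not ok
contribute 0 to `xval`, for the others `hS.form`.
1. Gauge part (second alternative of `hS.gauge`).  Fix `r`.  For `t < n_g` apply `h` to `θ` with `θ (blk g)` replaced by `t` and to `r' = r` with `r' k₀ = r k₀ * w g ^ ((n_g - 1) * t * γ₀)`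
   (`Hom`: the blocks of `src k₀`, `tgt k₀` are different, so there is no twist condition).  Because `k₀` occurs exactly once in `lts q`, `lts q = u ++ k₀ :: u'`, the value of `q` is
   `w a ^ (..α) * (u value) * (r k₀ * w g ^ (t * (γ q + (n_g - 1) * γ₀))) * (u' value) * w b ^ (..β)`.  Sum over `t < n_g`: by `gs` (and `r k₀ * e g = r k₀`) the term is multiplied by `n_g` if
   `γ q ≡ γ₀` and is 0 otherwise.  Multiply by an inverse of `n_g` modulo `p ^ K` (`n_coprime`, `inv_mod`).  Result: `∑_{q ok, γ q ≡ γ₀} c q • w a ^ (θ_a α) * wv r a (lts q) * w b ^ (θ_b β) ∈ X`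
   for all `θ_a, θ_b`.  In the first alternative (`γ = 0`): `gau` is the identity; if `γ₀ ≢ 0` the class is empty.
2. If `blk a ≠ blk b`, `θ_a` and `θ_b` are independent: `dftL` for `θ_a` (at `a`), then `dftR` for `θ_b` (at `b`).  If `a = b` and `β = 0`: `dftL`; if `β₀ ≢ 0` the class is empty.
3. `val r a (psh ...) = ∑_{q in the class} c q • wv r a (lts q)` (`Finsupp.sum_mapDomain_index`).
-/

namespace ADM

open AD ADN ADN.Ctx

namespace Ctx

variable {U : Type} [Ring U] {Q : Type} [Fintype Q] (C : Ctx U Q)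
variable {ι : Type} [Fintype ι] [DecidableEq ι]

private theorem sa_ndvd (a : Q) : ¬ (C.p : ℤ) ∣ (C.n a : ℤ) := by
  intro h
  have h1 : C.p ∣ C.n a := Int.natCast_dvd_natCast.1 h
  have h2 := Nat.dvd_gcd h1 (dvd_refl C.p)
  rw [(C.n_coprime a).gcd_eq_one] at h2
  exact C.hp.one_lt.ne' (Nat.dvd_one.1 h2)

private theorem sa_final (a : Q) {X : AddSubgroup U} {x : U} (hx : x ∈ C.A)
    (h : (C.n a : ℤ) • x ∈ X) : x ∈ X := by
  obtain ⟨m, hm⟩ := C.inv_mod (sa_ndvd C a)
  rw [← hm x hx, mul_smul]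
  exact X.zsmul_mem h m

private theorem sa_mod (a : Q) (m m₀ : ℕ) :
    C.n a ∣ (C.n a - 1) * m₀ + m ↔ m ≡ m₀ [MOD C.n a] := by
  have hn := C.n_pos a
  have e1 : (C.n a - 1) * m₀ + m₀ = C.n a * m₀ := by
    obtain ⟨j, hj⟩ := Nat.exists_eq_succ_of_ne_zero hn.ne'
    rw [hj, Nat.succ_sub_one, Nat.succ_mul]
  constructor
  · intro h
    have h1 : (C.n a - 1) * m₀ + m ≡ (C.n a - 1) * m₀ + m₀ [MOD C.n a] := by
      rw [e1]
      exact ((Nat.modEq_zero_iff_dvd.2 h)).trans (Nat.modEq_zero_iff_dvd.2 (Dvd.intro _ rfl)).symm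
    exact Nat.ModEq.add_left_cancel' _ h1
  · intro h
    have h1 : (C.n a - 1) * m₀ + m ≡ (C.n a - 1) * m₀ + m₀ [MOD C.n a] := Nat.ModEq.add_left _ h
    rw [e1] at h1
    exact Nat.modEq_zero_iff_dvd.1 (h1.trans (Nat.modEq_zero_iff_dvd.2 (Dvd.intro _ rfl)))

omit [Fintype Q] [Fintype ι] in
private theorem sa_lin (r : ι → U) (k₀ : ι) : ∀ v : List ι, v.count k₀ = 1 → ∃ A B : U, ∀ z : U,
    (v.map fun k => if k = k₀ then z else r k).prod = A * z * B := by
  intro v
  induction v with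
  | nil => intro h; simp at h
  | cons l v ih =>
    intro h
    by_cases hl : l = k₀
    · subst hl
      rw [List.count_cons_self] at h
      have h0 : v.count l = 0 := by omega
      have hn : l ∉ v := List.count_eq_zero.1 h0
      refine ⟨1, (v.map r).prod, fun z => ?_⟩
      rw [List.map_cons, List.prod_cons, if_pos rfl, one_mul]
      congr 2
      refine List.map_congr_left fun k hk => ?_
      rw [if_neg]
      rintro rfl
      exact hn hk
    · rw [List.count_cons_of_ne hl] at h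
      obtain ⟨A, B, hAB⟩ := ih h
      refine ⟨r l * A, B, fun z => ?_⟩
      rw [List.map_cons, List.prod_cons, if_neg hl, hAB, ← mul_assoc, ← mul_assoc]

/-- the sum over the powers of the Teichmueller element of a letter -/
private theorem sa_sum (g : Q) {x : U} (hx : x * C.e g = x) (m m₀ : ℕ) :
    ∑ t ∈ Finset.range (C.n g), x * C.w g ^ (t * ((C.n g - 1) * m₀ + m)) =
      if m ≡ m₀ [MOD C.n g] then (C.n g : ℤ) • x else 0 := by
  split_ifs with hm
  · have h2 : ∀ t ∈ Finset.range (C.n g), x * C.w g ^ (t * ((C.n g - 1) * m₀ + m)) = x := by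
      intro t _
      have h3 : t * ((C.n g - 1) * m₀ + m) ≡ 0 [MOD C.n g] :=
        Nat.modEq_zero_iff_dvd.2 (Dvd.dvd.mul_left ((sa_mod C g _ _).2 hm) t)
      rw [C.w_pow_right h3 hx, pow_zero, mul_one]
    rw [Finset.sum_congr rfl h2, Finset.sum_const, Finset.card_range, natCast_zsmul]
  · have h2 : ∀ t ∈ Finset.range (C.n g), x * C.w g ^ (t * ((C.n g - 1) * m₀ + m)) =
        x * (C.e g * C.w g ^ (t * ((C.n g - 1) * m₀ + m))) := by
      intro t _
      rw [← mul_assoc, hx]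
    rw [Finset.sum_congr rfl h2, ← Finset.mul_sum, C.gs g (fun h => hm ((sa_mod C g _ _).1 h)), mul_zero]

omit [Fintype ι] [DecidableEq ι] in
private theorem sa_J {src tgt : ι → Q} {σ : ι → ℕ} {r : ι → U} (hr : C.Hom src tgt σ r) {a b : Q}
    {v : List ι} (hv : v ≠ []) (hp : pth src tgt a v b) : C.S a b (C.wv r a v) := by
  have hs : C.Srt src tgt r := fun k => (hr k).1
  rw [Base.wv_eq C.toBase hs hv hp]
  exact Base.S_path C.toBase hs v a b hv hp

omit [Fintype ι] in
/-- twisting one letter -/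
private theorem sa_hom {src tgt : ι → Q} {σ : ι → ℕ} {r : ι → U} (hr : C.Hom src tgt σ r) {k₀ : ι}
    (hk : C.blk (src k₀) ≠ C.blk (tgt k₀)) (m : ℕ) :
    C.Hom src tgt σ fun k => if k = k₀ then r k₀ * C.w (tgt k₀) ^ m else r k := by
  intro k
  by_cases h : k = k₀
  · subst h
    have h1 : (fun i => if i = k then r k * C.w (tgt k) ^ m else r i) k = r k * C.w (tgt k) ^ m :=
      if_pos rfl
    rw [h1]
    refine ⟨⟨C.J_right _ _ (hr k).1.1, ?_, ?_⟩, fun h2 => absurd h2 hk⟩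
    · rw [← mul_assoc, (hr k).1.2.1]
    · exact C.w_pow_e m (hr k).1.2.2
  · have h1 : (fun i => if i = k₀ then r k₀ * C.w (tgt k₀) ^ m else r i) k = r k := if_neg h
    rw [h1]
    exact hr k

omit [Fintype ι] in
/-- the gauge part -/
private theorem sa_gauge (src tgt : ι → Q) (σ : ι → ℕ) (a b : Q) (k₀ : ι) (α β γ : (ℕ × List (ι × ℕ)) → ℕ) (X : AddSubgroup U)
    (s : Finset (ℕ × List (ι × ℕ))) (c : (ℕ × List (ι × ℕ)) → ℤ)
    (hs : ∀ q ∈ s, lts q ≠ [] ∧ pth src tgt a (lts q) b)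
    (hg : (∀ q, γ q = 0) ∨ (C.blk (tgt k₀) ≠ C.blk a ∧ C.blk (tgt k₀) ≠ C.blk b ∧
      C.blk (src k₀) ≠ C.blk (tgt k₀) ∧ ∀ q ∈ s, (lts q).count k₀ = 1))
    (h : ∀ (θ : ℕ → ℕ) r, C.Hom src tgt σ r → ∑ q ∈ s, c q • (C.w a ^ (θ (C.blk a) * α q) *
      C.wv (C.gau θ tgt k₀ (γ q) r) a (lts q) * C.w b ^ (θ (C.blk b) * β q)) ∈ X) (γ₀ : ℕ) :
    ∀ (θ : ℕ → ℕ) r, C.Hom src tgt σ r → ∑ q ∈ s with γ q ≡ γ₀ [MOD C.n (tgt k₀)],
      c q • (C.w a ^ (θ (C.blk a) * α q) * C.wv r a (lts q) * C.w b ^ (θ (C.blk b) * β q)) ∈ X := by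
  intro θ r hr
  rcases hg with hg | ⟨hga, hgb, hgs, hcount⟩
  · by_cases h0 : 0 ≡ γ₀ [MOD C.n (tgt k₀)]
    · rw [Finset.filter_true_of_mem (fun q _ => by rw [hg q]; exact h0)]
      have h1 := h θ r hr
      have h2 : ∀ q, C.gau θ tgt k₀ (γ q) r = r := by
        intro q
        funext k
        unfold gau
        rw [hg q, mul_zero, pow_zero, mul_one, ite_self]
      simp_rw [h2] at h1
      exact h1
    · rw [Finset.filter_false_of_mem (fun q _ => by rw [hg q]; exact h0), Finset.sum_empty]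
      exact X.zero_mem
  · refine sa_final C (tgt k₀) ?_ ?_
    · refine sum_mem fun q hq => ?_
      obtain ⟨h1, h2⟩ := hs q (Finset.mem_filter.1 hq).1
      exact C.A.zsmul_mem (C.A_right _ _ (C.A_left _ _ (C.J_le (sa_J C hr h1 h2).1))) _
    · have key : ∑ t ∈ Finset.range (C.n (tgt k₀)), ∑ q ∈ s, c q •
          (C.w a ^ (Function.update θ (C.blk (tgt k₀)) t (C.blk a) * α q) *
          C.wv (C.gau (Function.update θ (C.blk (tgt k₀)) t) tgt k₀ (γ q)
            (fun k => if k = k₀ then r k₀ * C.w (tgt k₀) ^ (t * ((C.n (tgt k₀) - 1) * γ₀)) else r k)) a (lts q) *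
          C.w b ^ (Function.update θ (C.blk (tgt k₀)) t (C.blk b) * β q)) =
          (C.n (tgt k₀) : ℤ) • ∑ q ∈ s with γ q ≡ γ₀ [MOD C.n (tgt k₀)],
            c q • (C.w a ^ (θ (C.blk a) * α q) * C.wv r a (lts q) * C.w b ^ (θ (C.blk b) * β q)) := by
        rw [Finset.sum_comm, Finset.smul_sum, Finset.sum_filter]
        refine Finset.sum_congr rfl fun q hq => ?_
        obtain ⟨A, B, hAB⟩ := sa_lin r k₀ (lts q) (hcount q hq)
        have h1 : ∀ t, C.gau (Function.update θ (C.blk (tgt k₀)) t) tgt k₀ (γ q)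
            (fun k => if k = k₀ then r k₀ * C.w (tgt k₀) ^ (t * ((C.n (tgt k₀) - 1) * γ₀)) else r k) =
            fun k => if k = k₀ then r k₀ * C.w (tgt k₀) ^ (t * ((C.n (tgt k₀) - 1) * γ₀ + γ q)) else r k := by
          intro t
          funext k
          unfold gau
          by_cases hk : k = k₀
          · simp only [hk, if_true]
            rw [Function.update_self, mul_assoc, ← pow_add, ← mul_add]
          · simp only [hk, if_false]
        have h2 : ∀ t, C.wv (fun k => if k = k₀ then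
            r k₀ * C.w (tgt k₀) ^ (t * ((C.n (tgt k₀) - 1) * γ₀ + γ q)) else r k) a (lts q) =
            C.e a * A * (r k₀ * C.w (tgt k₀) ^ (t * ((C.n (tgt k₀) - 1) * γ₀ + γ q))) * B := by
          intro t
          unfold Base.wv
          rw [hAB, ← mul_assoc, ← mul_assoc]
        have h3 : C.wv r a (lts q) = C.e a * A * r k₀ * B := by
          have h4 : r = fun k => if k = k₀ then r k₀ else r k := by
            funext k
            split_ifs with hk
            · rw [hk]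
            · rfl
          unfold Base.wv
          conv_lhs => rw [h4]
          rw [hAB, ← mul_assoc, ← mul_assoc]
        simp_rw [h1, h2, Function.update_of_ne hga.symm, Function.update_of_ne hgb.symm]
        rw [← Finset.smul_sum, ← Finset.sum_mul, ← Finset.mul_sum, ← Finset.sum_mul, ← Finset.mul_sum,
          sa_sum C (tgt k₀) (hr k₀).1.2.2]
        split_ifs with hm
        · rw [h3, mul_smul_comm, smul_mul_assoc, mul_smul_comm, smul_mul_assoc, smul_comm]
        · rw [mul_zero, zero_mul, mul_zero, zero_mul, smul_zero]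
      rw [← key]
      exact sum_mem fun t _ => h _ _ (sa_hom C hr hgs _)

omit [Fintype ι] [DecidableEq ι] in
/-- separation at both ends -/
private theorem sa_sep (src tgt : ι → Q) (σ : ι → ℕ) (a b : Q)
    (α β : (ℕ × List (ι × ℕ)) → ℕ) (X : AddSubgroup U)
    (hXl : ∀ u x, x ∈ X → u * x ∈ X) (hXr : ∀ u x, x ∈ X → x * u ∈ X)
    (s : Finset (ℕ × List (ι × ℕ))) (c : (ℕ × List (ι × ℕ)) → ℤ)
    (hs : ∀ q ∈ s, lts q ≠ [] ∧ pth src tgt a (lts q) b)
    (hsep : (a = b ∧ ∀ q, β q = 0) ∨ C.blk a ≠ C.blk b) (r : ι → U) (hr : C.Hom src tgt σ r)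
    (h : ∀ θ : ℕ → ℕ, ∑ q ∈ s,
      c q • (C.w a ^ (θ (C.blk a) * α q) * C.wv r a (lts q) * C.w b ^ (θ (C.blk b) * β q)) ∈ X)
    (α₀ β₀ : ℕ) :
    ∑ q ∈ s with (α q ≡ α₀ [MOD C.n a] ∧ β q ≡ β₀ [MOD C.n b]), c q • C.wv r a (lts q) ∈ X := by
  have hJ : ∀ q ∈ s, C.S a b (C.wv r a (lts q)) := fun q hq => sa_J C hr (hs q hq).1 (hs q hq).2
  rcases hsep with ⟨hab, hβ⟩ | hab
  · have h1 := C.dftL a s α (fun q => c q • C.wv r a (lts q)) (fun q hq =>
      ⟨C.A.zsmul_mem (C.J_le (hJ q hq).1) _, by rw [mul_smul_comm, (hJ q hq).2.1]⟩) X hXl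
      (fun t => by
        have h2 := h fun _ => t
        have h3 : ∀ q ∈ s, c q • (C.w a ^ (t * α q) * C.wv r a (lts q) * C.w b ^ (t * β q)) =
            C.w a ^ (t * α q) * c q • C.wv r a (lts q) := by
          intro q _
          rw [hβ q, mul_zero, pow_zero, mul_one, mul_smul_comm]
        rwa [Finset.sum_congr rfl h3] at h2) α₀
    by_cases h0 : 0 ≡ β₀ [MOD C.n b]
    · have h2 : (s.filter fun q => α q ≡ α₀ [MOD C.n a] ∧ β q ≡ β₀ [MOD C.n b]) =
          s.filter fun q => α q ≡ α₀ [MOD C.n a] := by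
        refine Finset.filter_congr fun q _ => ?_
        rw [hβ q]
        exact ⟨fun h => h.1, fun h => ⟨h, h0⟩⟩
      rw [h2]
      exact h1
    · rw [Finset.filter_false_of_mem (fun q _ hq => h0 (by rw [← hβ q]; exact hq.2)), Finset.sum_empty]
      exact X.zero_mem
  · have h1 : ∀ t : ℕ, ∑ q ∈ s with α q ≡ α₀ [MOD C.n a],
        (c q • C.wv r a (lts q)) * C.w b ^ (t * β q) ∈ X := by
      intro t
      refine C.dftL a s α (fun q => (c q • C.wv r a (lts q)) * C.w b ^ (t * β q)) (fun q hq =>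
        ⟨C.A_right _ _ (C.A.zsmul_mem (C.J_le (hJ q hq).1) _), by
          rw [← mul_assoc, mul_smul_comm, (hJ q hq).2.1]⟩) X hXl (fun u => ?_) α₀
      have h2 := h fun j => if j = C.blk a then u else t
      rw [if_pos rfl, if_neg (Ne.symm hab)] at h2
      have h3 : ∀ q ∈ s, c q • (C.w a ^ (u * α q) * C.wv r a (lts q) * C.w b ^ (t * β q)) =
          C.w a ^ (u * α q) * (c q • C.wv r a (lts q) * C.w b ^ (t * β q)) := by
        intro q _
        rw [smul_mul_assoc, mul_smul_comm, mul_assoc]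
      rwa [Finset.sum_congr rfl h3] at h2
    have h4 := C.dftR b (s.filter fun q => α q ≡ α₀ [MOD C.n a]) β (fun q => c q • C.wv r a (lts q))
      (fun q hq => by
        have hq' := (Finset.mem_filter.1 hq).1
        exact ⟨C.A.zsmul_mem (C.J_le (hJ q hq').1) _, by rw [smul_mul_assoc, (hJ q hq').2.2]⟩) X hXr h1 β₀
    rw [Finset.filter_filter] at h4
    exact h4

theorem sepA (src tgt : ι → Q) (σ : ι → ℕ) (a b : Q) (R : Finset ι) (hR : R.Nonempty) (k₀ : ι)
    (ok : (ℕ × List (ι × ℕ)) → Prop) (α β γ : (ℕ × List (ι × ℕ)) → ℕ)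
    (hS : C.Sep src tgt σ a b R k₀ ok α β γ) (X : AddSubgroup U)
    (hXl : ∀ u x, x ∈ X → u * x ∈ X) (hXr : ∀ u x, x ∈ X → x * u ∈ X)
    (c : (ℕ × List (ι × ℕ)) →₀ ℤ) (hc : ∀ q ∈ c.support, (lts q).toFinset = R)
    (h : ∀ θ r, C.Hom src tgt σ r → C.xval θ src tgt r a b c ∈ X) (α₀ β₀ γ₀ : ℕ) :
    ∀ r, C.Hom src tgt σ r →
      C.val r a (C.psh a b (tgt k₀) ok α β γ α₀ β₀ γ₀ c) ∈ X := by
  classical
  intro r hr
  have hne : ∀ q, (lts q).toFinset = R → lts q ≠ [] := by
    intro q hq h0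
    rw [h0, List.toFinset_nil] at hq
    exact hR.ne_empty hq.symm
  have hs : ∀ q ∈ c.support.filter ok, lts q ≠ [] ∧ pth src tgt a (lts q) b := by
    intro q hq
    obtain ⟨h1, h2⟩ := Finset.mem_filter.1 hq
    exact ⟨hne q (hc q h1), hS.path q (hc q h1) h2⟩
  have hx : ∀ θ r, C.Hom src tgt σ r → ∑ q ∈ c.support.filter ok, c q • (C.w a ^ (θ (C.blk a) * α q) *
      C.wv (C.gau θ tgt k₀ (γ q) r) a (lts q) * C.w b ^ (θ (C.blk b) * β q)) ∈ X := by
    intro θ r hr
    have h1 := h θ r hr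
    have h2 : C.xval θ src tgt r a b c = ∑ q ∈ c.support.filter ok, c q •
        (C.w a ^ (θ (C.blk a) * α q) *
      C.wv (C.gau θ tgt k₀ (γ q) r) a (lts q) * C.w b ^ (θ (C.blk b) * β q)) := by
      unfold xval Finsupp.sum
      rw [Finset.sum_filter]
      refine Finset.sum_congr rfl fun q hq => ?_
      beta_reduce
      split_ifs with hok
      · rw [hS.form q (hc q hq) hok θ r hr]
      · rw [hS.van q (hc q hq) hok θ r hr, smul_zero]
    rwa [h2] at h1
  have hg : (∀ q, γ q = 0) ∨ (C.blk (tgt k₀) ≠ C.blk a ∧ C.blk (tgt k₀) ≠ C.blk b ∧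
      C.blk (src k₀) ≠ C.blk (tgt k₀) ∧ ∀ q ∈ c.support.filter ok, (lts q).count k₀ = 1) := by
    rcases hS.gauge with h1 | ⟨h1, h2, h3, h4⟩
    · exact Or.inl h1
    · refine Or.inr ⟨h1, h2, h3, fun q hq => ?_⟩
      obtain ⟨h5, h6⟩ := Finset.mem_filter.1 hq
      exact h4 q (hc q h5) h6
  have h1 := sa_gauge C src tgt σ a b k₀ α β γ X (c.support.filter ok) c hs hg hx γ₀
  have h2 := sa_sep C src tgt σ a b α β X hXl hXr
    ((c.support.filter ok).filter fun q => γ q ≡ γ₀ [MOD C.n (tgt k₀)]) c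
    (fun q hq => hs q (Finset.mem_filter.1 hq).1) hS.sep r hr (fun θ => h1 θ r hr) α₀ β₀
  have h3 : C.val r a (C.psh a b (tgt k₀) ok α β γ α₀ β₀ γ₀ c) =
      ∑ q ∈ ((c.support.filter ok).filter fun q => γ q ≡ γ₀ [MOD C.n (tgt k₀)]) with
        (α q ≡ α₀ [MOD C.n a] ∧ β q ≡ β₀ [MOD C.n b]), c q • C.wv r a (lts q) := by
    unfold Base.val psh
    rw [Finsupp.sum_mapDomain_index (h := fun v n => n • C.wv r a v) (fun _ => zero_smul _ _)
      (fun _ _ _ => add_smul _ _ _), Finsupp.sum_filter_index, Finsupp.support_filter, Finset.filter_filter, Finset.filter_filter]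
    refine Finset.sum_congr ?_ fun _ _ => rfl
    refine Finset.filter_congr fun q _ => ?_
    tauto
  rw [h3]
  exact h2

end Ctx

end ADM
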