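import Pool.Agent.ADM.NvB
import Pool.Agent.ADM.Dft

/-!
# ADM-SepB

Separation of words with arrows, reconstruction part.

PLAN.  `xval θ r c = ∑_{q ok} c q • w a ^ (θ_a * α q) * wv (gau θ tgt k₀ (γ q) r) a (lts q) * w b ^ (θ_b * β q)` (`hS.van`, `hS.form`).  Group the words by the residues
`(α₀, β₀, γ₀)` of `(α q, β q, γ q)` modulo `(n a, n b, n g)`, `g = tgt k₀` (`Finset.sum_fiberwise` over `range × range × range`).  In one class the exponents may be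
replaced by `α₀, β₀, γ₀` (`w_pow_left`, `w_pow_right`; `wv` of a nonempty word is sorted; in `gau`: `r k₀ * e g = r k₀`), so the contribution of the class is
`w a ^ (θ_a * α₀) * val (gau θ tgt k₀ γ₀ r) a (psh ...) * w b ^ (θ_b * β₀)`, and `gau θ tgt k₀ γ₀ r` is again `Hom` in the second alternative of `hS.gauge`; in the first one
(`γ = 0`) only `γ₀ = 0` contributes and `gau θ tgt k₀ 0 r = r`.  All these are 0 by hypothesis.
-/

namespace ADM

open AD ADN ADN.Ctx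

namespace Ctx

variable {U : Type} [Ring U] {Q : Type} [Fintype Q] (C : Ctx U Q)
variable {ι : Type} [Fintype ι] [DecidableEq ι]

private theorem sb_recL (a : Q) (k : ℕ) {τ : Type} (s : Finset τ) (m : τ → ℕ) (y : τ → U)
    (hy : ∀ t ∈ s, C.e a * y t = y t)
    (h : ∀ m₀, ∑ t ∈ s with m t ≡ m₀ [MOD C.n a], y t = 0) : ∑ t ∈ s, C.w a ^ (k * m t) * y t = 0 := by
  classical
  have hn := C.n_pos a
  rw [← Finset.sum_fiberwise_of_maps_to (t := Finset.range (C.n a)) (g := fun t => m t % C.n a)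
    (fun t _ => Finset.mem_range.2 (Nat.mod_lt _ hn))]
  refine Finset.sum_eq_zero fun m₀ hm₀ => ?_
  rw [Finset.mem_range] at hm₀
  have h1 : ∑ t ∈ s with m t % C.n a = m₀, C.w a ^ (k * m t) * y t =
      ∑ t ∈ s with m t % C.n a = m₀, C.w a ^ (k * m₀) * y t := by
    refine Finset.sum_congr rfl fun t ht => ?_
    rw [Finset.mem_filter] at ht
    refine C.w_pow_left ?_ (hy t ht.1)
    refine Nat.ModEq.mul_left k ?_
    show m t % C.n a = m₀ % C.n a
    rw [ht.2, Nat.mod_eq_of_lt hm₀]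
  rw [h1, ← Finset.mul_sum]
  have h2 : (s.filter fun t => m t % C.n a = m₀) = s.filter fun t => m t ≡ m₀ [MOD C.n a] := by
    refine Finset.filter_congr fun t _ => ?_
    show m t % C.n a = m₀ ↔ m t % C.n a = m₀ % C.n a
    rw [Nat.mod_eq_of_lt hm₀]
  rw [h2, h, mul_zero]

private theorem sb_recR (a : Q) (k : ℕ) {τ : Type} (s : Finset τ) (m : τ → ℕ) (y : τ → U)
    (hy : ∀ t ∈ s, y t * C.e a = y t)
    (h : ∀ m₀, ∑ t ∈ s with m t ≡ m₀ [MOD C.n a], y t = 0) : ∑ t ∈ s, y t * C.w a ^ (k * m t) = 0 := by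
  classical
  have hn := C.n_pos a
  rw [← Finset.sum_fiberwise_of_maps_to (t := Finset.range (C.n a)) (g := fun t => m t % C.n a)
    (fun t _ => Finset.mem_range.2 (Nat.mod_lt _ hn))]
  refine Finset.sum_eq_zero fun m₀ hm₀ => ?_
  rw [Finset.mem_range] at hm₀
  have h1 : ∑ t ∈ s with m t % C.n a = m₀, y t * C.w a ^ (k * m t) =
      ∑ t ∈ s with m t % C.n a = m₀, y t * C.w a ^ (k * m₀) := by
    refine Finset.sum_congr rfl fun t ht => ?_
    rw [Finset.mem_filter] at ht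
    refine C.w_pow_right ?_ (hy t ht.1)
    refine Nat.ModEq.mul_left k ?_
    show m t % C.n a = m₀ % C.n a
    rw [ht.2, Nat.mod_eq_of_lt hm₀]
  rw [h1, ← Finset.sum_mul]
  have h2 : (s.filter fun t => m t % C.n a = m₀) = s.filter fun t => m t ≡ m₀ [MOD C.n a] := by
    refine Finset.filter_congr fun t _ => ?_
    show m t % C.n a = m₀ ↔ m t % C.n a = m₀ % C.n a
    rw [Nat.mod_eq_of_lt hm₀]
  rw [h2, h, zero_mul]

omit [Fintype ι] in
private theorem sb_srt {src tgt : ι → Q} {σ : ι → ℕ} {r : ι → U} (hr : C.Hom src tgt σ r) (θ : ℕ → ℕ)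
    (k₀ : ι) (m : ℕ) : C.Srt src tgt (C.gau θ tgt k₀ m r) := by
  intro k
  unfold gau
  split_ifs with h
  · refine ⟨C.J_right _ _ (hr k).1.1, ?_, C.w_pow_e _ (hr k).1.2.2⟩
    rw [← mul_assoc, (hr k).1.2.1]
  · exact (hr k).1

omit [Fintype ι] in
private theorem sb_congr {src tgt : ι → Q} {σ : ι → ℕ} {r : ι → U} (hr : C.Hom src tgt σ r) (θ : ℕ → ℕ)
    (k₀ : ι) {m m' : ℕ} (h : m ≡ m' [MOD C.n (tgt k₀)]) : C.gau θ tgt k₀ m r = C.gau θ tgt k₀ m' r := by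
  funext k
  unfold gau
  split_ifs with hk
  · subst hk
    exact C.w_pow_right (Nat.ModEq.mul_left _ h) (hr k).1.2.2
  · rfl

omit [Fintype ι] in
private theorem sb_zero (r : ι → U) (θ : ℕ → ℕ) (tgt : ι → Q) (k₀ : ι) : C.gau θ tgt k₀ 0 r = r := by
  funext k
  unfold gau
  split_ifs with hk
  · rw [mul_zero, pow_zero, mul_one]
  · rfl

omit [Fintype ι] in
private theorem sb_hom {src tgt : ι → Q} {σ : ι → ℕ} {r : ι → U} (hr : C.Hom src tgt σ r) (θ : ℕ → ℕ)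
    (k₀ : ι) (m : ℕ) (hb : C.blk (src k₀) ≠ C.blk (tgt k₀)) : C.Hom src tgt σ (C.gau θ tgt k₀ m r) := by
  intro k
  refine ⟨C.sb_srt hr θ k₀ m k, fun he => ?_⟩
  unfold gau
  split_ifs with h
  · subst h
    exact absurd he hb
  · exact (hr k).2 he

omit [Fintype ι] in
private theorem sb_gsum {src tgt : ι → Q} {σ : ι → ℕ} {r : ι → U} (hr : C.Hom src tgt σ r) (θ : ℕ → ℕ)
    (k₀ : ι) (a : Q) (γ : (ℕ × List (ι × ℕ)) → ℕ) (s : Finset (ℕ × List (ι × ℕ)))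
    (c : (ℕ × List (ι × ℕ)) →₀ ℤ)
    (h : ∀ γ₀, ∑ q ∈ s with γ q ≡ γ₀ [MOD C.n (tgt k₀)],
      c q • C.wv (C.gau θ tgt k₀ γ₀ r) a (lts q) = 0) :
    ∑ q ∈ s, c q • C.wv (C.gau θ tgt k₀ (γ q) r) a (lts q) = 0 := by
  classical
  have hn := C.n_pos (tgt k₀)
  rw [← Finset.sum_fiberwise_of_maps_to (t := Finset.range (C.n (tgt k₀)))
    (g := fun t => γ t % C.n (tgt k₀)) (fun t _ => Finset.mem_range.2 (Nat.mod_lt _ hn))]
  refine Finset.sum_eq_zero fun m₀ hm₀ => ?_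
  rw [Finset.mem_range] at hm₀
  have h2 : (s.filter fun t => γ t % C.n (tgt k₀) = m₀) =
      s.filter fun t => γ t ≡ m₀ [MOD C.n (tgt k₀)] := by
    refine Finset.filter_congr fun t _ => ?_
    show γ t % C.n (tgt k₀) = m₀ ↔ γ t % C.n (tgt k₀) = m₀ % C.n (tgt k₀)
    rw [Nat.mod_eq_of_lt hm₀]
  rw [h2]
  refine (Finset.sum_congr rfl fun t ht => ?_).trans (h m₀)
  rw [Finset.mem_filter] at ht
  rw [C.sb_congr hr θ k₀ ht.2]

open scoped Classical in
omit [Fintype ι] [DecidableEq ι] in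
private theorem sb_val (r : ι → U) (a b g : Q) (ok : (ℕ × List (ι × ℕ)) → Prop)
    (α β γ : (ℕ × List (ι × ℕ)) → ℕ) (α₀ β₀ γ₀ : ℕ) (c : (ℕ × List (ι × ℕ)) →₀ ℤ) :
    C.val r a (C.psh a b g ok α β γ α₀ β₀ γ₀ c) =
      ∑ q ∈ c.support with (ok q ∧ α q ≡ α₀ [MOD C.n a] ∧ β q ≡ β₀ [MOD C.n b] ∧ γ q ≡ γ₀ [MOD C.n g]),
        c q • C.wv r a (lts q) := by
  unfold Base.val psh
  refine (Finsupp.sum_mapDomain_index (h := fun v n => n • C.wv r a v) (fun v => zero_smul _ _)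
    (fun v n m => add_smul _ _ _)).trans ?_
  unfold Finsupp.sum
  rw [Finsupp.support_filter]
  refine Finset.sum_congr rfl fun q hq => ?_
  have h1 : (Finsupp.filter (fun q => ok q ∧ α q ≡ α₀ [MOD C.n a] ∧ β q ≡ β₀ [MOD C.n b] ∧
      γ q ≡ γ₀ [MOD C.n g]) c) q = c q :=
    Finsupp.filter_apply_pos (fun q => ok q ∧ α q ≡ α₀ [MOD C.n a] ∧ β q ≡ β₀ [MOD C.n b] ∧
      γ q ≡ γ₀ [MOD C.n g]) c (Finset.mem_filter.1 hq).2
  show (Finsupp.filter (fun q => ok q ∧ α q ≡ α₀ [MOD C.n a] ∧ β q ≡ β₀ [MOD C.n b] ∧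
      γ q ≡ γ₀ [MOD C.n g]) c) q • C.wv r a (lts q) = _
  rw [h1]

theorem sepB (src tgt : ι → Q) (σ : ι → ℕ) (a b : Q) (R : Finset ι) (hR : R.Nonempty) (k₀ : ι)
    (ok : (ℕ × List (ι × ℕ)) → Prop) (α β γ : (ℕ × List (ι × ℕ)) → ℕ)
    (hS : C.Sep src tgt σ a b R k₀ ok α β γ)
    (c : (ℕ × List (ι × ℕ)) →₀ ℤ) (hc : ∀ q ∈ c.support, (lts q).toFinset = R)
    (h : ∀ α₀ β₀ γ₀ r, C.Hom src tgt σ r →
      C.val r a (C.psh a b (tgt k₀) ok α β γ α₀ β₀ γ₀ c) = 0) :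
    ∀ θ r, C.Hom src tgt σ r → C.xval θ src tgt r a b c = 0 := by
  classical
  intro θ r hr
  have hne : ∀ q ∈ c.support, lts q ≠ [] := by
    intro q hq h0
    have h1 := hc q hq
    rw [h0] at h1
    rw [← h1] at hR
    exact absurd hR (by simp)
  have e1 : C.xval θ src tgt r a b c = ∑ q ∈ c.support with ok q, C.w a ^ (θ (C.blk a) * α q) *
      ((c q • C.wv (C.gau θ tgt k₀ (γ q) r) a (lts q)) * C.w b ^ (θ (C.blk b) * β q)) := by
    unfold xval Finsupp.sum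
    rw [Finset.sum_filter]
    refine Finset.sum_congr rfl fun q hq => ?_
    show c q • C.nv θ src tgt r a b q.1 q.2 = _
    by_cases ho : ok q
    · rw [if_pos ho, hS.form q (hc q hq) ho θ r hr, smul_mul_assoc, mul_smul_comm, mul_assoc]
    · rw [if_neg ho, hS.van q (hc q hq) ho θ r hr, smul_zero]
  rw [e1]
  have hL : ∀ (r' : ι → U) (q : ℕ × List (ι × ℕ)), C.e a * C.wv r' a (lts q) = C.wv r' a (lts q) := by
    intro r' q
    unfold Base.wv
    rw [← mul_assoc, (C.coi.toOrthogonalIdempotents.idem a).eq]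
  have hRt : ∀ q ∈ c.support, ok q → ∀ m, C.wv (C.gau θ tgt k₀ m r) a (lts q) * C.e b =
      C.wv (C.gau θ tgt k₀ m r) a (lts q) := by
    intro q hq ho m
    have h1 := Base.S_path C.toBase (C.sb_srt hr θ k₀ m) (lts q) a b (hne q hq) (hS.path q (hc q hq) ho)
    unfold Base.wv
    rw [mul_assoc, h1.2.2]
  refine C.sb_recL a _ _ α _ (fun q hq => ?_) fun α₀ => ?_
  · rw [← mul_assoc, mul_smul_comm, hL]
  refine C.sb_recR b _ _ β _ (fun q hq => ?_) fun β₀ => ?_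
  · have hq' := Finset.mem_filter.1 (Finset.mem_filter.1 hq).1
    rw [smul_mul_assoc, hRt q hq'.1 hq'.2]
  rcases hS.gauge with hg | ⟨-, -, hb, -⟩
  · have h1 := h α₀ β₀ 0 r hr
    rw [C.sb_val] at h1
    rw [Finset.filter_filter, Finset.filter_filter]
    refine Eq.trans ?_ h1
    refine Finset.sum_congr ?_ fun q _ => ?_
    · refine Finset.filter_congr fun q _ => ?_
      have h2 : γ q ≡ 0 [MOD C.n (tgt k₀)] := by rw [hg q]
      tauto
    · rw [hg q, C.sb_zero]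
  · refine C.sb_gsum hr θ k₀ a γ _ c fun γ₀ => ?_
    have h1 := h α₀ β₀ γ₀ _ (C.sb_hom hr θ k₀ γ₀ hb)
    rw [C.sb_val] at h1
    rw [Finset.filter_filter, Finset.filter_filter, Finset.filter_filter]
    refine Eq.trans ?_ h1
    refine Finset.sum_congr ?_ fun q _ => rfl
    exact Finset.filter_congr fun q _ => by tauto

end Ctx

end ADM
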