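import Pool.Agent.ADM.SepA
import Pool.Agent.ADM.SepB

namespace ADM

open AD ADN ADN.Ctx

namespace Ctx

variable {U : Type} [Ring U] {Q : Type} [Fintype Q] (C : Ctx U Q)
variable {ι : Type} [Fintype ι] [DecidableEq ι]

omit [Fintype ι] in
theorem psh_add (a b g : Q) (ok : (ℕ × List (ι × ℕ)) → Prop) (α β γ : (ℕ × List (ι × ℕ)) → ℕ)
    (α₀ β₀ γ₀ : ℕ) (c c' : (ℕ × List (ι × ℕ)) →₀ ℤ) :
    C.psh a b g ok α β γ α₀ β₀ γ₀ (c + c') =
      C.psh a b g ok α β γ α₀ β₀ γ₀ c + C.psh a b g ok α β γ α₀ β₀ γ₀ c' := by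
  classical
  unfold psh
  rw [Finsupp.filter_add, Finsupp.mapDomain_add]

omit [Fintype ι] in
theorem psh_supp (a b g : Q) (R : Finset ι) (ok : (ℕ × List (ι × ℕ)) → Prop)
    (α β γ : (ℕ × List (ι × ℕ)) → ℕ) (α₀ β₀ γ₀ : ℕ) (c : (ℕ × List (ι × ℕ)) →₀ ℤ)
    (hc : ∀ q ∈ c.support, (lts q).toFinset = R) (src tgt : ι → Q)
    (hp : ∀ q, (lts q).toFinset = R → ok q → pth src tgt a (lts q) b) :
    ∀ v ∈ (C.psh a b g ok α β γ α₀ β₀ γ₀ c).support, pth src tgt a v b ∧ v.toFinset = R := by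
  classical
  intro v hv
  unfold psh at hv
  obtain ⟨q, hq, rfl⟩ := Finset.mem_image.1 (Finsupp.mapDomain_support hv)
  rw [Finsupp.support_filter, Finset.mem_filter] at hq
  exact ⟨hp q (hc q hq.1) hq.2.1, hc q hq.1⟩

theorem sepAll {V : Fin 3 → AddSubgroup U} (hV : C.Vals V) (src tgt : ι → Q) (σ : ι → ℕ) (a b : Q)
    (R : Finset ι) (hR : R.Nonempty) (k₀ : ι)
    (hS : ∃ ok α β γ, C.Sep src tgt σ a b R k₀ ok α β γ)
    (hp : ∀ d d' : List ι →₀ ℤ, (∀ v ∈ d.support, pth src tgt a v b ∧ v.toFinset = R) →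
      (∀ v ∈ d'.support, pth src tgt a v b ∧ v.toFinset = R) →
      (∀ r, C.Hom src tgt σ r → In3 V (C.val r a d) (C.val r a d')) →
      ∀ r, C.Hom src tgt σ r → C.val r a d = 0)
    (c c' : (ℕ × List (ι × ℕ)) →₀ ℤ)
    (hc : ∀ q ∈ c.support, (lts q).toFinset = R) (hc' : ∀ q ∈ c'.support, (lts q).toFinset = R)
    (h : ∀ θ r, C.Hom src tgt σ r →
      In3 V (C.xval θ src tgt r a b c) (C.xval θ src tgt r a b c')) :
    ∀ θ r, C.Hom src tgt σ r → C.xval θ src tgt r a b c = 0 := by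
  classical
  obtain ⟨ok, α, β, γ, hS⟩ := hS
  refine C.sepB src tgt σ a b R hR k₀ ok α β γ hS c hc ?_
  intro α₀ β₀ γ₀
  refine hp _ (C.psh a b (tgt k₀) ok α β γ α₀ β₀ γ₀ c')
    (C.psh_supp a b _ R ok α β γ α₀ β₀ γ₀ c hc src tgt hS.path)
    (C.psh_supp a b _ R ok α β γ α₀ β₀ γ₀ c' hc' src tgt hS.path) ?_
  intro r hr
  refine ⟨?_, ?_, ?_⟩
  · exact C.sepA src tgt σ a b R hR k₀ ok α β γ hS (V 0) (hV.left 0) (hV.right 0) c hc
      (fun θ r hr => (h θ r hr).1) α₀ β₀ γ₀ r hr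
  · exact C.sepA src tgt σ a b R hR k₀ ok α β γ hS (V 1) (hV.left 1) (hV.right 1) c' hc'
      (fun θ r hr => (h θ r hr).2.1) α₀ β₀ γ₀ r hr
  · rw [← C.val_add, ← C.psh_add]
    refine C.sepA src tgt σ a b R hR k₀ ok α β γ hS (V 2) (hV.left 2) (hV.right 2) (c + c') ?_
      (fun θ r hr => ?_) α₀ β₀ γ₀ r hr
    · intro q hq
      rcases Finset.mem_union.1 (Finsupp.support_add hq) with hq | hq
      · exact hc q hq
      · exact hc' q hq
    · rw [C.xval_add]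
      exact (h θ r hr).2.2

end Ctx

end ADM
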