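import Pool.Agent.ADM.NvB

/-!
# ADM-SepF1

Words with arrows whose letters are loops at `a`.

PLAN.  `ok q = ((lts q).toFinset = R)`, `α q = ex p σ q.1 q.2` (Defs), `β = γ = 0`.  All arrows are `g θ a a j = e a * w a ^ (θ_a j)` (or act so on sorted elements), and
`r k * w a ^ m = w a ^ (p ^ σ k * m) * r k` (`H_pow`), so by induction on `v`: `nv θ src tgt r a a i v = w a ^ (θ_a * ex p σ i v) * wv r a (v.map Prod.fst)`
(`ex p σ i ((k,j) :: v) = i + p ^ σ k * ex p σ j v`).  `gau θ tgt k₀ 0 r = r` (`r k * w ^ 0 = r k`).  The path condition is clear (all letters are loops).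
-/

namespace ADM

open AD ADN ADN.Ctx

namespace Ctx

variable {U : Type} [Ring U] {Q : Type} [Fintype Q] (C : Ctx U Q)
variable {ι : Type} [DecidableEq ι]

omit [DecidableEq ι] in
private theorem f1_comm (a : Q) (m : ℕ) : C.e a * C.w a ^ m = C.w a ^ m * C.e a := by
  have h : Commute (C.e a) (C.w a) := by
    show C.e a * C.w a = C.w a * C.e a
    rw [C.w_left, C.w_right]
  exact (h.pow_right m).eq

omit [DecidableEq ι] in
private theorem f1_nv {src tgt : ι → Q} {σ : ι → ℕ} {r : ι → U} (hr : C.Hom src tgt σ r) (θ : ℕ → ℕ)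
    (a : Q) (v : List (ι × ℕ)) (hv : ∀ q ∈ v, src q.1 = a ∧ tgt q.1 = a) (i : ℕ) :
    C.nv θ src tgt r a a i v =
      C.w a ^ (θ (C.blk a) * ex C.p σ i v) * C.wv r a (v.map Prod.fst) := by
  induction v generalizing i with
  | nil =>
    show C.g θ a a i = C.w a ^ (θ (C.blk a) * i) * (C.e a * 1)
    rw [g_self, mul_one, f1_comm]
  | cons q v ih =>
    obtain ⟨k, j⟩ := q
    obtain ⟨h1, h2⟩ := hv (k, j) (by simp)
    simp only at h1 h2
    have ih' := ih (fun q hq => hv q (by simp [hq])) j
    have hk : C.H a a (σ k) (r k) := by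
      have := hr k
      rw [h1, h2] at this
      exact this
    have hke : r k * C.e a = r k := hk.1.2.2
    show C.g θ a (src k) i * (r k * C.nv θ src tgt r (tgt k) a j v) =
      C.w a ^ (θ (C.blk a) * (i + C.p ^ σ k * ex C.p σ j v)) *
        (C.e a * ((r k :: (v.map Prod.fst).map r).prod))
    rw [h1, h2, ih', g_self, List.prod_cons]
    unfold Base.wv
    set m := θ (C.blk a) with hm
    set x := ((v.map Prod.fst).map r).prod with hx
    have e1 : r k * (C.w a ^ (m * ex C.p σ j v) * (C.e a * x)) =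
        C.w a ^ (C.p ^ σ k * (m * ex C.p σ j v)) * (r k * x) := by
      rw [← mul_assoc, H_pow C hk, mul_assoc, ← mul_assoc (r k), hke]
    rw [e1, f1_comm, mul_assoc, ← mul_assoc (C.e a), f1_comm, mul_assoc, ← mul_assoc, ← pow_add]
    congr 2
    ring

theorem sepF1 (src tgt : ι → Q) (σ : ι → ℕ) (a : Q) (R : Finset ι) (hR : ∀ k ∈ R, src k = a ∧ tgt k = a)
    (k₀ : ι) : ∃ ok α β γ, C.Sep src tgt σ a a R k₀ ok α β γ := by
  refine ⟨fun _ => True, fun q => ex C.p σ q.1 q.2, fun _ => 0, fun _ => 0, ?_, ?_, ?_, ?_, ?_⟩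
  · intro q hq _ θ r hr
    have hg : C.gau θ tgt k₀ 0 r = r := by
      funext k
      unfold gau
      split_ifs
      · rw [mul_zero, pow_zero, mul_one]
      · rfl
    have hv : ∀ x ∈ q.2, src x.1 = a ∧ tgt x.1 = a := by
      intro x hx
      apply hR
      rw [← hq, List.mem_toFinset]
      exact List.mem_map_of_mem hx
    rw [hg, mul_zero, pow_zero, mul_one]
    exact f1_nv C hr θ a q.2 hv q.1
  · intro q _ h
    exact absurd trivial h
  · intro q hq _
    have hv : ∀ k ∈ lts q, src k = a ∧ tgt k = a := by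
      intro k hk
      apply hR
      rw [← hq, List.mem_toFinset]
      exact hk
    generalize lts q = v at hv
    induction v with
    | nil => rfl
    | cons k v ih =>
      obtain ⟨h1, h2⟩ := hv k (by simp)
      refine ⟨h1, ?_⟩
      rw [h2]
      exact ih fun k hk => hv k (by simp [hk])
  · exact Or.inl ⟨rfl, fun _ => rfl⟩
  · exact Or.inl fun _ => rfl

end Ctx

end ADM
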