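import Pool.Agent.ADM.NvB

/-!
# ADM-SepF2

Words with arrows: loops at `a`, then one edge `k₀ : a → b`.

PLAN.  `a ≠ b` are `NM`, so their blocks are different.  `ok q = ((lts q).toFinset = R ∧ pth (s2 src) (s2 tgt) a q.2 b)`; then `q.2 = v' ++ [(k₀, j)]` with a word `v'` in the loops (see
`ty2_loops`, `ty2_word` in Pool/Agent/ADN/Ty2.lean).  `α q = ex p σ q.1 (q.2.dropLast)`, `β q` = the exponent of the last letter (`(q.2.getLast?).elim 0 Prod.snd`), `γ = 0`.
* form: `nv_eq` (NvB.lean) or induction on `v'`: `nv θ src tgt r a b i (v' ++ [(k₀, j)]) = w a ^ (θ_a * ex p σ i v') * ((v'.map fst).map r).prod * r k₀ * w b ^ (θ_b * j)` (`H_pow` for the loops).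
* van: if the value is not 0, `bpth` holds (`nv_bpth`); all vertices of letters of `R` and `a`, `b` are `a` or `b`, which are alone in their blocks, so `bpth` implies `pth`.
-/

namespace ADM

open AD ADN ADN.Ctx

namespace Ctx

variable {U : Type} [Ring U] {Q : Type} [Fintype Q] (C : Ctx U Q)
variable {ι : Type} [DecidableEq ι]

omit [DecidableEq ι] in
private theorem sf2_comm (a : Q) (m : ℕ) : C.e a * C.w a ^ m = C.w a ^ m * C.e a := by
  have h : Commute (C.e a) (C.w a) := by
    show C.e a * C.w a = C.w a * C.e a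
    rw [C.w_left, C.w_right]
  exact (h.pow_right m).eq

omit [DecidableEq ι] in
private theorem sf2_form {src tgt : ι → Q} {σ : ι → ℕ} {a b : Q} (hab : a ≠ b)
    {R : Finset ι} {k₀ : ι} (hk1 : src k₀ = a) (hk2 : tgt k₀ = b)
    (hR : ∀ i ∈ R, i ≠ k₀ → src i = a ∧ tgt i = a) (θ : ℕ → ℕ) {r : ι → U}
    (hr : C.Hom src tgt σ r) : ∀ (v : List (ι × ℕ)) (i : ℕ), (∀ l ∈ v.map Prod.fst, l ∈ R) →
    pth src tgt a (v.map Prod.fst) b →
    C.nv θ src tgt r a b i v = C.w a ^ (θ (C.blk a) * ex C.p σ i v.dropLast) *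
      ((v.map Prod.fst).map r).prod *
        C.w b ^ (θ (C.blk b) * (v.getLast?).elim 0 Prod.snd) := by
  classical
  intro v
  induction v with
  | nil =>
    intro i _ hp
    exact absurd hp hab
  | cons q v ih =>
    intro i hl hp
    obtain ⟨k, j⟩ := q
    rw [List.map_cons] at hl hp
    obtain ⟨h1, h2⟩ := hp
    have hkR : k ∈ R := hl k List.mem_cons_self
    have h0 : C.nv θ src tgt r a b i ((k, j) :: v) =
        C.g θ a (src k) i * (r k * C.nv θ src tgt r (tgt k) b j v) := rfl
    by_cases hkk : k = k₀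
    · subst hkk
      rw [hk2] at h2
      cases v with
      | nil =>
        have h3 : C.nv θ src tgt r (tgt k) b j [] = C.g θ (tgt k) b j := rfl
        have h4 := (hr k).1
        rw [h0, h3, hk1, hk2, C.g_self, C.g_self, C.sf2_comm a, C.sf2_comm b]
        rw [hk1, hk2] at h4
        have h5 : r k * (C.w b ^ (θ (C.blk b) * j) * C.e b) =
            r k * C.w b ^ (θ (C.blk b) * j) := by
          rw [← mul_assoc]
          exact C.w_pow_e _ h4.2.2
        have h6 : ex C.p σ i (List.dropLast [(k, j)]) = i := rfl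
        have h7 : ((List.map Prod.fst [(k, j)]).map r).prod = r k := by simp
        have h8 : (List.getLast? [(k, j)]).elim 0 Prod.snd = j := rfl
        rw [h5, h6, h7, h8, mul_assoc, ← mul_assoc (C.e a), h4.2.1, ← mul_assoc]
      | cons q' v' =>
        exfalso
        obtain ⟨k', j'⟩ := q'
        rw [List.map_cons] at h2 hl
        obtain ⟨h3, -⟩ := h2
        have h3' : src k' = b := h3
        by_cases hk' : k' = k
        · rw [hk', hk1] at h3'
          exact hab h3'
        · have h4 := (hR k' (hl k' (List.mem_cons_of_mem _ List.mem_cons_self)) hk').1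
          exact hab (h4.symm.trans h3')
    · obtain ⟨h3, h4⟩ := hR k hkR hkk
      rw [h4] at h2
      have h5 := ih j (fun l hl' => hl l (List.mem_cons_of_mem _ hl')) h2
      have hH : C.H a a (σ k) (r k) := by
        have := hr k
        rw [h3, h4] at this
        exact this
      have hv : v ≠ [] := by
        rintro rfl
        exact hab h2
      obtain ⟨q', v', rfl⟩ := List.exists_cons_of_ne_nil hv
      have h6 : List.dropLast ((k, j) :: q' :: v') = (k, j) :: List.dropLast (q' :: v') := rfl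
      have h7 : List.getLast? ((k, j) :: q' :: v') = List.getLast? (q' :: v') := by
        rw [List.getLast?_cons_cons]
      have h8 : ex C.p σ i ((k, j) :: List.dropLast (q' :: v')) =
          i + C.p ^ σ k * ex C.p σ j (List.dropLast (q' :: v')) := rfl
      have h12 : (List.map r (List.map Prod.fst ((k, j) :: q' :: v'))).prod =
          r k * (List.map r (List.map Prod.fst (q' :: v'))).prod := by
        rw [List.map_cons (f := Prod.fst), List.map_cons (f := r), List.prod_cons]
      rw [h0, h3, h4, h5, h6, h7, h8, h12, C.g_self, C.sf2_comm a]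
      generalize ex C.p σ j (List.dropLast (q' :: v')) = m
      generalize ((List.map Prod.fst (q' :: v')).map r).prod = Y
      generalize C.w b ^ (θ (C.blk b) * (List.getLast? (q' :: v')).elim 0 Prod.snd) = W
      have h9 : r k * (C.w a ^ (θ (C.blk a) * m) * Y * W) =
          C.w a ^ (C.p ^ σ k * (θ (C.blk a) * m)) * (r k * Y) * W := by
        rw [← mul_assoc, ← mul_assoc, C.H_pow hH, mul_assoc (C.w a ^ _)]
      have h10 : C.e a * (C.w a ^ (C.p ^ σ k * (θ (C.blk a) * m)) * (r k * Y) * W) =
          C.w a ^ (C.p ^ σ k * (θ (C.blk a) * m)) * (r k * Y) * W := by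
        rw [← mul_assoc, C.e_w_pow]
        rw [← mul_assoc, hH.1.2.1]
      rw [h9, mul_assoc (C.w a ^ _) (C.e a), h10, mul_add, pow_add]
      have h11 : θ (C.blk a) * (C.p ^ σ k * m) = C.p ^ σ k * (θ (C.blk a) * m) := by ring
      rw [h11]
      simp only [mul_assoc]
      try rfl

omit [DecidableEq ι] in
private theorem sf2_pth {src tgt : ι → Q} {a b : Q} (ha : C.NM a) (hb : C.NM b) {R : Finset ι}
    (hs : ∀ i ∈ R, src i = a ∨ src i = b) : ∀ (v : List (ι × ℕ)) (c : Q),
    (∀ l ∈ v.map Prod.fst, l ∈ R) → C.bpth src tgt c v b →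
    pth src tgt c (v.map Prod.fst) b := by
  intro v
  induction v with
  | nil =>
    intro c _ h
    exact hb c h
  | cons q v ih =>
    intro c hl h
    obtain ⟨k, j⟩ := q
    rw [List.map_cons] at hl ⊢
    obtain ⟨h1, h2⟩ := h
    refine ⟨?_, ih (tgt k) (fun l hl' => hl l (List.mem_cons_of_mem _ hl')) h2⟩
    rcases hs k (hl k List.mem_cons_self) with h3 | h3
    · rw [h3] at h1 ⊢
      exact (ha c h1).symm
    · rw [h3] at h1 ⊢
      exact (hb c h1).symm

theorem sepF2 (src tgt : ι → Q) (σ : ι → ℕ) (a b : Q) (hab : a ≠ b) (ha : C.NM a) (hb : C.NM b)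
    (R : Finset ι) (k₀ : ι) (hk : k₀ ∈ R) (hk1 : src k₀ = a) (hk2 : tgt k₀ = b)
    (hR : ∀ i ∈ R, i ≠ k₀ → src i = a ∧ tgt i = a) :
    ∃ ok α β γ, C.Sep src tgt σ a b R k₀ ok α β γ := by
  have hmem : ∀ q : ℕ × List (ι × ℕ), (lts q).toFinset = R → ∀ l ∈ q.2.map Prod.fst, l ∈ R := by
    intro q hq l hl
    rw [← hq]
    exact List.mem_toFinset.2 hl
  have hgau : ∀ (θ : ℕ → ℕ) (r : ι → U), C.gau θ tgt k₀ 0 r = r := by
    intro θ r
    funext k
    unfold gau
    split_ifs with h
    · rw [mul_zero, pow_zero, mul_one]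
    · rfl
  refine ⟨fun q => pth src tgt a (lts q) b, fun q => ex C.p σ q.1 q.2.dropLast,
    fun q => (q.2.getLast?).elim 0 Prod.snd, fun _ => 0, ?_, ?_, ?_, ?_, ?_⟩
  · intro q hq hok θ r hr
    have hne : lts q ≠ [] := by
      intro h
      rw [h] at hq
      rw [← hq] at hk
      simp at hk
    have hS : C.Srt src tgt r := fun k => (hr k).1
    rw [hgau, Base.wv_eq C.toBase hS hne hok]
    exact C.sf2_form hab hk1 hk2 hR θ hr q.2 q.1 (hmem q hq) hok
  · intro q hq hok θ r _
    by_contra h
    have h1 := C.nv_bpth θ src tgt r a b q.1 q.2 h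
    apply hok
    refine C.sf2_pth ha hb (R := R) ?_ q.2 a (hmem q hq) h1
    intro i hi
    by_cases hik : i = k₀
    · left
      rw [hik, hk1]
    · left
      exact (hR i hi hik).1
  · intro q _ hok
    exact hok
  · right
    intro h
    exact hab (hb a h)
  · left
    intro _
    rfl

end Ctx

end ADM
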