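import Pool.Agent.ADM.NvB

/-!
# ADM-SepF3

Words with arrows: one edge `k₀ : a → b`, then loops at `b`.

PLAN.  `a ≠ b` are `NM`, so their blocks are different.  `ok q = ((lts q).toFinset = R ∧ pth (s2 src) (s2 tgt) a q.2 b)`; then `q.2 = (k₀, j) :: v'` with a word `v'` in the loops at `b` (see
`ty3_loops`, `ty3_word` in Pool/Agent/ADN/Ty3.lean).  `γ = 0`, `α q = q.1`, and `β q = m * p ^ ((r - 1) * t)` with `m = ex p σ j v'`, `t = tot σ (v'.map fst)`, `r = r b`:
`nv θ src tgt r a b i ((k₀, j) :: v') = w a ^ (θ_a i) * (r k₀ * (w b ^ (θ_b m) * y))`, `y = ((v'.map fst).map r).prod` (and `y = 1` for `v' = []`), and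
`y * w b ^ c = w b ^ (p ^ t * c) * y` with `c = θ_b m p ^ ((r-1) t)`, where `p ^ t * p ^ ((r-1) t) = p ^ (r t) ≡ 1` modulo `n b` (`p_pow_modEq`, `w_pow_left`; `hom_prod`), so
`w b ^ (θ_b m) * y = y * w b ^ (θ_b β)`; for `v' = []`, `t = 0` and `m = j`.
van: if the value is not 0, `bpth` holds (`nv_bpth`); all vertices are `a` or `b`, alone in their blocks, so `bpth` implies `pth`.
-/

namespace ADM

open AD ADN ADN.Ctx

namespace Ctx

variable {U : Type} [Ring U] {Q : Type} [Fintype Q] (C : Ctx U Q)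
variable {ι : Type}

private theorem sf3_comm (a : Q) (m : ℕ) : C.e a * C.w a ^ m = C.w a ^ m * C.e a := by
  have h : Commute (C.e a) (C.w a) := by
    show C.e a * C.w a = C.w a * C.e a
    rw [C.w_left, C.w_right]
  exact (h.pow_right m).eq

private theorem sf3_wv_cons {src tgt : ι → Q} {σ : ι → ℕ} {r : ι → U} (hr : C.Hom src tgt σ r)
    {a b : Q} {k : ι} (h1 : src k = a) (h2 : tgt k = b) (u : List ι) :
    C.wv r a (k :: u) = r k * C.wv r b u := by
  have h := (hr k).1
  rw [h1, h2] at h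
  unfold Base.wv
  rw [List.map_cons, List.prod_cons, ← mul_assoc, h.2.1, ← mul_assoc, h.2.2]

/-- loops with arrows -/
private theorem sf3_loops {src tgt : ι → Q} {σ : ι → ℕ} {r : ι → U} (hr : C.Hom src tgt σ r)
    (θ : ℕ → ℕ) (b : Q) (v : List (ι × ℕ)) (hv : ∀ q ∈ v, src q.1 = b ∧ tgt q.1 = b) (i : ℕ) :
    C.nv θ src tgt r b b i v = C.w b ^ (θ (C.blk b) * ex C.p σ i v) * C.wv r b (v.map Prod.fst) := by
  induction v generalizing i with
  | nil =>
    show C.g θ b b i = _
    have h1 : ex C.p σ i [] = i := rfl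
    rw [C.g_self, List.map_nil, C.wv_nil, C.sf3_comm, h1]
  | cons q v ih =>
    obtain ⟨k, j⟩ := q
    obtain ⟨hs, ht⟩ := hv (k, j) List.mem_cons_self
    have hs' : src k = b := hs
    have ht' : tgt k = b := ht
    have h4 : C.nv θ src tgt r b b i ((k, j) :: v) =
        C.g θ b (src k) i * (r k * C.nv θ src tgt r (tgt k) b j v) := rfl
    have hH : C.H b b (σ k) (r k) := by
      have := hr k
      rwa [hs', ht'] at this
    have h5 : ex C.p σ i ((k, j) :: v) = i + C.p ^ σ k * ex C.p σ j v := rfl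
    have h6 : C.e b * (r k * C.wv r b (v.map Prod.fst)) = r k * C.wv r b (v.map Prod.fst) := by
      rw [← mul_assoc, hH.1.2.1]
    rw [h4, hs', ht', C.g_self, ih (fun q hq => hv q (List.mem_cons_of_mem _ hq)) j, h5,
      List.map_cons, C.sf3_wv_cons hr hs' ht', ← mul_assoc (r k), C.H_pow hH, C.sf3_comm,
      mul_assoc (C.w b ^ _) (r k), mul_assoc (C.w b ^ _) (C.e b), C.e_w_pow _ h6, ← mul_assoc (C.w b ^ _),
      ← pow_add]
    congr 2
    ring

private theorem sf3_wv_move {src tgt : ι → Q} {σ : ι → ℕ} {r : ι → U} (hr : C.Hom src tgt σ r)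
    (b : Q) (u : List ι) (hu : ∀ k ∈ u, src k = b ∧ tgt k = b) (c : ℕ) :
    C.wv r b u * C.w b ^ c = C.w b ^ (C.p ^ tot σ u * c) * C.wv r b u := by
  induction u with
  | nil =>
    have h1 : tot σ ([] : List ι) = 0 := rfl
    rw [C.wv_nil, C.sf3_comm, h1, pow_zero, one_mul]
  | cons k u ih =>
    obtain ⟨hs, ht⟩ := hu k List.mem_cons_self
    have hH : C.H b b (σ k) (r k) := by
      have := hr k
      rwa [hs, ht] at this
    have h1 : tot σ (k :: u) = σ k + tot σ u := by simp [tot]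
    rw [C.sf3_wv_cons hr hs ht, mul_assoc, ih (fun k hk => hu k (List.mem_cons_of_mem _ hk)),
      ← mul_assoc, C.H_pow hH, mul_assoc, h1, pow_add, mul_assoc (C.p ^ σ k)]

private theorem sf3_wv_e (r : ι → U) (b : Q) (u : List ι) : C.e b * C.wv r b u = C.wv r b u := by
  unfold Base.wv
  rw [← mul_assoc, (C.coi.toOrthogonalIdempotents.idem b).eq]

private theorem sf3_move {src tgt : ι → Q} {σ : ι → ℕ} {r : ι → U} (hr : C.Hom src tgt σ r)
    (b : Q) (u : List ι) (hu : ∀ k ∈ u, src k = b ∧ tgt k = b) (m : ℕ) :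
    C.w b ^ m * C.wv r b u = C.wv r b u * C.w b ^ (m * C.p ^ ((C.r b - 1) * tot σ u)) := by
  rw [C.sf3_wv_move hr b u hu]
  refine C.w_pow_left ?_ (C.sf3_wv_e r b u)
  have h1 : C.r b * tot σ u ≡ 0 [MOD C.r b] := Nat.modEq_zero_iff_dvd.2 (Dvd.intro _ rfl)
  have h2 := C.p_pow_modEq b h1
  rw [pow_zero] at h2
  have h3 : C.p ^ tot σ u * (m * C.p ^ ((C.r b - 1) * tot σ u)) = m * C.p ^ (C.r b * tot σ u) := by
    have h4 : C.r b * tot σ u = tot σ u + (C.r b - 1) * tot σ u := by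
      obtain ⟨s, hs⟩ : ∃ s, C.r b = s + 1 := ⟨C.r b - 1, by have := C.r_pos b; omega⟩
      rw [hs, Nat.add_sub_cancel]
      ring
    rw [h4, pow_add]
    ring
  rw [h3]
  have h5 := h2.mul_left m
  rw [mul_one] at h5
  exact h5.symm

omit [Fintype Q] in
private theorem sf3_pth (src tgt : ι → Q) (b : Q) (v : List (ι × ℕ)) (a : Q)
    (h : pth (s2 src) (s2 tgt) a v b) : pth src tgt a (v.map Prod.fst) b := by
  induction v generalizing a with
  | nil => exact h
  | cons q v ih => exact ⟨h.1, ih _ h.2⟩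

private theorem sf3_bpth (src tgt : ι → Q) (b : Q) (v : List (ι × ℕ)) (hv : ∀ q ∈ v, C.NM (tgt q.1))
    (a : Q) (ha : C.NM a) (h : C.bpth src tgt a v b) : pth (s2 src) (s2 tgt) a v b := by
  induction v generalizing a with
  | nil =>
    have h1 : C.blk a = C.blk b := h
    exact (ha b h1.symm).symm
  | cons q v ih =>
    obtain ⟨k, j⟩ := q
    obtain ⟨h1, h2⟩ := h
    refine ⟨?_, ih (fun q hq => hv q (List.mem_cons_of_mem _ hq)) (tgt k)
      (hv (k, j) List.mem_cons_self) h2⟩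
    exact ha (src k) h1.symm

omit [Fintype Q] in
private theorem sf3_word (src tgt : ι → Q) (b : Q) (v : List (ι × ℕ))
    (hv : ∀ q ∈ v, src q.1 = b → tgt q.1 = b) (h : pth (s2 src) (s2 tgt) b v b) :
    ∀ q ∈ v, src q.1 = b ∧ tgt q.1 = b := by
  induction v with
  | nil => intro q hq; exact absurd hq (by simp)
  | cons q v ih =>
    obtain ⟨k, j⟩ := q
    obtain ⟨h1, h2⟩ := h
    have h1' : src k = b := h1
    have h3 : tgt k = b := hv (k, j) List.mem_cons_self h1'
    have h4 : pth (s2 src) (s2 tgt) b v b := by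
      have h5 : pth (s2 src) (s2 tgt) (tgt k) v b := h2
      rwa [h3] at h5
    intro q hq
    rcases List.mem_cons.1 hq with rfl | hq
    · exact ⟨h1', h3⟩
    · exact ih (fun q hq => hv q (List.mem_cons_of_mem _ hq)) h4 q hq

variable [DecidableEq ι]

private theorem sf3_gau (θ : ℕ → ℕ) (tgt : ι → Q) (k₀ : ι) (r : ι → U) : C.gau θ tgt k₀ 0 r = r := by
  funext k
  unfold gau
  split_ifs
  · rw [mul_zero, pow_zero, mul_one]
  · rfl

/-- the exponent of the last vertex -/
private def sf3_be (σ : ι → ℕ) (b : Q) : List (ι × ℕ) → ℕ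
  | [] => 0
  | (_, j) :: v => ex C.p σ j v * C.p ^ ((C.r b - 1) * tot σ (v.map Prod.fst))

theorem sepF3 (src tgt : ι → Q) (σ : ι → ℕ) (a b : Q) (hab : a ≠ b) (ha : C.NM a) (hb : C.NM b)
    (R : Finset ι) (k₀ : ι) (hk : k₀ ∈ R) (hk1 : src k₀ = a) (hk2 : tgt k₀ = b)
    (hR : ∀ i ∈ R, i ≠ k₀ → src i = b ∧ tgt i = b) :
    ∃ ok α β γ, C.Sep src tgt σ a b R k₀ ok α β γ := by
  have htgt : ∀ i ∈ R, tgt i = b := by
    intro i hi
    by_cases h : i = k₀
    · rw [h, hk2]
    · exact (hR i hi h).2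
  have hmem : ∀ q : ℕ × List (ι × ℕ), (lts q).toFinset = R → ∀ x ∈ q.2, x.1 ∈ R := by
    intro q hq x hx
    rw [← hq, List.mem_toFinset]
    exact List.mem_map_of_mem hx
  have hblk : C.blk a ≠ C.blk b := fun h => hab (hb a h)
  refine ⟨fun q => pth (s2 src) (s2 tgt) a q.2 b, fun q => q.1, fun q => C.sf3_be σ b q.2,
    fun _ => 0, ?_⟩
  refine ⟨?_, ?_, ?_, Or.inr hblk, Or.inl fun _ => rfl⟩
  · rintro ⟨i, v⟩ hq hok θ r hr
    have hm := hmem _ hq
    have hok' : pth (s2 src) (s2 tgt) a v b := hok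
    show C.nv θ src tgt r a b i v = C.w a ^ (θ (C.blk a) * i) *
      C.wv (C.gau θ tgt k₀ 0 r) a (v.map Prod.fst) * C.w b ^ (θ (C.blk b) * C.sf3_be σ b v)
    rw [C.sf3_gau]
    cases v with
    | nil => exact absurd hok' hab
    | cons x v =>
      obtain ⟨k, j⟩ := x
      obtain ⟨h1, h2⟩ := hok'
      have h1' : src k = a := h1
      have hkR : k ∈ R := hm (k, j) List.mem_cons_self
      have hkk : k = k₀ := by
        by_contra hne
        exact hab (h1'.symm.trans (hR k hkR hne).1)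
      subst hkk
      have h3 : pth (s2 src) (s2 tgt) b v b := by
        have h5 : pth (s2 src) (s2 tgt) (tgt k) v b := h2
        rwa [hk2] at h5
      have hl := sf3_word src tgt b v
        (fun q hq _ => htgt q.1 (hm q (List.mem_cons_of_mem _ hq))) h3
      have hl' : ∀ k ∈ v.map Prod.fst, src k = b ∧ tgt k = b := by
        intro k hk
        obtain ⟨q, hq, rfl⟩ := List.mem_map.1 hk
        exact hl q hq
      have h4 : C.nv θ src tgt r a b i ((k, j) :: v) =
          C.g θ a (src k) i * (r k * C.nv θ src tgt r (tgt k) b j v) := rfl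
      have h5 : C.sf3_be σ b ((k, j) :: v) =
          ex C.p σ j v * C.p ^ ((C.r b - 1) * tot σ (v.map Prod.fst)) := rfl
      have h6 : C.e a * (r k * C.wv r b (v.map Prod.fst)) = r k * C.wv r b (v.map Prod.fst) := by
        have h := (hr k).1.2.1
        rw [hk1] at h
        rw [← mul_assoc, h]
      rw [h4, hk1, hk2, C.g_self, C.sf3_loops hr θ b v hl j, C.sf3_move hr b _ hl', h5,
        List.map_cons, C.sf3_wv_cons hr hk1 hk2, ← mul_assoc (r k), ← mul_assoc, C.sf3_comm,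
        mul_assoc (C.w a ^ _) (C.e a), h6, mul_assoc (θ (C.blk b))]
  · rintro ⟨i, v⟩ hq hok θ r hr
    have hm := hmem _ hq
    by_contra hne
    refine hok (C.sf3_bpth src tgt b v (fun q hq => ?_) a ha (C.nv_bpth θ src tgt r a b i v hne))
    rw [htgt q.1 (hm q hq)]
    exact hb
  · rintro ⟨i, v⟩ hq hok
    exact sf3_pth src tgt b v a hok

end Ctx

end ADM
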