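import Pool.Agent.ADM.NvB
import Pool.Agent.ADM.T4

/-!
# ADM-SepF4

Words with arrows: untwisted loops at `a` (at least one) and two edges `k : a → g`, `l : g → a`.

PLAN.  `a ≠ g` are `NM`, so their blocks are different.  `ok q = ((lts q).toFinset = R ∧ pth (s2 src) (s2 tgt) a q.2 a ∧ (lts q).count k = 1)`; then
`q.2 = v₁ ++ (k, j) :: (l, j') :: v₂` with words `v₁`, `v₂` in the untwisted loops, not both empty (see `ty4_loops`, `ty4_split` in Pool/Agent/ADN/Ty4.lean).
`β = 0`, `γ q` = the exponent `j` of the letter `k`, `α q` = the sum of `q.1` and of all exponents of the letters of `q.2` except the one of `k`.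
* form: the value is `w^(i) ρ₁ w^(..) ρ₂ ... * (r k * w g ^ (θ_g j)) * r l * w^(..) ρ' w^(..) ...` with untwisted loops `ρ`, which commute with `w = w a` (`H_pow` with `σ` divisible by `r a`:
  `H_modEq` to twist 0).  Put `k' = r k * w g ^ (θ_g j) ∈ S a g` (the value of `gau`).  If `v₁ ≠ []`: `y = (product of the loops of v₁) * (k' * r l)` commutes with `w` (`t4b`), so all powers of
  `w` can be moved to the left.  If `v₁ = []`, `v₂ = ρ :: ...`: `(k' * r l) * ρ` commutes with `w` (`t4b`) and a power of `w` between `r l` and `ρ` can be moved behind `ρ`.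
* van: if the value is not 0, `bpth` holds, hence `pth` (`NM`); `k` occurs at least once; if it occurs at least twice, the word visits `g` twice and the value vanishes
  (`van`, first pattern `a → g → g → a`, see the first case of `ty4_word`; here the letters are `(k, j)` with values `r2`, `nv_eq`, `r2_Srt`, `S_path`).
* gauge: second alternative (`count k = 1`).
-/

namespace ADM

open AD ADN ADN.Ctx

namespace Ctx

variable {U : Type} [Ring U] {Q : Type} [Fintype Q] (C : Ctx U Q)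
variable {ι : Type} [DecidableEq ι]

omit [DecidableEq ι] in
private theorem s4_comm {a : Q} {x : U} (hx : C.H a a 0 x) (m : ℕ) :
    x * C.w a ^ m = C.w a ^ m * x := by
  rw [C.H_pow hx m, pow_zero, one_mul]

omit [DecidableEq ι] in
private theorem s4_H0 {src tgt : ι → Q} {σ : ι → ℕ} {r : ι → U} (hr : C.Hom src tgt σ r) {a : Q}
    {i : ι} (h : src i = a ∧ tgt i = a ∧ ¬ C.Tw a (σ i)) : C.H a a 0 (r i) := by
  have h1 := hr i
  rw [h.1, h.2.1] at h1
  have h2 : C.r a ∣ σ i := not_not.1 h.2.2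
  exact C.H_modEq ((Nat.modEq_zero_iff_dvd).2 h2) h1

omit [DecidableEq ι] in
private theorem s4_word {src tgt : ι → Q} {σ : ι → ℕ} {r : ι → U} (hr : C.Hom src tgt σ r)
    {a : Q} (θ : ℕ → ℕ) (v : List (ι × ℕ))
    (hv : ∀ x ∈ v, src x.1 = a ∧ tgt x.1 = a ∧ ¬ C.Tw a (σ x.1)) :
    (v.map (C.r2 θ tgt r)).prod =
      C.w a ^ (θ (C.blk a) * (v.map Prod.snd).sum) * ((v.map Prod.fst).map r).prod := by
  induction v with
  | nil => simp
  | cons x v ih =>
    have h1 := hv x List.mem_cons_self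
    have h2 := s4_comm C (s4_H0 C hr h1)
    rw [List.map_cons, List.prod_cons, ih fun y hy => hv y (List.mem_cons_of_mem _ hy),
      List.map_cons, List.sum_cons, List.map_cons, List.map_cons, List.prod_cons]
    show r x.1 * C.w (tgt x.1) ^ (θ (C.blk (tgt x.1)) * x.2) * _ = _
    rw [h1.2.1, h2, mul_assoc, ← mul_assoc (r x.1), h2, mul_add, pow_add]
    simp only [mul_assoc]

omit [DecidableEq ι] in
private theorem s4_H {src tgt : ι → Q} {σ : ι → ℕ} {r : ι → U} (hr : C.Hom src tgt σ r) {a : Q} :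
    ∀ v : List ι, v ≠ [] → (∀ i ∈ v, src i = a ∧ tgt i = a ∧ ¬ C.Tw a (σ i)) →
      C.H a a 0 (v.map r).prod := by
  intro v
  induction v with
  | nil => intro h; exact absurd rfl h
  | cons i v ih =>
    intro _ hv
    have h1 := s4_H0 C hr (hv i List.mem_cons_self)
    by_cases h0 : v = []
    · subst h0
      rw [List.map_cons, List.map_nil, List.prod_cons, List.prod_nil, mul_one]
      exact h1
    · rw [List.map_cons, List.prod_cons]
      exact C.H_mul h1 (ih h0 fun j hj => hv j (List.mem_cons_of_mem _ hj))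

omit [DecidableEq ι] in
private theorem s4_first {k : ι} : ∀ w : List (ι × ℕ), k ∈ w.map Prod.fst →
    ∃ v₁ j w', w = v₁ ++ (k, j) :: w' ∧ k ∉ v₁.map Prod.fst := by
  intro w
  induction w with
  | nil => intro h; exact absurd h List.not_mem_nil
  | cons x w ih =>
    intro h
    by_cases hx : x.1 = k
    · refine ⟨[], x.2, w, ?_, List.not_mem_nil⟩
      rw [List.nil_append, ← hx]
    · rw [List.map_cons, List.mem_cons] at h
      obtain ⟨v₁, j, w', h1, h2⟩ := ih (h.resolve_left fun h => hx h.symm)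
      refine ⟨x :: v₁, j, w', by rw [h1, List.cons_append], ?_⟩
      rw [List.map_cons, List.mem_cons]
      rintro (h3 | h3)
      · exact hx h3.symm
      · exact h2 h3

omit [DecidableEq ι] in
private theorem s4_loops {src tgt : ι → Q} {a g : Q} (hg : g ≠ a) {R : Finset ι}
    {k l : ι} (hl1 : src l = g) (hR : ∀ i ∈ R, i ≠ k → i ≠ l → src i = a ∧ tgt i = a) :
    ∀ (w : List (ι × ℕ)) (b : Q), pth (s2 src) (s2 tgt) a w b → (∀ x ∈ w, x.1 ∈ R) →
      k ∉ w.map Prod.fst → b = a ∧ ∀ x ∈ w, x.1 ≠ k ∧ x.1 ≠ l := by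
  intro w
  induction w with
  | nil =>
    intro b hp _ _
    exact ⟨Eq.symm hp, fun i hi => absurd hi (List.not_mem_nil)⟩
  | cons i w ih =>
    intro b hp hw hk
    obtain ⟨h1, h2⟩ := hp
    have h1' : src i.1 = a := h1
    rw [List.map_cons, List.mem_cons] at hk
    have hik : i.1 ≠ k := fun h => hk (Or.inl h.symm)
    have hil : i.1 ≠ l := by
      intro h
      rw [h] at h1'
      exact hg (hl1.symm.trans h1')
    have h3 := (hR i.1 (hw i List.mem_cons_self) hik hil).2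
    have h2' : pth (s2 src) (s2 tgt) (tgt i.1) w b := h2
    rw [h3] at h2'
    obtain ⟨h4, h5⟩ := ih b h2' (fun j hj => hw j (List.mem_cons_of_mem _ hj))
      (fun h => hk (Or.inr h))
    refine ⟨h4, fun j hj => ?_⟩
    rcases List.mem_cons.1 hj with rfl | hj
    · exact ⟨hik, hil⟩
    · exact h5 j hj

omit [DecidableEq ι] in
private theorem s4_split {src tgt : ι → Q} {a g : Q} (hg : g ≠ a) {R : Finset ι}
    {k l : ι} (hk1 : src k = a) (hk2 : tgt k = g) (hl1 : src l = g) (hl2 : tgt l = a)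
    (hR : ∀ i ∈ R, i ≠ k → i ≠ l → src i = a ∧ tgt i = a)
    (w : List (ι × ℕ)) (hp : pth (s2 src) (s2 tgt) a w a) (hw : ∀ x ∈ w, x.1 ∈ R)
    (hk : k ∈ w.map Prod.fst) :
    ∃ v₁ j j' v₂, w = v₁ ++ (k, j) :: (l, j') :: v₂ ∧ k ∉ v₁.map Prod.fst ∧
      (∀ x ∈ v₁, x.1 ≠ k ∧ x.1 ≠ l) ∧
      pth (s2 src) (s2 tgt) a v₁ a ∧ pth (s2 src) (s2 tgt) a v₂ a := by
  obtain ⟨v₁, j, w', rfl, hk'⟩ := s4_first w hk
  obtain ⟨b, h1, h2⟩ := (Base.pth_append _ _ _ _).1 hp
  obtain ⟨hb, h3⟩ := s4_loops hg hl1 hR v₁ b h1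
    (fun i hi => hw i (List.mem_append_left _ hi)) hk'
  subst hb
  obtain ⟨-, h5⟩ := h2
  have h5' : pth (s2 src) (s2 tgt) (tgt k) w' b := h5
  rw [hk2] at h5'
  cases w' with
  | nil => exact absurd h5' hg
  | cons x v₂ =>
    obtain ⟨h6, h7⟩ := h5'
    have h6' : src x.1 = g := h6
    have hxl : x.1 = l := by
      by_contra hjl
      have hjk : x.1 ≠ k := by
        intro h
        rw [h] at h6'
        exact hg (h6'.symm.trans hk1)
      have hjR : x.1 ∈ R := hw x (by simp)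
      exact hg (h6'.symm.trans (hR x.1 hjR hjk hjl).1)
    have h7' : pth (s2 src) (s2 tgt) (tgt x.1) v₂ b := h7
    rw [hxl, hl2] at h7'
    refine ⟨v₁, j, x.2, v₂, ?_, hk', h3, h1, h7'⟩
    rw [← hxl]

omit [DecidableEq ι] in
private theorem s4_pth {src tgt : ι → Q} : ∀ (v : List (ι × ℕ)) (a b : Q),
    pth (s2 src) (s2 tgt) a v b → pth src tgt a (v.map Prod.fst) b := by
  intro v
  induction v with
  | nil => intro a b h; exact h
  | cons x v ih =>
    intro a b h
    exact ⟨h.1, ih _ _ h.2⟩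

omit [DecidableEq ι] in
private theorem s4_bpth {src tgt : ι → Q} {a g : Q} (ha : C.NM a) (hg : C.NM g) :
    ∀ (v : List (ι × ℕ)), (∀ x ∈ v, (src x.1 = a ∨ src x.1 = g) ∧ (tgt x.1 = a ∨ tgt x.1 = g)) →
      ∀ x, (x = a ∨ x = g) → C.bpth src tgt x v a → pth (s2 src) (s2 tgt) x v a := by
  intro v
  induction v with
  | nil =>
    intro _ x _ h
    exact ha x h
  | cons y v ih =>
    intro hv x hx h
    have h1 := hv y List.mem_cons_self
    obtain ⟨h2, h3⟩ := h
    refine ⟨?_, ih (fun z hz => hv z (List.mem_cons_of_mem _ hz)) _ h1.2 h3⟩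
    show src y.1 = x
    rcases h1.1 with h4 | h4
    · rw [h4] at h2 ⊢
      exact (ha x h2).symm
    · rw [h4] at h2 ⊢
      exact (hg x h2).symm

omit [DecidableEq ι] in
private theorem s4_key (hC : C.Cub) {a g : Q} (hag : a ≠ g) {P₁ P₂ K L : U}
    (hK : C.S a g K) (hL : C.S g a L) (h : C.H a a 0 P₁ ∨ (P₁ = 1 ∧ C.H a a 0 P₂)) (N : ℕ) :
    P₁ * (K * (L * (C.w a ^ N * P₂))) = C.w a ^ N * (P₁ * (K * (L * P₂))) := by
  rcases h with h | ⟨h0, h⟩
  · have h1 := s4_comm C (C.t4b hC hag h hK hL).1 N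
    calc P₁ * (K * (L * (C.w a ^ N * P₂))) = (P₁ * (K * L) * C.w a ^ N) * P₂ := by
          simp only [mul_assoc]
      _ = (C.w a ^ N * (P₁ * (K * L))) * P₂ := by rw [h1]
      _ = _ := by simp only [mul_assoc]
  · have h1 := s4_comm C (C.t4b hC hag h hK hL).2 N
    rw [h0, one_mul, one_mul, ← s4_comm C h N]
    calc K * (L * (P₂ * C.w a ^ N)) = K * L * P₂ * C.w a ^ N := by simp only [mul_assoc]
      _ = C.w a ^ N * (K * L * P₂) := h1
      _ = _ := by simp only [mul_assoc]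

private theorem s4_form (hC : C.Cub) (src tgt : ι → Q) (σ : ι → ℕ) (a g : Q) (hg : g ≠ a)
    (k l : ι) (hk1 : src k = a) (hk2 : tgt k = g)
    (hl1 : src l = g) (hl2 : tgt l = a) (v₁ v₂ : List (ι × ℕ)) (j j' i : ℕ)
    (hv₁ : ∀ x ∈ v₁, x.1 ≠ k ∧ src x.1 = a ∧ tgt x.1 = a ∧ ¬ C.Tw a (σ x.1))
    (hv₂ : ∀ x ∈ v₂, x.1 ≠ k ∧ src x.1 = a ∧ tgt x.1 = a ∧ ¬ C.Tw a (σ x.1))
    (hne : v₁ ≠ [] ∨ v₂ ≠ []) (θ : ℕ → ℕ) (r : ι → U) (hr : C.Hom src tgt σ r) :
    C.w a ^ (θ (C.blk a) * i) *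
        C.wv (C.r2 θ tgt r) a (v₁ ++ (k, j) :: (l, j') :: v₂) =
      C.w a ^ (θ (C.blk a) * (i + ((v₁.map Prod.snd).sum + (j' + (v₂.map Prod.snd).sum)))) *
        C.wv (C.gau θ tgt k j r) a (lts (i, v₁ ++ (k, j) :: (l, j') :: v₂)) := by
  have hkl : l ≠ k := by
    rintro rfl
    exact hg (hl1.symm.trans hk1)
  have hK : C.S a g (C.r2 θ tgt r (k, j)) := by
    have h1 : C.S (src k) (tgt k) (C.r2 θ tgt r (k, j)) := C.r2_Srt hr θ (k, j)
    rwa [hk1, hk2] at h1
  have hL : C.S g a (r l) := by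
    have h1 := (hr l).1
    rwa [hl1, hl2] at h1
  have hG : ∀ v : List (ι × ℕ), (∀ x ∈ v, x.1 ≠ k ∧ src x.1 = a ∧ tgt x.1 = a ∧ ¬ C.Tw a (σ x.1)) →
      (v.map Prod.fst).map (C.gau θ tgt k j r) = (v.map Prod.fst).map r := by
    intro v hv
    refine List.map_congr_left fun y hy => ?_
    obtain ⟨x, hx, rfl⟩ := List.mem_map.1 hy
    unfold gau
    rw [if_neg (hv x hx).1]
  have hP : C.H a a 0 ((v₁.map Prod.fst).map r).prod ∨
      (((v₁.map Prod.fst).map r).prod = 1 ∧ C.H a a 0 ((v₂.map Prod.fst).map r).prod) := by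
    have hH : ∀ v : List (ι × ℕ),
        (∀ x ∈ v, x.1 ≠ k ∧ src x.1 = a ∧ tgt x.1 = a ∧ ¬ C.Tw a (σ x.1)) → v ≠ [] →
        C.H a a 0 ((v.map Prod.fst).map r).prod := by
      intro v hv h0
      refine s4_H C hr _ (fun h => h0 (List.map_eq_nil_iff.1 h)) fun y hy => ?_
      obtain ⟨x, hx, rfl⟩ := List.mem_map.1 hy
      exact (hv x hx).2
    by_cases h0 : v₁ = []
    · right
      refine ⟨by rw [h0]; rfl, hH v₂ hv₂ (hne.resolve_left fun h => h h0)⟩
    · exact Or.inl (hH v₁ hv₁ h0)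
  have h1 := s4_word C hr θ v₁ fun x hx => (hv₁ x hx).2
  have h2 := s4_word C hr θ v₂ fun x hx => (hv₂ x hx).2
  have h3 := s4_key C hC hg.symm hK hL hP
    (θ (C.blk a) * j' + θ (C.blk a) * (v₂.map Prod.snd).sum)
  have h4 : ((v₁ ++ (k, j) :: (l, j') :: v₂).map (C.r2 θ tgt r)).prod =
      C.w a ^ (θ (C.blk a) * ((v₁.map Prod.snd).sum + (j' + (v₂.map Prod.snd).sum))) *
        (((v₁.map Prod.fst).map r).prod * (C.r2 θ tgt r (k, j) *
          (r l * ((v₂.map Prod.fst).map r).prod))) := by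
    rw [List.map_append, List.prod_append, List.map_cons, List.prod_cons, List.map_cons,
      List.prod_cons, h1, h2]
    have h5 : C.r2 θ tgt r (l, j') = r l * C.w a ^ (θ (C.blk a) * j') := by
      unfold r2
      rw [hl2]
    rw [h5, mul_add, pow_add, mul_add (θ (C.blk a)) j', mul_assoc (C.w a ^ _),
      mul_assoc (C.w a ^ _), ← h3, pow_add]
    simp only [mul_assoc]
  have h5 : ((lts (i, v₁ ++ (k, j) :: (l, j') :: v₂)).map (C.gau θ tgt k j r)).prod =
      ((v₁.map Prod.fst).map r).prod * (C.r2 θ tgt r (k, j) *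
          (r l * ((v₂.map Prod.fst).map r).prod)) := by
    unfold lts
    rw [List.map_append, List.map_append, List.prod_append, hG v₁ hv₁, List.map_cons,
      List.map_cons, List.map_cons, List.map_cons, List.prod_cons, List.prod_cons, hG v₂ hv₂]
    have h6 : C.gau θ tgt k j r k = C.r2 θ tgt r (k, j) := by
      unfold gau r2
      rw [if_pos rfl]
    have h7 : C.gau θ tgt k j r l = r l := by
      unfold gau
      rw [if_neg hkl]
    rw [h6, h7]
  have h6 : C.e a * C.w a ^ (θ (C.blk a) * ((v₁.map Prod.snd).sum + (j' + (v₂.map Prod.snd).sum))) =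
      C.w a ^ (θ (C.blk a) * ((v₁.map Prod.snd).sum + (j' + (v₂.map Prod.snd).sum))) * C.e a := by
    have h7 : Commute (C.w a) (C.e a) := by
      show C.w a * C.e a = C.e a * C.w a
      rw [C.w_left, C.w_right]
    exact (h7.pow_left _).eq.symm
  unfold Base.wv
  rw [h4, h5, mul_add (θ (C.blk a)) i, pow_add, ← mul_assoc (C.e a), h6]
  simp only [mul_assoc]

private theorem s4_two (hC : C.Cub) (src tgt : ι → Q) (σ : ι → ℕ) (a g : Q) (hg : g ≠ a)
    (k l : ι) (hk1 : src k = a) (hk2 : tgt k = g)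
    (hl1 : src l = g) (hl2 : tgt l = a) (v₁ v₃ v₄ : List (ι × ℕ)) (j j' m m' : ℕ)
    (h₁ : pth (s2 src) (s2 tgt) a v₁ a) (h₃ : pth (s2 src) (s2 tgt) a v₃ a)
    (h₄ : pth (s2 src) (s2 tgt) a v₄ a) (θ : ℕ → ℕ) (r : ι → U) (hr : C.Hom src tgt σ r) :
    ((v₁ ++ (k, j) :: (l, j') :: (v₃ ++ (k, m) :: (l, m') :: v₄)).map (C.r2 θ tgt r)).prod = 0 := by
  have hS := C.r2_Srt hr θ
  have e1 : C.S a g ((v₁ ++ [(k, j)]).map (C.r2 θ tgt r)).prod :=
    C.S_path hS _ a g (by simp) ((Base.pth_append _ _ _ _).2 ⟨a, h₁, hk1, hk2⟩)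
  have e2 : C.S g g (((l, j') :: (v₃ ++ [(k, m)])).map (C.r2 θ tgt r)).prod := by
    refine C.S_path hS _ g g (by simp) ⟨hl1, ?_⟩
    show pth (s2 src) (s2 tgt) (tgt l) _ g
    rw [hl2]
    exact (Base.pth_append _ _ _ _).2 ⟨a, h₃, hk1, hk2⟩
  have e3 : C.S g a (((l, m') :: v₄).map (C.r2 θ tgt r)).prod := by
    refine C.S_path hS _ g a (by simp) ⟨hl1, ?_⟩
    show pth (s2 src) (s2 tgt) (tgt l) _ a
    rw [hl2]
    exact h₄
  have e4 := C.van hC (v₀ := a) (v₁ := g) (v₂ := g) (v₃ := a)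
    (Or.inl ⟨hg.symm, hg, fun h => hg h.1.symm⟩) e1 e2 e3
  rw [← e4]
  simp only [List.map_append, List.map_cons, List.map_nil, List.prod_append, List.prod_cons,
    List.prod_nil, mul_one, mul_assoc]

theorem sepF4 (hC : C.Cub) (src tgt : ι → Q) (σ : ι → ℕ) (a g : Q) (hg : g ≠ a) (ha : C.NM a)
    (hgN : C.NM g) (R : Finset ι) (k l : ι) (hk : k ∈ R) (hl : l ∈ R) (hk1 : src k = a) (hk2 : tgt k = g)
    (hl1 : src l = g) (hl2 : tgt l = a)
    (hR : ∀ i ∈ R, i ≠ k → i ≠ l → src i = a ∧ tgt i = a ∧ ¬ C.Tw a (σ i))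
    (hne : ∃ i ∈ R, i ≠ k ∧ i ≠ l) :
    ∃ ok α β γ, C.Sep src tgt σ a a R k ok α β γ := by
  have hag : C.blk g ≠ C.blk a := fun h => hg (ha g h)
  have hR' : ∀ i ∈ R, i ≠ k → i ≠ l → src i = a ∧ tgt i = a := fun i h1 h2 h3 =>
    ⟨(hR i h1 h2 h3).1, (hR i h1 h2 h3).2.1⟩
  have hmem : ∀ q : ℕ × List (ι × ℕ), (lts q).toFinset = R → ∀ x ∈ q.2, x.1 ∈ R := by
    intro q hq x hx
    rw [← hq, List.mem_toFinset]
    exact List.mem_map_of_mem hx
  have hkm : ∀ q : ℕ × List (ι × ℕ), (lts q).toFinset = R → ∀ i ∈ R, i ∈ q.2.map Prod.fst := by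
    intro q hq i hi
    rw [← hq, List.mem_toFinset] at hi
    exact hi
  refine ⟨fun q => (lts q).toFinset = R ∧ pth (s2 src) (s2 tgt) a q.2 a ∧ (lts q).count k = 1,
    fun q => q.1 + ((q.2.filter (fun x => decide (x.1 ≠ k))).map Prod.snd).sum, fun _ => 0,
    fun q => ((q.2.filter (fun x => decide (x.1 = k))).map Prod.snd).sum, ?_, ?_, ?_, ?_, ?_⟩
  · rintro q hq ⟨-, hp, hc⟩ θ r hr
    obtain ⟨v₁, j, j', v₂, hv, hk', hv1, hp1, hp2⟩ :=
      s4_split hg hk1 hk2 hl1 hl2 hR' q.2 hp (hmem q hq) (hkm q hq k hk)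
    have hk2' : k ∉ v₂.map Prod.fst := by
      intro h
      unfold lts at hc
      rw [hv, List.map_append, List.map_cons, List.map_cons, List.count_append,
        List.count_cons_self] at hc
      have h1 : 1 ≤ (l :: v₂.map Prod.fst).count k :=
        List.count_pos_iff.2 (List.mem_cons_of_mem _ h)
      have h2 : (((l, j') : ι × ℕ).1 :: v₂.map Prod.fst).count k =
        (l :: v₂.map Prod.fst).count k := rfl
      rw [h2] at hc
      omega
    have hv2 := (s4_loops hg hl1 hR' v₂ a hp2 (fun x hx => hmem q hq x (by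
      rw [hv]
      exact List.mem_append_right _ (List.mem_cons_of_mem _ (List.mem_cons_of_mem _ hx)))) hk2').2
    have hw1 : ∀ x ∈ v₁, x.1 ≠ k ∧ src x.1 = a ∧ tgt x.1 = a ∧ ¬ C.Tw a (σ x.1) := fun x hx =>
      ⟨(hv1 x hx).1, hR x.1 (hmem q hq x (by rw [hv]; exact List.mem_append_left _ hx))
        (hv1 x hx).1 (hv1 x hx).2⟩
    have hw2 : ∀ x ∈ v₂, x.1 ≠ k ∧ src x.1 = a ∧ tgt x.1 = a ∧ ¬ C.Tw a (σ x.1) := fun x hx =>
      ⟨(hv2 x hx).1, hR x.1 (hmem q hq x (by
        rw [hv]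
        exact List.mem_append_right _ (List.mem_cons_of_mem _ (List.mem_cons_of_mem _ hx))))
        (hv2 x hx).1 (hv2 x hx).2⟩
    have hne' : v₁ ≠ [] ∨ v₂ ≠ [] := by
      by_contra h
      push Not at h
      obtain ⟨i, hi, hik, hil⟩ := hne
      have h1 := hkm q hq i hi
      rw [hv, h.1, h.2] at h1
      simp [hik, hil] at h1
    have hkl : l ≠ k := by
      rintro rfl
      exact hg (hl1.symm.trans hk1)
    have f1 : (q.2.filter (fun x => decide (x.1 ≠ k))) = v₁ ++ (l, j') :: v₂ := by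
      rw [hv, List.filter_append, List.filter_cons_of_neg (by simp),
        List.filter_cons_of_pos (by simpa using hkl),
        List.filter_eq_self.2 (fun x hx => by simpa using (hw1 x hx).1),
        List.filter_eq_self.2 (fun x hx => by simpa using (hw2 x hx).1)]
    have f2 : (q.2.filter (fun x => decide (x.1 = k))) = [(k, j)] := by
      rw [hv, List.filter_append, List.filter_cons_of_pos (by simp),
        List.filter_cons_of_neg (by simpa using hkl),
        List.filter_eq_nil_iff.2 (fun x hx => by simpa using (hw1 x hx).1),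
        List.filter_eq_nil_iff.2 (fun x hx => by simpa using (hw2 x hx).1), List.nil_append]
    have h1 := C.nv_eq hr θ a q.2 a q.1 hp
    have h2 := s4_form C hC src tgt σ a g hg k l hk1 hk2 hl1 hl2 v₁ v₂ j j' q.1 hw1 hw2 hne' θ r hr
    have h3 : lts (q.1, v₁ ++ (k, j) :: (l, j') :: v₂) = lts q := by
      unfold lts
      rw [hv]
    rw [h1, mul_zero, pow_zero, mul_one]
    show _ = C.w a ^ (θ (C.blk a) * (q.1 + ((q.2.filter (fun x => decide (x.1 ≠ k))).map
      Prod.snd).sum)) * C.wv (C.gau θ tgt k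
        (((q.2.filter (fun x => decide (x.1 = k))).map Prod.snd).sum) r) a (lts q)
    rw [f1, f2, ← h3, hv, h2, List.map_append, List.sum_append, List.map_cons, List.sum_cons,
      List.map_cons, List.map_nil, List.sum_cons, List.sum_nil, add_zero]
  · intro q hq hok θ r hr
    by_contra h0
    have hb := C.nv_bpth θ src tgt r a a q.1 q.2 h0
    have hv : ∀ x ∈ q.2, (src x.1 = a ∨ src x.1 = g) ∧ (tgt x.1 = a ∨ tgt x.1 = g) := by
      intro x hx
      by_cases h1 : x.1 = k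
      · rw [h1]
        exact ⟨Or.inl hk1, Or.inr hk2⟩
      by_cases h2 : x.1 = l
      · rw [h2]
        exact ⟨Or.inr hl1, Or.inl hl2⟩
      have h3 := hR' x.1 (hmem q hq x hx) h1 h2
      exact ⟨Or.inl h3.1, Or.inl h3.2⟩
    have hp := s4_bpth C ha hgN q.2 hv a (Or.inl rfl) hb
    refine hok ⟨hq, hp, ?_⟩
    by_contra hc
    obtain ⟨v₁, j, j', v₂, hv', hk', hv1, hp1, hp2⟩ :=
      s4_split hg hk1 hk2 hl1 hl2 hR' q.2 hp (hmem q hq) (hkm q hq k hk)
    have hkl : l ≠ k := by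
      rintro rfl
      exact hg (hl1.symm.trans hk1)
    have hk2' : k ∈ v₂.map Prod.fst := by
      by_contra h
      refine hc ?_
      unfold lts
      rw [hv', List.map_append, List.map_cons, List.map_cons, List.count_append,
        List.count_cons_self, List.count_eq_zero.2 hk']
      have h2 : (((l, j') : ι × ℕ).1 :: v₂.map Prod.fst).count k = 0 := by
        rw [List.count_cons_of_ne hkl]
        exact List.count_eq_zero.2 h
      rw [h2]
    obtain ⟨v₃, m, m', v₄, hv'', -, -, hp3, hp4⟩ :=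
      s4_split hg hk1 hk2 hl1 hl2 hR' v₂ hp2 (fun x hx => hmem q hq x (by
        rw [hv']
        exact List.mem_append_right _ (List.mem_cons_of_mem _ (List.mem_cons_of_mem _ hx)))) hk2'
    refine h0 ?_
    rw [C.nv_eq hr θ a q.2 a q.1 hp]
    unfold Base.wv
    rw [hv', hv'', s4_two C hC src tgt σ a g hg k l hk1 hk2 hl1 hl2 v₁ v₃ v₄ j j' m m' hp1 hp3 hp4
      θ r hr, mul_zero, mul_zero]
  · rintro q - ⟨-, hp, -⟩
    exact s4_pth q.2 a a hp
  · exact Or.inl ⟨rfl, fun _ => rfl⟩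
  · right
    rw [hk1, hk2]
    exact ⟨hag, hag, fun h => hag h.symm, fun q _ hok => hok.2.2⟩

end Ctx

end ADM
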