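import Pool.Agent.ADM.NvB

/-!
# ADM-SepF5

Words with arrows with two letters `k : a → g`, `l : g → b`, three different vertices.

PLAN.  `a, g, b` are `NM`, so their blocks are different.  `ok q = (∃ i j j', q = (i, [(k, j), (l, j')]))`; `α q = q.1`, `γ q` = exponent of the first letter, `β q` = exponent of the last letter.
form: `nv = e a w a ^ (θ_a i) * (r k * (e g * w g ^ (θ_g j) * (r l * (e b * w b ^ (θ_b j')))))`.  van: if the value is not 0, `bpth` holds, hence `pth` (all vertices are `NM`), and
the only path from `a` to `b` with letter set `{k, l}` is `[k, l]` (`ty5_word` in Pool/Agent/ADN/Ty5.lean).  gauge: second alternative.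
-/

namespace ADM

open AD ADN ADN.Ctx

namespace Ctx

variable {U : Type} [Ring U] {Q : Type} [Fintype Q] (C : Ctx U Q)
variable {ι : Type} [DecidableEq ι]

omit [DecidableEq ι] in
private theorem f5_word {src tgt : ι → Q} {a g b : Q} (nab : C.blk a ≠ C.blk b)
    (nga : C.blk g ≠ C.blk a) (ngb : C.blk g ≠ C.blk b) {k l : ι} (hk1 : src k = a) (hk2 : tgt k = g)
    (hl1 : src l = g) (hl2 : tgt l = b) {v : List (ι × ℕ)} (hp : C.bpth src tgt a v b)
    (hmem : ∀ q ∈ v, q.1 = k ∨ q.1 = l) : ∃ j j', v = [(k, j), (l, j')] := by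
  cases v with
  | nil => exact absurd hp nab
  | cons x v =>
    obtain ⟨x, j⟩ := x
    obtain ⟨hx, hp⟩ := hp
    have hxk : x = k := by
      rcases hmem (x, j) (by simp) with h | h
      · exact h
      · simp only at h
        rw [h, hl1] at hx
        exact absurd hx.symm nga
    rw [hxk, hk2] at hp
    cases v with
    | nil => exact absurd hp ngb
    | cons y v =>
      obtain ⟨y, j'⟩ := y
      obtain ⟨hy, hp⟩ := hp
      have hyl : y = l := by
        rcases hmem (y, j') (by simp) with h | h
        · simp only at h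
          rw [h, hk1] at hy
          exact absurd hy nga
        · exact h
      rw [hyl, hl2] at hp
      cases v with
      | nil => exact ⟨j, j', by rw [hxk, hyl]⟩
      | cons z v =>
        obtain ⟨z, j''⟩ := z
        obtain ⟨hz, -⟩ := hp
        rcases hmem (z, j'') (by simp) with h | h
        · simp only at h
          rw [h, hk1] at hz
          exact absurd hz.symm nab
        · simp only at h
          rw [h, hl1] at hz
          exact absurd hz.symm ngb

theorem sepF5 (src tgt : ι → Q) (σ : ι → ℕ) (a g b : Q) (hab : a ≠ b) (hga : g ≠ a) (hgb : g ≠ b)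
    (ha : C.NM a) (hgN : C.NM g) (hb : C.NM b) (k l : ι) (hk1 : src k = a) (hk2 : tgt k = g)
    (hl1 : src l = g) (hl2 : tgt l = b) :
    ∃ ok α β γ, C.Sep src tgt σ a b {k, l} k ok α β γ := by
  have nab : C.blk a ≠ C.blk b := fun h => hab (hb a h)
  have nga : C.blk g ≠ C.blk a := fun h => hga (ha g h)
  have ngb : C.blk g ≠ C.blk b := fun h => hgb (hb g h)
  have hkl : l ≠ k := by
    intro h
    rw [h, hk1] at hl1
    exact hga hl1.symm
  refine ⟨fun q => ∃ i j j', q = (i, [(k, j), (l, j')]), fun q => q.1,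
    fun q => ((q.2.getLast?).map Prod.snd).getD 0, fun q => ((q.2.head?).map Prod.snd).getD 0,
    ?_, ?_, ?_, ?_, ?_⟩
  · rintro q _ ⟨i, j, j', rfl⟩ θ r hr
    have hk : C.S a g (r k) := by
      have := (hr k).1
      rw [hk1, hk2] at this
      exact this
    have hl : C.S g b (r l) := by
      have := (hr l).1
      rw [hl1, hl2] at this
      exact this
    have g1 : C.gau θ tgt k j r k = r k * C.w g ^ (θ (C.blk g) * j) := by
      unfold gau
      rw [if_pos rfl, hk2]
    have g2 : C.gau θ tgt k j r l = r l := by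
      unfold gau
      rw [if_neg hkl]
    show C.g θ a (src k) i * (r k * (C.g θ (tgt k) (src l) j * (r l * C.g θ (tgt l) b j'))) =
      C.w a ^ (θ (C.blk a) * i) *
        (C.e a * (C.gau θ tgt k j r k * (C.gau θ tgt k j r l * 1))) * C.w b ^ (θ (C.blk b) * j')
    rw [hk1, hk2, hl1, hl2, g_self, g_self, g_self, g1, g2, mul_one]
    have c1 : Commute (C.e a) (C.w a) := by
      show C.e a * C.w a = C.w a * C.e a
      rw [C.w_left, C.w_right]
    have c2 := (c1.pow_right (θ (C.blk a) * i)).eq
    have e1 : r k * (C.e g * C.w g ^ (θ (C.blk g) * j) * (r l * (C.e b * C.w b ^ (θ (C.blk b) * j')))) =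
        r k * C.w g ^ (θ (C.blk g) * j) * r l * C.w b ^ (θ (C.blk b) * j') := by
      calc r k * (C.e g * C.w g ^ (θ (C.blk g) * j) * (r l * (C.e b * C.w b ^ (θ (C.blk b) * j'))))
          = (r k * C.e g) * C.w g ^ (θ (C.blk g) * j) * ((r l * C.e b) * C.w b ^ (θ (C.blk b) * j')) := by
            simp only [mul_assoc]
        _ = _ := by
            rw [hk.2.2, hl.2.2]
            simp only [mul_assoc]
    rw [e1, c2]
    simp only [mul_assoc]
  · intro q hq hok θ r hr
    by_contra hne
    have hp := C.nv_bpth θ src tgt r a b q.1 q.2 hne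
    obtain ⟨j, j', h⟩ := f5_word C nab nga ngb hk1 hk2 hl1 hl2 hp (by
      intro x hx
      have h1 : x.1 ∈ (lts q).toFinset := List.mem_toFinset.2 (List.mem_map_of_mem hx)
      rw [hq, Finset.mem_insert, Finset.mem_singleton] at h1
      exact h1)
    exact hok ⟨q.1, j, j', Prod.ext rfl h⟩
  · rintro q _ ⟨i, j, j', rfl⟩
    exact ⟨hk1, by rw [hl1, hk2], hl2⟩
  · exact Or.inr nab
  · refine Or.inr ⟨?_, ?_, ?_, ?_⟩
    · rw [hk2]
      exact nga
    · rw [hk2]
      exact ngb
    · rw [hk1, hk2]
      exact nga.symm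
    · rintro q _ ⟨i, j, j', rfl⟩
      show List.count k [k, l] = 1
      rw [List.count_cons_self, List.count_cons_of_ne hkl, List.count_nil]

end Ctx

end ADM
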