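import Pool.Agent.ADM.NvB
import Pool.Agent.ADM.Rel6

/-!
# ADM-SepF6

Words with arrows with letters `k, m : a → b`, `l : b → a`.

PLAN.  `a ≠ b` are `NM`, so their blocks are different.  `ok q = (pth (s2 src) (s2 tgt) a q.2 b ∧ q.2.length = 3 ∧ (lts q).toFinset = {k,l,m})`, then `q.2 = [(x, j), (l, j'), (z, j'')]` with
`x, z ∈ {k, m}`; `α q = q.1 + j'`, `β q = j + j''`, `γ = 0`.  form: `nv = w a ^ (θ_a i) * (r x * (w b ^ (θ_b j) * (r l * (w a ^ (θ_a j') * r z)))) * w b ^ (θ_b j'')` and `mov6` (Rel6.lean).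
van: if the value is not 0, `bpth` holds (`nv_bpth`), hence `pth`; the word alternates between letters `a → b` and `l`, it has odd length; if the length is `≥ 5` its value vanishes
(`van6` for the first four letters with their exponents; `nv_eq`, `r2_Srt`); length 1 has not the letter set `{k, l, m}`.
-/

namespace ADM

open AD ADN ADN.Ctx

namespace Ctx

variable {U : Type} [Ring U] {Q : Type} [Fintype Q] (C : Ctx U Q)
variable {ι : Type} [DecidableEq ι]

omit [Ring U] [Fintype Q] [DecidableEq ι] in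
private theorem sf6_pth {src tgt : ι → Q} {b : Q} : ∀ (v : List (ι × ℕ)) (a : Q),
    pth (s2 src) (s2 tgt) a v b → pth src tgt a (v.map Prod.fst) b
  | [], _, h => h
  | (_, _) :: v, _, h => ⟨h.1, sf6_pth v _ h.2⟩

omit [DecidableEq ι] in
private theorem sf6_bpth {src tgt : ι → Q} {b : Q} : ∀ (v : List (ι × ℕ)) (a : Q), C.NM a →
    (∀ q ∈ v, C.NM (tgt q.1)) → C.bpth src tgt a v b → pth (s2 src) (s2 tgt) a v b
  | [], a, ha, _, h => (ha b (Eq.symm h)).symm
  | (x, j) :: v, a, ha, hv, h => by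
    obtain ⟨h1, h2⟩ := h
    exact ⟨ha _ h1.symm, sf6_bpth v _ (hv (x, j) List.mem_cons_self)
      (fun q hq => hv q (List.mem_cons_of_mem _ hq)) h2⟩

private theorem sf6_gau (θ : ℕ → ℕ) (tgt : ι → Q) (k₀ : ι) (r : ι → U) : C.gau θ tgt k₀ 0 r = r := by
  funext k
  unfold gau
  split_ifs
  · rw [mul_zero, pow_zero, mul_one]
  · rfl

private theorem sf6_mem {v : List (ι × ℕ)} {R : Finset ι} (h : (v.map Prod.fst).toFinset = R) {q : ι × ℕ}
    (hq : q ∈ v) : q.1 ∈ R := by
  rw [← h, List.mem_toFinset]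
  exact List.mem_map_of_mem hq

theorem sepF6 (hC : C.Cub) (src tgt : ι → Q) (σ : ι → ℕ) (a b : Q) (hab : a ≠ b) (ha : C.NM a) (hb : C.NM b)
    (k l m : ι) (hk1 : src k = a) (hk2 : tgt k = b) (hl1 : src l = b) (hl2 : tgt l = a)
    (hm1 : src m = a) (hm2 : tgt m = b) (k₀ : ι) :
    ∃ ok α β γ, C.Sep src tgt σ a b {k, l, m} k₀ ok α β γ := by
  have hblk : C.blk a ≠ C.blk b := fun h => hab (ha b h.symm).symm
  have hcl : ∀ x ∈ ({k, l, m} : Finset ι), (src x = a ∧ tgt x = b) ∨ (src x = b ∧ tgt x = a) := by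
    intro x hx
    rw [Finset.mem_insert, Finset.mem_insert, Finset.mem_singleton] at hx
    rcases hx with rfl | rfl | rfl
    · exact Or.inl ⟨hk1, hk2⟩
    · exact Or.inr ⟨hl1, hl2⟩
    · exact Or.inl ⟨hm1, hm2⟩
  have hA : ∀ x ∈ ({k, l, m} : Finset ι), src x = a → tgt x = b := by
    intro x hx h
    rcases hcl x hx with h1 | h1
    · exact h1.2
    · exact absurd (h.symm.trans h1.1) hab
  have hB : ∀ x ∈ ({k, l, m} : Finset ι), src x = b → tgt x = a := by
    intro x hx h
    rcases hcl x hx with h1 | h1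
    · exact absurd (h1.1.symm.trans h) hab
    · exact h1.2
  refine ⟨fun q => pth (s2 src) (s2 tgt) a q.2 b ∧ q.2.length = 3,
    fun q => q.1 + (q.2.getD 1 (k₀, 0)).2, fun q => (q.2.getD 0 (k₀, 0)).2 + (q.2.getD 2 (k₀, 0)).2,
    fun _ => 0, ?_, ?_, ?_, Or.inr hblk, Or.inl fun _ => rfl⟩
  · rintro ⟨i, v⟩ hR ⟨hp, hlen⟩ θ r hr
    match v, hlen with
    | [(x, j), (y, j'), (z, j'')], _ =>
      have hx := sf6_mem (q := (x, j)) hR (by simp)
      have hy := sf6_mem (q := (y, j')) hR (by simp)
      have hz := sf6_mem (q := (z, j'')) hR (by simp)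
      obtain ⟨p1, p2, p3, p4⟩ := hp
      have q1 : src x = a := p1
      have q2 : tgt x = b := hA x hx q1
      have q3 : src y = b := Eq.trans p2 q2
      have q4 : tgt y = a := hB y hy q3
      have q5 : src z = a := Eq.trans p3 q4
      have q6 : tgt z = b := hA z hz q5
      have Sx : C.S a b (r x) := by
        have h := (hr x).1
        rwa [q1, q2] at h
      have Sy : C.S b a (r y) := by
        have h := (hr y).1
        rwa [q3, q4] at h
      have Sz : C.S a b (r z) := by
        have h := (hr z).1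
        rwa [q5, q6] at h
      have hmov := C.mov6 hC hab Sx Sy Sz (θ (C.blk b) * j) (θ (C.blk a) * j')
      show C.nv θ src tgt r a b i [(x, j), (y, j'), (z, j'')] =
        C.w a ^ (θ (C.blk a) * (i + j')) * C.wv (C.gau θ tgt k₀ 0 r) a [x, y, z] *
          C.w b ^ (θ (C.blk b) * (j + j''))
      rw [C.nv_eq hr θ b [(x, j), (y, j'), (z, j'')] a i ⟨p1, p2, p3, p4⟩, C.sf6_gau]
      have e1 : C.wv (C.r2 θ tgt r) a [(x, j), (y, j'), (z, j'')] =
          C.e a * ((r x * C.w (tgt x) ^ (θ (C.blk (tgt x)) * j)) *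
            ((r y * C.w (tgt y) ^ (θ (C.blk (tgt y)) * j')) *
              ((r z * C.w (tgt z) ^ (θ (C.blk (tgt z)) * j'')) * 1))) := rfl
      have e2 : C.wv r a [x, y, z] = C.e a * (r x * (r y * (r z * 1))) := rfl
      rw [e1, e2, q2, q4, q6, mul_one, mul_one]
      have e3 : r x * C.w b ^ (θ (C.blk b) * j) * (r y * C.w a ^ (θ (C.blk a) * j') *
          (r z * C.w b ^ (θ (C.blk b) * j''))) =
          C.w a ^ (θ (C.blk a) * j') * ((r x * r y * r z) * C.w b ^ (θ (C.blk b) * j) *
            C.w b ^ (θ (C.blk b) * j'')) := by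
        calc _ = r x * (C.w b ^ (θ (C.blk b) * j) * (r y * (C.w a ^ (θ (C.blk a) * j') * r z))) *
              C.w b ^ (θ (C.blk b) * j'') := by simp only [mul_assoc]
          _ = _ := by rw [hmov]; simp only [mul_assoc]
      have e4 : C.e a * (r x * r y * r z * C.w b ^ (θ (C.blk b) * j) * C.w b ^ (θ (C.blk b) * j'')) =
          r x * r y * r z * C.w b ^ (θ (C.blk b) * j) * C.w b ^ (θ (C.blk b) * j'') := by
        simp only [← mul_assoc]
        rw [Sx.2.1]
      rw [e3, C.e_w_pow _ e4, ← mul_assoc, ← pow_add, ← mul_add]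
      have e5 : C.e a * (r x * (r y * r z)) = r x * r y * r z := by
        simp only [← mul_assoc]
        rw [Sx.2.1]
      rw [e5, mul_add (θ (C.blk b)), pow_add (C.w b)]
      simp only [mul_assoc]
  · rintro ⟨i, v⟩ hR hok θ r hr
    by_contra hne
    have hmem : ∀ q ∈ v, q.1 ∈ ({k, l, m} : Finset ι) := fun q hq => sf6_mem hR hq
    have hp : pth (s2 src) (s2 tgt) a v b := by
      refine C.sf6_bpth v a ha (fun q hq => ?_) (C.nv_bpth θ src tgt r a b i v hne)
      rcases hcl q.1 (hmem q hq) with h | h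
      · rw [h.2]
        exact hb
      · rw [h.2]
        exact ha
    have hkl : k ≠ l := fun h => hab (by rw [← hk1, ← hl1, h])
    match v, hR, hok, hne, hmem, hp with
    | [], hR, _, _, _, _ =>
      have h : k ∈ (lts (i, ([] : List (ι × ℕ)))).toFinset := by
        rw [hR]
        exact Finset.mem_insert_self _ _
      simp [lts] at h
    | [(x, j)], hR, _, _, _, _ =>
      have h1 : k ∈ (lts (i, [(x, j)])).toFinset := by
        rw [hR]
        exact Finset.mem_insert_self _ _
      have h2 : l ∈ (lts (i, [(x, j)])).toFinset := by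
        rw [hR]
        exact Finset.mem_insert_of_mem (Finset.mem_insert_self _ _)
      simp only [lts, List.map_cons, List.map_nil, List.toFinset_cons, List.toFinset_nil,
        insert_empty_eq, Finset.mem_singleton] at h1 h2
      exact hkl (h1.trans h2.symm)
    | [(x, j), (y, j')], _, _, _, hmem, hp =>
      obtain ⟨p1, p2, p3⟩ := hp
      have q1 : src x = a := p1
      have q2 : tgt x = b := hA x (hmem (x, j) (by simp)) q1
      have q3 : src y = b := Eq.trans p2 q2
      have q4 : tgt y = a := hB y (hmem (y, j') (by simp)) q3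
      exact hab (q4.symm.trans p3)
    | [(x, j), (y, j'), (z, j'')], _, hok, _, _, hp => exact hok ⟨hp, rfl⟩
    | (x, j) :: (y, j') :: (z, j'') :: (t, j3) :: v, _, _, hne, hmem, hp =>
      apply hne
      have hp' := hp
      obtain ⟨p1, p2, p3, p4, -⟩ := hp
      have q1 : src x = a := p1
      have q2 : tgt x = b := hA x (hmem (x, j) (by simp)) q1
      have q3 : src y = b := Eq.trans p2 q2
      have q4 : tgt y = a := hB y (hmem (y, j') (by simp)) q3
      have q5 : src z = a := Eq.trans p3 q4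
      have q6 : tgt z = b := hA z (hmem (z, j'') (by simp)) q5
      have q7 : src t = b := Eq.trans p4 q6
      have q8 : tgt t = a := hB t (hmem (t, j3) (by simp)) q7
      have hS := C.r2_Srt hr θ
      have S1 : C.S a b (C.r2 θ tgt r (x, j)) := by
        have h : C.S (src x) (tgt x) (C.r2 θ tgt r (x, j)) := hS (x, j)
        rwa [q1, q2] at h
      have S2 : C.S b a (C.r2 θ tgt r (y, j')) := by
        have h : C.S (src y) (tgt y) (C.r2 θ tgt r (y, j')) := hS (y, j')
        rwa [q3, q4] at h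
      have S3 : C.S a b (C.r2 θ tgt r (z, j'')) := by
        have h : C.S (src z) (tgt z) (C.r2 θ tgt r (z, j'')) := hS (z, j'')
        rwa [q5, q6] at h
      have S4 : C.S b a (C.r2 θ tgt r (t, j3)) := by
        have h : C.S (src t) (tgt t) (C.r2 θ tgt r (t, j3)) := hS (t, j3)
        rwa [q7, q8] at h
      have hv6 := C.van6 hC hab S1 S2 S3 S4
      rw [C.nv_eq hr θ b _ a i hp']
      unfold Base.wv
      rw [List.map_cons, List.map_cons, List.map_cons, List.map_cons, List.prod_cons, List.prod_cons,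
        List.prod_cons, List.prod_cons, ← mul_assoc (C.r2 θ tgt r (x, j)),
        ← mul_assoc (C.r2 θ tgt r (x, j) * _), ← mul_assoc (C.r2 θ tgt r (x, j) * _ * _), hv6, zero_mul,
        mul_zero, mul_zero]
  · rintro ⟨i, v⟩ _ ⟨hp, -⟩
    exact sf6_pth v a hp

end Ctx

end ADM
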