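import Pool.Agent.ADM.DefD

/-!
# ADM-SpP

Pure combinatorics of path words in three letters `0 : v₀ → v₁`, `1 : v₁ → v₂`, `2 : v₂ → v₃`.

PLAN.  (All three statements have been checked by computer for words of length up to 8.)  `δ l = true` for the letters in the radical.
* spP1: vertices `p, p, q, q`: `0` is a loop at `p`, `1 : p → q`, `2` a loop at `q`; the paths from `p` to `q` are `0^s 1 2^t`; all letters: `s, t ≥ 1`;
  `countP δ = s + t ≥ 3` unless `s = t = 1`; split after `0^s` at the vertex `p`.
* spP2: vertices `p, q, q, p`, `0 : p → q`, `1` a loop at `q`, `2 : q → p`; the paths from `p` to `p` are products of blocks `0 1^s 2`; only one block: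
  `s ≥ 1`, `countP = s + 1`, `s = 1` is `[0,1,2]`, for `s ≥ 2` split after `0 1` at `q`; two or more blocks: `countP ≥ 3` (at least two letters 2 and one
  letter 1), split after the first block at `p` (its last letter 2 counts; the rest contains a letter 2).
* spP3: vertices `a, i, j, b`, `0 : a → i`, `1 : i → j`, `2 : j → b`, `δ = (1, 0, 1)`.  If `b ≠ i, j`: the letter 2 leads to `b`; from `b` one can continue only if `b = a`.  `a ≠ i, j`, `b ≠ a`:
  only `[0,1,2]`; `a = b`: `(012)^s`; `a = i`: `0^s 1 2`, `a = j`: `(01)^s 2` (`0` from `j` to `i`; also `2` ends the word because `b ≠ a, i, j`); `a ≠ i, j` and `b = i`: `0 (1 2)^s`;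
  `b = j`: `0 1 2^s`.  In all cases `countP ≥ 3` unless the word is `[0,1,2]`, and there is a splitting at `i` or `j` (after the first or second letter, etc.).
A convenient way: induction on the word with an invariant describing the possible prefixes.
-/

namespace ADM

open ADN ADN.Ctx

private theorem cnt_pos {δ : Fin 3 → Bool} {w : List (Fin 3)} {k : Fin 3} (h : k ∈ w)
    (hk : δ k = true) : 1 ≤ w.countP δ :=
  List.one_le_countP_iff.2 ⟨k, h, hk⟩

private theorem pth_snoc {W : Type} {src tgt : Fin 3 → W} {v : List (Fin 3)} {k : Fin 3} {a b : W}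
    (h : pth src tgt a (v ++ [k]) b) : pth src tgt a v (src k) ∧ tgt k = b := by
  obtain ⟨c, h1, h2, h3⟩ := (Base.pth_append v [k] a b).1 h
  rw [h2]
  exact ⟨h1, h3⟩

private theorem pth_cat {W : Type} {src tgt : Fin 3 → W} {v w : List (Fin 3)} {a b c : W}
    (h1 : pth src tgt a v b) (h2 : pth src tgt b w c) : pth src tgt a (v ++ w) c :=
  (Base.pth_append v w a c).2 ⟨b, h1, h2⟩

theorem spP1 {W : Type} {p q : W} (h : p ≠ q) : Split2 ![true, false, true] p q p p q q := by
  intro w hw hp
  obtain _ | ⟨k, w⟩ := w
  · exact absurd (hw 0) (by simp)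
  obtain ⟨hk, hp⟩ := hp
  fin_cases k
  · -- the first letter is 0
    have h2 : (2 : Fin 3) ∈ w := by
      have := hw 2
      simpa using this
    have hc : 1 ≤ w.countP ![true, false, true] := cnt_pos h2 rfl
    have hsplit : ∃ w₁ w₂ m, (0 : Fin 3) :: w = w₁ ++ w₂ ∧ (m = p ∨ m = q) ∧
        1 ≤ w₁.countP ![true, false, true] ∧ 1 ≤ w₂.countP ![true, false, true] ∧
        pth ![p, p, q] ![p, q, q] p w₁ m ∧ pth ![p, p, q] ![p, q, q] m w₂ q :=
      ⟨[0], w, p, rfl, Or.inl rfl, by decide, hc, ⟨rfl, rfl⟩, hp⟩
    have h1 : (1 : Fin 3) ∈ w := by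
      have := hw 1
      simpa using this
    obtain _ | ⟨k, w⟩ := w
    · simp at h2
    obtain ⟨hk2, hp2⟩ := hp
    fin_cases k
    · right
      refine ⟨?_, hsplit⟩
      have h3 : (2 : Fin 3) ∈ w := by simpa using h2
      have h4 : 1 ≤ w.countP ![true, false, true] := cnt_pos h3 rfl
      have h5 : List.countP ![true, false, true] ((0 : Fin 3) :: 0 :: w) =
        w.countP ![true, false, true] + 2 := by simp
      exact h5 ▸ (by omega)
    · have h3 : (2 : Fin 3) ∈ w := by simpa using h2
      obtain _ | ⟨k, w⟩ := w
      · simp at h3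
      obtain ⟨hk3, hp3⟩ := hp2
      fin_cases k
      · exact absurd hk3 h
      · exact absurd hk3 h
      · obtain _ | ⟨k, w⟩ := w
        · left
          rfl
        · obtain ⟨hk4, hp4⟩ := hp3
          fin_cases k
          · exact absurd hk4 h
          · exact absurd hk4 h
          · right
            refine ⟨?_, hsplit⟩
            have h5 : List.countP ![true, false, true] ((0 : Fin 3) :: 1 :: 2 :: 2 :: w) =
              w.countP ![true, false, true] + 3 := by simp
            exact h5 ▸ (by omega)
    · exact absurd hk2.symm h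
  · -- the first letter is 1
    exfalso
    have h0 : (0 : Fin 3) ∈ w := by
      have := hw 0
      simpa using this
    have key : ∀ v : List (Fin 3), pth ![p, p, q] ![p, q, q] q v q → (0 : Fin 3) ∉ v := by
      intro v
      induction v with
      | nil => intro _; simp
      | cons k v ih =>
        rintro ⟨hk, hv⟩
        fin_cases k
        · exact absurd hk h
        · exact absurd hk h
        · have := ih hv
          simpa using this
    exact key w hp h0
  · exact absurd hk.symm h

theorem spP2 {W : Type} {p q : W} (h : p ≠ q) : Split2 ![false, true, true] p q p q q p := by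
  have key : ∀ v : List (Fin 3), pth ![p, q, q] ![q, q, p] q v p → (2 : Fin 3) ∈ v := by
    intro v
    induction v with
    | nil => intro h1; exact absurd h1.symm h
    | cons k v ih =>
      rintro ⟨hk, hv⟩
      fin_cases k
      · exact absurd hk h
      · exact List.mem_cons_of_mem _ (ih hv)
      · simp
  intro w hw hp
  obtain _ | ⟨k, w⟩ := w
  · exact absurd (hw 0) (by simp)
  obtain ⟨hk, hp⟩ := hp
  fin_cases k
  · obtain _ | ⟨k, w⟩ := w
    · exact absurd hp.symm h
    obtain ⟨hk2, hp2⟩ := hp
    fin_cases k
    · exact absurd hk2 h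
    · -- 0 1 ...
      have h2 : (2 : Fin 3) ∈ w := key w hp2
      have hc : 1 ≤ w.countP ![false, true, true] := cnt_pos h2 rfl
      have hsplit : ∃ w₁ w₂ m, (0 : Fin 3) :: 1 :: w = w₁ ++ w₂ ∧ (m = p ∨ m = q) ∧
          1 ≤ w₁.countP ![false, true, true] ∧ 1 ≤ w₂.countP ![false, true, true] ∧
          pth ![p, q, q] ![q, q, p] p w₁ m ∧ pth ![p, q, q] ![q, q, p] m w₂ p :=
        ⟨[0, 1], w, q, rfl, Or.inr rfl, by decide, hc, ⟨rfl, rfl, rfl⟩, hp2⟩
      obtain _ | ⟨k, w⟩ := w
      · simp at h2
      obtain ⟨hk3, hp3⟩ := hp2
      fin_cases k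
      · exact absurd hk3 h
      · right
        refine ⟨?_, hsplit⟩
        have h4 : 1 ≤ w.countP ![false, true, true] := cnt_pos (key w hp3) rfl
        have h5 : List.countP ![false, true, true] ((0 : Fin 3) :: 1 :: 1 :: w) =
          w.countP ![false, true, true] + 2 := by simp
        exact h5 ▸ (by omega)
      · obtain _ | ⟨k, w⟩ := w
        · left
          rfl
        · obtain ⟨hk4, hp4⟩ := hp3
          fin_cases k
          · right
            refine ⟨?_, hsplit⟩
            have h4 : 1 ≤ w.countP ![false, true, true] := cnt_pos (key w hp4) rfl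
            have h5 : List.countP ![false, true, true] ((0 : Fin 3) :: 1 :: 2 :: 0 :: w) =
              w.countP ![false, true, true] + 2 := by simp
            exact h5 ▸ (by omega)
          · exact absurd hk4.symm h
          · exact absurd hk4.symm h
    · -- 0 2 ...
      have h1 : (1 : Fin 3) ∈ w := by
        have := hw 1
        simpa using this
      obtain _ | ⟨k, w⟩ := w
      · simp at h1
      obtain ⟨hk3, hp3⟩ := hp2
      fin_cases k
      · have h1' : (1 : Fin 3) ∈ w := by simpa using h1
        have hc2 : 2 ≤ w.countP ![false, true, true] := by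
          obtain _ | ⟨k, w⟩ := w
          · simp at h1'
          obtain ⟨hk4, hp4⟩ := hp3
          fin_cases k
          · exact absurd hk4 h
          · have h4 : 1 ≤ w.countP ![false, true, true] := cnt_pos (key w hp4) rfl
            have h5 : List.countP ![false, true, true] ((1 : Fin 3) :: w) =
              w.countP ![false, true, true] + 1 := by simp
            exact h5 ▸ (by omega)
          · have h6 : (1 : Fin 3) ∈ w := by simpa using h1'
            have h4 : 1 ≤ w.countP ![false, true, true] := cnt_pos h6 rfl
            have h5 : List.countP ![false, true, true] ((2 : Fin 3) :: w) =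
              w.countP ![false, true, true] + 1 := by simp
            exact h5 ▸ (by omega)
        right
        have h5 : List.countP ![false, true, true] ((0 : Fin 3) :: 2 :: 0 :: w) =
          w.countP ![false, true, true] + 1 := by simp
        have h6 : List.countP ![false, true, true] ((0 : Fin 3) :: w) =
          w.countP ![false, true, true] := by simp
        refine ⟨h5 ▸ (by omega), [0, 2], 0 :: w, p, rfl, Or.inl rfl, by decide, h6 ▸ (by omega),
          ⟨rfl, rfl, rfl⟩, hk3, hp3⟩
      · exact absurd hk3.symm h
      · exact absurd hk3.symm h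
  · exact absurd hk.symm h
  · exact absurd hk.symm h

private theorem spA {W : Type} {i j a b : W} (h : i ≠ j) (ha : a ≠ i) (ha' : a ≠ j) :
    Split2 ![true, false, true] i j a i j b := by
  intro w hw hp
  obtain _ | ⟨k, w⟩ := w
  · exact absurd (hw 0) (by simp)
  obtain ⟨hk, hp⟩ := hp
  fin_cases k
  · obtain _ | ⟨k, w⟩ := w
    · exact absurd (hw 1) (by simp)
    obtain ⟨hk2, hp2⟩ := hp
    fin_cases k
    · exact absurd hk2 ha
    · have h2 : (2 : Fin 3) ∈ w := by
        have := hw 2
        simpa using this
      have hc : 1 ≤ List.countP ![true, false, true] ((1 : Fin 3) :: w) :=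
        cnt_pos (List.mem_cons_of_mem _ h2) rfl
      have hsplit : ∃ w₁ w₂ m, (0 : Fin 3) :: 1 :: w = w₁ ++ w₂ ∧ (m = i ∨ m = j) ∧
          1 ≤ w₁.countP ![true, false, true] ∧ 1 ≤ w₂.countP ![true, false, true] ∧
          pth ![a, i, j] ![i, j, b] a w₁ m ∧ pth ![a, i, j] ![i, j, b] m w₂ b :=
        ⟨[0], 1 :: w, i, rfl, Or.inl rfl, by decide, hc, ⟨rfl, rfl⟩, rfl, hp2⟩
      obtain _ | ⟨k, w⟩ := w
      · simp at h2
      obtain ⟨hk3, hp3⟩ := hp2
      fin_cases k
      · exact absurd hk3 ha'
      · exact absurd hk3 h
      · obtain _ | ⟨k, w⟩ := w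
        · left
          rfl
        · right
          refine ⟨?_, hsplit⟩
          have h7 : 1 ≤ List.countP ![true, false, true] (k :: w) := by
            obtain ⟨hk4, hp4⟩ := hp3
            fin_cases k
            · exact cnt_pos (k := 0) (List.mem_cons_self) rfl
            · obtain _ | ⟨k, w⟩ := w
              · exact absurd (hk4.trans hp4.symm) h
              obtain ⟨hk5, hp5⟩ := hp4
              fin_cases k
              · exact absurd hk5 ha'
              · exact absurd hk5 h
              · exact cnt_pos (k := 2) (List.mem_cons_of_mem _ List.mem_cons_self) rfl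
            · exact cnt_pos (k := 2) (List.mem_cons_self) rfl
          have h5 : List.countP ![true, false, true] ((0 : Fin 3) :: 1 :: 2 :: k :: w) =
            List.countP ![true, false, true] (k :: w) + 2 := by
            rw [List.countP_cons, List.countP_cons, List.countP_cons]
            simp
          exact h5 ▸ (by omega)
    · exact absurd hk2.symm h
  · exact absurd hk.symm ha
  · exact absurd hk.symm ha'

private theorem spB {W : Type} {i j a b : W} (h : i ≠ j) (hb : b ≠ i) (hb' : b ≠ j) :
    Split2 ![true, false, true] i j a i j b := by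
  intro w hw hp
  rcases List.eq_nil_or_concat w with hn | ⟨w1, k, rfl⟩
  · subst hn
    exact absurd (hw 0) (by simp)
  rw [List.concat_eq_append] at hw hp ⊢
  obtain ⟨hp1, hk⟩ := pth_snoc hp
  fin_cases k
  · exact absurd hk.symm hb
  · exact absurd hk.symm hb'
  · have h0 : (0 : Fin 3) ∈ w1 := by
      have := hw 0
      simpa using this
    have h1 : (1 : Fin 3) ∈ w1 := by
      have := hw 1
      simpa using this
    have hc : 1 ≤ w1.countP ![true, false, true] := cnt_pos h0 rfl
    have hsplit : ∃ w₁ w₂ m, w1 ++ [(2 : Fin 3)] = w₁ ++ w₂ ∧ (m = i ∨ m = j) ∧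
        1 ≤ w₁.countP ![true, false, true] ∧ 1 ≤ w₂.countP ![true, false, true] ∧
        pth ![a, i, j] ![i, j, b] a w₁ m ∧ pth ![a, i, j] ![i, j, b] m w₂ b :=
      ⟨w1, [2], j, rfl, Or.inr rfl, hc, by decide, hp1, ⟨rfl, rfl⟩⟩
    rcases List.eq_nil_or_concat w1 with hn | ⟨w2, k, rfl⟩
    · subst hn
      simp at h0
    rw [List.concat_eq_append] at h0 h1 hp1 hsplit ⊢
    obtain ⟨hp2, hk2⟩ := pth_snoc hp1
    fin_cases k
    · exact absurd hk2 h
    · have h0' : (0 : Fin 3) ∈ w2 := by simpa using h0
      rcases List.eq_nil_or_concat w2 with hn | ⟨w3, k, rfl⟩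
      · subst hn
        simp at h0'
      rw [List.concat_eq_append] at h0' hp2 hsplit ⊢
      obtain ⟨hp3, hk3⟩ := pth_snoc hp2
      fin_cases k
      · rcases List.eq_nil_or_concat w3 with hn | ⟨w4, k, rfl⟩
        · subst hn
          left
          rfl
        · rw [List.concat_eq_append] at hp3 hsplit ⊢
          right
          refine ⟨?_, hsplit⟩
          have h7 : 1 ≤ List.countP ![true, false, true] (w4 ++ [k]) := by
            obtain ⟨hp4, hk4⟩ := pth_snoc hp3
            fin_cases k
            · exact cnt_pos (k := 0) (List.mem_append_right _ List.mem_cons_self) rfl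
            · rcases List.eq_nil_or_concat w4 with hn | ⟨w5, k, rfl⟩
              · subst hn
                exact absurd (hp4.symm.trans hk4.symm) h
              · rw [List.concat_eq_append] at hp4 ⊢
                obtain ⟨hp5, hk5⟩ := pth_snoc hp4
                fin_cases k
                · exact cnt_pos (k := 0)
                    (List.mem_append_left _ (List.mem_append_right _ List.mem_cons_self)) rfl
                · exact absurd hk5.symm h
                · exact absurd hk5 hb
            · exact cnt_pos (k := 2) (List.mem_append_right _ List.mem_cons_self) rfl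
          rw [List.countP_append, List.countP_append, List.countP_append]
          have e1 : List.countP ![true, false, true] [(0 : Fin 3)] = 1 := by decide
          have e2 : List.countP ![true, false, true] [(1 : Fin 3)] = 0 := by decide
          have e3 : List.countP ![true, false, true] [(2 : Fin 3)] = 1 := by decide
          have h8 : List.countP ![true, false, true] [(⟨0, by decide⟩ : Fin 3)] = 1 := by decide
          have h9 : List.countP ![true, false, true] [(⟨2, by decide⟩ : Fin 3)] = 1 := by decide
          have h10 : 3 ≤ List.countP ![true, false, true] (w4 ++ [k]) + 1 + 0 + 1 := by omega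
          exact h10
      · exact absurd hk3.symm h
      · exact absurd hk3 hb
    · exact absurd hk2 hb'

theorem spP3 {W : Type} {i j a b : W} (h : i ≠ j) (hab : (a ≠ i ∧ a ≠ j) ∨ (b ≠ i ∧ b ≠ j)) :
    Split2 ![true, false, true] i j a i j b := by
  rcases hab with ⟨h1, h2⟩ | ⟨h1, h2⟩
  · exact spA h h1 h2
  · exact spB h h1 h2

end ADM
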