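import Pool.Agent.ADM.Na

/-!
# ADM-Step

Rewriting of a word of homogeneous loops which is split into three blocks.

PLAN.  Apply `na` (`naT`, `naM`) to the products `x i = (X i).map r |>.prod`, homogeneous of twist `tot σ (X i)` (`hom_prod`), `X = ![X₀, X₁, X₂]`.
Let `c₀` be the combination of words in `Fin 3`, `c = c₀.mapDomain (fun w => w.flatMap X)` (substitute the blocks).  For all `r`:
`(w.map x).prod = ((w.flatMap X).map r).prod` (`List.map_flatMap`, `List.prod_flatMap` or induction), so `val r a c = val x a c₀`.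
Properties of `v' = w.flatMap X` for `w` containing `0, 1, 2`, `v = X₀ ++ X₁ ++ X₂ = [0,1,2].flatMap X`:
* `count k v' = ∑_{i ∈ w} count k (X i) ≥ count k v`; letters of `v'` are letters of `v`;
* `tot σ v' = tot σ₃ w` where `σ₃ i = tot σ (X i)`, so `tot σ v ≡ tot σ v'` because `Ew a σ₃ [0,1,2] w`;
* `wt p σ v' k = ∑_i wt p σ₃ w i * wt p σ (X i) k` (induction on `w` with `wt_append`), so `wt p σ v k ≡ wt p σ v' k` modulo `n a`;
* `length v' = ∑_{i ∈ w} length (X i)`: if `4 ≤ w.length` then `v.length < v'.length` (all blocks are nonempty); if `w.length = 3` (then `w` is a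
  permutation of `[0,1,2]`), `v'.length = v.length` and `p ∣ c₀ w`.
The coefficient `c v' = ∑_{w : w.flatMap X = v'} c₀ w`: if `v'.length = v.length`, all `w` in this sum have length 3, so `p ∣ c v'`; a word `v'` in the
support of `c` comes from some `w` in the support of `c₀` (`Finsupp.mapDomain_support`).
-/

namespace ADM

open AD ADN

namespace Ctx

variable {U : Type} [Ring U] {Q : Type} [Fintype Q] (C : Ctx U Q)
variable {ι : Type} [DecidableEq ι]

omit [DecidableEq ι] in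
private theorem st_prod {R : Type} [Ring R] (X : Fin 3 → List ι) (r : ι → R) (w : List (Fin 3)) :
    (w.map (fun i => ((X i).map r).prod)).prod = ((w.flatMap X).map r).prod := by
  induction w with
  | nil => rfl
  | cons i w ih =>
    rw [List.flatMap_cons, List.map_append, List.prod_append, List.map_cons, List.prod_cons, ih]

omit [DecidableEq ι] in
private theorem st_tot (σ : ι → ℕ) (X : Fin 3 → List ι) (w : List (Fin 3)) :
    tot σ (w.flatMap X) = tot (fun i => tot σ (X i)) w := by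
  induction w with
  | nil => rfl
  | cons i w ih =>
    rw [List.flatMap_cons, tot_append, ih]
    rfl

private theorem st_wt (p : ℕ) (σ : ι → ℕ) (X : Fin 3 → List ι) (w : List (Fin 3)) (k : ι) :
    wt p σ (w.flatMap X) k = ∑ i, wt p (fun i => tot σ (X i)) w i * wt p σ (X i) k := by
  induction w with
  | nil => simp [wt]
  | cons i w ih =>
    rw [List.flatMap_cons, wt_append, ih, Finset.mul_sum]
    have h1 : ∀ j, wt p (fun i => tot σ (X i)) (i :: w) j * wt p σ (X j) k =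
        (if i = j then wt p σ (X j) k else 0) +
          p ^ tot σ (X i) * (wt p (fun i => tot σ (X i)) w j * wt p σ (X j) k) := by
      intro j
      show ((if i = j then 1 else 0) + p ^ tot σ (X i) * wt p (fun i => tot σ (X i)) w j) *
        wt p σ (X j) k = _
      split_ifs
      · ring
      · ring
    rw [Finset.sum_congr rfl fun j _ => h1 j, Finset.sum_add_distrib, Finset.sum_ite_eq,
      if_pos (Finset.mem_univ i)]

private theorem st_sum (f : Fin 3 → ℕ) (w : List (Fin 3)) :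
    (w.map f).sum = w.count 0 * f 0 + w.count 1 * f 1 + w.count 2 * f 2 := by
  induction w with
  | nil => simp
  | cons i w ih =>
    rw [List.map_cons, List.sum_cons, ih]
    fin_cases i <;> simp <;> ring

private theorem st_cnt {w : List (Fin 3)} (hw : ∀ i, i ∈ w) (i : Fin 3) : 1 ≤ w.count i :=
  List.count_pos_iff.2 (hw i)

private theorem st_len (w : List (Fin 3)) : w.length = w.count 0 + w.count 1 + w.count 2 := by
  have h := st_sum (fun _ => 1) w
  rw [mul_one, mul_one, mul_one] at h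
  rw [← h]
  simp

private theorem st_le {w : List (Fin 3)} (hw : ∀ i, i ∈ w) (f : Fin 3 → ℕ) :
    f 0 + f 1 + f 2 ≤ (w.map f).sum := by
  rw [st_sum]
  have h0 := Nat.mul_le_mul_right (f 0) (st_cnt hw 0)
  have h1 := Nat.mul_le_mul_right (f 1) (st_cnt hw 1)
  have h2 := Nat.mul_le_mul_right (f 2) (st_cnt hw 2)
  rw [one_mul] at h0 h1 h2
  omega

private theorem st_lt {w : List (Fin 3)} (hw : ∀ i, i ∈ w) (hl : 4 ≤ w.length) (f : Fin 3 → ℕ)
    (hf : ∀ i, 1 ≤ f i) : f 0 + f 1 + f 2 < (w.map f).sum := by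
  rw [st_sum]
  rw [st_len] at hl
  have h0 := Nat.mul_le_mul_left (w.count 0 - 1) (hf 0)
  have h1 := Nat.mul_le_mul_left (w.count 1 - 1) (hf 1)
  have h2 := Nat.mul_le_mul_left (w.count 2 - 1) (hf 2)
  have c0 := st_cnt hw 0
  have c1 := st_cnt hw 1
  have c2 := st_cnt hw 2
  have e : ∀ n m : ℕ, 1 ≤ n → n * m = (n - 1) * m + m := by
    intro n m hn
    obtain ⟨n, rfl⟩ := Nat.exists_eq_add_of_le hn
    rw [Nat.add_sub_cancel_left]
    ring
  rw [e _ _ c0, e _ _ c1, e _ _ c2]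
  omega

private theorem st_eq {w : List (Fin 3)} (hw : ∀ i, i ∈ w) (hl : ¬ 4 ≤ w.length) (f : Fin 3 → ℕ) :
    (w.map f).sum = f 0 + f 1 + f 2 := by
  rw [st_sum]
  rw [st_len] at hl
  have c0 := st_cnt hw 0
  have c1 := st_cnt hw 1
  have c2 := st_cnt hw 2
  rw [show w.count 0 = 1 by omega, show w.count 1 = 1 by omega, show w.count 2 = 1 by omega]
  ring

omit [DecidableEq ι] in
private theorem st_flen (X : Fin 3 → List ι) (w : List (Fin 3)) :
    (w.flatMap X).length = (w.map (fun i => (X i).length)).sum := by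
  rw [List.length_flatMap]

private theorem st_fcnt (X : Fin 3 → List ι) (w : List (Fin 3)) (k : ι) :
    (w.flatMap X).count k = (w.map (fun i => (X i).count k)).sum := by
  induction w with
  | nil => simp
  | cons i w ih =>
    rw [List.flatMap_cons, List.count_append, List.map_cons, List.sum_cons, ih]

private theorem st_Ew {a : Q} {σ : ι → ℕ} {X : Fin 3 → List ι} {w w' : List (Fin 3)}
    (h : C.Ew a (fun i => tot σ (X i)) w w') : C.Ew a σ (w.flatMap X) (w'.flatMap X) := by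
  obtain ⟨h1, h2⟩ := h
  refine ⟨fun k => ?_, ?_⟩
  · rw [st_wt, st_wt, Fin.sum_univ_three, Fin.sum_univ_three]
    exact (((h1 0).mul_right _).add ((h1 1).mul_right _)).add ((h1 2).mul_right _)
  · rw [st_tot, st_tot]
    exact h2

private theorem st_Rw {a : Q} {σ : ι → ℕ} {X : Fin 3 → List ι} {w : List (Fin 3)}
    (hw : ∀ i, i ∈ w) (h : C.Ew a (fun i => tot σ (X i)) [0, 1, 2] w) :
    C.Rw a σ (([0, 1, 2] : List (Fin 3)).flatMap X) (w.flatMap X) := by
  refine ⟨fun k => ?_, fun k hk => ?_, st_Ew C h⟩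
  · rw [st_fcnt, st_fcnt]
    have h1 := st_le hw (fun i => (X i).count k)
    refine le_trans (le_of_eq ?_) h1
    simp [add_assoc]
  · rw [List.mem_flatMap] at hk ⊢
    obtain ⟨i, -, hi⟩ := hk
    refine ⟨i, ?_, hi⟩
    fin_cases i <;> simp

private theorem st_deep {a : Q} {σ : ι → ℕ} {X : Fin 3 → List ι} (hX : ∀ i, X i ≠ [])
    {c₀ : List (Fin 3) →₀ ℤ} (h : ∀ w ∈ c₀.support, (∀ i, i ∈ w) ∧
      C.Ew a (fun i => tot σ (X i)) [0, 1, 2] w ∧ (4 ≤ w.length ∨ (C.p : ℤ) ∣ c₀ w)) :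
    C.Deep a σ (([0, 1, 2] : List (Fin 3)).flatMap X) (c₀.mapDomain (fun w => w.flatMap X)) := by
  classical
  have hX1 : ∀ i, 1 ≤ (X i).length := fun i => List.length_pos_iff.2 (hX i)
  have h012 : (([0, 1, 2] : List (Fin 3)).flatMap X).length =
      (X 0).length + (X 1).length + (X 2).length := by
    rw [st_flen]
    simp [add_assoc]
  intro v' hv'
  obtain ⟨w, hw, rfl⟩ := Finset.mem_image.1 (Finsupp.mapDomain_support hv')
  obtain ⟨h1, h2, h3⟩ := h w hw
  refine ⟨st_Rw C h1 h2, ?_⟩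
  by_cases hl : 4 ≤ w.length
  · left
    rw [h012, st_flen]
    exact st_lt h1 hl (fun i => (X i).length) hX1
  · right
    have hlen : (w.flatMap X).length = (X 0).length + (X 1).length + (X 2).length := by
      rw [st_flen]
      exact st_eq h1 hl (fun i => (X i).length)
    refine ⟨by rw [h012, hlen], ?_⟩
    have hc : (c₀.mapDomain (fun w => w.flatMap X)) (w.flatMap X) =
        ∑ u ∈ c₀.support, if u.flatMap X = w.flatMap X then c₀ u else 0 := by
      unfold Finsupp.mapDomain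
      rw [Finsupp.sum_apply]
      exact Finset.sum_congr rfl fun u _ => Finsupp.single_apply
    rw [hc]
    refine Finset.dvd_sum fun u hu => ?_
    split_ifs with hE
    · obtain ⟨g1, -, g3⟩ := h u hu
      refine g3.resolve_left fun g4 => ?_
      have g5 := st_lt g1 g4 (fun i => (X i).length) hX1
      rw [← st_flen, hE, hlen] at g5
      exact lt_irrefl _ g5
    · exact dvd_zero _

private theorem st_val {a : Q} (X : Fin 3 → List ι) (c₀ : List (Fin 3) →₀ ℤ) (r : ι → U) :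
    C.val r a (c₀.mapDomain (fun w => w.flatMap X)) =
      C.val (fun i => ((X i).map r).prod) a c₀ := by
  unfold Base.val
  rw [Finsupp.sum_mapDomain_index (h := fun v n => n • C.wv r a v) (fun v => zero_smul ℤ _)
    (fun v m n => add_smul m n _)]
  refine Finsupp.sum_congr fun w _ => ?_
  unfold Base.wv
  rw [st_prod]

theorem step (hC : C.Cub) {a : Q} (ha : 2 ≤ C.r a) (σ : ι → ℕ) (X₀ X₁ X₂ : List ι)
    (h₀ : X₀ ≠ []) (h₁ : X₁ ≠ []) (h₂ : X₂ ≠ [])
    (hσ : ¬ (C.r a ∣ tot σ X₀ ∧ C.r a ∣ tot σ X₁ ∧ C.r a ∣ tot σ X₂))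
    (hL : C.r a ∣ tot σ X₀ → C.r a ∣ tot σ X₁ → Off C.Rl C.p [1, 0, 2])
    (hR : C.r a ∣ tot σ X₁ → C.r a ∣ tot σ X₂ → Off C.Rl C.p [0, 2, 1])
    (hM : C.r a ∣ tot σ X₀ + tot σ X₁ → C.r a ∣ tot σ X₁ + tot σ X₂ → Off C.Rl C.p [2, 1, 0])
    (hT : C.r a ∣ tot σ X₀ + tot σ X₁ → C.r a ∣ tot σ X₂ → Off C.Rl C.p [2, 0, 1])
    (hT' : C.r a ∣ tot σ X₀ → C.r a ∣ tot σ X₁ + tot σ X₂ → Off C.Rl C.p [1, 2, 0]) :
    ∃ c : List ι →₀ ℤ, C.Deep a σ (X₀ ++ X₁ ++ X₂) c ∧
      ∀ r, C.LHom a σ r → ((X₀ ++ X₁ ++ X₂).map r).prod = C.val r a c := by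
  have hX : ∀ i : Fin 3, (![X₀, X₁, X₂] : Fin 3 → List ι) i ≠ [] := by
    intro i
    fin_cases i
    · exact h₀
    · exact h₁
    · exact h₂
  have hv : (([0, 1, 2] : List (Fin 3)).flatMap ![X₀, X₁, X₂]) = X₀ ++ X₁ ++ X₂ := by
    simp [List.append_assoc]
  obtain ⟨c₀, hc, hx⟩ := na C hC ha (fun i => tot σ ((![X₀, X₁, X₂] : Fin 3 → List ι) i))
    (fun h => hσ ⟨h 0, h 1, h 2⟩) hL hR hM hT hT'
  refine ⟨c₀.mapDomain (fun w => w.flatMap ![X₀, X₁, X₂]), ?_, fun r hr => ?_⟩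
  · rw [← hv]
    exact st_deep C hX hc
  · rw [st_val, ← hx (fun i => (((![X₀, X₁, X₂] : Fin 3 → List ι) i).map r).prod)
      (fun i => hom_prod C hr (hX i)), List.map_append, List.map_append, List.prod_append,
      List.prod_append]
    rfl

theorem stepT (hC : C.Cub) {a : Q} (ha : 2 ≤ C.r a) (σ : ι → ℕ) (X₀ X₁ X₂ : List ι)
    (h₀ : X₀ ≠ []) (h₁ : X₁ ≠ []) (h₂ : X₂ ≠ []) (h0 : ¬ C.r a ∣ tot σ X₀)
    (h01 : C.r a ∣ tot σ X₀ + tot σ X₁) (h2 : C.r a ∣ tot σ X₂) :
    C.Rw a σ (X₀ ++ X₁ ++ X₂) (X₂ ++ X₀ ++ X₁) ∧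
    ∃ (z : ℤ) (c : List ι →₀ ℤ), C.Deep a σ (X₀ ++ X₁ ++ X₂) c ∧
      ∀ r, C.LHom a σ r → ((X₀ ++ X₁ ++ X₂).map r).prod =
        z • ((X₂ ++ X₀ ++ X₁).map r).prod + C.val r a c := by
  have hX : ∀ i : Fin 3, (![X₀, X₁, X₂] : Fin 3 → List ι) i ≠ [] := by
    intro i
    fin_cases i
    · exact h₀
    · exact h₁
    · exact h₂
  have hv : (([0, 1, 2] : List (Fin 3)).flatMap ![X₀, X₁, X₂]) = X₀ ++ X₁ ++ X₂ := by
    simp [List.append_assoc]
  have hv' : (([2, 0, 1] : List (Fin 3)).flatMap ![X₀, X₁, X₂]) = X₂ ++ X₀ ++ X₁ := by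
    simp [List.append_assoc]
  refine ⟨?_, ?_⟩
  · rw [← hv, ← hv']
    refine st_Rw C (by decide) ⟨fun k => ?_, ?_⟩
    · have e2 : C.p ^ tot σ X₂ ≡ 1 [MOD C.n a] := by
        have h := p_pow_modEq C a (s := tot σ X₂) (t := 0) ((Nat.modEq_zero_iff_dvd).2 h2)
        rwa [pow_zero] at h
      have e01 : C.p ^ tot σ X₀ * C.p ^ tot σ X₁ ≡ 1 [MOD C.n a] := by
        have h := p_pow_modEq C a (s := tot σ X₀ + tot σ X₁) (t := 0)
          ((Nat.modEq_zero_iff_dvd).2 h01)
        rwa [pow_zero, pow_add] at h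
      fin_cases k
      · show 1 + C.p ^ tot σ X₀ * (0 + C.p ^ tot σ X₁ * (0 + C.p ^ tot σ X₂ * 0)) ≡
          0 + C.p ^ tot σ X₂ * (1 + C.p ^ tot σ X₀ * (0 + C.p ^ tot σ X₁ * 0)) [MOD C.n a]
        simp only [mul_zero, add_zero, zero_add, mul_one]
        exact e2.symm
      · show 0 + C.p ^ tot σ X₀ * (1 + C.p ^ tot σ X₁ * (0 + C.p ^ tot σ X₂ * 0)) ≡
          0 + C.p ^ tot σ X₂ * (0 + C.p ^ tot σ X₀ * (1 + C.p ^ tot σ X₁ * 0)) [MOD C.n a]
        simp only [mul_zero, add_zero, zero_add, mul_one]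
        have h := e2.symm.mul_right (C.p ^ tot σ X₀)
        rwa [one_mul] at h
      · show 0 + C.p ^ tot σ X₀ * (0 + C.p ^ tot σ X₁ * (1 + C.p ^ tot σ X₂ * 0)) ≡
          1 + C.p ^ tot σ X₂ * (0 + C.p ^ tot σ X₀ * (0 + C.p ^ tot σ X₁ * 0)) [MOD C.n a]
        simp only [mul_zero, add_zero, zero_add, mul_one]
        exact e01
    · show tot σ X₀ + (tot σ X₁ + (tot σ X₂ + 0)) ≡ tot σ X₂ + (tot σ X₀ + (tot σ X₁ + 0)) [MOD C.r a]
      rw [show tot σ X₀ + (tot σ X₁ + (tot σ X₂ + 0)) = tot σ X₂ + (tot σ X₀ + (tot σ X₁ + 0)) by ring]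
  · obtain ⟨z, c₀, hc, hx⟩ := naT C hC ha (fun i => tot σ ((![X₀, X₁, X₂] : Fin 3 → List ι) i))
      h0 h01 h2
    refine ⟨z, c₀.mapDomain (fun w => w.flatMap ![X₀, X₁, X₂]), ?_, fun r hr => ?_⟩
    · rw [← hv]
      exact st_deep C hX hc
    · have h := hx (fun i => (((![X₀, X₁, X₂] : Fin 3 → List ι) i).map r).prod)
        (fun i => hom_prod C hr (hX i))
      rw [← st_val] at h
      rw [List.map_append, List.map_append, List.prod_append, List.prod_append, List.map_append,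
        List.map_append, List.prod_append, List.prod_append]
      exact h

end Ctx

end ADM
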