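import Pool.Agent.ADM.NvB
import Pool.Agent.ADM.Dft
import Pool.Agent.ADM.Nest

/-!
# ADM-Ty0x

Words with arrows and without letters: their values are the elements `E a b * w b ^ m`; discrete Fourier transform at `b`
and two multiples of the same element.
-/

namespace ADM

open AD ADN ADN.Ctx

namespace Ctx

variable {U : Type} [Ring U] {Q : Type} [Fintype Q] (C : Ctx U Q)
variable {ι : Type} [Fintype ι] [DecidableEq ι]

omit [Fintype ι] in
private theorem ty0x_nil {q : ℕ × List (ι × ℕ)} (h : (lts q).toFinset = ∅) : q = (q.1, []) := by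
  obtain ⟨i, v⟩ := q
  have h1 : lts (i, v) = [] := (List.toFinset_eq_empty_iff _).1 h
  have h2 : v = [] := List.map_eq_nil_iff.1 h1
  rw [h2]

omit [Fintype ι] in
private theorem ty0x_val (src tgt : ι → Q) (a b : Q) (c : (ℕ × List (ι × ℕ)) →₀ ℤ)
    (s : Finset (ℕ × List (ι × ℕ))) (hs : c.support ⊆ s) (h : ∀ q ∈ s, (lts q).toFinset = ∅)
    (θ : ℕ → ℕ) (r : ι → U) :
    C.xval θ src tgt r a b c = ∑ q ∈ s, (c q • C.E a b) * C.w b ^ (θ (C.blk b) * q.1) := by
  unfold xval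
  rw [Finsupp.sum_of_support_subset c hs (fun q z => z • C.nv θ src tgt r a b q.1 q.2)
    (fun _ _ => zero_smul _ _)]
  refine Finset.sum_congr rfl fun q hq => ?_
  have h1 := ty0x_nil (h q hq)
  rw [smul_mul_assoc]
  congr 1
  rw [h1]
  rfl

theorem ty0x {V : Fin 3 → AddSubgroup U} (hV : C.Vals V) (src tgt : ι → Q) (σ : ι → ℕ)
    (a b : Q) (c c' : (ℕ × List (ι × ℕ)) →₀ ℤ)
    (hc : ∀ q ∈ c.support, (lts q).toFinset = ∅) (hc' : ∀ q ∈ c'.support, (lts q).toFinset = ∅)
    (h0 : a = C.o → ∀ i, c (i, []) = 0 ∧ c' (i, []) = 0)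
    (h : ∀ θ r, C.Hom src tgt σ r →
      In3 V (C.xval θ src tgt r a b c) (C.xval θ src tgt r a b c')) :
    ∀ θ r, C.Hom src tgt σ r → C.xval θ src tgt r a b c = 0 := by
  intro θ r _
  by_cases ha : a = C.o
  · have hc0 : c = 0 := by
      rw [← Finsupp.support_eq_empty, Finset.eq_empty_iff_forall_notMem]
      intro q hq
      have h1 := ty0x_nil (hc q hq)
      rw [Finsupp.mem_support_iff, h1] at hq
      exact hq ((h0 ha q.1).1)
    rw [hc0, xval_zero]
  set s := c.support ∪ c'.support with hs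
  have hs1 : c.support ⊆ s := Finset.subset_union_left
  have hs2 : c'.support ⊆ s := Finset.subset_union_right
  have hsn : ∀ q ∈ s, (lts q).toFinset = ∅ := by
    intro q hq
    rcases Finset.mem_union.1 hq with hq | hq
    · exact hc q hq
    · exact hc' q hq
  have hE : C.E a b ∈ C.A := C.E_mem ha b
  have hy : ∀ z : ℤ, z • C.E a b ∈ C.A ∧ z • C.E a b * C.e b = z • C.E a b := fun z =>
    ⟨C.A.zsmul_mem hE z, by rw [smul_mul_assoc, C.E_right]⟩
  have hr0 : C.Hom src tgt σ (fun _ => (0 : U)) := fun k =>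
    ⟨C.S_zero _ _, fun _ => by rw [zero_mul, mul_zero]⟩
  have hZ : ∀ i₀, (∑ q ∈ s with q.1 ≡ i₀ [MOD C.n b], c q) • C.E a b = 0 := by
    intro i₀
    refine C.nest hV (∑ q ∈ s with q.1 ≡ i₀ [MOD C.n b], c q)
      (∑ q ∈ s with q.1 ≡ i₀ [MOD C.n b], c' q) {C.E a b} (fun m hm => ?_) (fun m hm => ?_)
      (C.E a b) rfl
    · rw [Set.mem_singleton_iff.1 hm]
      exact hE
    · rw [Set.mem_singleton_iff.1 hm]
      have h1 : ∀ θ₀ : ℕ, In3 V (∑ q ∈ s, (c q • C.E a b) * C.w b ^ (θ₀ * q.1))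
          (∑ q ∈ s, (c' q • C.E a b) * C.w b ^ (θ₀ * q.1)) := by
        intro θ₀
        have h2 := h (fun _ => θ₀) _ hr0
        rw [C.ty0x_val src tgt a b c s hs1 hsn, C.ty0x_val src tgt a b c' s hs2 hsn] at h2
        exact h2
      refine ⟨?_, ?_, ?_⟩
      · rw [Finset.sum_smul]
        exact C.dftR b s (fun q => q.1) (fun q => c q • C.E a b) (fun q _ => hy _) (V 0)
          (fun u x hx => hV.right 0 u x hx) (fun θ₀ => (h1 θ₀).1) i₀
      · rw [Finset.sum_smul]
        exact C.dftR b s (fun q => q.1) (fun q => c' q • C.E a b) (fun q _ => hy _) (V 1)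
          (fun u x hx => hV.right 1 u x hx) (fun θ₀ => (h1 θ₀).2.1) i₀
      · rw [← add_smul, ← Finset.sum_add_distrib, Finset.sum_smul]
        refine C.dftR b s (fun q => q.1) (fun q => (c q + c' q) • C.E a b) (fun q _ => hy _) (V 2)
          (fun u x hx => hV.right 2 u x hx) (fun θ₀ => ?_) i₀
        have h3 := (h1 θ₀).2.2
        rw [← Finset.sum_add_distrib] at h3
        refine (congrArg (· ∈ V 2) (Finset.sum_congr rfl fun q _ => ?_)).mpr h3
        rw [add_smul, add_mul]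
  rw [C.ty0x_val src tgt a b c s hs1 hsn]
  have hn := C.n_pos b
  rw [← Finset.sum_fiberwise_of_maps_to (t := Finset.range (C.n b)) (g := fun q => q.1 % C.n b)
    (fun t _ => Finset.mem_range.2 (Nat.mod_lt _ hn))]
  refine Finset.sum_eq_zero fun m₀ hm₀ => ?_
  rw [Finset.mem_range] at hm₀
  have h1 : ∑ q ∈ s with q.1 % C.n b = m₀, c q • C.E a b * C.w b ^ (θ (C.blk b) * q.1) =
      ∑ q ∈ s with q.1 % C.n b = m₀, c q • C.E a b * C.w b ^ (θ (C.blk b) * m₀) := by
    refine Finset.sum_congr rfl fun q hq => ?_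
    rw [Finset.mem_filter] at hq
    refine C.w_pow_right (Nat.ModEq.mul_left _ ?_) (hy _).2
    show q.1 % C.n b = m₀ % C.n b
    rw [hq.2, Nat.mod_eq_of_lt hm₀]
  rw [h1, ← Finset.sum_mul, ← Finset.sum_smul]
  have h2 : (s.filter fun q => q.1 % C.n b = m₀) = s.filter fun q => q.1 ≡ m₀ [MOD C.n b] := by
    refine Finset.filter_congr fun q _ => ?_
    show q.1 % C.n b = m₀ ↔ q.1 % C.n b = m₀ % C.n b
    rw [Nat.mod_eq_of_lt hm₀]
  rw [h2, hZ, zero_mul]

end Ctx

end ADM
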