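import Pool.Agent.ADM.NvM
import Pool.Agent.ADM.Dft
import Pool.Agent.ADM.Nest

/-!
# ADM-TyMx

Words with arrows in one letter `k` which is not a loop at an `NM` vertex.

Words of length `≥ 2` vanish (`nvM`).  The value of `(i, [(k, j)])` is `w a ^ (θ_a i) * Y * w b ^ (θ_b j)` with `Y = E a s * r k * E t b`;
if `a`, `b` are in one block it is `w a ^ (θ (i + p ^ σ j)) * Y`.  `mx_lemA`: discrete Fourier transform at both ends; `mx_lemB`: the sum
vanishes if the partial sums over the residue classes of the exponents vanish; `mx_core`: the case of values of this form.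
-/

namespace ADM

open AD ADN ADN.Ctx

namespace Ctx

variable {U : Type} [Ring U] {Q : Type} [Fintype Q] (C : Ctx U Q)
variable {ι : Type} [Fintype ι] [DecidableEq ι]

omit [Fintype ι] [DecidableEq ι] in
private theorem mx_lemA (a b : Q) {τ : Type} (s : Finset τ) (z : τ → ℤ) (α β : τ → ℕ) {Y : U}
    (hY : C.S a b Y) (X : AddSubgroup U) (hXl : ∀ u x, x ∈ X → u * x ∈ X)
    (hXr : ∀ u x, x ∈ X → x * u ∈ X)
    (h : ∀ x y : ℕ, ∑ t ∈ s, z t • (C.w a ^ (x * α t) * Y * C.w b ^ (y * β t)) ∈ X) (α₀ β₀ : ℕ) :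
    (∑ t ∈ s with (α t ≡ α₀ [MOD C.n a] ∧ β t ≡ β₀ [MOD C.n b]), z t) • Y ∈ X := by
  have h1 : ∀ y : ℕ, ∑ t ∈ s with α t ≡ α₀ [MOD C.n a], z t • (Y * C.w b ^ (y * β t)) ∈ X := by
    intro y
    refine C.dftL a s α (fun t => z t • (Y * C.w b ^ (y * β t))) ?_ X hXl (fun x => ?_) α₀
    · intro t _
      refine ⟨C.A.zsmul_mem (C.A_right _ _ (C.S_mem hY)) _, ?_⟩
      rw [mul_smul_comm, ← mul_assoc, hY.2.1]
    · have h2 := h x y
      have e : ∀ t, z t • (C.w a ^ (x * α t) * Y * C.w b ^ (y * β t)) =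
          C.w a ^ (x * α t) * (z t • (Y * C.w b ^ (y * β t))) := by
        intro t
        rw [mul_smul_comm, mul_assoc]
      simp_rw [e] at h2
      exact h2
  have h2 := C.dftR b (s.filter fun t => α t ≡ α₀ [MOD C.n a]) β (fun t => z t • Y) (by
    intro t _
    refine ⟨C.A.zsmul_mem (C.S_mem hY) _, ?_⟩
    rw [smul_mul_assoc, hY.2.2]) X hXr (fun y => by
    have h3 := h1 y
    have e : ∀ t, z t • (Y * C.w b ^ (y * β t)) = z t • Y * C.w b ^ (y * β t) := by
      intro t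
      rw [smul_mul_assoc]
    simp_rw [e] at h3
    exact h3) β₀
  rw [Finset.filter_filter] at h2
  rw [Finset.sum_smul]
  exact h2

omit [Fintype ι] [DecidableEq ι] in
private theorem mx_lemB (a b : Q) {τ : Type} (s : Finset τ) (z : τ → ℤ) (α β : τ → ℕ) {Y : U}
    (hY : C.S a b Y)
    (h : ∀ α₀ β₀ : ℕ,
      (∑ t ∈ s with (α t ≡ α₀ [MOD C.n a] ∧ β t ≡ β₀ [MOD C.n b]), z t) • Y = 0) (x y : ℕ) :
    ∑ t ∈ s, z t • (C.w a ^ (x * α t) * Y * C.w b ^ (y * β t)) = 0 := by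
  classical
  have hna := C.n_pos a
  have hnb := C.n_pos b
  rw [← Finset.sum_fiberwise_of_maps_to (t := Finset.range (C.n a) ×ˢ Finset.range (C.n b))
    (g := fun t => (α t % C.n a, β t % C.n b)) (fun t _ => Finset.mem_product.2
      ⟨Finset.mem_range.2 (Nat.mod_lt _ hna), Finset.mem_range.2 (Nat.mod_lt _ hnb)⟩)]
  refine Finset.sum_eq_zero ?_
  rintro ⟨α₀, β₀⟩ h0
  obtain ⟨h1, h2⟩ := Finset.mem_product.1 h0
  rw [Finset.mem_range] at h1 h2
  have e1 : (s.filter fun t => (α t % C.n a, β t % C.n b) = (α₀, β₀)) =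
      s.filter fun t => (α t ≡ α₀ [MOD C.n a] ∧ β t ≡ β₀ [MOD C.n b]) := by
    refine Finset.filter_congr fun t _ => ?_
    rw [Prod.mk.injEq]
    show _ ↔ α t % C.n a = α₀ % C.n a ∧ β t % C.n b = β₀ % C.n b
    rw [Nat.mod_eq_of_lt h1, Nat.mod_eq_of_lt h2]
  rw [e1]
  have e2 : ∀ t ∈ s.filter (fun t => (α t ≡ α₀ [MOD C.n a] ∧ β t ≡ β₀ [MOD C.n b])),
      z t • (C.w a ^ (x * α t) * Y * C.w b ^ (y * β t)) =
        z t • (C.w a ^ (x * α₀) * Y * C.w b ^ (y * β₀)) := by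
    intro t ht
    obtain ⟨-, h3, h4⟩ := Finset.mem_filter.1 ht
    rw [C.w_pow_left (h3.mul_left x) hY.2.1, mul_assoc, C.w_pow_right (h4.mul_left y) hY.2.2,
      ← mul_assoc]
  rw [Finset.sum_congr rfl e2, ← Finset.sum_smul]
  have e3 : (∑ t ∈ s with (α t ≡ α₀ [MOD C.n a] ∧ β t ≡ β₀ [MOD C.n b]), z t) •
      (C.w a ^ (x * α₀) * Y * C.w b ^ (y * β₀)) = C.w a ^ (x * α₀) *
        ((∑ t ∈ s with (α t ≡ α₀ [MOD C.n a] ∧ β t ≡ β₀ [MOD C.n b]), z t) • Y) *
          C.w b ^ (y * β₀) := by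
    rw [mul_smul_comm, smul_mul_assoc]
  rw [e3, h, mul_zero, zero_mul]

omit [Fintype ι] [DecidableEq ι] in
private theorem mx_core {V : Fin 3 → AddSubgroup U} (hV : C.Vals V) (src tgt : ι → Q) (σ : ι → ℕ)
    (a b : Q) (Y : (ι → U) → U) (hY : ∀ r, C.Hom src tgt σ r → C.S a b (Y r))
    (α β : (ℕ × List (ι × ℕ)) → ℕ) (hs : C.blk a ≠ C.blk b ∨ ∀ q, β q = 0)
    (ok good : (ℕ × List (ι × ℕ)) → Prop)
    (h1 : ∀ q, good q → ok q → ∀ θ r, C.Hom src tgt σ r → C.nv θ src tgt r a b q.1 q.2 =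
      C.w a ^ (θ (C.blk a) * α q) * Y r * C.w b ^ (θ (C.blk b) * β q))
    (h2 : ∀ q, good q → ¬ ok q → ∀ θ r, C.Hom src tgt σ r →
      C.nv θ src tgt r a b q.1 q.2 = 0)
    (c c' : (ℕ × List (ι × ℕ)) →₀ ℤ) (hc : ∀ q ∈ c.support, good q)
    (hc' : ∀ q ∈ c'.support, good q)
    (h : ∀ θ r, C.Hom src tgt σ r →
      In3 V (C.xval θ src tgt r a b c) (C.xval θ src tgt r a b c')) :
    ∀ θ r, C.Hom src tgt σ r → C.xval θ src tgt r a b c = 0 := by
  classical
  have hval : ∀ d : (ℕ × List (ι × ℕ)) →₀ ℤ, (∀ q ∈ d.support, good q) → ∀ θ r,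
      C.Hom src tgt σ r → C.xval θ src tgt r a b d = ∑ q ∈ d.support.filter ok,
        d q • (C.w a ^ (θ (C.blk a) * α q) * Y r * C.w b ^ (θ (C.blk b) * β q)) := by
    intro d hd θ r hr
    unfold xval
    rw [Finsupp.sum, Finset.sum_filter]
    refine Finset.sum_congr rfl fun q hq => ?_
    by_cases h3 : ok q
    · rw [if_pos h3, h1 q (hd q hq) h3 θ r hr]
    · rw [if_neg h3, h2 q (hd q hq) h3 θ r hr, smul_zero]
  obtain ⟨Z, hZdef⟩ : ∃ Z : ((ℕ × List (ι × ℕ)) →₀ ℤ) → ℕ → ℕ → ℤ, ∀ d α₀ β₀, Z d α₀ β₀ =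
      ∑ q ∈ d.support.filter ok with (α q ≡ α₀ [MOD C.n a] ∧ β q ≡ β₀ [MOD C.n b]), d q :=
    ⟨_, fun _ _ _ => rfl⟩
  have hZadd : ∀ d d' α₀ β₀, Z (d + d') α₀ β₀ = Z d α₀ β₀ + Z d' α₀ β₀ := by
    have hZ : ∀ d α₀ β₀, Z d α₀ β₀ = d.sum fun q z =>
        if ok q ∧ α q ≡ α₀ [MOD C.n a] ∧ β q ≡ β₀ [MOD C.n b] then z else 0 := by
      intro d α₀ β₀
      rw [hZdef, Finset.filter_filter, Finset.sum_filter]
      rfl
    intro d d' α₀ β₀
    rw [hZ, hZ, hZ, Finsupp.sum_add_index' (h := fun q z =>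
        if ok q ∧ α q ≡ α₀ [MOD C.n a] ∧ β q ≡ β₀ [MOD C.n b] then z else 0)]
    · intro q
      split_ifs <;> rfl
    · intro q z z'
      split_ifs
      · rfl
      · rw [add_zero]
  have hX : ∀ X : AddSubgroup U, (∀ u x, x ∈ X → u * x ∈ X) → (∀ u x, x ∈ X → x * u ∈ X) →
      ∀ d : (ℕ × List (ι × ℕ)) →₀ ℤ, (∀ q ∈ d.support, good q) → ∀ r, C.Hom src tgt σ r →
      (∀ θ, C.xval θ src tgt r a b d ∈ X) → ∀ α₀ β₀, Z d α₀ β₀ • Y r ∈ X := by
    intro X hXl hXr d hd r hr hx α₀ β₀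
    rw [hZdef]
    refine C.mx_lemA a b _ _ α β (hY r hr) X hXl hXr (fun x y => ?_) α₀ β₀
    have h3 := hx (fun n => if n = C.blk a then x else y)
    rw [hval d hd _ r hr] at h3
    simp only [if_true] at h3
    rcases hs with hs | hs
    · rw [if_neg (Ne.symm hs)] at h3
      exact h3
    · simp_rw [hs, mul_zero] at h3 ⊢
      exact h3
  have hZ0 : ∀ α₀ β₀, ∀ r, C.Hom src tgt σ r → Z c α₀ β₀ • Y r = 0 := by
    intro α₀ β₀
    have h3 := C.nest hV (Z c α₀ β₀) (Z c' α₀ β₀) {y | ∃ r, C.Hom src tgt σ r ∧ y = Y r} (by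
      rintro _ ⟨r, hr, rfl⟩
      exact C.S_mem (hY r hr)) (by
      rintro _ ⟨r, hr, rfl⟩
      refine ⟨hX (V 0) (hV.left 0) (hV.right 0) c hc r hr (fun θ => (h θ r hr).1) α₀ β₀,
        hX (V 1) (hV.left 1) (hV.right 1) c' hc' r hr (fun θ => (h θ r hr).2.1) α₀ β₀, ?_⟩
      rw [← add_smul, ← hZadd]
      refine hX (V 2) (hV.left 2) (hV.right 2) (c + c') ?_ r hr (fun θ => ?_) α₀ β₀
      · intro q hq
        rcases Finset.mem_union.1 (Finsupp.support_add hq) with h | h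
        · exact hc q h
        · exact hc' q h
      · rw [C.xval_add]
        exact (h θ r hr).2.2)
    intro r hr
    exact h3 _ ⟨r, hr, rfl⟩
  intro θ r hr
  rw [hval c hc θ r hr]
  refine C.mx_lemB a b _ _ α β (hY r hr) (fun α₀ β₀ => ?_) _ _
  rw [← hZdef]
  exact hZ0 α₀ β₀ r hr

theorem tyMx (hC : C.Cub) {V : Fin 3 → AddSubgroup U} (hV : C.Vals V) (src tgt : ι → Q) (σ : ι → ℕ)
    (a b : Q) (k : ι) (hk : ¬ (src k = tgt k ∧ C.NM (src k))) (c c' : (ℕ × List (ι × ℕ)) →₀ ℤ)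
    (hc : ∀ q ∈ c.support, (lts q).toFinset = {k}) (hc' : ∀ q ∈ c'.support, (lts q).toFinset = {k})
    (h : ∀ θ r, C.Hom src tgt σ r →
      In3 V (C.xval θ src tgt r a b c) (C.xval θ src tgt r a b c')) :
    ∀ θ r, C.Hom src tgt σ r → C.xval θ src tgt r a b c = 0 := by
  have hlet : ∀ q : ℕ × List (ι × ℕ), (lts q).toFinset = {k} → ∀ x ∈ q.2, x.1 = k := by
    intro q hq x hx
    have h1 : x.1 ∈ (lts q).toFinset := List.mem_toFinset.2 (List.mem_map.2 ⟨x, hx, rfl⟩)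
    rw [hq] at h1
    exact Finset.mem_singleton.1 h1
  have hne : ∀ q : ℕ × List (ι × ℕ), (lts q).toFinset = {k} → q.2 ≠ [] := by
    intro q hq h0
    unfold lts at hq
    rw [h0, List.map_nil, List.toFinset_nil] at hq
    exact Finset.singleton_ne_empty k hq.symm
  have hw : ∀ q : ℕ × List (ι × ℕ), (lts q).toFinset = {k} → q.2.length = 1 →
      q.2 = [(k, (q.2.map Prod.snd).sum)] := by
    intro q hq h1
    obtain ⟨x, hx⟩ := List.length_eq_one_iff.1 h1
    have h2 := hlet q hq x (by rw [hx]; exact List.mem_singleton_self x)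
    rw [hx]
    simp only [List.map_cons, List.map_nil, List.sum_cons, List.sum_nil, add_zero]
    rw [← h2]
  have hw2 : ∀ q : ℕ × List (ι × ℕ), (lts q).toFinset = {k} → ¬ q.2.length = 1 → ∀ θ r,
      C.Hom src tgt σ r → C.nv θ src tgt r a b q.1 q.2 = 0 := by
    intro q hq h1 θ r hr
    by_contra h0
    have h2 : 2 ≤ q.2.length := by
      have h3 := List.length_pos_iff.2 (hne q hq)
      omega
    obtain ⟨-, -, h3, h4⟩ := C.nvM hC hr θ a b q.1 q.2 h2 h0
    obtain ⟨x, y, v, hv⟩ : ∃ x y v, q.2 = x :: y :: v := by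
      match hq2 : q.2, h2 with
      | x :: y :: v, _ => exact ⟨x, y, v, rfl⟩
    have hx := hlet q hq x (by rw [hv]; simp)
    have hy := hlet q hq y (by rw [hv]; simp)
    have h5 := h4 x (by rw [hv]; simp)
    rw [hv] at h3
    have h6 : src y.1 = tgt x.1 := h3.2.1
    rw [hx, hy] at h6
    rw [hx] at h5
    exact hk ⟨h6, h5.1⟩
  by_cases hb : C.blk a = C.blk (src k) ∧ C.blk (tgt k) = C.blk b
  · obtain ⟨hb1, hb2⟩ := hb
    have hYS : ∀ r, C.Hom src tgt σ r → C.S a b (C.E a (src k) * r k * C.E (tgt k) b) := by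
      intro r hr
      refine ⟨C.J_right _ _ (C.J_left _ _ (hr k).1.1), ?_, ?_⟩
      · rw [← mul_assoc, ← mul_assoc, C.E_left]
      · rw [mul_assoc, C.E_right]
    have hval : ∀ (i j : ℕ) (θ : ℕ → ℕ) (r : ι → U), C.nv θ src tgt r a b i [(k, j)] =
        C.w a ^ (θ (C.blk a) * i) * (C.E a (src k) * r k * C.E (tgt k) b) *
          C.w b ^ (θ (C.blk b) * j) := by
      intro i j θ r
      show C.E a (src k) * C.w (src k) ^ (θ (C.blk (src k)) * i) *
        (r k * (C.E (tgt k) b * C.w b ^ (θ (C.blk b) * j))) = _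
      rw [← C.wE_pow hb1, ← hb1]
      simp only [mul_assoc]
    by_cases hab : C.blk a = C.blk b
    · have hcomm : ∀ r, C.Hom src tgt σ r → ∀ m : ℕ,
          (C.E a (src k) * r k * C.E (tgt k) b) * C.w b ^ m =
            C.w a ^ (C.p ^ σ k * m) * (C.E a (src k) * r k * C.E (tgt k) b) := by
        intro r hr m
        have h1 : r k * C.w (tgt k) = C.w (src k) ^ C.p ^ σ k * r k :=
          (hr k).2 (by rw [← hb1, hb2, hab])
        have h2 : ∀ m : ℕ, r k * C.w (tgt k) ^ m = C.w (src k) ^ (C.p ^ σ k * m) * r k := by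
          intro m
          have h3 : SemiconjBy (r k) (C.w (tgt k)) (C.w (src k) ^ C.p ^ σ k) := h1
          have h4 := h3.pow_right m
          rw [← pow_mul] at h4
          exact h4
        calc C.E a (src k) * r k * C.E (tgt k) b * C.w b ^ m
            = C.E a (src k) * r k * (C.E (tgt k) b * C.w b ^ m) := mul_assoc _ _ _
          _ = C.E a (src k) * (r k * C.w (tgt k) ^ m) * C.E (tgt k) b := by
              rw [← C.wE_pow hb2]
              simp only [mul_assoc]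
          _ = C.E a (src k) * C.w (src k) ^ (C.p ^ σ k * m) * (r k * C.E (tgt k) b) := by
              rw [h2]
              simp only [mul_assoc]
          _ = C.w a ^ (C.p ^ σ k * m) * (C.E a (src k) * r k * C.E (tgt k) b) := by
              rw [← C.wE_pow hb1]
              simp only [mul_assoc]
      refine C.mx_core hV src tgt σ a b (fun r => C.E a (src k) * r k * C.E (tgt k) b) hYS
        (fun q => q.1 + C.p ^ σ k * (q.2.map Prod.snd).sum) (fun _ => 0) (Or.inr fun _ => rfl)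
        (fun q => q.2.length = 1) (fun q => (lts q).toFinset = {k}) ?_ hw2 c c' hc hc' h
      intro q hq hq1 θ r hr
      have h1 := hval q.1 (q.2.map Prod.snd).sum θ r
      rw [← hw q hq hq1] at h1
      rw [h1, mul_assoc, hcomm r hr, ← mul_assoc, ← pow_add, mul_zero, pow_zero, mul_one, ← hab]
      congr 2
      ring
    · refine C.mx_core hV src tgt σ a b (fun r => C.E a (src k) * r k * C.E (tgt k) b) hYS
        (fun q => q.1) (fun q => (q.2.map Prod.snd).sum) (Or.inl hab)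
        (fun q => q.2.length = 1) (fun q => (lts q).toFinset = {k}) ?_ hw2 c c' hc hc' h
      intro q hq hq1 θ r hr
      have h1 := hval q.1 (q.2.map Prod.snd).sum θ r
      rw [← hw q hq hq1] at h1
      exact h1
  · intro θ r hr
    unfold xval
    rw [Finsupp.sum]
    refine Finset.sum_eq_zero fun q hq => ?_
    have h0 : C.nv θ src tgt r a b q.1 q.2 = 0 := by
      by_cases hq1 : q.2.length = 1
      · rw [hw q (hc q hq) hq1]
        show C.g θ a (src k) q.1 * (r k * C.g θ (tgt k) b (q.2.map Prod.snd).sum) = 0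
        by_cases hb1 : C.blk a = C.blk (src k)
        · have hb2 : C.blk (tgt k) ≠ C.blk b := fun h => hb ⟨hb1, h⟩
          rw [C.g_ne θ hb2, mul_zero, mul_zero]
        · rw [C.g_ne θ hb1, zero_mul]
      · exact hw2 q (hc q hq) hq1 θ r hr
    rw [h0, smul_zero]

end Ctx

end ADM
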