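import Pool.Agent.ADM.E2van
import Pool.Agent.ADM.KtW
import Pool.Agent.ADM.Nest

/-!
# ADM-TyP2

Pure words: loops at `a`, then one edge `k₀ : a → b`.  The words are `v' ++ [k₀]`.  If one of the loops is twisted, only the
word `[x, k₀]` has a nonzero value (`e2van`), and `nest` applies; otherwise the transfer lemma `ktW` applies with the untwisted
loops.
-/

namespace ADM

open AD ADN ADN.Ctx

namespace Ctx

variable {U : Type} [Ring U] {Q : Type} [Fintype Q] (C : Ctx U Q)
variable {ι : Type} [Fintype ι] [DecidableEq ι]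

omit [Fintype ι] [DecidableEq ι] in
private theorem typ2_loops {W : Type} {src tgt : ι → W} {a : W} {R : Finset ι}
    {k : ι} (hR : ∀ i ∈ R, i ≠ k → src i = a ∧ tgt i = a) :
    ∀ (w : List ι) (b : W), pth src tgt a w b → (∀ i ∈ w, i ∈ R) → k ∉ w → b = a := by
  intro w
  induction w with
  | nil =>
    intro b hp _ _
    exact Eq.symm hp
  | cons i w ih =>
    intro b hp hw hk
    obtain ⟨h1, h2⟩ := hp
    have hik : i ≠ k := by
      rintro rfl
      exact hk List.mem_cons_self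
    have h3 := (hR i (hw i List.mem_cons_self) hik).2
    rw [h3] at h2
    exact ih b h2 (fun j hj => hw j (List.mem_cons_of_mem _ hj))
      (fun h => hk (List.mem_cons_of_mem _ h))

omit [Fintype ι] in
private theorem typ2_word {W : Type} (src tgt : ι → W) (a b : W) (hab : a ≠ b)
    (R : Finset ι) (k₀ : ι) (hk : k₀ ∈ R) (hk1 : src k₀ = a) (hk2 : tgt k₀ = b)
    (hR : ∀ i ∈ R, i ≠ k₀ → src i = a ∧ tgt i = a) (v : List ι)
    (hv : pth src tgt a v b ∧ v.toFinset = R) :
    ∃ v₁, v = v₁ ++ [k₀] ∧ ∀ i ∈ v₁, i ∈ R ∧ i ≠ k₀ := by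
  obtain ⟨hp, hvR⟩ := hv
  have hw : ∀ i ∈ v, i ∈ R := fun i hi => by rw [← hvR]; exact List.mem_toFinset.2 hi
  have hkv : k₀ ∈ v := by rw [← hvR] at hk; exact List.mem_toFinset.1 hk
  obtain ⟨v₁, w', rfl, hk'⟩ := List.eq_append_cons_of_mem hkv
  obtain ⟨d, h1, h2⟩ := (Base.pth_append _ _ _ _).1 hp
  obtain ⟨-, h5⟩ := h2
  rw [hk2] at h5
  have hw' : w' = [] := by
    cases w' with
    | nil => rfl
    | cons j v₂ =>
      exfalso
      obtain ⟨h6, -⟩ := h5
      by_cases hj : j = k₀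
      · subst hj
        exact hab (hk1.symm.trans h6)
      · exact hab ((hR j (hw j (by simp)) hj).1.symm.trans h6)
  subst hw'
  refine ⟨v₁, rfl, fun i hi => ⟨hw i (List.mem_append_left _ hi), ?_⟩⟩
  rintro rfl
  exact hk' hi

omit [Fintype ι] [DecidableEq ι] in
private theorem typ2_lv (r : ι → U) (d : List ι →₀ ℤ) :
    lv r (d.mapDomain List.dropLast) = d.sum fun v n => n • (v.dropLast.map r).prod := by
  unfold lv
  rw [Finsupp.sum_mapDomain_index]
  · intro v
    rw [zero_smul]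
  · intro v n m
    rw [add_smul]

omit [Fintype ι] in
private theorem typ2_val (src tgt : ι → Q) (a b : Q) (hab : a ≠ b)
    (R : Finset ι) (k₀ : ι) (hk : k₀ ∈ R) (hk1 : src k₀ = a) (hk2 : tgt k₀ = b)
    (hR : ∀ i ∈ R, i ≠ k₀ → src i = a ∧ tgt i = a) (d : List ι →₀ ℤ)
    (hd : ∀ v ∈ d.support, pth src tgt a v b ∧ v.toFinset = R) (r r' : ι → U)
    (hr : C.Srt src tgt r) (hrr : ∀ i ∈ R, i ≠ k₀ → r' i = r i) :
    C.val r a d = lv r' (d.mapDomain List.dropLast) * r k₀ := by
  rw [typ2_lv]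
  unfold Base.val Finsupp.sum
  rw [Finset.sum_mul]
  refine Finset.sum_congr rfl fun v hv => ?_
  obtain ⟨v₁, rfl, hv₁⟩ := typ2_word src tgt a b hab R k₀ hk hk1 hk2 hR v (hd v hv)
  beta_reduce
  rw [Base.wv_eq C.toBase hr (by simp) (hd _ hv).1, List.dropLast_concat, smul_mul_assoc,
    List.map_append, List.prod_append]
  have e1 : v₁.map r' = v₁.map r :=
    List.map_congr_left fun i hi => hrr i (hv₁ i hi).1 (hv₁ i hi).2
  rw [e1]
  simp

/-- the untwisted loops -/
private def typ2_L (a : Q) : AddSubgroup U where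
  carrier := {x | C.H a a 0 x}
  zero_mem' := H_zero C 0
  add_mem' := fun hx hy => H_add C hx hy
  neg_mem' := fun hx => H_neg C hx

private theorem typ2_tw (hC : C.Cub) {V : Fin 3 → AddSubgroup U}
    (hV : C.Vals V) (src tgt : ι → Q) (σ : ι → ℕ) (a b : Q) (hab : a ≠ b)
    (R : Finset ι) (k₀ : ι) (hk : k₀ ∈ R) (hk1 : src k₀ = a) (hk2 : tgt k₀ = b)
    (hR : ∀ i ∈ R, i ≠ k₀ → src i = a ∧ tgt i = a) (d d' : List ι →₀ ℤ)
    (hd : ∀ v ∈ d.support, pth src tgt a v b ∧ v.toFinset = R)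
    (hd' : ∀ v ∈ d'.support, pth src tgt a v b ∧ v.toFinset = R)
    (h : ∀ r, C.Hom src tgt σ r → In3 V (C.val r a d) (C.val r a d'))
    (x : ι) (hx : x ∈ R) (hxk : x ≠ k₀) (htw : C.Tw a (σ x)) :
    ∀ r, C.Hom src tgt σ r → C.val r a d = 0 := by
  have ha : 2 ≤ C.r a := by
    have h1 := C.r_pos a
    have h2 : C.r a ≠ 1 := by
      intro h2
      apply htw
      rw [h2]
      exact one_dvd _
    omega
  have hval : ∀ d : List ι →₀ ℤ, (∀ v ∈ d.support, pth src tgt a v b ∧ v.toFinset = R) →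
      ∀ r, C.Hom src tgt σ r → C.val r a d = d [x, k₀] • (r x * r k₀) := by
    intro d hd r hr
    have hwx : C.wv r a [x, k₀] = r x * r k₀ := by
      unfold Base.wv
      have h3 := (hr x).1.2.1
      rw [(hR x hx hxk).1] at h3
      simp only [List.map_cons, List.map_nil, List.prod_cons, List.prod_nil, mul_one]
      rw [← mul_assoc, h3]
    unfold Base.val Finsupp.sum
    rw [Finset.sum_eq_single [x, k₀]]
    · beta_reduce
      rw [hwx]
    · intro v hv hne
      obtain ⟨v₁, rfl, hv₁⟩ := typ2_word src tgt a b hab R k₀ hk hk1 hk2 hR v (hd v hv)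
      have hxv : x ∈ v₁ := by
        have h4 : x ∈ (v₁ ++ [k₀]).toFinset := by rw [(hd _ hv).2]; exact hx
        rw [List.mem_toFinset, List.mem_append, List.mem_singleton] at h4
        exact h4.resolve_right hxk
      beta_reduce
      rw [Base.wv_eq C.toBase (fun k => (hr k).1) (by simp) (hd _ hv).1, List.map_append,
        List.prod_append, List.map_singleton, List.prod_singleton]
      have hlen : 2 ≤ v₁.length := by
        match v₁, hxv, hne with
        | [], hxv, _ => exact absurd hxv List.not_mem_nil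
        | [y], hxv, hne =>
          exfalso
          apply hne
          rw [List.mem_singleton] at hxv
          rw [hxv]
          rfl
        | _ :: _ :: _, _, _ => simp
      have ht : C.S a b (r k₀) := by
        have h5 := (hr k₀).1
        rwa [hk1, hk2] at h5
      rw [e2van C hC hab ha σ v₁ hlen ⟨x, hxv, htw⟩ r (fun k hkv => by
        have h6 := hr k
        obtain ⟨h7, h8⟩ := hR k (hv₁ k hkv).1 (hv₁ k hkv).2
        rwa [h7, h8] at h6) ht, smul_zero]
    · intro hns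
      beta_reduce
      rw [Finsupp.notMem_support_iff.1 hns, zero_smul]
  intro r hr
  rw [hval d hd r hr]
  refine C.nest hV (d [x, k₀]) (d' [x, k₀]) {m | ∃ r, C.Hom src tgt σ r ∧ m = r x * r k₀} ?_ ?_ _
    ⟨r, hr, rfl⟩
  · rintro m ⟨r, hr, rfl⟩
    exact C.J_le (C.J_left _ _ (hr k₀).1.1)
  · rintro m ⟨r, hr, rfl⟩
    rw [← hval d hd r hr, ← hval d' hd' r hr]
    exact h r hr

theorem tyP2 (hC : C.Cub) {T : Submodule ℤ P} (hT : C.Dst T) {V : Fin 3 → AddSubgroup U}
    (hV : C.Vals V) (src tgt : ι → Q) (σ : ι → ℕ) (a b : Q) (hab : C.blk a ≠ C.blk b)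
    (R : Finset ι) (k₀ : ι) (hk : k₀ ∈ R) (hk1 : src k₀ = a) (hk2 : tgt k₀ = b)
    (hR : ∀ i ∈ R, i ≠ k₀ → src i = a ∧ tgt i = a) (d d' : List ι →₀ ℤ)
    (hd : ∀ v ∈ d.support, pth src tgt a v b ∧ v.toFinset = R)
    (hd' : ∀ v ∈ d'.support, pth src tgt a v b ∧ v.toFinset = R)
    (h : ∀ r, C.Hom src tgt σ r → In3 V (C.val r a d) (C.val r a d')) :
    ∀ r, C.Hom src tgt σ r → C.val r a d = 0 := by
  classical
  have hab' : a ≠ b := fun h1 => hab (by rw [h1])
  by_cases htw : ∃ x ∈ R, x ≠ k₀ ∧ C.Tw a (σ x)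
  · obtain ⟨x, hx, hxk, hxt⟩ := htw
    exact typ2_tw C hC hV src tgt σ a b hab' R k₀ hk hk1 hk2 hR d d' hd hd' h x hx hxk hxt
  have hun : ∀ i ∈ R, i ≠ k₀ → 0 ≡ σ i [MOD C.r a] := by
    intro i hi hik
    have h1 : ¬ C.Tw a (σ i) := fun h2 => htw ⟨i, hi, hik, h2⟩
    have h2 : C.r a ∣ σ i := not_not.1 h1
    exact (Nat.modEq_zero_iff_dvd.2 h2).symm
  have key := C.ktW (typ2_L C a) (fun x y hx hy => H_mul C (σ := 0) (τ := 0) hx hy)
    (fun x hx => hx.1.1) hT hV {m | C.S a b m} (fun r m hr hm => Base.S_mul _ hr.1 hm)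
    (d.mapDomain List.dropLast) (d'.mapDomain List.dropLast)
    (Or.inl fun m hm => Base.S_mem _ hm)
    (by
      intro r' hr' m hm
      let r : ι → U := fun i => if i ∈ R then (if i = k₀ then m else r' i) else 0
      have hrk : r k₀ = m := by simp [r, hk]
      have hr : C.Hom src tgt σ r := by
        intro i
        simp only [r]
        split_ifs with i1 i2
        · subst i2
          rw [hk1, hk2]
          exact ⟨hm, fun h1 => absurd h1 hab⟩
        · obtain ⟨j1, j2⟩ := hR i i1 i2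
          rw [j1, j2]
          exact H_modEq C (hun i i1 i2) (hr' i)
        · exact ⟨Base.S_zero _ _ _, fun _ => by rw [zero_mul, mul_zero]⟩
      have hrr : ∀ i ∈ R, i ≠ k₀ → r' i = r i := by
        intro i i1 i2
        simp only [r]
        rw [if_pos i1, if_neg i2]
      have e := h r hr
      rw [typ2_val C src tgt a b hab' R k₀ hk hk1 hk2 hR d hd r r' (fun k => (hr k).1) hrr,
        typ2_val C src tgt a b hab' R k₀ hk hk1 hk2 hR d' hd' r r' (fun k => (hr k).1) hrr,
        hrk] at e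
      exact e)
  intro r hr
  rw [typ2_val C src tgt a b hab' R k₀ hk hk1 hk2 hR d hd r
    (fun i => if i ∈ R ∧ i ≠ k₀ then r i else 0) (fun k => (hr k).1)
    (fun i i1 i2 => if_pos ⟨i1, i2⟩)]
  refine key _ (fun i => ?_) _ ?_
  · by_cases hi : i ∈ R ∧ i ≠ k₀
    · rw [if_pos hi]
      have h1 := hr i
      obtain ⟨j1, j2⟩ := hR i hi.1 hi.2
      rw [j1, j2] at h1
      exact H_modEq C (hun i hi.1 hi.2).symm h1
    · rw [if_neg hi]
      exact (typ2_L C a).zero_mem
  · have h1 := (hr k₀).1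
    rw [hk1, hk2] at h1
    exact h1

end Ctx

end ADM
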