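import Pool.Agent.ADM.E3van
import Pool.Agent.ADM.KtW
import Pool.Agent.ADM.Nest

/-!
# ADM-TyP3

Pure words: one edge `k₀ : a → b`, then loops at `b` (mirror image of TyP2).

PLAN.  As `ty3` (Pool/Agent/ADN/Ty3.lean): every path word from `a` to `b ≠ a` with letter set `R` is `k₀ :: v'`, `v'` a word in the loops `R₀ = R.erase k₀` with
`v'.toFinset = R₀`; so `val r a d = r k₀ * lv r g` with `g = d.mapDomain List.tail` (`wv r a v = (v.map r).prod`).
* There is a twisted `x ∈ R₀` (`Tw b`; then `2 ≤ r b`): a word `v'` of length `≥ 2` contains `x`, so `r k₀ * (v'.map r).prod = 0` (`e3van`).  The only other possibility is `v' = [x]`,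
  `R₀ = {x}`: so `val r a d = d [k₀, x] • (r k₀ * r x)` and the same for `d'`: `nest`.
* All letters of `R₀` are untwisted: `ktWR` with `L = {x | H b b 0 x}`, `M = {m | S a b m}` (closed under right multiplication by `L`, in `A`).  Given `r'` with values in `L` and
  `m ∈ M` put `r k₀ = m`, `r k = r' k` for `k ∈ R₀` (`H_modEq`), `0` otherwise: `Hom` (for `k₀`: the blocks of `a`, `b` are different, so no condition).
-/

namespace ADM

open AD ADN ADN.Ctx

namespace Ctx

variable {U : Type} [Ring U] {Q : Type} [Fintype Q] (C : Ctx U Q)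
variable {ι : Type} [Fintype ι] [DecidableEq ι]

omit [Fintype Q] [Fintype ι] [DecidableEq ι] in
private theorem typ3_loops {src tgt : ι → Q} {a b : Q} (hab : a ≠ b) {R : Finset ι}
    {k : ι} (hk1 : src k = a) (hR : ∀ i ∈ R, i ≠ k → src i = b ∧ tgt i = b) :
    ∀ (w : List ι) (d : Q), pth src tgt b w d → (∀ i ∈ w, i ∈ R) →
      ∀ i ∈ w, i ≠ k := by
  intro w
  induction w with
  | nil =>
    intro d _ _ i hi
    exact absurd hi (List.not_mem_nil)
  | cons i w ih =>
    intro d hp hw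
    obtain ⟨h1, h2⟩ := hp
    have hik : i ≠ k := by
      rintro rfl
      exact hab (hk1.symm.trans h1)
    have h3 := (hR i (hw i List.mem_cons_self) hik).2
    rw [h3] at h2
    have h5 := ih d h2 (fun j hj => hw j (List.mem_cons_of_mem _ hj))
    intro j hj
    rcases List.mem_cons.1 hj with rfl | hj
    · exact hik
    · exact h5 j hj

omit [Fintype Q] [Fintype ι] in
private theorem typ3_word {src tgt : ι → Q} {a b : Q} (hab : a ≠ b)
    {R : Finset ι} {k₀ : ι} (hk : k₀ ∈ R) (hk1 : src k₀ = a) (hk2 : tgt k₀ = b)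
    (hR : ∀ i ∈ R, i ≠ k₀ → src i = b ∧ tgt i = b) {v : List ι}
    (hv : pth src tgt a v b ∧ v.toFinset = R) :
    ∃ w, v = k₀ :: w ∧ (∀ i ∈ w, i ∈ R ∧ i ≠ k₀) ∧ ∀ i ∈ R, i ≠ k₀ → i ∈ w := by
  obtain ⟨hp, hvR⟩ := hv
  have hw : ∀ i ∈ v, i ∈ R := fun i hi => by rw [← hvR]; exact List.mem_toFinset.2 hi
  have hw' : ∀ i ∈ R, i ∈ v := fun i hi => by rw [← hvR] at hi; exact List.mem_toFinset.1 hi
  cases v with
  | nil => exact absurd (hw' k₀ hk) (List.not_mem_nil)
  | cons j w =>
    obtain ⟨h6, h7⟩ := hp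
    have hj : j = k₀ := by
      by_contra hj
      exact hab (h6.symm.trans (hR j (hw j (by simp)) hj).1)
    subst hj
    rw [hk2] at h7
    have h3 := typ3_loops hab hk1 hR w b h7 (fun i hi => hw i (List.mem_cons_of_mem _ hi))
    refine ⟨w, rfl, fun i hi => ⟨hw i (List.mem_cons_of_mem _ hi), h3 i hi⟩, fun i hi hik => ?_⟩
    rcases List.mem_cons.1 (hw' i hi) with h | h
    · exact absurd h hik
    · exact h

omit [Fintype ι] [DecidableEq ι] in
private theorem typ3_wv {src tgt : ι → Q} {σ : ι → ℕ} {a b : Q} {k₀ : ι} (hk1 : src k₀ = a) (hk2 : tgt k₀ = b)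
    {r : ι → U} (hr : C.Hom src tgt σ r) (w : List ι) : C.wv r a (k₀ :: w) = r k₀ * (w.map r).prod := by
  have h1 : C.H a b (σ k₀) (r k₀) := by
    have h := hr k₀
    rwa [hk1, hk2] at h
  unfold Base.wv
  rw [List.map_cons, List.prod_cons, ← mul_assoc, h1.1.2.1]

omit [Fintype ι] in
private theorem typ3_val {src tgt : ι → Q} {σ : ι → ℕ} {a b : Q} (hab : a ≠ b)
    {R : Finset ι} {k₀ : ι} (hk : k₀ ∈ R) (hk1 : src k₀ = a) (hk2 : tgt k₀ = b)
    (hR : ∀ i ∈ R, i ≠ k₀ → src i = b ∧ tgt i = b) {d : List ι →₀ ℤ}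
    (hd : ∀ v ∈ d.support, pth src tgt a v b ∧ v.toFinset = R)
    {r ρ : ι → U} (hr : C.Hom src tgt σ r) (hρ : ∀ i ∈ R, i ≠ k₀ → ρ i = r i) :
    C.val r a d = r k₀ * lv ρ (d.mapDomain List.tail) := by
  have e1 : lv ρ (d.mapDomain List.tail) = d.sum fun v n => n • (v.tail.map ρ).prod := by
    unfold lv
    exact Finsupp.sum_mapDomain_index (fun v => zero_smul ℤ _) (fun v n m => add_smul n m _)
  rw [e1, Finsupp.mul_sum]
  unfold Base.val
  refine Finsupp.sum_congr fun v hv => ?_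
  obtain ⟨w, hw, hw1, -⟩ := typ3_word hab hk hk1 hk2 hR (hd v hv)
  rw [hw, typ3_wv C hk1 hk2 hr, List.tail_cons, mul_smul_comm]
  congr 3
  exact List.map_congr_left fun i hi => (hρ i (hw1 i hi).1 (hw1 i hi).2).symm

omit [Fintype ι] in
private theorem typ3_one (hC : C.Cub) {src tgt : ι → Q} {σ : ι → ℕ} {a b : Q} (hab : a ≠ b)
    {R : Finset ι} {k₀ : ι} (hk : k₀ ∈ R) (hk1 : src k₀ = a) (hk2 : tgt k₀ = b)
    (hR : ∀ i ∈ R, i ≠ k₀ → src i = b ∧ tgt i = b) {x : ι} (hx : x ∈ R) (hxk : x ≠ k₀) (hxt : C.Tw b (σ x))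
    {d : List ι →₀ ℤ} (hd : ∀ v ∈ d.support, pth src tgt a v b ∧ v.toFinset = R)
    {r : ι → U} (hr : C.Hom src tgt σ r) :
    C.val r a d = d [k₀, x] • (r k₀ * r x) := by
  have h2 : 2 ≤ C.r b := by
    have h1 := C.r_pos b
    by_contra h
    have h3 : C.r b = 1 := by omega
    apply hxt
    rw [h3]
    exact one_dvd _
  have hS : C.S a b (r k₀) := by
    have h := (hr k₀).1
    rwa [hk1, hk2] at h
  have h0 : C.wv r a [k₀, x] = r k₀ * r x := by
    rw [typ3_wv C hk1 hk2 hr, List.map_cons, List.map_nil, List.prod_cons, List.prod_nil, mul_one]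
  unfold Base.val Finsupp.sum
  rw [Finset.sum_eq_single [k₀, x]]
  · show d [k₀, x] • C.wv r a [k₀, x] = _
    rw [h0]
  · intro v hv hne
    obtain ⟨w, hw, hw1, hw2⟩ := typ3_word hab hk hk1 hk2 hR (hd v hv)
    have hxw : x ∈ w := hw2 x hx hxk
    have hl : 2 ≤ w.length := by
      by_contra hl
      cases w with
      | nil => exact absurd hxw (List.not_mem_nil)
      | cons y u =>
        have hu : u = [] := by
          rw [← List.length_eq_zero_iff]
          rw [List.length_cons] at hl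
          omega
        subst hu
        have hy : x = y := by simpa using hxw
        subst hy
        exact hne hw
    have h4 : r k₀ * (w.map r).prod = 0 := by
      refine e3van C hC hab h2 σ w hl ⟨x, hxw, hxt⟩ r (fun k hkw => ?_) hS
      have h5 := hr k
      obtain ⟨h6, h7⟩ := hR k (hw1 k hkw).1 (hw1 k hkw).2
      rwa [h6, h7] at h5
    show d v • C.wv r a v = 0
    rw [hw, typ3_wv C hk1 hk2 hr, h4, smul_zero]
  · intro h5
    show d [k₀, x] • C.wv r a [k₀, x] = 0
    rw [Finsupp.notMem_support_iff.1 h5, zero_smul]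

/-- the untwisted loops at `b` -/
private def typ3L (b : Q) : AddSubgroup U where
  carrier := {x | C.H b b 0 x}
  add_mem' := fun hx hy => H_add C hx hy
  zero_mem' := H_zero C 0
  neg_mem' := fun hx => H_neg C hx

theorem tyP3 (hC : C.Cub) {T : Submodule ℤ P} (hT : C.Dst T) {V : Fin 3 → AddSubgroup U}
    (hV : C.Vals V) (src tgt : ι → Q) (σ : ι → ℕ) (a b : Q) (hab : C.blk a ≠ C.blk b)
    (R : Finset ι) (k₀ : ι) (hk : k₀ ∈ R) (hk1 : src k₀ = a) (hk2 : tgt k₀ = b)
    (hR : ∀ i ∈ R, i ≠ k₀ → src i = b ∧ tgt i = b) (d d' : List ι →₀ ℤ)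
    (hd : ∀ v ∈ d.support, pth src tgt a v b ∧ v.toFinset = R)
    (hd' : ∀ v ∈ d'.support, pth src tgt a v b ∧ v.toFinset = R)
    (h : ∀ r, C.Hom src tgt σ r → In3 V (C.val r a d) (C.val r a d')) :
    ∀ r, C.Hom src tgt σ r → C.val r a d = 0 := by
  have hab' : a ≠ b := fun h1 => hab (by rw [h1])
  by_cases htw : ∃ x ∈ R, x ≠ k₀ ∧ C.Tw b (σ x)
  · obtain ⟨x, hx, hxk, hxt⟩ := htw
    intro r hr
    have h1 := h r hr
    rw [typ3_one C hC hab' hk hk1 hk2 hR hx hxk hxt hd hr,
      typ3_one C hC hab' hk hk1 hk2 hR hx hxk hxt hd' hr] at h1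
    rw [typ3_one C hC hab' hk hk1 hk2 hR hx hxk hxt hd hr]
    refine C.toBase.nest hV _ (d' [k₀, x]) {r k₀ * r x} ?_ ?_ _ rfl
    · rintro m rfl
      exact C.J_le (C.J_right _ _ (hr k₀).1.1)
    · rintro m rfl
      exact h1
  · push Not at htw
    have hσ : ∀ i ∈ R, i ≠ k₀ → C.r b ∣ σ i := fun i i1 i2 => by
      have h1 := htw i i1 i2
      by_contra h2
      exact h1 h2
    have hkt := C.toBase.ktWR (ι := ι) (typ3L C b)
      (fun x y hx hy => H_mul C hx hy) (fun x hx => hx.1.1) hT hV {m | C.S a b m}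
      (fun ρ m hρ hm => Base.S_mul _ hm hρ.1)
      (d.mapDomain List.tail) (d'.mapDomain List.tail) (fun m hm => Base.S_mem _ hm)
      (by
        intro ρ hρ m hm
        let r : ι → U := fun i => if i = k₀ then m else if i ∈ R then ρ i else 0
        have hrk : r k₀ = m := if_pos rfl
        have hr : C.Hom src tgt σ r := by
          intro i
          by_cases i1 : i = k₀
          · subst i1
            rw [hrk, hk1, hk2]
            exact ⟨hm, fun h1 => absurd h1 hab⟩
          · by_cases i2 : i ∈ R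
            · have h1 : r i = ρ i := by
                show (if i = k₀ then m else if i ∈ R then ρ i else 0) = ρ i
                rw [if_neg i1, if_pos i2]
              rw [h1, (hR i i2 i1).1, (hR i i2 i1).2]
              exact H_modEq C ((Nat.modEq_zero_iff_dvd.2 (hσ i i2 i1)).symm) (hρ i)
            · have h1 : r i = 0 := by
                show (if i = k₀ then m else if i ∈ R then ρ i else 0) = 0
                rw [if_neg i1, if_neg i2]
              rw [h1]
              exact ⟨Base.S_zero _ _ _, fun _ => by rw [zero_mul, mul_zero]⟩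
        have hρr : ∀ i ∈ R, i ≠ k₀ → ρ i = r i := by
          intro i i1 i2
          show ρ i = (if i = k₀ then m else if i ∈ R then ρ i else 0)
          rw [if_neg i2, if_pos i1]
        have e := h r hr
        rw [typ3_val C hab' hk hk1 hk2 hR hd hr hρr, typ3_val C hab' hk hk1 hk2 hR hd' hr hρr, hrk] at e
        exact e)
    intro r hr
    let ρ : ι → U := fun i => if i ∈ R ∧ i ≠ k₀ then r i else 0
    have hρr : ∀ i ∈ R, i ≠ k₀ → ρ i = r i := fun i i1 i2 => if_pos ⟨i1, i2⟩
    have hρ : ∀ i, C.H b b 0 (ρ i) := by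
      intro i
      by_cases i1 : i ∈ R ∧ i ≠ k₀
      · rw [hρr i i1.1 i1.2]
        have h1 := hr i
        rw [(hR i i1.1 i1.2).1, (hR i i1.1 i1.2).2] at h1
        exact H_modEq C (Nat.modEq_zero_iff_dvd.2 (hσ i i1.1 i1.2)) h1
      · have h1 : ρ i = 0 := if_neg i1
        rw [h1]
        exact H_zero C 0
    rw [typ3_val C hab' hk hk1 hk2 hR hd hr hρr]
    refine hkt ρ hρ _ ?_
    have h1 := (hr k₀).1
    rw [hk1, hk2] at h1
    exact h1

end Ctx

end ADM
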