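import Pool.Agent.ADM.Rel6
import Pool.Agent.ADM.Nest
import Pool.Agent.ADN.Ty5
import Pool.Agent.ADN.Ty6

/-!
# ADM-TyP56

Pure words: two edges through three different vertices; three edges between two vertices.

tyP5: the only path word from `a` to `b` with letter set `{k, l}` is `[k, l]`, so `val r a d = d [k,l] • (r k * r l)`: `nest`.
tyP6: `k, m : a → b`, `l : b → a` (possibly `k = m`).  A path word from `a` to `b` with letter set `{k, l, m}` alternates between `k, m` and `l`; if it has length `≥ 5` its value is 0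
(`van6` for the first four letters).  The words of length 3 are `[k,l,m]`, `[m,l,k]`.
By `rel6`, `r m * r l * r k = z • (r k * r l * r m)`, so `val r a d = n • (r k * r l * r m)` with an integer `n` independent of `r`: `nest`.
-/

namespace ADM

open AD ADN ADN.Ctx

namespace Ctx

variable {U : Type} [Ring U] {Q : Type} [Fintype Q] (C : Ctx U Q)
variable {ι : Type} [Fintype ι] [DecidableEq ι]

omit [Fintype ι] in
private theorem p5_word {W : Type} {src tgt : ι → W} {a g b : W} (hab : a ≠ b)
    (hga : g ≠ a) (hgb : g ≠ b) {k l : ι} (hk1 : src k = a) (hk2 : tgt k = g) (hl1 : src l = g)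
    (hl2 : tgt l = b) {v : List ι} (hp : pth src tgt a v b) (hv : v.toFinset = {k, l}) :
    v = [k, l] := by
  have hmem : ∀ i ∈ v, i = k ∨ i = l := by
    intro i hi
    have h1 : i ∈ v.toFinset := List.mem_toFinset.2 hi
    rw [hv, Finset.mem_insert, Finset.mem_singleton] at h1
    exact h1
  cases v with
  | nil => exact absurd hp hab
  | cons x v =>
    obtain ⟨hx, hp⟩ := hp
    have hxk : x = k := by
      rcases hmem x (by simp) with h | h
      · exact h
      · rw [h, hl1] at hx
        exact absurd hx hga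
    rw [hxk, hk2] at hp
    cases v with
    | nil => exact absurd hp hgb
    | cons y v =>
      obtain ⟨hy, hp⟩ := hp
      have hyl : y = l := by
        rcases hmem y (by simp) with h | h
        · rw [h, hk1] at hy
          exact absurd hy.symm hga
        · exact h
      rw [hyl, hl2] at hp
      cases v with
      | nil => rw [hxk, hyl]
      | cons z v =>
        obtain ⟨hz, -⟩ := hp
        rcases hmem z (by simp) with h | h
        · rw [h, hk1] at hz
          exact absurd hz hab
        · rw [h, hl1] at hz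
          exact absurd hz hgb

omit [Fintype ι] in
private theorem p5_val {src tgt : ι → Q} {a g b : Q} (hab : a ≠ b)
    (hga : g ≠ a) (hgb : g ≠ b) {k l : ι} (hk1 : src k = a) (hk2 : tgt k = g) (hl1 : src l = g)
    (hl2 : tgt l = b) {c : List ι →₀ ℤ}
    (hc : ∀ v ∈ c.support, pth src tgt a v b ∧ v.toFinset = {k, l}) {r : ι → U}
    (hr : C.Srt src tgt r) : C.val r a c = c [k, l] • (r k * r l) := by
  have h1 : C.val r a c = c [k, l] • C.wv r a [k, l] := by
    unfold Base.val
    refine Finsupp.sum_eq_single [k, l] ?_ ?_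
    · intro v hv hne
      have h2 := hc v (Finsupp.mem_support_iff.2 hv)
      exact absurd (p5_word hab hga hgb hk1 hk2 hl1 hl2 h2.1 h2.2) hne
    · intro _
      exact zero_smul _ _
  have h2 : C.e a * r k = r k := by
    have := (hr k).2.1
    rw [hk1] at this
    exact this
  rw [h1]
  unfold Base.wv
  rw [List.map_cons, List.map_cons, List.map_nil, List.prod_cons, List.prod_cons, List.prod_nil,
    mul_one, ← mul_assoc, h2]

theorem tyP5 {V : Fin 3 → AddSubgroup U} (hV : C.Vals V) (src tgt : ι → Q) (σ : ι → ℕ)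
    (a g b : Q) (hab : a ≠ b) (hga : g ≠ a) (hgb : g ≠ b) (k l : ι) (hk1 : src k = a) (hk2 : tgt k = g)
    (hl1 : src l = g) (hl2 : tgt l = b) (d d' : List ι →₀ ℤ)
    (hd : ∀ v ∈ d.support, pth src tgt a v b ∧ v.toFinset = {k, l})
    (hd' : ∀ v ∈ d'.support, pth src tgt a v b ∧ v.toFinset = {k, l})
    (h : ∀ r, C.Hom src tgt σ r → In3 V (C.val r a d) (C.val r a d')) :
    ∀ r, C.Hom src tgt σ r → C.val r a d = 0 := by
  have hS : ∀ r, C.Hom src tgt σ r → C.Srt src tgt r := fun r hr i => (hr i).1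
  have key := C.nest hV (d [k, l]) (d' [k, l]) {m | ∃ r, C.Hom src tgt σ r ∧ m = r k * r l} ?_ ?_
  · intro r hr
    rw [C.p5_val hab hga hgb hk1 hk2 hl1 hl2 hd (hS r hr)]
    exact key _ ⟨r, hr, rfl⟩
  · rintro m ⟨r, hr, rfl⟩
    exact C.A_left _ _ (C.J_le (hr l).1.1)
  · rintro m ⟨r, hr, rfl⟩
    have h1 := h r hr
    rw [C.p5_val hab hga hgb hk1 hk2 hl1 hl2 hd (hS r hr),
      C.p5_val hab hga hgb hk1 hk2 hl1 hl2 hd' (hS r hr)] at h1
    exact h1

omit [Fintype ι] [DecidableEq ι] in
private theorem p6_word {W : Type} {src tgt : ι → W} {a b : W} (hab : a ≠ b) {k l m : ι}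
    (hk1 : src k = a) (hk2 : tgt k = b) (hl1 : src l = b) (hl2 : tgt l = a) (hm1 : src m = a)
    (hm2 : tgt m = b) {v : List ι} (hv : pth src tgt a v b) (hR : ∀ x ∈ v, x = k ∨ x = l ∨ x = m)
    (hl : l ∈ v) : ∃ x z, (x = k ∨ x = m) ∧ (z = k ∨ z = m) ∧
      (v = [x, l, z] ∨ ∃ w, v = x :: l :: z :: l :: w) := by
  have hA : ∀ x, (x = k ∨ x = l ∨ x = m) → src x = a → (x = k ∨ x = m) := by
    rintro x (rfl | rfl | rfl) h
    · exact Or.inl rfl
    · exact absurd (h.symm.trans hl1) hab
    · exact Or.inr rfl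
  have hB : ∀ x, (x = k ∨ x = l ∨ x = m) → src x = b → x = l := by
    rintro x (rfl | rfl | rfl) h
    · exact absurd (hk1.symm.trans h) hab
    · rfl
    · exact absurd (hm1.symm.trans h) hab
  have hT : ∀ x, (x = k ∨ x = m) → tgt x = b := by
    rintro x (rfl | rfl)
    · exact hk2
    · exact hm2
  have hS : ∀ x, (x = k ∨ x = m) → x ≠ l := by
    rintro x (rfl | rfl) h
    · rw [h] at hk1; exact hab (hk1.symm.trans hl1)
    · rw [h] at hm1; exact hab (hm1.symm.trans hl1)
  rcases v with _ | ⟨x, v⟩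
  · exact absurd hl (by simp)
  obtain ⟨h1, h2⟩ := hv
  have hx := hA x (hR x (by simp)) h1
  rw [hT x hx] at h2
  rcases v with _ | ⟨y, v⟩
  · rw [List.mem_singleton] at hl
    exact absurd hl.symm (hS x hx)
  obtain ⟨h3, h4⟩ := h2
  have hy := hB y (hR y (by simp)) h3
  subst hy
  rw [hl2] at h4
  rcases v with _ | ⟨z, v⟩
  · exact absurd h4 hab
  obtain ⟨h5, h6⟩ := h4
  have hz := hA z (hR z (by simp)) h5
  rw [hT z hz] at h6
  refine ⟨x, z, hx, hz, ?_⟩
  rcases v with _ | ⟨w, v⟩
  · exact Or.inl rfl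
  · obtain ⟨h7, -⟩ := h6
    have hw := hB w (hR w (by simp)) h7
    subst hw
    exact Or.inr ⟨v, rfl⟩

omit [Fintype ι] [DecidableEq ι] in
private theorem p6_zero (hC : C.Cub) {src tgt : ι → Q} {a b : Q} (hab : a ≠ b)
    {r : ι → U} (hr : C.Srt src tgt r) {x l z : ι} (hx1 : src x = a) (hx2 : tgt x = b)
    (hl1 : src l = b) (hl2 : tgt l = a) (hz1 : src z = a) (hz2 : tgt z = b) (w : List ι) :
    C.wv r a (x :: l :: z :: l :: w) = 0 := by
  have h1 : C.S a b (r x) := by have := hr x; rwa [hx1, hx2] at this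
  have h2 : C.S b a (r l) := by have := hr l; rwa [hl1, hl2] at this
  have h3 : C.S a b (r z) := by have := hr z; rwa [hz1, hz2] at this
  have h4 := C.van6 hC hab h1 h2 h3 h2
  unfold Base.wv
  rw [List.map_cons, List.map_cons, List.map_cons, List.map_cons, List.prod_cons, List.prod_cons,
    List.prod_cons, List.prod_cons]
  have h5 : r x * (r l * (r z * (r l * (w.map r).prod))) = r x * r l * r z * r l * (w.map r).prod := by
    noncomm_ring
  rw [h5, h4, zero_mul, mul_zero]

omit [Fintype ι] [DecidableEq ι] in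
private theorem p6_len3 {src tgt : ι → Q} {a : Q}
    {r : ι → U} (hr : C.Srt src tgt r) {x l z : ι} (hx1 : src x = a) :
    C.wv r a [x, l, z] = r x * r l * r z := by
  have h1 : C.e a * r x = r x := by have := (hr x).2.1; rwa [hx1] at this
  unfold Base.wv
  rw [List.map_cons, List.map_cons, List.map_cons, List.map_nil, List.prod_cons, List.prod_cons,
    List.prod_cons, List.prod_nil, mul_one, ← mul_assoc, ← mul_assoc, h1]

omit [Fintype ι] [DecidableEq ι] in
private theorem p6_val (r : ι → U) (a : Q) (c : List ι →₀ ℤ) (t : Finset (List ι))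
    (h : ∀ v ∈ c.support, v ∉ t → C.wv r a v = 0) : C.val r a c = ∑ v ∈ t, c v • C.wv r a v := by
  classical
  unfold Base.val Finsupp.sum
  refine Finset.sum_congr_of_eq_on_inter (fun v hv hvt => ?_) (fun v _ hv => ?_) (fun v _ _ => rfl)
  · show c v • C.wv r a v = 0
    rw [h v hv hvt, smul_zero]
  · rw [Finsupp.notMem_support_iff.1 hv, zero_smul]

omit [Fintype ι] in
private theorem p6_main (hC : C.Cub) {src tgt : ι → Q}
    {a b : Q} (hab : a ≠ b) {k l m : ι} (hk1 : src k = a) (hk2 : tgt k = b)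
    (hl1 : src l = b) (hl2 : tgt l = a) (hm1 : src m = a) (hm2 : tgt m = b) :
    ∀ c : List ι →₀ ℤ, (∀ v ∈ c.support, pth src tgt a v b ∧ v.toFinset = {k, l, m}) →
      ∃ n : ℤ, ∀ r, C.Srt src tgt r → C.val r a c = n • (r k * r l * r m) := by
  intro c hc
  obtain ⟨z, hz⟩ := C.rel6 hC hab
  have hkl : k ≠ l := by
    intro e
    rw [e] at hk1
    exact hab (hk1.symm.trans hl1)
  have hml : m ≠ l := by
    intro e
    rw [e] at hm1
    exact hab (hm1.symm.trans hl1)
  have hwords : ∀ v ∈ c.support,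
      ∃ x z, (x = k ∨ x = m) ∧ (z = k ∨ z = m) ∧ (v = [x, l, z] ∨ ∃ w, v = x :: l :: z :: l :: w) := by
    intro v hv
    obtain ⟨hv1, hv2⟩ := hc v hv
    refine p6_word hab hk1 hk2 hl1 hl2 hm1 hm2 hv1 (fun x hx => ?_) ?_
    · have : x ∈ v.toFinset := List.mem_toFinset.2 hx
      rw [hv2] at this
      simpa using this
    · have : l ∈ ({k, l, m} : Finset ι) := by simp
      rw [← hv2] at this
      exact List.mem_toFinset.1 this
  have hsrc : ∀ x, (x = k ∨ x = m) → src x = a ∧ tgt x = b := by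
    rintro x (rfl | rfl)
    · exact ⟨hk1, hk2⟩
    · exact ⟨hm1, hm2⟩
  by_cases hkm : k = m
  · subst hkm
    refine ⟨c [k, l, k], fun r hr => ?_⟩
    rw [C.p6_val r a c {[k, l, k]}, Finset.sum_singleton, C.p6_len3 hr hk1]
    intro v hv hvt
    obtain ⟨x, z, hx, hz, h1 | ⟨w, h1⟩⟩ := hwords v hv
    · exfalso
      apply hvt
      rw [Finset.mem_singleton, h1]
      rcases hx with rfl | rfl <;> rcases hz with rfl | rfl <;> rfl
    · rw [h1]
      exact C.p6_zero hC hab hr (hsrc x hx).1 (hsrc x hx).2 hl1 hl2 (hsrc z hz).1 (hsrc z hz).2 w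
  · have hne : ([k, l, m] : List ι) ≠ [m, l, k] := by
      intro e
      have := (List.cons.inj e).1
      exact hkm this
    refine ⟨c [k, l, m] + c [m, l, k] * z, fun r hr => ?_⟩
    have hK : C.S a b (r k) := by have := hr k; rwa [hk1, hk2] at this
    have hL : C.S b a (r l) := by have := hr l; rwa [hl1, hl2] at this
    have hM : C.S a b (r m) := by have := hr m; rwa [hm1, hm2] at this
    have hz' := hz (r m) (r l) (r k) hM hL hK
    rw [C.p6_val r a c {[k, l, m], [m, l, k]}, Finset.sum_pair hne, C.p6_len3 hr hk1,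
      C.p6_len3 hr hm1, hz', smul_smul, ← add_smul]
    intro v hv hvt
    obtain ⟨x, z, hx, hz, h1 | ⟨w, h1⟩⟩ := hwords v hv
    · exfalso
      apply hvt
      rw [Finset.mem_insert, Finset.mem_singleton, h1]
      have h2 := (hc v hv).2
      rw [h1] at h2
      have hin : ∀ y, y ∈ ({k, l, m} : Finset ι) → y = x ∨ y = l ∨ y = z := by
        intro y hy
        rw [← h2] at hy
        simpa using hy
      have hkR := hin k (by simp)
      have hmR := hin m (by simp)
      rcases hx with hx | hx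
      · rcases hz with hz | hz
        · exfalso
          rw [hx, hz] at hmR
          rcases hmR with h3 | h3 | h3
          · exact hkm h3.symm
          · exact hml h3
          · exact hkm h3.symm
        · rw [hx, hz]; exact Or.inl rfl
      · rcases hz with hz | hz
        · rw [hx, hz]; exact Or.inr rfl
        · exfalso
          rw [hx, hz] at hkR
          rcases hkR with h3 | h3 | h3
          · exact hkm h3
          · exact hkl h3
          · exact hkm h3
    · rw [h1]
      exact C.p6_zero hC hab hr (hsrc x hx).1 (hsrc x hx).2 hl1 hl2 (hsrc z hz).1 (hsrc z hz).2 w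

theorem tyP6 (hC : C.Cub) {V : Fin 3 → AddSubgroup U} (hV : C.Vals V) (src tgt : ι → Q) (σ : ι → ℕ)
    (a b : Q) (hab : a ≠ b) (k l m : ι) (hk1 : src k = a) (hk2 : tgt k = b)
    (hl1 : src l = b) (hl2 : tgt l = a) (hm1 : src m = a) (hm2 : tgt m = b) (d d' : List ι →₀ ℤ)
    (hd : ∀ v ∈ d.support, pth src tgt a v b ∧ v.toFinset = {k, l, m})
    (hd' : ∀ v ∈ d'.support, pth src tgt a v b ∧ v.toFinset = {k, l, m})
    (h : ∀ r, C.Hom src tgt σ r → In3 V (C.val r a d) (C.val r a d')) :
    ∀ r, C.Hom src tgt σ r → C.val r a d = 0 := by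
  have hS : ∀ r, C.Hom src tgt σ r → C.Srt src tgt r := fun r hr i => (hr i).1
  obtain ⟨n, hn⟩ := C.p6_main hC hab hk1 hk2 hl1 hl2 hm1 hm2 d hd
  obtain ⟨n', hn'⟩ := C.p6_main hC hab hk1 hk2 hl1 hl2 hm1 hm2 d' hd'
  have key := C.nest hV n n' {t | ∃ r, C.Hom src tgt σ r ∧ t = r k * r l * r m} ?_ ?_
  · intro r hr
    rw [hn r (hS r hr)]
    exact key _ ⟨r, hr, rfl⟩
  · rintro t ⟨r, hr, rfl⟩
    exact C.A_left _ _ (C.J_le (hr m).1.1)
  · rintro t ⟨r, hr, rfl⟩
    have h1 := h r hr
    rw [hn r (hS r hr), hn' r (hS r hr)] at h1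
    exact h1

end Ctx

end ADM
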