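import Pool.Agent.ADM.LoopHom
import Pool.Agent.ADM.SepAll
import Pool.Agent.ADM.SepF1
import Pool.Agent.ADM.SepF2
import Pool.Agent.ADM.SepF3
import Pool.Agent.ADM.SepF4
import Pool.Agent.ADM.SepF5
import Pool.Agent.ADM.SepF6
import Pool.Agent.ADM.F4t
import Pool.Agent.ADM.F4a
import Pool.Agent.ADM.TyMx
import Pool.Agent.ADM.Ty0x
import Pool.Agent.ADM.TyP2
import Pool.Agent.ADM.TyP3
import Pool.Agent.ADM.TyP4
import Pool.Agent.ADM.TyP56
import Pool.Agent.ADM.Cls

namespace ADM

open AD ADN ADN.Ctx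

namespace Ctx

variable {U : Type} [Ring U] {Q : Type} [Fintype Q] (C : Ctx U Q)
variable {ι : Type} [Fintype ι] [DecidableEq ι]

private theorem nm_ne {a b : Q} (ha : C.NM a) (hab : a ≠ b) : C.blk a ≠ C.blk b := fun h =>
  hab (ha b h.symm).symm

theorem tat2 (hC : C.Cub) (hTy : Types C.Rl C.p) (hOL : C.OpL) (hOR : C.OpR)
    (hTu : C.p = 2 → C.TuP) {T : Submodule ℤ P} (hT : C.Dst T) {V : Fin 3 → AddSubgroup U}
    (hV : C.Vals V) (src tgt : ι → Q) (σ : ι → ℕ) (a b : Q) (R : Finset ι)
    (c c' : (ℕ × List (ι × ℕ)) →₀ ℤ)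
    (hc : ∀ q ∈ c.support, (lts q).toFinset = R) (hc' : ∀ q ∈ c'.support, (lts q).toFinset = R)
    (h0 : a = C.o → ∀ i, c (i, []) = 0 ∧ c' (i, []) = 0)
    (h : ∀ θ r, C.Hom src tgt σ r →
      In3 V (C.xval θ src tgt r a b c) (C.xval θ src tgt r a b c')) :
    ∀ θ r, C.Hom src tgt σ r → C.xval θ src tgt r a b c = 0 := by
  classical
  by_cases hR0 : R = ∅
  · subst hR0
    exact C.ty0x hV src tgt σ a b c c' hc hc' h0 h
  have hRne : R.Nonempty := Finset.nonempty_iff_ne_empty.2 hR0
  by_cases hRk : ∃ k, R = {k} ∧ ¬ (src k = tgt k ∧ C.NM (src k))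
  · obtain ⟨k, rfl, hk⟩ := hRk
    exact C.tyMx hC hV src tgt σ a b k hk c c' hc hc' h
  by_contra hcon
  push Not at hcon
  obtain ⟨θ, r, hr, hne⟩ := hcon
  obtain ⟨q, hq, hqne⟩ : ∃ q ∈ c.support, C.nv θ src tgt r a b q.1 q.2 ≠ 0 := by
    by_contra h'
    push Not at h'
    apply hne
    unfold xval Finsupp.sum
    apply Finset.sum_eq_zero
    intro q hq
    show c q • C.nv θ src tgt r a b q.1 q.2 = 0
    rw [h' q hq, smul_zero]
  have hqR := hc q hq
  have hmem : ∀ k, k ∈ R ↔ ∃ j, (k, j) ∈ q.2 := by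
    intro k
    rw [← hqR, List.mem_toFinset]
    unfold lts
    rw [List.mem_map]
    constructor
    · rintro ⟨⟨k', j⟩, hk', rfl⟩
      exact ⟨j, hk'⟩
    · rintro ⟨j, hj⟩
      exact ⟨(k, j), hj, rfl⟩
  -- loops
  have f1 : ∀ (hab : a = b), (∀ k ∈ R, src k = a ∧ tgt k = a) → False := by
    intro hab hl
    subst hab
    have hRne' := hRne
    obtain ⟨k₀, _⟩ := hRne'
    exact hne (C.sepAll hV src tgt σ a a R hRne k₀ (C.sepF1 src tgt σ a R hl k₀)
      (C.loopHom hC hTy hOL hOR hTu hT hV src tgt σ a R hRne hl) c c' hc hc' h θ r hr)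
  have hq0 : q.2 ≠ [] := by
    intro h1
    apply hR0
    rw [← hqR]
    unfold lts
    rw [h1]
    rfl
  rcases Nat.lt_or_ge q.2.length 2 with hlen | hlen
  · -- one letter
    obtain ⟨x, hx⟩ : ∃ x, q.2 = [x] := by
      apply List.length_eq_one_iff.1
      have := List.length_pos_iff.2 hq0
      omega
    obtain ⟨k, j⟩ := x
    have hRk' : R = {k} := by
      rw [← hqR]
      unfold lts
      rw [hx]
      rfl
    have hk : src k = tgt k ∧ C.NM (src k) := by
      by_contra hk
      exact hRk ⟨k, hRk', hk⟩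
    have hb := C.nv_bpth θ src tgt r a b q.1 q.2 hqne
    rw [hx] at hb
    obtain ⟨h1, h2⟩ := hb
    have h3 : C.blk (tgt k) = C.blk b := h2
    have ha : a = src k := hk.2 a h1
    have hb : b = src k := by
      apply hk.2 b
      rw [← h3, hk.1]
    apply f1 (ha.trans hb.symm)
    intro i hi
    rw [hRk', Finset.mem_singleton] at hi
    subst hi
    exact ⟨ha.symm, by rw [← hk.1]; exact ha.symm⟩
  · obtain ⟨haN, hbN, hp, hall⟩ := C.nvM hC hr θ a b q.1 q.2 hlen hqne
    have hwv : C.wv (C.r2 θ tgt r) a q.2 ≠ 0 := by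
      intro h1
      apply hqne
      rw [C.nv_eq hr θ b q.2 a q.1 hp, h1, mul_zero]
    rcases C.cls hC (C.r2_Srt hr θ) q.2 a b hp hwv with h1 | h2 | h3 | h4 | h5 | h6
    · obtain ⟨hab, hl⟩ := h1
      apply f1 hab
      intro k hk
      obtain ⟨j, hj⟩ := (hmem k).1 hk
      exact hl (k, j) hj
    · obtain ⟨hab, v₁, ⟨k, j⟩, hv, hl, hk1, hk2⟩ := h2
      have hkR : k ∈ R := (hmem k).2 ⟨j, by rw [hv]; simp⟩
      have hk1' : src k = a := hk1
      have hk2' : tgt k = b := hk2
      have hlR : ∀ i ∈ R, i ≠ k → src i = a ∧ tgt i = a := by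
        intro i hi hik
        obtain ⟨j', hj'⟩ := (hmem i).1 hi
        rw [hv, List.mem_append, List.mem_singleton] at hj'
        rcases hj' with hj' | hj'
        · exact hl (i, j') hj'
        · exact absurd (congrArg Prod.fst hj') hik
      exact hne (C.sepAll hV src tgt σ a b R hRne k
        (C.sepF2 src tgt σ a b hab haN hbN R k hkR hk1' hk2' hlR)
        (C.tyP2 hC hT hV src tgt σ a b (C.nm_ne haN hab) R k hkR hk1' hk2' hlR) c c' hc hc' h θ r hr)
    · obtain ⟨hab, v₁, ⟨k, j⟩, hv, hl, hk1, hk2⟩ := h3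
      have hkR : k ∈ R := (hmem k).2 ⟨j, by rw [hv]; simp⟩
      have hk1' : src k = a := hk1
      have hk2' : tgt k = b := hk2
      have hlR : ∀ i ∈ R, i ≠ k → src i = b ∧ tgt i = b := by
        intro i hi hik
        obtain ⟨j', hj'⟩ := (hmem i).1 hi
        rw [hv, List.mem_cons] at hj'
        rcases hj' with hj' | hj'
        · exact absurd (congrArg Prod.fst hj') hik
        · exact hl (i, j') hj'
      exact hne (C.sepAll hV src tgt σ a b R hRne k
        (C.sepF3 src tgt σ a b hab haN hbN R k hkR hk1' hk2' hlR)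
        (C.tyP3 hC hT hV src tgt σ a b (C.nm_ne haN hab) R k hkR hk1' hk2' hlR) c c' hc hc' h θ r hr)
    · obtain ⟨hab, v₁, v₂, ⟨k, j⟩, ⟨l, j'⟩, g, hg, hv, hl1, hl2, hk1, hk2, hk3, hk4⟩ := h4
      subst hab
      have hkR : k ∈ R := (hmem k).2 ⟨j, by rw [hv]; simp⟩
      have hlR' : l ∈ R := (hmem l).2 ⟨j', by rw [hv]; simp⟩
      have hk1' : src k = a := hk1
      have hk2' : tgt k = g := hk2
      have hl1' : src l = g := hk3
      have hl2' : tgt l = a := hk4
      have hgN : C.NM g := by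
        rw [← hk2']
        exact (hall (k, j) (by rw [hv]; simp)).2
      have hlR : ∀ i ∈ R, i ≠ k → i ≠ l → src i = a ∧ tgt i = a := by
        intro i hi hik hil
        obtain ⟨m, hm⟩ := (hmem i).1 hi
        rw [hv, List.mem_append, List.mem_cons, List.mem_cons] at hm
        rcases hm with hm | hm | hm | hm
        · exact hl1 (i, m) hm
        · exact absurd (congrArg Prod.fst hm) hik
        · exact absurd (congrArg Prod.fst hm) hil
        · exact hl2 (i, m) hm
      by_cases htw : ∃ i ∈ R, i ≠ k ∧ i ≠ l ∧ C.Tw a (σ i)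
      · exact hqne (C.f4t hC src tgt σ a g hg haN hgN R k l hkR hlR' hk1' hk2' hl1' hl2' hlR htw q hqR
          θ r hr)
      · push Not at htw
        by_cases hex : ∃ i ∈ R, i ≠ k ∧ i ≠ l
        · have hlR2 : ∀ i ∈ R, i ≠ k → i ≠ l → src i = a ∧ tgt i = a ∧ ¬ C.Tw a (σ i) :=
            fun i hi hik hil => ⟨(hlR i hi hik hil).1, (hlR i hi hik hil).2, htw i hi hik hil⟩
          exact hne (C.sepAll hV src tgt σ a a R hRne k
            (C.sepF4 hC src tgt σ a g hg haN hgN R k l hkR hlR' hk1' hk2' hl1' hl2' hlR2 hex)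
            (C.tyP4 hC hT hV src tgt σ a g (C.nm_ne haN (Ne.symm hg)) R k l hkR hlR' hk1' hk2' hl1'
              hl2' hlR2) c c' hc hc' h θ r hr)
        · push Not at hex
          have hRkl : R = {k, l} := by
            ext i
            rw [Finset.mem_insert, Finset.mem_singleton]
            constructor
            · intro hi
              by_cases hik : i = k
              · exact Or.inl hik
              · exact Or.inr (hex i hi hik)
            · rintro (rfl | rfl)
              · exact hkR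
              · exact hlR'
          subst hRkl
          exact hne (C.f4a hC hV src tgt σ a g hg haN hgN k l hk1' hk2' hl1' hl2' c c' hc hc' h θ r hr)
    · obtain ⟨⟨k, j⟩, ⟨l, j'⟩, g, hv, hab, hga, hgb, hk1, hk2, hl1, hl2⟩ := h5
      have hk1' : src k = a := hk1
      have hk2' : tgt k = g := hk2
      have hl1' : src l = g := hl1
      have hl2' : tgt l = b := hl2
      have hgN : C.NM g := by
        rw [← hk2']
        exact (hall (k, j) (by rw [hv]; simp)).2
      have hRkl : R = {k, l} := by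
        rw [← hqR]
        unfold lts
        rw [hv]
        ext i
        simp
      subst hRkl
      exact hne (C.sepAll hV src tgt σ a b {k, l} hRne k
        (C.sepF5 src tgt σ a g b hab hga hgb haN hgN hbN k l hk1' hk2' hl1' hl2')
        (C.tyP5 hV src tgt σ a g b hab hga hgb k l hk1' hk2' hl1' hl2') c c' hc hc' h θ r hr)
    · obtain ⟨hab, ⟨k, j⟩, ⟨l, j'⟩, ⟨m, j''⟩, hv, hk1, hk2, hl1, hl2, hm1, hm2⟩ := h6
      have hk1' : src k = a := hk1
      have hk2' : tgt k = b := hk2
      have hl1' : src l = b := hl1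
      have hl2' : tgt l = a := hl2
      have hm1' : src m = a := hm1
      have hm2' : tgt m = b := hm2
      have hRkl : R = {k, l, m} := by
        rw [← hqR]
        unfold lts
        rw [hv]
        ext i
        simp
      subst hRkl
      exact hne (C.sepAll hV src tgt σ a b {k, l, m} hRne k
        (C.sepF6 hC src tgt σ a b hab haN hbN k l m hk1' hk2' hl1' hl2' hm1' hm2' k)
        (C.tyP6 hC hV src tgt σ a b hab k l m hk1' hk2' hl1' hl2' hm1' hm2') c c' hc hc' h θ r hr)

end Ctx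

end ADM
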