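import Pool.Agent.ADM.RewL
import Pool.Agent.ADM.RpxL
import Pool.Agent.ADM.Tr
import Pool.Agent.ADM.Two

/-!
# ADM-TyLL

Type L: combinations of words of loops, at least one of them twisted.

PLAN.  `x ∈ R` twisted.  Note that `wt p σ v k` for a word `v` is computed letter by letter (`wt` in Defs); modulo `n a` an untwisted letter does not
change the following weights (`p ^ σ k ≡ 1`).
Case A: there is a twisted `y ∈ R`, `y ≠ x`.  Every word `v` with letter set `R` has `ntw ≥ 2`; if `v.length ≥ 3` its value vanishes (vanL2).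
  The only words of length 2 are `[x,y]` and `[y,x]`, which are not in the same class (weights of `x`: `1` and `p ^ σ y ≢ 1`, `pow_modEq_one_iff`).  Use
  `one` with the one which is in the class of `v₀` (or `[x,y]` if none is).
Case B: `R = {x} ∪ R₀`, `R₀` untwisted letters (`R₀ = R.erase x`).
 B1: `R₀ = ∅`: words `x^m`; `m ≥ 3` vanish by vanL2, `m = 0` has not the letter set `R`; `[x]` (weight 1) and `[x,x]` (weight `1 + p ^ σ x`) are not in the
  same class (`pow_not_zero`): `one`.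
 B2: `R₀ ≠ ∅`.  Claim: if NOT (`R₀ = {ρ}` and `[x,ρ]` in the class of `v₀` and the second alternative of `rpxL` holds), then for every word `v` with
  letter set `R` in the class of `v₀` there is `d_v`, a combination of words with letters in `R₀`, with `wv r a v = lv r d_v * r x` for all `LHom` `r`.
  Proof: `v` has length `≥ 2`.  If `v.length ≥ 3`: `rewL` gives a combination of words `u ++ [x]` (`NfL`, the twisted letter is `x`,
  the letters of `u` are untwisted letters of `v`, so in `R₀`); drop the last letter.  If `v.length = 2`: `v = [ρ,x]`: `d = single [ρ] 1`;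
  `v = [x,ρ]`, `R₀ = {ρ}`: first alternative of `rpxL` (`σ ρ` is divisible by `r a`: `H_modEq` to twist 0): `d = ∑ e_i single (replicate i ρ)`.
  Then `d = ∑ c v • d_v`, `d' = ∑ c' v • d_v`, `val r a c = lv r d * r x`, and `trL` gives the result.
  Remaining case: `R = {x,ρ}`, `[x,ρ]` in the class of `v₀`, `ρ^p x = 0` for all values.  Then all other words in the class vanish, and `one` with
  `v₁ = [x,ρ]` applies: `[ρ,x]` is not in the class (weight of `ρ`: `1` against `p ^ σ x`); if `v.length ≥ 3`, `rewL` gives a combination of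
  words `ρ^i x` with `i ≡ p ^ σ x` modulo `n a` (weights) and `i ≥ 1`; with `s = σ x % r ∈ [1, r-1]`, `p ^ σ x ≡ p ^ s < n a`, so `i ≥ p ^ s ≥ p` and
  `ρ^i x = ρ^(i-p) ρ^p x = 0`.
-/

namespace ADM

open AD ADN ADN.Ctx

namespace Ctx

variable {U : Type} [Ring U] {Q : Type} [Fintype Q] (C : Ctx U Q)
variable {ι : Type} [Fintype ι] [DecidableEq ι]

omit [Fintype ι] in
private theorem tyLL_two {a : Q} {σ : ι → ℕ} {x y : ι} (hxy : x ≠ y) {v : List ι} (hx : x ∈ v)
    (hy : y ∈ v) (tx : C.Tw a (σ x)) (ty : C.Tw a (σ y)) : 2 ≤ C.ntw a σ v := by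
  obtain ⟨u, u', rfl⟩ := List.append_of_mem hx
  rw [C.ntw_append, C.ntw_cons_tw _ tx]
  rcases List.mem_append.1 hy with h | h
  · have h1 : 0 < C.ntw a σ u := C.ntw_pos.2 ⟨y, h, ty⟩
    omega
  · rcases List.mem_cons.1 h with h | h
    · exact absurd h.symm hxy
    · have h1 : 0 < C.ntw a σ u' := C.ntw_pos.2 ⟨y, h, ty⟩
      omega

omit [Fintype ι] [DecidableEq ι] in
private theorem tyLL_pair {x y : ι} (hxy : x ≠ y) {v : List ι} (hx : x ∈ v) (hy : y ∈ v)
    (hv : ¬ 3 ≤ v.length) : v = [x, y] ∨ v = [y, x] := by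
  rcases v with _ | ⟨s, v⟩
  · exact absurd hx List.not_mem_nil
  rcases v with _ | ⟨t, v⟩
  · rw [List.mem_singleton] at hx hy
    exact absurd (hx.trans hy.symm) hxy
  rcases v with _ | ⟨t', v⟩
  · simp only [List.mem_cons, List.not_mem_nil, or_false] at hx hy
    rcases hx with hx | hx <;> rcases hy with hy | hy
    · exact absurd (hx.trans hy.symm) hxy
    · left
      rw [hx, hy]
    · right
      rw [hx, hy]
    · exact absurd (hx.trans hy.symm) hxy
  · exfalso
    apply hv
    simp only [List.length_cons]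
    omega

omit [Fintype ι] in
private theorem tyLL_wt1 (p : ℕ) (σ : ι → ℕ) {x y : ι} (hxy : x ≠ y) : wt p σ [x, y] x = 1 := by
  show (if x = x then 1 else 0) + p ^ σ x * ((if y = x then 1 else 0) + p ^ σ y * 0) = 1
  rw [if_pos rfl, if_neg (Ne.symm hxy)]
  ring

omit [Fintype ι] in
private theorem tyLL_wt2 (p : ℕ) (σ : ι → ℕ) {x y : ι} (hxy : x ≠ y) :
    wt p σ [x, y] y = p ^ σ x := by
  show (if x = y then 1 else 0) + p ^ σ x * ((if y = y then 1 else 0) + p ^ σ y * 0) = p ^ σ x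
  rw [if_pos rfl, if_neg hxy]
  ring

omit [Fintype ι] [DecidableEq ι] in
private theorem tyLL_one {a : Q} (ha : 2 ≤ C.r a) {s : ℕ} (hs : C.Tw a s) :
    ¬ C.p ^ s ≡ 1 [MOD C.n a] := by
  rw [C.n_eq ha, pow_modEq_one_iff C.hp ha]
  exact hs

omit [Fintype ι] in
/-- words with two different twisted letters are in different classes -/
private theorem tyLL_swap {a : Q} (ha : 2 ≤ C.r a) {σ : ι → ℕ} {v₀ : List ι} {x y : ι}
    (hxy : x ≠ y) (ty : C.Tw a (σ y)) (h1 : C.Ew a σ v₀ [x, y]) (h2 : C.Ew a σ v₀ [y, x]) :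
    False := by
  have h3 := (h2.1 x).symm.trans (h1.1 x)
  rw [tyLL_wt1 C.p σ hxy, tyLL_wt2 C.p σ (Ne.symm hxy)] at h3
  exact tyLL_one C ha ty h3

omit [Fintype ι] in
private theorem tyLL_van (hC : C.Cub) (hL : TyL C.Rl C.p) {a : Q} (ha : 2 ≤ C.r a) {σ : ι → ℕ}
    {v : List ι} (hv : 3 ≤ v.length) (htw : 2 ≤ C.ntw a σ v) (r : ι → U) (hr : C.LHom a σ r) :
    C.wv r a v = 0 := by
  unfold Base.wv
  rw [C.vanL2 hC hL ha σ v hv htw r hr, mul_zero]

omit [Fintype ι] in
/-- two different twisted letters -/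
private theorem tyLL_A (hC : C.Cub) (hL : TyL C.Rl C.p)
    {V : Fin 3 → AddSubgroup U} (hV : C.Vals V) {a : Q} (ha : 2 ≤ C.r a) (σ : ι → ℕ) (R : Finset ι)
    (v₀ : List ι) (c c' : List ι →₀ ℤ) (h : C.Pr V a σ R v₀ c c') {x y : ι} (hx : x ∈ R)
    (hy : y ∈ R) (hxy : x ≠ y) (tx : C.Tw a (σ x)) (ty : C.Tw a (σ y)) :
    ∀ r, C.LHom a σ r → C.val r a c = 0 := by
  have hm : ∀ {v : List ι}, v.toFinset = R → ∀ k ∈ R, k ∈ v := by
    intro v hv k hk
    rw [← hv, List.mem_toFinset] at hk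
    exact hk
  by_cases hE : C.Ew a σ v₀ [y, x]
  · refine C.one hV (C.ne_o ha) h [y, x] fun v hv hE' hne r hr => ?_
    by_cases hl : 3 ≤ v.length
    · exact tyLL_van C hC hL ha hl (tyLL_two C hxy (hm hv x hx) (hm hv y hy) tx ty) r hr
    · rcases tyLL_pair hxy (hm hv x hx) (hm hv y hy) hl with rfl | rfl
      · exact absurd hE fun h2 => tyLL_swap C ha hxy ty hE' h2
      · exact absurd rfl hne
  · refine C.one hV (C.ne_o ha) h [x, y] fun v hv hE' hne r hr => ?_
    by_cases hl : 3 ≤ v.length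
    · exact tyLL_van C hC hL ha hl (tyLL_two C hxy (hm hv x hx) (hm hv y hy) tx ty) r hr
    · rcases tyLL_pair hxy (hm hv x hx) (hm hv y hy) hl with rfl | rfl
      · exact absurd rfl hne
      · exact absurd hE' hE

omit [Fintype ι] in
/-- only one letter -/
private theorem tyLL_B1 (hC : C.Cub) (hL : TyL C.Rl C.p)
    {V : Fin 3 → AddSubgroup U} (hV : C.Vals V) {a : Q} (ha : 2 ≤ C.r a) (σ : ι → ℕ) (x : ι)
    (v₀ : List ι) (c c' : List ι →₀ ℤ) (h : C.Pr V a σ {x} v₀ c c') (tx : C.Tw a (σ x)) :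
    ∀ r, C.LHom a σ r → C.val r a c = 0 := by
  have hm : ∀ {v : List ι}, v.toFinset = {x} → ∀ k ∈ v, k = x := by
    intro v hv k hk
    rw [← List.mem_toFinset, hv, Finset.mem_singleton] at hk
    exact hk
  have hcase : ∀ v : List ι, v.toFinset = {x} → v = [x] ∨ v = [x, x] ∨
      (3 ≤ v.length ∧ 2 ≤ C.ntw a σ v) := by
    intro v hv
    have hm' := hm hv
    rcases v with _ | ⟨s, v⟩
    · have h1 : x ∈ ([] : List ι).toFinset := by
        rw [hv]
        exact Finset.mem_singleton_self x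
      exact absurd (List.mem_toFinset.1 h1) List.not_mem_nil
    obtain rfl := hm' s List.mem_cons_self
    rcases v with _ | ⟨t, v⟩
    · exact Or.inl rfl
    have ht := hm' t (List.mem_cons_of_mem _ List.mem_cons_self)
    rcases v with _ | ⟨t', v⟩
    · right
      left
      rw [ht]
    · right
      right
      rw [ht, C.ntw_cons_tw _ tx, C.ntw_cons_tw _ tx]
      simp only [List.length_cons]
      omega
  by_cases hE : C.Ew a σ v₀ [x, x]
  · refine C.one hV (C.ne_o ha) h [x, x] fun v hv hE' hne r hr => ?_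
    rcases hcase v hv with rfl | rfl | ⟨h1, h2⟩
    · exfalso
      have h3 := (hE.1 x).symm.trans (hE'.1 x)
      have h4 : wt C.p σ [x, x] x = 1 + C.p ^ σ x := by
        show (if x = x then 1 else 0) + C.p ^ σ x * ((if x = x then 1 else 0) + C.p ^ σ x * 0) = _
        rw [if_pos rfl]
        ring
      have h5 : wt C.p σ [x] x = 1 + 0 := by
        show (if x = x then 1 else 0) + C.p ^ σ x * 0 = _
        rw [if_pos rfl]
        ring
      rw [h4, h5] at h3
      have h6 := Nat.ModEq.add_left_cancel' 1 h3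
      rw [C.n_eq ha] at h6
      exact pow_not_zero C.hp ha _ h6
    · exact absurd rfl hne
    · exact tyLL_van C hC hL ha h1 h2 r hr
  · refine C.one hV (C.ne_o ha) h [x] fun v hv hE' hne r hr => ?_
    rcases hcase v hv with rfl | rfl | ⟨h1, h2⟩
    · exact absurd rfl hne
    · exact absurd hE' hE
    · exact tyLL_van C hC hL ha h1 h2 r hr

omit [Fintype ι] in
/-- the normal forms, if `x` is the only twisted letter -/
private theorem tyLL_nf {a : Q} {σ : ι → ℕ} {R : Finset ι} {x : ι}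
    (h0 : ∀ k ∈ R.erase x, ¬ C.Tw a (σ k)) (tx : C.Tw a (σ x)) {v v' : List ι}
    (hv : v.toFinset = R) (h1 : C.NfL a σ v') (h2 : C.Rw a σ v v') :
    ∃ u, v' = u ++ [x] ∧ ∀ k ∈ u, k ∈ R.erase x := by
  obtain ⟨u, y, rfl, hu, ty⟩ := h1
  have hR : ∀ k ∈ u ++ [y], k ∈ R := by
    intro k hk
    rw [← hv, List.mem_toFinset]
    exact h2.2.1 k hk
  have hy : y = x := by
    by_contra hne
    exact h0 y (Finset.mem_erase.2 ⟨hne, hR y (by simp)⟩) ty
  subst hy
  refine ⟨u, rfl, fun k hk => Finset.mem_erase.2 ⟨?_, hR k (by simp [hk])⟩⟩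
  rintro rfl
  exact hu k hk ty

omit [Fintype ι] [DecidableEq ι] in
private theorem tyLL_lv (r : ι → U) (d : List ι →₀ ℤ) :
    lv r d = Finsupp.linearCombination ℤ (fun v : List ι => (v.map r).prod) d := by
  rw [Finsupp.linearCombination_apply]
  rfl

omit [Fintype ι] [DecidableEq ι] in
/-- drop the last letter -/
private theorem tyLL_drop {a : Q} {σ : ι → ℕ} {x : ι} {c₁ : List ι →₀ ℤ}
    (h : ∀ v' ∈ c₁.support, ∃ u, v' = u ++ [x]) {r : ι → U} (hr : C.LHom a σ r) :
    C.val r a c₁ = lv r (c₁.mapDomain List.dropLast) * r x := by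
  unfold lv Base.val
  rw [Finsupp.sum_mapDomain_index (h := fun (v : List ι) (n : ℤ) => n • (v.map r).prod)
    (fun v => zero_smul ℤ _) (fun v m n => add_smul m n _)]
  unfold Finsupp.sum
  rw [Finset.sum_mul]
  refine Finset.sum_congr rfl fun v' hv' => ?_
  obtain ⟨u, rfl⟩ := h v' hv'
  show c₁ (u ++ [x]) • C.wv r a (u ++ [x]) =
    c₁ (u ++ [x]) • ((u ++ [x]).dropLast.map r).prod * r x
  rw [List.dropLast_concat, smul_mul_assoc, C.hom_wv hr (by simp), List.map_append,
    List.prod_append]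
  simp

omit [Fintype ι] in
/-- only one twisted letter, and `x ρ` can be rewritten if it occurs -/
private theorem tyLL_word (hC : C.Cub) (hL : TyL C.Rl C.p) (hOp : C.OpL)
    {a : Q} (ha : 2 ≤ C.r a) (σ : ι → ℕ) (R : Finset ι)
    {x : ι} (hx : x ∈ R) (tx : C.Tw a (σ x)) (h0 : ∀ k ∈ R.erase x, ¬ C.Tw a (σ k))
    (hne : (R.erase x).Nonempty) (v₀ : List ι)
    (hB : ¬ ∃ ρ, R.erase x = {ρ} ∧ C.Ew a σ v₀ [x, ρ] ∧
      ∀ ρ y, C.H a a 0 ρ → C.H a a (σ x) y → ρ ^ C.p * y = 0)
    (v : List ι) (hv : v.toFinset = R) (hE : C.Ew a σ v₀ v) :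
    ∃ d : List ι →₀ ℤ, (∀ u ∈ d.support, ∀ k ∈ u, k ∈ R.erase x) ∧
      ∀ r, C.LHom a σ r → C.wv r a v = lv r d * r x := by
  classical
  have hm : ∀ k ∈ R, k ∈ v := by
    intro k hk
    rw [← hv, List.mem_toFinset] at hk
    exact hk
  by_cases hl : 3 ≤ v.length
  · obtain ⟨c₁, h1, h2⟩ := C.rewL hC hL ha σ v hl ⟨x, hm x hx, tx⟩
    have h3 : ∀ v' ∈ c₁.support, ∃ u, v' = u ++ [x] ∧ ∀ k ∈ u, k ∈ R.erase x := fun v' hv' =>
      tyLL_nf C h0 tx hv (h1 v' hv').1 (h1 v' hv').2
    refine ⟨c₁.mapDomain List.dropLast, ?_, fun r hr => ?_⟩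
    · intro u hu
      obtain ⟨v', hv', rfl⟩ := Finset.mem_image.1 (Finsupp.mapDomain_support hu)
      obtain ⟨u, rfl, h4⟩ := h3 v' hv'
      rw [List.dropLast_concat]
      exact h4
    · rw [← tyLL_drop C (fun v' hv' => (h3 v' hv').imp fun u hu => hu.1) hr, ← h2 r hr]
      refine C.hom_wv hr ?_
      rintro rfl
      simp at hl
  · obtain ⟨ρ, hρ⟩ := hne
    obtain ⟨hρx, hρR⟩ := Finset.mem_erase.1 hρ
    have hvρ := tyLL_pair (Ne.symm hρx) (hm x hx) (hm ρ hρR) hl
    have hR0 : R.erase x = {ρ} := by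
      ext k
      rw [Finset.mem_erase, Finset.mem_singleton, ← hv, List.mem_toFinset]
      rcases hvρ with rfl | rfl
      · simp only [List.mem_cons, List.not_mem_nil, or_false]
        constructor
        · rintro ⟨h1, h2⟩
          exact h2.resolve_left h1
        · rintro rfl
          exact ⟨hρx, Or.inr rfl⟩
      · simp only [List.mem_cons, List.not_mem_nil, or_false]
        constructor
        · rintro ⟨h1, h2⟩
          exact h2.resolve_right h1
        · rintro rfl
          exact ⟨hρx, Or.inl rfl⟩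
    rcases hvρ with rfl | rfl
    · rcases C.rpxL hC hL hOp ha (σ x) tx with ⟨e, -, he⟩ | h4
      · refine ⟨e.mapDomain (fun i => List.replicate i ρ), ?_, fun r hr => ?_⟩
        · intro u hu k hk
          obtain ⟨i, -, rfl⟩ := Finset.mem_image.1 (Finsupp.mapDomain_support hu)
          rw [List.eq_of_mem_replicate hk]
          exact hρ
        · have h5 : C.H a a 0 (r ρ) :=
            C.H_modEq ((Nat.modEq_zero_iff_dvd).2 (not_not.1 (h0 ρ hρ))) (hr ρ)
          rw [C.hom_wv hr (by simp)]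
          have h6 : ([x, ρ].map r).prod = r x * r ρ := by simp
          rw [h6, he (r ρ) (r x) h5 (hr x)]
          unfold lv
          rw [Finsupp.sum_mapDomain_index (h := fun (v : List ι) (n : ℤ) => n • (v.map r).prod)
            (fun v => zero_smul ℤ _) (fun v m n => add_smul m n _)]
          unfold Finsupp.sum
          rw [Finset.sum_mul]
          refine Finset.sum_congr rfl fun i _ => ?_
          show e i • (r ρ ^ i * r x) = e i • ((List.replicate i ρ).map r).prod * r x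
          rw [List.map_replicate, List.prod_replicate, smul_mul_assoc]
      · exact absurd ⟨ρ, hR0, hE, h4⟩ hB
    · refine ⟨Finsupp.single [ρ] 1, ?_, fun r hr => ?_⟩
      · intro u hu k hk
        have h5 := Finsupp.support_single_subset hu
        rw [Finset.mem_singleton] at h5
        subst h5
        rw [List.mem_singleton] at hk
        rw [hk]
        exact hρ
      · rw [C.hom_wv hr (by simp)]
        unfold lv
        rw [Finsupp.sum_single_index (by rw [zero_smul])]
        simp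

omit [Fintype ι] in
private theorem tyLL_rep {a : Q} {σ : ι → ℕ} {ρ : ι} (hρ : ¬ C.Tw a (σ ρ)) (i : ℕ) :
    wt C.p σ (List.replicate i ρ) ρ ≡ i [MOD C.n a] := by
  induction i with
  | zero => rfl
  | succ i ih =>
    have h1 : wt C.p σ (List.replicate (i + 1) ρ) ρ =
        (if ρ = ρ then 1 else 0) + C.p ^ σ ρ * wt C.p σ (List.replicate i ρ) ρ := rfl
    have h2 : C.p ^ σ ρ ≡ 1 [MOD C.n a] := by
      have h := C.p_pow_modEq a (s := σ ρ) (t := 0) ((Nat.modEq_zero_iff_dvd).2 (not_not.1 hρ))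
      rwa [pow_zero] at h
    rw [h1, if_pos rfl]
    have h3 := (h2.mul ih).add_left 1
    rw [one_mul, Nat.add_comm 1 i] at h3
    exact h3

omit [Fintype ι] in
/-- the remaining case -/
private theorem tyLL_last (hC : C.Cub) (hL : TyL C.Rl C.p)
    {V : Fin 3 → AddSubgroup U} (hV : C.Vals V) {a : Q} (ha : 2 ≤ C.r a) (σ : ι → ℕ) (R : Finset ι)
    (v₀ : List ι) (c c' : List ι →₀ ℤ) (h : C.Pr V a σ R v₀ c c')
    {x : ι} (hx : x ∈ R) (tx : C.Tw a (σ x)) (h0 : ∀ k ∈ R.erase x, ¬ C.Tw a (σ k))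
    {ρ : ι} (hR : R.erase x = {ρ}) (hE : C.Ew a σ v₀ [x, ρ])
    (h4 : ∀ ρ y, C.H a a 0 ρ → C.H a a (σ x) y → ρ ^ C.p * y = 0) :
    ∀ r, C.LHom a σ r → C.val r a c = 0 := by
  have hρ : ρ ∈ R.erase x := by
    rw [hR]
    exact Finset.mem_singleton_self ρ
  obtain ⟨hρx, hρR⟩ := Finset.mem_erase.1 hρ
  refine C.one hV (C.ne_o ha) h [x, ρ] fun v hv hE' hne r hr => ?_
  have hm : ∀ k ∈ R, k ∈ v := by
    intro k hk
    rw [← hv, List.mem_toFinset] at hk
    exact hk
  by_cases hl : 3 ≤ v.length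
  · obtain ⟨c₁, h1, h2⟩ := C.rewL hC hL ha σ v hl ⟨x, hm x hx, tx⟩
    unfold Base.wv
    rw [h2 r hr]
    have h3 : C.val r a c₁ = 0 := by
      unfold Base.val
      refine Finset.sum_eq_zero fun v' hv' => ?_
      show c₁ v' • C.wv r a v' = 0
      obtain ⟨h5, h6⟩ := h1 v' hv'
      obtain ⟨u, hu, h7⟩ := tyLL_nf C h0 tx hv h5 h6
      have h8 : u = List.replicate u.length ρ := by
        refine List.eq_replicate_iff.2 ⟨rfl, fun k hk => ?_⟩
        have h9 := h7 k hk
        rw [hR, Finset.mem_singleton] at h9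
        exact h9
      obtain ⟨i, hi⟩ : ∃ i, u = List.replicate i ρ := ⟨_, h8⟩
      subst hi
      subst hu
      have hxρ : x ≠ ρ := Ne.symm hρx
      have hw : wt C.p σ (List.replicate i ρ ++ [x]) ρ ≡ i [MOD C.n a] := by
        rw [wt_append]
        have h9 : wt C.p σ [x] ρ = 0 := by
          show (if x = ρ then 1 else 0) + C.p ^ σ x * 0 = 0
          rw [if_neg hxρ, mul_zero, add_zero]
        rw [h9, mul_zero, add_zero]
        exact tyLL_rep C (h0 ρ hρ) i
      have hw2 : C.p ^ σ x ≡ i [MOD C.n a] := by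
        have h9 := (((hE.1 ρ).symm.trans (hE'.1 ρ)).trans (h6.2.2.1 ρ)).trans hw
        rwa [tyLL_wt2 C.p σ hxρ] at h9
      have hip : C.p ≤ i := by
        have hr0 : 0 < C.r a := by omega
        have hs : σ x % C.r a ≠ 0 := fun h9 => tx (Nat.dvd_of_mod_eq_zero h9)
        have h10 : C.p ^ (σ x % C.r a) ≡ C.p ^ σ x [MOD C.n a] :=
          C.p_pow_modEq a (Nat.mod_modEq _ _)
        have h11 : C.p ^ (σ x % C.r a) < C.n a := by
          rw [C.n_eq ha]
          have h12 : C.p ^ (σ x % C.r a) ≤ C.p ^ (C.r a - 1) :=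
            Nat.pow_le_pow_right C.hp.pos (by
              have := Nat.mod_lt (σ x) hr0
              omega)
          have h13 : C.p ^ C.r a = C.p ^ (C.r a - 1) * C.p := by
            rw [← pow_succ]
            congr 1
            omega
          have h14 : C.p ^ (C.r a - 1) * 2 ≤ C.p ^ (C.r a - 1) * C.p :=
            Nat.mul_le_mul_left _ C.hp.two_le
          have h15 : C.p ^ 1 ≤ C.p ^ (C.r a - 1) := Nat.pow_le_pow_right C.hp.pos (by omega)
          have h16 := C.hp.two_le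
          rw [pow_one] at h15
          omega
        have h17 : C.p ^ 1 ≤ C.p ^ (σ x % C.r a) := Nat.pow_le_pow_right C.hp.pos (by omega)
        rw [pow_one] at h17
        by_contra h18
        have h19 := (h10.trans hw2).eq_of_lt_of_lt h11 (by omega)
        omega
      have h20 : C.H a a 0 (r ρ) :=
        C.H_modEq ((Nat.modEq_zero_iff_dvd).2 (not_not.1 (h0 ρ hρ))) (hr ρ)
      have h21 : ((List.replicate i ρ ++ [x]).map r).prod = 0 := by
        rw [List.map_append, List.prod_append, List.map_replicate, List.prod_replicate,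
          ← Nat.sub_add_cancel hip, pow_add, mul_assoc]
        have h22 : ([x].map r).prod = r x := by simp
        rw [h22, h4 (r ρ) (r x) h20 (hr x), mul_zero]
      unfold Base.wv
      rw [h21, mul_zero, smul_zero]
    rw [h3, mul_zero]
  · exfalso
    rcases tyLL_pair (Ne.symm hρx) (hm x hx) (hm ρ hρR) hl with rfl | rfl
    · exact hne rfl
    · exact tyLL_swap C ha hρx tx hE' hE

omit [Fintype ι] [DecidableEq ι] in
/-- add the combinations of the words -/
private theorem tyLL_sum {a : Q} {σ : ι → ℕ} {x : ι} {R₀ : Finset ι} (c : List ι →₀ ℤ)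
    (D : List ι → (List ι →₀ ℤ))
    (hD : ∀ v ∈ c.support, (∀ u ∈ (D v).support, ∀ k ∈ u, k ∈ R₀) ∧
      ∀ r, C.LHom a σ r → C.wv r a v = lv r (D v) * r x) :
    ∃ d : List ι →₀ ℤ, (∀ u ∈ d.support, ∀ k ∈ u, k ∈ R₀) ∧
      ∀ r, C.LHom a σ r → C.val r a c = lv r d * r x := by
  refine ⟨∑ v ∈ c.support, c v • D v, ?_, fun r hr => ?_⟩
  · intro u hu
    rw [Finsupp.mem_support_iff, Finsupp.finsetSum_apply] at hu
    obtain ⟨v, hv, h1⟩ := Finset.exists_ne_zero_of_sum_ne_zero hu
    refine (hD v hv).1 u ?_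
    rw [Finsupp.mem_support_iff]
    intro h2
    apply h1
    rw [Finsupp.smul_apply, h2, smul_zero]
  · rw [tyLL_lv, map_sum, Finset.sum_mul]
    unfold Base.val Finsupp.sum
    refine Finset.sum_congr rfl fun v hv => ?_
    show c v • C.wv r a v = _
    rw [(hD v hv).2 r hr, tyLL_lv, map_smul, smul_mul_assoc]

theorem tyLL (hC : C.Cub) (hL : TyL C.Rl C.p) (hOp : C.OpL) {T : Submodule ℤ P} (hT : C.Dst T)
    {V : Fin 3 → AddSubgroup U} (hV : C.Vals V) {a : Q} (ha : 2 ≤ C.r a) (σ : ι → ℕ) (R : Finset ι)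
    (htw : ∃ k ∈ R, C.Tw a (σ k)) (v₀ : List ι) (c c' : List ι →₀ ℤ) (h : C.Pr V a σ R v₀ c c') :
    ∀ r, C.LHom a σ r → C.val r a c = 0 := by
  classical
  obtain ⟨x, hx, tx⟩ := htw
  by_cases hA : ∃ y ∈ R, x ≠ y ∧ C.Tw a (σ y)
  · obtain ⟨y, hy, hxy, ty⟩ := hA
    exact tyLL_A C hC hL hV ha σ R v₀ c c' h hx hy hxy tx ty
  · have h0 : ∀ k ∈ R.erase x, ¬ C.Tw a (σ k) := by
      intro k hk tk
      obtain ⟨h1, h2⟩ := Finset.mem_erase.1 hk
      exact hA ⟨k, h2, Ne.symm h1, tk⟩
    rcases (R.erase x).eq_empty_or_nonempty with hR | hR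
    · have h1 : R = {x} := by
        rw [← Finset.insert_erase hx, hR]
        rfl
      subst h1
      exact tyLL_B1 C hC hL hV ha σ x v₀ c c' h tx
    · by_cases hB : ∃ ρ, R.erase x = {ρ} ∧ C.Ew a σ v₀ [x, ρ] ∧
          ∀ ρ y, C.H a a 0 ρ → C.H a a (σ x) y → ρ ^ C.p * y = 0
      · obtain ⟨ρ, h1, h2, h3⟩ := hB
        exact tyLL_last C hC hL hV ha σ R v₀ c c' h hx tx h0 h1 h2 h3
      · have h1 := tyLL_word C hC hL hOp ha σ R hx tx h0 hR v₀ hB
        choose! D hD using h1
        obtain ⟨d, h2, h3⟩ := tyLL_sum C c D fun v hv => hD v (h.supp v hv).1 (h.supp v hv).2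
        obtain ⟨d', h2', h3'⟩ := tyLL_sum C c' D fun v hv =>
          hD v (h.supp' v hv).1 (h.supp' v hv).2
        intro r hr
        rw [h3 r hr]
        refine C.trL hT hV σ x (R.erase x) (Finset.notMem_erase x R) h0 d d' h2 h2' ?_ r hr
        intro r hr
        rw [← h3 r hr, ← h3' r hr]
        exact h.in3 r hr

end Ctx

end ADM
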