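import Pool.Agent.ADM.Defs

/-!
# ADM-Uni

Left inverses in corners.

PLAN.  Choose `u₀` with `π u₀ = s`, `u₁ = e * u₀`, `z = u₁ * x - e`; `π z = π e * s * π x - π e = π e * π e - π e = 0`,
`e * z = z`, `z * e = z`.  `z ^ (N + 1) = 0`.  Put `v = ∑_{k ≤ N} (-1)^k z ^ k`; then `v * (e + z) = e`: precisely
`(∑_{k ≤ N} (-z) ^ k) * (1 + z) = 1 - (-z) ^ (N + 1) = 1` (`geom_sum`, in the commutative subring generated by `z`:
`Commute`), and `(e + z) = (1 + z) * e`, so `v * (e + z) = e`.  `u = v * u₁`.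
-/

namespace ADM

open AD ADN

theorem uni (U : Type) [Ring U] (S : Type) [Ring S] (π : U →+* S) (hπ : Function.Surjective π) (N : ℕ)
    (hN : ∀ l : List U, N ≤ l.length → (∀ x ∈ l, π x = 0) → l.prod = 0)
    (e x : U) (he : e * e = e) (hx1 : e * x = x) (hx2 : x * e = x) (s : S) (hs : s * π x = π e) :
    ∃ u, u * x = e ∧ e * u = u := by
  obtain ⟨u₀, hu₀⟩ := hπ s
  obtain ⟨z, hz⟩ : ∃ z, z = e * u₀ * x - e := ⟨_, rfl⟩
  have hπz : π z = 0 := by
    rw [hz, map_sub, map_mul, map_mul, hu₀, mul_assoc, hs, ← map_mul, he, sub_self]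
  have hze : z * e = z := by
    rw [hz, sub_mul, mul_assoc, hx2, he]
  have hpow : (-z) ^ N = 0 := by
    have h := hN (List.replicate N (-z)) (by rw [List.length_replicate]) (by
      intro y hy
      rw [List.eq_of_mem_replicate hy, map_neg, hπz, neg_zero])
    rwa [List.prod_replicate] at h
  obtain ⟨v, hv⟩ : ∃ v, v = ∑ i ∈ Finset.range N, (-z) ^ i := ⟨_, rfl⟩
  have hv1 : v * (1 + z) = 1 := by
    have h := geom_sum_mul_neg (-z) N
    rw [hpow, sub_zero, sub_neg_eq_add, ← hv] at h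
    exact h
  have hx3 : e * u₀ * x = (1 + z) * e := by
    rw [add_mul, one_mul, hze, hz]
    abel
  refine ⟨e * v * (e * u₀), ?_, ?_⟩
  · rw [mul_assoc, hx3, ← mul_assoc, mul_assoc e v, hv1, mul_one, he]
  · rw [mul_assoc e v, ← mul_assoc e e, he]

end ADM
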