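import Pool.Agent.ADM.Step
import Pool.Agent.ADM.Desc
import Pool.Agent.ADM.Ntw

/-!
# ADM-VanT

Type T.

PLAN.
* vanT1: `desc0` with `P v = (3 ≤ v.length ∧ ¬ r a ∣ tot σ v)` (preserved: lengths do not decrease, `Ew` contains `tot σ v ≡ tot σ v'`).  `step` with
  the first letter, the second letter, the rest: `tot` is the sum of the three, so hσ holds, hT and hT' hold trivially (the
  hypotheses give `r ∣ tot σ v`), and hL, hR, hM by `TyT`.
* vanT2: `desc0` with `P v = (3 ≤ ntw v)` (preserved by `ntw_mono`).  `v = u ++ x :: w` with the first twisted letter `x`, `ntw w ≥ 2`,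
  `w = m ++ y :: u'` with the last twisted letter `y`, `m ≠ []` (it contains a twisted letter).  `step` with the blocks `u ++ [x]`, `m`, `y :: u'`:
  `tot (u ++ [x]) ≡ σ x`, `tot (y :: u') ≡ σ y` are not divisible by `r` (`tot_untw`), so hσ, hL, hR, hT, hT' hold trivially and hM by `TyT`.
* rewT: `desc` with `P v = (2 ≤ ntw v ∧ r a ∣ tot σ v)`, `G v = (NfT v ∨ 3 ≤ ntw v)`, `μ v` = the number of letters after the last twisted letter
  (e.g. `(v.reverse.takeWhile (fun k => decide (¬ Tw a (σ k)))).length`).  Let `P v`, `¬ G v`: `ntw v = 2`, `v = u₁ ++ x :: (u₂ ++ y :: u₃)` with untwisted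
  `u₁, u₂, u₃`, `x, y` twisted, `r ∣ σ x + σ y`.
  If `u₂ ≠ []`: `step` with the blocks `u₁ ++ [x]`, `u₂`, `y :: u₃`; the totals are `≡ σ x, 0, σ y`, so no `Off` is needed.
  If `u₂ = []`: `u₃ ≠ []` (otherwise `NfT`): `stepT` with the blocks `u₁ ++ [x]`, `[y]`, `u₃`; the word `u₃ ++ u₁ ++ [x, y]` has the same length and
  `μ = 0 < μ v = u₃.length`; use the combination `single (u₃ ++ u₁ ++ [x, y]) z + c`.
  Result: a combination of words with `NfT` or `3 ≤ ntw`; the latter ones vanish by vanT2, remove them (`Finsupp.filter`).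
-/

namespace ADM

open AD ADN

namespace Ctx

variable {U : Type} [Ring U] {Q : Type} [Fintype Q] (C : Ctx U Q)
variable {ι : Type} [DecidableEq ι]

/-- exactly two twisted letters, at the end -/
def NfT (a : Q) (σ : ι → ℕ) (v : List ι) : Prop :=
  ∃ u x y, v = u ++ [x, y] ∧ (∀ k ∈ u, ¬ C.Tw a (σ k)) ∧ C.Tw a (σ x) ∧ C.Tw a (σ y)

private theorem vt_single (σ : ι → ℕ) (x : ι) : tot σ [x] = σ x := by
  unfold tot
  simp

private theorem vt_cons (σ : ι → ℕ) (x : ι) (v : List ι) : tot σ (x :: v) = σ x + tot σ v := by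
  unfold tot
  rw [List.map_cons, List.sum_cons]

private theorem vt_len {a : Q} {σ : ι → ℕ} {v : List ι} {c : List ι →₀ ℤ} (h : C.Deep a σ v c)
    {v' : List ι} (hv' : v' ∈ c.support) : v.length ≤ v'.length := by
  rcases (h v' hv').2 with h1 | ⟨h1, -⟩
  · exact h1.le
  · exact h1.le

private theorem vt_dvd {a : Q} {σ : ι → ℕ} {v v' : List ι} (h : C.Rw a σ v v') :
    C.r a ∣ tot σ v ↔ C.r a ∣ tot σ v' :=
  (h.2.2.2).dvd_iff (dvd_refl _)

/-- a twisted letter after untwisted letters -/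
private theorem vt_left {a : Q} {σ : ι → ℕ} {u : List ι} {x : ι} (hu : ∀ k ∈ u, ¬ C.Tw a (σ k))
    (hx : C.Tw a (σ x)) : ¬ C.r a ∣ tot σ (u ++ [x]) := by
  intro h
  rw [tot_append, vt_single] at h
  exact hx ((Nat.dvd_add_right (tot_untw C hu)).1 h)

private theorem vt_right {a : Q} {σ : ι → ℕ} {u : List ι} {x : ι} (hu : ∀ k ∈ u, ¬ C.Tw a (σ k))
    (hx : C.Tw a (σ x)) : ¬ C.r a ∣ tot σ (x :: u) := by
  intro h
  rw [vt_cons] at h
  exact hx ((Nat.dvd_add_left (tot_untw C hu)).1 h)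

theorem vanT1 (hC : C.Cub) (hT : TyT C.Rl C.p) {a : Q} (ha : 2 ≤ C.r a) (σ : ι → ℕ) (v : List ι)
    (hv : 3 ≤ v.length) (htw : ¬ C.r a ∣ tot σ v) (r : ι → U) (hr : C.LHom a σ r) :
    (v.map r).prod = 0 := by
  refine C.desc0 σ (fun v => 3 ≤ v.length ∧ ¬ C.r a ∣ tot σ v) ?_ ?_ v ⟨hv, htw⟩ r hr
  · intro v hv hnil
    rw [hnil] at hv
    have h1 := hv.1
    simp at h1
  · intro v hv
    obtain ⟨hv1, hv2⟩ := hv
    obtain ⟨x, y, w, rfl, hw⟩ : ∃ x y w, v = [x] ++ [y] ++ w ∧ w ≠ [] := by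
      match v, hv1 with
      | x :: y :: z :: w, _ => exact ⟨x, y, z :: w, rfl, by simp⟩
    have htot : tot σ ([x] ++ [y] ++ w) = tot σ [x] + tot σ [y] + tot σ w := by
      rw [tot_append, tot_append]
    obtain ⟨c, hc, hr'⟩ := C.step hC ha σ [x] [y] w (by simp) (by simp) hw
      (fun h => hv2 (by
        rw [htot]
        exact dvd_add (dvd_add h.1 h.2.1) h.2.2))
      (fun _ _ => hT.1) (fun _ _ => hT.2.1) (fun _ _ => hT.2.2)
      (fun h1 h2 => absurd (by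
        rw [htot]
        exact dvd_add h1 h2) hv2)
      (fun h1 h2 => absurd (by
        rw [htot, add_assoc]
        exact dvd_add h1 h2) hv2)
    refine ⟨c, fun v' hv' => ⟨hv1.trans (vt_len C hc hv'), fun h => hv2 ?_⟩, hc, hr'⟩
    exact (vt_dvd C (hc v' hv').1).2 h

theorem vanT2 (hC : C.Cub) (hT : TyT C.Rl C.p) {a : Q} (ha : 2 ≤ C.r a) (σ : ι → ℕ) (v : List ι)
    (hv : 3 ≤ C.ntw a σ v) (r : ι → U) (hr : C.LHom a σ r) : (v.map r).prod = 0 := by
  refine C.desc0 σ (fun v => 3 ≤ C.ntw a σ v) ?_ ?_ v hv r hr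
  · intro v hv hnil
    rw [hnil, ntw_nil C] at hv
    omega
  · intro v hv
    obtain ⟨u, x, w, rfl, hu, hx⟩ := ntw_first C (v := v) (by omega : 0 < C.ntw a σ v)
    rw [ntw_append C, ntw_cons_tw C w hx, (ntw_eq_zero C).2 hu] at hv
    obtain ⟨m, y, u', rfl, hu', hy⟩ := ntw_last C (v := w) (by omega : 0 < C.ntw a σ w)
    rw [ntw_append C, ntw_cons_tw C u' hy, (ntw_eq_zero C).2 hu'] at hv
    have hm : m ≠ [] := by
      rintro rfl
      rw [ntw_nil C] at hv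
      omega
    have e : u ++ x :: (m ++ y :: u') = (u ++ [x]) ++ m ++ (y :: u') := by simp
    have h0 := vt_left C hu hx
    have h2 := vt_right C hu' hy
    obtain ⟨c, hc, hr'⟩ := C.step hC ha σ (u ++ [x]) m (y :: u') (by simp) hm (by simp)
      (fun h => h0 h.1)
      (fun _ _ => hT.1) (fun _ _ => hT.2.1) (fun _ _ => hT.2.2)
      (fun _ h => absurd h h2) (fun h _ => absurd h h0)
    rw [e]
    refine ⟨c, fun v' hv' => ?_, hc, hr'⟩
    have h3 := ntw_mono C (hc v' hv').1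
    rw [← e, ntw_append C, ntw_cons_tw C _ hx, (ntw_eq_zero C).2 hu, ntw_append C,
      ntw_cons_tw C u' hy, (ntw_eq_zero C).2 hu'] at h3
    omega

open Classical in
/-- number of letters after the last twisted letter -/
private noncomputable def vtMu (a : Q) (σ : ι → ℕ) (v : List ι) : ℕ :=
  (v.reverse.takeWhile fun k => decide (¬ C.Tw a (σ k))).length

private theorem vtMu_eq {a : Q} {σ : ι → ℕ} (u : List ι) {y : ι} {w : List ι}
    (hy : C.Tw a (σ y)) (hw : ∀ k ∈ w, ¬ C.Tw a (σ k)) : C.vtMu a σ (u ++ y :: w) = w.length := by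
  unfold vtMu
  have e : (u ++ y :: w).reverse = w.reverse ++ (y :: u.reverse) := by simp
  rw [e, List.takeWhile_append_of_pos, List.takeWhile_cons_of_neg]
  · simp
  · simpa using hy
  · intro k hk
    have := hw k (List.mem_reverse.1 hk)
    simpa using this

private theorem vt_main (hC : C.Cub) (hT : TyT C.Rl C.p) {a : Q} (ha : 2 ≤ C.r a) (σ : ι → ℕ) :
    ∀ v : List ι, (2 ≤ C.ntw a σ v ∧ C.r a ∣ tot σ v) → ¬ (C.NfT a σ v ∨ 3 ≤ C.ntw a σ v) →
      ∃ c : List ι →₀ ℤ,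
      (∀ v' ∈ c.support, (2 ≤ C.ntw a σ v' ∧ C.r a ∣ tot σ v') ∧ C.Rw a σ v v' ∧
        (v.length < v'.length ∨ (v.length = v'.length ∧
          ((C.p : ℤ) ∣ c v' ∨ C.vtMu a σ v' < C.vtMu a σ v)))) ∧
      ∀ r, C.LHom a σ r → (v.map r).prod = C.val r a c := by
  classical
  intro v hv hG
  obtain ⟨hv1, hv2⟩ := hv
  push Not at hG
  obtain ⟨hG1, hG2⟩ := hG
  have hP : ∀ v', C.Rw a σ v v' → 2 ≤ C.ntw a σ v' ∧ C.r a ∣ tot σ v' := fun v' h =>
    ⟨hv1.trans (ntw_mono C h), (vt_dvd C h).1 hv2⟩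
  have hdeep : ∀ c : List ι →₀ ℤ, C.Deep a σ v c → ∀ v' ∈ c.support,
      (2 ≤ C.ntw a σ v' ∧ C.r a ∣ tot σ v') ∧ C.Rw a σ v v' ∧
        (v.length < v'.length ∨ (v.length = v'.length ∧
          ((C.p : ℤ) ∣ c v' ∨ C.vtMu a σ v' < C.vtMu a σ v))) := by
    intro c hc v' hv'
    obtain ⟨h1, h2⟩ := hc v' hv'
    refine ⟨hP v' h1, h1, ?_⟩
    rcases h2 with h2 | ⟨h2, h3⟩
    · exact Or.inl h2
    · exact Or.inr ⟨h2, Or.inl h3⟩
  obtain ⟨u₁, x, w, rfl, hu₁, hx⟩ := ntw_first C (v := v) (by omega : 0 < C.ntw a σ v)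
  rw [ntw_append C, ntw_cons_tw C w hx, (ntw_eq_zero C).2 hu₁] at hv1 hG2
  obtain ⟨u₂, y, u₃, rfl, hu₃, hy⟩ := ntw_last C (v := w) (by omega : 0 < C.ntw a σ w)
  rw [ntw_append C, ntw_cons_tw C u₃ hy, (ntw_eq_zero C).2 hu₃] at hv1 hG2
  have hu₂ : ∀ k ∈ u₂, ¬ C.Tw a (σ k) := (ntw_eq_zero C).1 (by omega)
  have h0 := vt_left C hu₁ hx
  have h2 := vt_right C hu₃ hy
  by_cases h : u₂ = []
  · subst h
    have h3 : u₃ ≠ [] := by
      rintro rfl
      exact hG1 ⟨u₁, x, y, by simp, hu₁, hx, hy⟩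
    have e : u₁ ++ x :: ([] ++ y :: u₃) = (u₁ ++ [x]) ++ [y] ++ u₃ := by simp
    have h01 : C.r a ∣ tot σ (u₁ ++ [x]) + tot σ [y] := by
      rw [e, tot_append, tot_append] at hv2
      exact (Nat.dvd_add_left (tot_untw C hu₃)).1 hv2
    obtain ⟨hRw, z, c, hc, hr'⟩ := C.stepT hC ha σ (u₁ ++ [x]) [y] u₃ (by simp) (by simp) h3 h0 h01
      (tot_untw C hu₃)
    rw [← e] at hRw hc
    refine ⟨Finsupp.single (u₃ ++ (u₁ ++ [x]) ++ [y]) z + c, ?_, ?_⟩
    · intro v' hv'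
      by_cases h4 : v' = u₃ ++ (u₁ ++ [x]) ++ [y]
      · subst h4
        refine ⟨hP _ hRw, hRw, Or.inr ⟨?_, Or.inr ?_⟩⟩
        · simp only [List.length_append, List.length_cons, List.length_nil]
          omega
        · have h5 : C.vtMu a σ (u₃ ++ (u₁ ++ [x]) ++ [y]) = 0 :=
            vtMu_eq C (u₃ ++ (u₁ ++ [x])) hy (w := []) (by simp)
          have h6 : C.vtMu a σ (u₁ ++ x :: ([] ++ y :: u₃)) = u₃.length := by
            rw [e]
            have h7 := vtMu_eq C (a := a) (σ := σ) (u₁ ++ [x]) hy hu₃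
            have e2 : u₁ ++ [x] ++ [y] ++ u₃ = (u₁ ++ [x]) ++ y :: u₃ := by simp
            rw [e2]
            exact h7
          rw [h5, h6]
          exact List.length_pos_iff.2 h3
      · have h5 : (Finsupp.single (u₃ ++ (u₁ ++ [x]) ++ [y]) z + c) v' = c v' := by
          rw [Finsupp.add_apply, Finsupp.single_eq_of_ne h4, zero_add]
        have h6 : v' ∈ c.support := by
          rw [Finsupp.mem_support_iff, ← h5]
          exact Finsupp.mem_support_iff.1 hv'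
        have h7 := hdeep c hc v' h6
        rw [h5]
        exact h7
    · intro r hr
      rw [e, hr' r hr, C.val_add, C.val_single, hom_wv C hr (by simp)]
  · have e : u₁ ++ x :: (u₂ ++ y :: u₃) = (u₁ ++ [x]) ++ u₂ ++ (y :: u₃) := by simp
    obtain ⟨c, hc, hr'⟩ := C.step hC ha σ (u₁ ++ [x]) u₂ (y :: u₃) (by simp) h (by simp)
      (fun h => h0 h.1)
      (fun _ _ => hT.1) (fun _ _ => hT.2.1) (fun _ _ => hT.2.2)
      (fun _ h => absurd h h2) (fun h _ => absurd h h0)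
    rw [← e] at hc
    refine ⟨c, hdeep c hc, fun r hr => ?_⟩
    rw [e]
    exact hr' r hr

theorem rewT (hC : C.Cub) (hT : TyT C.Rl C.p) {a : Q} (ha : 2 ≤ C.r a) (σ : ι → ℕ) (v : List ι)
    (hv : 2 ≤ C.ntw a σ v) (ht : C.r a ∣ tot σ v) :
    ∃ c : List ι →₀ ℤ, (∀ v' ∈ c.support, C.NfT a σ v' ∧ C.Rw a σ v v') ∧
      ∀ r, C.LHom a σ r → (v.map r).prod = C.val r a c := by
  classical
  have hne : ∀ v, (2 ≤ C.ntw a σ v ∧ C.r a ∣ tot σ v) → v ≠ [] := by
    intro v hv hnil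
    rw [hnil, ntw_nil C] at hv
    omega
  obtain ⟨c, hc1, hc2⟩ := C.desc σ (fun v => 2 ≤ C.ntw a σ v ∧ C.r a ∣ tot σ v)
    (fun v => C.NfT a σ v ∨ 3 ≤ C.ntw a σ v) (C.vtMu a σ) hne (vt_main C hC hT ha σ) v ⟨hv, ht⟩
  refine ⟨c.filter (fun v' => C.NfT a σ v'), ?_, ?_⟩
  · intro v' hv'
    rw [Finsupp.support_filter, Finset.mem_filter] at hv'
    exact ⟨hv'.2, (hc1 v' hv'.1).2.2⟩
  · intro r hr
    rw [hc2 r hr]
    have h1 := Finsupp.filter_pos_add_filter_neg c (fun v' => C.NfT a σ v')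
    have h2 : C.val r a (c.filter (fun v' => ¬ C.NfT a σ v')) = 0 := by
      unfold Base.val
      refine Finset.sum_eq_zero fun v' hv' => ?_
      rw [Finsupp.support_filter, Finset.mem_filter] at hv'
      obtain ⟨h3, h4, -⟩ := hc1 v' hv'.1
      simp only
      rw [hom_wv C hr (hne v' h3), vanT2 C hC hT ha σ v' (h4.resolve_left hv'.2) r hr, smul_zero]
    calc C.val r a c = C.val r a (c.filter (fun v' => C.NfT a σ v') +
          c.filter (fun v' => ¬ C.NfT a σ v')) := by rw [h1]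
      _ = C.val r a (c.filter (fun v' => C.NfT a σ v')) := by rw [C.val_add, h2, add_zero]

end Ctx

end ADM
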