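import Pool.Agent.ADM.Defs
import Pool.Agent.ADN.Blocks

/-!
# ADM-Wa

A finite ring modulo its (nilpotent) radical is a product of matrix rings over finite fields.

As in the proof of `ADN.blocks` (Pool/Agent/ADN/Blocks.lean): a finite ring is semiprimary, so the quotient by the Jacobson radical
is a product of matrix rings over division rings (Wedderburn-Artin), and the finite division rings are fields
(`littleWedderburn`).
-/

namespace ADM

open AD ADN

private theorem wa_fin (U : Type) [Ring U] [Finite U] (D : Type) [DivisionRing D] (d : ℕ) [NeZero d]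
    (π : U →+* Matrix (Fin d) (Fin d) D) (hπ : Function.Surjective π) : Finite D := by
  have hfM : Finite (Matrix (Fin d) (Fin d) D) := Finite.of_surjective π hπ
  exact Finite.of_injective (Matrix.scalar (Fin d) : D → Matrix (Fin d) (Fin d) D)
    (by
      intro x y hxy
      exact Matrix.scalar_inj.1 hxy)

private theorem wa_aux (U : Type) [Ring U] [Finite U] :
    ∃ (s : ℕ) (d : Fin s → ℕ) (F : Fin s → Type) (_ : ∀ t, DivisionRing (F t)) (_ : ∀ t, Finite (F t))
      (π : U →+* (∀ t, Matrix (Fin (d t)) (Fin (d t)) (F t))) (N : ℕ),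
      (∀ t, 1 ≤ d t) ∧ Function.Surjective π ∧
      ∀ l : List U, N ≤ l.length → (∀ x ∈ l, π x = 0) → l.prod = 0 := by
  classical
  have : IsArtinianRing U := inferInstance
  have : IsSemiprimaryRing U := inferInstance
  obtain ⟨n, D, d, hD, hd, ⟨e⟩⟩ :=
    IsSemisimpleRing.exists_ringEquiv_pi_matrix_divisionRing (U ⧸ Ring.jacobson U)
  obtain ⟨N, hN⟩ := IsSemiprimaryRing.isNilpotent (R := U)
  have hfin : ∀ i, Finite (D i) := by
    intro i
    have := hd i
    refine wa_fin U (D i) (d i)
      ((Pi.evalRingHom (fun i => Matrix (Fin (d i)) (Fin (d i)) (D i)) i).comp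
        (e.toRingHom.comp (Ideal.Quotient.mk (Ring.jacobson U)))) ?_
    intro x
    obtain ⟨y, hy⟩ := Ideal.Quotient.mk_surjective (e.symm (Function.update 0 i x))
    refine ⟨y, ?_⟩
    simp [hy]
  refine ⟨n, d, D, hD, hfin, e.toRingHom.comp (Ideal.Quotient.mk (Ring.jacobson U)), N, ?_, ?_, ?_⟩
  · intro t
    have := (hd t).out
    omega
  · intro x
    obtain ⟨y, hy⟩ := Ideal.Quotient.mk_surjective (e.symm x)
    refine ⟨y, ?_⟩
    simp [hy]
  · intro l hlN hlx
    have hJ : ∀ x ∈ l, x ∈ Ring.jacobson U := by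
      intro x hx
      have h1 := hlx x hx
      have h2 : e (Ideal.Quotient.mk (Ring.jacobson U) x) = 0 := h1
      rw [map_eq_zero_iff e e.injective] at h2
      exact Ideal.Quotient.eq_zero_iff_mem.1 h2
    have key : ∀ l : List U, (∀ x ∈ l, x ∈ Ring.jacobson U) → l.prod ∈ (Ring.jacobson U) ^ l.length := by
      intro l
      induction l with
      | nil =>
        intro _
        rw [List.length_nil, Submodule.pow_zero, Ideal.one_eq_top]
        trivial
      | cons a l ih =>
        intro h
        rw [List.prod_cons, List.length_cons, Ideal.IsTwoSided.pow_succ]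
        exact Ideal.mul_mem_mul (h a (by simp)) (ih (fun x hx => h x (by simp [hx])))
    have h3 := key l hJ
    have h4 := Ideal.pow_le_pow_right hlN h3
    rw [hN] at h4
    exact (Submodule.mem_bot U).1 h4

theorem wa (U : Type) [Ring U] [Finite U] :
    ∃ (s : ℕ) (d : Fin s → ℕ) (F : Fin s → Type) (_ : ∀ t, Field (F t)) (_ : ∀ t, Finite (F t))
      (π : U →+* (∀ t, Matrix (Fin (d t)) (Fin (d t)) (F t))) (N : ℕ),
      (∀ t, 1 ≤ d t) ∧ Function.Surjective π ∧
      ∀ l : List U, N ≤ l.length → (∀ x ∈ l, π x = 0) → l.prod = 0 := by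
  obtain ⟨s, d, F, hF, hfin, π, N, h1, h2, h3⟩ := wa_aux U
  exact ⟨s, d, F, fun t => @littleWedderburn (F t) (hF t) (hfin t), hfin, π, N, h1, h2, h3⟩

end ADM
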